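import Mathlib
import Pool.Agent.H988R2.Perc.T01

/-!
# The exact one-arm formula on the cylinder (critical bond percolation): definitions

Cyclic words, Temperley-Lieb generators, transfer operator (for any number `N = m+1` of strands),
polynomial ground states, the braid-limit operator, the loop-counting pairing, determinants.
-/

namespace Pool.Agent.H863R2.Cyl
open Pool.Agent.H988R2.Perc (Word flipR flipL rem firstArc PD)

/-! ## words on the circle

A word of length `N` describes a cyclic non-crossing matching of the strands `0,…,N-1`: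
`true` opens an arc, `false` closes it, reading cyclically to the right. If `N` is odd there is
exactly one unmatched `true` (the defect). -/

/-- insertion of a small arc at the positions `i, i+1` (list version) -/
abbrev lins (i : ℕ) (w : Word) : Word := Pool.Agent.H988R2.Perc.ins i w

/-- admissible words -/
def Ok (w : Word) : Prop := w.count true = (w.length + 1) / 2

/-- the letters `x, y` at the positions `0, 1` are closed by an arc; `v` = the other letters -/
def flipC (x y : Bool) (v : Word) : Word :=
  match x, y with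
  | true, true => flipR 0 v
  | false, false => (flipL 0 v.reverse).reverse
  | _, _ => v

/-- close the strands `0, 1` and remove them -/
def cap0 : Word → Word
  | x :: y :: v => flipC x y v
  | w => w

/-- close the strands `i, i+1` and remove them (`i + 2 ≤ length`) -/
def cap (i : ℕ) (w : Word) : Word := (cap0 (w.rotate i)).rotate (w.length - 2 - i)

/-- the Temperley-Lieb generator at the strands `0, 1` -/
def act0 : Word → Word
  | x :: y :: v => true :: false :: flipC x y v
  | w => w

/-- the Temperley-Lieb generator at the strands `i, i+1` (modulo the length) -/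
def act (i : ℕ) (w : Word) : Word := (act0 (w.rotate i)).rotate (w.length - i % w.length)

/-- rotation: strand `i` becomes strand `i+1` (the last letter becomes the first one) -/
def rotr (w : Word) : Word := w.rotate (w.length - 1)

/-- inverse rotation (the first letter becomes the last one) -/
def rotl (w : Word) : Word := w.rotate 1

/-- insertion of a small arc across the seam -/
def seam (w : Word) : Word := false :: w ++ [true]

/-! ## typed words -/

/-- the admissible words of length `N` -/
def Wd (N : ℕ) : Type := {w : Word // w.length = N ∧ Ok w}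

instance (N : ℕ) : Finite (Wd N) := by
  have h : Finite {w : List Bool // w.length = N} := (List.finite_length_eq Bool N).to_subtype
  exact Finite.of_injective (fun σ : Wd N => (⟨σ.1, σ.2.1⟩ : {w : List Bool // w.length = N}))
    (fun a b hab => Subtype.ext (by simpa using hab))

noncomputable instance (N : ℕ) : Fintype (Wd N) := Fintype.ofFinite _

instance (N : ℕ) : DecidableEq (Wd N) := inferInstanceAs (DecidableEq {_w : Word // _})

/-- index modulo `m+1` -/
def ix (m i : ℕ) : Fin (m + 1) := ⟨i % (m + 1), Nat.mod_lt _ (Nat.succ_pos m)⟩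

open Classical in
/-- the Temperley-Lieb generator joining the strands `i`, `i+1` modulo `m+1` -/
noncomputable def E (m i : ℕ) (σ : Wd (m + 1)) : Wd (m + 1) :=
  if h : (act i σ.1).length = m + 1 ∧ Ok (act i σ.1) then ⟨_, h⟩ else σ

open Classical in
/-- rotation: strand `i` becomes strand `i+1` -/
noncomputable def rot (m : ℕ) (σ : Wd (m + 1)) : Wd (m + 1) :=
  if h : (rotr σ.1).length = m + 1 ∧ Ok (rotr σ.1) then ⟨_, h⟩ else σ

open Classical in
/-- inverse rotation -/
noncomputable def rotInv (m : ℕ) (σ : Wd (m + 1)) : Wd (m + 1) :=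
  if h : (rotl σ.1).length = m + 1 ∧ Ok (rotl σ.1) then ⟨_, h⟩ else σ

/-- insertion of a small arc at the positions `0,1` -/
def ins {L : ℕ} (σ : Wd L) : Wd (L + 2) := ⟨true :: false :: σ.1, by
  obtain ⟨w, h1, h2⟩ := σ
  refine ⟨by simp [h1], ?_⟩
  unfold Ok at h2 ⊢
  simp only [List.count_cons_self, List.length_cons, h1] at h2 ⊢
  rw [List.count_cons_of_ne (by decide), h2]
  omega⟩

/-- the base word `true^h false^h (true)` with `h = ⌊N/2⌋` -/
def baseW (N : ℕ) : Word :=
  List.replicate (N / 2) true ++ List.replicate (N / 2) false ++ List.replicate (N % 2) true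

/-- the base word -/
def base (m : ℕ) : Wd (m + 1) := ⟨baseW (m + 1), by
  refine ⟨?_, ?_⟩
  · simp only [baseW, List.length_append, List.length_replicate]; omega
  · unfold Ok baseW
    simp only [List.count_append, List.count_replicate, List.length_append,
      List.length_replicate, beq_self_eq_true, if_true]
    simp
    omega⟩

/-- `σ` has a small arc at the positions `i, i+1` (cyclically) -/
def arcAt (i : ℕ) (w : Word) : Prop := ∃ v, w.rotate i = true :: false :: v

/-! ### push forward of vectors -/

/-- push forward of a vector along a map of finite sets -/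
def push {X Y : Type*} [Fintype X] [DecidableEq Y] {R : Type*} [AddCommMonoid R]
    (f : X → Y) (v : X → R) : Y → R := fun y => ∑ x, if f x = y then v x else 0

/-! ### the row transfer maps -/

/-- the ordered product `E (k+j-1)^{c (k+j)} ⋯ E k^{c (k+1)}` (applied to a pattern) -/
noncomputable def word (m : ℕ) (c : Fin (m + 1) → Bool) (k : ℕ) : ℕ → Wd (m + 1) → Wd (m + 1)
  | 0, σ => σ
  | (j + 1), σ => if c (ix m (k + j + 1)) = true then E m (k + j) (word m c k j σ)
      else word m c k j σ

open Classical in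
/-- the transfer map of a row of `m+1` plaquettes in the states `c`.
State `false` of a plaquette: bottom-right and left-top are connected;
state `true`: bottom-left and right-top are connected. -/
noncomputable def Tc (m : ℕ) (c : Fin (m + 1) → Bool) (σ : Wd (m + 1)) : Wd (m + 1) :=
  if h : ∃ k : ℕ, k < m + 1 ∧ c (ix m k) = false then rot m (word m c (Nat.find h) m σ)
  else rotInv m σ

section weights
variable {R : Type*} [CommRing R]

/-- plaquette weights -/
def wt (q : R) (b : Bool) (x : R) : R := if b then -q - q ^ 2 * x else -q ^ 2 - q * x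

/-- inhomogeneous transfer operator -/
noncomputable def Tz {m : ℕ} (q : R) (z : Fin (m + 1) → R) (v : Wd (m + 1) → R) :
    Wd (m + 1) → R :=
  fun σ => ∑ c : Fin (m + 1) → Bool, (∏ j, wt q (c j) (z j)) * push (Tc m c) v σ

/-- the R-matrix `(q x - q² y) + (x - y) e_i` -/
noncomputable def Rh {m : ℕ} (q x y : R) (i : ℕ) (v : Wd (m + 1) → R) : Wd (m + 1) → R :=
  fun σ => (q * x - q ^ 2 * y) * v σ + (x - y) * push (E m i) v σ

end weights

/-! ### specification of the polynomial ground state -/

open MvPolynomial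

/-- the chain ordering `h, h+1, …, m, 0, 1, …, h-1` of `Fin (m+1)`, `h = ⌊(m+1)/2⌋` -/
def chain (m : ℕ) (j : ℕ) : Fin (m + 1) := ix m ((m + 1) / 2 + j)

/-- the product formula for the base component -/
noncomputable def Dl (q : ℂ) (m : ℕ) : MvPolynomial (Fin (m + 1)) ℂ :=
  ∏ j ∈ Finset.range (m + 1), ∏ i ∈ Finset.range j,
    (C q * X (chain m j) - C (q ^ 2) * X (chain m i))

/-- polynomial ground state -/
structure PsiSpec (q : ℂ) (m : ℕ) (Ψ : Wd (m + 1) → MvPolynomial (Fin (m + 1)) ℂ) :
    Prop where
  base : Ψ (base m) = Dl q m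
  exch : ∀ i : ℕ, i < m → ∀ σ,
    (C q * X (ix m i) - C (q ^ 2) * X (ix m (i + 1))) * Ψ σ
      + (X (ix m i) - X (ix m (i + 1))) * push (E m i) Ψ σ
    = (C q * X (ix m (i + 1)) - C (q ^ 2) * X (ix m i))
      * rename (Equiv.swap (ix m i) (ix m (i + 1))) (Ψ σ)
  rot : ∀ σ, Ψ (rot m σ) = rename (finRotate (m + 1)) (Ψ σ)
  deg : ∀ σ i, (Ψ σ).degreeOf i ≤ m
  stat : Tz (C q) X Ψ = fun σ => (∏ j, (1 + X j)) * Ψ σ

/-! ## linear algebra on words (finitely supported functions) -/

/-- vectors -/
abbrev VW : Type := Word →₀ ℂ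

/-- the basis vector of a word -/
noncomputable abbrev bs (w : Word) : VW := Finsupp.single w 1

/-- linear extension of a map of words -/
noncomputable def lin (f : Word → Word) : VW →ₗ[ℂ] VW := Finsupp.lmapDomain ℂ ℂ f

/-- vectors supported on the admissible words of length `N` -/
def VN (N : ℕ) : Submodule ℂ VW := Finsupp.supported ℂ ℂ {w : Word | w.length = N ∧ Ok w}

/-- the sum of the coefficients -/
noncomputable def tot : VW →ₗ[ℂ] ℂ := Finsupp.linearCombination ℂ (fun _ => (1 : ℂ))

/-- recursion factor -/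
noncomputable def fac (q x : ℂ) (l : List ℂ) : ℂ := x * (l.map (fun y => (y - q ^ 2 * x) ^ 2)).prod

/-- the family of all normalised polynomial ground states, as functions of lists -/
structure Fam (q : ℂ) (Ψ : List ℂ → VW) : Prop where
  mem : ∀ z, Ψ z ∈ VN z.length
  nil : Ψ [] = bs []
  one : ∀ x, Ψ [x] = bs [true]
  two : ∀ x y, Ψ [x, y] [true, false] = (q - 1)⁻¹ * (q * x - q ^ 2 * y)
  three : ∀ x y z, Ψ [x, y, z] [true, false, true] =
    -(q - 1)⁻¹ * ((q * z - q ^ 2 * y) * (q * x - q ^ 2 * y) * (q * x - q ^ 2 * z))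
  deg : ∀ (N : ℕ) (w : Word), PD N (N - 1) (fun z => Ψ z w)
  exch : ∀ (u v : List ℂ) (x y : ℂ),
    (q * y - q ^ 2 * x) • Ψ (u ++ y :: x :: v) =
      (q * x - q ^ 2 * y) • Ψ (u ++ x :: y :: v) +
      (x - y) • lin (act u.length) (Ψ (u ++ x :: y :: v))
  rot : ∀ (x : ℂ) (m : List ℂ), Ψ (x :: m) = lin rotr (Ψ (m ++ [x]))
  recu : ∀ (u v : List ℂ) (x : ℂ),
    Ψ (u ++ x :: (q * x) :: v) = fac q x (u ++ v) • lin (lins u.length) (Ψ (u ++ v))
  stat : ∀ (m : ℕ) (σ : Wd (m + 1)),
    ∑ c : Fin (m + 1) → Bool, push (Tc m c)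
      (fun τ : Wd (m + 1) => Ψ (List.replicate (m + 1) 1) τ.1) σ
      = 2 ^ (m + 1) * Ψ (List.replicate (m + 1) 1) σ.1
  tot_ne : ∀ N : ℕ, tot (Ψ (List.replicate N 1)) ≠ 0

/-! ## the braid limit -/

/-- specification of the operator `K` adding a strand at the left, in braid form -/
structure KSpec (q : ℂ) (K : VW →ₗ[ℂ] VW) : Prop where
  nil : K (bs []) = bs [true]
  one : K (bs [true]) = (q - 1)⁻¹ • (q • bs [false, true] - q ^ 2 • bs [true, false])
  ins : ∀ (i : ℕ) (w : Word), Ok w → i ≤ w.length → K (bs (lins i w)) = lin (lins (i + 1)) (K (bs w))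
  seam : ∀ w : Word, Ok w → K (bs (seam w)) =
    -(q ^ 2 • lin seam (K (bs w)) + q • lin (act 0) (lin seam (K (bs w))))

/-! ## the loop counting pairing -/

/-- `f w' w` = number of contractible loops around the seam face when the upper pattern `w` is
glued to the lower pattern `w'` -/
structure FSpec (f : Word → Word → ℕ) : Prop where
  nil : f [] [] = 0
  one : f [true] [true] = 0
  insR : ∀ (i : ℕ) (w' w : Word), Ok w' → Ok w → w'.length = w.length + 2 → i ≤ w.length →
    f w' (lins i w) = f (cap i w') w
  insL : ∀ (i : ℕ) (w' w : Word), Ok w' → Ok w → w.length = w'.length + 2 → i ≤ w'.length →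
    f (lins i w') w = f w' (cap i w)
  seam : ∀ (w' w : Word), Ok w' → Ok w → w'.length = w.length →
    f (seam w') (seam w) = f w' w + 1

/-- the pairing with weight `t` per loop -/
noncomputable def pr (f : Word → Word → ℕ) (t : ℂ) : VW →ₗ[ℂ] VW →ₗ[ℂ] ℂ :=
  Finsupp.linearCombination ℂ (fun w' => Finsupp.linearCombination ℂ (fun w => t ^ f w' w))

/-- the constant of the braid limit (from `N` to `N+1` strands) -/
noncomputable def cst (N : ℕ) (t : ℂ) : ℂ := if Even N then 1 else (t + 2) / 3

/-! ## determinants -/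

/-- the kernel -/
noncomputable def kern (q w : ℂ) {N : ℕ} (z : Fin N → ℂ) : Matrix (Fin N) (Fin N) ℂ :=
  Matrix.of fun i j => (q ^ 2 * z i - q * z j)⁻¹ + w * (q ^ 2 * z j - q * z i)⁻¹

/-- generic points -/
def Gen (q : ℂ) {N : ℕ} (z : Fin N → ℂ) : Prop :=
  (∀ i, z i ≠ 0) ∧ (∀ i j, i ≠ j → z i ≠ z j) ∧ (∀ i j, i ≠ j → q ^ 2 * z i ≠ q * z j)

/-- the squared Vandermonde product -/
noncomputable def vd {N : ℕ} (z : Fin N → ℂ) : ℂ := ∏ i, ∏ j ∈ Finset.univ.filter (i < ·), (z i - z j) ^ 2

/-- `∏_{i≠j} (q² z_i - q z_j)²` -/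
noncomputable def wd (q : ℂ) {N : ℕ} (z : Fin N → ℂ) : ℂ :=
  ∏ i, ∏ j ∈ Finset.univ.filter (· ≠ i), (q ^ 2 * z i - q * z j) ^ 2

/-- the normalisation of the determinant formula -/
noncomputable def cN (q w : ℂ) (N : ℕ) : ℂ :=
  (-w⁻¹) ^ (N / 2) * (if Even N then 1 else (q ^ 2 - q) / (1 + w))

/-- the matrix `ω + (i+j choose i)` -/
noncomputable def pas (w : ℂ) (N : ℕ) : Matrix (Fin N) (Fin N) ℂ :=
  Matrix.of fun i j => (if i = j then w else 0) + ((i.val + j.val).choose i.val : ℂ)

end Pool.Agent.H863R2.Cyl
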