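import Pool.Agent.H863R2.Cyl.Defs

/-! Module L1: lengths, counts, rotation -/

namespace Pool.Agent.H863R2.Cyl
open Pool.Agent.H988R2.Perc (Word flipR flipL rem firstArc PD)

namespace LstAux

theorem rotate_congr {α : Type*} (l : List α) {a b : ℕ} (h : a % l.length = b % l.length) :
    l.rotate a = l.rotate b := by
  rw [← List.rotate_mod l a, h, List.rotate_mod]

theorem length_flipC (x y : Bool) (v : Word) : (flipC x y v).length = v.length := by
  cases x <;> cases y <;>
    simp [flipC, Pool.Agent.H988R2.Perc.length_flipR, Pool.Agent.H988R2.Perc.length_flipL]

theorem length_act0 (w : Word) : (act0 w).length = w.length := by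
  match w with
  | [] => rfl
  | [x] => rfl
  | x :: y :: v => simp [act0, length_flipC]

theorem count_flipR (v : Word) : ∀ d, d + v.count true < v.count false →
    (flipR d v).count true = v.count true + 1 := by
  induction v with
  | nil => intro d h; simp at h
  | cons x v ih =>
    intro d h
    cases x with
    | true =>
      have h2 := ih (d + 1) (by
        simp only [List.count_cons] at h
        simp at h
        omega)
      simp only [flipR, List.count_cons, h2]
      simp
    | false =>
      cases d with
      | zero => simp [flipR]
      | succ d =>
        have h2 := ih d (by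
          simp only [List.count_cons] at h
          simp at h
          omega)
        simp only [flipR, List.count_cons, h2]
        simp

theorem count_flipL (v : Word) : ∀ d, d + v.count false < v.count true →
    (flipL d v).count true + 1 = v.count true := by
  induction v with
  | nil => intro d h; simp at h
  | cons x v ih =>
    intro d h
    cases x with
    | false =>
      have h2 := ih (d + 1) (by
        simp only [List.count_cons] at h
        simp at h
        omega)
      simp only [flipL, List.count_cons]
      simp
      exact h2
    | true =>
      cases d with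
      | zero => simp [flipL]
      | succ d =>
        have h2 := ih d (by
          simp only [List.count_cons] at h
          simp at h
          omega)
        simp only [flipL, List.count_cons, ← h2]
        simp

theorem count_add (v : Word) : v.count true + v.count false = v.length := by
  induction v with
  | nil => simp
  | cons x v ih =>
    cases x <;> simp only [List.count_cons, List.length_cons] <;> simp <;> omega

theorem ok_act0 {w : Word} (h : Ok w) : Ok (act0 w) := by
  match w, h with
  | [], h => exact h
  | [x], h => exact h
  | x :: y :: v, h =>
    unfold Ok at h ⊢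
    rw [length_act0]
    have hadd := count_add v
    cases x <;> cases y <;> simp only [act0, flipC, List.count_cons, List.length_cons] at h ⊢ <;>
      simp at h ⊢
    · have hc : 0 + v.reverse.count false < v.reverse.count true := by
        rw [List.count_reverse, List.count_reverse]
        omega
      have h2 := count_flipL v.reverse 0 hc
      rw [List.count_reverse] at h2
      omega
    · omega
    · omega
    · have h2 := count_flipR v 0 (by omega)
      omega

end LstAux

open LstAux

theorem length_cap {i : ℕ} {w : Word} (h : i + 2 ≤ w.length) : (cap i w).length + 2 = w.length := by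
  unfold cap
  rw [List.length_rotate]
  have h1 : (w.rotate i).length = w.length := List.length_rotate w i
  match hw : w.rotate i with
  | [] => rw [hw] at h1; simp at h1; omega
  | [x] => rw [hw] at h1; simp at h1; omega
  | x :: y :: v =>
    rw [hw] at h1
    simp only [cap0, length_flipC]
    simpa using h1

theorem length_act (i : ℕ) (w : Word) : (act i w).length = w.length := by
  unfold act
  rw [List.length_rotate, length_act0, List.length_rotate]

theorem length_rotr (w : Word) : (rotr w).length = w.length := List.length_rotate _ _

theorem length_rotl (w : Word) : (rotl w).length = w.length := List.length_rotate _ _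

theorem ok_rotate {w : Word} (k : ℕ) : Ok (w.rotate k) ↔ Ok w := by
  unfold Ok
  rw [(List.rotate_perm w k).count_eq, List.length_rotate]

theorem ok_rotr {w : Word} : Ok (rotr w) ↔ Ok w := ok_rotate _

theorem ok_rotl {w : Word} : Ok (rotl w) ↔ Ok w := ok_rotate _

theorem ok_lins {i : ℕ} {w : Word} : Ok (lins i w) ↔ Ok w := by
  unfold Ok
  rw [Pool.Agent.H988R2.Perc.length_ins]
  have h1 : (lins i w).count true = w.count true + 1 := by
    unfold lins Pool.Agent.H988R2.Perc.ins
    rw [List.count_append]
    simp only [List.count_cons]
    have h2 : w.count true = (w.take i).count true + (w.drop i).count true := by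
      rw [← List.count_append, List.take_append_drop]
    rw [h2]
    simp
    omega
  rw [h1]
  omega

theorem ok_seam {w : Word} : Ok (seam w) ↔ Ok w := by
  unfold Ok seam
  simp only [List.count_cons, List.count_append, List.length_cons, List.length_append]
  simp
  omega

theorem ok_act {w : Word} (i : ℕ) (h : Ok w) : Ok (act i w) := by
  unfold act
  rw [ok_rotate]
  exact ok_act0 ((ok_rotate i).2 h)

theorem act_eq {i : ℕ} {w : Word} (h : i + 2 ≤ w.length) : act i w = lins i (cap i w) := by
  obtain ⟨u, b, rfl, hu⟩ := Pool.Agent.H988R2.Perc.exists_split (i := i) (w := w) (by omega)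
  match b, h with
  | [], h => simp at h; omega
  | [x], h => simp at h; omega
  | x :: y :: v, h =>
    have hrot : (u ++ x :: y :: v).rotate i = x :: y :: v ++ u := by
      rw [← hu]
      exact List.rotate_append_length_eq u (x :: y :: v)
    have hlen : (u ++ x :: y :: v).length = v.length + 2 + i := by
      simp
      omega
    unfold act cap
    rw [hrot, hlen]
    have hmod : i % (v.length + 2 + i) = i := Nat.mod_eq_of_lt (by omega)
    rw [hmod]
    have e1 : v.length + 2 + i - i = v.length + 2 := by omega
    have e2 : v.length + 2 + i - 2 - i = v.length := by omega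
    rw [e1, e2]
    have e3 : act0 (x :: y :: v ++ u) = true :: false :: flipC x y (v ++ u) := rfl
    have e4 : cap0 (x :: y :: v ++ u) = flipC x y (v ++ u) := rfl
    rw [e3, e4]
    have hc : (flipC x y (v ++ u)).length = v.length + i := by
      rw [length_flipC, List.length_append, hu]
    obtain ⟨c1, c2, hc12, hc1⟩ := Pool.Agent.H988R2.Perc.exists_split (i := v.length)
      (w := flipC x y (v ++ u)) (by omega)
    rw [hc12]
    have hc2 : c2.length = i := by
      rw [hc12, List.length_append, hc1] at hc
      omega
    have e6 : lins i (c2 ++ c1) = c2 ++ true :: false :: c1 :=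
      Pool.Agent.H988R2.Perc.ins_app c2 c1 hc2
    rw [← hc1, List.rotate_append_length_eq c1 c2, e6]
    have e5 := List.rotate_append_length_eq (true :: false :: c1) c2
    simpa using e5

theorem ok_cap {i : ℕ} {w : Word} (h : Ok w) (hi : i + 2 ≤ w.length) : Ok (cap i w) := by
  have h1 := ok_act i h
  rw [act_eq hi, ok_lins] at h1
  exact h1

theorem rotl_rotr (w : Word) : rotl (rotr w) = w := by
  unfold rotl rotr
  rw [List.rotate_rotate]
  rcases Nat.eq_zero_or_pos w.length with h | h
  · rw [List.length_eq_zero_iff.1 h]
    rfl
  · rw [Nat.sub_add_cancel h, List.rotate_length]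

theorem rotr_rotl (w : Word) : rotr (rotl w) = w := by
  unfold rotl rotr
  rw [List.length_rotate, List.rotate_rotate]
  rcases Nat.eq_zero_or_pos w.length with h | h
  · rw [List.length_eq_zero_iff.1 h]
    rfl
  · rw [Nat.add_sub_cancel' h, List.rotate_length]

theorem rotr_concat (w : Word) (x : Bool) : rotr (w ++ [x]) = x :: w := by
  unfold rotr
  have h : (w ++ [x]).length - 1 = w.length := by simp
  rw [h, List.rotate_append_length_eq]
  rfl

theorem rotl_cons (w : Word) (x : Bool) : rotl (x :: w) = w ++ [x] := by
  unfold rotl
  rw [List.rotate_cons_succ, List.rotate_zero]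

theorem rotr_act (i : ℕ) (w : Word) : rotr (act i w) = act (i + 1) (rotr w) := by
  rcases Nat.eq_zero_or_pos w.length with h | h
  · rw [List.length_eq_zero_iff.1 h]
    simp [rotr, act, act0]
  · have h1 : (rotr w).rotate (i + 1) = w.rotate i := by
      unfold rotr
      rw [List.rotate_rotate]
      apply rotate_congr
      have : w.length - 1 + (i + 1) = i + w.length := by omega
      rw [this, Nat.add_mod_right]
    have h2 : rotr (act i w) = (act i w).rotate (w.length - 1) := by
      unfold rotr
      rw [length_act]
    rw [h2]
    unfold act
    rw [h1, length_rotr, List.rotate_rotate]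
    apply rotate_congr
    rw [length_act0, List.length_rotate]
    set L := w.length with hL
    have hr : i % L < L := Nat.mod_lt _ h
    rcases Nat.lt_or_ge (i % L + 1) L with h3 | h3
    · have h4 : (i + 1) % L = i % L + 1 := by
        rw [Nat.add_mod]
        rcases Nat.lt_or_ge 1 L with h5 | h5
        · rw [Nat.mod_eq_of_lt h5, Nat.mod_eq_of_lt h3]
        · omega
      rw [h4]
      have h5 : L - i % L + (L - 1) = L - (i % L + 1) + L := by omega
      rw [h5, Nat.add_mod_right]
    · have h6 : i % L + 1 = L := by omega
      have h4 : (i + 1) % L = 0 := by
        rw [Nat.add_mod]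
        rcases Nat.lt_or_ge 1 L with h5 | h5
        · rw [Nat.mod_eq_of_lt h5, h6, Nat.mod_self]
        · have : L = 1 := by omega
          rw [this]
          omega
      rw [h4]
      have h5 : L - i % L + (L - 1) = L - 0 := by omega
      rw [h5]

theorem act_per (i : ℕ) (w : Word) : act (i + w.length) w = act i w := by
  unfold act
  rw [Nat.add_mod_right]
  have h : w.rotate (i + w.length) = w.rotate i := rotate_congr w (Nat.add_mod_right _ _)
  rw [h]

theorem rotl_cap {i : ℕ} {w : Word} (h : i + 3 ≤ w.length) :
    rotl (cap (i + 1) w) = cap i (rotl w) := by
  unfold rotl cap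
  rw [List.rotate_rotate, List.rotate_rotate, List.length_rotate]
  have h1 : w.length - 2 - (i + 1) + 1 = w.length - 2 - i := by omega
  rw [h1, add_comm 1 i]

theorem arcAt_lins {i : ℕ} {w : Word} (h : i ≤ w.length) : arcAt i (lins i w) := by
  obtain ⟨a, b, rfl, ha⟩ := Pool.Agent.H988R2.Perc.exists_split h
  refine ⟨b ++ a, ?_⟩
  have h1 : lins i (a ++ b) = a ++ true :: false :: b := Pool.Agent.H988R2.Perc.ins_app a b ha
  rw [h1, ← ha, List.rotate_append_length_eq]
  rfl

theorem LstAux.rotate_back {α : Type*} (l : List α) (L i : ℕ) (hL : l.length = L) (h0 : 0 < L) :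
    l.rotate (L - i % L + i) = l := by
  have h1 : L - i % L + i = L * (1 + i / L) := by
    have h2 := Nat.div_add_mod i L
    have h3 : i % L < L := Nat.mod_lt _ h0
    rw [mul_add, mul_one]
    omega
  rw [h1, ← hL]
  exact List.rotate_length_mul l _

theorem arcAt_act {w : Word} (i : ℕ) (h : 2 ≤ w.length) : arcAt i (act i w) := by
  unfold arcAt act
  rw [List.rotate_rotate, rotate_back _ w.length i (by rw [length_act0, List.length_rotate])
    (by omega)]
  have h1 : (w.rotate i).length = w.length := List.length_rotate w i
  match hw : w.rotate i with
  | [] => rw [hw] at h1; simp at h1; omega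
  | [x] => rw [hw] at h1; simp at h1; omega
  | x :: y :: v => exact ⟨flipC x y v, rfl⟩

theorem act_of_arcAt {i : ℕ} {w : Word} (h : arcAt i w) : act i w = w := by
  obtain ⟨v, hv⟩ := h
  have hlen : w.length = v.length + 2 := by
    rw [← List.length_rotate w i, hv]
    simp
  unfold act
  have h1 : act0 (w.rotate i) = w.rotate i := by
    rw [hv]
    rfl
  rw [h1, List.rotate_rotate, add_comm]
  exact rotate_back w w.length i rfl (by omega)

end Pool.Agent.H863R2.Cyl
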