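import Pool.Agent.H863R2.Cyl.Lst

/-!
Module L2 (helper221): relations between `cap`, `lins`, `seam`.
-/

namespace Pool.Agent.H863R2.Cyl
open Pool.Agent.H988R2.Perc (Word flipR flipL rem firstArc PD)

namespace L2Aux
open Pool.Agent.H988R2.Perc (ins_app exists_split flipR_ins flipL_ins length_flipR length_flipL
  firstArc_app)

theorem flipC_TT (v : Word) : flipC true true v = flipR 0 v := rfl
theorem flipC_FF (v : Word) : flipC false false v = (flipL 0 v.reverse).reverse := rfl
theorem flipC_TF (v : Word) : flipC true false v = v := rfl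
theorem flipC_FT (v : Word) : flipC false true v = v := rfl

theorem length_flipC (x y : Bool) (v : Word) : (flipC x y v).length = v.length := by
  rcases x with _ | _ <;> rcases y with _ | _
  · rw [flipC_FF, List.length_reverse, length_flipL, List.length_reverse]
  · rw [flipC_FT]
  · rw [flipC_TF]
  · rw [flipC_TT, length_flipR]

theorem flipC_lins (x y : Bool) {k : ℕ} {v : Word} (hk : k ≤ v.length) :
    flipC x y (lins k v) = lins k (flipC x y v) := by
  rcases x with _ | _ <;> rcases y with _ | _
  · rw [flipC_FF, flipC_FF]
    obtain ⟨a, b, rfl, ha⟩ := exists_split hk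
    obtain ⟨u', v', h1, h2, h3⟩ := flipL_ins 0 b.reverse a.reverse
    have e1 : (lins k (a ++ b)).reverse = b.reverse ++ false :: true :: a.reverse := by
      rw [lins, ins_app _ _ ha]; simp
    have e2 : (a ++ b).reverse = b.reverse ++ a.reverse := by simp
    rw [e1, e2, h2, h3]
    have hv' : v'.length = a.length := by
      have h4 := congrArg List.length h2
      rw [length_flipL] at h4
      simp only [List.length_append, List.length_reverse] at h4 h1
      omega
    have e3 : (u' ++ v').reverse = v'.reverse ++ u'.reverse := by simp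
    rw [e3, lins, ins_app _ _ (by simp [hv', ha])]
    simp
  · rw [flipC_FT, flipC_FT]
  · rw [flipC_TF, flipC_TF]
  · rw [flipC_TT, flipC_TT]
    exact flipR_ins 0 k v hk

theorem rotate_app {n : ℕ} (a b : Word) (h : a.length = n) : (a ++ b).rotate n = b ++ a := by
  subst h
  exact List.rotate_append_length_eq a b

/-- the basic form of `cap` -/
theorem cap_app {i : ℕ} (a b : Word) (x y : Bool) (h : a.length = i) :
    cap i (a ++ x :: y :: b) = (flipC x y (b ++ a)).rotate b.length := by
  unfold cap
  rw [rotate_app _ _ h]
  have e : (x :: y :: b) ++ a = x :: y :: (b ++ a) := by simp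
  rw [e]
  have e2 : (a ++ x :: y :: b).length - 2 - i = b.length := by
    simp only [List.length_append, List.length_cons]; omega
  rw [e2]
  rfl

theorem split3 {i : ℕ} {w : Word} (h : i + 2 ≤ w.length) :
    ∃ (a b : Word) (x y : Bool), w = a ++ x :: y :: b ∧ a.length = i := by
  obtain ⟨a, b, rfl, ha⟩ := exists_split (i := i) (w := w) (by omega)
  rcases b with _ | ⟨x, b⟩
  · simp at h; omega
  rcases b with _ | ⟨y, b⟩
  · simp at h; omega
  exact ⟨a, b, x, y, rfl, ha⟩

theorem rot_lins1 {n k : ℕ} {v : Word} (hk : k ≤ n) (hn : n ≤ v.length) :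
    (lins k v).rotate (n + 2) = lins (k + v.length - n) (v.rotate n) := by
  obtain ⟨a, c, rfl, ha⟩ := exists_split hn
  obtain ⟨u, b, rfl, hu⟩ := exists_split (i := k) (w := a) (by omega)
  have e0 : lins k ((u ++ b) ++ c) = (u ++ true :: false :: b) ++ c := by
    rw [List.append_assoc, lins, ins_app _ _ hu]; simp
  have e2 : c ++ (u ++ b) = (c ++ u) ++ b := by simp
  rw [e0, rotate_app _ _ (by simp at ha ⊢; omega), rotate_app _ _ ha, e2, lins,
    ins_app _ _ (by simp at ha ⊢; omega)]
  simp

theorem rot_lins2 {n k : ℕ} {v : Word} (hk : n ≤ k) (hn : k ≤ v.length) :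
    (lins k v).rotate n = lins (k - n) (v.rotate n) := by
  obtain ⟨a, c, rfl, ha⟩ := exists_split hn
  obtain ⟨u, b, rfl, hu⟩ := exists_split (i := n) (w := a) (by omega)
  rw [lins, ins_app _ _ ha]
  have e1 : (u ++ b) ++ true :: false :: c = u ++ (b ++ true :: false :: c) := by simp
  rw [e1, rotate_app _ _ hu]
  have e3 : (u ++ b) ++ c = u ++ (b ++ c) := by simp
  rw [e3, rotate_app _ _ hu]
  have e2 : (b ++ c) ++ u = b ++ (c ++ u) := by simp
  rw [e2, lins, ins_app _ _ (by simp at ha ⊢; omega)]
  simp

/-- a word has an adjacent pair `true, false` or is of the form `false^p true^q` -/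
theorem dich (w : Word) : (∃ a b : Word, w = a ++ true :: false :: b) ∨
    ∃ p q : ℕ, w = List.replicate p false ++ List.replicate q true := by
  induction w with
  | nil => exact Or.inr ⟨0, 0, rfl⟩
  | cons x w ih =>
    rcases ih with ⟨a, b, rfl⟩ | ⟨p, q, rfl⟩
    · exact Or.inl ⟨x :: a, b, by simp⟩
    · rcases x with _ | _
      · exact Or.inr ⟨p + 1, q, by simp [List.replicate_succ]⟩
      · rcases p with _ | p
        · exact Or.inr ⟨0, q + 1, by simp [List.replicate_succ]⟩
        · exact Or.inl ⟨[], List.replicate p false ++ List.replicate q true,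
            by simp [List.replicate_succ]⟩

theorem firstArc_rep (p q : ℕ) :
    firstArc (List.replicate p false ++ List.replicate q true) = p + q := by
  induction p with
  | zero =>
    induction q with
    | zero => rfl
    | succ q ih =>
      simp only [List.replicate_zero, List.nil_append, zero_add] at ih ⊢
      rw [List.replicate_succ]
      have : firstArc (true :: List.replicate q true) = firstArc (List.replicate q true) + 1 := by
        rcases q with _ | q
        · rfl
        · rw [List.replicate_succ]; rfl
      rw [this, ih]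
  | succ p ih =>
    rw [List.replicate_succ, List.cons_append]
    have : ∀ v : Word, firstArc (false :: v) = firstArc v + 1 := fun v => rfl
    rw [this, ih]
    omega

theorem flipR_rep (d n : ℕ) : flipR d (List.replicate n true) = List.replicate n true := by
  induction n generalizing d with
  | zero => rfl
  | succ n ih =>
    rw [List.replicate_succ, flipR, ih]

theorem flipL_rep (d n : ℕ) : flipL d (List.replicate n false) = List.replicate n false := by
  induction n generalizing d with
  | zero => rfl
  | succ n ih =>
    rw [List.replicate_succ, flipL, ih]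

theorem cap_rep (b : Bool) {i n : ℕ} (h : i + 2 ≤ n) :
    cap i (List.replicate n b) = List.replicate (n - 2) b := by
  obtain ⟨k, rfl⟩ : ∃ k, n = i + 2 + k := ⟨n - (i + 2), by omega⟩
  have e : List.replicate (i + 2 + k) b = List.replicate i b ++ b :: b :: List.replicate k b := by
    rw [← List.replicate_succ, ← List.replicate_succ, List.replicate_append_replicate]
    congr 1; omega
  rw [e, cap_app _ _ _ _ (List.length_replicate), List.replicate_append_replicate]
  have e2 : flipC b b (List.replicate (k + i) b) = List.replicate (k + i) b := by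
    rcases b with _ | _
    · rw [flipC_FF, List.reverse_replicate, flipL_rep, List.reverse_replicate]
    · rw [flipC_TT, flipR_rep]
  rw [e2, List.rotate_replicate]
  congr 1; omega

end L2Aux

open L2Aux
open Pool.Agent.H988R2.Perc (ins_app exists_split flipR_ins flipL_ins length_flipR length_flipL
  firstArc_app length_ins)

theorem cap_lins_self {i : ℕ} {w : Word} (h : i ≤ w.length) : cap i (lins i w) = w := by
  obtain ⟨a, b, rfl, ha⟩ := exists_split h
  rw [lins, ins_app _ _ ha, cap_app _ _ _ _ ha, flipC_TF, rotate_app _ _ rfl]

theorem cap_lins_succ {i : ℕ} {w : Word} (h : i + 1 ≤ w.length) : cap i (lins (i + 1) w) = w := by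
  obtain ⟨a, b, rfl, ha⟩ := exists_split (i := i) (w := w) (by omega)
  rcases b with _ | ⟨x, b⟩
  · simp at h; omega
  have e : a ++ x :: b = (a ++ [x]) ++ b := by simp
  rw [e, lins, ins_app _ _ (by simp [ha])]
  have e2 : (a ++ [x]) ++ true :: false :: b = a ++ x :: true :: (false :: b) := by simp
  rw [e2, cap_app _ _ _ _ ha]
  rcases x with _ | _
  · rw [flipC_FT, rotate_app _ _ rfl]; simp
  · rw [flipC_TT]
    have e3 : flipR 0 (false :: b ++ a) = (true :: b) ++ a := by simp [flipR]
    rw [e3, rotate_app _ _ (by simp)]; simp

theorem cap_succ_lins {i : ℕ} {w : Word} (h : i + 1 ≤ w.length) : cap (i + 1) (lins i w) = w := by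
  obtain ⟨a, b, rfl, ha⟩ := exists_split (i := i) (w := w) (by omega)
  rcases b with _ | ⟨x, b⟩
  · simp at h; omega
  rw [lins, ins_app _ _ ha]
  have e2 : a ++ true :: false :: x :: b = (a ++ [true]) ++ false :: x :: b := by simp
  rw [e2, cap_app _ _ _ _ (by simp [ha])]
  rcases x with _ | _
  · rw [flipC_FF]
    have e3 : (flipL 0 (b ++ (a ++ [true])).reverse).reverse = b ++ (a ++ [false]) := by
      simp [flipL]
    rw [e3, rotate_app _ _ rfl]; simp
  · rw [flipC_FT, rotate_app _ _ rfl]; simp

theorem cap_lins_right {i j : ℕ} {w : Word} (h : i + 2 ≤ j) (hj : j ≤ w.length) :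
    cap i (lins j w) = lins (j - 2) (cap i w) := by
  obtain ⟨a, b, x, y, rfl, ha⟩ := split3 (i := i) (w := w) (by omega)
  obtain ⟨k, rfl⟩ : ∃ k, j = i + 2 + k := ⟨j - (i + 2), by omega⟩
  have hkb : k ≤ b.length := by
    simp only [List.length_append, List.length_cons] at hj; omega
  have e : lins (i + 2 + k) (a ++ x :: y :: b) = a ++ x :: y :: lins k b := by
    have h1 : a ++ x :: y :: b = (a ++ [x, y]) ++ b := by simp
    rw [h1, lins, Pool.Agent.H988R2.Perc.ins_append_right (i := k) (a ++ [x,y]) b
      (by simp; omega) hkb]
    simp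
  have e4 : lins k b ++ a = lins k (b ++ a) := by
    obtain ⟨b1, b2, rfl, hb1⟩ := exists_split hkb
    have e6 : b1 ++ b2 ++ a = b1 ++ (b2 ++ a) := by simp
    rw [e6, lins, ins_app _ _ hb1, lins, ins_app _ _ hb1]
    simp
  have hka : k ≤ (b ++ a).length := by simp only [List.length_append]; omega
  rw [e, cap_app _ _ _ _ ha, cap_app _ _ _ _ ha, e4, flipC_lins _ _ hka]
  have e5 : (lins k b).length = b.length + 2 := length_ins k b
  rw [e5, rot_lins1 hkb (by rw [length_flipC]; simp)]
  congr 1
  rw [length_flipC]
  simp only [List.length_append]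
  omega

theorem cap_lins_left {i j : ℕ} {w : Word} (h : j + 2 ≤ i) (hi : i ≤ w.length) :
    cap i (lins j w) = lins j (cap (i - 2) w) := by
  obtain ⟨a, b, x, y, rfl, ha⟩ := split3 (i := i - 2) (w := w) (by omega)
  have hja : j ≤ a.length := by omega
  have e : lins j (a ++ x :: y :: b) = lins j a ++ x :: y :: b := by
    obtain ⟨a1, a2, rfl, ha1⟩ := exists_split hja
    rw [lins, List.append_assoc, ins_app _ _ ha1, lins, ins_app _ _ ha1]
    simp
  have e5 : (lins j a).length = i := by
    rw [length_ins j a]; omega
  have e4 : b ++ lins j a = lins (b.length + j) (b ++ a) := by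
    rw [lins, lins, Pool.Agent.H988R2.Perc.ins_append_right (i := j) b a rfl hja]
  have hka : b.length + j ≤ (b ++ a).length := by simp only [List.length_append]; omega
  rw [e, cap_app _ _ _ _ e5, cap_app _ _ _ _ ha, e4, flipC_lins _ _ hka,
    rot_lins2 (by omega) (by rw [length_flipC]; exact hka)]
  congr 1
  omega

theorem cap_seam {i : ℕ} {w : Word} (h : i + 2 ≤ w.length) :
    cap (i + 1) (seam w) = seam (cap i w) := by
  obtain ⟨a, b, x, y, rfl, ha⟩ := split3 (i := i) (w := w) h
  have e : seam (a ++ x :: y :: b) = (false :: a) ++ x :: y :: (b ++ [true]) := by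
    simp [seam]
  rw [e, cap_app _ _ _ _ (by simp [ha]), cap_app _ _ _ _ ha]
  have e2 : (b ++ [true]) ++ false :: a = lins b.length (b ++ a) := by
    rw [lins, ins_app _ _ rfl]; simp
  have hb : b.length ≤ (b ++ a).length := by simp
  rw [e2, flipC_lins _ _ hb]
  obtain ⟨b', a', hv, hb'⟩ := exists_split (i := b.length) (w := flipC x y (b ++ a))
    (by rw [length_flipC]; exact hb)
  rw [hv, lins, ins_app _ _ hb']
  have e3 : b' ++ true :: false :: a' = (b' ++ [true]) ++ false :: a' := by simp
  rw [e3, rotate_app _ _ (by simp [hb']), rotate_app _ _ hb']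
  simp [seam]

theorem cap_zero_seam {w : Word} (h : 1 ≤ w.length) : cap 0 (seam w) = rotl w := by
  rcases w with _ | ⟨x, w⟩
  · simp at h
  have e : seam (x :: w) = [] ++ false :: x :: (w ++ [true]) := by simp [seam]
  rw [e, cap_app _ _ _ _ (by rfl)]
  have e1 : (w ++ [true]) ++ [] = w ++ [true] := by simp
  have e2 : rotl (x :: w) = w ++ [x] := by simp [rotl]
  rw [e1, e2]
  rcases x with _ | _
  · rw [flipC_FF]
    have e3 : (flipL 0 (w ++ [true]).reverse).reverse = (w ++ [false]) ++ [] := by
      simp [flipL]
    rw [e3, rotate_app _ _ (by simp)]; simp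
  · rw [flipC_FT, ← e1, rotate_app _ _ (by simp)]; simp

theorem cap_last_seam {w : Word} (h : 1 ≤ w.length) : cap w.length (seam w) = rotr w := by
  rcases List.eq_nil_or_concat w with rfl | ⟨v, x, rfl⟩
  · simp at h
  have e : seam (v.concat x) = (false :: v) ++ x :: true :: [] := by simp [seam]
  have e2 : rotr (v.concat x) = x :: v := by
    unfold rotr
    rw [List.concat_eq_append, rotate_app v [x] (by simp)]
    simp
  rw [e, e2, cap_app _ _ _ _ (by simp)]
  rcases x with _ | _
  · rw [flipC_FT]; simp
  · rw [flipC_TT]; simp [flipR]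

theorem lins_seam {i : ℕ} {w : Word} (h : i ≤ w.length) :
    lins (i + 1) (seam w) = seam (lins i w) := by
  obtain ⟨a, b, rfl, ha⟩ := exists_split h
  have e : seam (a ++ b) = (false :: a) ++ (b ++ [true]) := by simp [seam]
  rw [e, lins, ins_app _ _ (by simp [ha]), lins, ins_app _ _ ha]
  simp [seam]

theorem rotr_lins {i : ℕ} {w : Word} (h : i + 1 ≤ w.length) :
    rotr (lins i w) = lins (i + 1) (rotr w) := by
  rcases List.eq_nil_or_concat w with rfl | ⟨v, x, rfl⟩
  · simp at h
  rw [List.concat_eq_append] at h ⊢
  have hv : i ≤ v.length := by simpa using h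
  obtain ⟨a, b, rfl, ha⟩ := exists_split hv
  have e : (a ++ b) ++ [x] = a ++ (b ++ [x]) := by simp
  rw [rotr_concat, e, lins, ins_app _ _ ha]
  have e2 : a ++ true :: false :: (b ++ [x]) = (a ++ true :: false :: b) ++ [x] := by simp
  rw [e2, rotr_concat]
  have e3 : x :: (a ++ b) = (x :: a) ++ b := by simp
  rw [e3, lins, ins_app _ _ (by simp [ha])]
  simp

theorem rotr_lins_last (w : Word) : rotr (lins w.length w) = seam w := by
  have e : lins w.length w = (w ++ [true]) ++ [false] := by
    have := ins_app w [] (rfl : w.length = w.length)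
    rw [List.append_nil] at this
    rw [lins, this]; simp
  rw [e, rotr_concat]
  simp [seam]

theorem rotr_seam (w : Word) : rotr (seam w) = lins 0 w := by
  have e : seam w = (false :: w) ++ [true] := by simp [seam]
  rw [e, rotr_concat]
  simp [lins, Pool.Agent.H988R2.Perc.ins]

namespace L2Aux

theorem cap_rotr {i : ℕ} {w : Word} (h : i + 3 ≤ w.length) :
    cap (i + 1) (rotr w) = rotr (cap i w) := by
  have h1 : rotl (cap (i + 1) (rotr w)) = cap i w := by
    rw [rotl_cap (by rw [length_rotr]; exact h), rotl_rotr]
  rw [← h1, rotr_rotl]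

theorem cap_rot_ends {j : ℕ} {w : Word} (h : w.length = j + 2) :
    cap 0 (rotr w) = cap j (rotl w) := by
  rcases w with _ | ⟨x, w⟩
  · simp at h
  rcases List.eq_nil_or_concat w with rfl | ⟨v, y, rfl⟩
  · simp at h
  rw [List.concat_eq_append] at h ⊢
  have e1 : rotr (x :: (v ++ [y])) = [] ++ y :: x :: v := by
    have : x :: (v ++ [y]) = (x :: v) ++ [y] := by simp
    rw [this, rotr_concat]; simp
  have e2 : rotl (x :: (v ++ [y])) = v ++ y :: x :: [] := by
    rw [rotl_cons]; simp
  have hv : v.length = j := by simp at h; exact h
  rw [e1, e2, cap_app [] v y x List.length_nil, cap_app v [] y x hv]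
  have e3 : flipC y x (v ++ []) = flipC y x v ++ [] := by simp
  rw [e3, rotate_app _ _ (by rw [length_flipC])]
  simp

end L2Aux

theorem cap_cap {i j : ℕ} {w : Word} (h : i ≤ j) (hj : j + 4 ≤ w.length) :
    cap i (cap (j + 2) w) = cap j (cap i w) := by
  induction hn : w.length using Nat.strong_induction_on generalizing i j w with
  | _ n ih =>
    subst hn
    rcases dich w with ⟨a, b, hw⟩ | ⟨p, q, hw⟩
    · -- small arc
      obtain ⟨k, u, hk, rfl⟩ : ∃ (k : ℕ) (u : Word), k ≤ u.length ∧ w = lins k u :=
        ⟨a.length, a ++ b, by simp, by rw [hw, lins, ins_app _ _ rfl]⟩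
      have hl : (lins k u).length = u.length + 2 := length_ins k u
      rw [hl] at hj ih
      have IH : ∀ {i' j' : ℕ}, i' ≤ j' → j' + 4 ≤ u.length →
          cap i' (cap (j' + 2) u) = cap j' (cap i' u) :=
        fun {i' j'} h1 h2 => ih u.length (by omega) h1 h2 rfl
      have lc : ∀ {i' : ℕ}, i' + 2 ≤ u.length → (cap i' u).length + 2 = u.length :=
        fun {i'} h1 => length_cap h1
      rcases (by omega : k ≤ j ∨ k = j + 1 ∨ k = j + 2 ∨ k = j + 3 ∨ j + 4 ≤ k) with
        c | c | c | c | c
      · have hL : cap (j + 2) (lins k u) = lins k (cap j u) := by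
          rw [cap_lins_left (by omega) (by omega)]; congr 1
        have l1 := lc (i' := j) (by omega)
        rw [hL]
        rcases (by omega : k + 2 ≤ i ∨ k + 1 = i ∨ k = i ∨ k = i + 1 ∨ i + 2 ≤ k) with
          d | d | d | d | d
        · rw [cap_lins_left d (by omega), cap_lins_left d (by omega),
            cap_lins_left (by omega) (by have := lc (i' := i - 2) (by omega); omega)]
          have := IH (i' := i - 2) (j' := j - 2) (by omega) (by omega)
          rw [(by omega : j - 2 + 2 = j)] at this
          rw [this]
        · subst d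
          rw [cap_succ_lins (by omega), cap_succ_lins (by omega)]
        · subst d
          rw [cap_lins_self (by omega), cap_lins_self (by omega)]
        · subst d
          rw [cap_lins_succ (by omega), cap_lins_succ (by omega)]
        · rw [cap_lins_right d (by omega), cap_lins_right d (by omega),
            cap_lins_left (by omega) (by have := lc (i' := i) (by omega); omega)]
          have := IH (i' := i) (j' := j - 2) (by omega) (by omega)
          rw [(by omega : j - 2 + 2 = j)] at this
          rw [this]
      · subst c
        rw [cap_succ_lins (by omega)]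
        rcases (by omega : i = j ∨ i + 1 ≤ j) with d | d
        · subst d
          rw [cap_lins_succ (by omega)]
        · rw [cap_lins_right (by omega) (by omega)]
          obtain ⟨j', rfl⟩ : ∃ j', j = j' + 1 := ⟨j - 1, by omega⟩
          have l1 := lc (i' := i) (by omega)
          rw [(by omega : j' + 1 + 1 - 2 = j'), cap_succ_lins (by omega)]
      · subst c
        rw [cap_lins_self (by omega), cap_lins_right (by omega) (by omega)]
        have l1 := lc (i' := i) (by omega)
        rw [(by omega : j + 2 - 2 = j), cap_lins_self (by omega)]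
      · subst c
        rw [cap_lins_succ (by omega), cap_lins_right (by omega) (by omega)]
        have l1 := lc (i' := i) (by omega)
        rw [(by omega : j + 3 - 2 = j + 1), cap_lins_succ (by omega)]
      · have l1 := lc (i' := i) (by omega)
        have l2 := lc (i' := j + 2) (by omega)
        rw [cap_lins_right (by omega) (by omega), cap_lins_right (by omega) (by omega),
          cap_lins_right (by omega) (by omega), cap_lins_right (by omega) (by omega),
          IH h (by omega)]
    · rcases p with _ | p
      · -- all letters `true`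
        simp only [List.replicate_zero, List.nil_append] at hw
        subst hw
        rw [List.length_replicate] at hj
        rw [cap_rep _ (by omega), cap_rep _ (by omega), cap_rep _ (by omega),
          cap_rep _ (by omega)]
      rcases q with _ | q
      · simp only [List.replicate_zero, List.append_nil] at hw
        subst hw
        rw [List.length_replicate] at hj
        rw [cap_rep _ (by omega), cap_rep _ (by omega), cap_rep _ (by omega),
          cap_rep _ (by omega)]
      -- seam arc
      obtain ⟨u, rfl⟩ : ∃ u : Word, w = seam u :=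
        ⟨List.replicate p false ++ List.replicate q true, by
          rw [hw, List.replicate_succ, List.replicate_succ']; simp [seam]⟩
      have hl : (seam u).length = u.length + 2 := by simp [seam]
      rw [hl] at hj ih
      have IH : ∀ {i' j' : ℕ}, i' ≤ j' → j' + 4 ≤ u.length →
          cap i' (cap (j' + 2) u) = cap j' (cap i' u) :=
        fun {i' j'} h1 h2 => ih u.length (by omega) h1 h2 rfl
      have lc : ∀ {i' : ℕ}, i' + 2 ≤ u.length → (cap i' u).length + 2 = u.length :=
        fun {i'} h1 => length_cap h1
      rcases (by omega : j + 2 = u.length ∨ j + 3 ≤ u.length) with c | c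
      · rw [c, cap_last_seam (by omega)]
        rcases i with _ | i
        · rw [cap_zero_seam (by omega)]
          exact cap_rot_ends c.symm
        · rw [cap_seam (by omega), cap_rotr (by omega)]
          have l1 := lc (i' := i) (by omega)
          rw [(by omega : j = (cap i u).length), cap_last_seam (by omega)]
      · have l1 := lc (i' := j + 1) (by omega)
        rw [cap_seam (i := j + 1) (by omega)]
        rcases i with _ | i
        · rw [cap_zero_seam (by omega), cap_zero_seam (by omega), rotl_cap (by omega)]
        · have l2 := lc (i' := i) (by omega)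
          obtain ⟨j', rfl⟩ : ∃ j', j = j' + 1 := ⟨j - 1, by omega⟩
          rw [cap_seam (by omega), cap_seam (by omega), cap_seam (by omega)]
          rw [← IH (i' := i) (j' := j') (by omega) (by omega)]

theorem exists_arc {w : Word} (hw : Ok w) (h : 2 ≤ w.length) :
    (∃ (i : ℕ) (u : Word), i ≤ u.length ∧ Ok u ∧ w = lins i u ∧ i = firstArc w ∧ u = rem i w) ∨
    (∃ u : Word, Ok u ∧ w = seam u ∧ w.length ≤ firstArc w) := by
  rcases dich w with ⟨a, b, hab⟩ | ⟨p, q, hpq⟩
  · left
    have h1 := firstArc_app a b
    rw [← hab] at h1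
    obtain ⟨h1, h2⟩ := h1
    refine ⟨firstArc w, rem (firstArc w) w, ?_, ?_, h2, rfl, rfl⟩
    · have := congrArg List.length h2
      rw [length_ins] at this
      omega
    · rw [← ok_lins (i := firstArc w)]
      rw [lins, ← h2]
      exact hw
  · right
    have hlen : w.length = p + q := by rw [hpq]; simp
    have hcount : w.count true = q := by
      rw [hpq, List.count_append, List.count_replicate, List.count_replicate]; simp
    unfold Ok at hw
    rw [hcount, hlen] at hw
    obtain ⟨p, rfl⟩ : ∃ p', p = p' + 1 := ⟨p - 1, by omega⟩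
    obtain ⟨q, rfl⟩ : ∃ q', q = q' + 1 := ⟨q - 1, by omega⟩
    have hs : w = seam (List.replicate p false ++ List.replicate q true) := by
      rw [hpq, List.replicate_succ, List.replicate_succ']; simp [seam]
    refine ⟨List.replicate p false ++ List.replicate q true, ?_, hs, ?_⟩
    · rw [← ok_seam, ← hs]
      unfold Ok
      rw [hcount, hlen]
      exact hw
    · rw [hlen, hpq, firstArc_rep]

end Pool.Agent.H863R2.Cyl
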