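import Pool.Agent.H863R2.Cyl.Defs
import Pool.Agent.H863R2.Cyl.Lst
import Pool.Agent.H863R2.Cyl.Lst2

/-! # Module F1: existence of the loop counting exponent (helper215) -/


namespace Pool.Agent.H863R2.Cyl
open Pool.Agent.H988R2.Perc (Word flipR flipL rem firstArc PD)

namespace F1Aux

/-- the middle part of `seam u` -/
def mid (w : Word) : Word := w.tail.dropLast

theorem mid_seam (u : Word) : mid (seam u) = u := by
  simp [mid, seam]

/-- the loop count, with fuel -/
def F : ℕ → Word → Word → ℕ
  | 0, _, _ => 0
  | n + 1, w', w =>
    if firstArc w < w.length then F n (cap (firstArc w) w') (rem (firstArc w) w)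
    else if firstArc w' < w'.length then F n (rem (firstArc w') w') (cap (firstArc w') w)
    else F n (mid w') (mid w) + 1

/-- the loop count -/
def f (w' w : Word) : ℕ := F (w.length / 2) w' w

theorem length_lins (i : ℕ) (w : Word) : (lins i w).length = w.length + 2 :=
  Pool.Agent.H988R2.Perc.length_ins i w

theorem lins_eq_lins {i j : ℕ} {w w' : Word} (hij : i < j) (hi : i ≤ w.length)
    (hj : j ≤ w'.length) (e : lins i w = lins j w') :
    i + 2 ≤ j ∧ ∃ x : Word, i ≤ x.length ∧ j - 2 ≤ x.length ∧ w = lins (j - 2) x ∧
      w' = lins i x := Pool.Agent.H988R2.Perc.ins_eq_ins hij hi hj e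

theorem lins_inj {i : ℕ} {w w' : Word} (h : i ≤ w.length) (h' : i ≤ w'.length)
    (e : lins i w = lins i w') : w = w' := Pool.Agent.H988R2.Perc.ins_inj h h' e

theorem length_seam (w : Word) : (seam w).length = w.length + 2 := by
  simp [seam]

theorem firstArc_lins {i : ℕ} {u : Word} (h : i ≤ u.length) :
    firstArc (lins i u) < (lins i u).length := by
  obtain ⟨a, b, rfl, ha⟩ := Pool.Agent.H988R2.Perc.exists_split h
  have e : lins i (a ++ b) = a ++ true :: false :: b := Pool.Agent.H988R2.Perc.ins_app a b ha
  rw [e]
  have := (Pool.Agent.H988R2.Perc.firstArc_app a b).1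
  omega

theorem f_arc {w' w : Word} (hl : 2 ≤ w.length) (h : firstArc w < w.length)
    (hr : (rem (firstArc w) w).length + 2 = w.length) :
    f w' w = f (cap (firstArc w) w') (rem (firstArc w) w) := by
  unfold f
  obtain ⟨n, hn⟩ : ∃ n, w.length / 2 = n + 1 := ⟨w.length / 2 - 1, by omega⟩
  have e : (rem (firstArc w) w).length / 2 = n := by omega
  rw [hn, e, F, if_pos h]

theorem f_arc' {w' w : Word} (hl : 2 ≤ w.length) (h : ¬ firstArc w < w.length)
    (h' : firstArc w' < w'.length)
    (hr : (cap (firstArc w') w).length + 2 = w.length) :
    f w' w = f (rem (firstArc w') w') (cap (firstArc w') w) := by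
  unfold f
  obtain ⟨n, hn⟩ : ∃ n, w.length / 2 = n + 1 := ⟨w.length / 2 - 1, by omega⟩
  have e : (cap (firstArc w') w).length / 2 = n := by omega
  rw [hn, e, F, if_neg h, if_pos h']

theorem f_seam {u' u : Word} (h : ¬ firstArc (seam u) < (seam u).length)
    (h' : ¬ firstArc (seam u') < (seam u').length) :
    f (seam u') (seam u) = f u' u + 1 := by
  unfold f
  have hl := length_seam u
  have e : (seam u).length / 2 = u.length / 2 + 1 := by omega
  rw [e, F, if_neg h, if_neg h', mid_seam, mid_seam]

theorem firstArc_concat (u : Word) (h : u.length ≤ firstArc u) :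
    u.length + 1 ≤ firstArc (u ++ [true]) := by
  induction u with
  | nil => simp [firstArc]
  | cons x u ih =>
    rcases x with _ | _
    · have e : firstArc (false :: u) = firstArc u + 1 := rfl
      have e2 : firstArc (false :: u ++ [true]) = firstArc (u ++ [true]) + 1 := rfl
      rw [e] at h
      rw [e2]
      have := ih (by simpa using h)
      simpa using this
    · rcases u with _ | ⟨y, u⟩
      · simp [firstArc]
      · rcases y with _ | _
        · simp [firstArc] at h
        · have e : firstArc (true :: true :: u) = firstArc (true :: u) + 1 := rfl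
          have e2 : firstArc (true :: true :: u ++ [true]) = firstArc (true :: u ++ [true]) + 1 :=
            rfl
          rw [e] at h
          rw [e2]
          have := ih (by simpa using h)
          simpa using this

theorem firstArc_seam (u : Word) (h : u.length ≤ firstArc u) :
    ¬ firstArc (seam u) < (seam u).length := by
  have e : firstArc (seam u) = firstArc (u ++ [true]) + 1 := rfl
  rw [e, length_seam]
  have := firstArc_concat u h
  omega

/-- either a linear arc, or none -/
theorem arc_or {w : Word} (hw : Ok w) :
    (∃ (i : ℕ) (u : Word), i ≤ u.length ∧ Ok u ∧ w = lins i u) ∨ w.length ≤ firstArc w := by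
  rcases Nat.lt_or_ge w.length 2 with h | h
  · right
    rcases w with _ | ⟨x, _ | ⟨y, w⟩⟩
    · simp
    · rcases x with _ | _
      · simp [firstArc]
      · simp [firstArc]
    · simp at h
  · rcases exists_arc hw h with ⟨i, u, h1, h2, h3, _, _⟩ | ⟨u, _, _, h3⟩
    · exact Or.inl ⟨i, u, h1, h2, h3⟩
    · exact Or.inr h3

/-- the three properties for words of length `N + 2` -/
structure Pr (N : ℕ) : Prop where
  R : ∀ (i : ℕ) (w' u : Word), Ok w' → Ok u → w'.length = N + 2 → u.length = N → i ≤ N →
    f w' (lins i u) = f (cap i w') u
  L : ∀ (i : ℕ) (u' w : Word), Ok u' → Ok w → w.length = N + 2 → u'.length = N → i ≤ N →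
    f (lins i u') w = f u' (cap i w)
  S : ∀ (u' u : Word), Ok u' → Ok u → u'.length = N → u.length = N →
    f (seam u') (seam u) = f u' u + 1

theorem capR (N : ℕ) (ih : ∀ M, M + 2 = N → Pr M) (i : ℕ) (w' u : Word) (hw' : Ok w')
    (hu : Ok u) (hl' : w'.length = N + 2) (hl : u.length = N) (hi : i ≤ N) :
    f w' (lins i u) = f (cap i w') u := by
  have hlw := length_lins i u
  have hw : Ok (lins i u) := ok_lins.2 hu
  rcases exists_arc hw (by omega) with ⟨j, u1, h1, h2, h3, h4, h5⟩ | ⟨v, _, _, h3⟩
  · have hl1 : u1.length = N := by
      have := length_lins j u1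
      rw [← h3] at this
      omega
    have ef : f w' (lins i u) = f (cap j w') u1 := by
      rw [f_arc (by omega) (firstArc_lins (by omega)) (by rw [← h4, ← h5]; omega), ← h4, ← h5]
    rw [ef]
    rcases lt_trichotomy i j with c | c | c
    · obtain ⟨g1, x, g2, g3, g4, g5⟩ := lins_eq_lins c (by omega) h1 h3
      have hlx : x.length + 2 = N := by
        have := length_lins i x
        rw [← g5] at this
        omega
      have P := ih x.length hlx
      have hx : Ok x := by
        rw [g5] at h2
        exact ok_lins.1 h2
      have hcj := length_cap (i := j) (w := w') (by omega)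
      have hci := length_cap (i := i) (w := w') (by omega)
      rw [g4, g5, P.R i _ x (ok_cap hw' (by omega)) hx (by omega) rfl (by omega),
        P.R (j - 2) _ x (ok_cap hw' (by omega)) hx (by omega) rfl (by omega),
        ← cap_cap (i := i) (j := j - 2) (w := w') (by omega) (by omega)]
      congr 3
      omega
    · subst c
      have := lins_inj (by omega) h1 h3
      rw [this]
    · obtain ⟨g1, x, g2, g3, g4, g5⟩ :=
        lins_eq_lins c h1 (by omega) h3.symm
      have hlx : x.length + 2 = N := by
        have := length_lins j x
        rw [← g5] at this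
        omega
      have P := ih x.length hlx
      have hx : Ok x := by
        rw [g5] at hu
        exact ok_lins.1 hu
      have hcj := length_cap (i := j) (w := w') (by omega)
      have hci := length_cap (i := i) (w := w') (by omega)
      rw [g4, g5, P.R j _ x (ok_cap hw' (by omega)) hx (by omega) rfl (by omega),
        P.R (i - 2) _ x (ok_cap hw' (by omega)) hx (by omega) rfl (by omega),
        ← cap_cap (i := j) (j := i - 2) (w := w') (by omega) (by omega)]
      congr 3
      omega
  · exfalso
    have := firstArc_lins (i := i) (u := u) (by omega)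
    omega

theorem capL (N : ℕ) (ih : ∀ M, M + 2 = N → Pr M) (i : ℕ) (u' w : Word) (hu' : Ok u')
    (hw : Ok w) (hl : w.length = N + 2) (hl' : u'.length = N) (hi : i ≤ N) :
    f (lins i u') w = f u' (cap i w) := by
  have hlw := length_lins i u'
  have hw' : Ok (lins i u') := ok_lins.2 hu'
  rcases exists_arc hw (by omega) with ⟨j, u, h1, h2, h3, h4, h5⟩ | ⟨v, h1, h2, h3⟩
  · have hl1 : u.length = N := by
      have := length_lins j u
      rw [← h3] at this
      omega
    rw [h3, capR N ih j _ u hw' h2 (by omega) hl1 (by omega)]
    rcases (by omega : i + 2 ≤ j ∨ j = i + 1 ∨ i = j ∨ i = j + 1 ∨ j + 2 ≤ i) with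
      c | c | c | c | c
    · obtain ⟨M, hM⟩ : ∃ M, M + 2 = N := ⟨N - 2, by omega⟩
      have P := ih M hM
      have hcj := length_cap (i := j - 2) (w := u') (by omega)
      have hci := length_cap (i := i) (w := u) (by omega)
      rw [cap_lins_left c (by omega), cap_lins_right c (by omega),
        P.L i _ u (ok_cap hu' (by omega)) h2 (by omega) (by omega) (by omega),
        P.R (j - 2) u' _ hu' (ok_cap h2 (by omega)) (by omega) (by omega) (by omega)]
    · subst c
      rw [cap_succ_lins (by omega), cap_lins_succ (by omega)]
    · subst c
      rw [cap_lins_self (by omega), cap_lins_self (by omega)]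
    · subst c
      rw [cap_succ_lins (by omega), cap_lins_succ (by omega)]
    · obtain ⟨M, hM⟩ : ∃ M, M + 2 = N := ⟨N - 2, by omega⟩
      have P := ih M hM
      have hcj := length_cap (i := j) (w := u') (by omega)
      have hci := length_cap (i := i - 2) (w := u) (by omega)
      rw [cap_lins_right c (by omega), cap_lins_left c (by omega),
        P.L (i - 2) _ u (ok_cap hu' (by omega)) h2 (by omega) (by omega) (by omega),
        P.R j u' _ hu' (ok_cap h2 (by omega)) (by omega) (by omega) (by omega)]
  · rcases exists_arc hw' (by omega) with ⟨j, u1, g1, g2, g3, g4, g5⟩ | ⟨v, _, _, g3⟩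
    · have hl1 : u1.length = N := by
        have := length_lins j u1
        rw [← g3] at this
        omega
      have hcj := length_cap (i := j) (w := w) (by omega)
      have hci := length_cap (i := i) (w := w) (by omega)
      have ef : f (lins i u') w = f u1 (cap j w) := by
        rw [f_arc' (by omega) (by omega) (firstArc_lins (by omega)) (by rw [← g4]; omega),
          ← g4, ← g5]
      rw [ef]
      rcases lt_trichotomy i j with c | c | c
      · obtain ⟨k1, x, k2, k3, k4, k5⟩ := lins_eq_lins c (by omega) g1 g3
        have hlx : x.length + 2 = N := by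
          have := length_lins i x
          rw [← k5] at this
          omega
        have P := ih x.length hlx
        have hx : Ok x := by
          rw [k5] at g2
          exact ok_lins.1 g2
        rw [k4, k5, P.L i x _ hx (ok_cap hw (by omega)) (by omega) rfl (by omega),
          P.L (j - 2) x _ hx (ok_cap hw (by omega)) (by omega) rfl (by omega),
          ← cap_cap (i := i) (j := j - 2) (w := w) (by omega) (by omega)]
        congr 3
        omega
      · subst c
        have := lins_inj (by omega) g1 g3
        rw [this]
      · obtain ⟨k1, x, k2, k3, k4, k5⟩ :=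
          lins_eq_lins c g1 (by omega) g3.symm
        have hlx : x.length + 2 = N := by
          have := length_lins j x
          rw [← k5] at this
          omega
        have P := ih x.length hlx
        have hx : Ok x := by
          rw [k5] at hu'
          exact ok_lins.1 hu'
        rw [k4, k5, P.L j x _ hx (ok_cap hw (by omega)) (by omega) rfl (by omega),
          P.L (i - 2) x _ hx (ok_cap hw (by omega)) (by omega) rfl (by omega),
          ← cap_cap (i := j) (j := i - 2) (w := w) (by omega) (by omega)]
        congr 3
        omega
    · exfalso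
      have := firstArc_lins (i := i) (u := u') (by omega)
      omega

theorem capS (N : ℕ) (ih : ∀ M, M + 2 = N → Pr M) (u' u : Word) (hu' : Ok u') (hu : Ok u)
    (hl' : u'.length = N) (hl : u.length = N) : f (seam u') (seam u) = f u' u + 1 := by
  have hw' : Ok (seam u') := ok_seam.2 hu'
  have hw : Ok (seam u) := ok_seam.2 hu
  have hlw' := length_seam u'
  have hlw := length_seam u
  rcases arc_or hu with ⟨i, x, h1, h2, h3⟩ | h
  · have hlx : x.length + 2 = N := by
      have := length_lins i x
      rw [← h3] at this
      omega
    have P := ih x.length hlx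
    have hsx := length_seam x
    have hc := length_cap (i := i) (w := u') (by omega)
    rw [h3, ← lins_seam h1, capR N ih (i + 1) _ (seam x) hw' (ok_seam.2 h2) (by omega) (by omega)
      (by omega), cap_seam (by omega), P.S _ x (ok_cap hu' (by omega)) h2 (by omega) rfl,
      P.R i u' x hu' h2 (by omega) rfl (by omega)]
  · rcases arc_or hu' with ⟨i, x, h1, h2, h3⟩ | h'
    · have hlx : x.length + 2 = N := by
        have := length_lins i x
        rw [← h3] at this
        omega
      have P := ih x.length hlx
      have hsx := length_seam x
      have hc := length_cap (i := i) (w := u) (by omega)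
      rw [h3, ← lins_seam h1, capL N ih (i + 1) (seam x) _ (ok_seam.2 h2) hw (by omega) (by omega)
        (by omega), cap_seam (by omega), P.S x _ h2 (ok_cap hu (by omega)) rfl (by omega),
        P.L i x u h2 hu (by omega) rfl (by omega)]
    · exact f_seam (firstArc_seam u h) (firstArc_seam u' h')

theorem pr_all (N : ℕ) : Pr N := by
  induction N using Nat.strong_induction_on with
  | _ N ih =>
    have ih' : ∀ M, M + 2 = N → Pr M := fun M hM => ih M (by omega)
    exact ⟨capR N ih', capL N ih', capS N ih'⟩

end F1Aux

theorem exists_F : ∃ f : Word → Word → ℕ, FSpec f := by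
  refine ⟨F1Aux.f, ?_, ?_, ?_, ?_, ?_⟩
  · simp [F1Aux.f, F1Aux.F]
  · simp [F1Aux.f, F1Aux.F]
  · intro i w' w h' h hl hi
    exact (F1Aux.pr_all w.length).R i w' w h' h hl rfl hi
  · intro i w' w h' h hl hi
    exact (F1Aux.pr_all w'.length).L i w' w h' h hl rfl hi
  · intro w' w h' h hl
    exact (F1Aux.pr_all w.length).S w' w h' h hl rfl

end Pool.Agent.H863R2.Cyl
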