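import Pool.Agent.H863R2.Cyl.Sem2

namespace Pool.Agent.H863R2.Cyl
open Pool.Agent.H988R2.Perc (Word flipR flipL rem firstArc PD)

/-- iterate rows: `rows m c M σ0` is the pattern after the rows `c 0, …, c (M-1)` -/
noncomputable def rows (m : ℕ) (c : ℕ → Fin (m + 1) → Bool) : ℕ → Wd (m + 1) → Wd (m + 1)
  | 0, σ => σ
  | (t + 1), σ => Tc m (c t) (rows m c t σ)

/-- the connections in `M` rows: faces `(a, t)`, `0 ≤ t ≤ M` -/
inductive Lk (m : ℕ) (c : ℕ → Fin (m + 1) → Bool) (M : ℕ) (w : Word) : ℤ × ℕ → ℤ × ℕ → Prop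
  | bot (a b : ℤ) : Rw w a b → Lk m c M w (a, 0) (b, 0)
  | link0 (j : ℤ) (t : ℕ) : t < M → cl (c t) j = false → Lk m c M w (j, t) (j + 1, t + 1)
  | link1 (j : ℤ) (t : ℕ) : t < M → cl (c t) j = true → Lk m c M w (j + 1, t) (j, t + 1)

theorem Sem3Aux.lk_mono {m : ℕ} {c : ℕ → Fin (m + 1) → Bool} {M : ℕ} {w : Word} {p q : ℤ × ℕ}
    (h : Lk m c M w p q) : Lk m c (M + 1) w p q := by
  cases h with
  | bot a b h => exact Lk.bot a b h
  | link0 j t ht h => exact Lk.link0 j t (by omega) h
  | link1 j t ht h => exact Lk.link1 j t (by omega) h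

theorem Sem3Aux.eqv_mono {m : ℕ} {c : ℕ → Fin (m + 1) → Bool} {M : ℕ} {w : Word} {p q : ℤ × ℕ}
    (h : Relation.EqvGen (Lk m c M w) p q) : Relation.EqvGen (Lk m c (M + 1) w) p q := by
  induction h with
  | rel x y h => exact Relation.EqvGen.rel _ _ (Sem3Aux.lk_mono h)
  | refl x => exact Relation.EqvGen.refl _
  | symm x y _ h => exact Relation.EqvGen.symm _ _ h
  | trans x y z _ _ h1 h2 => exact Relation.EqvGen.trans _ _ _ h1 h2

theorem Sem3Aux.level {m : ℕ} {c : ℕ → Fin (m + 1) → Bool} {M : ℕ} {w : Word} {p q : ℤ × ℕ}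
    (h : Relation.EqvGen (Lk m c M w) p q) : p = q ∨ (p.2 ≤ M ∧ q.2 ≤ M) := by
  induction h with
  | rel x y h =>
    right
    cases h with
    | bot a b h => exact ⟨Nat.zero_le _, Nat.zero_le _⟩
    | link0 j t ht h => exact ⟨ht.le, ht⟩
    | link1 j t ht h => exact ⟨ht.le, ht⟩
  | refl x => exact Or.inl rfl
  | symm x y _ h =>
    rcases h with h | h
    · exact Or.inl h.symm
    · exact Or.inr ⟨h.2, h.1⟩
  | trans x y z _ _ h1 h2 =>
    rcases h1 with h1 | h1
    · rw [h1]; exact h2
    · rcases h2 with h2 | h2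
      · rw [← h2]; exact Or.inr h1
      · exact Or.inr ⟨h1.1, h2.2⟩

/-- anchors -/
def Sem3Aux.T {m : ℕ} (c : ℕ → Fin (m + 1) → Bool) (M : ℕ) (w : Word) (p : ℤ × ℕ)
    (y : ℤ × Bool) : Prop :=
  (y.2 = true ∧ p = (y.1, M + 1)) ∨ (y.2 = false ∧ Relation.EqvGen (Lk m c M w) p (y.1, M))

theorem Sem3Aux.T_top {m : ℕ} {c : ℕ → Fin (m + 1) → Bool} {M : ℕ} {w : Word} {a : ℤ}
    {y : ℤ × Bool} (h : Sem3Aux.T c M w (a, M + 1) y) : y = (a, true) := by
  rcases h with ⟨h1, h2⟩ | ⟨h1, h2⟩
  · rw [Prod.mk.injEq] at h2
    exact Prod.ext h2.1.symm h1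
  · exfalso
    rcases Sem3Aux.level h2 with h | h
    · rw [Prod.mk.injEq] at h; omega
    · have := h.1; simp only at this; omega

/-- the comparison relation -/
def Sem3Aux.S {m : ℕ} (c : ℕ → Fin (m + 1) → Bool) (M : ℕ) (w w' : Word) (p q : ℤ × ℕ) : Prop :=
  Relation.EqvGen (Lk m c M w) p q ∨
    ∃ y z, Sem3Aux.T c M w p y ∧ Sem3Aux.T c M w q z ∧ Relation.EqvGen (Row m (c M) w') y z

theorem Sem3Aux.T_trans {m : ℕ} {c : ℕ → Fin (m + 1) → Bool} {M : ℕ} {w : Word} {p q : ℤ × ℕ}
    {y : ℤ × Bool} (h : Relation.EqvGen (Lk m c M w) p q) (hq : Sem3Aux.T c M w q y) :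
    Sem3Aux.T c M w p y := by
  rcases hq with ⟨h1, h2⟩ | ⟨h1, h2⟩
  · left
    refine ⟨h1, ?_⟩
    rcases Sem3Aux.level h with h | h
    · rw [h, h2]
    · exfalso
      have := h.2
      rw [h2] at this
      simp only at this
      omega
  · exact Or.inr ⟨h1, Relation.EqvGen.trans _ _ _ h h2⟩

theorem Rw_rows (m : ℕ) (hm : 1 ≤ m) (c : ℕ → Fin (m + 1) → Bool) (M : ℕ) (σ : Wd (m + 1))
    (a b : ℤ) :
    Rw (rows m c M σ).1 a b ↔ Relation.EqvGen (Lk m c M σ.1) (a, M) (b, M) := by
  induction M generalizing a b with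
  | zero =>
    constructor
    · intro h
      exact Relation.EqvGen.rel _ _ (Lk.bot a b h)
    · intro h
      have key : ∀ p q : ℤ × ℕ, Relation.EqvGen (Lk m c 0 σ.1) p q → Rw σ.1 p.1 q.1 := by
        intro p q h
        induction h with
        | rel x y h =>
          cases h with
          | bot a b h => exact h
          | link0 j t ht h => omega
          | link1 j t ht h => omega
        | refl x => exact (Rw_equiv σ.1).refl _
        | symm x y _ h => exact (Rw_equiv σ.1).symm h
        | trans x y z _ _ h1 h2 => exact (Rw_equiv σ.1).trans h1 h2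
      exact key _ _ h
  | succ M ih =>
    show Rw (Tc m (c M) (rows m c M σ)).1 a b ↔ _
    rw [Rw_Tc m hm]
    set w' : Word := (rows m c M σ).1 with hw'
    constructor
    · intro h
      have key : ∀ p q : ℤ × Bool, Relation.EqvGen (Row m (c M) w') p q →
          Relation.EqvGen (Lk m c (M + 1) σ.1) (p.1, if p.2 then M + 1 else M)
            (q.1, if q.2 then M + 1 else M) := by
        intro p q h
        induction h with
        | rel x y h =>
          cases h with
          | low a b h =>
            have := Sem3Aux.eqv_mono ((ih a b).1 h)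
            simpa using this
          | link0 j h =>
            have := Relation.EqvGen.rel _ _ (Lk.link0 (w := σ.1) (M := M + 1) j M (by omega) h)
            simpa using this
          | link1 j h =>
            have := Relation.EqvGen.rel _ _ (Lk.link1 (w := σ.1) (M := M + 1) j M (by omega) h)
            simpa using this
        | refl x => exact Relation.EqvGen.refl _
        | symm x y _ h => exact Relation.EqvGen.symm _ _ h
        | trans x y z _ _ h1 h2 => exact Relation.EqvGen.trans _ _ _ h1 h2
      have := key _ _ h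
      simpa using this
    · intro h
      have key : ∀ p q : ℤ × ℕ, Relation.EqvGen (Lk m c (M + 1) σ.1) p q →
          Sem3Aux.S c M σ.1 w' p q := by
        intro p q h
        induction h with
        | rel x y h =>
          cases h with
          | bot a b h => exact Or.inl (Relation.EqvGen.rel _ _ (Lk.bot a b h))
          | link0 j t ht hcl =>
            by_cases htM : t < M
            · exact Or.inl (Relation.EqvGen.rel _ _ (Lk.link0 j t htM hcl))
            · have : t = M := by omega
              subst this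
              exact Or.inr ⟨(j, false), (j + 1, true), Or.inr ⟨rfl, Relation.EqvGen.refl _⟩,
                Or.inl ⟨rfl, rfl⟩, Relation.EqvGen.rel _ _ (Row.link0 j hcl)⟩
          | link1 j t ht hcl =>
            by_cases htM : t < M
            · exact Or.inl (Relation.EqvGen.rel _ _ (Lk.link1 j t htM hcl))
            · have : t = M := by omega
              subst this
              exact Or.inr ⟨(j + 1, false), (j, true), Or.inr ⟨rfl, Relation.EqvGen.refl _⟩,
                Or.inl ⟨rfl, rfl⟩, Relation.EqvGen.rel _ _ (Row.link1 j hcl)⟩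
        | refl x => exact Or.inl (Relation.EqvGen.refl _)
        | symm x y _ h =>
          rcases h with h | ⟨y', z', h1, h2, h3⟩
          · exact Or.inl (Relation.EqvGen.symm _ _ h)
          · exact Or.inr ⟨z', y', h2, h1, Relation.EqvGen.symm _ _ h3⟩
        | trans x y z _ _ h1 h2 =>
          rcases h1 with h1 | ⟨y1, z1, h11, h12, h13⟩
          · rcases h2 with h2 | ⟨y2, z2, h21, h22, h23⟩
            · exact Or.inl (Relation.EqvGen.trans _ _ _ h1 h2)
            · exact Or.inr ⟨y2, z2, Sem3Aux.T_trans h1 h21, h22, h23⟩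
          · rcases h2 with h2 | ⟨y2, z2, h21, h22, h23⟩
            · exact Or.inr ⟨y1, z1, h11, Sem3Aux.T_trans (Relation.EqvGen.symm _ _ h2) h12, h13⟩
            · refine Or.inr ⟨y1, z2, h11, h22, Relation.EqvGen.trans _ _ _ h13
                (Relation.EqvGen.trans _ _ _ ?_ h23)⟩
              rcases h12 with ⟨e1, e2⟩ | ⟨e1, e2⟩
              · rw [e2] at h21
                have := Sem3Aux.T_top h21
                rw [this, show z1 = (z1.1, true) from Prod.ext rfl e1]
                exact Relation.EqvGen.refl _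
              · rcases h21 with ⟨e3, e4⟩ | ⟨e3, e4⟩
                · exfalso
                  rw [e4] at e2
                  rcases Sem3Aux.level e2 with h | h
                  · rw [Prod.mk.injEq] at h; omega
                  · have := h.1; simp only at this; omega
                · have h5 : Rw w' z1.1 y2.1 := (ih _ _).2
                    (Relation.EqvGen.trans _ _ _ (Relation.EqvGen.symm _ _ e2) e4)
                  rw [show z1 = (z1.1, false) from Prod.ext rfl e1,
                    show y2 = (y2.1, false) from Prod.ext rfl e3]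
                  exact Relation.EqvGen.rel _ _ (Row.low _ _ h5)
      rcases key _ _ h with h1 | ⟨y, z, h1, h2, h3⟩
      · rcases Sem3Aux.level h1 with h | h
        · rw [Prod.mk.injEq] at h
          rw [h.1]
          exact Relation.EqvGen.refl _
        · exfalso; have := h.1; simp only at this; omega
      · rw [Sem3Aux.T_top h1, Sem3Aux.T_top h2] at h3
        exact h3

end Pool.Agent.H863R2.Cyl
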