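import Pool.Agent.H863R2.Cyl.Sem1
import Pool.Agent.H863R2.Cyl.Lst2

/-!
# Module S4: no loop around the face
-/

namespace Pool.Agent.H863R2.Cyl
open Pool.Agent.H988R2.Perc (Word flipR flipL rem firstArc PD)

namespace Sem4Aux

/-- potential -/
theorem exists_pot (g : ℤ → ℤ) : ∃ K : ℤ → ℤ, ∀ a, K (a + 1) = K a + g a := by
  refine ⟨fun a => ∑ i ∈ Finset.Ico 0 a, g i - ∑ i ∈ Finset.Ico a 0, g i, fun a => ?_⟩
  rcases le_or_gt 0 a with h | h
  · have h1 : Finset.Ico (0 : ℤ) (a + 1) = insert a (Finset.Ico 0 a) := by
      ext x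
      simp only [Finset.mem_Ico, Finset.mem_insert]
      omega
    simp only
    rw [h1, Finset.sum_insert (by simp), Finset.Ico_eq_empty (by omega : ¬ a < 0),
      Finset.Ico_eq_empty (by omega : ¬ a + 1 < 0)]
    simp
    ring
  · have h1 : Finset.Ico a (0 : ℤ) = insert a (Finset.Ico (a + 1) 0) := by
      ext x
      simp only [Finset.mem_Ico, Finset.mem_insert]
      omega
    simp only
    rw [h1, Finset.sum_insert (by simp), Finset.Ico_eq_empty (by omega : ¬ 0 < a),
      Finset.Ico_eq_empty (by omega : ¬ 0 < a + 1)]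
    simp

theorem sh_eq {w : Word} {K : ℤ → ℤ} (hK : ∀ a, K (a + 1) = K a + sg w a) {a b : ℤ}
    (h : a ≤ b) : Sh w a b = K b - K a := by
  induction b, h using Int.leInduction with
  | base => simp [Sh]
  | succ b hb ih =>
    have h1 : Finset.Ico a (b + 1) = insert b (Finset.Ico a b) := by
      ext x
      simp only [Finset.mem_Ico, Finset.mem_insert]
      omega
    unfold Sh at ih ⊢
    rw [h1, Finset.sum_insert (by simp), ih, hK]
    ring

theorem rle_iff {w : Word} {K : ℤ → ℤ} (hK : ∀ a, K (a + 1) = K a + sg w a) {a b : ℤ} :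
    Rle w a b ↔ a ≤ b ∧ (∀ l, a ≤ l → l ≤ b → K a ≤ K l) ∧ K b = K a := by
  unfold Rle
  constructor
  · rintro ⟨h1, h2, h3⟩
    rw [sh_eq hK h1] at h3
    refine ⟨h1, fun l hl hl' => ?_, by omega⟩
    have := h2 l hl hl'
    rw [sh_eq hK hl] at this
    omega
  · rintro ⟨h1, h2, h3⟩
    refine ⟨h1, fun l hl hl' => ?_, ?_⟩
    · have := h2 l hl hl'
      rw [sh_eq hK hl]
      omega
    · rw [sh_eq hK h1]
      omega

theorem sg_mul (w : Word) (k : ℤ) (r : ℕ) (hr : r < w.length) (a : ℤ)
    (ha : a = w.length * k + r) : sg w a = if w.getD r true then 1 else -1 := by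
  unfold sg
  have : a % (w.length : ℤ) = r := by
    rw [ha, Int.mul_add_emod_self_left]
    exact Int.emod_eq_of_lt (by omega) (by omega)
  rw [this]
  simp

theorem lins_getD (i : ℕ) (u : Word) (hi : i ≤ u.length) (r : ℕ) : (lins i u).getD r true =
    if r < i then u.getD r true else if r = i then true else if r = i + 1 then false else
      u.getD (r - 2) true := by
  have e : lins i u = u.take i ++ true :: false :: u.drop i := rfl
  rw [e, List.getD_eq_getElem?_getD, List.getElem?_append, List.length_take, min_eq_left hi]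
  split_ifs with h1 h2 h3
  · rw [List.getElem?_take, if_pos h1, List.getD_eq_getElem?_getD]
  · subst h2
    simp
  · subst h3
    simp
  · obtain ⟨j, rfl⟩ : ∃ j, r = i + 2 + j := ⟨r - (i + 2), by omega⟩
    rw [show i + 2 + j - i = j + 1 + 1 by omega, List.getElem?_cons_succ,
      List.getElem?_cons_succ, List.getElem?_drop, List.getD_eq_getElem?_getD]
    congr 2
    omega

/-- number of isolated faces before `a` (normalised) -/
def ct (N i : ℕ) (a : ℤ) : ℤ := (a + ((N : ℤ) - i)) / (N + 2)

/-- the collapsing map -/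
def sm (N i : ℕ) (a : ℤ) : ℤ := a - 2 * ct N i a

/-- isolated faces -/
def iso (N i : ℕ) (a : ℤ) : Prop := ∃ k : ℤ, a = i + 1 + k * (N + 2)

theorem ct_eq {N i : ℕ} {a q r : ℤ} (h : a = (N + 2) * q + r - (N - i)) (h0 : 0 ≤ r)
    (h1 : r ≤ N + 1) : ct N i a = q := by
  unfold ct
  rw [h, show ((N : ℤ) + 2) * q + r - (N - i) + (N - i) = r + (N + 2) * q by ring,
    Int.add_mul_ediv_left _ _ (by omega), Int.ediv_eq_zero_of_lt h0 (by omega)]
  simp

theorem decomp (N i : ℕ) (a : ℤ) : ∃ r : ℤ, 0 ≤ r ∧ r ≤ N + 1 ∧
    a = (N + 2) * ct N i a + r - (N - i) := by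
  refine ⟨(a + ((N : ℤ) - i)) % (N + 2), Int.emod_nonneg _ (by omega), ?_, ?_⟩
  · have := Int.emod_lt_of_pos (a + ((N : ℤ) - i)) (show (0 : ℤ) < N + 2 by omega)
    omega
  · have := Int.mul_ediv_add_emod (a + ((N : ℤ) - i)) (N + 2)
    unfold ct
    linarith

theorem iso_iff {N i : ℕ} {a q r : ℤ} (h : a = (N + 2) * q + r - (N - i)) (h0 : 0 ≤ r)
    (h1 : r ≤ N + 1) : iso N i a ↔ r = N + 1 := by
  constructor
  · rintro ⟨k, hk⟩
    have h2 : ct N i a = k := ct_eq (r := N + 1) (by rw [hk]; ring) (by omega) (le_refl _)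
    have h3 : ct N i a = q := ct_eq h h0 h1
    rw [h3] at h2
    subst h2
    linarith
  · intro hr
    refine ⟨q, ?_⟩
    rw [h, hr]
    ring

theorem sm_mono {N i : ℕ} {a b : ℤ} (ha : ¬ iso N i a) (hb : ¬ iso N i b)
    (h : a ≤ b) : sm N i a ≤ sm N i b := by
  obtain ⟨r, hr0, hr1, hr⟩ := decomp N i a
  obtain ⟨r', hr0', hr1', hr'⟩ := decomp N i b
  have h1 : r ≠ N + 1 := fun h => ha ((iso_iff hr hr0 hr1).2 h)
  have h2 : r' ≠ N + 1 := fun h => hb ((iso_iff hr' hr0' hr1').2 h)
  unfold sm
  set q := ct N i a
  set q' := ct N i b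
  have h3 : q ≤ q' := by
    by_contra hlt
    push Not at hlt
    have h4 : ((N : ℤ) + 2) * (q' + 1) ≤ (N + 2) * q :=
      mul_le_mul_of_nonneg_left (by omega) (by omega)
    have h5 : ((N : ℤ) + 2) * (q' + 1) = (N + 2) * q' + (N + 2) := by ring
    omega
  rcases h3.eq_or_lt with h4 | h4
  · rw [h4] at hr ⊢
    omega
  · have h5 : (N : ℤ) * (q + 1) ≤ N * q' := mul_le_mul_of_nonneg_left (by omega) (by omega)
    have h6 : (N : ℤ) * (q + 1) = N * q + N := by ring
    have h7 : ((N : ℤ) + 2) * q = N * q + 2 * q := by ring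
    have h8 : ((N : ℤ) + 2) * q' = N * q' + 2 * q' := by ring
    omega

/-- a section of the collapsing map -/
def sec (N i : ℕ) (x : ℤ) : ℤ := x + 2 * ((x + (N - i)) / N)

theorem sec_spec {N i : ℕ} (hN : 1 ≤ N) (x : ℤ) : ¬ iso N i (sec N i x) ∧
    sm N i (sec N i x) = x := by
  have h1 := Int.mul_ediv_add_emod (x + ((N : ℤ) - i)) N
  have h2 := Int.emod_nonneg (x + ((N : ℤ) - i)) (show (N : ℤ) ≠ 0 by omega)
  have h3 := Int.emod_lt_of_pos (x + ((N : ℤ) - i)) (show (0 : ℤ) < N by omega)
  unfold sec sm
  set q := (x + ((N : ℤ) - i)) / N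
  set r := (x + ((N : ℤ) - i)) % N
  have h4 : x + 2 * q = (N + 2) * q + r - (N - i) := by
    have : ((N : ℤ) + 2) * q = N * q + 2 * q := by ring
    omega
  have h5 : ct N i (x + 2 * q) = q := ct_eq h4 h2 (by omega)
  refine ⟨?_, ?_⟩
  · rw [iso_iff h4 h2 (by omega)]
    omega
  · rw [h5]
    ring

theorem sm_zero {N i : ℕ} (hi : i ≤ N) : sm N i 0 = 0 := by
  unfold sm
  rw [ct_eq (q := 0) (r := N - i) (by ring) (by omega) (by omega)]
  ring

theorem sm_last {N i : ℕ} (hi : i ≤ N) : sm N i (N + 2) = N := by
  unfold sm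
  rw [ct_eq (q := 1) (r := N - i) (by ring) (by omega) (by omega)]
  ring

/-- the potential of `lins i u` -/
theorem pot_lins {u : Word} {i : ℕ} (hi : i ≤ u.length) (hu : 1 ≤ u.length) {K : ℤ → ℤ}
    (hK : ∀ a, K (a + 1) = K a + sg u a) : ∃ M : ℤ → ℤ,
      (∀ a, M (a + 1) = M a + sg (lins i u) a) ∧
      (∀ a, ¬ iso u.length i a → M a = K (sm u.length i a)) ∧
      (∀ a, iso u.length i a → ¬ iso u.length i (a - 1) ∧ ¬ iso u.length i (a + 1) ∧
        M a = M (a - 1) + 1 ∧ M a = M (a + 1) + 1) := by
  classical
  set N := u.length with hN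
  have hlen : ((lins i u).length : ℤ) = N + 2 := by
    rw [lins, Pool.Agent.H988R2.Perc.length_ins]
    push_cast
    rw [hN]
  have hlen' : (lins i u).length = N + 2 := by exact_mod_cast hlen
  set M : ℤ → ℤ := fun a => if iso N i a then K (sm N i (a - 1)) + 1 else K (sm N i a) with hM
  have hiso : ∀ a, iso N i a → ¬ iso N i (a - 1) ∧ ¬ iso N i (a + 1) ∧
      sm N i (a + 1) = sm N i (a - 1) := by
    intro a ha
    obtain ⟨k, hk⟩ := ha
    have e1 : a - 1 = (N + 2) * k + N - (N - i) := by rw [hk]; ring
    have e2 : a + 1 = (N + 2) * (k + 1) + 0 - (N - i) := by rw [hk]; ring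
    refine ⟨?_, ?_, ?_⟩
    · rw [iso_iff e1 (by omega) (by omega)]
      omega
    · rw [iso_iff e2 (by omega) (by omega)]
      omega
    · unfold sm
      rw [ct_eq e1 (by omega) (by omega), ct_eq e2 (by omega) (by omega)]
      ring
  have hM1 : ∀ a, ¬ iso N i a → M a = K (sm N i a) := fun a ha => by rw [hM]; simp [ha]
  have hM2 : ∀ a, iso N i a → M a = K (sm N i (a - 1)) + 1 := fun a ha => by rw [hM]; simp [ha]
  refine ⟨M, ?_, hM1, ?_⟩
  · intro a
    obtain ⟨r, hr0, hr1, hr⟩ := decomp N i a
    have hct : ct N i a = ct N i a := rfl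
    set q := ct N i a with hq
    rcases eq_or_ne r (N + 1) with h1 | h1
    · -- isolated
      have ha : iso N i a := (iso_iff hr hr0 hr1).2 h1
      obtain ⟨h2, h3, h4⟩ := hiso a ha
      rw [hM1 _ h3, hM2 _ ha, h4]
      have : sg (lins i u) a = -1 := by
        rw [sg_mul (lins i u) q (i + 1) (by omega) a (by
          rw [hr, h1, hlen]; push_cast; ring), lins_getD i u hi]
        simp
      rw [this]
      ring
    · have ha : ¬ iso N i a := fun h => h1 ((iso_iff hr hr0 hr1).1 h)
      rcases eq_or_ne r N with h2 | h2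
      · -- before an isolated face
        have e1 : a + 1 = (N + 2) * q + (N + 1) - (N - i) := by rw [hr, h2]; ring
        have ha1 : iso N i (a + 1) := (iso_iff e1 (by omega) (by omega)).2 rfl
        rw [hM1 _ ha, hM2 _ ha1, add_sub_cancel_right]
        have : sg (lins i u) a = 1 := by
          rw [sg_mul (lins i u) q i (by omega) a (by
            rw [hr, h2, hlen]; ring), lins_getD i u hi]
          simp
        rw [this]
      · have e1 : a + 1 = (N + 2) * q + (r + 1) - (N - i) := by rw [hr]; ring
        have ha1 : ¬ iso N i (a + 1) := by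
          rw [iso_iff e1 (by omega) (by omega)]
          omega
        have hs : sm N i (a + 1) = sm N i a + 1 := by
          unfold sm
          rw [ct_eq e1 (by omega) (by omega)]
          rw [← hq]
          ring
        rw [hM1 _ ha, hM1 _ ha1, hs, hK]
        congr 1
        have hsm : sm N i a = N * q + r - (N - i) := by
          unfold sm
          rw [← hq]
          have : ((N : ℤ) + 2) * q = N * q + 2 * q := by ring
          omega
        rcases le_or_gt ((N : ℤ) - i) r with h3 | h3
        · obtain ⟨j, hj⟩ : ∃ j : ℕ, (j : ℤ) = r - (N - i) := ⟨(r - (N - i)).toNat, by omega⟩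
          have e5 : (lins i u).getD j true = u.getD j true := by
            rw [lins_getD i u hi, if_pos (by omega)]
          rw [sg_mul u q j (by omega) _ (by rw [hsm, ← hN]; omega),
            sg_mul (lins i u) q j (by omega) a (by rw [hr, hlen]; omega), e5]
        · obtain ⟨j, hj⟩ : ∃ j : ℕ, (j : ℤ) = r + i := ⟨(r + i).toNat, by omega⟩
          have e3 : (N : ℤ) * q = N * (q - 1) + N := by ring
          have e4 : ((N : ℤ) + 2) * q = (N + 2) * (q - 1) + (N + 2) := by ring
          have e5 : (lins i u).getD (j + 2) true = u.getD j true := by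
            rw [lins_getD i u hi, if_neg (by omega), if_neg (by omega), if_neg (by omega)]
            simp
          rw [sg_mul u (q - 1) j (by omega) _ (by rw [hsm, ← hN]; omega),
            sg_mul (lins i u) (q - 1) (j + 2) (by omega) a (by rw [hr, hlen]; push_cast; omega),
            e5]
  · intro a ha
    obtain ⟨h2, h3, h4⟩ := hiso a ha
    refine ⟨h2, h3, ?_, ?_⟩
    · rw [hM1 _ h2, hM2 _ ha]
    · rw [hM1 _ h3, hM2 _ ha, h4]

/-- connections of `lins i u` -/
theorem rw_lins {u : Word} {i : ℕ} (hi : i ≤ u.length) (hu : 1 ≤ u.length) (a b : ℤ) :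
    Rw (lins i u) a b ↔ a = b ∨ (¬ iso u.length i a ∧ ¬ iso u.length i b ∧
      Rw u (sm u.length i a) (sm u.length i b)) := by
  obtain ⟨K, hK⟩ := exists_pot (sg u)
  obtain ⟨M, hM, hM1, hM2⟩ := pot_lins hi hu hK
  set N := u.length with hN
  set s := sm N i with hs
  have fwd : ∀ a b, Rle (lins i u) a b → a ≠ b →
      ¬ iso N i a ∧ ¬ iso N i b ∧ Rle u (s a) (s b) := by
    intro a b h hab
    rw [rle_iff hM] at h
    obtain ⟨h1, h2, h3⟩ := h
    have ha : ¬ iso N i a := by
      intro ha
      have := h2 (a + 1) (by omega) (by omega)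
      have := (hM2 a ha).2.2.2
      omega
    have hb : ¬ iso N i b := by
      intro hb
      have := h2 (b - 1) (by omega) (by omega)
      have := (hM2 b hb).2.2.1
      omega
    refine ⟨ha, hb, ?_⟩
    rw [rle_iff hK]
    rw [hM1 a ha, hM1 b hb] at h3
    refine ⟨sm_mono ha hb h1, fun l hl hl' => ?_, h3⟩
    obtain ⟨t1, t2⟩ := sec_spec (i := i) hu l
    rw [← hs] at t2
    rcases lt_or_ge (sec N i l) a with h4 | h4
    · have := sm_mono t1 ha h4.le
      have h5 : l = s a := le_antisymm (by rw [← t2]; exact this) hl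
      rw [h5]
    rcases lt_or_ge b (sec N i l) with h5 | h5
    · have := sm_mono hb t1 h5.le
      have h6 : l = s b := le_antisymm hl' (by rw [← t2]; exact this)
      rw [h6, h3]
    · have h6 := h2 _ h4 h5
      rw [hM1 a ha, hM1 _ t1, t2] at h6
      exact h6
  have bwd : ∀ a b, ¬ iso N i a → ¬ iso N i b → Rle u (s a) (s b) → Rw (lins i u) a b := by
    intro a b ha hb h
    rw [rle_iff hK] at h
    obtain ⟨h1, h2, h3⟩ := h
    rcases le_or_gt a b with hab | hab
    · left
      rw [rle_iff hM]
      refine ⟨hab, fun l hl hl' => ?_, by rw [hM1 a ha, hM1 b hb, h3]⟩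
      by_cases hli : iso N i l
      · obtain ⟨e1, -, e2, -⟩ := hM2 l hli
        have hla : l ≠ a := fun h => ha (h ▸ hli)
        have := h2 (s (l - 1)) (sm_mono ha e1 (by omega)) (sm_mono e1 hb (by omega))
        rw [e2, hM1 a ha, hM1 _ e1]
        omega
      · rw [hM1 a ha, hM1 l hli]
        exact h2 _ (sm_mono ha hli hl) (sm_mono hli hb hl')
    · right
      have h4 : s b ≤ s a := sm_mono hb ha hab.le
      have h5 : s a = s b := le_antisymm h1 h4
      rw [rle_iff hM]
      refine ⟨hab.le, fun l hl hl' => ?_, by rw [hM1 a ha, hM1 b hb, h5]⟩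
      by_cases hli : iso N i l
      · obtain ⟨e1, -, e2, -⟩ := hM2 l hli
        have hla : l ≠ b := fun h => hb (h ▸ hli)
        have h6 : s b ≤ s (l - 1) := sm_mono hb e1 (by omega)
        have h7 : s (l - 1) ≤ s a := sm_mono e1 ha (by omega)
        have h8 : s (l - 1) = s b := by omega
        rw [e2, hM1 b hb, hM1 _ e1, h8]
        omega
      · have h6 : s b ≤ s l := sm_mono hb hli hl
        have h7 : s l ≤ s a := sm_mono hli ha hl'
        have h8 : s l = s b := by omega
        rw [hM1 b hb, hM1 l hli, h8]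
  constructor
  · intro h
    by_cases hab : a = b
    · exact Or.inl hab
    · right
      rcases h with h | h
      · obtain ⟨h1, h2, h3⟩ := fwd a b h hab
        exact ⟨h1, h2, Or.inl h3⟩
      · obtain ⟨h1, h2, h3⟩ := fwd b a h (Ne.symm hab)
        exact ⟨h2, h1, Or.inr h3⟩
  · rintro (rfl | ⟨h1, h2, h3 | h3⟩)
    · exact (Rw_equiv _).refl _
    · exact bwd a b h1 h2 h3
    · exact (bwd b a h2 h1 h3).symm

/-- The reduction step: an arc of the upper word. -/
theorem step {u w' : Word} {i : ℕ} (hi : i ≤ u.length) (hu : 1 ≤ u.length) (hw' : Ok w')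
    (hl : w'.length = u.length + 2) :
    Relation.EqvGen (fun j k => Rw w' j k ∨ Rw (lins i u) j k) 0 (u.length + 2) ↔
      Relation.EqvGen (fun j k => Rw (cap i w') j k ∨ Rw u j k) 0 u.length := by
  set N := u.length with hN
  set s := sm N i with hs
  have hact : act i w' = lins i (cap i w') := act_eq (by omega)
  have hclen : (cap i w').length = N := by
    have := length_cap (i := i) (w := w') (by omega)
    omega
  have hisol : ∀ a, isol w' i a ↔ iso N i a := by
    intro a
    unfold isol iso
    rw [hl]
    push_cast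
    rfl
  -- connections of `cap i w'`
  have hcap : ∀ a b, ¬ iso N i a → ¬ iso N i b → (Rw (cap i w') (s a) (s b) ↔
      Relation.EqvGen (fun x y => (¬ isol w' i x ∧ ¬ isol w' i y ∧ Rw w' x y) ∨
        ∃ k : ℤ, x = i + k * w'.length ∧ y = i + 2 + k * w'.length) a b) := by
    intro a b ha hb
    have h1 := rw_lins (u := cap i w') (i := i) (by omega) (by omega) a b
    have h2 := Rw_act (i := i) hw' (by omega) a b
    rw [hact, h1, hisol, hisol, hclen] at h2
    constructor
    · intro h
      rcases h2.1 (Or.inr ⟨ha, hb, h⟩) with h3 | h3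
      · rw [h3]
        exact Relation.EqvGen.refl _
      · exact h3.2.2
    · intro h
      rcases h2.2 (Or.inr ⟨ha, hb, h⟩) with h3 | h3
      · rw [h3]
        exact (Rw_equiv _).refl _
      · exact h3.2.2
  have hR1 := Relation.EqvGen.is_equivalence (fun j k => Rw w' j k ∨ Rw (lins i u) j k)
  have hR2 := Relation.EqvGen.is_equivalence (fun j k => Rw (cap i w') j k ∨ Rw u j k)
  have n0 : ¬ iso N i 0 := by
    rw [iso_iff (q := 0) (r := N - i) (by ring) (by omega) (by omega)]
    omega
  have nl : ¬ iso N i (N + 2) := by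
    rw [iso_iff (q := 1) (r := N - i) (by ring) (by omega) (by omega)]
    omega
  have hsec : ∀ a b, ¬ iso N i a → ¬ iso N i b → s a = s b → Rw (lins i u) a b := by
    intro a b ha hb hab
    rw [rw_lins hi hu]
    right
    refine ⟨ha, hb, ?_⟩
    rw [← hN, ← hs, hab]
    exact (Rw_equiv _).refl _
  constructor
  · intro h
    set M : ℤ → ℤ → Prop := fun a b => Rw w' a b ∨ ∃ a' b', ¬ iso N i a' ∧ ¬ iso N i b' ∧
      Rw w' a a' ∧ Relation.EqvGen (fun j k => Rw (cap i w') j k ∨ Rw u j k) (s a') (s b') ∧
      Rw w' b' b with hM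
    have hw : ∀ a b, ¬ iso N i a → ¬ iso N i b → Rw w' a b →
        Relation.EqvGen (fun j k => Rw (cap i w') j k ∨ Rw u j k) (s a) (s b) := by
      intro a b ha hb hab
      apply Relation.EqvGen.rel
      left
      rw [hcap a b ha hb]
      apply Relation.EqvGen.rel
      left
      rw [hisol, hisol]
      exact ⟨ha, hb, hab⟩
    have hMe : Equivalence M := by
      refine ⟨fun a => Or.inl ((Rw_equiv _).refl a), ?_, ?_⟩
      · rintro a b (h | ⟨a', b', h1, h2, h3, h4, h5⟩)
        · exact Or.inl ((Rw_equiv _).symm h)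
        · exact Or.inr ⟨b', a', h2, h1, (Rw_equiv _).symm h5, hR2.symm h4, (Rw_equiv _).symm h3⟩
      · rintro a b c (h | ⟨a', b', h1, h2, h3, h4, h5⟩) (k | ⟨b'', c', k1, k2, k3, k4, k5⟩)
        · exact Or.inl ((Rw_equiv _).trans h k)
        · exact Or.inr ⟨b'', c', k1, k2, (Rw_equiv _).trans h k3, k4, k5⟩
        · exact Or.inr ⟨a', b', h1, h2, h3, h4, (Rw_equiv _).trans h5 k⟩
        · exact Or.inr ⟨a', c', h1, k2, h3, hR2.trans h4 (hR2.trans
            (hw _ _ h2 k1 ((Rw_equiv _).trans h5 k3)) k4), k5⟩
    have h1 : M 0 (N + 2) := by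
      have key : ∀ a b, Relation.EqvGen (fun j k => Rw w' j k ∨ Rw (lins i u) j k) a b →
          M a b := by
        intro a b hab
        induction hab with
        | rel a b h =>
          rcases h with h | h
          · exact Or.inl h
          · rw [rw_lins hi hu] at h
            rcases h with h | ⟨h1, h2, h3⟩
            · rw [h]
              exact hMe.refl _
            · exact Or.inr ⟨a, b, h1, h2, (Rw_equiv _).refl _, Relation.EqvGen.rel _ _
                (Or.inr h3), (Rw_equiv _).refl _⟩
        | refl a => exact hMe.refl _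
        | symm a b _ ih => exact hMe.symm ih
        | trans a b c _ _ ih1 ih2 => exact hMe.trans ih1 ih2
      exact key _ _ h
    have e0 : s 0 = 0 := sm_zero hi
    have e1 : s (N + 2) = N := sm_last hi
    rcases h1 with h1 | ⟨a', b', h1, h2, h3, h4, h5⟩
    · have := hw _ _ n0 nl h1
      rw [e0, e1] at this
      exact this
    · have h6 := hw _ _ n0 h1 h3
      have h7 := hw _ _ h2 nl h5
      rw [e0] at h6
      rw [e1] at h7
      exact hR2.trans h6 (hR2.trans h4 h7)
  · intro h
    have hgen : ∀ a b, Relation.EqvGen (fun x y => (¬ isol w' i x ∧ ¬ isol w' i y ∧ Rw w' x y) ∨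
        ∃ k : ℤ, x = i + k * w'.length ∧ y = i + 2 + k * w'.length) a b →
        Relation.EqvGen (fun j k => Rw w' j k ∨ Rw (lins i u) j k) a b := by
      intro a b h1
      induction h1 with
      | rel a b h =>
        rcases h with h | ⟨k, h1, h2⟩
        · exact Relation.EqvGen.rel _ _ (Or.inl h.2.2)
        · apply Relation.EqvGen.rel
          right
          have e1 : a = (N + 2) * k + N - (N - i) := by rw [h1, hl]; push_cast; ring
          have e2 : b = (N + 2) * (k + 1) + 0 - (N - i) := by rw [h2, hl]; push_cast; ring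
          refine hsec a b ?_ ?_ ?_
          · rw [iso_iff e1 (by omega) (by omega)]
            omega
          · rw [iso_iff e2 (by omega) (by omega)]
            omega
          · rw [hs]
            unfold sm
            rw [ct_eq e1 (by omega) (by omega), ct_eq e2 (by omega) (by omega), e1, e2]
            ring
      | refl a => exact Relation.EqvGen.refl _
      | symm a b _ ih => exact Relation.EqvGen.symm _ _ ih
      | trans a b c _ _ ih1 ih2 => exact Relation.EqvGen.trans _ _ _ ih1 ih2
    have key : ∀ x y, Relation.EqvGen (fun j k => Rw (cap i w') j k ∨ Rw u j k) x y →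
        Relation.EqvGen (fun j k => Rw w' j k ∨ Rw (lins i u) j k) (sec N i x) (sec N i y) := by
      intro x y hxy
      induction hxy with
      | rel x y h =>
        obtain ⟨t1, t2⟩ := sec_spec (i := i) hu x
        obtain ⟨t3, t4⟩ := sec_spec (i := i) hu y
        rcases h with h | h
        · exact hgen _ _ ((hcap _ _ t1 t3).1 (by rw [hs, t2, t4]; exact h))
        · apply Relation.EqvGen.rel
          right
          rw [rw_lins hi hu]
          right
          refine ⟨t1, t3, ?_⟩
          rw [← hN, t2, t4]
          exact h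
      | refl a => exact Relation.EqvGen.refl _
      | symm a b _ ih => exact Relation.EqvGen.symm _ _ ih
      | trans a b c _ _ ih1 ih2 => exact Relation.EqvGen.trans _ _ _ ih1 ih2
    have h1 := key _ _ h
    obtain ⟨t1, t2⟩ := sec_spec (i := i) hu 0
    obtain ⟨t3, t4⟩ := sec_spec (i := i) hu N
    have h2 := hsec 0 _ n0 t1 (by rw [hs, t2]; exact sm_zero hi)
    have h3 := hsec _ _ t3 nl (by rw [hs, t4]; exact (sm_last hi).symm)
    exact hR1.trans (Relation.EqvGen.rel _ _ (Or.inr h2))
      (hR1.trans h1 (Relation.EqvGen.rel _ _ (Or.inr h3)))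

/-- a face at a peak is isolated -/
theorem rw_peak {w : Word} {a b : ℤ} (h1 : sg w a = -1) (h2 : sg w (a - 1) = 1)
    (h : Rw w a b) : a = b := by
  obtain ⟨K, hK⟩ := exists_pot (sg w)
  by_contra hab
  rcases h with h | h
  · rw [rle_iff hK] at h
    have h3 := h.2.1 (a + 1) (by omega) (by have := h.1; omega)
    have h4 := hK a
    omega
  · rw [rle_iff hK] at h
    have h3 := h.2.1 (a - 1) (by have := h.1; omega) (by omega)
    have h4 := hK (a - 1)
    rw [sub_add_cancel] at h4
    have h5 := h.2.2
    omega

theorem seam_peak {u : Word} {k : ℤ} (h : Rw (seam u) 0 k) : 0 = k := by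
  have hl : ((seam u).length : ℤ) = u.length + 2 := by
    simp [seam]
    ring
  refine rw_peak ?_ ?_ h
  · rw [sg_mul (seam u) 0 0 (by simp [seam]) 0 (by simp)]
    simp [seam]
  · rw [sg_mul (seam u) (-1) (u.length + 1) (by simp [seam]) (0 - 1) (by
      rw [hl]; push_cast; ring)]
    simp [seam, List.getD_eq_getElem?_getD]

end Sem4Aux

open Sem4Aux in
theorem f_zero_iff {f : Word → Word → ℕ} (hf : FSpec f) {n : ℕ} {w' w : Word} (h' : Ok w')
    (h : Ok w) (hl' : w'.length = 2 * n) (hl : w.length = 2 * n) :
    f w' w = 0 ↔ Relation.EqvGen (fun j k => Rw w' j k ∨ Rw w j k) 0 (2 * n) := by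
  induction n generalizing w w' with
  | zero =>
    have e1 : w = [] := List.length_eq_zero_iff.1 (by omega)
    have e2 : w' = [] := List.length_eq_zero_iff.1 (by omega)
    subst e1 e2
    simp only [hf.nil, true_iff]
    simpa using Relation.EqvGen.refl _
  | succ n ih =>
    -- the case of a word with an arc
    have main : ∀ (w' : Word) (i : ℕ) (u : Word), Ok w' → Ok u → i ≤ u.length →
        w'.length = 2 * (n + 1) → (lins i u).length = 2 * (n + 1) →
        (f (cap i w') u = 0 ↔
          Relation.EqvGen (fun j k => Rw w' j k ∨ Rw (lins i u) j k) 0 (2 * ((n + 1 : ℕ) : ℤ)))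
        ∧ (f u (cap i w') = 0 ↔
          Relation.EqvGen (fun j k => Rw w' j k ∨ Rw (lins i u) j k) 0 (2 * ((n + 1 : ℕ) : ℤ)))
        := by
      intro w' i u h' hu hi hl' hl
      have hul : u.length = 2 * n := by
        rw [lins, Pool.Agent.H988R2.Perc.length_ins] at hl
        omega
      have hcl : (cap i w').length = 2 * n := by
        have := length_cap (i := i) (w := w') (by omega)
        omega
      have hcok : Ok (cap i w') := ok_cap h' (by omega)
      rcases Nat.eq_zero_or_pos n with hn | hn
      · subst hn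
        have e1 : u = [] := List.length_eq_zero_iff.1 (by omega)
        have e2 : cap i w' = [] := List.length_eq_zero_iff.1 (by omega)
        have e3 : i = 0 := by simpa [e1] using hi
        rw [e2, e1, e3]
        have : Relation.EqvGen (fun j k => Rw w' j k ∨ Rw (lins 0 []) j k) 0
            (2 * ((0 + 1 : ℕ) : ℤ)) := by
          apply Relation.EqvGen.rel
          right
          left
          refine ⟨by norm_num, ?_, ?_⟩
          · intro l h0 h2
            have : l = 0 ∨ l = 1 ∨ l = 2 := by
              push_cast at h2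
              omega
            rcases this with rfl | rfl | rfl
            · simp [Sh]
            · rw [Sh, show Finset.Ico (0 : ℤ) 1 = {0} by decide]
              simp [sg, lins, Pool.Agent.H988R2.Perc.ins]
            · rw [Sh, show Finset.Ico (0 : ℤ) 2 = {0, 1} by decide]
              simp [sg, lins, Pool.Agent.H988R2.Perc.ins]
          · rw [show (2 * ((0 + 1 : ℕ) : ℤ)) = 2 by norm_num, Sh,
              show Finset.Ico (0 : ℤ) 2 = {0, 1} by decide]
            simp [sg, lins, Pool.Agent.H988R2.Perc.ins]
        simp only [hf.nil, true_iff]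
        exact ⟨this, this⟩
      · have h1 := step hi (by omega) h' (by omega)
        rw [hul] at h1
        have e : (2 * ((n + 1 : ℕ) : ℤ)) = ((2 * n : ℕ) : ℤ) + 2 := by push_cast; ring
        rw [e, h1]
        constructor
        · rw [ih hcok hu hcl hul]
          push_cast
          rfl
        · rw [ih hu hcok hul hcl]
          push_cast
          have e2 : (fun j k => Rw u j k ∨ Rw (cap i w') j k) =
              (fun j k => Rw (cap i w') j k ∨ Rw u j k) := by
            funext j k
            exact propext or_comm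
          rw [e2]
    rcases exists_arc h (by omega) with ⟨i, u, hi, hu, hw, -, -⟩ | ⟨u, hu, hw, -⟩
    · subst hw
      rw [hf.insR i w' u h' hu (by
        rw [lins, Pool.Agent.H988R2.Perc.length_ins] at hl
        omega) hi]
      exact (main w' i u h' hu hi hl' hl).1
    · rcases exists_arc h' (by omega) with ⟨i, u', hi, hu', hw', -, -⟩ | ⟨u', hu', hw', -⟩
      · subst hw'
        rw [hf.insL i u' w hu' h (by
          rw [lins, Pool.Agent.H988R2.Perc.length_ins] at hl'
          omega) hi]
        have := (main w i u' h hu' hi hl hl').2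
        have e2 : (fun j k => Rw (lins i u') j k ∨ Rw w j k) =
            (fun j k => Rw w j k ∨ Rw (lins i u') j k) := by
          funext j k
          exact propext or_comm
        rw [e2]
        exact this
      · subst hw hw'
        have hlu : u'.length = u.length := by
          simp only [seam, List.length_append, List.length_cons, List.length_nil] at hl hl'
          omega
        rw [hf.seam u' u hu' hu hlu]
        constructor
        · intro h
          omega
        · intro h
          exfalso
          have key : ∀ a b, Relation.EqvGen (fun j k => Rw (seam u') j k ∨ Rw (seam u) j k) a b →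
              (0 = a ↔ 0 = b) := by
            intro a b hab
            induction hab with
            | rel a b h =>
              constructor
              · rintro rfl
                rcases h with h | h
                · exact seam_peak h
                · exact seam_peak h
              · rintro rfl
                rcases h with h | h
                · exact seam_peak ((Rw_equiv _).symm h)
                · exact seam_peak ((Rw_equiv _).symm h)
            | refl a => rfl
            | symm a b _ ih => exact ih.symm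
            | trans a b c _ _ ih1 ih2 => exact ih1.trans ih2
          have := (key _ _ h).1 rfl
          push_cast at this
          omega

end Pool.Agent.H863R2.Cyl
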