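import Mathlib
import Pool.Agent.H863R2.Cyl.Defs

/-!
# The homogeneous limit of the determinant formula (module R3)
-/

namespace Pool.Agent.H863R2.Cyl
open Matrix Filter Topology

namespace HomLim

/-- the functional `ε^{-k-l} Σ A_{ki} B_{lj} φ_{ij}` -/
noncomputable def LL {N : ℕ} (A B : Matrix (Fin N) (Fin N) ℂ) (ε : ℂ) (k l : Fin N)
    (φ : Fin N → Fin N → ℂ) : ℂ :=
  (ε ^ (k : ℕ))⁻¹ * (ε ^ (l : ℕ))⁻¹ * ∑ i, ∑ j, A k i * B l j * φ i j

lemma LL_add {N : ℕ} (A B : Matrix (Fin N) (Fin N) ℂ) (ε : ℂ) (k l : Fin N)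
    (φ ψ : Fin N → Fin N → ℂ) :
    LL A B ε k l (fun i j => φ i j + ψ i j) = LL A B ε k l φ + LL A B ε k l ψ := by
  unfold LL
  rw [← mul_add, ← Finset.sum_add_distrib]
  congr 1
  apply Finset.sum_congr rfl; intro i _
  rw [← Finset.sum_add_distrib]
  apply Finset.sum_congr rfl; intro j _
  ring

lemma LL_smul {N : ℕ} (A B : Matrix (Fin N) (Fin N) ℂ) (ε : ℂ) (k l : Fin N) (c : ℂ)
    (φ : Fin N → Fin N → ℂ) :
    LL A B ε k l (fun i j => c * φ i j) = c * LL A B ε k l φ := by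
  unfold LL
  rw [mul_left_comm c, Finset.mul_sum (a := c)]
  congr 1
  apply Finset.sum_congr rfl; intro i _
  rw [Finset.mul_sum]
  apply Finset.sum_congr rfl; intro j _
  ring

lemma LL_sum {N : ℕ} (A B : Matrix (Fin N) (Fin N) ℂ) (ε : ℂ) (k l : Fin N) {ι : Type*}
    (S : Finset ι) (φ : ι → Fin N → Fin N → ℂ) :
    LL A B ε k l (fun i j => ∑ t ∈ S, φ t i j) = ∑ t ∈ S, LL A B ε k l (φ t) := by
  classical
  induction S using Finset.induction_on with
  | empty => simp [LL]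
  | insert a S ha ih =>
    simp only [Finset.sum_insert ha]
    rw [LL_add, ih]

lemma LL_mono {N : ℕ} (A B : Matrix (Fin N) (Fin N) ℂ) (ε : ℂ) (k l : Fin N)
    (s r : Fin N → ℂ) (m n : ℕ) :
    LL A B ε k l (fun i j => s i ^ m * r j ^ n) =
      ((ε ^ (k : ℕ))⁻¹ * ∑ i, A k i * s i ^ m) * ((ε ^ (l : ℕ))⁻¹ * ∑ j, B l j * r j ^ n) := by
  unfold LL
  have : ∑ i, ∑ j, A k i * B l j * (s i ^ m * r j ^ n) =
      (∑ i, A k i * s i ^ m) * (∑ j, B l j * r j ^ n) := by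
    rw [Finset.sum_mul_sum]
    apply Finset.sum_congr rfl; intro i _
    apply Finset.sum_congr rfl; intro j _
    ring
  rw [this]; ring

/-- a path `A` of matrices with `A * V(α) = 1` -/
structure Path {N : ℕ} (A : ℂ → Matrix (Fin N) (Fin N) ℂ) (α : ℂ → Fin N → ℂ) : Prop where
  al : ∀ i, ∃ a0, Tendsto (fun ε => α ε i) (𝓝[≠] 0) (𝓝 a0)
  mat : ∀ k i, ∃ a0, Tendsto (fun ε => A ε k i) (𝓝[≠] 0) (𝓝 a0)
  inv : ∀ᶠ ε in 𝓝[≠] (0 : ℂ), A ε * vandermonde (α ε) = 1

lemma tendsto_eps : Tendsto (fun ε : ℂ => ε) (𝓝[≠] 0) (𝓝 0) :=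
  tendsto_nhdsWithin_of_tendsto_nhds (fun _ h => h)

lemma eventually_ne : ∀ᶠ ε in 𝓝[≠] (0 : ℂ), ε ≠ 0 := eventually_mem_nhdsWithin

lemma tendsto_pow_mul {g : ℂ → ℂ} {g0 : ℂ} (hg : Tendsto g (𝓝[≠] 0) (𝓝 g0)) {m : ℕ} (hm : 0 < m) :
    Tendsto (fun ε => ε ^ m * g ε) (𝓝[≠] 0) (𝓝 0) := by
  have h1 : Tendsto (fun ε : ℂ => ε ^ m) (𝓝[≠] 0) (𝓝 (0 ^ m)) := tendsto_eps.pow m
  rw [zero_pow hm.ne'] at h1
  simpa using h1.mul hg

lemma Path.tendsto {N : ℕ} {A : ℂ → Matrix (Fin N) (Fin N) ℂ} {α : ℂ → Fin N → ℂ}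
    (h : Path A α) (k : Fin N) (m : ℕ) :
    Tendsto (fun ε => (ε ^ (k : ℕ))⁻¹ * ∑ i, A ε k i * (ε * α ε i) ^ m) (𝓝[≠] 0)
      (𝓝 (if m = k then 1 else 0)) := by
  by_cases hm : m < N
  · apply tendsto_const_nhds.congr'
    filter_upwards [h.inv, eventually_ne] with ε hε h0
    have h1 := congrFun (congrFun hε k) ⟨m, hm⟩
    rw [Matrix.mul_apply, Matrix.one_apply] at h1
    simp only [vandermonde_apply] at h1
    have h2 : ∑ i, A ε k i * (ε * α ε i) ^ m = ε ^ m * ∑ i, A ε k i * α ε i ^ m := by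
      rw [Finset.mul_sum]
      apply Finset.sum_congr rfl; intro i _
      rw [mul_pow]; ring
    rw [h2, h1]
    by_cases hk : m = k
    · subst hk
      rw [if_pos rfl, if_pos (by ext; rfl)]
      field_simp
    · rw [if_neg hk, if_neg (by intro h'; apply hk; rw [h'])]
      simp
  · have hk : (k : ℕ) < m := lt_of_lt_of_le k.2 (not_lt.mp hm)
    rw [if_neg (ne_of_gt hk)]
    obtain ⟨S, hS⟩ : ∃ S, Tendsto (fun ε => ∑ i, A ε k i * α ε i ^ m) (𝓝[≠] 0) (𝓝 S) := by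
      choose a ha using h.al
      choose b hb using h.mat k
      exact ⟨_, tendsto_finsetSum _ (fun i _ => (hb i).mul ((ha i).pow m))⟩
    apply (tendsto_pow_mul hS (Nat.sub_pos_of_lt hk)).congr'
    filter_upwards [eventually_ne] with ε h0
    have h2 : ∑ i, A ε k i * (ε * α ε i) ^ m = ε ^ m * ∑ i, A ε k i * α ε i ^ m := by
      rw [Finset.mul_sum]
      apply Finset.sum_congr rfl; intro i _
      rw [mul_pow]; ring
    rw [h2, ← mul_assoc]
    congr 1
    rw [eq_comm, inv_mul_eq_iff_eq_mul₀ (pow_ne_zero _ h0), ← pow_add]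
    congr 1; omega

lemma tendsto_mono {N : ℕ} {A B : ℂ → Matrix (Fin N) (Fin N) ℂ} {α β : ℂ → Fin N → ℂ}
    (hA : Path A α) (hB : Path B β) (k l : Fin N) (m n : ℕ) :
    Tendsto (fun ε => LL (A ε) (B ε) ε k l (fun i j => (ε * α ε i) ^ m * (ε * β ε j) ^ n))
      (𝓝[≠] 0) (𝓝 (if (k : ℕ) = m ∧ (l : ℕ) = n then 1 else 0)) := by
  have h := (hA.tendsto k m).mul (hB.tendsto l n)
  simp only [LL_mono]
  convert h using 2
  by_cases h1 : m = k <;> by_cases h2 : n = l <;> simp [h1, h2, eq_comm]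

lemma tendsto_rem {N : ℕ} {A B : ℂ → Matrix (Fin N) (Fin N) ℂ} {α β : ℂ → Fin N → ℂ}
    (hA : Path A α) (hB : Path B β) (k l : Fin N) (ρ : ℂ → Fin N → Fin N → ℂ)
    (hρ : ∀ i j, ∃ r0, Tendsto (fun ε => ρ ε i j) (𝓝[≠] 0) (𝓝 r0)) :
    Tendsto (fun ε => LL (A ε) (B ε) ε k l (fun i j => ε ^ (2 * N) * ρ ε i j))
      (𝓝[≠] 0) (𝓝 0) := by
  obtain ⟨S, hS⟩ : ∃ S, Tendsto (fun ε => ∑ i, ∑ j, A ε k i * B ε l j * ρ ε i j) (𝓝[≠] 0) (𝓝 S) := by
    choose a ha using hA.mat k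
    choose b hb using hB.mat l
    choose c hc using hρ
    exact ⟨_, tendsto_finsetSum _ (fun i _ => tendsto_finsetSum _ (fun j _ =>
      ((ha i).mul (hb j)).mul (hc i j)))⟩
  have hk := k.2
  have hl := l.2
  apply (tendsto_pow_mul hS (m := 2 * N - (k + l)) (by omega)).congr'
  filter_upwards [eventually_ne] with ε h0
  rw [LL_smul (φ := fun i j => ρ ε i j)]
  unfold LL
  rw [← mul_assoc]
  congr 1
  rw [← mul_inv, ← pow_add, eq_comm, ← div_eq_mul_inv,
    div_eq_iff (pow_ne_zero _ h0), ← pow_add]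
  congr 1; omega

/-- the generating function -/
noncomputable def ff (w s r : ℂ) : ℂ := (1 - s * r)⁻¹ + w * (1 - s - r)⁻¹

lemma inv_one_sub {x : ℂ} (hx : 1 - x ≠ 0) (n : ℕ) :
    (1 - x)⁻¹ = ∑ p ∈ Finset.range n, x ^ p + x ^ n * (1 - x)⁻¹ := by
  have h := mul_neg_geom_sum x n
  field_simp
  linear_combination -h

lemma tendsto_ff {N : ℕ} {A B : ℂ → Matrix (Fin N) (Fin N) ℂ} {α β : ℂ → Fin N → ℂ}
    (hA : Path A α) (hB : Path B β) (w : ℂ) (k l : Fin N) :
    Tendsto (fun ε => LL (A ε) (B ε) ε k l (fun i j => ff w (ε * α ε i) (ε * β ε j)))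
      (𝓝[≠] 0) (𝓝 ((if k = l then 1 else 0) + w * (((k : ℕ) + l).choose k : ℂ))) := by
  set K := 2 * N with hK
  -- the two remainders
  have hs : ∀ i, Tendsto (fun ε => ε * α ε i) (𝓝[≠] 0) (𝓝 0) := fun i => by
    obtain ⟨a, ha⟩ := hA.al i
    simpa using tendsto_eps.mul ha
  have hr : ∀ i, Tendsto (fun ε => ε * β ε i) (𝓝[≠] 0) (𝓝 0) := fun i => by
    obtain ⟨a, ha⟩ := hB.al i
    simpa using tendsto_eps.mul ha
  have hsr : ∀ i j, Tendsto (fun ε => 1 - (ε * α ε i) * (ε * β ε j)) (𝓝[≠] 0) (𝓝 1) := fun i j => by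
    have := ((hs i).mul (hr j)).const_sub 1
    simpa using this
  have hsr' : ∀ i j, Tendsto (fun ε => 1 - (ε * α ε i) - (ε * β ε j)) (𝓝[≠] 0) (𝓝 1) := fun i j => by
    have := ((hs i).const_sub 1).sub (hr j)
    simpa using this
  have hne : ∀ᶠ ε in 𝓝[≠] (0 : ℂ), ∀ i j, 1 - (ε * α ε i) * (ε * β ε j) ≠ 0 := by
    rw [eventually_all]; intro i; rw [eventually_all]; intro j
    exact (hsr i j).eventually_ne one_ne_zero
  have hne' : ∀ᶠ ε in 𝓝[≠] (0 : ℂ), ∀ i j, 1 - (ε * α ε i) - (ε * β ε j) ≠ 0 := by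
    rw [eventually_all]; intro i; rw [eventually_all]; intro j
    exact (hsr' i j).eventually_ne one_ne_zero
  -- first part
  have h1 : Tendsto (fun ε => ∑ p ∈ Finset.range K,
      LL (A ε) (B ε) ε k l (fun i j => (ε * α ε i) ^ p * (ε * β ε j) ^ p)) (𝓝[≠] 0)
      (𝓝 (if k = l then 1 else 0)) := by
    have h := tendsto_finsetSum (Finset.range K) (fun p _ => tendsto_mono hA hB k l p p)
    convert h using 2
    by_cases hkl : k = l
    · subst hkl
      rw [if_pos rfl]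
      rw [Finset.sum_eq_single (k : ℕ)]
      · simp
      · intro b _ hb
        rw [if_neg]
        rintro ⟨h', _⟩; exact hb h'.symm
      · intro h'
        exfalso; apply h'
        rw [Finset.mem_range]; have := k.2; omega
    · rw [if_neg hkl, eq_comm]
      apply Finset.sum_eq_zero
      intro p _
      rw [if_neg]
      rintro ⟨h', h''⟩; exact hkl (Fin.ext (h'.trans h''.symm))
  -- second part
  have h2 : Tendsto (fun ε => ∑ d ∈ Finset.range K, ∑ p ∈ Finset.HasAntidiagonal.antidiagonal d,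
      (d.choose p.1 : ℂ) * LL (A ε) (B ε) ε k l (fun i j => (ε * α ε i) ^ p.1 * (ε * β ε j) ^ p.2))
      (𝓝[≠] 0) (𝓝 (((k : ℕ) + l).choose k : ℂ)) := by
    have h := tendsto_finsetSum (Finset.range K) (fun d _ =>
      tendsto_finsetSum (Finset.HasAntidiagonal.antidiagonal d) (fun p _ =>
        (tendsto_mono hA hB k l p.1 p.2).const_mul ((d.choose p.1 : ℂ))))
    convert h using 2
    rw [Finset.sum_eq_single ((k : ℕ) + l)]
    · rw [Finset.sum_eq_single ((k : ℕ), (l : ℕ))]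
      · simp
      · intro b _ hb
        rw [if_neg]
        · simp
        · rintro ⟨h', h''⟩; apply hb; ext
          · exact h'.symm
          · exact h''.symm
      · intro h'; exfalso; apply h'; simp
    · intro d _ hd
      apply Finset.sum_eq_zero
      intro p hp
      rw [if_neg]
      · simp
      · rintro ⟨h', h''⟩
        rw [Finset.HasAntidiagonal.mem_antidiagonal] at hp
        apply hd; rw [← hp, h', h'']
    · intro h'; exfalso; apply h'
      rw [Finset.mem_range]; have := k.2; have := l.2; omega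
  -- remainders
  have h3 := tendsto_rem hA hB k l
    (fun ε i j => ε ^ K * (α ε i * β ε j) ^ K * (1 - (ε * α ε i) * (ε * β ε j))⁻¹) (fun i j => by
      obtain ⟨a, ha⟩ := hA.al i
      obtain ⟨b, hb⟩ := hB.al j
      exact ⟨_, ((tendsto_eps.pow K).mul ((ha.mul hb).pow K)).mul ((hsr i j).inv₀ one_ne_zero)⟩)
  have h4 := tendsto_rem hA hB k l
    (fun ε i j => (α ε i + β ε j) ^ K * (1 - (ε * α ε i) - (ε * β ε j))⁻¹) (fun i j => by
      obtain ⟨a, ha⟩ := hA.al i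
      obtain ⟨b, hb⟩ := hB.al j
      exact ⟨_, (((ha.add hb).pow K)).mul ((hsr' i j).inv₀ one_ne_zero)⟩)
  have h5 := (h1.add h3).add ((h2.add h4).const_mul w)
  simp only [add_zero] at h5
  apply h5.congr'
  filter_upwards [hne, hne'] with ε e1 e2
  have e3 : (fun i j => ff w (ε * α ε i) (ε * β ε j)) = fun i j : Fin N =>
      ((∑ p ∈ Finset.range K, (ε * α ε i) ^ p * (ε * β ε j) ^ p)
        + ε ^ (2 * N) * (ε ^ K * (α ε i * β ε j) ^ K * (1 - (ε * α ε i) * (ε * β ε j))⁻¹))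
      + w * ((∑ d ∈ Finset.range K, ∑ p ∈ Finset.HasAntidiagonal.antidiagonal d,
        (d.choose p.1 : ℂ) * ((ε * α ε i) ^ p.1 * (ε * β ε j) ^ p.2))
        + ε ^ (2 * N) * ((α ε i + β ε j) ^ K * (1 - (ε * α ε i) - (ε * β ε j))⁻¹)) := by
    funext i j
    unfold ff
    have g1 := inv_one_sub (e1 i j) K
    have g2 := inv_one_sub (x := ε * α ε i + ε * β ε j) (by
      have := e2 i j
      intro h0; apply this; linear_combination h0) K
    have g3 : (1 - ε * α ε i - ε * β ε j) = 1 - (ε * α ε i + ε * β ε j) := by ring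
    have g4 : ∀ d ∈ Finset.range K, (ε * α ε i + ε * β ε j) ^ d =
        ∑ p ∈ Finset.HasAntidiagonal.antidiagonal d,
          (d.choose p.1 : ℂ) * ((ε * α ε i) ^ p.1 * (ε * β ε j) ^ p.2) := by
      intro d _
      rw [Commute.add_pow' (Commute.all _ _)]
      apply Finset.sum_congr rfl; intro p _
      simp
    rw [Finset.sum_congr rfl g4] at g2
    have g5 : ∀ p ∈ Finset.range K, (ε * α ε i * (ε * β ε j)) ^ p =
        (ε * α ε i) ^ p * (ε * β ε j) ^ p := fun p _ => mul_pow _ _ _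
    rw [Finset.sum_congr rfl g5] at g1
    have g6 : (ε * α ε i + ε * β ε j) ^ K = ε ^ K * (α ε i + β ε j) ^ K := by
      rw [← mul_add, mul_pow]
    have g7 : (ε * α ε i * (ε * β ε j)) ^ K = ε ^ K * (ε ^ K * (α ε i * β ε j) ^ K) := by
      rw [← mul_pow, ← mul_pow]; congr 1; ring
    rw [g6] at g2
    rw [g7] at g1
    rw [g3, ← hK]
    linear_combination g1 + w * g2
  rw [e3]
  rw [LL_add, LL_add, LL_smul (c := w), LL_add, LL_sum, LL_sum]
  congr 2
  congr 1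
  apply Finset.sum_congr rfl; intro d _
  rw [LL_sum]
  apply Finset.sum_congr rfl; intro p _
  rw [LL_smul]


lemma path_of {N : ℕ} {α : ℂ → Fin N → ℂ} {a0 : Fin N → ℂ}
    (hα : ∀ i, Tendsto (fun ε => α ε i) (𝓝[≠] 0) (𝓝 (a0 i))) (hinj : Function.Injective a0) :
    Path (fun ε => (vandermonde (α ε))⁻¹) α := by
  have hV : Tendsto (fun ε => vandermonde (α ε)) (𝓝[≠] 0) (𝓝 (vandermonde a0)) := by
    apply tendsto_pi_nhds.mpr; intro i
    apply tendsto_pi_nhds.mpr; intro j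
    simp only [vandermonde_apply]
    exact (hα i).pow _
  have hdet : Tendsto (fun ε => (vandermonde (α ε)).det) (𝓝[≠] 0) (𝓝 (vandermonde a0).det) :=
    ((Continuous.matrix_det continuous_id).tendsto _).comp hV
  have h0 : (vandermonde a0).det ≠ 0 := det_vandermonde_ne_zero_iff.mpr hinj
  have hadj : Tendsto (fun ε => (vandermonde (α ε)).adjugate) (𝓝[≠] 0)
      (𝓝 (vandermonde a0).adjugate) :=
    ((Continuous.matrix_adjugate continuous_id).tendsto _).comp hV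
  refine ⟨fun i => ⟨_, hα i⟩, fun k i => ⟨((vandermonde a0)⁻¹) k i, ?_⟩, ?_⟩
  · have : Tendsto (fun ε => ((vandermonde (α ε)).det)⁻¹ * (vandermonde (α ε)).adjugate k i) (𝓝[≠] 0)
        (𝓝 (((vandermonde a0).det)⁻¹ * (vandermonde a0).adjugate k i)) := by
      apply (hdet.inv₀ h0).mul
      have h1 := tendsto_pi_nhds.mp hadj k
      exact tendsto_pi_nhds.mp h1 i
    simpa [Matrix.inv_def, Ring.inverse_eq_inv'] using this
  · filter_upwards [hdet.eventually_ne h0] with ε hε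
    exact Matrix.nonsing_inv_mul _ (isUnit_iff_ne_zero.mpr hε)

lemma det_LL {N : ℕ} (A B VA VB : Matrix (Fin N) (Fin N) ℂ) (hA : A * VA = 1) (hB : B * VB = 1)
    {ε : ℂ} (hε : ε ≠ 0) (F : Matrix (Fin N) (Fin N) ℂ) :
    F.det = VA.det * VB.det * (∏ k : Fin N, ε ^ (k : ℕ)) ^ 2 *
      (Matrix.of fun k l => LL A B ε k l F).det := by
  have h1 : (Matrix.of fun k l => LL A B ε k l F) =
      diagonal (fun k : Fin N => (ε ^ (k : ℕ))⁻¹) * (A * F * Bᵀ) *
        diagonal (fun k : Fin N => (ε ^ (k : ℕ))⁻¹) := by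
    ext k l
    rw [Matrix.mul_diagonal, Matrix.diagonal_mul]
    simp only [of_apply, LL, Matrix.mul_apply, Matrix.transpose_apply]
    rw [mul_right_comm]
    congr 1
    congr 1
    rw [Finset.sum_comm]
    apply Finset.sum_congr rfl; intro j _
    rw [Finset.sum_mul]
    apply Finset.sum_congr rfl; intro i _
    ring
  have hA' : A.det * VA.det = 1 := by rw [← det_mul, hA, det_one]
  have hB' : B.det * VB.det = 1 := by rw [← det_mul, hB, det_one]
  have hp : (∏ k : Fin N, ε ^ (k : ℕ)) * (∏ k : Fin N, (ε ^ (k : ℕ))⁻¹) = 1 := by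
    rw [← Finset.prod_mul_distrib]
    apply Finset.prod_eq_one; intro k _
    exact mul_inv_cancel₀ (pow_ne_zero _ hε)
  rw [h1]
  simp only [det_mul, det_diagonal, det_transpose]
  set P := ∏ k : Fin N, ε ^ (k : ℕ)
  set Q := ∏ k : Fin N, (ε ^ (k : ℕ))⁻¹
  have : VA.det * VB.det * P ^ 2 * (Q * (A.det * F.det * B.det) * Q) =
      (A.det * VA.det) * (B.det * VB.det) * (P * Q) ^ 2 * F.det := by ring
  rw [this, hA', hB', hp]; ring

lemma det_vandermonde_smul {N : ℕ} (c : ℂ) (a : Fin N → ℂ) :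
    (vandermonde (fun i => c * a i)).det = (∏ k : Fin N, c ^ (k : ℕ)) * (vandermonde a).det := by
  rw [← Matrix.det_mul_row]
  congr 1
  ext i j
  simp [vandermonde_apply, mul_pow]

lemma vd_eq {N : ℕ} (z : Fin N → ℂ) : vd z = (vandermonde z).det ^ 2 := by
  rw [det_vandermonde, vd, ← Finset.prod_pow]
  apply Finset.prod_congr rfl; intro i _
  rw [← Finset.prod_pow]
  have : Finset.univ.filter (fun j => i < j) = Finset.Ioi i := by
    ext j; simp
  rw [this]
  apply Finset.prod_congr rfl; intro j _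
  ring

lemma wd_one (q : ℂ) (hq : q ^ 2 + q + 1 = 0) (N : ℕ) :
    wd q (fun _ : Fin N => (1 : ℂ)) = (3 : ℂ) ^ (N * (N - 1)) := by
  unfold wd
  simp only [mul_one, Finset.prod_const, Finset.filter_ne', Finset.card_univ, Fintype.card_fin,
    Finset.mem_univ, Finset.card_erase_of_mem]
  have h1 : (q ^ 2 - q) ^ 2 = -3 := by
    have h2 : q ^ 2 = -q - 1 := by linear_combination hq
    rw [h2]; ring_nf; rw [h2]; ring
  rw [h1, ← pow_mul, mul_comm (N - 1) N]
  have h3 : Even (N * (N - 1)) := Nat.even_mul_pred_self N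
  rw [h3.neg_pow]

lemma q_facts {q : ℂ} (hq : q ^ 2 + q + 1 = 0) : q ≠ 0 ∧ 1 - q ≠ 0 ∧ 1 - q ^ 2 ≠ 0 ∧ q ^ 3 = 1 := by
  refine ⟨?_, ?_, ?_, ?_⟩
  · rintro rfl; norm_num at hq
  · intro h
    have : q = 1 := by linear_combination -h
    subst this; norm_num at hq
  · intro h
    have h2 : q = -2 := by linear_combination hq + h
    subst h2; norm_num at h
  · linear_combination (q - 1) * hq

/-- the points of the path -/
noncomputable def zz {N : ℕ} (ε : ℂ) (i : Fin N) : ℂ := 1 + ε * (i.val : ℂ)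

noncomputable def al (q : ℂ) {N : ℕ} (ε : ℂ) (i : Fin N) : ℂ :=
  -q * (i.val : ℂ) * (zz ε i - q ^ 2)⁻¹

noncomputable def be (q : ℂ) {N : ℕ} (ε : ℂ) (i : Fin N) : ℂ :=
  -q ^ 2 * (i.val : ℂ) * (zz ε i - q)⁻¹

lemma kern_eq {q w : ℂ} (hq : q ^ 2 + q + 1 = 0) {N : ℕ} {ε : ℂ} (i j : Fin N)
    (h1 : zz ε i - q ^ 2 ≠ 0) (h2 : zz ε j - q ≠ 0) :
    kern q w (zz ε) i j = ((1 - q) * q * (zz ε i - q ^ 2)⁻¹) * ((zz ε j - q)⁻¹ *
      ff w (ε * al q ε i) (ε * be q ε j)) := by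
  obtain ⟨hq0, hq1, hq2, hq3⟩ := q_facts hq
  set x := zz ε i with hx
  set y := zz ε j with hy
  have hxs : ε * al q ε i = -q * (x - 1) * (x - q ^ 2)⁻¹ := by
    unfold al; rw [hx]; unfold zz; ring
  have hyr : ε * be q ε j = -q ^ 2 * (y - 1) * (y - q)⁻¹ := by
    unfold be; rw [hy]; unfold zz; ring
  have e1 : 1 - (ε * al q ε i) * (ε * be q ε j) =
      (1 - q) * q * (q ^ 2 * x - q * y) * (x - q ^ 2)⁻¹ * (y - q)⁻¹ := by
    rw [hxs, hyr]; field_simp
    linear_combination (x * q - x * y) * hq3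
  have e2 : 1 - (ε * al q ε i) - (ε * be q ε j) =
      (1 - q) * q * (q ^ 2 * y - q * x) * (x - q ^ 2)⁻¹ * (y - q)⁻¹ := by
    rw [hxs, hyr]; field_simp
    linear_combination (x - q) * (y - q) * hq
  unfold kern ff
  rw [e1, e2]
  simp only [of_apply, mul_inv, inv_inv]
  rw [← hx, ← hy]
  field_simp


end HomLim

open HomLim in
theorem hom_limit {q w : ℂ} (hq : q ^ 2 + q + 1 = 0) {N : ℕ} (G : (Fin N → ℂ) → ℂ)
    (hG : Continuous G)
    (h : ∀ z, Gen q z → G z * vd z = wd q z * (∏ i, z i) * (kern q w z).det) :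
    G (fun _ => 1) = 3 ^ (N * (N - 1) / 2) * (q / (1 - q ^ 2)) ^ N *
      (Matrix.of fun i j : Fin N => (if i = j then 1 else 0)
        + w * ((i.val + j.val).choose i.val : ℂ)).det := by
  obtain ⟨hq0, hq1, hq2, hq3⟩ := q_facts hq
  -- the points
  have hz : Tendsto (fun ε => (zz ε : Fin N → ℂ)) (𝓝[≠] 0) (𝓝 (fun _ => 1)) := by
    apply tendsto_pi_nhds.mpr; intro i
    have := (tendsto_eps.mul_const (i.val : ℂ)).const_add 1
    simpa [zz] using this
  have hzi : ∀ i : Fin N, Tendsto (fun ε => zz ε i) (𝓝[≠] 0) (𝓝 1) := fun i =>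
    tendsto_pi_nhds.mp hz i
  have h1 : ∀ i : Fin N, Tendsto (fun ε => zz ε i - q ^ 2) (𝓝[≠] 0) (𝓝 (1 - q ^ 2)) := fun i =>
    (hzi i).sub_const _
  have h2 : ∀ i : Fin N, Tendsto (fun ε => zz ε i - q) (𝓝[≠] 0) (𝓝 (1 - q)) := fun i =>
    (hzi i).sub_const _
  have e1 : ∀ᶠ ε in 𝓝[≠] (0 : ℂ), ∀ i : Fin N, zz ε i - q ^ 2 ≠ 0 := by
    rw [eventually_all]; intro i; exact (h1 i).eventually_ne hq2
  have e2 : ∀ᶠ ε in 𝓝[≠] (0 : ℂ), ∀ i : Fin N, zz ε i - q ≠ 0 := by
    rw [eventually_all]; intro i; exact (h2 i).eventually_ne hq1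
  have e3 : ∀ᶠ ε in 𝓝[≠] (0 : ℂ), ∀ i : Fin N, zz ε i ≠ 0 := by
    rw [eventually_all]; intro i; exact (hzi i).eventually_ne one_ne_zero
  have e4 : ∀ᶠ ε in 𝓝[≠] (0 : ℂ), ∀ i j : Fin N, q ^ 2 * zz ε i ≠ q * zz ε j := by
    rw [eventually_all]; intro i; rw [eventually_all]; intro j
    have := ((hzi i).const_mul (q ^ 2)).sub ((hzi j).const_mul q)
    have h3 : q ^ 2 * 1 - q * 1 ≠ 0 := by
      intro h0
      have : q * (1 - q) = 0 := by linear_combination -h0
      exact (mul_ne_zero hq0 hq1) this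
    filter_upwards [this.eventually_ne h3] with ε hε
    intro h0; apply hε; rw [h0]; ring
  -- the two Vandermonde paths
  set a : Fin N → ℂ := fun i => (i.val : ℂ) with ha
  have hainj : Function.Injective a := by
    intro i j hij
    have hij' : (i.val : ℂ) = (j.val : ℂ) := hij
    exact Fin.ext (by exact_mod_cast hij')
  set c1 : ℂ := -q * (1 - q ^ 2)⁻¹ with hc1
  set c2 : ℂ := -q ^ 2 * (1 - q)⁻¹ with hc2
  have hc1' : c1 ≠ 0 := mul_ne_zero (neg_ne_zero.mpr hq0) (inv_ne_zero hq2)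
  have hc2' : c2 ≠ 0 := mul_ne_zero (neg_ne_zero.mpr (pow_ne_zero 2 hq0)) (inv_ne_zero hq1)
  have hal : ∀ i : Fin N, Tendsto (fun ε => al q ε i) (𝓝[≠] 0) (𝓝 (c1 * a i)) := by
    intro i
    have := ((h1 i).inv₀ hq2).const_mul (-q * (i.val : ℂ))
    have h3 : c1 * a i = -q * (i.val : ℂ) * (1 - q ^ 2)⁻¹ := by
      rw [hc1]; change -q * (1 - q ^ 2)⁻¹ * (i.val : ℂ) = _; ring
    rw [h3]; exact this
  have hbe : ∀ i : Fin N, Tendsto (fun ε => be q ε i) (𝓝[≠] 0) (𝓝 (c2 * a i)) := by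
    intro i
    have := ((h2 i).inv₀ hq1).const_mul (-q ^ 2 * (i.val : ℂ))
    have h3 : c2 * a i = -q ^ 2 * (i.val : ℂ) * (1 - q)⁻¹ := by
      rw [hc2]; change -q ^ 2 * (1 - q)⁻¹ * (i.val : ℂ) = _; ring
    rw [h3]; exact this
  have pA : Path (fun ε => (vandermonde (al q (N := N) ε))⁻¹) (al q) :=
    path_of hal (fun i j hij => hainj (mul_left_cancel₀ hc1' hij))
  have pB : Path (fun ε => (vandermonde (be q (N := N) ε))⁻¹) (be q) :=
    path_of hbe (fun i j hij => hainj (mul_left_cancel₀ hc2' hij))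
  set M : ℂ → Matrix (Fin N) (Fin N) ℂ := fun ε => Matrix.of fun k l =>
    LL ((vandermonde (al q (N := N) ε))⁻¹) ((vandermonde (be q (N := N) ε))⁻¹) ε k l
      (fun i j => ff w (ε * al q ε i) (ε * be q ε j)) with hM
  set M0 : Matrix (Fin N) (Fin N) ℂ := Matrix.of fun i j : Fin N => (if i = j then 1 else 0)
        + w * ((i.val + j.val).choose i.val : ℂ) with hM0
  have hMl : Tendsto (fun ε => (M ε).det) (𝓝[≠] 0) (𝓝 M0.det) := by
    apply ((Continuous.matrix_det continuous_id).tendsto _).comp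
    apply tendsto_pi_nhds.mpr; intro k
    apply tendsto_pi_nhds.mpr; intro l
    exact tendsto_ff pA pB w k l
  -- the identity for small ε
  set R : ℂ → ℂ := fun ε => wd q (zz ε : Fin N → ℂ) * (∏ i : Fin N, zz ε i)
    * ((∏ i : Fin N, ((1 - q) * q * (zz ε i - q ^ 2)⁻¹)) * ((∏ i : Fin N, (zz ε i - q)⁻¹)
      * ((vandermonde (al q (N := N) ε)).det * (vandermonde (be q (N := N) ε)).det
        * (M ε).det))) with hR
  have key : ∀ᶠ ε in 𝓝[≠] (0 : ℂ), G (zz ε) * (vandermonde a).det ^ 2 = R ε := by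
    filter_upwards [e1, e2, e3, e4, eventually_ne, pA.inv, pB.inv] with ε f1 f2 f3 f4 f5 f6 f7
    have hgen : Gen q (zz ε : Fin N → ℂ) := by
      refine ⟨f3, ?_, fun i j _ => f4 i j⟩
      intro i j hij h0
      apply hij
      apply hainj
      have : ε * a i = ε * a j := by
        have := h0; unfold zz at this; simpa [ha] using this
      exact mul_left_cancel₀ f5 this
    have hh := h _ hgen
    have hvd : vd (zz ε : Fin N → ℂ) = ((∏ k : Fin N, ε ^ (k : ℕ)) * (vandermonde a).det) ^ 2 := by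
      rw [← det_vandermonde_smul, ← vd_eq]
      unfold vd
      apply Finset.prod_congr rfl; intro i _
      apply Finset.prod_congr rfl; intro j _
      simp only [zz, ha]; ring
    have hk : (kern q w (zz ε : Fin N → ℂ)).det =
        (∏ i : Fin N, ((1 - q) * q * (zz ε i - q ^ 2)⁻¹)) * ((∏ i : Fin N, (zz ε i - q)⁻¹)
          * (Matrix.of fun i j : Fin N => ff w (ε * al q ε i) (ε * be q ε j)).det) := by
      rw [← Matrix.det_mul_row, ← Matrix.det_mul_column]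
      congr 1
      ext i j
      rw [kern_eq hq i j (f1 i) (f2 j)]
      rfl
    rw [hvd, hk, det_LL _ _ _ _ f6 f7 f5
      (Matrix.of fun i j : Fin N => ff w (ε * al q ε i) (ε * be q ε j))] at hh
    have hP : (∏ k : Fin N, ε ^ (k : ℕ)) ^ 2 ≠ 0 :=
      pow_ne_zero _ (Finset.prod_ne_zero_iff.mpr (fun k _ => pow_ne_zero _ f5))
    apply mul_right_cancel₀ hP
    calc G (zz ε) * (vandermonde a).det ^ 2 * (∏ k : Fin N, ε ^ (k : ℕ)) ^ 2
        = G (zz ε) * ((∏ k : Fin N, ε ^ (k : ℕ)) * (vandermonde a).det) ^ 2 := by ring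
      _ = _ := hh
      _ = _ := by
        simp only [hR, hM]
        have : (Matrix.of fun k l => LL ((vandermonde (al q (N := N) ε))⁻¹)
            ((vandermonde (be q (N := N) ε))⁻¹) ε k l
            (Matrix.of fun i j : Fin N => ff w (ε * al q ε i) (ε * be q ε j))) =
            (Matrix.of fun k l => LL ((vandermonde (al q (N := N) ε))⁻¹)
            ((vandermonde (be q (N := N) ε))⁻¹) ε k l
            (fun i j : Fin N => ff w (ε * al q ε i) (ε * be q ε j))) := rfl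
        rw [this]
        ring
  -- limits
  have hL : Tendsto (fun ε => G (zz ε) * (vandermonde a).det ^ 2) (𝓝[≠] 0)
      (𝓝 (G (fun _ => 1) * (vandermonde a).det ^ 2)) :=
    ((hG.tendsto _).comp hz).mul_const _
  have hVal : Tendsto (fun ε => (vandermonde (al q (N := N) ε)).det) (𝓝[≠] 0)
      (𝓝 ((vandermonde (fun i => c1 * a i)).det)) := by
    apply ((Continuous.matrix_det continuous_id).tendsto _).comp
    apply tendsto_pi_nhds.mpr; intro k
    apply tendsto_pi_nhds.mpr; intro l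
    exact (hal k).pow _
  have hVbe : Tendsto (fun ε => (vandermonde (be q (N := N) ε)).det) (𝓝[≠] 0)
      (𝓝 ((vandermonde (fun i => c2 * a i)).det)) := by
    apply ((Continuous.matrix_det continuous_id).tendsto _).comp
    apply tendsto_pi_nhds.mpr; intro k
    apply tendsto_pi_nhds.mpr; intro l
    exact (hbe k).pow _
  have hwd : Continuous (fun z : Fin N → ℂ => wd q z) := by
    unfold wd; fun_prop
  have hRl : Tendsto R (𝓝[≠] 0) (𝓝 (wd q (fun _ : Fin N => (1 : ℂ)) * (∏ _i : Fin N, (1 : ℂ))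
    * ((∏ _i : Fin N, ((1 - q) * q * (1 - q ^ 2)⁻¹)) * ((∏ _i : Fin N, (1 - q)⁻¹)
      * ((vandermonde (fun i => c1 * a i)).det * (vandermonde (fun i => c2 * a i)).det
        * M0.det))))) := by
    refine (((hwd.tendsto _).comp hz).mul (tendsto_finsetProd _ (fun i _ => hzi i))).mul
      ((tendsto_finsetProd _ (fun i _ => ((h1 i).inv₀ hq2).const_mul _)).mul
        ((tendsto_finsetProd _ (fun i _ => (h2 i).inv₀ hq1)).mul ((hVal.mul hVbe).mul hMl)))
  have hfin := tendsto_nhds_unique (hL.congr' key) hRl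
  rw [wd_one q hq, det_vandermonde_smul, det_vandermonde_smul] at hfin
  have hV0 : (vandermonde a).det ^ 2 ≠ 0 :=
    pow_ne_zero _ (det_vandermonde_ne_zero_iff.mpr hainj)
  apply mul_right_cancel₀ hV0
  rw [hfin]
  simp only [Finset.prod_const, Finset.card_univ, Fintype.card_fin, one_pow, mul_one]
  have hcc : c1 * c2 = 3⁻¹ := by
    have h3 : (1 - q ^ 2) * (1 - q) = 3 := by linear_combination hq3 - hq
    rw [hc1, hc2]
    have : -q * (1 - q ^ 2)⁻¹ * (-q ^ 2 * (1 - q)⁻¹) = q ^ 3 * ((1 - q ^ 2) * (1 - q))⁻¹ := by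
      rw [mul_inv]; ring
    rw [this, h3, hq3, one_mul]
  have hprod : (∏ k : Fin N, c1 ^ (k : ℕ)) * (∏ k : Fin N, c2 ^ (k : ℕ)) =
      ((3 : ℂ) ^ (N * (N - 1) / 2))⁻¹ := by
    rw [← Finset.prod_mul_distrib]
    simp only [← mul_pow, hcc]
    rw [Fin.prod_univ_eq_prod_range (fun k => (3⁻¹ : ℂ) ^ k) N, Finset.prod_pow_eq_pow_sum,
      Finset.sum_range_id, inv_pow]
  have h33 : (3 : ℂ) ^ (N * (N - 1)) = 3 ^ (N * (N - 1) / 2) * 3 ^ (N * (N - 1) / 2) := by
    rw [← pow_add]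
    congr 1
    have := Nat.even_mul_pred_self N
    obtain ⟨r, hr⟩ := this
    omega
  have h3n : (3 : ℂ) ^ (N * (N - 1) / 2) ≠ 0 := pow_ne_zero _ (by norm_num)
  have hgh : ((1 - q) * q * (1 - q ^ 2)⁻¹) ^ N * (1 - q)⁻¹ ^ N = (q / (1 - q ^ 2)) ^ N := by
    rw [← mul_pow]; congr 1; field_simp
  calc _ = (3 : ℂ) ^ (N * (N - 1)) * (((1 - q) * q * (1 - q ^ 2)⁻¹) ^ N * (1 - q)⁻¹ ^ N)
        * ((∏ k : Fin N, c1 ^ (k : ℕ)) * (∏ k : Fin N, c2 ^ (k : ℕ)))
        * (vandermonde a).det ^ 2 * M0.det := by ring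
    _ = _ := by
      rw [hprod, hgh, h33]
      field_simp

end Pool.Agent.H863R2.Cyl
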