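import Pool.Agent.H863R2.Cyl.DetG
import Pool.Agent.H863R2.Cyl.Hom

/-! # Module R4: `G(1,…,1)` as a Pascal determinant -/

namespace Pool.Agent.H863R2.Cyl
open Pool.Agent.H988R2.Perc (Word flipR flipL rem firstArc PD)
open MvPolynomial

namespace GOnesAux

lemma continuous_of_PD {N d : ℕ} {G : List ℂ → ℂ} (h : PD N d G) :
    Continuous (fun z : Fin N → ℂ => G (List.ofFn z)) := by
  obtain ⟨p, -, hp⟩ := h
  have : (fun z : Fin N → ℂ => G (List.ofFn z)) = fun z => eval z p := by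
    funext z
    rw [hp _ (List.length_ofFn)]
    have h2 : (fun i : Fin N => (List.ofFn z).getD i 0) = z := by
      funext i
      rw [List.getD_eq_getElem _ _ (by simp)]
      simp
    rw [h2]
  rw [this]
  exact MvPolynomial.continuous_eval p

lemma qq {q : ℂ} (hq : q ^ 2 + q + 1 = 0) : (q / (1 - q ^ 2)) ^ 2 = -1 / 3 := by
  have h3 : q ^ 3 = 1 := by
    have : q ^ 3 - 1 = (q - 1) * (q ^ 2 + q + 1) := by ring
    rw [hq, mul_zero] at this
    exact sub_eq_zero.mp this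
  have hne : 1 - q ^ 2 ≠ 0 := by
    intro h
    have h2 : q ^ 2 = 1 := (sub_eq_zero.mp h).symm
    have h4 : q = 1 := by
      calc q = q ^ 3 := by rw [show q ^ 3 = q ^ 2 * q by ring, h2, one_mul]
        _ = 1 := h3
    rw [h4] at hq
    norm_num at hq
  rw [div_pow, div_eq_div_iff (pow_ne_zero 2 hne) (by norm_num)]
  have : (1 - q ^ 2) ^ 2 = -3 * q ^ 2 := by
    have h4 : q ^ 4 = q := by rw [show q ^ 4 = q ^ 3 * q by ring, h3, one_mul]
    calc (1 - q ^ 2) ^ 2 = 1 - 2 * q ^ 2 + q ^ 4 := by ring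
      _ = (q ^ 2 + q + 1) - 3 * q ^ 2 := by rw [h4]; ring
      _ = -3 * q ^ 2 := by rw [hq]; ring
  rw [this]; ring

end GOnesAux

theorem G_ones {q w : ℂ} (hq : q ^ 2 + q + 1 = 0) (hw : w ≠ 0) (hw1 : w ≠ -1)
    {G : List ℂ → ℂ} (hG : GSpec q (w + w⁻¹) G) (n : ℕ) :
    G (List.replicate (2 * n) 1) = 3 ^ (2 * n * (n - 1)) * (w⁻¹) ^ n * (pas w (2 * n)).det := by
  have hwi : w⁻¹ ≠ 0 := inv_ne_zero hw
  have hwi1 : w⁻¹ ≠ -1 := by
    intro h
    apply hw1
    rw [← inv_inv w, h]; norm_num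
  have hG' : GSpec q (w⁻¹ + w⁻¹⁻¹) G := by
    rw [inv_inv, add_comm]; exact hG
  set N := 2 * n with hN
  have hc : cN q w⁻¹ N = (-w) ^ n := by
    unfold cN
    rw [inv_inv, if_pos (by rw [hN]; exact even_two_mul n), mul_one, hN, Nat.mul_div_cancel_left n (by norm_num)]
  have hwn : (-w) ^ n ≠ 0 := pow_ne_zero _ (neg_ne_zero.mpr hw)
  have hcont := GOnesAux.continuous_of_PD (hG.deg N)
  have hlim := hom_limit (w := w⁻¹) hq (fun z : Fin N → ℂ => ((-w) ^ n)⁻¹ * G (List.ofFn z))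
    (continuous_const.mul hcont) (by
      intro z hz
      have h1 := G_formula hq hwi hwi1 hG' N z hz
      rw [hc] at h1
      calc ((-w) ^ n)⁻¹ * G (List.ofFn z) * vd z = ((-w) ^ n)⁻¹ * (G (List.ofFn z) * vd z) := by ring
        _ = ((-w) ^ n)⁻¹ * ((-w) ^ n * (wd q z * (∏ i, z i) * (kern q w⁻¹ z).det)) := by rw [h1]
        _ = _ := by rw [← mul_assoc, inv_mul_cancel₀ hwn, one_mul])
  have h2 : List.ofFn (fun _ : Fin N => (1 : ℂ)) = List.replicate N 1 := by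
    rw [List.ofFn_const]
  simp only [h2] at hlim
  have hdet : (pas w N).det = w ^ N * (Matrix.of fun i j : Fin N => (if i = j then 1 else 0)
        + w⁻¹ * ((i.val + j.val).choose i.val : ℂ)).det := by
    have h3 : pas w N = w • (Matrix.of fun i j : Fin N => (if i = j then 1 else 0)
        + w⁻¹ * ((i.val + j.val).choose i.val : ℂ)) := by
      ext i j
      simp only [pas, Matrix.of_apply, Matrix.smul_apply, smul_eq_mul, mul_add]
      rw [← mul_assoc, mul_inv_cancel₀ hw, one_mul]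
      split_ifs <;> simp
    rw [h3, Matrix.det_smul, Fintype.card_fin]
  set Dt := (Matrix.of fun i j : Fin N => (if i = j then 1 else 0)
        + w⁻¹ * ((i.val + j.val).choose i.val : ℂ)).det with hDt
  have h4 : G (List.replicate N 1) = (-w) ^ n * (3 ^ (N * (N - 1) / 2) * (q / (1 - q ^ 2)) ^ N * Dt) := by
    rw [← hlim, ← mul_assoc, mul_inv_cancel₀ hwn, one_mul]
  rw [h4, hdet]
  have h5 : (q / (1 - q ^ 2)) ^ N = (-1 / 3) ^ n := by
    rw [hN, pow_mul, GOnesAux.qq hq]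
  have h6 : N * (N - 1) / 2 = n * (2 * n - 1) := by
    rw [hN, mul_assoc, Nat.mul_div_cancel_left _ (by norm_num)]
  have h7 : n * (2 * n - 1) = 2 * n * (n - 1) + n := by
    rcases n with _ | n
    · simp
    · have e1 : 2 * (n + 1) - 1 = 2 * n + 1 := by omega
      have e2 : n + 1 - 1 = n := by omega
      rw [e1, e2]; ring
  rw [h5, h6, h7, pow_add, hN, pow_mul w 2 n]
  have h8 : (w⁻¹) ^ n * (w ^ 2) ^ n = w ^ n := by
    rw [← mul_pow]
    congr 1
    field_simp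
  have h9 : (-w) ^ n * ((3 : ℂ) ^ n * (-1 / 3) ^ n) = w ^ n := by
    rw [← mul_pow, ← mul_pow]
    congr 1
    ring
  calc (-w) ^ n * (3 ^ (2 * n * (n - 1)) * 3 ^ n * (-1 / 3) ^ n * Dt) =
      3 ^ (2 * n * (n - 1)) * ((-w) ^ n * ((3 : ℂ) ^ n * (-1 / 3) ^ n)) * Dt := by ring
    _ = 3 ^ (2 * n * (n - 1)) * ((w⁻¹) ^ n * (w ^ 2) ^ n) * Dt := by rw [h9, h8]
    _ = _ := by ring

end Pool.Agent.H863R2.Cyl
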