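import Pool.Agent.H863R2.Cyl.KRel
import Pool.Agent.H863R2.Cyl.Lst2
import Pool.Agent.H988R2.Perc.T03

/-!
# Module BL: the braid limit of the ground state
-/

namespace Pool.Agent.H863R2.Cyl
open Pool.Agent.H988R2.Perc (Word flipR flipL rem firstArc PD)

namespace BLAux

theorem cube {q : ℂ} (hq : q ^ 2 + q + 1 = 0) : q ^ 3 = 1 := by
  have h : q ^ 3 - 1 = (q - 1) * (q ^ 2 + q + 1) := by ring
  rw [hq, mul_zero] at h
  exact sub_eq_zero.mp h

theorem q_ne_zero {q : ℂ} (hq : q ^ 2 + q + 1 = 0) : q ≠ 0 := by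
  intro h; rw [h] at hq; norm_num at hq

theorem q_ne_one {q : ℂ} (hq : q ^ 2 + q + 1 = 0) : q ≠ 1 := by
  intro h; rw [h] at hq; norm_num at hq

theorem lin_lin (f g : Word → Word) (v : VW) : lin f (lin g v) = lin (f ∘ g) v := by
  simp only [lin, Finsupp.lmapDomain_apply]
  rw [← Finsupp.mapDomain_comp]

theorem lin_congr {f g : Word → Word} {v : VW} {N : ℕ} (hv : v ∈ VN N)
    (h : ∀ w : Word, w.length = N → Ok w → f w = g w) : lin f v = lin g v := by
  simp only [lin, Finsupp.lmapDomain_apply]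
  apply Finsupp.mapDomain_congr
  intro w hw
  have := (Finsupp.mem_supported ℂ v).1 hv hw
  exact h w this.1 this.2

theorem rotr_lin_lins {N : ℕ} {v : VW} (hv : v ∈ VN N) :
    lin rotr (lin (lins N) v) = lin seam v := by
  rw [lin_lin]
  apply lin_congr hv
  intro w hw _
  simp only [Function.comp]
  rw [← hw]
  exact rotr_lins_last w

/-- the difference of the two sides -/
noncomputable def D (Ψ : List ℂ → VW) (K : VW →ₗ[ℂ] VW) (m : List ℂ) : VW :=
  Ψ (0 :: m) - m.prod • K (Ψ m)

variable {q : ℂ} {Ψ : List ℂ → VW} {K : VW →ₗ[ℂ] VW}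

theorem D_exch (hq : q ^ 2 + q + 1 = 0) (hΨ : Fam q Ψ) (hK : KSpec q K) (u v : List ℂ) (x y : ℂ) :
    (q * y - q ^ 2 * x) • D Ψ K (u ++ y :: x :: v) =
      (q * x - q ^ 2 * y) • D Ψ K (u ++ x :: y :: v) +
      (x - y) • lin (act (u.length + 1)) (D Ψ K (u ++ x :: y :: v)) := by
  have h1 := hΨ.exch (0 :: u) v x y
  have h2 := congrArg K (hΨ.exch u v x y)
  simp only [List.cons_append, List.length_cons] at h1
  rw [map_smul, map_add, map_smul, map_smul,
    ← K_act hq hK (N := (u ++ x :: y :: v).length) (by simp) (hΨ.mem _)] at h2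
  have hp : (u ++ y :: x :: v).prod = (u ++ x :: y :: v).prod := by
    simp only [List.prod_append, List.prod_cons]; ring
  simp only [D]
  rw [map_sub, map_smul, hp]
  linear_combination (norm := module) h1 - (u ++ x :: y :: v).prod • h2

theorem swap_zero (hq : q ^ 2 + q + 1 = 0) (hΨ : Fam q Ψ) (hK : KSpec q K) (u v : List ℂ) (x y : ℂ)
    (h : D Ψ K (u ++ x :: y :: v) = 0) (hne : q * y - q ^ 2 * x ≠ 0) :
    D Ψ K (u ++ y :: x :: v) = 0 := by
  have h1 := D_exch hq hΨ hK u v x y
  rw [h] at h1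
  simp only [smul_zero, map_zero, add_zero] at h1
  exact (smul_eq_zero.1 h1).resolve_left hne

theorem D_rec (hq : q ^ 2 + q + 1 = 0) (hΨ : Fam q Ψ) (hK : KSpec q K) (u v : List ℂ) (x : ℂ)
    (h : D Ψ K (u ++ v) = 0) : D Ψ K (u ++ x :: (q * x) :: v) = 0 := by
  have h1 := hΨ.recu (0 :: u) v x
  have h2 := congrArg K (hΨ.recu u v x)
  simp only [List.cons_append, List.length_cons] at h1
  rw [map_smul, K_lins hK (N := (u ++ v).length) (by simp) (hΨ.mem _)] at h2
  have h3 : Ψ (0 :: (u ++ v)) = (u ++ v).prod • K (Ψ (u ++ v)) := sub_eq_zero.1 h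
  have hp : (u ++ x :: (q * x) :: v).prod = q * x ^ 2 * (u ++ v).prod := by
    simp only [List.prod_append, List.prod_cons]; ring
  have hf : fac q x (0 :: (u ++ v)) = q * x ^ 2 * fac q x (u ++ v) := by
    simp only [fac, List.map_cons, List.prod_cons]
    have hc := cube hq
    linear_combination (x ^ 3 * q * (List.map (fun y => (y - q ^ 2 * x) ^ 2) (u ++ v)).prod) * hc
  simp only [D]
  rw [h1, h2, hp, hf, h3, map_smul]
  module

theorem seam_form (hΨ : Fam q Ψ) (m : List ℂ) (x : ℂ) :
    Ψ ((q * x) :: (m ++ [x])) = fac q x m • lin seam (Ψ m) := by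
  rw [hΨ.rot]
  have h1 : m ++ [x] ++ [q * x] = m ++ x :: (q * x) :: [] := by simp
  rw [h1, hΨ.recu, List.append_nil, map_smul, rotr_lin_lins (hΨ.mem m)]

theorem D_seam (hq : q ^ 2 + q + 1 = 0) (hΨ : Fam q Ψ) (hK : KSpec q K) (m : List ℂ) (x : ℂ)
    (hx : x ≠ 0) (h : D Ψ K m = 0) : D Ψ K ((q * x) :: (m ++ [x])) = 0 := by
  have hc := cube hq
  have h0 := seam_form hΨ m x
  have h1 := seam_form hΨ (0 :: m) x
  have h2 := hΨ.exch [] (m ++ [x]) (q * x) 0
  simp only [List.nil_append, List.cons_append, List.length_nil] at h1 h2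
  have h3 : Ψ (0 :: m) = m.prod • K (Ψ m) := sub_eq_zero.1 h
  have h4 := K_seam hK (hΨ.mem m)
  have hf : fac q x (0 :: m) = q * x ^ 2 * fac q x m := by
    simp only [fac, List.map_cons, List.prod_cons]
    linear_combination (x ^ 3 * q * (List.map (fun y => (y - q ^ 2 * x) ^ 2) m).prod) * hc
  have hp : ((q * x) :: (m ++ [x])).prod = q * x ^ 2 * m.prod := by
    simp only [List.prod_append, List.prod_cons, List.prod_nil]; ring
  rw [h1, h3, hf] at h2
  simp only [map_smul] at h2
  have h5 : (-x) • Ψ (0 :: q * x :: (m ++ [x])) =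
      (-x) • ((q * x ^ 2 * fac q x m * m.prod) • K (lin seam (Ψ m))) := by
    rw [h4]
    have e1 : (q * 0 - q ^ 2 * (q * x)) = -x := by linear_combination (-x) * hc
    rw [e1] at h2
    rw [h2]
    match_scalars
    · ring
    · ring
  have h6 : Ψ (0 :: q * x :: (m ++ [x])) = (q * x ^ 2 * fac q x m * m.prod) • K (lin seam (Ψ m)) :=
    smul_right_injective VW (neg_ne_zero.2 hx) h5
  simp only [D]
  rw [h6, hp, h0, map_smul]
  module

/-! ### polynomiality -/

theorem univ_ext {N d : ℕ} {F : List ℂ → ℂ} (hF : PD N d F) (u v : List ℂ)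
    (h : u.length + v.length + 1 = N) (c : ℂ) (h0 : ∀ x, x ≠ c → F (u ++ x :: v) = 0) (x : ℂ) :
    F (u ++ x :: v) = 0 := by
  obtain ⟨P, _, hP⟩ := PD.univ hF u v h
  have : P = 0 := by
    apply Polynomial.eq_zero_of_infinite_isRoot
    apply Set.Infinite.mono (s := {c}ᶜ)
    · intro y hy
      show P.eval y = 0
      rw [← hP y]
      exact h0 y hy
    · exact (Set.finite_singleton c).infinite_compl
  rw [hP x, this, Polynomial.eval_zero]

theorem PD_prod (N : ℕ) : PD N 1 (fun l => l.prod) := by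
  refine ⟨∏ i : Fin N, MvPolynomial.X i, fun i => ?_, fun l hl => ?_⟩
  · refine (MvPolynomial.degreeOf_prod_le _ _ _).trans ?_
    simp only [MvPolynomial.degreeOf_X]
    simp
  · rw [map_prod]
    simp only [MvPolynomial.eval_X]
    subst hl
    have h1 : l = List.ofFn (fun i : Fin l.length => l.getD i 0) := by
      apply List.ext_getElem
      · simp
      · intro n h1 h2
        simp
    conv_lhs => rw [h1]
    rw [List.prod_ofFn]

/-- the words of length `N` -/
noncomputable def SN (N : ℕ) : Finset Word := (List.finite_length_eq Bool N).toFinset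

theorem expand {N : ℕ} {v : VW} (hv : v ∈ VN N) : v = ∑ w ∈ SN N, v w • bs w := by
  classical
  have h1 : v.support ⊆ SN N := by
    intro w hw
    have := (Finsupp.mem_supported ℂ v).1 hv hw
    simp [SN, this.1]
  conv_lhs => rw [← Finsupp.sum_single v]
  rw [Finsupp.sum_of_support_subset v h1 _ (by simp)]
  apply Finset.sum_congr rfl
  intro w _
  simp

theorem PD_K (hΨ : Fam q Ψ) (K : VW →ₗ[ℂ] VW) (N : ℕ) (w : Word) :
    PD N (N - 1) (fun m => K (Ψ m) w) := by
  have h1 : PD N (N - 1) (fun m => ∑ w' ∈ SN N, (K (bs w') w) * Ψ m w') :=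
    PD.sum _ (fun w' _ => PD.smul _ (hΨ.deg N w'))
  refine h1.congr ?_
  intro m hm
  have h2 := expand (hm ▸ hΨ.mem m)
  conv_lhs => rw [h2]
  rw [map_sum, Finsupp.finsetSum_apply]
  apply Finset.sum_congr rfl
  intro w' _
  rw [map_smul, Finsupp.smul_apply, smul_eq_mul, mul_comm]

theorem PD_D (hΨ : Fam q Ψ) (K : VW →ₗ[ℂ] VW) {N : ℕ} (hN : 1 ≤ N) (w : Word) :
    PD N N (fun m => D Ψ K m w) := by
  have h1 : PD N N (fun m => Ψ (0 :: m) w) := by
    have h := PD.slice (M := N) (d := N) (F := fun l => Ψ l w) (hΨ.deg (N + 1) w) 0 (Nat.zero_le _) 0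
    refine h.congr ?_
    intro l _
    simp
  have h2 : PD N N (fun m => m.prod * K (Ψ m) w) := by
    have := (PD_prod N).mul (PD_K hΨ K N w)
    refine this.le (by omega)
  have h3 := h1.add (h2.smul (-1))
  refine h3.congr ?_
  intro l _
  simp only [D, Finsupp.sub_apply, Finsupp.smul_apply, smul_eq_mul]
  ring

/-! ### propagation of zeros -/

theorem zeroA (hq : q ^ 2 + q + 1 = 0) (hΨ : Fam q Ψ) (hK : KSpec q K) {N : ℕ}
    (ih : ∀ m : List ℂ, m.length + 2 = N → D Ψ K m = 0) (v : List ℂ) :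
    ∀ (u w : List ℂ) (x : ℂ), u.length + v.length + w.length + 2 = N →
      D Ψ K (u ++ x :: (v ++ (q * x) :: w)) = 0 := by
  induction v with
  | nil =>
    intro u w x h
    exact D_rec hq hΨ hK u w x (ih _ (by simpa using h))
  | cons y v ihv =>
    intro u w x h
    have hl : u.length + 1 + (v ++ (q * x) :: w).length + 1 = N := by
      simp only [List.length_cons, List.length_append] at h ⊢; omega
    ext wd
    have hF := PD_D hΨ K (N := N) (by omega) wd
    have key := univ_ext hF (u ++ [x]) (v ++ (q * x) :: w) (by simpa using hl) (q ^ 2 * x) ?_ y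
    · simpa using key
    · intro y' hy'
      have h1 := ihv (u ++ [y']) w x (by
        simp only [List.length_cons, List.length_append, List.length_nil] at h ⊢; omega)
      rw [List.append_assoc, List.singleton_append] at h1
      have h2 := swap_zero hq hΨ hK u (v ++ (q * x) :: w) y' x h1 ?_
      · rw [List.append_assoc, List.singleton_append, h2]; rfl
      · intro h3
        apply hy'
        have hc := cube hq
        have h4 : q ^ 2 * (q * x - q ^ 2 * y') = 0 := by rw [h3, mul_zero]
        have h5 : x = q * y' := by linear_combination h4 - (x - q * y') * hc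
        rw [h5]
        linear_combination (-y') * hc

theorem zeroB1 (hq : q ^ 2 + q + 1 = 0) (hΨ : Fam q Ψ) (hK : KSpec q K) {N : ℕ}
    (ih : ∀ m : List ℂ, m.length + 2 = N → D Ψ K m = 0) (w : List ℂ) :
    ∀ (v : List ℂ) (x : ℂ), x ≠ 0 → v.length + w.length + 2 = N →
      D Ψ K ((q * x) :: (v ++ x :: w)) = 0 := by
  induction w with
  | nil =>
    intro v x hx h
    exact D_seam hq hΨ hK v x hx (ih _ (by simpa using h))
  | cons y w ihw =>
    intro v x hx h
    ext wd
    have hF := PD_D hΨ K (N := N) (by omega) wd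
    have key := univ_ext hF ((q * x) :: (v ++ [x])) w (by
      simp only [List.length_cons, List.length_append, List.length_nil] at h ⊢; omega)
      (q ^ 2 * x) ?_ y
    · simpa using key
    · intro y' hy'
      have h1 := ihw (v ++ [y']) x hx (by
        simp only [List.length_cons, List.length_append, List.length_nil] at h ⊢; omega)
      rw [List.append_assoc, List.singleton_append] at h1
      have h2 := swap_zero hq hΨ hK ((q * x) :: v) w y' x h1 ?_
      · rw [List.cons_append, List.append_assoc, List.singleton_append]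
        rw [List.cons_append] at h2
        rw [h2]; rfl
      · intro h3
        apply hy'
        have hc := cube hq
        have h4 : q ^ 2 * (q * x - q ^ 2 * y') = 0 := by rw [h3, mul_zero]
        have h5 : x = q * y' := by linear_combination h4 - (x - q * y') * hc
        rw [h5]
        linear_combination (-y') * hc

theorem zeroB (hq : q ^ 2 + q + 1 = 0) (hΨ : Fam q Ψ) (hK : KSpec q K) {N : ℕ}
    (ih : ∀ m : List ℂ, m.length + 2 = N → D Ψ K m = 0) (n : ℕ) :
    ∀ (u v w : List ℂ) (x : ℂ), x ≠ 0 → u.length = n → u.length + v.length + w.length + 2 = N →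
      D Ψ K (u ++ (q * x) :: (v ++ x :: w)) = 0 := by
  induction n with
  | zero =>
    intro u v w x hx hu h
    obtain rfl := List.length_eq_zero_iff.1 hu
    exact zeroB1 hq hΨ hK ih w v x hx (by simpa using h)
  | succ n ihn =>
    intro u v w x hx hu h
    obtain ⟨u', y, rfl⟩ : ∃ u' y, u = u' ++ [y] := by
      rcases List.eq_nil_or_concat u with h | ⟨u', y, h⟩
      · rw [h] at hu; simp at hu
      · exact ⟨u', y, by simpa using h⟩
    have hu' : u'.length = n := by simpa using hu
    ext wd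
    have hF := PD_D hΨ K (N := N) (by omega) wd
    have key := univ_ext hF u' ((q * x) :: (v ++ x :: w)) (by
      simp only [List.length_cons, List.length_append, List.length_nil] at h ⊢; omega)
      (q ^ 2 * x) ?_ y
    · simpa using key
    · intro y' hy'
      have h1 := ihn u' (y' :: v) w x hx hu' (by
        simp only [List.length_cons, List.length_append, List.length_nil] at h ⊢; omega)
      rw [List.cons_append] at h1
      have h2 := swap_zero hq hΨ hK u' (v ++ x :: w) (q * x) y' h1 ?_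
      · rw [h2]; rfl
      · intro h3
        apply hy'
        have hc := cube hq
        have h4 : q ^ 2 * (q * y' - q ^ 2 * (q * x)) = 0 := by rw [h3, mul_zero]
        linear_combination h4 - (y' - q ^ 2 * x) * hc

/-! ### the induction step -/

/-- forbidden values -/
noncomputable def bad (q : ℂ) (t : List ℂ) : Finset ℂ :=
  (0 :: (t ++ t.map (fun y => q * y) ++ t.map (fun y => q ^ 2 * y))).toFinset

theorem step (hq : q ^ 2 + q + 1 = 0) (hΨ : Fam q Ψ) (hK : KSpec q K) {N : ℕ} (hN : 3 ≤ N)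
    (ih : ∀ m : List ℂ, m.length + 2 = N → D Ψ K m = 0) (m : List ℂ) (hm : m.length = N) :
    D Ψ K m = 0 := by
  classical
  have hc := cube hq
  have hq0 := q_ne_zero hq
  have hq1 := q_ne_one hq
  ext wd
  have hF := PD_D hΨ K (N := N) (by omega) wd
  refine PD.generic hF (bad q) ?_ m hm
  intro l hl hb
  -- pairwise distinctness
  have hpw : l.Pairwise (fun a b => b ≠ a ∧ b ≠ q * a ∧ b ≠ q ^ 2 * a) := by
    rw [List.pairwise_iff_getElem]
    intro i j hi hj hij
    have h1 := hb j (by omega)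
    have h2 : l[i] ∈ l.take j := by
      rw [List.mem_take_iff_getElem]
      exact ⟨i, by omega, rfl⟩
    have h3 : l.getD j 0 = l[j] := by simp [hj]
    rw [h3] at h1
    simp only [bad, List.mem_toFinset, List.mem_cons, List.mem_append, List.mem_map, not_or,
      not_exists, not_and] at h1
    refine ⟨?_, ?_, ?_⟩
    · intro h4; exact h1.2.1.1 (h4 ▸ h2)
    · intro h4; exact h1.2.1.2 _ h2 h4.symm
    · intro h4; exact h1.2.2 _ h2 h4.symm
  have hnz : ∀ a ∈ l, a ≠ 0 := by
    intro a ha h0
    obtain ⟨j, hj, rfl⟩ := List.mem_iff_getElem.1 ha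
    have h1 := hb j (by omega)
    have h3 : l.getD j 0 = l[j] := by simp [hj]
    rw [h3, h0] at h1
    simp [bad] at h1
  obtain ⟨u, a, rfl⟩ : ∃ u a, l = u ++ [a] := by
    rcases List.eq_nil_or_concat l with h | ⟨u, a, h⟩
    · rw [h] at hl; simp at hl; omega
    · exact ⟨u, a, by simpa using h⟩
  have hul : u.length + 1 = N := by simpa using hl
  have hpu : u.Pairwise (fun a b => b ≠ a ∧ b ≠ q * a ∧ b ≠ q ^ 2 * a) :=
    (List.pairwise_append.1 hpw).1
  have hnu : ∀ a ∈ u, a ≠ 0 := fun a ha => hnz a (List.mem_append_left _ ha)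
  have hnd : u.Nodup := hpu.imp (fun h => h.1.symm)
  have hR : ∀ a ∈ u, ∀ b ∈ u, a ≠ q * b := by
    have h1 : u.Pairwise (fun a b => b ≠ q * a ∧ a ≠ q * b) := by
      refine hpu.imp ?_
      intro a b h
      refine ⟨h.2.1, ?_⟩
      intro h2
      apply h.2.2
      rw [h2]
      linear_combination (-b) * hc
    intro a ha b hb'
    have : Std.Symm (fun a b : ℂ => b ≠ q * a ∧ a ≠ q * b) :=
      ⟨fun x y hxy => ⟨hxy.2, hxy.1⟩⟩
    refine (List.Pairwise.forall_of_forall (R := fun a b : ℂ => b ≠ q * a ∧ a ≠ q * b)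
      ?_ h1 ha hb').2
    intro x hx
    have h3 : x ≠ q * x := by
      intro h
      have h4 : (1 - q) * x = 0 := by linear_combination h
      rcases mul_eq_zero.1 h4 with h5 | h5
      · exact hq1 (sub_eq_zero.1 h5).symm
      · exact hnu x hx h5
    exact ⟨h3, h3⟩
  set L : List ℂ := u.map (fun y => q * y) ++ u.map (fun y => q ^ 2 * y) with hL
  have hLn : L.Nodup := by
    rw [hL, List.nodup_append]
    refine ⟨?_, ?_, ?_⟩
    · exact hnd.map (mul_right_injective₀ hq0)
    · exact hnd.map (mul_right_injective₀ (pow_ne_zero 2 hq0))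
    · intro x hx y hy
      rw [List.mem_map] at hx hy
      obtain ⟨s, hs, rfl⟩ := hx
      obtain ⟨t, ht, rfl⟩ := hy
      intro h
      apply hR s hs t ht
      have h5 : q * (s - q * t) = 0 := by linear_combination h
      rcases mul_eq_zero.1 h5 with h6 | h6
      · exact absurd h6 hq0
      · exact sub_eq_zero.1 h6
  have hcard : L.toFinset.card = 2 * (N - 1) := by
    rw [List.toFinset_card_of_nodup hLn, hL]
    simp only [List.length_append, List.length_map]
    omega
  refine PD.roots hF u [] (by simpa using hul) L.toFinset (by omega) ?_ a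
  intro x hx
  rw [List.mem_toFinset, hL, List.mem_append, List.mem_map, List.mem_map] at hx
  rcases hx with ⟨b, hb', rfl⟩ | ⟨b, hb', rfl⟩
  · obtain ⟨s, t, rfl⟩ := List.append_of_mem hb'
    have h1 := zeroA hq hΨ hK ih t s [] b (by simp at hul ⊢; omega)
    have h2 : s ++ b :: t ++ [q * b] = s ++ b :: (t ++ (q * b) :: []) := by simp
    rw [h2, h1]; rfl
  · obtain ⟨s, t, rfl⟩ := List.append_of_mem hb'
    have hb0 : b ≠ 0 := hnu b hb'
    have h1 := zeroB hq hΨ hK ih _ s t [] (q ^ 2 * b)
      (mul_ne_zero (pow_ne_zero 2 hq0) hb0) rfl (by simp at hul ⊢; omega)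
    have h3 : q * (q ^ 2 * b) = b := by linear_combination b * hc
    rw [h3] at h1
    have h2 : s ++ b :: t ++ [q ^ 2 * b] = s ++ b :: (t ++ (q ^ 2 * b) :: []) := by simp
    rw [h2, h1]; rfl

/-! ### base cases -/

theorem rotr_coeff (v : VW) (w : Word) : lin rotr v (rotr w) = v w := by
  simp only [lin, Finsupp.lmapDomain_apply]
  exact Finsupp.mapDomain_apply (Function.LeftInverse.injective (g := rotl) rotl_rotr) v w

theorem ok2 {w : Word} (h : w.length = 2) (ho : Ok w) : w = [true, false] ∨ w = [false, true] := by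
  obtain ⟨x, y, rfl⟩ := List.length_eq_two.1 h
  cases x <;> cases y <;> simp [Ok] at ho ⊢

theorem ok3 {w : Word} (h : w.length = 3) (ho : Ok w) :
    w = [true, false, true] ∨ w = [true, true, false] ∨ w = [false, true, true] := by
  obtain ⟨x, y, z, rfl⟩ := List.length_eq_three.1 h
  cases x <;> cases y <;> cases z <;> simp [Ok] at ho ⊢

theorem coeff_zero {N : ℕ} {v : VW} (hv : v ∈ VN N) {w : Word} (h : ¬ (w.length = N ∧ Ok w)) :
    v w = 0 := by
  by_contra h1
  exact h ((Finsupp.mem_supported ℂ v).1 hv (Finsupp.mem_support_iff.2 h1))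

theorem exp2 {v : VW} (hv : v ∈ VN 2) :
    v = v [true, false] • bs [true, false] + v [false, true] • bs [false, true] := by
  ext w
  simp only [Finsupp.add_apply, Finsupp.smul_apply, smul_eq_mul, bs]
  by_cases h : w.length = 2 ∧ Ok w
  · rcases ok2 h.1 h.2 with rfl | rfl <;> simp
  · rw [coeff_zero hv h]
    have h1 : w ≠ [true, false] := by rintro rfl; exact h ⟨rfl, by simp [Ok]⟩
    have h2 : w ≠ [false, true] := by rintro rfl; exact h ⟨rfl, by simp [Ok]⟩
    rw [Finsupp.single_eq_of_ne h1, Finsupp.single_eq_of_ne h2]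
    simp

theorem exp3 {v : VW} (hv : v ∈ VN 3) :
    v = v [true, false, true] • bs [true, false, true] + v [true, true, false] • bs [true, true, false]
      + v [false, true, true] • bs [false, true, true] := by
  ext w
  simp only [Finsupp.add_apply, Finsupp.smul_apply, smul_eq_mul, bs]
  by_cases h : w.length = 3 ∧ Ok w
  · rcases ok3 h.1 h.2 with rfl | rfl | rfl <;> simp
  · rw [coeff_zero hv h]
    have h1 : w ≠ [true, false, true] := by rintro rfl; exact h ⟨rfl, by simp [Ok]⟩
    have h2 : w ≠ [true, true, false] := by rintro rfl; exact h ⟨rfl, by simp [Ok]⟩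
    have h3 : w ≠ [false, true, true] := by rintro rfl; exact h ⟨rfl, by simp [Ok]⟩
    rw [Finsupp.single_eq_of_ne h1, Finsupp.single_eq_of_ne h2, Finsupp.single_eq_of_ne h3]
    simp

theorem psi2 (hΨ : Fam q Ψ) (x y : ℂ) : Ψ [x, y] =
    ((q - 1)⁻¹ * (q * x - q ^ 2 * y)) • bs [true, false] +
    ((q - 1)⁻¹ * (q * y - q ^ 2 * x)) • bs [false, true] := by
  have h1 : Ψ [x, y] [false, true] = (q - 1)⁻¹ * (q * y - q ^ 2 * x) := by
    have h2 := hΨ.rot x [y]
    have h3 : ([false, true] : Word) = rotr [true, false] := rfl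
    rw [h2, h3, rotr_coeff]
    exact hΨ.two y x
  have h4 := exp2 (hΨ.mem [x, y])
  rw [h1, hΨ.two] at h4
  exact h4

theorem psi3 (hΨ : Fam q Ψ) (x y z : ℂ) : Ψ [x, y, z] =
    (-(q - 1)⁻¹ * ((q * z - q ^ 2 * y) * (q * x - q ^ 2 * y) * (q * x - q ^ 2 * z))) •
      bs [true, false, true] +
    (-(q - 1)⁻¹ * ((q * x - q ^ 2 * z) * (q * y - q ^ 2 * z) * (q * y - q ^ 2 * x))) •
      bs [true, true, false] +
    (-(q - 1)⁻¹ * ((q * y - q ^ 2 * x) * (q * z - q ^ 2 * x) * (q * z - q ^ 2 * y))) •
      bs [false, true, true] := by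
  have h0 : ∀ x y z, Ψ [x, y, z] [true, true, false] =
      (-(q - 1)⁻¹ * ((q * x - q ^ 2 * z) * (q * y - q ^ 2 * z) * (q * y - q ^ 2 * x))) := by
    intro x y z
    have h2 := hΨ.rot x [y, z]
    have h3 : ([true, true, false] : Word) = rotr [true, false, true] := rfl
    rw [h2, h3, rotr_coeff]
    exact hΨ.three y z x
  have h1 : Ψ [x, y, z] [false, true, true] =
      (-(q - 1)⁻¹ * ((q * y - q ^ 2 * x) * (q * z - q ^ 2 * x) * (q * z - q ^ 2 * y))) := by
    have h2 := hΨ.rot x [y, z]
    have h3 : ([false, true, true] : Word) = rotr [true, true, false] := rfl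
    rw [h2, h3, rotr_coeff]
    exact h0 y z x
  have h4 := exp3 (hΨ.mem [x, y, z])
  rw [h0, h1, hΨ.three] at h4
  exact h4

theorem D0 (hΨ : Fam q Ψ) (hK : KSpec q K) : D Ψ K [] = 0 := by
  simp only [D, List.prod_nil, one_smul]
  rw [hΨ.one, hΨ.nil, hK.nil, sub_self]

theorem D1 (hΨ : Fam q Ψ) (hK : KSpec q K) (a : ℂ) : D Ψ K [a] = 0 := by
  simp only [D, List.prod_singleton]
  rw [hΨ.one, psi2 hΨ, hK.one]
  module

theorem D2 (hq : q ^ 2 + q + 1 = 0) (hΨ : Fam q Ψ) (hK : KSpec q K) (a b : ℂ) :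
    D Ψ K [a, b] = 0 := by
  have hc := cube hq
  have hK1 : K (bs [true, false]) = bs [true, true, false] := by
    have h := hK.ins 0 [] (by simp [Ok]) (le_refl _)
    rw [hK.nil] at h
    have h2 : (lins 0 [] : Word) = [true, false] := rfl
    rw [h2] at h
    rw [h]
    simp only [lin, Finsupp.lmapDomain_apply, bs, Finsupp.mapDomain_single]
    rfl
  have hK2 : K (bs [false, true]) = -(q ^ 2 • bs [false, true, true] + q • bs [true, false, true]) := by
    have h := hK.seam [] (by simp [Ok])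
    rw [hK.nil] at h
    have h2 : (seam [] : Word) = [false, true] := rfl
    rw [h2] at h
    rw [h]
    simp only [lin, Finsupp.lmapDomain_apply, bs, Finsupp.mapDomain_single]
    rfl
  simp only [D, List.prod_cons, List.prod_nil, mul_one]
  rw [psi3 hΨ, psi2 hΨ, map_add, map_smul, map_smul, hK1, hK2]
  match_scalars
  · linear_combination (-(q - 1)⁻¹ * a * b * q * (q * b - q ^ 2 * a)) * hc
  · linear_combination ((q - 1)⁻¹ * a * b * (q * a - q ^ 2 * b)) * hc
  · ring

theorem main (hq : q ^ 2 + q + 1 = 0) (hΨ : Fam q Ψ) (hK : KSpec q K) (n : ℕ) :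
    ∀ m : List ℂ, m.length = n → D Ψ K m = 0 := by
  induction n using Nat.strong_induction_on with
  | _ n ih =>
    intro m hm
    by_cases h3 : 3 ≤ n
    · exact step hq hΨ hK h3 (fun m' hm' => ih m'.length (by omega) m' rfl) m hm
    · match m, hm with
      | [], _ => exact D0 hΨ hK
      | [a], _ => exact D1 hΨ hK a
      | [a, b], _ => exact D2 hq hΨ hK a b
      | _ :: _ :: _ :: _, h => exfalso; simp at h; omega

end BLAux

/-- the braid limit of the polynomial ground states -/
theorem braid_limit {q : ℂ} (hq : q ^ 2 + q + 1 = 0) {Ψ : List ℂ → VW} (hΨ : Fam q Ψ)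
    {K : VW →ₗ[ℂ] VW} (hK : KSpec q K) (m : List ℂ) : Ψ (0 :: m) = m.prod • K (Ψ m) :=
  sub_eq_zero.1 (BLAux.main hq hΨ hK m.length m rfl)

end Pool.Agent.H863R2.Cyl
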