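import Pool.Agent.H863R2.Cyl.Defs
import Pool.Agent.H863R2.Cyl.Lst
import Pool.Agent.H863R2.Cyl.Lst2

/-!
Module K2: relations of the braid operator `K`.
-/

namespace Pool.Agent.H863R2.Cyl
open Pool.Agent.H988R2.Perc (Word flipR flipL rem firstArc PD)

namespace KRelAux

theorem lin_bs (f : Word → Word) (w : Word) : lin f (bs w) = bs (f w) := by
  unfold lin bs
  rw [Finsupp.lmapDomain_apply, Finsupp.mapDomain_single]

theorem lin_lin (f g : Word → Word) (v : VW) : lin f (lin g v) = lin (fun w => f (g w)) v := by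
  unfold lin
  rw [Finsupp.lmapDomain_apply, Finsupp.lmapDomain_apply, Finsupp.lmapDomain_apply,
    ← Finsupp.mapDomain_comp]
  rfl

theorem VN_eq_span (N : ℕ) :
    VN N = Submodule.span ℂ (bs '' {w : Word | w.length = N ∧ Ok w}) :=
  Finsupp.supported_eq_span_single ℂ _

theorem bs_mem {N : ℕ} {w : Word} (h1 : w.length = N) (h2 : Ok w) : bs w ∈ VN N := by
  rw [VN_eq_span]
  exact Submodule.subset_span ⟨w, ⟨h1, h2⟩, rfl⟩

/-- linear maps that agree on the words agree on `VN N` -/
theorem ext_VN {W : Type*} [AddCommMonoid W] [Module ℂ W] {A B : VW →ₗ[ℂ] W} {N : ℕ}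
    (h : ∀ w : Word, w.length = N → Ok w → A (bs w) = B (bs w)) {v : VW} (hv : v ∈ VN N) :
    A v = B v := by
  rw [VN_eq_span] at hv
  refine LinearMap.eqOn_span ?_ hv
  rintro _ ⟨w, ⟨h1, h2⟩, rfl⟩
  exact h w h1 h2

theorem map_mem {A : VW →ₗ[ℂ] VW} {N : ℕ} {S : Submodule ℂ VW}
    (h : ∀ w : Word, w.length = N → Ok w → A (bs w) ∈ S) {v : VW} (hv : v ∈ VN N) :
    A v ∈ S := by
  rw [VN_eq_span] at hv
  have h1 : Submodule.span ℂ (bs '' {w : Word | w.length = N ∧ Ok w}) ≤ S.comap A := by
    rw [Submodule.span_le]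
    rintro _ ⟨w, ⟨h1, h2⟩, rfl⟩
    exact h w h1 h2
  exact h1 hv

theorem lin_mem {f : Word → Word} {N M : ℕ}
    (h : ∀ w : Word, w.length = N → Ok w → (f w).length = M ∧ Ok (f w)) {v : VW}
    (hv : v ∈ VN N) : lin f v ∈ VN M := by
  refine map_mem (fun w h1 h2 => ?_) hv
  rw [lin_bs]
  exact bs_mem (h w h1 h2).1 (h w h1 h2).2

theorem lin_congr {f g : Word → Word} {N : ℕ}
    (h : ∀ w : Word, w.length = N → Ok w → f w = g w) {v : VW} (hv : v ∈ VN N) :
    lin f v = lin g v := by
  refine ext_VN (fun w h1 h2 => ?_) hv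
  rw [lin_bs, lin_bs, h w h1 h2]

theorem length_lins (i : ℕ) (w : Word) : (lins i w).length = w.length + 2 :=
  Pool.Agent.H988R2.Perc.length_ins i w

theorem length_seam (w : Word) : (seam w).length = w.length + 2 := by
  simp [seam]

theorem lins_mem {N i : ℕ} {v : VW} (hv : v ∈ VN N) : lin (lins i) v ∈ VN (N + 2) :=
  lin_mem (fun w h1 h2 => ⟨by rw [length_lins, h1], ok_lins.2 h2⟩) hv

theorem seam_mem {N : ℕ} {v : VW} (hv : v ∈ VN N) : lin seam v ∈ VN (N + 2) :=
  lin_mem (fun w h1 h2 => ⟨by rw [length_seam, h1], ok_seam.2 h2⟩) hv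

theorem act_mem {N i : ℕ} {v : VW} (hv : v ∈ VN N) : lin (act i) v ∈ VN N :=
  lin_mem (fun w h1 h2 => ⟨by rw [length_act, h1], ok_act i h2⟩) hv

theorem cap_mem {N i : ℕ} (hi : i ≤ N) {v : VW} (hv : v ∈ VN (N + 2)) : lin (cap i) v ∈ VN N :=
  lin_mem (fun w h1 h2 => by
    have h3 := length_cap (i := i) (w := w) (by omega)
    exact ⟨by omega, ok_cap h2 (by omega)⟩) hv

theorem eq_nil {w : Word} (h : w.length = 0) : w = [] := List.length_eq_zero_iff.1 h

theorem eq_one {w : Word} (h : w.length = 1) (hw : Ok w) : w = [true] := by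
  obtain ⟨x, rfl⟩ := List.length_eq_one_iff.1 h
  cases x
  · simp [Ok] at hw
  · rfl

end KRelAux

open KRelAux

/-- `K` maps words of length `N` to vectors of length `N + 1` -/
theorem KRelAux.K_bs_mem {q : ℂ} {K : VW →ₗ[ℂ] VW} (hK : KSpec q K) :
    ∀ (N : ℕ) (w : Word), w.length = N → Ok w → K (bs w) ∈ VN (N + 1) := by
  intro N
  induction N using Nat.strong_induction_on with
  | _ N ih =>
    intro w hw hok
    rcases Nat.lt_or_ge N 2 with hN | hN
    · interval_cases N
      · rw [eq_nil hw, hK.nil]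
        exact bs_mem rfl (by simp [Ok])
      · rw [eq_one hw hok, hK.one]
        exact Submodule.smul_mem _ _ (Submodule.sub_mem _
          (Submodule.smul_mem _ _ (bs_mem rfl (by simp [Ok])))
          (Submodule.smul_mem _ _ (bs_mem rfl (by simp [Ok]))))
    · rcases exists_arc hok (by omega) with ⟨i, u, hi, hu, rfl, _, _⟩ | ⟨u, hu, rfl, _⟩
      · rw [hK.ins i u hu hi]
        have hl := length_lins i u
        have h1 := lins_mem (i := i + 1) (ih u.length (by omega) u rfl hu)
        have h2 : u.length + 1 + 2 = N + 1 := by omega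
        rwa [h2] at h1
      · rw [hK.seam u hu]
        have hl := length_seam u
        have h1 := seam_mem (ih u.length (by omega) u rfl hu)
        have h2 : u.length + 1 + 2 = N + 1 := by omega
        rw [h2] at h1
        exact Submodule.neg_mem _ (Submodule.add_mem _ (Submodule.smul_mem _ _ h1)
          (Submodule.smul_mem _ _ (act_mem h1)))

theorem K_mem {q : ℂ} {K : VW →ₗ[ℂ] VW} (hK : KSpec q K) {N : ℕ} {v : VW} (hv : v ∈ VN N) :
    K v ∈ VN (N + 1) :=
  map_mem (fun w h1 h2 => KRelAux.K_bs_mem hK N w h1 h2) hv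

theorem K_lins {q : ℂ} {K : VW →ₗ[ℂ] VW} (hK : KSpec q K) {N i : ℕ}
    (hi : i ≤ N) {v : VW} (hv : v ∈ VN N) : K (lin (lins i) v) = lin (lins (i + 1)) (K v) := by
  have h := ext_VN (A := K ∘ₗ lin (lins i)) (B := lin (lins (i + 1)) ∘ₗ K) (N := N)
    (fun w h1 h2 => by
      rw [LinearMap.comp_apply, LinearMap.comp_apply, lin_bs]
      exact hK.ins i w h2 (by omega)) hv
  exact h

theorem K_seam {q : ℂ} {K : VW →ₗ[ℂ] VW} (hK : KSpec q K) {N : ℕ} {v : VW} (hv : v ∈ VN N) :
    K (lin seam v) = -(q ^ 2 • lin seam (K v) + q • lin (act 0) (lin seam (K v))) := by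
  have h := ext_VN (A := K ∘ₗ lin seam)
    (B := -(q ^ 2 • (lin seam ∘ₗ K) + q • (lin (act 0) ∘ₗ lin seam ∘ₗ K))) (N := N)
    (fun w h1 h2 => by
      simp only [LinearMap.comp_apply, lin_bs, LinearMap.neg_apply, LinearMap.add_apply,
        LinearMap.smul_apply]
      exact hK.seam w h2) hv
  exact h

namespace KRelAux

/-! ### identities of words -/

theorem capS_act0 {i : ℕ} {y : Word} (hi : 1 ≤ i) (h : i + 3 ≤ y.length) :
    cap (i + 1) (act 0 y) = act 0 (cap (i + 1) y) := by
  have h1 := length_cap (i := 0) (w := y) (by omega)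
  have h2 := length_cap (i := i + 1) (w := y) (by omega)
  rw [act_eq (by omega), act_eq (by omega), cap_lins_left (by omega) (by omega)]
  congr 1
  have h3 := cap_cap (i := 0) (j := i - 1) (w := y) (by omega) (by omega)
  rw [show i - 1 + 2 = i + 1 by omega] at h3
  rw [show i + 1 - 2 = i - 1 by omega]
  exact h3.symm

theorem capS_act1 {i : ℕ} {y : Word} (hi : 2 ≤ i) (h : i + 3 ≤ y.length) :
    cap (i + 1) (act 1 y) = act 1 (cap (i + 1) y) := by
  have h1 := length_cap (i := 1) (w := y) (by omega)
  have h2 := length_cap (i := i + 1) (w := y) (by omega)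
  rw [act_eq (by omega), act_eq (by omega), cap_lins_left (by omega) (by omega)]
  congr 1
  have h3 := cap_cap (i := 1) (j := i - 1) (w := y) (by omega) (by omega)
  rw [show i - 1 + 2 = i + 1 by omega] at h3
  rw [show i + 1 - 2 = i - 1 by omega]
  exact h3.symm

theorem seam_act0 {y : Word} (h : 2 ≤ y.length) : seam (act 0 y) = act 1 (seam y) := by
  have h1 := length_cap (i := 0) (w := y) (by omega)
  have h2 := length_seam y
  rw [act_eq (by omega), act_eq (by omega), ← lins_seam (by omega), cap_seam (by omega)]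

theorem cap1_act1 {y : Word} (h : 3 ≤ y.length) : cap 1 (act 1 y) = cap 1 y := by
  have h1 := length_cap (i := 1) (w := y) (by omega)
  rw [act_eq (by omega), cap_lins_self (by omega)]

theorem cap1_act0 {y : Word} (h : 3 ≤ y.length) : cap 1 (act 0 y) = cap 0 y := by
  have h1 := length_cap (i := 0) (w := y) (by omega)
  rw [act_eq (by omega)]
  exact cap_succ_lins (i := 0) (by omega)

theorem cap0_act1 {y : Word} (h : 3 ≤ y.length) : cap 0 (act 1 y) = cap 1 y := by
  have h1 := length_cap (i := 1) (w := y) (by omega)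
  rw [act_eq (by omega)]
  exact cap_lins_succ (i := 0) (by omega)

theorem rotl_seam (x : Word) : rotl (seam x) = lins x.length x := by
  rw [← rotr_lins_last, rotl_rotr]

theorem lin_neg (f : Word → Word) (v : VW) : lin f (-v) = -lin f v := map_neg _ _

theorem lin_comm {f g f' g' : Word → Word} {N : ℕ}
    (h : ∀ w : Word, w.length = N → f (g w) = f' (g' w)) {v : VW} (hv : v ∈ VN N) :
    lin f (lin g v) = lin f' (lin g' v) := by
  rw [lin_lin f g, lin_lin f' g']
  exact lin_congr (fun w hw _ => h w hw) hv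

/-- case (a): words with a small linear arc -/
theorem cap_case_a {q : ℂ} {K : VW →ₗ[ℂ] VW} (hK : KSpec q K) (i j : ℕ) (u : Word)
    (hu : Ok u) (hj : j ≤ u.length) (hi : i ≤ u.length)
    (ih : ∀ k, k + 2 ≤ u.length → lin (cap (k + 1)) (K (bs u)) = K (bs (cap k u))) :
    lin (cap (i + 1)) (K (bs (lins j u))) = K (bs (cap i (lins j u))) := by
  have hx : K (bs u) ∈ VN (u.length + 1) := K_bs_mem hK _ u rfl hu
  rw [hK.ins j u hu hj, lin_lin]
  rcases Nat.lt_trichotomy i j with hlt | rfl | hgt
  · rcases Nat.lt_or_ge (i + 1) j with h1 | h1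
    · -- j ≥ i + 2
      have e1 : lin (fun w => cap (i + 1) (lins (j + 1) w)) (K (bs u)) =
          lin (fun w => lins (j - 1) (cap (i + 1) w)) (K (bs u)) := by
        refine lin_congr (fun w hw _ => ?_) hx
        rw [cap_lins_right (by omega) (by omega)]
        congr 1
      rw [e1, ← lin_lin, ih i (by omega), cap_lins_right (by omega) (by omega)]
      have h2 := length_cap (i := i) (w := u) (by omega)
      rw [hK.ins (j - 2) (cap i u) (ok_cap hu (by omega)) (by omega)]
      rw [show j - 2 + 1 = j - 1 by omega]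
    · -- j = i + 1
      have h2 : j = i + 1 := by omega
      subst h2
      have e1 : lin (fun w => cap (i + 1) (lins (i + 1 + 1) w)) (K (bs u)) =
          lin (fun w => w) (K (bs u)) :=
        lin_congr (fun w hw _ => cap_lins_succ (by omega)) hx
      rw [e1, cap_lins_succ hj]
      exact congrFun (congrArg DFunLike.coe (Finsupp.lmapDomain_id ℂ ℂ)) _
  · have e1 : lin (fun w => cap (i + 1) (lins (i + 1) w)) (K (bs u)) =
          lin (fun w => w) (K (bs u)) :=
        lin_congr (fun w hw _ => cap_lins_self (by omega)) hx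
    rw [e1, cap_lins_self hj]
    exact congrFun (congrArg DFunLike.coe (Finsupp.lmapDomain_id ℂ ℂ)) _
  · rcases Nat.lt_or_ge (j + 1) i with h1 | h1
    · -- i ≥ j + 2
      obtain ⟨k, rfl⟩ : ∃ k, i = k + 2 := ⟨i - 2, by omega⟩
      have e1 : lin (fun w => cap (k + 2 + 1) (lins (j + 1) w)) (K (bs u)) =
          lin (fun w => lins (j + 1) (cap (k + 1) w)) (K (bs u)) := by
        refine lin_congr (fun w hw _ => ?_) hx
        rw [cap_lins_left (by omega) (by omega)]
        congr 1
      rw [e1, ← lin_lin, ih k (by omega), cap_lins_left (by omega) (by omega)]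
      have h2 := length_cap (i := k) (w := u) (by omega)
      rw [show k + 2 - 2 = k by omega]
      rw [hK.ins j (cap k u) (ok_cap hu (by omega)) (by omega)]
    · -- i = j + 1
      have h2 : i = j + 1 := by omega
      subst h2
      have e1 : lin (fun w => cap (j + 1 + 1) (lins (j + 1) w)) (K (bs u)) =
          lin (fun w => w) (K (bs u)) :=
        lin_congr (fun w hw _ => cap_succ_lins (by omega)) hx
      rw [e1, cap_succ_lins hi]
      exact congrFun (congrArg DFunLike.coe (Finsupp.lmapDomain_id ℂ ℂ)) _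

/-- case (b1): the middle of a word with a seam arc -/
theorem cap_case_b1 {q : ℂ} {K : VW →ₗ[ℂ] VW} (hK : KSpec q K) (k : ℕ) (u : Word)
    (hu : Ok u) (hk : k + 2 ≤ u.length)
    (ih : lin (cap (k + 1)) (K (bs u)) = K (bs (cap k u))) :
    lin (cap (k + 2)) (K (bs (seam u))) = K (bs (cap (k + 1) (seam u))) := by
  have hx : K (bs u) ∈ VN (u.length + 1) := K_bs_mem hK _ u rfl hu
  have hy := seam_mem hx
  rw [hK.seam u hu, map_neg, map_add, map_smul, map_smul]
  have e1 : lin (cap (k + 2)) (lin (act 0) (lin seam (K (bs u)))) =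
      lin (act 0) (lin (cap (k + 2)) (lin seam (K (bs u)))) :=
    lin_comm (fun w hw => capS_act0 (i := k + 1) (y := w) (by omega) (by omega)) hy
  have e2 : lin (cap (k + 2)) (lin seam (K (bs u))) = lin seam (lin (cap (k + 1)) (K (bs u))) :=
    lin_comm (fun w hw => cap_seam (i := k + 1) (w := w) (by omega)) hx
  rw [e1, e2, ih, cap_seam (by omega), hK.seam _ (ok_cap hu (by omega))]

theorem K_two {q : ℂ} {K : VW →ₗ[ℂ] VW} (hK : KSpec q K) (u : Word) (hu : Ok u) :
    K (bs (seam (seam u))) = (q ^ 2 * q ^ 2) • lin seam (lin seam (K (bs u))) +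
      (q ^ 2 * q) • lin (act 1) (lin seam (lin seam (K (bs u)))) +
      (q * q ^ 2) • lin (act 0) (lin seam (lin seam (K (bs u)))) +
      (q * q) • lin (act 0) (lin (act 1) (lin seam (lin seam (K (bs u))))) := by
  have hx : K (bs u) ∈ VN (u.length + 1) := K_bs_mem hK _ u rfl hu
  have hy := seam_mem hx
  rw [hK.seam (seam u) (ok_seam.2 hu), hK.seam u hu]
  have e1 : lin seam (lin (act 0) (lin seam (K (bs u)))) =
      lin (act 1) (lin seam (lin seam (K (bs u)))) :=
    lin_comm (fun w hw => seam_act0 (y := w) (by omega)) hy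
  simp only [map_neg, map_add, map_smul, e1, smul_neg, smul_add, smul_smul]
  abel

/-- case (b2) -/
theorem cap_case_b2 {q : ℂ} (hq : q ^ 2 + q + 1 = 0) {K : VW →ₗ[ℂ] VW} (hK : KSpec q K)
    (u : Word) (hu : Ok u) :
    lin (cap 1) (K (bs (seam (seam u)))) = K (bs (cap 0 (seam (seam u)))) := by
  have hx : K (bs u) ∈ VN (u.length + 1) := K_bs_mem hK _ u rfl hu
  have hy := seam_mem hx
  have hS := seam_mem hy
  have hls := length_seam u
  rw [K_two hK u hu]
  simp only [map_add, map_smul]
  set S := lin seam (lin seam (K (bs u))) with hSdef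
  have e1 : lin (cap 1) (lin (act 1) S) = lin (cap 1) S := by
    rw [lin_lin]
    exact lin_congr (fun w hw _ => cap1_act1 (y := w) (by omega)) hS
  have e2 : lin (cap 1) (lin (act 0) S) = lin (cap 0) S := by
    rw [lin_lin]
    exact lin_congr (fun w hw _ => cap1_act0 (y := w) (by omega)) hS
  have e3 : lin (cap 1) (lin (act 0) (lin (act 1) S)) = lin (cap 1) S := by
    rw [lin_lin, lin_lin]
    refine lin_congr (fun w hw _ => ?_) hS
    have := length_act 1 w
    rw [cap1_act0 (by omega), cap0_act1 (by omega)]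
  have e4 : lin (cap 0) S = lin (lins (u.length + 1)) (K (bs u)) := by
    rw [hSdef, lin_lin, lin_lin]
    refine lin_congr (fun w hw _ => ?_) hx
    have := length_seam w
    rw [cap_zero_seam (by omega), rotl_seam, hw]
  rw [e1, e2, e3, e4]
  have hq3 : q * q ^ 2 = 1 := by linear_combination (q - 1) * hq
  have hq4 : q ^ 2 * q ^ 2 + q ^ 2 * q + q * q = 0 := by linear_combination q ^ 2 * hq
  have e5 : (q ^ 2 * q ^ 2) • lin (cap 1) S + (q ^ 2 * q) • lin (cap 1) S +
      (q * q ^ 2) • lin (lins (u.length + 1)) (K (bs u)) + (q * q) • lin (cap 1) S =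
      lin (lins (u.length + 1)) (K (bs u)) := by
    rw [hq3, one_smul]
    have : (q ^ 2 * q ^ 2) • lin (cap 1) S + (q ^ 2 * q) • lin (cap 1) S + (q * q) • lin (cap 1) S
        = (0 : VW) := by
      rw [← add_smul, ← add_smul, hq4, zero_smul]
    rw [add_assoc, add_comm (lin (lins (u.length + 1)) (K (bs u))), ← add_assoc, this, zero_add]
  rw [e5, cap_zero_seam (by omega), rotl_seam, hK.ins _ u hu le_rfl]

/-- case (b3) -/
theorem cap_case_b3 {q : ℂ} (hq : q ^ 2 + q + 1 = 0) {K : VW →ₗ[ℂ] VW} (hK : KSpec q K)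
    (u : Word) (hu : Ok u) :
    lin (cap (u.length + 3)) (K (bs (seam (seam u)))) =
      K (bs (cap (u.length + 2) (seam (seam u)))) := by
  have hx : K (bs u) ∈ VN (u.length + 1) := K_bs_mem hK _ u rfl hu
  have hy := seam_mem hx
  have hS := seam_mem hy
  have hls := length_seam u
  rw [K_two hK u hu]
  simp only [map_add, map_smul]
  set S := lin seam (lin seam (K (bs u))) with hSdef
  have hS1 := act_mem (i := 1) hS
  have e1' : ∀ v ∈ VN (u.length + 1 + 2 + 2),
      lin (cap (u.length + 3)) (lin (act 1) v) = lin (act 1) (lin (cap (u.length + 3)) v) := by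
    intro v hv
    exact lin_comm (fun w hw => capS_act1 (i := u.length + 2) (y := w) (by omega) (by omega)) hv
  have e2' : ∀ v ∈ VN (u.length + 1 + 2 + 2),
      lin (cap (u.length + 3)) (lin (act 0) v) = lin (act 0) (lin (cap (u.length + 3)) v) := by
    intro v hv
    exact lin_comm (fun w hw => capS_act0 (i := u.length + 2) (y := w) (by omega) (by omega)) hv
  have e1 := e1' S hS
  have e2 := e2' S hS
  have e3 : lin (cap (u.length + 3)) (lin (act 0) (lin (act 1) S)) =
      lin (act 0) (lin (act 1) (lin (cap (u.length + 3)) S)) := by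
    rw [e2' _ hS1, e1]
  have e4 : lin (cap (u.length + 3)) S = lin (lins 0) (K (bs u)) := by
    rw [hSdef, lin_lin, lin_lin]
    refine lin_congr (fun w hw _ => ?_) hx
    have h1 := length_seam w
    have h2 : u.length + 3 = (seam w).length := by omega
    have h3 := cap_last_seam (w := seam w) (by omega)
    rw [← h2] at h3
    exact h3.trans (rotr_seam w)
  have e5 : lin (act 1) (lin (lins 0) (K (bs u))) = lin (lins 1) (K (bs u)) := by
    rw [lin_lin]
    refine lin_congr (fun w hw _ => ?_) hx
    have h1 := length_lins 0 w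
    have h2 : cap 1 (lins 0 w) = w := cap_succ_lins (i := 0) (w := w) (by omega)
    rw [act_eq (by omega), h2]
  have e6 : lin (act 0) (lin (lins 0) (K (bs u))) = lin (lins 0) (K (bs u)) := by
    rw [lin_lin]
    refine lin_congr (fun w hw _ => ?_) hx
    have h1 := length_lins 0 w
    have h2 : cap 0 (lins 0 w) = w := cap_lins_self (i := 0) (w := w) (by omega)
    rw [act_eq (by omega), h2]
  have e7 : lin (act 0) (lin (lins 1) (K (bs u))) = lin (lins 0) (K (bs u)) := by
    rw [lin_lin]
    refine lin_congr (fun w hw _ => ?_) hx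
    have h1 := length_lins 1 w
    have h2 : cap 0 (lins 1 w) = w := cap_lins_succ (i := 0) (w := w) (by omega)
    rw [act_eq (by omega), h2]
  rw [e1, e2, e3, e4, e5, e6, e7]
  have hq3 : q ^ 2 * q = 1 := by linear_combination (q - 1) * hq
  have hq4 : q ^ 2 * q ^ 2 + q * q ^ 2 + q * q = 0 := by linear_combination q ^ 2 * hq
  have e8 : (q ^ 2 * q ^ 2) • lin (lins 0) (K (bs u)) + (q ^ 2 * q) • lin (lins 1) (K (bs u)) +
      (q * q ^ 2) • lin (lins 0) (K (bs u)) + (q * q) • lin (lins 0) (K (bs u)) =
      lin (lins 1) (K (bs u)) := by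
    rw [hq3, one_smul]
    have : (q ^ 2 * q ^ 2) • lin (lins 0) (K (bs u)) + (q * q ^ 2) • lin (lins 0) (K (bs u)) +
        (q * q) • lin (lins 0) (K (bs u)) = (0 : VW) := by
      rw [← add_smul, ← add_smul, hq4, zero_smul]
    rw [add_comm ((q ^ 2 * q ^ 2) • lin (lins 0) (K (bs u))), add_assoc, add_assoc, ← add_assoc
      ((q ^ 2 * q ^ 2) • lin (lins 0) (K (bs u))), this, add_zero]
  have h9 : cap (u.length + 2) (seam (seam u)) = lins 0 u := by
    have h10 := cap_last_seam (w := seam u) (by omega)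
    rw [hls] at h10
    exact h10.trans (rotr_seam u)
  rw [e8, h9, hK.ins 0 u hu (Nat.zero_le _)]

/-- length 2 -/
theorem cap_len2 {q : ℂ} (hq : q ^ 2 + q + 1 = 0) {K : VW →ₗ[ℂ] VW} (hK : KSpec q K) :
    lin (cap 1) (K (bs (seam []))) = K (bs (cap 0 (seam []))) := by
  have h0 : cap 0 (seam []) = [] := by rfl
  have h1 : cap 1 (seam [true]) = [true] := by
    have := cap_last_seam (w := [true]) (by simp)
    exact this.trans rfl
  have h2 : cap 1 (act 0 (seam [true])) = [true] := by
    rw [cap1_act0 (by simp [seam]), cap_zero_seam (by simp)]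
    rfl
  rw [hK.seam [] (by simp [Ok]), hK.nil, h0, hK.nil]
  simp only [lin_bs, map_neg, map_add, map_smul, h1, h2]
  rw [← add_smul, ← neg_smul]
  have : -(q ^ 2 + q) = 1 := by linear_combination -hq
  rw [this, one_smul]

/-- length 3 -/
theorem cap_len3 {q : ℂ} (hq : q ^ 2 + q + 1 = 0) {K : VW →ₗ[ℂ] VW} (hK : KSpec q K) (i : ℕ)
    (hi : i ≤ 1) :
    lin (cap (i + 1)) (K (bs (seam [true]))) = K (bs (cap i (seam [true]))) := by
  have hq3 : q ^ 3 = 1 := by linear_combination (q - 1) * hq
  have hcap : ∀ z : Word, z.length = 2 → cap 0 z = [] := by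
    intro z hz
    have := length_cap (i := 0) (w := z) (by omega)
    exact eq_nil (by omega)
  have hok3 : Ok (seam [true]) := ok_seam.2 (by simp [Ok])
  have hR : cap i (seam [true]) = [true] := by
    have h1 := length_cap (i := i) (w := seam [true]) (by simp [seam]; omega)
    have h2 : (seam [true]).length = 3 := rfl
    exact eq_one (by omega) (ok_cap hok3 (by omega))
  rw [hK.seam [true] (by simp [Ok]), hR, hK.one]
  simp only [map_smul, map_sub, lin_bs, map_neg, map_add]
  interval_cases i
  · have a1 : cap (0 + 1) (seam [false, true]) = [false, true] := by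
      rw [cap_seam (by simp), hcap _ (by simp)]; rfl
    have a2 : cap (0 + 1) (seam [true, false]) = [false, true] := by
      rw [cap_seam (by simp), hcap _ (by simp)]; rfl
    have a3 : cap (0 + 1) (act 0 (seam [false, true])) = [true, false] := by
      rw [zero_add, cap1_act0 (by simp [seam]), cap_zero_seam (by simp)]; rfl
    have a4 : cap (0 + 1) (act 0 (seam [true, false])) = [false, true] := by
      rw [zero_add, cap1_act0 (by simp [seam]), cap_zero_seam (by simp)]; rfl
    rw [a1, a2, a3, a4]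
    ext w
    simp only [Finsupp.coe_neg, Finsupp.coe_add, Finsupp.coe_smul, Finsupp.coe_sub, Pi.neg_apply,
      Pi.add_apply, Pi.smul_apply, Pi.sub_apply, smul_eq_mul]
    linear_combination (q - 1)⁻¹ * (bs [false, true] w) * q * hq3
  · have a1 : cap (1 + 1) (seam [false, true]) = [true, false] := by
      have := cap_last_seam (w := [false, true]) (by simp)
      exact this.trans rfl
    have a2 : cap (1 + 1) (seam [true, false]) = [false, true] := by
      have := cap_last_seam (w := [true, false]) (by simp)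
      exact this.trans rfl
    have a34 : ∀ z : Word, z.length = 2 → cap (1 + 1) (act 0 (seam z)) = [true, false] := by
      intro z hz
      have h1 := length_seam z
      have h2 := length_cap (i := 0) (w := seam z) (by omega)
      rw [act_eq (by omega), cap_lins_left (by omega) (by omega)]
      rw [show 1 + 1 - 2 = 0 by omega, hcap _ (by omega)]
      rfl
    rw [a1, a2, a34 _ (by simp), a34 _ (by simp)]
    ext w
    simp only [Finsupp.coe_neg, Finsupp.coe_add, Finsupp.coe_smul, Finsupp.coe_sub, Pi.neg_apply,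
      Pi.add_apply, Pi.smul_apply, Pi.sub_apply, smul_eq_mul]
    linear_combination (q - 1)⁻¹ * (bs [false, true] w) * q * hq3

theorem K_cap_bs {q : ℂ} (hq : q ^ 2 + q + 1 = 0) {K : VW →ₗ[ℂ] VW} (hK : KSpec q K) :
    ∀ (N : ℕ) (w : Word), w.length = N → Ok w → ∀ i, i + 2 ≤ N →
      lin (cap (i + 1)) (K (bs w)) = K (bs (cap i w)) := by
  intro N
  induction N using Nat.strong_induction_on with
  | _ N ih =>
    intro w hw hok i hi
    have caseA : ∀ (j : ℕ) (u : Word), Ok u → j ≤ u.length → w = lins j u →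
        lin (cap (i + 1)) (K (bs w)) = K (bs (cap i w)) := by
      intro j u hu hj he
      have hl := length_lins j u
      rw [← he] at hl
      rw [he]
      exact cap_case_a hK i j u hu hj (by omega) (fun k hk =>
        ih u.length (by omega) u rfl hu k hk)
    rcases exists_arc hok (by omega) with ⟨j, u, hj, hu, he, _, _⟩ | ⟨u, hu, he, _⟩
    · exact caseA j u hu hj he
    · have hl := length_seam u
      rw [← he] at hl
      rcases Nat.lt_or_ge u.length 2 with h2 | h2
      · -- small lengths
        have h3 : u.length = 0 ∨ u.length = 1 := by omega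
        rcases h3 with h3 | h3
        · have hu0 := eq_nil h3
          subst hu0
          have hi0 : i = 0 := by omega
          subst hi0
          rw [he]
          exact cap_len2 hq hK
        · have hu1 := eq_one h3 hu
          subst hu1
          rw [he]
          exact cap_len3 hq hK i (by omega)
      · rcases exists_arc hu h2 with ⟨j, u2, hj, hu2, he2, _, _⟩ | ⟨u2, hu2, he2, _⟩
        · refine caseA (j + 1) (seam u2) (ok_seam.2 hu2) ?_ ?_
          · rw [length_seam]; omega
          · rw [he, he2, lins_seam hj]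
        · have hl2 := length_seam u2
          rw [← he2] at hl2
          rcases Nat.eq_zero_or_pos i with h0 | h0
          · subst h0
            rw [he, he2]
            exact cap_case_b2 hq hK u2 hu2
          · obtain ⟨k, rfl⟩ : ∃ k, i = k + 1 := ⟨i - 1, by omega⟩
            rcases Nat.lt_or_ge (k + 1 + 2) N with h4 | h4
            · rw [he]
              exact cap_case_b1 hK k u hu (by omega) (ih u.length (by omega) u rfl hu k (by omega))
            · have h5 : k + 1 = u2.length + 2 := by omega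
              rw [h5, he, he2]
              exact cap_case_b3 hq hK u2 hu2

end KRelAux

theorem K_cap {q : ℂ} (hq : q ^ 2 + q + 1 = 0) {K : VW →ₗ[ℂ] VW} (hK : KSpec q K) {N i : ℕ}
    (hi : i + 2 ≤ N) {v : VW} (hv : v ∈ VN N) : lin (cap (i + 1)) (K v) = K (lin (cap i) v) := by
  have h := ext_VN (A := lin (cap (i + 1)) ∘ₗ K) (B := K ∘ₗ lin (cap i)) (N := N)
    (fun w h1 h2 => by
      rw [LinearMap.comp_apply, LinearMap.comp_apply, lin_bs]
      exact KRelAux.K_cap_bs hq hK N w h1 h2 i hi) hv
  exact h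

theorem K_act {q : ℂ} (hq : q ^ 2 + q + 1 = 0) {K : VW →ₗ[ℂ] VW} (hK : KSpec q K) {N i : ℕ}
    (hi : i + 2 ≤ N) {v : VW} (hv : v ∈ VN N) : lin (act (i + 1)) (K v) = K (lin (act i) v) := by
  have e1 : lin (act (i + 1)) (K v) = lin (lins (i + 1)) (lin (cap (i + 1)) (K v)) := by
    rw [lin_lin]
    exact lin_congr (fun w hw _ => act_eq (by omega)) (K_mem hK hv)
  have e2 : lin (act i) v = lin (lins i) (lin (cap i) v) := by
    rw [lin_lin]
    exact lin_congr (fun w hw _ => act_eq (by omega)) hv
  obtain ⟨M, rfl⟩ : ∃ M, N = M + 2 := ⟨N - 2, by omega⟩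
  rw [e1, e2, K_cap hq hK hi hv, K_lins hK (N := M) (by omega) (cap_mem (by omega) hv)]

end Pool.Agent.H863R2.Cyl
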