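import Pool.Agent.H863R2.Cyl.Lst

/-! Module P: bilinear extension of the loop counting pairing -/

namespace Pool.Agent.H863R2.Cyl
open Pool.Agent.H988R2.Perc (Word flipR flipL rem firstArc PD)

namespace PairAux

theorem VN_span (N : ℕ) :
    VN N = Submodule.span ℂ ((fun w : Word => bs w) '' {w : Word | w.length = N ∧ Ok w}) :=
  Finsupp.supported_eq_span_single ℂ _

theorem lin_bs (f : Word → Word) (w : Word) : lin f (bs w) = bs (f w) := by
  unfold lin bs
  rw [Finsupp.lmapDomain_apply, Finsupp.mapDomain_single]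

/-- induction on vectors supported on admissible words -/
theorem VN_induction {N : ℕ} {p : VW → Prop} (h0 : p 0) (hadd : ∀ v v', p v → p v' → p (v + v'))
    (hsmul : ∀ (c : ℂ) v, p v → p (c • v))
    (hbs : ∀ w : Word, w.length = N → Ok w → p (bs w)) {v : VW} (hv : v ∈ VN N) : p v := by
  rw [VN_span] at hv
  induction hv using Submodule.span_induction with
  | mem x hx =>
    obtain ⟨w, hw, rfl⟩ := hx
    exact hbs w hw.1 hw.2
  | zero => exact h0
  | add x y _ _ hx hy => exact hadd x y hx hy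
  | smul c x _ hx => exact hsmul c x hx

theorem lin_mem {f : Word → Word} {N N' : ℕ}
    (hf : ∀ w : Word, w.length = N → Ok w → (f w).length = N' ∧ Ok (f w)) {v : VW}
    (hv : v ∈ VN N) : lin f v ∈ VN N' := by
  refine VN_induction (p := fun v => lin f v ∈ VN N') ?_ ?_ ?_ ?_ hv
  · rw [map_zero]; exact Submodule.zero_mem _
  · intro v v' h h'
    rw [map_add]
    exact Submodule.add_mem _ h h'
  · intro c v h
    rw [map_smul]
    exact Submodule.smul_mem _ c h
  · intro w hw hw'
    rw [lin_bs, VN_span]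
    exact Submodule.subset_span ⟨f w, hf w hw hw', rfl⟩

theorem lin_ext {A B : VW →ₗ[ℂ] VW} {N : ℕ}
    (h : ∀ w : Word, w.length = N → Ok w → A (bs w) = B (bs w)) {v : VW} (hv : v ∈ VN N) :
    A v = B v := by
  refine VN_induction (p := fun v => A v = B v) ?_ ?_ ?_ ?_ hv
  · rw [map_zero, map_zero]
  · intro v v' h h'
    rw [map_add, map_add, h, h']
  · intro c v h
    rw [map_smul, map_smul, h]
  · exact h

theorem bilin_ext {A B : VW →ₗ[ℂ] VW →ₗ[ℂ] ℂ} {N' N : ℕ}
    (h : ∀ w' w : Word, w'.length = N' → Ok w' → w.length = N → Ok w →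
      A (bs w') (bs w) = B (bs w') (bs w)) {v' v : VW} (hv' : v' ∈ VN N') (hv : v ∈ VN N) :
    A v' v = B v' v := by
  refine VN_induction (p := fun v' => A v' v = B v' v) ?_ ?_ ?_ ?_ hv'
  · rw [map_zero, map_zero]
  · intro u u' h h'
    rw [map_add, map_add, LinearMap.add_apply, LinearMap.add_apply, h, h']
  · intro c u h
    rw [map_smul, map_smul, LinearMap.smul_apply, LinearMap.smul_apply, h]
  · intro w' hw1 hw2
    refine VN_induction (p := fun v => A (bs w') v = B (bs w') v) ?_ ?_ ?_ ?_ hv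
    · rw [map_zero, map_zero]
    · intro u u' h h'
      rw [map_add, map_add, h, h']
    · intro c u h
      rw [map_smul, map_smul, h]
    · exact fun w hw hw' => h w' w hw1 hw2 hw hw'

end PairAux

open PairAux

theorem pr_bs (f : Word → Word → ℕ) (t : ℂ) (w' w : Word) :
    pr f t (bs w') (bs w) = t ^ f w' w := by
  unfold pr bs
  rw [Finsupp.linearCombination_single, one_smul, Finsupp.linearCombination_single, one_smul]

theorem pr_lins_right {f : Word → Word → ℕ} (hf : FSpec f) (t : ℂ) {N i : ℕ} (hi : i ≤ N)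
    {v' v : VW} (hv' : v' ∈ VN (N + 2)) (hv : v ∈ VN N) :
    pr f t v' (lin (lins i) v) = pr f t (lin (cap i) v') v := by
  have h := bilin_ext (A := (pr f t).compl₂ (lin (lins i))) (B := (pr f t).comp (lin (cap i)))
    (N' := N + 2) (N := N) (fun w' w h1 h2 h3 h4 => by
      rw [LinearMap.compl₂_apply, LinearMap.comp_apply, lin_bs, lin_bs, pr_bs, pr_bs,
        hf.insR i w' w h2 h4 (by omega) (by omega)]) hv' hv
  exact h

theorem pr_lins_left {f : Word → Word → ℕ} (hf : FSpec f) (t : ℂ) {N i : ℕ} (hi : i ≤ N)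
    {v' v : VW} (hv' : v' ∈ VN N) (hv : v ∈ VN (N + 2)) :
    pr f t (lin (lins i) v') v = pr f t v' (lin (cap i) v) := by
  have h := bilin_ext (A := (pr f t).comp (lin (lins i))) (B := (pr f t).compl₂ (lin (cap i)))
    (N' := N) (N := N + 2) (fun w' w h1 h2 h3 h4 => by
      rw [LinearMap.compl₂_apply, LinearMap.comp_apply, lin_bs, lin_bs, pr_bs, pr_bs,
        hf.insL i w' w h2 h4 (by omega) (by omega)]) hv' hv
  exact h

theorem lin_act {N i : ℕ} (hi : i + 2 ≤ N) {v : VW} (hv : v ∈ VN N) :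
    lin (act i) v = lin (lins i) (lin (cap i) v) := by
  have h := lin_ext (A := lin (act i)) (B := (lin (lins i)).comp (lin (cap i))) (N := N)
    (fun w hw _ => by
      rw [LinearMap.comp_apply, lin_bs, lin_bs, lin_bs, act_eq (by omega)]) hv
  exact h

theorem pr_act {f : Word → Word → ℕ} (hf : FSpec f) (t : ℂ) {N i : ℕ} (hi : i + 2 ≤ N)
    {v' v : VW} (hv' : v' ∈ VN N) (hv : v ∈ VN N) :
    pr f t (lin (act i) v') v = pr f t v' (lin (act i) v) := by
  obtain ⟨M, rfl⟩ : ∃ M, N = M + 2 := ⟨N - 2, by omega⟩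
  have hcap : ∀ w : Word, w.length = M + 2 → Ok w → (cap i w).length = M ∧ Ok (cap i w) := by
    intro w hw hw'
    have h1 : i + 2 ≤ w.length := by omega
    have h2 := length_cap h1
    exact ⟨by omega, ok_cap hw' h1⟩
  have h1 := lin_mem hcap hv'
  have h2 := lin_mem hcap hv
  rw [lin_act hi hv', lin_act hi hv, pr_lins_left hf t (by omega) h1 hv,
    pr_lins_right hf t (by omega) hv' h2]

theorem pr_seam {f : Word → Word → ℕ} (hf : FSpec f) (t : ℂ) {N : ℕ}
    {v' v : VW} (hv' : v' ∈ VN N) (hv : v ∈ VN N) :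
    pr f t (lin seam v') (lin seam v) = t * pr f t v' v := by
  have h := bilin_ext (A := ((pr f t).compl₂ (lin seam)).comp (lin seam)) (B := t • pr f t)
    (N' := N) (N := N) (fun w' w h1 h2 h3 h4 => by
      rw [LinearMap.comp_apply, LinearMap.compl₂_apply, lin_bs, lin_bs, pr_bs,
        LinearMap.smul_apply, LinearMap.smul_apply, pr_bs,
        hf.seam w' w h2 h4 (by omega), pow_succ, smul_eq_mul, mul_comm]) hv' hv
  exact h

end Pool.Agent.H863R2.Cyl
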