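import Pool.Agent.H863R2.Cyl.Defs
import Pool.Agent.H863R2.Cyl.Lst
import Pool.Agent.H863R2.Cyl.Lst2
import Pool.Agent.H863R2.Cyl.Pair
import Pool.Agent.H863R2.Cyl.KRel

/-!
# Module PK: the braid constant
-/

namespace Pool.Agent.H863R2.Cyl.PKAux
open Pool.Agent.H988R2.Perc (Word flipR flipL rem firstArc PD)
open Pool.Agent.H863R2.Cyl

lemma VN_eq (N : ℕ) : VN N = Submodule.span ℂ ((fun w => bs w) '' {w : Word | w.length = N ∧ Ok w}) := by
  unfold VN bs
  rw [Finsupp.supported_eq_span_single]

/-- two linear maps that agree on the basis words agree on `VN N` -/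
lemma eq_on_VN {M : Type*} [AddCommGroup M] [Module ℂ M] {N : ℕ} (A B : VW →ₗ[ℂ] M)
    (h : ∀ w : Word, w.length = N → Ok w → A (bs w) = B (bs w)) {v : VW} (hv : v ∈ VN N) :
    A v = B v := by
  rw [VN_eq] at hv
  induction hv using Submodule.span_induction with
  | mem x hx =>
    obtain ⟨w, hw, rfl⟩ := hx
    exact h w hw.1 hw.2
  | zero => rw [map_zero, map_zero]
  | add x y _ _ hx hy => rw [map_add, map_add, hx, hy]
  | smul a x _ hx => rw [map_smul, map_smul, hx]

lemma bs_mem {N : ℕ} {w : Word} (h1 : w.length = N) (h2 : Ok w) : bs w ∈ VN N := by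
  rw [VN_eq]
  exact Submodule.subset_span ⟨w, ⟨h1, h2⟩, rfl⟩

lemma lin_bs (g : Word → Word) (w : Word) : lin g (bs w) = bs (g w) := by
  simp [lin, bs, Finsupp.lmapDomain_apply, Finsupp.mapDomain_single]

lemma lin_mem {N M : ℕ} (g : Word → Word) (h : ∀ w : Word, w.length = N → Ok w →
    (g w).length = M ∧ Ok (g w)) {v : VW} (hv : v ∈ VN N) : lin g v ∈ VN M := by
  rw [VN_eq] at hv
  induction hv using Submodule.span_induction with
  | mem x hx =>
    obtain ⟨w, hw, rfl⟩ := hx
    simp only
    rw [lin_bs]
    obtain ⟨h1, h2⟩ := h w hw.1 hw.2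
    exact bs_mem h1 h2
  | zero => rw [map_zero]; exact Submodule.zero_mem _
  | add x y _ _ hx hy => rw [map_add]; exact Submodule.add_mem _ hx hy
  | smul a x _ hx => rw [map_smul]; exact Submodule.smul_mem _ _ hx

lemma seam_mem {N : ℕ} {v : VW} (hv : v ∈ VN N) : lin seam v ∈ VN (N + 2) :=
  lin_mem seam (fun w h1 h2 => ⟨by simp [seam, h1], ok_seam.mpr h2⟩) hv

lemma act_mem {N : ℕ} (i : ℕ) {v : VW} (hv : v ∈ VN N) : lin (act i) v ∈ VN N :=
  lin_mem (act i) (fun w h1 h2 => ⟨by rw [length_act, h1], ok_act i h2⟩) hv

lemma act_act {N : ℕ} (hN : 2 ≤ N) (i : ℕ) {v : VW} (hv : v ∈ VN N) :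
    lin (act i) (lin (act i) v) = lin (act i) v := by
  have := eq_on_VN (N := N) ((lin (act i)).comp (lin (act i))) (lin (act i)) (fun w h1 h2 => by
    rw [LinearMap.comp_apply, lin_bs, lin_bs, act_of_arcAt (arcAt_act i (by omega))]) hv
  exact this

lemma cst_add_two (N : ℕ) (t : ℂ) : cst (N + 2) t = cst N t := by
  unfold cst
  have : Even (N + 2) ↔ Even N := by
    rw [Nat.even_add]; simp
  by_cases h : Even N
  · rw [if_pos h, if_pos (this.mpr h)]
  · rw [if_neg h, if_neg (fun h' => h (this.mp h'))]

lemma word_one {w : Word} (h1 : w.length = 1) (h2 : Ok w) : w = [true] := by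
  match w, h1 with
  | [b], _ =>
    cases b with
    | true => rfl
    | false => exact absurd h2 (by unfold Ok; decide)

lemma pr_seam_calc {f : Word → Word → ℕ} (hf : FSpec f) (t : ℂ) {q : ℂ} (hq : q ^ 2 + q + 1 = 0)
    {M : ℕ} (hM : 2 ≤ M) {A B : VW} (hA : A ∈ VN M) (hB : B ∈ VN M) :
    pr f t (-((q ^ 2) ^ 2 • A + q ^ 2 • lin (act 0) A)) (-(q ^ 2 • B + q • lin (act 0) B)) =
      pr f t A B := by
  have e1 : pr f t (lin (act 0) A) B = pr f t A (lin (act 0) B) := pr_act hf t (by omega) hA hB
  have e2 : pr f t (lin (act 0) A) (lin (act 0) B) = pr f t A (lin (act 0) B) := by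
    rw [pr_act hf t (N := M) (by omega) hA (act_mem 0 hB), act_act hM 0 hB]
  simp only [map_neg, map_add, map_smul, LinearMap.neg_apply, LinearMap.add_apply,
    LinearMap.smul_apply, smul_eq_mul, e1, e2]
  have h3 : q ^ 3 = 1 := by linear_combination (q - 1) * hq
  linear_combination ((q ^ 3 + 1) * pr f t A B) * h3 + (q ^ 3 * pr f t A (lin (act 0) B)) * hq

theorem pk_word {q : ℂ} (hq : q ^ 2 + q + 1 = 0) {K K' : VW →ₗ[ℂ] VW} (hK : KSpec q K)
    (hK' : KSpec (q ^ 2) K') {f : Word → Word → ℕ} (hf : FSpec f) (t : ℂ) :
    ∀ (N : ℕ) (w' w : Word), w'.length = N → Ok w' → w.length = N → Ok w →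
      pr f t (K' (bs w')) (K (bs w)) = cst N t * t ^ f w' w := by
  have hq2 : (q ^ 2) ^ 2 + q ^ 2 + 1 = 0 := by
    linear_combination (q ^ 2 - q + 1) * hq
  intro N
  induction N using Nat.strong_induction_on with
  | _ N ih =>
    intro w' w hl' ho' hl ho
    rcases Nat.lt_or_ge N 2 with hN | hN
    · interval_cases N
      · -- N = 0
        rw [List.length_eq_zero_iff] at hl hl'
        subst hl hl'
        rw [hK.nil, hK'.nil, pr_bs, hf.one, hf.nil]
        simp [cst]
      · -- N = 1
        have e1 := word_one hl ho
        have e2 := word_one hl' ho'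
        subst e1 e2
        have okn : Ok [] := by unfold Ok; decide
        have okFT : Ok [false, true] := by unfold Ok; decide
        have f1 : f [true, false] [true, false] = 0 := by
          have := hf.insR 0 (lins 0 []) [] (ok_lins.mpr okn) okn (by simp [lins, Pool.Agent.H988R2.Perc.ins]) (by simp)
          rw [cap_lins_self (by simp), hf.nil] at this
          exact this
        have f2 : f [true, false] [false, true] = 0 := by
          have := hf.insL 0 [] [false, true] okn okFT (by simp) (by simp)
          have e : cap 0 [false, true] = [] := by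
            have := cap_zero_seam (w := [true]) (by simp)
            simp [cap, cap0, flipC]
          rw [e, hf.nil] at this
          exact this
        have f3 : f [false, true] [true, false] = 0 := by
          have := hf.insR 0 [false, true] [] okFT okn (by simp) (by simp)
          have e : cap 0 [false, true] = [] := by simp [cap, cap0, flipC]
          rw [e, hf.nil] at this
          exact this
        have f4 : f [false, true] [false, true] = 1 := by
          have := hf.seam [] [] okn okn rfl
          rw [hf.nil] at this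
          exact this
        rw [hK.one, hK'.one]
        simp only [map_sub, map_smul, LinearMap.sub_apply, LinearMap.smul_apply, smul_eq_mul,
          pr_bs, f1, f2, f3, f4, hf.one]
        have h3 : q ^ 3 = 1 := by linear_combination (q - 1) * hq
        have hq1 : q - 1 ≠ 0 := by
          intro h
          have : q = 1 := by linear_combination h
          rw [this] at hq; norm_num at hq
        have hq21 : q ^ 2 - 1 ≠ 0 := by
          intro h
          have : q ^ 2 = 1 := by linear_combination h
          have h4 : q = -2 := by linear_combination hq - this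
          rw [h4] at hq; norm_num at hq
        have hc : cst 1 t = (t + 2) / 3 := by simp [cst]
        rw [hc]
        field_simp
        linear_combination (3 * q ^ 4 - 6 * q ^ 3 + (4 + 2 * t) * q - (2 + t)) * hq
    · rcases exists_arc ho (by omega) with ⟨i, u, hi, hu, hw, -, -⟩ | ⟨u, hu, hw, hfa⟩
      · -- arc in the lower word
        have hul : u.length + 2 = N := by
          rw [hw] at hl
          rw [← hl]; simp [lins, Pool.Agent.H988R2.Perc.ins]; omega
        have hcap := length_cap (i := i) (w := w') (by omega)
        rw [hw, hK.ins i u hu hi,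
          pr_lins_right hf t (N := u.length + 1) (by omega)
            (by
              have := K_mem hK' (bs_mem (N := N) hl' ho')
              have e : u.length + 1 + 2 = N + 1 := by omega
              rw [e]; exact this)
            (K_mem hK (bs_mem rfl hu)),
          K_cap hq2 hK' (N := N) (i := i) (by omega) (bs_mem hl' ho'), lin_bs,
          ih u.length (by omega) (cap i w') u (by omega) (ok_cap ho' (by omega)) rfl hu,
          hf.insR i w' u ho' hu (by omega) hi, ← cst_add_two u.length, hul]
      · have hul : u.length + 2 = N := by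
          rw [hw] at hl
          rw [← hl]; simp [seam]
        rcases exists_arc ho' (by omega) with ⟨i, u', hi, hu', hw', -, -⟩ | ⟨u', hu', hw', hfa'⟩
        · have hul' : u'.length + 2 = N := by
            rw [hw'] at hl'
            rw [← hl']; simp [lins, Pool.Agent.H988R2.Perc.ins]; omega
          have hcap := length_cap (i := i) (w := w) (by omega)
          rw [hw', hK'.ins i u' hu' hi,
            pr_lins_left hf t (N := u'.length + 1) (by omega) (K_mem hK' (bs_mem rfl hu'))
              (by
                have := K_mem hK (bs_mem (N := N) hl ho)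
                have e : u'.length + 1 + 2 = N + 1 := by omega
                rw [e]; exact this),
            K_cap hq hK (N := N) (i := i) (by omega) (bs_mem hl ho), lin_bs,
            ih u'.length (by omega) u' (cap i w) rfl hu' (by omega) (ok_cap ho (by omega)),
            hf.insL i u' w hu' ho (by omega) hi, ← cst_add_two u'.length, hul']
        · have hul' : u'.length + 2 = N := by
            rw [hw'] at hl'
            rw [← hl']; simp [seam]
          have hlu : u'.length = u.length := by omega
          have m1 := K_mem hK (bs_mem rfl hu)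
          have m2 : K' (bs u') ∈ VN (u.length + 1) := by
            rw [← hlu]; exact K_mem hK' (bs_mem rfl hu')
          rw [hw, hw', hK.seam u hu, hK'.seam u' hu',
            pr_seam_calc hf t hq (M := u.length + 1 + 2) (by omega) (seam_mem m2) (seam_mem m1),
            pr_seam hf t m2 m1, ih u.length (by omega) u' u hlu hu' rfl hu,
            hf.seam u' u hu' hu hlu, ← cst_add_two u.length, hul]
          ring

end Pool.Agent.H863R2.Cyl.PKAux

namespace Pool.Agent.H863R2.Cyl
open Pool.Agent.H988R2.Perc (Word flipR flipL rem firstArc PD)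

theorem pr_K {q : ℂ} (hq : q ^ 2 + q + 1 = 0) {K K' : VW →ₗ[ℂ] VW} (hK : KSpec q K)
    (hK' : KSpec (q ^ 2) K') {f : Word → Word → ℕ} (hf : FSpec f) (t : ℂ) {N : ℕ}
    {v' v : VW} (hv' : v' ∈ VN N) (hv : v ∈ VN N) :
    pr f t (K' v') (K v) = cst N t * pr f t v' v := by
  have h1 : ∀ w' : Word, w'.length = N → Ok w' →
      pr f t (K' (bs w')) (K v) = cst N t * pr f t (bs w') v := by
    intro w' hl' ho'
    refine PKAux.eq_on_VN (N := N) ((pr f t (K' (bs w'))).comp K) (cst N t • pr f t (bs w'))
      (fun w hl ho => ?_) hv
    rw [LinearMap.comp_apply, LinearMap.smul_apply, smul_eq_mul, pr_bs]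
    exact PKAux.pk_word hq hK hK' hf t N w' w hl' ho' hl ho
  refine PKAux.eq_on_VN (N := N) (((pr f t).flip (K v)).comp K') (cst N t • (pr f t).flip v)
      (fun w hl ho => ?_) hv'
  rw [LinearMap.comp_apply, LinearMap.smul_apply, smul_eq_mul, LinearMap.flip_apply,
    LinearMap.flip_apply]
  exact h1 w hl ho

end Pool.Agent.H863R2.Cyl
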