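import Pool.Agent.H863R2.Cyl.Defs
import Pool.Agent.H863R2.Cyl.Lst
import Pool.Agent.H863R2.Cyl.Lst2
import Pool.Agent.H863R2.Cyl.Pair
import Pool.Agent.H863R2.Cyl.PairK
import Pool.Agent.H863R2.Cyl.KRel
import Pool.Agent.H863R2.Cyl.Braid
import Pool.Agent.H988R2.Perc.T03

/-! Module G: the function `G` satisfies its characterisation. -/

set_option autoImplicit false

namespace Pool.Agent.H863R2.Cyl
open Pool.Agent.H988R2.Perc (Word flipR flipL rem firstArc PD)
open Pool.Agent.H988R2.Perc (PD.congr PD.add PD.smul PD.sum PD.mul PD.univ)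

namespace GPropAux

theorem lin_apply_congr {f g : Word → Word} {v : VW} {N : ℕ} (hv : v ∈ VN N)
    (h : ∀ w : Word, w.length = N → Ok w → f w = g w) : lin f v = lin g v := by
  show Finsupp.mapDomain f v = Finsupp.mapDomain g v
  apply Finsupp.mapDomain_congr
  intro w hw
  have := (Finsupp.mem_supported ℂ v).1 hv hw
  exact h w this.1 this.2

theorem lin_lin (f g : Word → Word) (v : VW) : lin f (lin g v) = lin (f ∘ g) v := by
  show Finsupp.mapDomain f (Finsupp.mapDomain g v) = Finsupp.mapDomain (f ∘ g) v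
  rw [Finsupp.mapDomain_comp]

theorem lin_id (v : VW) : lin id v = v := by
  show Finsupp.mapDomain id v = v
  exact Finsupp.mapDomain_id

theorem lin_mem {f : Word → Word} {v : VW} {N M : ℕ} (hv : v ∈ VN N)
    (h : ∀ w : Word, w.length = N → Ok w → (f w).length = M ∧ Ok (f w)) : lin f v ∈ VN M := by
  show Finsupp.mapDomain f v ∈ Finsupp.supported ℂ ℂ _
  rw [Finsupp.mem_supported]
  intro w hw
  have h1 := Finsupp.mapDomain_support hw
  rw [Finset.mem_image] at h1
  obtain ⟨u, hu, rfl⟩ := h1
  have := (Finsupp.mem_supported ℂ v).1 hv hu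
  exact h u this.1 this.2

/-- the words of length `N` -/
noncomputable def WS (N : ℕ) : Finset Word := (List.finite_length_eq Bool N).toFinset

theorem supp_sub {v : VW} {N : ℕ} (hv : v ∈ VN N) : v.support ⊆ WS N := by
  intro w hw
  have := (Finsupp.mem_supported ℂ v).1 hv hw
  simp only [WS, Set.Finite.mem_toFinset]
  exact this.1

theorem pr_eq (f : Word → Word → ℕ) (t : ℂ) {v' v : VW} {N N' : ℕ} (hv' : v' ∈ VN N')
    (hv : v ∈ VN N) :
    pr f t v' v = ∑ w' ∈ WS N', ∑ w ∈ WS N, t ^ f w' w * (v' w' * v w) := by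
  unfold pr
  rw [Finsupp.linearCombination_apply, Finsupp.sum_of_support_subset _ (supp_sub hv')]
  · rw [LinearMap.sum_apply]
    refine Finset.sum_congr rfl fun w' _ => ?_
    rw [LinearMap.smul_apply, Finsupp.linearCombination_apply,
      Finsupp.sum_of_support_subset _ (supp_sub hv)]
    · rw [Finset.smul_sum]
      refine Finset.sum_congr rfl fun w _ => ?_
      simp only [smul_eq_mul]
      ring
    · intro w _; simp
  · intro w _; simp

end GPropAux

structure GSpec (q t : ℂ) (G : List ℂ → ℂ) : Prop where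
  perm : ∀ l l' : List ℂ, l.Perm l' → G l = G l'
  nil : G [] = 1
  deg : ∀ N, PD N (2 * (N - 1)) G
  recu : ∀ (x : ℂ) (m : List ℂ), G (x :: (q * x) :: m)
    = q * x ^ 2 * (m.map (fun y => (y - q ^ 2 * x) ^ 4)).prod * G m
  zero : ∀ m : List ℂ, G (0 :: m) = cst m.length t * m.prod ^ 2 * G m

open GPropAux in
theorem pr_GSpec {q : ℂ} (hq : q ^ 2 + q + 1 = 0) {Ψ Ψ' : List ℂ → VW} (hΨ : Fam q Ψ)
    (hΨ' : Fam (q ^ 2) Ψ') {K K' : VW →ₗ[ℂ] VW} (hK : KSpec q K) (hK' : KSpec (q ^ 2) K')
    {f : Word → Word → ℕ} (hf : FSpec f) (t : ℂ) :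
    GSpec q t (fun z => pr f t (Ψ' z) (Ψ z)) := by
  have hq3 : q ^ 3 = 1 := by linear_combination (q - 1) * hq
  have hq1 : (1 : ℂ) - q ≠ 0 := by
    intro h
    have : q = 1 := by linear_combination -h
    rw [this] at hq; norm_num at hq
  have hq0 : q ≠ 0 := by
    intro h; rw [h] at hq; norm_num at hq
  have hq' : (q ^ 2) ^ 2 + q ^ 2 + 1 = 0 := by linear_combination (q ^ 2 - q + 1) * hq
  have hdeg : ∀ N, PD N (2 * (N - 1)) (fun z => pr f t (Ψ' z) (Ψ z)) := by
    intro N
    have h1 : PD N ((N - 1) + (N - 1)) (fun z => ∑ w' ∈ WS N, ∑ w ∈ WS N,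
        t ^ f w' w * (Ψ' z w' * Ψ z w)) :=
      PD.sum _ fun w' _ => PD.sum _ fun w _ => PD.smul _ ((hΨ'.deg N w').mul (hΨ.deg N w))
    rw [two_mul]
    refine h1.congr fun l hl => ?_
    have h2 := hΨ'.mem l
    have h3 := hΨ.mem l
    rw [hl] at h2 h3
    exact pr_eq f t h2 h3
  -- adjacent swaps
  have hswap : ∀ (u v : List ℂ) (x y : ℂ),
      pr f t (Ψ' (u ++ y :: x :: v)) (Ψ (u ++ y :: x :: v)) =
      pr f t (Ψ' (u ++ x :: y :: v)) (Ψ (u ++ x :: y :: v)) := by
    intro u v x y
    have key : ∀ y : ℂ, (x ^ 2 + x * y + y ^ 2) *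
        pr f t (Ψ' (u ++ y :: x :: v)) (Ψ (u ++ y :: x :: v)) = (x ^ 2 + x * y + y ^ 2) *
        pr f t (Ψ' (u ++ x :: y :: v)) (Ψ (u ++ x :: y :: v)) := by
      intro y
      have e1 := hΨ.exch u v x y
      have e2 := hΨ'.exch u v x y
      have m1 := hΨ.mem (u ++ x :: y :: v)
      have m2 := hΨ'.mem (u ++ x :: y :: v)
      set N := (u ++ x :: y :: v).length with hN
      have hN2 : u.length + 2 ≤ N := by rw [hN]; simp
      set A := Ψ (u ++ x :: y :: v)
      set A' := Ψ' (u ++ x :: y :: v)
      set B := Ψ (u ++ y :: x :: v)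
      set B' := Ψ' (u ++ y :: x :: v)
      set i := u.length
      have hact : ∀ w : Word, w.length = N → Ok w → (act i w).length = N ∧ Ok (act i w) := by
        intro w hw hok
        exact ⟨(length_act i w).trans hw, ok_act i hok⟩
      have h1 : pr f t (lin (act i) A') A = pr f t A' (lin (act i) A) := pr_act hf t hN2 m2 m1
      have h2 : pr f t (lin (act i) A') (lin (act i) A) = pr f t A' (lin (act i) A) := by
        rw [pr_act hf t hN2 m2 (lin_mem m1 hact), lin_lin]
        congr 1
        refine lin_apply_congr m1 fun w hw _ => ?_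
        exact act_of_arcAt (arcAt_act i (by omega))
      have h3 : pr f t ((q ^ 2 * y - (q ^ 2) ^ 2 * x) • B') ((q * y - q ^ 2 * x) • B) =
          pr f t ((q ^ 2 * x - (q ^ 2) ^ 2 * y) • A' + (x - y) • lin (act i) A')
            ((q * x - q ^ 2 * y) • A + (x - y) • lin (act i) A) := by
        rw [e1, e2]
      simp only [map_add, map_smul, LinearMap.add_apply, LinearMap.smul_apply, smul_eq_mul] at h3
      rw [h1, h2] at h3
      have c1 : (q ^ 2 * y - (q ^ 2) ^ 2 * x) * (q * y - q ^ 2 * x) = x ^ 2 + x * y + y ^ 2 := by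
        linear_combination (y ^ 2 + q ^ 3 * x ^ 2 + x ^ 2 - q * x * y - q ^ 2 * x * y) * hq3 - x * y * hq
      have c2 : (q ^ 2 * x - (q ^ 2) ^ 2 * y) * (q * x - q ^ 2 * y) = x ^ 2 + x * y + y ^ 2 := by
        linear_combination (x ^ 2 + q ^ 3 * y ^ 2 + y ^ 2 - q * x * y - q ^ 2 * x * y) * hq3 - x * y * hq
      have c3 : (q ^ 2 * x - (q ^ 2) ^ 2 * y) + (q * x - q ^ 2 * y) + (x - y) = 0 := by
        linear_combination (x - y) * hq - q * y * hq3
      linear_combination h3 - pr f t B' B * c1 + pr f t A' A * c2 +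
        (x - y) * pr f t A' (lin (act i) A) * c3
    -- as polynomials in `y`
    obtain ⟨P1, _, hP1⟩ := (hdeg (u.length + v.length + 2)).univ u (x :: v) (by simp; omega)
    obtain ⟨P2, _, hP2⟩ := (hdeg (u.length + v.length + 2)).univ (u ++ [x]) v (by simp; omega)
    have hpoly : (Polynomial.C (x ^ 2) + Polynomial.C x * Polynomial.X + Polynomial.X ^ 2) *
        (P1 - P2) = 0 := by
      refine Polynomial.funext fun y => ?_
      have k := key y
      have a1 := hP1 y
      have a2 := hP2 y
      simp only [List.append_assoc, List.cons_append, List.nil_append] at a2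
      rw [a1, a2] at k
      simp only [Polynomial.eval_mul, Polynomial.eval_add, Polynomial.eval_sub,
        Polynomial.eval_C, Polynomial.eval_X, Polynomial.eval_pow, Polynomial.eval_zero]
      linear_combination k
    have hne : (Polynomial.C (x ^ 2) + Polynomial.C x * Polynomial.X + Polynomial.X ^ 2 :
        Polynomial ℂ) ≠ 0 := by
      intro h
      have e1 := congrArg (Polynomial.eval (x + 1)) h
      have e2 := congrArg (Polynomial.eval (x - 1)) h
      have e3 := congrArg (Polynomial.eval x) h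
      simp only [Polynomial.eval_mul, Polynomial.eval_add, Polynomial.eval_C, Polynomial.eval_X,
        Polynomial.eval_pow, Polynomial.eval_zero] at e1 e2 e3
      have : (2 : ℂ) = 0 := by linear_combination e1 + e2 - 2 * e3
      norm_num at this
    have h0 : P1 = P2 := by
      rcases mul_eq_zero.1 hpoly with h | h
      · exact absurd h hne
      · exact sub_eq_zero.1 h
    have a1 := hP1 y
    have a2 := hP2 y
    simp only [List.append_assoc, List.cons_append, List.nil_append] at a2
    rw [a1, a2, h0]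
  refine ⟨?_, ?_, hdeg, ?_, ?_⟩
  · -- perm
    intro l l' hp
    have : ∀ u : List ℂ, pr f t (Ψ' (u ++ l)) (Ψ (u ++ l)) = pr f t (Ψ' (u ++ l')) (Ψ (u ++ l')) := by
      induction hp with
      | nil => intro u; rfl
      | cons x _ ih =>
        intro u
        have := ih (u ++ [x])
        simpa using this
      | swap x y l => intro u; exact hswap u l x y
      | trans _ _ ih1 ih2 => intro u; rw [ih1 u, ih2 u]
    simpa using this []
  · -- nil
    show pr f t (Ψ' []) (Ψ []) = 1
    rw [hΨ.nil, hΨ'.nil, pr_bs, hf.nil, pow_zero]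
  · -- recu
    intro x m
    show pr f t (Ψ' (x :: (q * x) :: m)) (Ψ (x :: (q * x) :: m)) = _
    have r1 := hΨ.recu [] m x
    simp only [List.nil_append, List.length_nil] at r1
    have m1 := hΨ.mem m
    have m2 := hΨ'.mem m
    have m3 := hΨ'.mem (x :: (q * x) :: m)
    simp only [List.length_cons] at m3
    rw [r1, map_smul, smul_eq_mul, pr_lins_right hf t (Nat.zero_le _) m3 m1]
    by_cases hx : x = 0
    · have : fac q x m = 0 := by rw [hx]; unfold fac; simp
      rw [this, hx]; simp
    · have e2 := hΨ'.exch [] m x (q * x)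
      simp only [List.nil_append, List.length_nil] at e2
      have r2 := hΨ'.recu [] m (q * x)
      simp only [List.nil_append, List.length_nil] at r2
      rw [show q ^ 2 * (q * x) = x by linear_combination x * hq3] at r2
      have c1 : x - (q ^ 2) ^ 2 * x = (1 - q) * x := by linear_combination (-q * x) * hq3
      have c2 : q ^ 2 * x - (q ^ 2) ^ 2 * (q * x) = 0 := by
        linear_combination (-q ^ 2 * x) * hq3
      have c3 : x - q * x = (1 - q) * x := by ring
      rw [show q ^ 2 * (q * x) = x by linear_combination x * hq3, c1, c2, c3, zero_smul,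
        zero_add] at e2
      have hne : (1 - q) * x ≠ 0 := mul_ne_zero hq1 hx
      have e3 : Ψ' (q * x :: x :: m) = lin (act 0) (Ψ' (x :: (q * x) :: m)) :=
        smul_right_injective _ hne e2
      have e4 : lin (cap 0) (Ψ' (x :: (q * x) :: m)) = fac (q ^ 2) (q * x) m • Ψ' m := by
        have h1 : lin (cap 0) (lin (act 0) (Ψ' (x :: (q * x) :: m))) =
            lin (cap 0) (Ψ' (x :: (q * x) :: m)) := by
          rw [lin_lin]
          refine lin_apply_congr m3 fun w hw _ => ?_
          show cap 0 (act 0 w) = cap 0 w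
          rw [act_eq (by omega : 0 + 2 ≤ w.length), cap_lins_self (Nat.zero_le _)]
        rw [← h1, ← e3, r2, map_smul, lin_lin]
        congr 1
        have h7 : lin (cap 0 ∘ lins 0) (Ψ' m) = lin id (Ψ' m) :=
          lin_apply_congr m2 (fun w _ _ => cap_lins_self (Nat.zero_le _))
        rw [h7, lin_id]
      rw [e4, map_smul, LinearMap.smul_apply, smul_eq_mul]
      have c4 : fac q x m * fac (q ^ 2) (q * x) m =
          q * x ^ 2 * (m.map (fun y => (y - q ^ 2 * x) ^ 4)).prod := by
        unfold fac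
        have h5 : (q ^ 2) ^ 2 * (q * x) = q ^ 2 * x := by linear_combination (q ^ 2 * x) * hq3
        rw [h5]
        have h6 : (m.map (fun y => (y - q ^ 2 * x) ^ 2)).prod *
            (m.map (fun y => (y - q ^ 2 * x) ^ 2)).prod =
            (m.map (fun y => (y - q ^ 2 * x) ^ 4)).prod := by
          rw [← List.prod_map_mul]
          congr 1
          refine List.map_congr_left fun y _ => ?_
          ring
        rw [← h6]
        ring
      rw [← mul_assoc, c4]
  · -- zero
    intro m
    show pr f t (Ψ' (0 :: m)) (Ψ (0 :: m)) = _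
    rw [braid_limit hq hΨ hK m, braid_limit hq' hΨ' hK' m]
    simp only [map_smul, LinearMap.smul_apply, smul_eq_mul]
    rw [pr_K hq hK hK' hf t (hΨ'.mem m) (hΨ.mem m)]
    ring

end Pool.Agent.H863R2.Cyl
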