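import Pool.Agent.H863R2.Cyl.Pair
import Pool.Agent.H863R2.Cyl.Lst2

/-! Module K1: existence of the braid operator `K` -/

namespace Pool.Agent.H863R2.Cyl
open Pool.Agent.H988R2.Perc (Word flipR flipL rem firstArc PD)

namespace KExAux
open PairAux

/-- the operator on words -/
noncomputable def Kw (q : ℂ) (w : Word) : VW :=
  if w = [] then bs [true]
  else if w.length ≤ 1 then (q - 1)⁻¹ • (q • bs [false, true] - q ^ 2 • bs [true, false])
  else if firstArc w + 2 ≤ w.length then
    lin (lins (firstArc w + 1)) (if (rem (firstArc w) w).length < w.length then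
      Kw q (rem (firstArc w) w) else 0)
  else -(q ^ 2 • lin seam (if w.tail.dropLast.length < w.length then Kw q w.tail.dropLast else 0) +
    q • lin (act 0) (lin seam (if w.tail.dropLast.length < w.length then
      Kw q w.tail.dropLast else 0)))
termination_by w.length

theorem Kw_nil (q : ℂ) : Kw q [] = bs [true] := by
  rw [Kw, if_pos rfl]

theorem Kw_one (q : ℂ) :
    Kw q [true] = (q - 1)⁻¹ • (q • bs [false, true] - q ^ 2 • bs [true, false]) := by
  rw [Kw, if_neg (by simp), if_pos (by simp)]

theorem firstArc_lins {i : ℕ} {u : Word} (hi : i ≤ u.length) :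
    firstArc (lins i u) + 2 ≤ (lins i u).length ∧
      lins i u = lins (firstArc (lins i u)) (rem (firstArc (lins i u)) (lins i u)) := by
  obtain ⟨a, b, rfl, ha⟩ := Pool.Agent.H988R2.Perc.exists_split hi
  have h1 : lins i (a ++ b) = a ++ true :: false :: b := Pool.Agent.H988R2.Perc.ins_app a b ha
  rw [h1]
  exact Pool.Agent.H988R2.Perc.firstArc_app a b

theorem length_rem {i : ℕ} {w : Word} (h : i + 2 ≤ w.length) : (rem i w).length + 2 = w.length := by
  unfold rem
  rw [List.length_append, List.length_take, List.length_drop]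
  omega

theorem Kw_arc (q : ℂ) {w : Word} (h : firstArc w + 2 ≤ w.length) :
    Kw q w = lin (lins (firstArc w + 1)) (Kw q (rem (firstArc w) w)) := by
  have h1 := length_rem h
  rw [Kw, if_neg (by intro h0; rw [h0] at h; simp at h), if_neg (by omega), if_pos h,
    if_pos (by omega)]

theorem Kw_seam_def (q : ℂ) {w : Word} (h2 : 2 ≤ w.length) (h : ¬ firstArc w + 2 ≤ w.length) :
    Kw q w = -(q ^ 2 • lin seam (Kw q w.tail.dropLast) +
      q • lin (act 0) (lin seam (Kw q w.tail.dropLast))) := by
  rw [Kw, if_neg (by intro h0; rw [h0] at h2; simp at h2), if_neg (by omega), if_neg h,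
    if_pos (by simp; omega)]

theorem seam_tail (u : Word) : (seam u).tail.dropLast = u := by
  simp [seam]

theorem length_seam (u : Word) : (seam u).length = u.length + 2 := by
  simp [seam]

theorem lins_comm {N i j : ℕ} (hij : i ≤ j) (hj : j ≤ N) {v : VW} (hv : v ∈ VN N) :
    lin (lins i) (lin (lins j) v) = lin (lins (j + 2)) (lin (lins i) v) := by
  have h := lin_ext (A := (lin (lins i)).comp (lin (lins j)))
    (B := (lin (lins (j + 2))).comp (lin (lins i))) (N := N)
    (fun w hw _ => by
      have h1 : lins i (lins j w) = lins (j + 2) (lins i w) :=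
        Pool.Agent.H988R2.Perc.ins_ins hij (by omega)
      rw [LinearMap.comp_apply, LinearMap.comp_apply, lin_bs, lin_bs, lin_bs, lin_bs, h1]) hv
  exact h

theorem seam_lins {N i : ℕ} (hi : i ≤ N) {v : VW} (hv : v ∈ VN N) :
    lin seam (lin (lins i) v) = lin (lins (i + 1)) (lin seam v) := by
  have h := lin_ext (A := (lin seam).comp (lin (lins i)))
    (B := (lin (lins (i + 1))).comp (lin seam)) (N := N)
    (fun w hw _ => by
      rw [LinearMap.comp_apply, LinearMap.comp_apply, lin_bs, lin_bs, lin_bs, lin_bs,
        lins_seam (by omega)]) hv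
  exact h

theorem act_lins {N i : ℕ} (hi2 : 2 ≤ i) (hi : i ≤ N) {v : VW} (hv : v ∈ VN N) :
    lin (act 0) (lin (lins i) v) = lin (lins i) (lin (act 0) v) := by
  have h := lin_ext (A := (lin (act 0)).comp (lin (lins i)))
    (B := (lin (lins i)).comp (lin (act 0))) (N := N)
    (fun w hw _ => by
      have h1 : (lins i w).length = w.length + 2 := Pool.Agent.H988R2.Perc.length_ins i w
      have h2 : (cap 0 w).length + 2 = w.length := length_cap (by omega)
      rw [LinearMap.comp_apply, LinearMap.comp_apply, lin_bs, lin_bs, lin_bs, lin_bs,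
        act_eq (by omega), act_eq (by omega), cap_lins_right (by omega) (by omega)]
      have h4 : lins 0 (lins (i - 2) (cap 0 w)) = lins (i - 2 + 2) (lins 0 (cap 0 w)) :=
        Pool.Agent.H988R2.Perc.ins_ins (Nat.zero_le _) (by omega)
      have h3 : i - 2 + 2 = i := by omega
      rw [h4, h3]) hv
  exact h

theorem mem_lins {N : ℕ} (i : ℕ) {v : VW} (hv : v ∈ VN N) : lin (lins i) v ∈ VN (N + 2) :=
  lin_mem (fun w hw hw' => ⟨by rw [Pool.Agent.H988R2.Perc.length_ins, hw], ok_lins.2 hw'⟩) hv

theorem mem_seam {N : ℕ} {v : VW} (hv : v ∈ VN N) : lin seam v ∈ VN (N + 2) :=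
  lin_mem (fun w hw hw' => ⟨by rw [length_seam, hw], ok_seam.2 hw'⟩) hv

theorem mem_act {N : ℕ} (i : ℕ) {v : VW} (hv : v ∈ VN N) : lin (act i) v ∈ VN N :=
  lin_mem (fun w hw hw' => ⟨by rw [length_act, hw], ok_act i hw'⟩) hv

theorem bs_mem {N : ℕ} {w : Word} (h : w.length = N) (h' : Ok w) : bs w ∈ VN N := by
  rw [VN_span]
  exact Submodule.subset_span ⟨w, ⟨h, h'⟩, rfl⟩

/-- a linear arc of a seam word is a linear arc of the inner word -/
theorem seam_arc {j : ℕ} {u w1 : Word} (hj : j ≤ w1.length) (h : seam u = lins j w1) :
    1 ≤ j ∧ ∃ u1 : Word, j - 1 ≤ u1.length ∧ u = lins (j - 1) u1 := by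
  obtain ⟨a, b, rfl, ha⟩ := Pool.Agent.H988R2.Perc.exists_split hj
  have h1 : lins j (a ++ b) = a ++ true :: false :: b := Pool.Agent.H988R2.Perc.ins_app a b ha
  rw [h1] at h
  unfold seam at h
  rcases a with _ | ⟨x, a'⟩
  · simp at h
  · rw [List.cons_append] at h
    obtain ⟨-, h⟩ := List.cons.inj h
    rcases List.eq_nil_or_concat b with hb | ⟨b', y, hb⟩
    · exfalso
      rw [hb] at h
      have h2 : u ++ [true] = (a' ++ [true]) ++ [false] := by rw [h]; simp
      have h3 := List.append_inj_right' h2 rfl
      simp at h3
    · rw [hb] at h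
      have h2 : u ++ [true] = (a' ++ true :: false :: b') ++ [y] := by rw [h]; simp
      have h3 := List.append_inj_left' h2 rfl
      have ha' : a'.length = j - 1 := by
        simp at ha
        omega
      refine ⟨by simp at ha; omega, a' ++ b', by rw [List.length_append]; omega, ?_⟩
      rw [h3]
      exact (Pool.Agent.H988R2.Perc.ins_app a' b' ha').symm

theorem main (q : ℂ) : ∀ (n : ℕ) (w : Word), w.length = n → Ok w →
    Kw q w ∈ VN (n + 1) ∧
    (∀ (i : ℕ) (u : Word), i ≤ u.length → w = lins i u → Kw q w = lin (lins (i + 1)) (Kw q u)) ∧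
    (∀ u : Word, w = seam u → Kw q w =
      -(q ^ 2 • lin seam (Kw q u) + q • lin (act 0) (lin seam (Kw q u)))) := by
  intro n
  induction n using Nat.strong_induction_on with
  | _ n ih =>
    intro w hwn hw
    -- the insertion property
    have hI : ∀ (i : ℕ) (u : Word), i ≤ u.length → w = lins i u →
        Kw q w = lin (lins (i + 1)) (Kw q u) := by
      intro i u hi hwu
      obtain ⟨hf1, hf2⟩ := firstArc_lins hi
      rw [← hwu] at hf1 hf2
      set j := firstArc w with hj
      have hrem := length_rem hf1
      have hul : u.length + 2 = w.length := by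
        rw [hwu]
        exact (Pool.Agent.H988R2.Perc.length_ins i u).symm
      have hoku : Ok u := by
        rw [hwu] at hw
        exact ok_lins.1 hw
      have hokr : Ok (rem j w) := by
        rw [hf2] at hw
        exact ok_lins.1 hw
      rw [Kw_arc q hf1, ← hj]
      have heq : lins i u = lins j (rem j w) := by rw [← hwu]; exact hf2
      rcases lt_trichotomy i j with hij | hij | hij
      · obtain ⟨h1, x, hx1, hx2, hx3, hx4⟩ :=
          Pool.Agent.H988R2.Perc.ins_eq_ins hij hi (by omega) heq
        have hxl : x.length + 2 = u.length := by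
          rw [hx3]
          exact (Pool.Agent.H988R2.Perc.length_ins _ x).symm
        have hokx : Ok x := by
          rw [hx3] at hoku
          exact ok_lins.1 hoku
        have e1 := (ih (rem j w).length (by omega) (rem j w) rfl hokr).2.1 i x hx1 hx4
        have e2 := (ih u.length (by omega) u rfl hoku).2.1 (j - 2) x hx2 hx3
        have e3 := (ih x.length (by omega) x rfl hokx).1
        rw [e1, e2]
        have h2 := lins_comm (N := x.length + 1) (i := i + 1) (j := j - 2 + 1) (by omega)
          (by omega) e3
        rw [h2]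
        have h3 : j - 2 + 1 + 2 = j + 1 := by omega
        rw [h3]
      · rw [hij] at heq ⊢
        have h1 : u = rem j w := Pool.Agent.H988R2.Perc.ins_inj (by omega) (by omega) heq
        rw [← h1]
      · obtain ⟨h1, x, hx1, hx2, hx3, hx4⟩ :=
          Pool.Agent.H988R2.Perc.ins_eq_ins hij (by omega) hi heq.symm
        have hxl : x.length + 2 = u.length := by
          rw [hx4]
          exact (Pool.Agent.H988R2.Perc.length_ins _ x).symm
        have hokx : Ok x := by
          rw [hx4] at hoku
          exact ok_lins.1 hoku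
        have e1 := (ih (rem j w).length (by omega) (rem j w) rfl hokr).2.1 (i - 2) x hx2 hx3
        have e2 := (ih u.length (by omega) u rfl hoku).2.1 j x hx1 hx4
        have e3 := (ih x.length (by omega) x rfl hokx).1
        rw [e1, e2]
        have h2 := lins_comm (N := x.length + 1) (i := j + 1) (j := i - 2 + 1) (by omega)
          (by omega) e3
        rw [h2]
        have h3 : i - 2 + 1 + 2 = i + 1 := by omega
        rw [h3]
    -- the seam property
    have hM : ∀ u : Word, w = seam u → Kw q w =
        -(q ^ 2 • lin seam (Kw q u) + q • lin (act 0) (lin seam (Kw q u))) := by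
      intro u hwu
      have hlu : u.length + 2 = w.length := by rw [hwu, length_seam]
      have hoku : Ok u := by
        rw [hwu] at hw
        exact ok_seam.1 hw
      by_cases hf : firstArc w + 2 ≤ w.length
      · rcases exists_arc hw (by omega) with ⟨j, w1, hj1, hj2, hj3, -, -⟩ | ⟨_, _, _, h3⟩
        · obtain ⟨hj0, u1, hu1, hu2⟩ := seam_arc hj1 (hwu.symm.trans hj3)
          have hlu1 : u1.length + 2 = u.length := by
            rw [hu2]
            exact (Pool.Agent.H988R2.Perc.length_ins _ u1).symm
          have hoku1 : Ok u1 := by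
            rw [hu2] at hoku
            exact ok_lins.1 hoku
          have hw2 : w = lins j (seam u1) := by
            rw [hwu, hu2, ← lins_seam hu1]
            have : j - 1 + 1 = j := by omega
            rw [this]
          have hls : (seam u1).length = u1.length + 2 := length_seam u1
          have e1 := hI j (seam u1) (by omega) hw2
          have e2 := (ih (seam u1).length (by omega) (seam u1) rfl (ok_seam.2 hoku1)).2.2 u1 rfl
          have e3 := (ih u.length (by omega) u rfl hoku).2.1 (j - 1) u1 hu1 hu2
          have e4 := (ih u1.length (by omega) u1 rfl hoku1).1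
          have h4 : j - 1 + 1 = j := by omega
          rw [h4] at e3
          have e5 := seam_lins (N := u1.length + 1) (i := j) (by omega) e4
          have e6 := act_lins (N := u1.length + 1 + 2) (i := j + 1) (by omega) (by omega)
            (mem_seam e4)
          rw [e1, e2, e3, e5, e6, map_neg, map_add, map_smul, map_smul]
        · omega
      · rw [Kw_seam_def q (by omega) hf, hwu, seam_tail]
    refine ⟨?_, hI, hM⟩
    -- the support
    rcases Nat.lt_or_ge w.length 2 with hl | hl
    · match w, hwn, hw with
      | [], hwn, hw =>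
        rw [Kw_nil]
        exact bs_mem (by rw [← hwn]; rfl) (by simp [Ok])
      | [x], hwn, hw =>
        have hx : x = true := by
          cases x
          · simp [Ok] at hw
          · rfl
        rw [hx, Kw_one]
        simp at hwn
        refine Submodule.smul_mem _ _ (Submodule.sub_mem _ (Submodule.smul_mem _ _ (bs_mem ?_ ?_))
          (Submodule.smul_mem _ _ (bs_mem ?_ ?_)))
        · simp [← hwn]
        · simp [Ok]
        · simp [← hwn]
        · simp [Ok]
      | x :: y :: v, _, _ => simp at hl
    · rcases exists_arc hw hl with ⟨j, w1, hj1, hj2, hj3, -, -⟩ | ⟨u, hu1, hu2, -⟩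
      · have hl1 : w1.length + 2 = w.length := by
          rw [hj3]
          exact (Pool.Agent.H988R2.Perc.length_ins _ w1).symm
        rw [hI j w1 hj1 hj3]
        have e1 := mem_lins (j + 1) (ih w1.length (by omega) w1 rfl hj2).1
        have e2 : w1.length + 1 + 2 = n + 1 := by omega
        rw [e2] at e1
        exact e1
      · have hl1 : u.length + 2 = w.length := by rw [hu2, length_seam]
        rw [hM u hu2]
        have e1 := mem_seam (ih u.length (by omega) u rfl hu1).1
        have e2 : u.length + 1 + 2 = n + 1 := by omega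
        rw [e2] at e1
        exact Submodule.neg_mem _ (Submodule.add_mem _ (Submodule.smul_mem _ _ e1)
          (Submodule.smul_mem _ _ (mem_act 0 e1)))

end KExAux

open KExAux

theorem exists_K (q : ℂ) : ∃ K : VW →ₗ[ℂ] VW, KSpec q K := by
  have hb : ∀ w : Word, Finsupp.linearCombination ℂ (Kw q) (bs w) = Kw q w := by
    intro w
    unfold bs
    rw [Finsupp.linearCombination_single, one_smul]
  refine ⟨Finsupp.linearCombination ℂ (Kw q), ?_, ?_, ?_, ?_⟩
  · rw [hb, Kw_nil]
  · rw [hb, Kw_one]
  · intro i w hw hi
    rw [hb, hb]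
    exact (main q (lins i w).length (lins i w) rfl (ok_lins.2 hw)).2.1 i w hi rfl
  · intro w hw
    rw [hb, hb]
    exact (main q (seam w).length (seam w) rfl (ok_seam.2 hw)).2.2 w rfl

end Pool.Agent.H863R2.Cyl
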