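import Pool.Agent.H863R2.Cyl.Defs
import Pool.Agent.H863R2.Cyl.Lst
import Pool.Agent.H863R2.Cyl.Lst2

/-!
Module A: relations for typed words.
-/

namespace Pool.Agent.H863R2.Cyl
open Pool.Agent.H988R2.Perc (Word flipR flipL rem firstArc PD)

theorem E_val (m i : ℕ) (σ : Wd (m + 1)) : (E m i σ).1 = act i σ.1 := by
  unfold E
  rw [dif_pos ⟨by rw [length_act, σ.2.1], ok_act i σ.2.2⟩]

theorem rot_val (m : ℕ) (σ : Wd (m + 1)) : (rot m σ).1 = rotr σ.1 := by
  unfold rot
  rw [dif_pos ⟨by rw [length_rotr, σ.2.1], ok_rotr.mpr σ.2.2⟩]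

theorem rotInv_val (m : ℕ) (σ : Wd (m + 1)) : (rotInv m σ).1 = rotl σ.1 := by
  unfold rotInv
  rw [dif_pos ⟨by rw [length_rotl, σ.2.1], ok_rotl.mpr σ.2.2⟩]

theorem rot_rotInv (m : ℕ) (σ : Wd (m + 1)) : rot m (rotInv m σ) = σ := by
  apply Subtype.ext
  rw [rot_val, rotInv_val, rotr_rotl]

theorem rotInv_rot (m : ℕ) (σ : Wd (m + 1)) : rotInv m (rot m σ) = σ := by
  apply Subtype.ext
  rw [rotInv_val, rot_val, rotl_rotr]

theorem ix_add (m i : ℕ) : ix m (i + (m + 1)) = ix m i := by
  unfold ix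
  apply Fin.ext
  simp only [Nat.add_mod_right]

theorem E_per (m i : ℕ) (σ : Wd (m + 1)) : E m (i + (m + 1)) σ = E m i σ := by
  apply Subtype.ext
  rw [E_val, E_val]
  have h := act_per i σ.1
  rwa [σ.2.1] at h

theorem E_arc {m : ℕ} (hm : 1 ≤ m) (i : ℕ) (σ : Wd (m + 1)) : arcAt i (E m i σ).1 := by
  rw [E_val]
  exact arcAt_act i (by rw [σ.2.1]; omega)

theorem E_fix {m : ℕ} (i : ℕ) (σ : Wd (m + 1)) (h : arcAt i σ.1) : E m i σ = σ := by
  apply Subtype.ext
  rw [E_val, act_of_arcAt h]

namespace RelAux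

/-- there is only one word of length one -/
theorem wd_one (σ τ : Wd (0 + 1)) : σ = τ := by
  have h : ∀ ρ : Wd (0 + 1), ρ.1 = [true] := by
    rintro ⟨w, h1, h2⟩
    obtain ⟨x, rfl⟩ := List.length_eq_one_iff.mp h1
    cases x
    · exact absurd h2 (by unfold Ok; decide)
    · rfl
  exact Subtype.ext ((h σ).trans (h τ).symm)

end RelAux

theorem E_idem (m i : ℕ) (σ : Wd (m + 1)) : E m i (E m i σ) = E m i σ := by
  rcases Nat.eq_zero_or_pos m with rfl | hm
  · exact RelAux.wd_one _ _
  · exact E_fix i _ (E_arc hm i σ)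

theorem rot_E (m i : ℕ) (σ : Wd (m + 1)) : rot m (E m i σ) = E m (i + 1) (rot m σ) := by
  apply Subtype.ext
  rw [rot_val, E_val, E_val, rot_val, rotr_act]

theorem E_braid {m : ℕ} (hm : 2 ≤ m) (i : ℕ) (σ : Wd (m + 1)) :
    E m i (E m (i + 1) (E m i σ)) = E m i σ := by
  induction i generalizing σ with
  | zero =>
    apply Subtype.ext
    rw [E_val, E_val, E_val]
    have hl : σ.1.length = m + 1 := σ.2.1
    have h0 : act 0 σ.1 = lins 0 (cap 0 σ.1) := act_eq (by omega)
    have hc : (cap 0 σ.1).length + 2 = σ.1.length := length_cap (by omega)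
    set u := cap 0 σ.1 with hu
    have hlu0 : (lins 0 u).length = m + 1 := by rw [← h0, length_act, hl]
    have h1 : act (0 + 1) (lins 0 u) = lins (0 + 1) u := by
      rw [act_eq (by omega), cap_succ_lins (by omega)]
    have hlu1 : (lins (0 + 1) u).length = m + 1 := by rw [← h1, length_act, hlu0]
    have h2 : act 0 (lins (0 + 1) u) = lins 0 u := by
      rw [act_eq (by omega), cap_lins_succ (by omega)]
    rw [h0, h1, h2]
  | succ i ih =>
    have h := ih (rotInv m σ)
    have h2 := congrArg (rot m) h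
    rw [rot_E, rot_E, rot_E, rot_rotInv] at h2
    exact h2

theorem E_braid' {m : ℕ} (hm : 2 ≤ m) (i : ℕ) (σ : Wd (m + 1)) :
    E m (i + 1) (E m i (E m (i + 1) σ)) = E m (i + 1) σ := by
  induction i generalizing σ with
  | zero =>
    apply Subtype.ext
    rw [E_val, E_val, E_val]
    have hl : σ.1.length = m + 1 := σ.2.1
    have h0 : act (0 + 1) σ.1 = lins (0 + 1) (cap (0 + 1) σ.1) := act_eq (by omega)
    have hc : (cap (0 + 1) σ.1).length + 2 = σ.1.length := length_cap (by omega)
    set u := cap (0 + 1) σ.1 with hu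
    have hlu0 : (lins 0 u).length = u.length + 2 := by simp [Pool.Agent.H988R2.Perc.ins]
    have hlu1 : (lins (0 + 1) u).length = u.length + 2 := by
      rw [← h0, length_act]
      omega
    have h1 : act (0 + 1) (lins 0 u) = lins (0 + 1) u := by
      rw [act_eq (by omega), cap_succ_lins (by omega)]
    have h2 : act 0 (lins (0 + 1) u) = lins 0 u := by
      rw [act_eq (by omega), cap_lins_succ (by omega)]
    rw [h0, h2, h1]
  | succ i ih =>
    have h := ih (rotInv m σ)
    have h2 := congrArg (rot m) h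
    rw [rot_E, rot_E, rot_E, rot_rotInv] at h2
    exact h2

theorem E_comm {m i j : ℕ} (h1 : i + 2 ≤ j) (h2 : j + 2 ≤ i + (m + 1)) (σ : Wd (m + 1)) :
    E m i (E m j σ) = E m j (E m i σ) := by
  induction i generalizing σ j with
  | zero =>
    apply Subtype.ext
    rw [E_val, E_val, E_val, E_val]
    have hl : σ.1.length = m + 1 := σ.2.1
    obtain ⟨j', rfl⟩ : ∃ j', j = j' + 2 := ⟨j - 2, by omega⟩
    have hj : act (j' + 2) σ.1 = lins (j' + 2) (cap (j' + 2) σ.1) := act_eq (by omega)
    have hcj : (cap (j' + 2) σ.1).length + 2 = σ.1.length := length_cap (by omega)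
    have h0 : act 0 σ.1 = lins 0 (cap 0 σ.1) := act_eq (by omega)
    have hc0 : (cap 0 σ.1).length + 2 = σ.1.length := length_cap (by omega)
    have hcc : cap 0 (cap (j' + 2) σ.1) = cap j' (cap 0 σ.1) := cap_cap (by omega) (by omega)
    have e1 : act 0 (lins (j' + 2) (cap (j' + 2) σ.1)) =
        lins 0 (lins j' (cap 0 (cap (j' + 2) σ.1))) := by
      rw [act_eq (by rw [← hj, length_act]; omega), cap_lins_right (by omega) (by omega)]
      rfl
    have e2 : act (j' + 2) (lins 0 (cap 0 σ.1)) = lins (j' + 2) (lins 0 (cap j' (cap 0 σ.1))) := by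
      rw [act_eq (by rw [← h0, length_act]; omega), cap_lins_left (by omega) (by omega)]
      rfl
    rw [hj, h0, e1, e2, hcc]
    simp [Pool.Agent.H988R2.Perc.ins]
  | succ i ih =>
    obtain ⟨j', rfl⟩ : ∃ j', j = j' + 1 := ⟨j - 1, by omega⟩
    have h := ih (j := j') (by omega) (by omega) (rotInv m σ)
    have h2 := congrArg (rot m) h
    rw [rot_E, rot_E, rot_E, rot_E, rot_rotInv] at h2
    exact h2

theorem rot_long (m : ℕ) (σ : Wd (m + 1)) :
    rot m (rot m (word m (fun _ => true) 0 m σ)) = E m 0 σ := by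
  rcases Nat.eq_zero_or_pos m with rfl | hm
  · exact RelAux.wd_one _ _
  · have hl : σ.1.length = m + 1 := σ.2.1
    have h0 : act 0 σ.1 = lins 0 (cap 0 σ.1) := act_eq (by omega)
    have hc : (cap 0 σ.1).length + 2 = σ.1.length := length_cap (by omega)
    set u := cap 0 σ.1 with hu
    have key : ∀ j : ℕ, j + 1 ≤ m → (word m (fun _ => true) 0 (j + 1) σ).1 = lins j u := by
      intro j hj
      induction j with
      | zero =>
        have : word m (fun _ => true) 0 (0 + 1) σ = E m (0 + 0) σ := by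
          simp [word]
        rw [this, E_val, h0]
      | succ j ih =>
        have h1 := ih (by omega)
        have : word m (fun _ => true) 0 (j + 1 + 1) σ =
            E m (0 + (j + 1)) (word m (fun _ => true) 0 (j + 1) σ) := by
          rw [word, if_pos rfl]
        rw [this, E_val, h1, Nat.zero_add]
        have hlu : (lins j u).length = m + 1 := by
          rw [← h1]
          exact (word m (fun _ => true) 0 (j + 1) σ).2.1
        rw [act_eq (by omega), cap_succ_lins (by omega)]
    obtain ⟨m', rfl⟩ : ∃ m', m = m' + 1 := ⟨m - 1, by omega⟩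
    apply Subtype.ext
    have hlu : u.length = m' := by omega
    rw [rot_val, rot_val, key m' le_rfl, E_val, h0, ← hlu, rotr_lins_last, rotr_seam]

end Pool.Agent.H863R2.Cyl
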