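import Pool.Agent.H863R2.Cyl.Rel

/-!
# The transfer maps (port of helper974's module Trans)
-/

set_option autoImplicit false
set_option maxHeartbeats 400000

namespace Pool.Agent.H863R2.Cyl
open Equiv

/-! ### one plaquette and words -/

/-- one plaquette -/
noncomputable def st (m : ℕ) (c : Fin (m + 1) → Bool) (a : ℕ) (σ : Wd (m + 1)) : Wd (m + 1) :=
  if c (ix m (a + 1)) = true then E m a σ else σ

theorem word_zero (m : ℕ) (c : Fin (m + 1) → Bool) (k : ℕ) (σ : Wd (m + 1)) :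
    word m c k 0 σ = σ := rfl

theorem word_succ (m : ℕ) (c : Fin (m + 1) → Bool) (k j : ℕ) (σ : Wd (m + 1)) :
    word m c k (j + 1) σ = st m c (k + j) (word m c k j σ) := rfl

theorem st_true {m : ℕ} {c : Fin (m + 1) → Bool} {a : ℕ} (h : c (ix m (a + 1)) = true)
    (σ : Wd (m + 1)) : st m c a σ = E m a σ := if_pos h

theorem st_false {m : ℕ} {c : Fin (m + 1) → Bool} {a : ℕ} (h : c (ix m (a + 1)) = false)
    (σ : Wd (m + 1)) : st m c a σ = σ := if_neg (by rw [h]; simp)

theorem word_add (m : ℕ) (c : Fin (m + 1) → Bool) (k j₁ j₂ : ℕ) (σ : Wd (m + 1)) :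
    word m c k (j₁ + j₂) σ = word m c (k + j₁) j₂ (word m c k j₁ σ) := by
  induction j₂ with
  | zero => rfl
  | succ j ih => rw [← Nat.add_assoc, word_succ, word_succ, ih, Nat.add_assoc]

theorem word_succ' (m : ℕ) (c : Fin (m + 1) → Bool) (k j : ℕ) (σ : Wd (m + 1)) :
    word m c k (j + 1) σ = word m c (k + 1) j (st m c k σ) := by
  rw [Nat.add_comm j 1, word_add]
  rfl

theorem st_per (m : ℕ) (c : Fin (m + 1) → Bool) (a : ℕ) (σ : Wd (m + 1)) :
    st m c (a + (m + 1)) σ = st m c a σ := by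
  unfold st
  rw [show a + (m + 1) + 1 = (a + 1) + (m + 1) by ring, ix_add, E_per]

theorem word_per (m : ℕ) (c : Fin (m + 1) → Bool) (k j : ℕ) (σ : Wd (m + 1)) :
    word m c (k + (m + 1)) j σ = word m c k j σ := by
  induction j with
  | zero => rfl
  | succ j ih =>
    rw [word_succ, word_succ, ih, show k + (m + 1) + j = (k + j) + (m + 1) by ring, st_per]

theorem E_st_comm {m : ℕ} (c : Fin (m + 1) → Bool) {a b : ℕ}
    (h : (a + 2 ≤ b ∧ b + 2 ≤ a + (m + 1)) ∨ (b + 2 ≤ a ∧ a + 2 ≤ b + (m + 1)))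
    (σ : Wd (m + 1)) : E m a (st m c b σ) = st m c b (E m a σ) := by
  unfold st
  split_ifs
  · rcases h with ⟨h1, h2⟩ | ⟨h1, h2⟩
    · exact E_comm h1 h2 σ
    · exact (E_comm h1 h2 σ).symm
  · rfl

theorem E_word_comm {m : ℕ} (c : Fin (m + 1) → Bool) {a k j : ℕ}
    (h : (a + 2 ≤ k ∧ k + j + 1 ≤ a + (m + 1)) ∨ (k + j + 1 ≤ a ∧ a + 2 ≤ k + (m + 1)))
    (σ : Wd (m + 1)) : E m a (word m c k j σ) = word m c k j (E m a σ) := by
  induction j with
  | zero => rfl
  | succ j ih =>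
    rw [word_succ, word_succ, E_st_comm c (by omega), ih (by omega)]

theorem st_word_comm {m : ℕ} (c : Fin (m + 1) → Bool) {a k j : ℕ}
    (h : (a + 2 ≤ k ∧ k + j + 1 ≤ a + (m + 1)) ∨ (k + j + 1 ≤ a ∧ a + 2 ≤ k + (m + 1)))
    (σ : Wd (m + 1)) : st m c a (word m c k j σ) = word m c k j (st m c a σ) := by
  unfold st
  split_ifs
  · exact E_word_comm c h σ
  · rfl

theorem word_comm {m : ℕ} (c : Fin (m + 1) → Bool) {k j k' j' : ℕ}
    (h1 : k + j + 1 ≤ k') (h2 : k' + j' + 1 ≤ k + (m + 1)) (σ : Wd (m + 1)) :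
    word m c k' j' (word m c k j σ) = word m c k j (word m c k' j' σ) := by
  induction j' with
  | zero => rfl
  | succ j' ih =>
    rw [word_succ, word_succ, ih (by omega), st_word_comm c (by omega)]

theorem word_congr {m : ℕ} {c c' : Fin (m + 1) → Bool} {k j : ℕ}
    (h : ∀ t, k + 1 ≤ t → t ≤ k + j → c (ix m t) = c' (ix m t)) (σ : Wd (m + 1)) :
    word m c k j σ = word m c' k j σ := by
  induction j with
  | zero => rfl
  | succ j ih =>
    rw [word_succ, word_succ, ih (fun t h1 h2 => h t h1 (by omega))]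
    unfold st
    rw [h (k + j + 1) (by omega) (by omega)]

/-! ### independence of the starting point -/

theorem word_indep_lt {m : ℕ} (c : Fin (m + 1) → Bool) {k k' : ℕ} (hk : c (ix m k) = false)
    (hk' : c (ix m k') = false) (h1 : k < k') (h2 : k' < k + (m + 1)) (σ : Wd (m + 1)) :
    word m c k m σ = word m c k' m σ := by
  obtain ⟨j, rfl⟩ : ∃ j, k' = k + j + 1 := ⟨k' - k - 1, by omega⟩
  obtain ⟨n, rfl⟩ : ∃ n, m = j + 1 + n := ⟨m - j - 1, by omega⟩
  have e1 : word (j + 1 + n) c k (j + 1 + n) σ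
      = word (j + 1 + n) c (k + j + 1) n (word (j + 1 + n) c k j σ) := by
    rw [word_add, word_succ, st_false hk']
    rfl
  have e2 : word (j + 1 + n) c (k + j + 1) (n + 1 + j) σ
      = word (j + 1 + n) c k j (word (j + 1 + n) c (k + j + 1) n σ) := by
    rw [word_add, word_succ, st_false, show k + j + 1 + (n + 1) = k + (j + 1 + n + 1) by ring,
      word_per]
    rw [show k + j + 1 + n + 1 = k + (j + 1 + n + 1) by ring, ix_add, hk]
  have e3 : word (j + 1 + n) c (k + j + 1) (j + 1 + n) σ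
      = word (j + 1 + n) c (k + j + 1) (n + 1 + j) σ := by
    congr 1
    ring
  rw [e1, e3, e2]
  exact word_comm c (by omega) (by omega) σ

theorem ix_mod (m k : ℕ) : ix m (k % (m + 1)) = ix m k := by
  unfold ix
  congr 1
  exact Nat.mod_mod _ _

theorem word_mod (m : ℕ) (c : Fin (m + 1) → Bool) (k j : ℕ) (σ : Wd (m + 1)) :
    word m c (k % (m + 1)) j σ = word m c k j σ := by
  conv_rhs => rw [← Nat.mod_add_div k (m + 1)]
  generalize k / (m + 1) = t
  generalize k % (m + 1) = a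
  induction t with
  | zero => simp only [Nat.mul_zero, Nat.add_zero]
  | succ t ih => rw [Nat.mul_succ, ← Nat.add_assoc, word_per, ih]

theorem Tc_eq {m : ℕ} {c : Fin (m + 1) → Bool} {k : ℕ} (hk : c (ix m k) = false)
    (σ : Wd (m + 1)) : Tc m c σ = rot m (word m c k m σ) := by
  classical
  have hk2 : c (ix m (k % (m + 1))) = false := by rw [ix_mod, hk]
  have hk3 : k % (m + 1) < m + 1 := Nat.mod_lt _ (Nat.succ_pos m)
  have h : ∃ k : ℕ, k < m + 1 ∧ c (ix m k) = false := ⟨_, hk3, hk2⟩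
  unfold Tc
  rw [dif_pos h, ← word_mod m c k]
  congr 1
  have h0 := Nat.find_spec h
  rcases lt_trichotomy (Nat.find h) (k % (m + 1)) with h1 | h1 | h1
  · exact word_indep_lt c h0.2 hk2 h1 (by omega) σ
  · rw [h1]
  · exact (word_indep_lt c hk2 h0.2 h1 (by omega) σ).symm

theorem Tc_true {m : ℕ} {c : Fin (m + 1) → Bool} (h : ∀ k, c (ix m k) = true)
    (σ : Wd (m + 1)) : Tc m c σ = rotInv m σ := by
  classical
  unfold Tc
  rw [dif_neg]
  rintro ⟨k, -, hk⟩
  rw [h k] at hk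
  exact absurd hk (by simp)

/-! ### rotation -/

theorem ix_val_self {m : ℕ} (j : Fin (m + 1)) : ix m j.val = j := by
  apply Fin.ext
  exact Nat.mod_eq_of_lt j.2

theorem finRotate_ix (m k : ℕ) : finRotate (m + 1) (ix m k) = ix m (k + 1) := by
  rw [finRotate_apply]
  apply Fin.ext
  rw [Fin.val_add, Fin.val_one']
  exact (Nat.add_mod k 1 (m + 1)).symm

theorem rot_word {m : ℕ} {c c' : Fin (m + 1) → Bool} (h : ∀ t, c' (ix m (t + 1)) = c (ix m t))
    (k j : ℕ) (σ : Wd (m + 1)) :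
    rot m (word m c k j σ) = word m c' (k + 1) j (rot m σ) := by
  induction j with
  | zero => rfl
  | succ j ih =>
    rw [word_succ, word_succ, ← ih]
    unfold st
    rw [show k + 1 + j + 1 = (k + j + 1) + 1 by ring, h]
    split_ifs
    · rw [rot_E, show k + 1 + j = k + j + 1 by ring]
    · rfl

theorem Tc_rot_aux {m : ℕ} {c c' : Fin (m + 1) → Bool}
    (hc : ∀ t, c' (ix m (t + 1)) = c (ix m t)) (σ : Wd (m + 1)) :
    Tc m c' (rot m σ) = rot m (Tc m c σ) := by
  by_cases h : ∃ k, c (ix m k) = false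
  · obtain ⟨k, hk⟩ := h
    rw [Tc_eq hk, Tc_eq (k := k + 1) (by rw [hc]; exact hk), rot_word hc]
  · have h2 : ∀ k, c (ix m k) = true := by
      intro k
      cases hh : c (ix m k) with
      | true => rfl
      | false => exact absurd ⟨k, hh⟩ h
    rw [Tc_true h2, Tc_true, rotInv_rot, rot_rotInv]
    intro k
    rw [← ix_add, show k + (m + 1) = (k + m) + 1 by ring, hc, h2]

theorem Tc_rot (m : ℕ) (c : Fin (m + 1) → Bool) (σ : Wd (m + 1)) :
    Tc m (fun j => c ((finRotate (m + 1)).symm j)) (rot m σ) = rot m (Tc m c σ) := by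
  apply Tc_rot_aux
  intro t
  rw [← finRotate_ix, Equiv.symm_apply_apply]

/-! ### relations -/

/-- the state with the entries at `i`, `i+1` replaced by `a`, `b` -/
def upd2 {m : ℕ} (c : Fin (m + 1) → Bool) (i : ℕ) (a b : Bool) : Fin (m + 1) → Bool :=
  Function.update (Function.update c (ix m i) a) (ix m (i + 1)) b

theorem ix_ne {m i t : ℕ} (h1 : i < t) (h2 : t < i + (m + 1)) : ix m t ≠ ix m i := by
  intro h
  have h3 : t % (m + 1) = i % (m + 1) := congrArg Fin.val h
  have h4 : (m + 1) ∣ t - i := (Nat.modEq_iff_dvd' h1.le).1 h3.symm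
  have h5 := Nat.le_of_dvd (by omega) h4
  omega

theorem upd2_left {m : ℕ} (hm : 1 ≤ m) (c : Fin (m + 1) → Bool) (i : ℕ) (a b : Bool) :
    upd2 c i a b (ix m i) = a := by
  unfold upd2
  rw [Function.update_of_ne (ix_ne (by omega) (by omega)).symm, Function.update_self]

theorem upd2_right {m : ℕ} (c : Fin (m + 1) → Bool) (i : ℕ) (a b : Bool) :
    upd2 c i a b (ix m (i + 1)) = b := by
  unfold upd2
  rw [Function.update_self]

theorem upd2_other {m : ℕ} (c : Fin (m + 1) → Bool) (i : ℕ) (a b : Bool) {t : ℕ}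
    (h1 : i + 2 ≤ t) (h2 : t ≤ i + m) : upd2 c i a b (ix m t) = c (ix m t) := by
  unfold upd2
  rw [Function.update_of_ne (ix_ne (by omega) (by omega)),
    Function.update_of_ne (ix_ne (by omega) (by omega))]

/-- the common part of all four words -/
noncomputable def VV (n : ℕ) (c : Fin (n + 2) → Bool) (i : ℕ) (σ : Wd (n + 2)) : Wd (n + 2) :=
  word (n + 1) c (i + 1) n σ

theorem VV_upd2 {n : ℕ} (c : Fin (n + 2) → Bool) (i : ℕ) (a b : Bool) (σ : Wd (n + 2)) :
    word (n + 1) (upd2 (m := n + 1) c i a b) (i + 1) n σ = VV n c i σ := by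
  unfold VV
  apply word_congr
  intro t h1 h2
  exact upd2_other (m := n + 1) c i a b (by omega) (by omega)

theorem Tc00 {n : ℕ} (c : Fin (n + 2) → Bool) (i : ℕ) (σ : Wd (n + 2)) :
    Tc (n + 1) (upd2 (m := n + 1) c i false false) σ = rot (n + 1) (VV n c i σ) := by
  rw [Tc_eq (k := i) (upd2_left (m := n + 1) (by omega) c i _ _), word_succ',
    st_false (upd2_right (m := n + 1) c i _ _), VV_upd2]

theorem Tc01 {n : ℕ} (c : Fin (n + 2) → Bool) (i : ℕ) (σ : Wd (n + 2)) :
    Tc (n + 1) (upd2 (m := n + 1) c i false true) σ = rot (n + 1) (VV n c i (E (n + 1) i σ)) := by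
  rw [Tc_eq (k := i) (upd2_left (m := n + 1) (by omega) c i _ _), word_succ',
    st_true (upd2_right (m := n + 1) c i _ _), VV_upd2]

theorem E_rot (m i : ℕ) (σ : Wd (m + 1)) : rot m (E m (i + m) σ) = E m i (rot m σ) := by
  rw [rot_E, Nat.add_assoc, E_per]

theorem Tc10 {n : ℕ} (c : Fin (n + 2) → Bool) (i : ℕ) (σ : Wd (n + 2)) :
    Tc (n + 1) (upd2 (m := n + 1) c i true false) σ = E (n + 1) i (rot (n + 1) (VV n c i σ)) := by
  rw [Tc_eq (k := i + 1) (upd2_right (m := n + 1) c i _ _), word_succ, st_true, VV_upd2,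
    ← E_rot, show i + 1 + n = i + (n + 1) by ring]
  rw [show i + 1 + n + 1 = i + (n + 1 + 1) by ring, ix_add]
  exact upd2_left (m := n + 1) (by omega) c i _ _

/-- the words with both plaquettes true -/
theorem Tc11 {n : ℕ} (c : Fin (n + 2) → Bool) (i : ℕ) :
    (∃ P Q : Wd (n + 2) → Wd (n + 2),
      (∀ σ, Tc (n + 1) (upd2 (m := n + 1) c i true true) σ
        = rot (n + 1) (P (E (n + 1) i (E (n + 1) (i + (n + 1)) (Q σ))))) ∧
      (∀ σ, P (Q σ) = VV n c i σ) ∧ (∀ σ, Q (E (n + 1) i σ) = E (n + 1) i (Q σ)) ∧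
      (∀ σ, P (E (n + 1) (i + (n + 1)) σ) = E (n + 1) (i + (n + 1)) (P σ)) ∧
      (∀ σ, Q (P σ) = P (Q σ))) ∨
    ((∀ σ, Tc (n + 1) (upd2 (m := n + 1) c i true true) σ = rotInv (n + 1) σ) ∧
      ∀ σ, VV n c i σ = word (n + 1) (fun _ => true) (i + 1) n σ) := by
  by_cases h : ∃ k, i + 2 ≤ k ∧ k ≤ i + (n + 1) ∧ c (ix (n + 1) k) = false
  · left
    obtain ⟨k, h1, h2, h3⟩ := h
    obtain ⟨j, rfl⟩ : ∃ j, k = i + 1 + j + 1 := ⟨k - i - 2, by omega⟩
    obtain ⟨l, rfl⟩ : ∃ l, n = j + 1 + l := ⟨n - j - 1, by omega⟩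
    refine ⟨word _ c (i + 1) j, word _ c (i + 1 + j + 1) l, ?_, ?_, ?_, ?_, ?_⟩
    · intro σ
      have h4 : upd2 (m := j + 1 + l + 1) c i true true (ix (j + 1 + l + 1) (i + 1 + j + 1))
          = false := by
        rw [upd2_other c i true true (by omega) (by omega), h3]
      rw [Tc_eq h4]
      have e1 : word (j + 1 + l + 1) (upd2 (m := j + 1 + l + 1) c i true true) (i + 1 + j + 1)
          (j + 1 + l + 1) σ
          = word (j + 1 + l + 1) (upd2 (m := j + 1 + l + 1) c i true true) (i + 1 + j + 1)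
          (l + 1 + 1 + j) σ := by
        congr 1
        ring
      rw [e1, word_add, word_succ, word_succ]
      rw [st_true (a := i + 1 + j + 1 + l), st_true (a := i + 1 + j + 1 + (l + 1))]
      · congr 1
        rw [show i + 1 + j + 1 + (l + 1 + 1) = (i + 1) + (j + 1 + l + 1 + 1) by ring, word_per]
        rw [show i + 1 + j + 1 + (l + 1) = i + (j + 1 + l + 1 + 1) by ring, E_per]
        rw [show i + 1 + j + 1 + l = i + (j + 1 + l + 1) by ring]
        rw [word_congr (c' := c) (k := i + 1) (j := j), word_congr (c' := c) (j := l)]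
        · intro t ht1 ht2
          exact upd2_other (m := j + 1 + l + 1) c i _ _ (by omega) (by omega)
        · intro t ht1 ht2
          exact upd2_other (m := j + 1 + l + 1) c i _ _ (by omega) (by omega)
      · rw [show i + 1 + j + 1 + (l + 1) + 1 = (i + 1) + (j + 1 + l + 1 + 1) by ring, ix_add]
        exact upd2_right (m := j + 1 + l + 1) c i _ _
      · rw [show i + 1 + j + 1 + l + 1 = i + (j + 1 + l + 1 + 1) by ring, ix_add]
        exact upd2_left (m := j + 1 + l + 1) (by omega) c i _ _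
    · intro σ
      unfold VV
      rw [word_add, word_succ, st_false h3, ← word_comm c (by omega) (by omega)]
      rfl
    · intro σ
      exact (E_word_comm c (by omega) σ).symm
    · intro σ
      exact (E_word_comm c (by omega) σ).symm
    · intro σ
      exact word_comm c (by omega) (by omega) σ
  · right
    have hc : ∀ t, i + 2 ≤ t → t ≤ i + (n + 1) → c (ix (n + 1) t) = true := by
      intro t h1 h2
      cases hh : c (ix (n + 1) t) with
      | true => rfl
      | false => exact absurd ⟨t, h1, h2, hh⟩ h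
    refine ⟨?_, ?_⟩
    · intro σ
      apply Tc_true
      intro k
      -- reduce `k` to the window `i, …, i + n + 1`
      obtain ⟨t, ht1, ht2, ht3⟩ : ∃ t, i ≤ t ∧ t < i + (n + 2) ∧ ix (n + 1) k = ix (n + 1) t := by
        refine ⟨i + (k + (n + 2) * i - i) % (n + 2), by omega, ?_, ?_⟩
        · have := Nat.mod_lt (k + (n + 2) * i - i) (show 0 < n + 2 by omega)
          omega
        · apply Fin.ext
          change k % (n + 2) = (i + (k + (n + 2) * i - i) % (n + 2)) % (n + 2)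
          have h5 : i ≤ (n + 2) * i := Nat.le_mul_of_pos_left i (by omega)
          rw [Nat.add_mod_mod, show i + (k + (n + 2) * i - i) = k + (n + 2) * i by omega,
            Nat.add_mul_mod_self_left]
      rw [ht3]
      by_cases h1 : t = i
      · rw [h1]
        exact upd2_left (m := n + 1) (by omega) c i _ _
      · by_cases h2 : t = i + 1
        · rw [h2]
          exact upd2_right (m := n + 1) c i _ _
        · rw [upd2_other (m := n + 1) c i _ _ (by omega) (by omega)]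
          exact hc t (by omega) (by omega)
    · intro σ
      unfold VV
      apply word_congr
      intro t h1 h2
      exact hc t (by omega) (by omega)

theorem rot_inj {m : ℕ} {σ τ : Wd (m + 1)} (h : rot m σ = rot m τ) : σ = τ := by
  rw [← rotInv_rot m σ, h, rotInv_rot]

theorem rot_long' (m i : ℕ) (σ : Wd (m + 1)) :
    rot m (rot m (word m (fun _ => true) i m σ)) = E m i σ := by
  induction i generalizing σ with
  | zero => exact rot_long m σ
  | succ i ih =>
    have h := ih (rotInv m σ)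
    have h2 := congrArg (rot m) h
    rw [rot_E, rot_rotInv] at h2
    rw [← h2, rot_word (c' := fun _ => true) (fun _ => rfl) i m (rotInv m σ), rot_rotInv]

theorem E_Tc00 {m : ℕ} (hm : 2 ≤ m) (i : ℕ) (c : Fin (m + 1) → Bool) (σ : Wd (m + 1)) :
    E m i (Tc m (upd2 c i false false) σ) = Tc m (upd2 c i true false) σ := by
  obtain ⟨n, rfl⟩ : ∃ n, m = n + 1 := ⟨m - 1, by omega⟩
  rw [Tc00, Tc10]

theorem E_Tc10 {m : ℕ} (hm : 2 ≤ m) (i : ℕ) (c : Fin (m + 1) → Bool) (σ : Wd (m + 1)) :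
    E m i (Tc m (upd2 c i true false) σ) = Tc m (upd2 c i true false) σ := by
  obtain ⟨n, rfl⟩ : ∃ n, m = n + 1 := ⟨m - 1, by omega⟩
  rw [Tc10, E_idem]

theorem E_Tc11 {m : ℕ} (hm : 2 ≤ m) (i : ℕ) (c : Fin (m + 1) → Bool) (σ : Wd (m + 1)) :
    E m i (Tc m (upd2 c i true true) σ) = Tc m (upd2 c i true false) σ := by
  obtain ⟨n, rfl⟩ : ∃ n, m = n + 1 := ⟨m - 1, by omega⟩
  rw [Tc10]
  rcases Tc11 c i with ⟨P, Q, h1, h2, h3, h4, h5⟩ | ⟨h1, h2⟩
  · rw [h1, ← E_rot, ← E_rot, ← h4]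
    have h6 := E_braid hm (i + (n + 1)) (Q σ)
    rw [Nat.add_assoc i (n + 1) 1, E_per] at h6
    rw [h6, h4, h2]
  · rw [h1, h2]
    apply rot_inj
    have h3 := rot_long' (n + 1) (i + 1) σ
    rw [word_succ, st_true rfl] at h3
    rw [show i + 1 + n = i + (n + 1) by ring, E_rot] at h3
    rw [h3, rot_E, rot_rotInv]

theorem E_Tc01 {m : ℕ} (hm : 2 ≤ m) (i : ℕ) (c : Fin (m + 1) → Bool) (σ : Wd (m + 1)) :
    E m i (Tc m (upd2 c i false true) σ) = Tc m (upd2 c i true false) (E m i σ) := by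
  obtain ⟨n, rfl⟩ : ∃ n, m = n + 1 := ⟨m - 1, by omega⟩
  rw [Tc01, Tc10]

theorem Tc_E00 {m : ℕ} (hm : 2 ≤ m) (i : ℕ) (c : Fin (m + 1) → Bool) (σ : Wd (m + 1)) :
    Tc m (upd2 c i false false) (E m i σ) = Tc m (upd2 c i false true) σ := by
  obtain ⟨n, rfl⟩ : ∃ n, m = n + 1 := ⟨m - 1, by omega⟩
  rw [Tc01, Tc00]

theorem Tc_E01 {m : ℕ} (hm : 2 ≤ m) (i : ℕ) (c : Fin (m + 1) → Bool) (σ : Wd (m + 1)) :
    Tc m (upd2 c i false true) (E m i σ) = Tc m (upd2 c i false true) σ := by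
  obtain ⟨n, rfl⟩ : ∃ n, m = n + 1 := ⟨m - 1, by omega⟩
  rw [Tc01, Tc01, E_idem]

theorem Tc_E11 {m : ℕ} (hm : 2 ≤ m) (i : ℕ) (c : Fin (m + 1) → Bool) (σ : Wd (m + 1)) :
    Tc m (upd2 c i true true) (E m i σ) = Tc m (upd2 c i false true) σ := by
  obtain ⟨n, rfl⟩ : ∃ n, m = n + 1 := ⟨m - 1, by omega⟩
  rw [Tc01]
  rcases Tc11 c i with ⟨P, Q, h1, h2, h3, h4, h5⟩ | ⟨h1, h2⟩
  · rw [h1, h3]
    have h6 := E_braid' hm (i + (n + 1)) (Q σ)
    rw [Nat.add_assoc i (n + 1) 1] at h6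
    simp only [E_per] at h6
    rw [h6, ← h3, h2]
  · rw [h1, h2]
    apply rot_inj
    have h3 := rot_long' (n + 1) i σ
    rw [word_succ', st_true rfl] at h3
    rw [h3, rot_rotInv]


end Pool.Agent.H863R2.Cyl
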