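import Pool.Agent.H863R2.Cyl.Rel

namespace Pool.Agent.H863R2.Cyl
open Pool.Agent.H988R2.Perc (Word flipR flipL rem firstArc PD)

/-!
# Module E: the triangular structure of the cyclic words
-/

/-- height after a word -/
def hgt (w : Word) : ℤ := (w.map (fun b => if b then (1 : ℤ) else -1)).sum

/-- Dyck words (non-negative prefixes, total height zero) -/
def DyckW (w : Word) : Prop := hgt w = 0 ∧ ∀ k, 0 ≤ hgt (w.take k)

/-- good words: a Dyck word, followed by the defect if the length is odd -/
def Good (w : Word) : Prop := DyckW (w.take (2 * (w.length / 2)))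

/-- the area under the path, as a natural number -/
def area (w : Word) : ℕ := (∑ k ∈ Finset.range (w.length + 1), (hgt (w.take k) + w.length)).toNat

namespace TriAux

theorem hgt_nil : hgt [] = 0 := rfl
theorem hgt_true (w : Word) : hgt (true :: w) = 1 + hgt w := by simp [hgt]
theorem hgt_false (w : Word) : hgt (false :: w) = -1 + hgt w := by simp [hgt]
theorem hgt_append (u v : Word) : hgt (u ++ v) = hgt u + hgt v := by simp [hgt]

theorem hgt_count (w : Word) : hgt w = 2 * (w.count true : ℤ) - w.length := by
  induction w with
  | nil => simp [hgt]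
  | cons x w ih =>
    cases x
    · rw [hgt_false, ih]; simp; ring
    · rw [hgt_true, ih]; simp; ring

theorem hgt_reverse (w : Word) : hgt w.reverse = hgt w := by
  rw [hgt_count, hgt_count]; simp

theorem hgt_ok {w : Word} (h : Ok w) : hgt w = (w.length % 2 : ℕ) := by
  rw [hgt_count, h]; omega

theorem hgt_le (w : Word) : hgt w ≤ w.length := by
  rw [hgt_count]
  have := List.count_le_length (a := true) (l := w)
  omega

theorem le_hgt (w : Word) : -(w.length : ℤ) ≤ hgt w := by
  rw [hgt_count]; omega

theorem hgt_take_le (w : Word) (k : ℕ) : hgt (w.take k) ≤ w.length := by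
  have h1 := hgt_le (w.take k)
  have h2 : (w.take k).length ≤ w.length := by simp
  omega

theorem le_hgt_take (w : Word) (k : ℕ) : -(w.length : ℤ) ≤ hgt (w.take k) := by
  have h1 := le_hgt (w.take k)
  have h2 : (w.take k).length ≤ w.length := by simp
  omega

/-- the basic local move -/
theorem dom (p A s : Word) (k : ℕ) :
    hgt ((p ++ false :: (A ++ true :: s)).take k) ≤ hgt ((p ++ true :: (A ++ false :: s)).take k) := by
  rw [List.take_append, List.take_append, hgt_append, hgt_append]
  rcases Nat.lt_or_ge k (p.length + 1) with h | h
  · have : k - p.length = 0 := by omega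
    simp [this]
  · obtain ⟨j, hj⟩ : ∃ j, k - p.length = j + 1 := ⟨k - p.length - 1, by omega⟩
    rw [hj, List.take_succ_cons, List.take_succ_cons, hgt_true, hgt_false, List.take_append,
      List.take_append, hgt_append, hgt_append]
    rcases Nat.lt_or_ge j (A.length + 1) with h' | h'
    · have : j - A.length = 0 := by omega
      simp [this]
    · obtain ⟨l, hl⟩ : ∃ l, j - A.length = l + 1 := ⟨j - A.length - 1, by omega⟩
      rw [hl, List.take_succ_cons, List.take_succ_cons, hgt_true, hgt_false]
      omega

theorem dom_eq (p A s : Word) (k : ℕ) (hk : p.length + A.length + 2 ≤ k) :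
    hgt ((p ++ false :: (A ++ true :: s)).take k) = hgt ((p ++ true :: (A ++ false :: s)).take k) := by
  rw [List.take_append, List.take_append, hgt_append, hgt_append]
  obtain ⟨j, hj⟩ : ∃ j, k - p.length = j + 1 := ⟨k - p.length - 1, by omega⟩
  rw [hj, List.take_succ_cons, List.take_succ_cons, hgt_true, hgt_false, List.take_append,
    List.take_append, hgt_append, hgt_append]
  obtain ⟨l, hl⟩ : ∃ l, j - A.length = l + 1 := ⟨j - A.length - 1, by omega⟩
  rw [hl, List.take_succ_cons, List.take_succ_cons, hgt_true, hgt_false]
  omega

theorem dom_lt (p A s : Word) :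
    hgt ((p ++ false :: (A ++ true :: s)).take (p.length + 1)) <
      hgt ((p ++ true :: (A ++ false :: s)).take (p.length + 1)) := by
  rw [List.take_append, List.take_append, hgt_append, hgt_append]
  have : p.length + 1 - p.length = 0 + 1 := by omega
  rw [this, List.take_succ_cons, List.take_succ_cons, hgt_true, hgt_false]
  simp only [List.take_zero]
  omega

theorem area_lt {w w' : Word} (hl : w.length = w'.length)
    (h : ∀ k, hgt (w.take k) ≤ hgt (w'.take k)) {k : ℕ} (hk : k ≤ w.length)
    (hlt : hgt (w.take k) < hgt (w'.take k)) : area w < area w' := by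
  unfold area
  have h1 : (∑ k ∈ Finset.range (w.length + 1), (hgt (w.take k) + w.length)) <
      (∑ k ∈ Finset.range (w'.length + 1), (hgt (w'.take k) + w'.length)) := by
    rw [hl]
    refine Finset.sum_lt_sum (fun k _ => by have := h k; omega) ⟨k, ?_, by omega⟩
    rw [Finset.mem_range]; omega
  have h0 : 0 ≤ (∑ k ∈ Finset.range (w.length + 1), (hgt (w.take k) + w.length)) := by
    refine Finset.sum_nonneg (fun k _ => ?_)
    have := le_hgt_take w k
    omega
  omega

theorem move_good {p A s : Word}
    (hN : p.length + A.length + 2 ≤ 2 * ((p ++ false :: (A ++ true :: s)).length / 2))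
    (hg : Good (p ++ false :: (A ++ true :: s))) :
    Good (p ++ true :: (A ++ false :: s)) ∧
      area (p ++ false :: (A ++ true :: s)) < area (p ++ true :: (A ++ false :: s)) := by
  have hl : (p ++ false :: (A ++ true :: s)).length = (p ++ true :: (A ++ false :: s)).length := by
    simp
  refine ⟨?_, ?_⟩
  · obtain ⟨h0, h1⟩ := hg
    refine ⟨?_, fun k => ?_⟩
    · rw [← hl, ← dom_eq _ _ _ _ hN]; exact h0
    · rw [← hl, List.take_take]
      have := h1 k
      rw [List.take_take] at this
      exact this.trans (dom _ _ _ _)
  · refine area_lt hl (dom p A s) ?_ (dom_lt p A s)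
    simp

theorem valley (w : Word) : (∃ u v, w = u ++ false :: true :: v) ∨
    ∃ a b, w = List.replicate a true ++ List.replicate b false := by
  induction w with
  | nil => exact Or.inr ⟨0, 0, rfl⟩
  | cons x w ih =>
    rcases ih with ⟨u, v, rfl⟩ | ⟨a, b, rfl⟩
    · exact Or.inl ⟨x :: u, v, rfl⟩
    · cases x
      · rcases a with _ | a
        · exact Or.inr ⟨0, b + 1, by simp [List.replicate_succ]⟩
        · exact Or.inl ⟨[], List.replicate a true ++ List.replicate b false, by
            simp [List.replicate_succ]⟩
      · exact Or.inr ⟨a + 1, b, by simp [List.replicate_succ]⟩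

theorem hgt_replicate_true (a : ℕ) : hgt (List.replicate a true) = a := by
  rw [hgt_count]; simp; ring

theorem hgt_replicate_false (a : ℕ) : hgt (List.replicate a false) = -a := by
  rw [hgt_count]; simp [List.count_replicate]

/-- first unmatched closing letter -/
theorem flipR_char (w : Word) (d : ℕ) (h : hgt w + d < 0) :
    ∃ A B : Word, w = A ++ false :: B ∧ flipR d w = A ++ true :: B ∧ hgt A + d = 0 ∧
      ∀ k, 0 ≤ hgt (A.take k) + d := by
  induction w generalizing d with
  | nil => simp [hgt] at h; omega
  | cons x w ih =>
    cases x
    · rw [hgt_false] at h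
      rcases d with _ | d
      · exact ⟨[], w, rfl, by simp [flipR], by simp [hgt], by simp [hgt]⟩
      · obtain ⟨A, B, h1, h2, h3, h4⟩ := ih d (by push_cast at h; omega)
        refine ⟨false :: A, B, by simp [h1], by simp [flipR, h2], ?_, ?_⟩
        · rw [hgt_false]; push_cast; omega
        · intro k
          rcases k with _ | k
          · simp only [List.take_zero, hgt_nil]; omega
          · rw [List.take_succ_cons, hgt_false]; have := h4 k; push_cast; omega
    · rw [hgt_true] at h
      obtain ⟨A, B, h1, h2, h3, h4⟩ := ih (d + 1) (by push_cast at h ⊢; omega)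
      refine ⟨true :: A, B, by simp [h1], by simp [flipR, h2], ?_, ?_⟩
      · rw [hgt_true]; push_cast at h3; omega
      · intro k
        rcases k with _ | k
        · simp only [List.take_zero, hgt_nil]; omega
        · rw [List.take_succ_cons, hgt_true]; have := h4 k; push_cast at this; omega

/-- first unmatched opening letter (reversed reading) -/
theorem flipL_char (w : Word) (d : ℕ) (h : 0 < hgt w - d) :
    ∃ A B : Word, w = A ++ true :: B ∧ flipL d w = A ++ false :: B ∧ hgt A - d = 0 ∧
      ∀ k, hgt (A.take k) - d ≤ 0 := by
  induction w generalizing d with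
  | nil => simp [hgt] at h; omega
  | cons x w ih =>
    cases x
    · rw [hgt_false] at h
      obtain ⟨A, B, h1, h2, h3, h4⟩ := ih (d + 1) (by push_cast at h ⊢; omega)
      refine ⟨false :: A, B, by simp [h1], by simp [flipL, h2], ?_, ?_⟩
      · rw [hgt_false]; push_cast at h3; omega
      · intro k
        rcases k with _ | k
        · simp only [List.take_zero, hgt_nil]; omega
        · rw [List.take_succ_cons, hgt_false]; have := h4 k; push_cast at this; omega
    · rw [hgt_true] at h
      rcases d with _ | d
      · exact ⟨[], w, rfl, by simp [flipL], by simp [hgt], by simp [hgt]⟩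
      · obtain ⟨A, B, h1, h2, h3, h4⟩ := ih d (by push_cast at h; omega)
        refine ⟨true :: A, B, by simp [h1], by simp [flipL, h2], ?_, ?_⟩
        · rw [hgt_true]; push_cast; omega
        · intro k
          rcases k with _ | k
          · simp only [List.take_zero, hgt_nil]; omega
          · rw [List.take_succ_cons, hgt_true]; have := h4 k; push_cast; omega

/-- the action in list form -/
theorem act_split (u v : Word) (x y : Bool) :
    ∃ u' v' : Word, u'.length = u.length ∧ v'.length = v.length ∧
      flipC x y (v ++ u) = v' ++ u' ∧ act u.length (u ++ x :: y :: v) = u' ++ true :: false :: v' := by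
  have hlen : (flipC x y (v ++ u)).length = v.length + u.length := by
    cases x <;> cases y <;> simp [flipC, Pool.Agent.H988R2.Perc.length_flipR,
      Pool.Agent.H988R2.Perc.length_flipL]
    omega
  refine ⟨(flipC x y (v ++ u)).drop v.length, (flipC x y (v ++ u)).take v.length, ?_, ?_, ?_, ?_⟩
  · rw [List.length_drop, hlen]; omega
  · rw [List.length_take, hlen]; omega
  · rw [List.take_append_drop]
  · unfold act
    have h1 : (u ++ x :: y :: v).rotate u.length = x :: y :: (v ++ u) := by
      rw [List.rotate_append_length_eq]; simp
    rw [h1]
    simp only [act0]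
    have h2 : (u ++ x :: y :: v).length - u.length % (u ++ x :: y :: v).length
        = (true :: false :: (flipC x y (v ++ u)).take v.length).length := by
      have : u.length < (u ++ x :: y :: v).length := by simp
      rw [Nat.mod_eq_of_lt this]
      simp only [List.length_append, List.length_cons, List.length_take, hlen]
      omega
    rw [h2]
    have h3 : true :: false :: flipC x y (v ++ u)
        = (true :: false :: (flipC x y (v ++ u)).take v.length) ++ (flipC x y (v ++ u)).drop v.length := by
      simp [List.take_append_drop]
    conv_lhs => rw [h3]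
    rw [List.rotate_append_length_eq]

theorem split_at {w : Word} {i : ℕ} (h : i + 2 ≤ w.length) :
    ∃ (u v : Word) (x y : Bool), w = u ++ x :: y :: v ∧ u.length = i := by
  refine ⟨w.take i, w.drop (i + 2), w[i], w[i + 1], ?_, by simp; omega⟩
  have h1 : w.drop i = w[i] :: w.drop (i + 1) := List.drop_eq_getElem_cons (by omega)
  have h2 : w.drop (i + 1) = w[i + 1] :: w.drop (i + 2) := List.drop_eq_getElem_cons (by omega)
  rw [← h2, ← h1, List.take_append_drop]

theorem area_le_list (w : Word) : area w ≤ 2 * (w.length + 1) * (w.length + 1) := by
  have h1 : (∑ k ∈ Finset.range (w.length + 1), (hgt (w.take k) + w.length)) ≤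
      ∑ k ∈ Finset.range (w.length + 1), (2 * (w.length + 1) : ℤ) := by
    refine Finset.sum_le_sum (fun k _ => ?_)
    have := hgt_take_le w k
    omega
  rw [Finset.sum_const, Finset.card_range, nsmul_eq_mul] at h1
  unfold area
  rw [Int.toNat_le]
  push_cast at h1 ⊢
  linarith

theorem good_baseW (N : ℕ) : Good (baseW N) := by
  have hl : (baseW N).length = N := by
    simp only [baseW, List.length_append, List.length_replicate]; omega
  have h1 : (baseW N).take (2 * ((baseW N).length / 2)) =
      List.replicate (N / 2) true ++ List.replicate (N / 2) false := by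
    rw [hl]
    unfold baseW
    rw [List.take_append_of_le_length (by simp; omega), List.take_of_length_le (by simp; omega)]
  unfold Good
  rw [h1]
  refine ⟨?_, fun k => ?_⟩
  · rw [hgt_append, hgt_replicate_true, hgt_replicate_false]; omega
  · rw [List.take_append, hgt_append, List.take_replicate, List.take_replicate,
      hgt_replicate_true, hgt_replicate_false]
    simp only [List.length_replicate]
    omega

theorem base_rotate {N i : ℕ} (hN : 2 ≤ N) (hi : i < N) (v : Word)
    (h : (baseW N).rotate i = true :: false :: v) : i + 1 = N / 2 := by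
  have hl : (baseW N).length = N := by
    simp only [baseW, List.length_append, List.length_replicate]; omega
  have h0 : ((baseW N).rotate i)[0]? = some true := by rw [h]; rfl
  have h1 : ((baseW N).rotate i)[1]? = some false := by rw [h]; rfl
  rw [List.getElem?_rotate (by omega)] at h0 h1
  rw [hl] at h0 h1
  rw [Nat.zero_add, Nat.mod_eq_of_lt hi] at h0
  have hT : ∀ j, (baseW N)[j]? = some true → j < N / 2 ∨ 2 * (N / 2) ≤ j := by
    intro j hj
    by_contra hc
    push Not at hc
    unfold baseW at hj
    rw [List.getElem?_append_left (by simp; omega), List.getElem?_append_right (by simp; omega),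
      List.getElem?_replicate] at hj
    simp at hj
  have hF : ∀ j, (baseW N)[j]? = some false → N / 2 ≤ j ∧ j < 2 * (N / 2) := by
    intro j hj
    by_contra hc
    unfold baseW at hj
    rcases Nat.lt_or_ge j (N / 2) with h' | h'
    · rw [List.getElem?_append_left (by simp; omega), List.getElem?_append_left (by simp; omega),
        List.getElem?_replicate] at hj
      simp at hj
    · rw [List.getElem?_append_right (by simp; omega), List.getElem?_replicate] at hj
      simp at hj
  have a0 := hT _ h0
  have a1 := hF _ h1
  rcases Nat.lt_or_ge (1 + i) N with h' | h'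
  · rw [Nat.mod_eq_of_lt h'] at a1
    omega
  · have : 1 + i = N := by omega
    rw [this, Nat.mod_self] at a1
    omega

theorem tri_list (N : ℕ) (w : Word) (hlen : w.length = N) (hok : Ok w) (hd : Good w)
    (hσ : w ≠ baseW N) :
    ∃ i, i + 1 < N ∧ act i w ≠ w ∧ Good (act i w) ∧ area w < area (act i w) ∧
      ∀ t : Word, t.length = N → Ok t → act i t = act i w → t ≠ w → t ≠ act i w →
        (Good t ∧ area w < area t) := by
  set h := N / 2 with hh
  have hd' := hd
  unfold Good at hd'
  rw [hlen] at hd'
  -- the word is `D ++ R`
  have hR : hgt (w.drop (2 * h)) = (N % 2 : ℕ) := by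
    have h1 := hgt_append (w.take (2 * h)) (w.drop (2 * h))
    rw [List.take_append_drop, hd'.1, hgt_ok hok, hlen] at h1
    omega
  have hR' : w.drop (2 * h) = List.replicate (N % 2) true := by
    have hl : (w.drop (2 * h)).length = N % 2 := by
      rw [List.length_drop, hlen]; omega
    rcases Nat.mod_two_eq_zero_or_one N with h0 | h0
    · rw [h0] at hl ⊢
      exact List.length_eq_zero_iff.mp hl
    · rw [h0] at hl hR ⊢
      obtain ⟨x, hx⟩ := List.length_eq_one_iff.mp hl
      rw [hx] at hR ⊢
      cases x
      · rw [hgt_false] at hR; simp [hgt] at hR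
      · rfl
  -- the valley
  have hval : ∃ u v, w = u ++ false :: true :: v ∧ u.length + 2 ≤ 2 * h := by
    rcases valley (w.take (2 * h)) with ⟨u, v, huv⟩ | ⟨a, b, hab⟩
    · refine ⟨u, v ++ w.drop (2 * h), ?_, ?_⟩
      · conv_lhs => rw [← List.take_append_drop (2 * h) w, huv]
        simp
      · have := congrArg List.length huv
        simp only [List.length_take, List.length_append, List.length_cons, hlen] at this
        omega
    · exfalso
      have h1 := hd'.1
      rw [hab, hgt_append, hgt_replicate_true, hgt_replicate_false] at h1
      have h2 := congrArg List.length hab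
      simp only [List.length_take, List.length_append, List.length_replicate, hlen] at h2
      apply hσ
      unfold baseW
      rw [← List.take_append_drop (2 * h) w, hR', hab]
      have ha : a = N / 2 := by omega
      have hb : b = N / 2 := by omega
      rw [ha, hb]
  obtain ⟨u, v, hw, hu⟩ := hval
  have hlv : u.length + v.length + 2 = N := by
    rw [← hlen, hw]; simp; omega
  -- the height at `u` is at least one
  have ha : 1 ≤ hgt u := by
    have h1 := hd'.2 (u.length + 1)
    rw [List.take_take, hw, min_eq_left (by omega)] at h1
    rw [List.take_append, List.take_of_length_le (by omega)] at h1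
    have : u.length + 1 - u.length = 0 + 1 := by omega
    rw [this, List.take_succ_cons, List.take_zero, hgt_append, hgt_false, hgt_nil] at h1
    omega
  have hu0 : ∀ k, 0 ≤ hgt (u.take k) := by
    intro k
    have h1 := hd'.2 (min k u.length)
    rw [List.take_take, hw, min_eq_left (by omega)] at h1
    rw [List.take_append_of_le_length (by omega)] at h1
    rcases Nat.le_total k u.length with h' | h'
    · rwa [min_eq_left h'] at h1
    · rw [min_eq_right h', List.take_length] at h1
      rwa [List.take_of_length_le h']
  -- the height of the rest of the Dyck part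
  have hv0 : hgt (v.take (2 * h - u.length - 2)) = - hgt u := by
    have h1 := hd'.1
    rw [hw, List.take_append, List.take_of_length_le (by omega), hgt_append] at h1
    obtain ⟨j, hj⟩ : ∃ j, 2 * h - u.length = j + 1 + 1 := ⟨2 * h - u.length - 2, by omega⟩
    rw [hj, List.take_succ_cons, List.take_succ_cons, hgt_false, hgt_true] at h1
    rw [hj]
    have : j + 1 + 1 - 2 = j := by omega
    rw [this]
    omega
  -- the image
  obtain ⟨u', v', hu', hv', hfl, hact⟩ := act_split u v false true
  have hfl' : v ++ u = v' ++ u' := hfl
  obtain ⟨e1, e2⟩ := List.append_inj hfl' hv'.symm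
  subst e1 e2
  have hgood := move_good (p := u) (A := []) (s := v) (by
    have : (u ++ false :: ([] ++ true :: v)).length = N := by rw [← hlen, hw]; rfl
    rw [this]; simpa using hu) (by simpa [hw] using hd)
  simp only [List.nil_append] at hgood
  have hE : act u.length w = u ++ true :: false :: v := by rw [hw, hact]
  refine ⟨u.length, by omega, ?_, ?_, ?_, ?_⟩
  · rw [hE, hw]
    simp
  · rw [hE]; exact hgood.1
  · rw [hE, hw]; exact hgood.2
  · intro t htl hto hτ hτσ hτπ
    rw [hE] at hτ hτπ
    obtain ⟨u1, v1, x, y, ht, hu1⟩ := split_at (w := t) (i := u.length) (by omega)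
    have hv1 : v1.length = v.length := by
      have := htl
      rw [ht] at this
      simp at this
      omega
    obtain ⟨u2, v2, hu2, hv2, hfl2, hact2⟩ := act_split u1 v1 x y
    rw [ht, ← hu1, hact2] at hτ
    obtain ⟨f1, f2⟩ := List.append_inj hτ (by omega)
    simp only [List.cons.injEq, true_and] at f2
    subst f1 f2
    have hht := hgt_ok hto
    rw [ht, hgt_append] at hht
    cases x <;> cases y
    · -- FF
      have hfl3 : (flipL 0 (v1 ++ u1).reverse).reverse = v2 ++ u2 := hfl2
      rw [hgt_false, hgt_false] at hht
      obtain ⟨A, B, g1, g2, g3, g4⟩ := flipL_char (v1 ++ u1).reverse 0 (by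
        rw [hgt_reverse, hgt_append]; push_cast; omega)
      rw [g2] at hfl3
      have g1' : v1 ++ u1 = (A ++ true :: B).reverse := by
        rw [← g1, List.reverse_reverse]
      have hfl4 : A ++ false :: B = u2.reverse ++ v2.reverse := by
        rw [← List.reverse_append, ← hfl3, List.reverse_reverse]
      rcases List.append_eq_append_iff.mp hfl4 with ⟨a', q1, q2⟩ | ⟨c', q1, q2⟩
      · rcases a' with _ | ⟨z, C⟩
        · exfalso
          rw [List.append_nil] at q1
          have := hgt_reverse u2
          rw [q1] at this
          push_cast at g3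
          omega
        · rw [List.cons_append, List.cons.injEq] at q2
          obtain ⟨rfl, q2⟩ := q2
          have q3 : u2 = C.reverse ++ false :: A.reverse := by
            have := congrArg List.reverse q1
            rw [List.reverse_reverse] at this
            rw [this]; simp
          have q4 : v1 ++ u1 = v2 ++ (C.reverse ++ true :: A.reverse) := by
            rw [g1', q2]; simp
          obtain ⟨p1, p2⟩ := List.append_inj q4 (by omega)
          have hw' : w = C.reverse ++ false :: ((A.reverse ++ [false]) ++ true :: v2) := by
            rw [hw, q3]; simp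
          have ht' : t = C.reverse ++ true :: ((A.reverse ++ [false]) ++ false :: v2) := by
            rw [ht, p1, p2]; simp
          rw [ht', hw']
          refine move_good ?_ (by rw [← hw']; exact hd)
          rw [← hw', hlen]
          have := congrArg List.length q3
          simp at this ⊢
          omega
      · exfalso
        have := g4 u2.length
        rw [q1, List.take_append_of_le_length (by simp), List.take_of_length_le (by simp),
          hgt_reverse] at this
        push_cast at this
        omega
    · exact absurd (by
        have : v1 ++ u1 = v2 ++ u2 := hfl2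
        obtain ⟨p1, p2⟩ := List.append_inj this (by omega)
        subst p1 p2
        rw [ht, hw]) hτσ
    · exact absurd (by
        have : v1 ++ u1 = v2 ++ u2 := hfl2
        obtain ⟨p1, p2⟩ := List.append_inj this (by omega)
        subst p1 p2
        exact ht) hτπ
    · -- TT
      have hfl3 : flipR 0 (v1 ++ u1) = v2 ++ u2 := hfl2
      rw [hgt_true, hgt_true] at hht
      obtain ⟨A, B, g1, g2, g3, g4⟩ := flipR_char (v1 ++ u1) 0 (by
        rw [hgt_append]; push_cast; omega)
      rw [g2] at hfl3
      have hA : A.length < 2 * h - u2.length - 2 := by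
        by_contra hc
        push Not at hc
        have k1 := g4 (2 * h - u2.length - 2)
        have k2 : v2.take (2 * h - u2.length - 2) = A.take (2 * h - u2.length - 2) := by
          have := congrArg (List.take (2 * h - u2.length - 2)) hfl3
          rw [List.take_append_of_le_length hc, List.take_append_of_le_length (by omega)] at this
          exact this.symm
        rw [← k2, hv0] at k1
        push_cast at k1
        omega
      rcases List.append_eq_append_iff.mp hfl3 with ⟨a', q1, q2⟩ | ⟨c', q1, q2⟩
      · rcases a' with _ | ⟨z, C⟩
        · exfalso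
          rw [List.append_nil] at q1
          rw [q1] at hlv
          omega
        · rw [List.cons_append, List.cons.injEq] at q2
          obtain ⟨rfl, q2⟩ := q2
          have q4 : v1 ++ u1 = (A ++ false :: C) ++ u2 := by
            rw [g1, q2]; simp
          obtain ⟨p1, p2⟩ := List.append_inj q4 (by rw [hv1, q1]; simp)
          have hw' : w = u2 ++ false :: ((true :: A) ++ true :: C) := by
            rw [hw, q1]; simp
          have ht' : t = u2 ++ true :: ((true :: A) ++ false :: C) := by
            rw [ht, p1, p2]; simp
          rw [ht', hw']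
          refine move_good ?_ (by rw [← hw']; exact hd)
          rw [← hw', hlen]
          simp
          omega
      · exfalso
        rw [q1] at hA
        simp at hA
        omega

/-- heights of a rotated word -/
theorem hgt_take_rotate (w : Word) (r k : ℕ) (hr : r ≤ w.length) (hk : k ≤ w.length) :
    hgt ((w.rotate r).take k) = hgt (w.take (r + k)) - hgt (w.take r) +
      hgt (w.take (r + k - w.length)) := by
  rw [List.rotate_eq_drop_append_take hr, List.take_append, hgt_append, List.take_take,
    List.length_drop]
  have h1 : hgt (w.take (r + k)) = hgt (w.take r) + hgt ((w.drop r).take k) := by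
    rw [List.take_add, hgt_append]
  have h2 : min (k - (w.length - r)) r = r + k - w.length := by omega
  rw [h2]
  omega

theorem hgt_step (w : Word) (k : ℕ) (hk : k < w.length) :
    hgt (w.take (k + 1)) = hgt (w.take k) + 1 ∨ hgt (w.take (k + 1)) = hgt (w.take k) - 1 := by
  rw [List.take_succ_eq_append_getElem hk, hgt_append]
  cases w[k]
  · right; simp [hgt]; rfl
  · left; simp [hgt]

theorem exists_good (w : Word) (hw : Ok w) (hN : 1 ≤ w.length) :
    ∃ r, r ≤ w.length ∧ Good (w.rotate r) := by
  have htot := hgt_ok hw
  have h0 : hgt (w.take 0) = 0 := by simp [hgt]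
  have hlast : hgt (w.take w.length) = (w.length % 2 : ℕ) := by rw [List.take_length]; exact htot
  rcases Nat.mod_two_eq_zero_or_one w.length with he | ho
  · -- even length
    obtain ⟨r, hr, hmin⟩ := Finset.exists_min_image (Finset.range (w.length + 1))
      (fun k => hgt (w.take k)) ⟨0, by simp⟩
    rw [Finset.mem_range] at hr
    refine ⟨r, by omega, ?_⟩
    have h2 : 2 * (w.length / 2) = w.length := by omega
    have hpos : ∀ k, k ≤ w.length → 0 ≤ hgt ((w.rotate r).take k) := by
      intro k hk
      rw [hgt_take_rotate w r k (by omega) hk]
      rcases Nat.lt_or_ge w.length (r + k) with h | h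
      · rw [List.take_of_length_le (show w.length ≤ r + k by omega), htot, he]
        have := hmin (r + k - w.length) (by rw [Finset.mem_range]; omega)
        push_cast
        omega
      · have h3 : r + k - w.length = 0 := by omega
        rw [h3, h0]
        have := hmin (r + k) (by rw [Finset.mem_range]; omega)
        omega
    unfold Good
    rw [List.length_rotate, h2]
    refine ⟨?_, fun k => ?_⟩
    · rw [List.take_of_length_le (by simp), hgt_count, (List.rotate_perm w r).count_eq]
      have := hgt_count w
      rw [htot, he] at this
      rw [List.length_rotate]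
      push_cast at this
      omega
    · rw [List.take_take]
      exact hpos _ (by omega)
  · -- odd length
    obtain ⟨r0, hr0, hmin0⟩ := Finset.exists_min_image (Finset.range w.length)
      (fun k => hgt (w.take k)) ⟨0, by simp; omega⟩
    obtain ⟨p, hp, hmax⟩ := Finset.exists_max_image
      ((Finset.range w.length).filter (fun k => hgt (w.take k) = hgt (w.take r0))) id
      ⟨r0, by simp at hr0 ⊢; exact hr0⟩
    rw [Finset.mem_filter, Finset.mem_range] at hp
    obtain ⟨hp1, hp2⟩ := hp
    have hA : ∀ k, k < w.length → hgt (w.take p) ≤ hgt (w.take k) := by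
      intro k hk
      rw [hp2]
      exact hmin0 k (by simpa using hk)
    have hB : ∀ k, p < k → k < w.length → hgt (w.take p) + 1 ≤ hgt (w.take k) := by
      intro k hk1 hk2
      have h1 := hA k hk2
      rcases lt_or_eq_of_le h1 with h | h
      · omega
      · exfalso
        have := hmax k (by
          rw [Finset.mem_filter, Finset.mem_range]; exact ⟨hk2, by rw [← h, hp2]⟩)
        simp at this
        omega
    have hp0 : hgt (w.take p) ≤ 0 := by
      have := hA 0 (by omega)
      rwa [h0] at this
    have hC : ∀ k, p < k → k ≤ w.length → hgt (w.take p) + 1 ≤ hgt (w.take k) := by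
      intro k hk1 hk2
      rcases Nat.lt_or_ge k w.length with h | h
      · exact hB k hk1 h
      · have : k = w.length := by omega
        rw [this, hlast, ho]
        push_cast
        omega
    have hD : hgt (w.take (p + 1)) = hgt (w.take p) + 1 := by
      have h1 := hC (p + 1) (by omega) (by omega)
      rcases hgt_step w p hp1 with h | h
      · exact h
      · omega
    refine ⟨p + 1, by omega, ?_⟩
    have h2 : 2 * (w.length / 2) = w.length - 1 := by omega
    have hpos : ∀ k, k ≤ w.length - 1 → 0 ≤ hgt ((w.rotate (p + 1)).take k) := by
      intro k hk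
      rw [hgt_take_rotate w (p + 1) k (by omega) (by omega), hD]
      rcases Nat.lt_or_ge w.length (p + 1 + k) with h | h
      · rw [List.take_of_length_le (show w.length ≤ p + 1 + k by omega), htot, ho]
        have := hA (p + 1 + k - w.length) (by omega)
        push_cast
        omega
      · have h3 : p + 1 + k - w.length = 0 := by omega
        rw [h3, h0]
        have := hC (p + 1 + k) (by omega) (by omega)
        omega
    unfold Good
    rw [List.length_rotate, h2]
    refine ⟨?_, fun k => ?_⟩
    · rw [hgt_take_rotate w (p + 1) (w.length - 1) (by omega) (by omega), hD,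
        List.take_of_length_le (show w.length ≤ p + 1 + (w.length - 1) by omega), htot, ho]
      have h3 : p + 1 + (w.length - 1) - w.length = p := by omega
      rw [h3]
      push_cast
      omega
    · rw [List.take_take]
      exact hpos _ (by omega)

theorem rotr_iter (w : Word) (j : ℕ) : rotr^[j] w = w.rotate (j * (w.length - 1)) := by
  induction j with
  | zero => simp
  | succ j ih =>
    rw [Function.iterate_succ_apply', ih]
    unfold rotr
    rw [List.length_rotate, List.rotate_rotate]
    congr 1
    ring

theorem rotate_as_rotr (w : Word) (r : ℕ) (hr : r ≤ w.length) :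
    rotr^[w.length - r] w = w.rotate r := by
  rw [rotr_iter, ← List.rotate_mod, ← List.rotate_mod w r]
  congr 1
  change Nat.ModEq _ _ _
  rcases Nat.eq_zero_or_pos w.length with h0 | h0
  · have : r = 0 := by omega
    rw [h0, this]
  · have h1 : (w.length - r) * (w.length - 1) + (w.length - r) ≡ r + (w.length - r)
        [MOD w.length] := by
      have e1 : (w.length - r) * (w.length - 1) + (w.length - r) = (w.length - r) * w.length := by
        obtain ⟨n, hn⟩ : ∃ n, w.length = n + 1 := ⟨w.length - 1, by omega⟩
        rw [hn]
        simp
        ring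
      have e2 : r + (w.length - r) = w.length := by omega
      rw [e1, e2]
      exact (Nat.modEq_zero_iff_dvd.mpr (Dvd.intro_left _ rfl)).trans
        (Nat.modEq_zero_iff_dvd.mpr (dvd_refl _)).symm
    exact Nat.ModEq.add_right_cancel' _ h1

end TriAux
open TriAux

theorem good_base (m : ℕ) : Good (base m).1 := good_baseW (m + 1)

theorem area_le {m : ℕ} (σ : Wd (m + 1)) : area σ.1 ≤ 2 * (m + 2) * (m + 2) := by
  have := area_le_list σ.1
  rw [σ.2.1] at this
  exact this

theorem base_no_arc {m i : ℕ} (hm : 1 ≤ m) (hi : i < m + 1) (hn : i + 1 ≠ (m + 1) / 2)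
    (τ : Wd (m + 1)) : E m i τ ≠ base m := by
  intro h
  obtain ⟨v, hv⟩ := E_arc hm i τ
  rw [h] at hv
  exact hn (base_rotate (by omega) hi v hv)

theorem tri_step (m : ℕ) (σ : Wd (m + 1)) (hd : Good σ.1) (hσ : σ ≠ base m) :
    ∃ i, i + 1 < m + 1 ∧ E m i σ ≠ σ ∧ Good (E m i σ).1 ∧ area σ.1 < area (E m i σ).1 ∧
      ∀ τ, E m i τ = E m i σ → τ ≠ σ → τ ≠ E m i σ → (Good τ.1 ∧ area σ.1 < area τ.1) := by
  obtain ⟨i, h1, h2, h3, h4, h5⟩ := tri_list (m + 1) σ.1 σ.2.1 σ.2.2 hd
    (fun h => hσ (Subtype.ext h))
  refine ⟨i, h1, ?_, ?_, ?_, ?_⟩
  · intro h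
    apply h2
    rw [← E_val, h]
  · rw [E_val]; exact h3
  · rw [E_val]; exact h4
  · intro τ h6 h7 h8
    refine h5 τ.1 τ.2.1 τ.2.2 ?_ ?_ ?_
    · rw [← E_val, ← E_val, h6]
    · exact fun h => h7 (Subtype.ext h)
    · rw [← E_val]
      exact fun h => h8 (Subtype.ext h)

theorem rot_to_good (m : ℕ) (σ : Wd (m + 1)) : ∃ k : ℕ, Good ((rot m)^[k] σ).1 := by
  obtain ⟨r, hr, hg⟩ := exists_good σ.1 σ.2.2 (by rw [σ.2.1]; omega)
  refine ⟨σ.1.length - r, ?_⟩
  have h1 : ∀ k, ((rot m)^[k] σ).1 = rotr^[k] σ.1 := by
    intro k
    induction k with
    | zero => rfl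
    | succ k ih => rw [Function.iterate_succ_apply', Function.iterate_succ_apply', rot_val, ih]
  rw [h1, rotate_as_rotr _ _ hr]
  exact hg

end Pool.Agent.H863R2.Cyl
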