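import Pool.Agent.H863R2.Cyl.Defs
import Pool.Agent.H863R2.Cyl.Rel
import Pool.Agent.H863R2.Cyl.Trans
import Pool.Agent.H863R2.Cyl.Tri

/-!
# Module C : the homogeneous Markov chain (port of helper829's H974R3.Markov, helper989)
-/

set_option autoImplicit false
set_option maxHeartbeats 400000

namespace Pool.Agent.H863R2.Cyl
open Pool.Agent.H988R2.Perc (Word flipR flipL rem firstArc PD)
open Equiv

/-! ### words -/

/-- compositions of `K` transfer maps -/
inductive IsWord (m : ℕ) : ℕ → (Wd (m + 1) → Wd (m + 1)) → Prop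
  | id : IsWord m 0 id
  | step (c : Fin (m + 1) → Bool) (w : Wd (m + 1) → Wd (m + 1)) (K : ℕ) :
      IsWord m K w → IsWord m (K + 1) (Tc m c ∘ w)

namespace MK

theorem isWord_comp {m K K' : ℕ} {w w' : Wd (m + 1) → Wd (m + 1)} (h : IsWord m K w)
    (h' : IsWord m K' w') : IsWord m (K + K') (w' ∘ w) := by
  induction h' with
  | id => simpa using h
  | step c w1 K1 _ ih =>
    have := IsWord.step c _ _ ih
    simpa [Function.comp_assoc, Nat.add_assoc] using this

theorem ix_congr {m i j : ℕ} (h : i % (m + 1) = j % (m + 1)) : ix m i = ix m j := by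
  simp [ix, h]

theorem E_mod (m i : ℕ) (σ : Wd (m + 1)) : E m i σ = E m (i % (m + 1)) σ := by
  have key : ∀ q r : ℕ, E m (r + (m + 1) * q) σ = E m r σ := by
    intro q
    induction q with
    | zero => intro r; simp
    | succ q ih =>
      intro r
      have e : r + (m + 1) * (q + 1) = (r + (m + 1) * q) + (m + 1) := by ring
      rw [e, E_per, ih]
  conv_lhs => rw [← Nat.mod_add_div i (m + 1)]
  exact key _ _

theorem E_congr {m i j : ℕ} (h : i % (m + 1) = j % (m + 1)) (σ : Wd (m + 1)) :
    E m i σ = E m j σ := by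
  rw [E_mod m i, E_mod m j, h]

/-- a word all of whose letters are absent -/
theorem word_none (m : ℕ) (c : Fin (m + 1) → Bool) (k j : ℕ) (σ : Wd (m + 1))
    (h : ∀ t, t < j → c (ix m (k + t + 1)) = false) : word m c k j σ = σ := by
  induction j with
  | zero => rfl
  | succ j ih =>
    rw [word, ih (fun t ht => h t (by omega)), h j (by omega)]
    simp

theorem Tc_false (m : ℕ) (σ : Wd (m + 1)) : Tc m (fun _ => false) σ = rot m σ := by
  classical
  have h : ∃ k : ℕ, k < m + 1 ∧ (fun _ : Fin (m + 1) => false) (ix m k) = false :=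
    ⟨0, Nat.succ_pos m, rfl⟩
  rw [Tc, dif_pos h, word_none _ _ _ _ _ (fun _ _ => rfl)]

/-- a word with a single letter -/
theorem word_single (m : ℕ) (i k j : ℕ) (σ : Wd (m + 1)) (hj : j ≤ m) :
    word m (fun t => decide (t = ix m (i + 1))) k j σ
      = if ∃ t, t < j ∧ (k + t) % (m + 1) = i % (m + 1) then E m i σ else σ := by
  have key : ∀ t, (ix m (k + t + 1) = ix m (i + 1)) ↔ (k + t) % (m + 1) = i % (m + 1) := by
    intro t
    constructor
    · intro h
      have h' : (k + t + 1) % (m + 1) = (i + 1) % (m + 1) := congrArg Fin.val h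
      exact Nat.ModEq.add_right_cancel' 1 h'
    · intro h
      exact ix_congr (Nat.ModEq.add_right 1 h)
  induction j with
  | zero => simp [word]
  | succ j ih =>
    rw [word, ih (by omega)]
    by_cases h1 : (k + j) % (m + 1) = i % (m + 1)
    · have h2 : ¬ ∃ t, t < j ∧ (k + t) % (m + 1) = i % (m + 1) := by
        rintro ⟨t, ht, h3⟩
        have h4 : (k + t) ≡ (k + j) [MOD (m + 1)] := h3.trans h1.symm
        have h5 : t ≡ j [MOD (m + 1)] := Nat.ModEq.add_left_cancel' k h4
        have h6 : t = j := by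
          have a1 := Nat.mod_eq_of_lt (show t < m + 1 by omega)
          have a2 := Nat.mod_eq_of_lt (show j < m + 1 by omega)
          unfold Nat.ModEq at h5
          omega
        omega
      have h3 : ∃ t, t < j + 1 ∧ (k + t) % (m + 1) = i % (m + 1) := ⟨j, by omega, h1⟩
      rw [if_neg h2, if_pos h3, if_pos (by simpa using (key j).2 h1)]
      exact E_congr h1 σ
    · rw [if_neg (by simpa using fun h => h1 ((key j).1 h))]
      congr 1
      apply propext
      constructor
      · rintro ⟨t, ht, h3⟩; exact ⟨t, by omega, h3⟩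
      · rintro ⟨t, ht, h3⟩
        refine ⟨t, ?_, h3⟩
        by_contra hlt
        have : t = j := by omega
        subst this
        exact h1 h3

theorem Tc_single {m : ℕ} (hm : 1 ≤ m) (i : ℕ) (σ : Wd (m + 1)) :
    Tc m (fun t => decide (t = ix m (i + 1))) σ = rot m (E m i σ) := by
  classical
  have h : ∃ k : ℕ, k < m + 1 ∧ (fun t => decide (t = ix m (i + 1))) (ix m k) = false := by
    refine ⟨(i + 2) % (m + 1), Nat.mod_lt _ (by omega), ?_⟩
    simp only [decide_eq_false_iff_not]
    intro h
    have h' : ((i + 2) % (m + 1)) % (m + 1) = (i + 1) % (m + 1) := congrArg Fin.val h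
    rw [Nat.mod_mod] at h'
    have h2 : (1 + (i + 1)) ≡ (0 + (i + 1)) [MOD (m + 1)] := by
      have : 1 + (i + 1) = i + 2 := by ring
      rw [this, zero_add]; exact h'
    have h3 := Nat.ModEq.add_right_cancel' _ h2
    unfold Nat.ModEq at h3
    rw [Nat.mod_eq_of_lt (show 1 < m + 1 by omega), Nat.zero_mod] at h3
    omega
  rw [Tc, dif_pos h]
  congr 1
  obtain ⟨hk1, hk2⟩ := Nat.find_spec h
  generalize Nat.find h = k at *
  rw [word_single m i k m σ le_rfl, if_pos]
  -- the position i+1 occurs
  have hk3 : (k : ℕ) % (m + 1) ≠ (i + 1) % (m + 1) := by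
    intro h'
    have : ix m k = ix m (i + 1) := ix_congr h'
    simp [this] at hk2
  have hi := Nat.mod_lt i (show 0 < m + 1 by omega)
  by_cases hki : k ≤ i % (m + 1)
  · refine ⟨i % (m + 1) - k, ?_, ?_⟩
    · by_contra hlt
      have h0 : k = 0 := by omega
      have h1 : i % (m + 1) = m := by omega
      apply hk3
      rw [h0, Nat.add_mod, h1]
      rcases Nat.lt_or_ge 1 (m + 1) with h2 | h2
      · rw [Nat.mod_eq_of_lt h2]; simp
      · omega
    · rw [Nat.add_sub_cancel' hki, Nat.mod_mod]
  · refine ⟨i % (m + 1) + (m + 1) - k, ?_, ?_⟩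
    · by_contra hlt
      have h1 : k = i % (m + 1) + 1 := by omega
      apply hk3
      rw [h1, Nat.add_mod, Nat.mod_mod, ← Nat.add_mod]
    · have : k + (i % (m + 1) + (m + 1) - k) = i % (m + 1) + (m + 1) := by omega
      rw [this, Nat.add_mod_right, Nat.mod_mod]

/-- the rotation as a permutation of patterns -/
noncomputable def rotP (m : ℕ) : Perm (Wd (m + 1)) :=
  ⟨rot m, rotInv m, rotInv_rot m, rot_rotInv m⟩

theorem isWord_rot (m : ℕ) : IsWord m 1 (rot m) := by
  have h := IsWord.step (fun _ => false) _ _ (IsWord.id (m := m))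
  have h2 : Tc m (fun _ => false) ∘ (id : Wd (m + 1) → Wd (m + 1)) = rot m := by
    funext σ
    simp [Tc_false]
  rw [h2] at h
  simpa using h

theorem isWord_rot_iter (m k : ℕ) : IsWord m k ((rot m)^[k]) := by
  induction k with
  | zero => exact IsWord.id
  | succ k ih =>
    rw [Function.iterate_succ']
    exact isWord_comp ih (isWord_rot m)

theorem rot_order (m : ℕ) : ∃ N, 0 < N ∧ (rot m)^[N] = id := by
  classical
  refine ⟨orderOf (rotP m), orderOf_pos _, ?_⟩
  have h : (rotP m) ^ (orderOf (rotP m)) = 1 := pow_orderOf_eq_one _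
  funext σ
  have h2 := congrArg (fun g : Perm (Wd (m + 1)) => g σ) h
  simp only [Perm.coe_one, id_eq] at h2 ⊢
  rw [← Perm.iterate_eq_pow] at h2
  exact h2

theorem isWord_E {m : ℕ} (hm : 1 ≤ m) (i : ℕ) : ∃ K, IsWord m K (E m i) := by
  obtain ⟨N, hN, hrot⟩ := rot_order m
  obtain ⟨N', rfl⟩ : ∃ N', N = N' + 1 := ⟨N - 1, by omega⟩
  have h1 : IsWord m 1 (rot m ∘ E m i) := by
    have h := IsWord.step (fun t => decide (t = ix m (i + 1))) _ _ (IsWord.id (m := m))
    have h2 : Tc m (fun t => decide (t = ix m (i + 1))) ∘ (id : Wd (m + 1) → Wd (m + 1))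
        = rot m ∘ E m i := by
      funext σ
      simp [Tc_single hm]
    rw [h2] at h
    simpa using h
  refine ⟨1 + N', ?_⟩
  have h3 := isWord_comp h1 (isWord_rot_iter m N')
  have h4 : (rot m)^[N'] ∘ (rot m ∘ E m i) = E m i := by
    rw [← Function.comp_assoc, ← Function.iterate_succ, hrot]; rfl
  rw [h4] at h3
  exact h3

/-- letters at an arc -/
theorem get_arc {w : Word} {i : ℕ} (h : arcAt i w) (hi : i + 2 ≤ w.length) :
    w[i]'(by omega) = true ∧ w[i + 1]'(by omega) = false := by
  obtain ⟨v, hv⟩ := h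
  have hl : (w.rotate i).length = w.length := List.length_rotate ..
  have h0 : (w.rotate i)[0]'(by omega) = true := by simp [hv]
  have h1 : (w.rotate i)[1]'(by omega) = false := by simp [hv]
  rw [List.getElem_rotate] at h0 h1
  refine ⟨?_, ?_⟩
  · have e : (0 + i) % w.length = i := by rw [zero_add, Nat.mod_eq_of_lt (by omega)]
    simpa only [e] using h0
  · have e : (1 + i) % w.length = i + 1 := by rw [add_comm 1 i, Nat.mod_eq_of_lt (by omega)]
    simpa only [e] using h1

/-- phase 1: the pattern after `E 0, E 2, …, E (2k-2)` -/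
theorem phase1 {m : ℕ} (hm : 1 ≤ m) (k : ℕ) (hk : 2 * k ≤ m + 1) : ∃ K w, IsWord m K w ∧
    ∀ σ, ∀ j, j < k → arcAt (2 * j) (w σ).1 := by
  induction k with
  | zero => exact ⟨0, id, IsWord.id, fun σ j hj => absurd hj (by omega)⟩
  | succ k ih =>
    obtain ⟨K, w, hw, h⟩ := ih (by omega)
    obtain ⟨K', hE⟩ := isWord_E hm (2 * k)
    refine ⟨_, _, isWord_comp hw hE, ?_⟩
    intro σ j hj
    simp only [Function.comp_apply]
    by_cases hjk : j = k
    · subst hjk
      exact E_arc hm _ _
    · have hj' : j < k := by omega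
      have h0 := E_fix _ _ (h σ j hj')
      have h1 := E_comm (m := m) (i := 2 * j) (j := 2 * k) (by omega) (by omega) (w σ)
      rw [h0] at h1
      rw [← h1]
      exact E_arc hm _ _

theorem std_unique {m : ℕ} (σ τ : Wd (m + 1))
    (h : ∀ j, 2 * (j + 1) ≤ m + 1 → arcAt (2 * j) σ.1)
    (h' : ∀ j, 2 * (j + 1) ≤ m + 1 → arcAt (2 * j) τ.1) :
    σ = τ := by
  obtain ⟨w, hl, hok⟩ := σ
  obtain ⟨w', hl', hok'⟩ := τ
  apply Subtype.ext
  simp only at h h' ⊢
  have htake : w.take (2 * ((m + 1) / 2)) = w'.take (2 * ((m + 1) / 2)) := by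
    apply List.ext_getElem
    · simp only [List.length_take]; omega
    · intro i h1 h2
      simp only [List.length_take] at h1 h2
      rw [List.getElem_take, List.getElem_take]
      rcases Nat.even_or_odd' i with ⟨j, hj | hj⟩
      · subst hj
        rw [(get_arc (h j (by omega)) (by omega)).1, (get_arc (h' j (by omega)) (by omega)).1]
      · subst hj
        rw [(get_arc (h j (by omega)) (by omega)).2, (get_arc (h' j (by omega)) (by omega)).2]
  have hdrop : w.drop (2 * ((m + 1) / 2)) = w'.drop (2 * ((m + 1) / 2)) := by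
    have hc : (w.drop (2 * ((m + 1) / 2))).count true
        = (w'.drop (2 * ((m + 1) / 2))).count true := by
      have e1 : w.count true = w'.count true := by
        unfold Ok at hok hok'
        rw [hok, hok', hl, hl']
      rw [← List.take_append_drop (2 * ((m + 1) / 2)) w,
        ← List.take_append_drop (2 * ((m + 1) / 2)) w', List.count_append, List.count_append,
        htake] at e1
      exact Nat.add_left_cancel e1
    have hn : (w.drop (2 * ((m + 1) / 2))).length ≤ 1 := by
      rw [List.length_drop]; omega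
    have hn' : (w.drop (2 * ((m + 1) / 2))).length = (w'.drop (2 * ((m + 1) / 2))).length := by
      rw [List.length_drop, List.length_drop, hl, hl']
    revert hc hn hn'
    generalize w.drop (2 * ((m + 1) / 2)) = a
    generalize w'.drop (2 * ((m + 1) / 2)) = b
    intro hc hn hn'
    match a, b with
    | [], [] => rfl
    | [], _ :: _ => simp at hn'
    | _ :: _, [] => simp at hn'
    | _ :: _ :: _, _ => simp at hn
    | [_], _ :: _ :: _ => simp at hn'
    | [x], [y] => cases x <;> cases y <;> simp_all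
  rw [← List.take_append_drop (2 * ((m + 1) / 2)) w,
    ← List.take_append_drop (2 * ((m + 1) / 2)) w', htake, hdrop]

theorem dyck_alt (h : ℕ) : ∀ p : Word, p.length = 2 * h →
    (∀ j (hj : j < p.length), p[j] = decide (j % 2 = 0)) → DyckW p := by
  induction h with
  | zero =>
    intro p hp _
    have : p = [] := List.length_eq_zero_iff.1 (by omega)
    subst this
    exact ⟨by simp [hgt], fun k => by simp [hgt]⟩
  | succ h ih =>
    intro p hp hj
    match p, hp, hj with
    | x :: y :: p', hp, hj =>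
      have hx := hj 0 (by simp)
      have hy := hj 1 (by simp)
      simp only [List.getElem_cons_zero, List.getElem_cons_succ] at hx hy
      have hx' : x = true := by rw [hx]; rfl
      have hy' : y = false := by rw [hy]; rfl
      subst hx' hy'
      obtain ⟨i1, i2⟩ := ih p' (by simpa using by simp at hp; omega) (fun j hj' => by
        have := hj (j + 2) (by simp; omega)
        simp only [List.getElem_cons_succ] at this
        rw [this]
        congr 1
        simp)
      refine ⟨?_, ?_⟩
      · simp only [hgt, List.map_cons, List.sum_cons] at i1 ⊢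
        rw [i1]; simp
      · intro k
        match k with
        | 0 => simp [hgt]
        | 1 => simp [hgt]
        | k + 2 =>
          have := i2 k
          simp only [hgt, List.take_succ_cons, List.map_cons, List.sum_cons] at this ⊢
          simp only [if_true, if_false, Bool.false_eq_true]
          linarith
    | [_], hp, _ => simp at hp; omega
    | [], hp, _ => simp at hp

theorem good_std {m : ℕ} (σ : Wd (m + 1))
    (h : ∀ j, 2 * (j + 1) ≤ m + 1 → arcAt (2 * j) σ.1) : Good σ.1 := by
  obtain ⟨w, hl, hok⟩ := σ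
  simp only at h ⊢
  unfold Good
  apply dyck_alt (w.length / 2)
  · rw [List.length_take]; omega
  · intro i hi
    rw [List.length_take] at hi
    rw [List.getElem_take]
    rcases Nat.even_or_odd' i with ⟨j, hj | hj⟩
    · subst hj
      rw [(get_arc (h j (by omega)) (by omega)).1]
      simp
    · subst hj
      rw [(get_arc (h j (by omega)) (by omega)).2]
      simp

/-- phase 2: every good word can be sent to the base word -/
theorem phase2 {m : ℕ} (hm : 1 ≤ m) : ∀ (d : ℕ) (σ : Wd (m + 1)),
    Good σ.1 → 2 * (m + 2) * (m + 2) - area σ.1 ≤ d →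
    ∃ K w, IsWord m K w ∧ w σ = base m := by
  intro d
  induction d with
  | zero =>
    intro σ hd hlen
    by_cases hσ : σ = base m
    · exact ⟨0, id, IsWord.id, hσ⟩
    · obtain ⟨i, hi, hne, hd', hl, -⟩ := tri_step m σ hd hσ
      have h1 := area_le (E m i σ)
      omega
  | succ d ih =>
    intro σ hd hlen
    by_cases hσ : σ = base m
    · exact ⟨0, id, IsWord.id, hσ⟩
    · obtain ⟨i, hi, hne, hd', hl, -⟩ := tri_step m σ hd hσ
      have h1 := area_le (E m i σ)
      obtain ⟨K, w, hw, h⟩ := ih (E m i σ) hd' (by omega)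
      obtain ⟨K', hE⟩ := isWord_E hm i
      exact ⟨_, _, isWord_comp hE hw, h⟩

end MK

open MK in
theorem exists_word (m : ℕ) : ∃ K w, IsWord m K w ∧ ∀ σ, w σ = base m := by
  rcases Nat.eq_zero_or_pos m with h0 | hm
  · subst h0
    exact ⟨0, id, IsWord.id, fun σ => std_unique _ _ (fun j hj => by omega) (fun j hj => by omega)⟩
  obtain ⟨K, w, hw, h⟩ := phase1 hm ((m + 1) / 2) (by omega)
  have h' : ∀ σ, ∀ j, 2 * (j + 1) ≤ m + 1 → arcAt (2 * j) (w σ).1 :=
    fun σ j hj => h σ j (by omega)
  obtain ⟨K', w', hw', h''⟩ := phase2 hm _ (w (base m)) (good_std _ (h' _)) le_rfl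
  refine ⟨_, _, isWord_comp hw hw', ?_⟩
  intro σ
  simp only [Function.comp_apply]
  rw [std_unique (w σ) (w (base m)) (h' σ) (h' (base m)), h'']

/-! ### contraction -/

namespace MK

theorem sum_push' {X Y : Type*} [Fintype X] [Fintype Y] [DecidableEq Y] {R : Type*}
    [AddCommMonoid R] (f : X → Y) (v : X → R) : ∑ y, push f v y = ∑ x, v x := by
  unfold push
  rw [Finset.sum_comm]
  refine Finset.sum_congr rfl fun x _ => ?_
  simp

section norm
variable {X : Type*} [Fintype X] [DecidableEq X]

theorem push_id (v : X → ℂ) : push id v = v := by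
  funext y
  simp [push]

theorem push_comp (f g : X → X) (v : X → ℂ) : push (f ∘ g) v = push f (push g v) := by
  funext y
  simp only [push, Function.comp_apply]
  have h1 : ∀ x, (if f x = y then ∑ z, (if g z = x then v z else 0) else 0)
      = ∑ z, (if g z = x then (if f (g z) = y then v z else 0) else 0) := by
    intro x
    split_ifs with h
    · refine Finset.sum_congr rfl fun z _ => ?_
      split_ifs with h1 h2 h2
      · rfl
      · rw [h1] at h2; exact absurd h h2
      · rfl
    · symm
      apply Finset.sum_eq_zero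
      intro z _
      split_ifs with h1 h2
      · rw [h1] at h2; exact absurd h2 h
      · rfl
      · rfl
  rw [Finset.sum_congr rfl fun x _ => h1 x, Finset.sum_comm]
  refine Finset.sum_congr rfl fun z _ => ?_
  simp

theorem push_add (f : X → X) (v w : X → ℂ) : push f (v + w) = push f v + push f w := by
  funext y
  simp only [push, Pi.add_apply]
  rw [← Finset.sum_add_distrib]
  refine Finset.sum_congr rfl fun x _ => ?_
  split_ifs <;> simp

/-- the `ℓ¹` norm -/
noncomputable def N1 (v : X → ℂ) : ℝ := ∑ x, ‖v x‖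

omit [DecidableEq X] in
theorem N1_nonneg (v : X → ℂ) : 0 ≤ N1 v := Finset.sum_nonneg fun _ _ => norm_nonneg _

omit [DecidableEq X] in
theorem N1_add (v w : X → ℂ) : N1 (v + w) ≤ N1 v + N1 w := by
  unfold N1
  rw [← Finset.sum_add_distrib]
  exact Finset.sum_le_sum fun x _ => norm_add_le _ _

omit [DecidableEq X] in
theorem N1_sum {ι : Type*} (s : Finset ι) (g : ι → X → ℂ) :
    N1 (∑ i ∈ s, g i) ≤ ∑ i ∈ s, N1 (g i) := by
  classical
  induction s using Finset.induction_on with
  | empty => simp [N1]
  | insert i s hi ih =>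
    rw [Finset.sum_insert hi, Finset.sum_insert hi]
    exact (N1_add _ _).trans (add_le_add le_rfl ih)

theorem N1_push (f : X → X) (v : X → ℂ) : N1 (push f v) ≤ N1 v := by
  unfold N1
  have h : ∀ y, ‖push f v y‖ ≤ push f (fun x => ‖v x‖) y := by
    intro y
    simp only [push]
    refine (norm_sum_le _ _).trans (Finset.sum_le_sum fun x _ => ?_)
    split_ifs <;> simp
  exact (Finset.sum_le_sum fun y _ => h y).trans (le_of_eq (sum_push' f _))

end norm

/-- the homogeneous transfer operator -/
noncomputable def TT (m : ℕ) (v : Wd (m + 1) → ℂ) : Wd (m + 1) → ℂ :=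
  ∑ c : Fin (m + 1) → Bool, push (Tc m c) v

theorem TT_add (m : ℕ) (v w : Wd (m + 1) → ℂ) : TT m (v + w) = TT m v + TT m w := by
  simp only [TT, push_add, Finset.sum_add_distrib]

theorem N1_TT (m : ℕ) (v : Wd (m + 1) → ℂ) : N1 (TT m v) ≤ 2 ^ (m + 1) * N1 v := by
  refine (N1_sum _ _).trans ?_
  refine (Finset.sum_le_sum fun c _ => N1_push _ _).trans ?_
  simp [Finset.card_univ]

theorem TT_iter (m K : ℕ) (w : Wd (m + 1) → Wd (m + 1)) (hw : IsWord m K w)
    (v : Wd (m + 1) → ℂ) :
    ∃ r, (TT m)^[K] v = push w v + r ∧ N1 r ≤ ((2 ^ (m + 1)) ^ K - 1) * N1 v := by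
  classical
  induction hw with
  | id => exact ⟨0, by simp [push_id], by simp [N1]⟩
  | step c w K hw ih =>
    obtain ⟨r, hr, hN⟩ := ih
    refine ⟨(∑ c' ∈ Finset.univ.erase c, push (Tc m c') (push w v)) + TT m r, ?_, ?_⟩
    · rw [Function.iterate_succ_apply', hr, TT_add, push_comp, ← add_assoc]
      congr 1
      rw [TT, ← Finset.add_sum_erase _ _ (Finset.mem_univ c)]
    · refine (N1_add _ _).trans ?_
      have h1 : N1 (∑ c' ∈ Finset.univ.erase c, push (Tc m c') (push w v))
          ≤ (2 ^ (m + 1) - 1) * N1 v := by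
        refine (N1_sum _ _).trans ?_
        refine (Finset.sum_le_sum fun c' _ => (N1_push _ _).trans (N1_push _ _)).trans ?_
        rw [Finset.sum_const, Finset.card_erase_of_mem (Finset.mem_univ c), nsmul_eq_mul]
        refine mul_le_mul_of_nonneg_right ?_ (N1_nonneg v)
        rw [Nat.cast_sub]
        · simp [Finset.card_univ]
        · simp [Finset.card_univ, Nat.one_le_two_pow]
      have h2 : N1 (TT m r) ≤ 2 ^ (m + 1) * (((2 ^ (m + 1)) ^ K - 1) * N1 v) :=
        (N1_TT m r).trans (mul_le_mul_of_nonneg_left hN (by positivity))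
      calc _ ≤ (2 ^ (m + 1) - 1) * N1 v + 2 ^ (m + 1) * (((2 ^ (m + 1)) ^ K - 1) * N1 v) :=
            add_le_add h1 h2
        _ = _ := by ring

end MK

open MK in
theorem markov_unique (m : ℕ) (v : Wd (m + 1) → ℂ)
    (h : ∀ σ, ∑ c : Fin (m + 1) → Bool, push (Tc m c) v σ = 2 ^ (m + 1) * v σ)
    (hs : ∑ σ, v σ = 0) : v = 0 := by
  obtain ⟨K, w, hw, hbase⟩ := exists_word m
  have hT : ∀ t : ℂ, TT m (t • v) = (2 ^ (m + 1) * t) • v := by
    intro t
    funext σ
    have h1 : ∀ c : Fin (m + 1) → Bool, push (Tc m c) (t • v) σ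
        = t * push (Tc m c) v σ := by
      intro c
      simp only [push, Finset.mul_sum, Pi.smul_apply, smul_eq_mul, mul_ite, mul_zero]
    simp only [TT, Finset.sum_apply, h1, ← Finset.mul_sum, h, Pi.smul_apply, smul_eq_mul]
    ring
  have hTK : (TT m)^[K] v = ((2 ^ (m + 1)) ^ K : ℂ) • v := by
    have : ∀ k, (TT m)^[k] v = ((2 ^ (m + 1)) ^ k : ℂ) • v := by
      intro k
      induction k with
      | zero => simp
      | succ k ih =>
        rw [Function.iterate_succ_apply', ih, hT]
        congr 1
        ring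
    exact this K
  obtain ⟨r, hr, hN⟩ := TT_iter m K w hw v
  have hp : push w v = 0 := by
    funext y
    simp only [push, hbase]
    split_ifs with hy
    · simpa using hs
    · simp
  rw [hp, zero_add, hTK] at hr
  have h1 : N1 r = (2 ^ (m + 1)) ^ K * N1 v := by
    rw [← hr]
    simp only [N1, Pi.smul_apply, smul_eq_mul, norm_mul, ← Finset.mul_sum]
    congr 1
    simp
  rw [h1] at hN
  have h2 : N1 v ≤ 0 := by nlinarith
  have h3 : N1 v = 0 := le_antisymm h2 (N1_nonneg v)
  funext x
  have h4 := (Finset.sum_eq_zero_iff_of_nonneg (fun x _ => norm_nonneg (v x))).1 h3 x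
    (Finset.mem_univ x)
  simpa using h4

namespace MK

/-- real version of the uniqueness -/
theorem markov_unique_real (m : ℕ) (v : Wd (m + 1) → ℝ)
    (h : ∀ σ, ∑ c : Fin (m + 1) → Bool, push (Tc m c) v σ = 2 ^ (m + 1) * v σ)
    (hs : ∑ σ, v σ = 0) : v = 0 := by
  have h1 := markov_unique m (fun σ => (v σ : ℂ)) ?_ ?_
  · funext σ
    have := congrFun h1 σ
    simpa using this
  · intro σ
    have h2 := congrArg (fun x : ℝ => (x : ℂ)) (h σ)
    simp only [push] at h2 ⊢
    push_cast at h2
    simp only [apply_ite (fun x : ℝ => (x : ℂ)), Complex.ofReal_zero] at h2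
    exact h2
  · have h2 := congrArg (fun x : ℝ => (x : ℂ)) hs
    push_cast at h2
    exact h2

/-- the real transfer operator as a linear map -/
noncomputable def TL (m : ℕ) : (Wd (m + 1) → ℝ) →ₗ[ℝ] (Wd (m + 1) → ℝ) where
  toFun v := fun σ => ∑ c : Fin (m + 1) → Bool, push (Tc m c) v σ
  map_add' v w := by
    funext σ
    simp only [push, Pi.add_apply, ← Finset.sum_add_distrib]
    refine Finset.sum_congr rfl fun c _ => Finset.sum_congr rfl fun x _ => ?_
    split_ifs <;> simp
  map_smul' t v := by
    funext σ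
    simp only [push, Pi.smul_apply, smul_eq_mul, RingHom.id_apply, Finset.mul_sum, mul_ite,
      mul_zero]

theorem TL_apply (m : ℕ) (v : Wd (m + 1) → ℝ) (σ : Wd (m + 1)) :
    TL m v σ = ∑ c : Fin (m + 1) → Bool, push (Tc m c) v σ := rfl

theorem sum_TL (m : ℕ) (v : Wd (m + 1) → ℝ) : ∑ σ, TL m v σ = 2 ^ (m + 1) * ∑ σ, v σ := by
  simp only [TL_apply]
  rw [Finset.sum_comm]
  simp only [sum_push']
  simp [Finset.card_univ]

theorem push_mono {X : Type*} [Fintype X] [DecidableEq X] (f : X → X) {v w : X → ℝ}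
    (h : ∀ x, v x ≤ w x) (y : X) : push f v y ≤ push f w y := by
  simp only [push]
  refine Finset.sum_le_sum fun x _ => ?_
  split_ifs
  · exact h x
  · exact le_rfl

theorem push_nonneg {X : Type*} [Fintype X] [DecidableEq X] (f : X → X) {v : X → ℝ}
    (h : ∀ x, 0 ≤ v x) (y : X) : 0 ≤ push f v y := by
  simp only [push]
  refine Finset.sum_nonneg fun x _ => ?_
  split_ifs
  · exact h x
  · exact le_rfl

theorem TL_nonneg (m : ℕ) {v : Wd (m + 1) → ℝ} (h : ∀ x, 0 ≤ v x) (y : Wd (m + 1)) :
    0 ≤ TL m v y := by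
  rw [TL_apply]
  exact Finset.sum_nonneg fun c _ => push_nonneg _ h y

theorem TL_mono (m : ℕ) {v w : Wd (m + 1) → ℝ} (h : ∀ x, v x ≤ w x) (y : Wd (m + 1)) :
    TL m v y ≤ TL m w y := by
  rw [TL_apply, TL_apply]
  exact Finset.sum_le_sum fun c _ => push_mono _ h y

theorem push_comp' {X : Type*} [Fintype X] [DecidableEq X] (f g : X → X) (v : X → ℝ) :
    push (f ∘ g) v = push f (push g v) := by
  funext y
  simp only [push, Function.comp_apply]
  have h1 : ∀ x, (if f x = y then ∑ z, (if g z = x then v z else 0) else 0)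
      = ∑ z, (if g z = x then (if f (g z) = y then v z else 0) else 0) := by
    intro x
    split_ifs with h
    · refine Finset.sum_congr rfl fun z _ => ?_
      split_ifs with h1 h2 h2
      · rfl
      · rw [h1] at h2; exact absurd h h2
      · rfl
    · symm
      apply Finset.sum_eq_zero
      intro z _
      split_ifs with h1 h2
      · rw [h1] at h2; exact absurd h2 h
      · rfl
      · rfl
  rw [Finset.sum_congr rfl fun x _ => h1 x, Finset.sum_comm]
  refine Finset.sum_congr rfl fun z _ => ?_
  simp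

theorem TL_iter_ge (m K : ℕ) (w : Wd (m + 1) → Wd (m + 1)) (hw : IsWord m K w)
    (v : Wd (m + 1) → ℝ) (hv : ∀ x, 0 ≤ v x) :
    (∀ x, 0 ≤ ((TL m)^[K] v) x) ∧ ∀ y, push w v y ≤ ((TL m)^[K] v) y := by
  induction hw with
  | id =>
    refine ⟨hv, fun y => ?_⟩
    simp [push]
  | step c w K hw ih =>
    refine ⟨fun x => ?_, fun y => ?_⟩
    · rw [Function.iterate_succ_apply']
      exact TL_nonneg m ih.1 x
    · rw [Function.iterate_succ_apply', push_comp', TL_apply]
      refine le_trans (push_mono _ ih.2 y) ?_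
      exact Finset.single_le_sum (f := fun c => push (Tc m c) ((TL m)^[K] v) y)
        (fun c' _ => push_nonneg _ ih.1 y) (Finset.mem_univ c)

/-- a non-zero eigenvector -/
theorem exists_eigen (m : ℕ) : ∃ v : Wd (m + 1) → ℝ, v ≠ 0 ∧
    TL m v = (2 : ℝ) ^ (m + 1) • v := by
  by_contra hcon
  push Not at hcon
  set L : (Wd (m + 1) → ℝ) →ₗ[ℝ] (Wd (m + 1) → ℝ) :=
    TL m - (2 : ℝ) ^ (m + 1) • LinearMap.id with hL
  have hinj : Function.Injective L := by
    rw [← LinearMap.ker_eq_bot, LinearMap.ker_eq_bot']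
    intro v hv
    by_contra hne
    apply hcon v hne
    have : TL m v - (2 : ℝ) ^ (m + 1) • v = 0 := by simpa [hL] using hv
    exact sub_eq_zero.1 this
  have hsurj : Function.Surjective L := LinearMap.injective_iff_surjective.1 hinj
  obtain ⟨v, hv⟩ := hsurj (Pi.single (base m) 1)
  have h1 : ∑ σ, L v σ = 0 := by
    simp only [hL, LinearMap.sub_apply, LinearMap.smul_apply, LinearMap.id_apply, Pi.sub_apply,
      Pi.smul_apply, smul_eq_mul, Finset.sum_sub_distrib, sum_TL, Finset.mul_sum]
    ring
  rw [hv] at h1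
  simp [Finset.sum_pi_single'] at h1

end MK

open MK in
theorem markov_exists (m : ℕ) : ∃ μ : Wd (m + 1) → ℝ, (∀ σ, 0 ≤ μ σ) ∧ ∑ σ, μ σ = 1 ∧
    (∀ σ, ∑ c : Fin (m + 1) → Bool, push (Tc m c) μ σ = 2 ^ (m + 1) * μ σ) ∧
    0 < μ (base m) ∧ ∀ σ, μ (rot m σ) = μ σ := by
  obtain ⟨v, hv0, hv⟩ := exists_eigen m
  have huniq : ∀ u : Wd (m + 1) → ℝ, TL m u = (2 : ℝ) ^ (m + 1) • u →
      ∑ σ, u σ = 0 → u = 0 := by
    intro u hu hs
    refine markov_unique_real m u (fun σ => ?_) hs
    have := congrFun hu σ
    simpa [TL_apply] using this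
  have hvs : ∑ σ, v σ ≠ 0 := fun h => hv0 (huniq v hv h)
  -- normalise
  set u : Wd (m + 1) → ℝ := (∑ σ, v σ)⁻¹ • v with hu
  have hu1 : ∑ σ, u σ = 1 := by
    simp only [hu, Pi.smul_apply, smul_eq_mul, ← Finset.mul_sum]
    exact inv_mul_cancel₀ hvs
  have huT : TL m u = (2 : ℝ) ^ (m + 1) • u := by
    rw [hu, map_smul, hv, smul_comm]
  -- absolute values
  set a : Wd (m + 1) → ℝ := fun σ => |u σ| with ha
  have haT_ge : ∀ σ, (2 : ℝ) ^ (m + 1) * a σ ≤ TL m a σ := by
    intro σ
    have h1 : (2 : ℝ) ^ (m + 1) * a σ = |TL m u σ| := by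
      rw [huT]
      simp only [ha, Pi.smul_apply, smul_eq_mul, abs_mul]
      rw [abs_of_pos (show (0 : ℝ) < 2 ^ (m + 1) by positivity)]
    rw [h1, TL_apply, TL_apply]
    refine (Finset.abs_sum_le_sum_abs _ _).trans (Finset.sum_le_sum fun c _ => ?_)
    simp only [push]
    refine (Finset.abs_sum_le_sum_abs _ _).trans (Finset.sum_le_sum fun x _ => ?_)
    split_ifs <;> simp [ha]
  have haT : TL m a = (2 : ℝ) ^ (m + 1) • a := by
    have hsum : ∑ σ, (TL m a σ - (2 : ℝ) ^ (m + 1) * a σ) = 0 := by
      rw [Finset.sum_sub_distrib, sum_TL, ← Finset.mul_sum, sub_self]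
    have h0 := (Finset.sum_eq_zero_iff_of_nonneg
      (fun σ _ => sub_nonneg.2 (haT_ge σ))).1 hsum
    funext σ
    have := h0 σ (Finset.mem_univ σ)
    simp only [Pi.smul_apply, smul_eq_mul]
    linarith
  have hau : a = (∑ σ, a σ) • u := by
    have h1 : a - (∑ σ, a σ) • u = 0 := by
      refine huniq _ ?_ ?_
      · rw [map_sub, map_smul, haT, huT, smul_sub, smul_comm]
      · simp only [Pi.sub_apply, Pi.smul_apply, smul_eq_mul, Finset.sum_sub_distrib,
          ← Finset.mul_sum, hu1]
        ring
    exact sub_eq_zero.1 h1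
  have hapos : 0 < ∑ σ, a σ := by
    have h1 : (0 : ℝ) ≤ ∑ σ, a σ := Finset.sum_nonneg fun σ _ => abs_nonneg _
    rcases h1.eq_or_lt with h2 | h2
    · exfalso
      rw [← h2, zero_smul] at hau
      have h3 : ∀ σ, u σ = 0 := by
        intro σ
        have := congrFun hau σ
        simpa [ha] using this
      simp [h3] at hu1
    · exact h2
  have hunn : ∀ σ, 0 ≤ u σ := by
    intro σ
    have h1 := congrFun hau σ
    simp only [Pi.smul_apply, smul_eq_mul] at h1
    have h2 : 0 ≤ a σ := abs_nonneg _
    rw [h1] at h2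
    exact nonneg_of_mul_nonneg_right h2 hapos
  refine ⟨u, hunn, hu1, ?_, ?_, ?_⟩
  · intro σ
    have := congrFun huT σ
    simpa [TL_apply] using this
  · obtain ⟨K, w, hw, hbase⟩ := exists_word m
    have h1 := (TL_iter_ge m K w hw u hunn).2 (base m)
    have h2 : push w u (base m) = 1 := by
      simp [push, hbase, hu1]
    have h3 : ∀ k, (TL m)^[k] u = ((2 : ℝ) ^ (m + 1)) ^ k • u := by
      intro k
      induction k with
      | zero => simp
      | succ k ih =>
        rw [Function.iterate_succ_apply', ih, map_smul, huT, smul_smul]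
        congr 1
    rw [h2, h3] at h1
    simp only [Pi.smul_apply, smul_eq_mul] at h1
    by_contra hneg
    push Not at hneg
    have h4 : ((2 : ℝ) ^ (m + 1)) ^ K * u (base m) ≤ 0 :=
      mul_nonpos_of_nonneg_of_nonpos (by positivity) hneg
    linarith
  · have hrot : (fun σ => u (rot m σ)) - u = 0 := by
      refine huniq _ ?_ ?_
      · rw [map_sub, huT, smul_sub]
        congr 1
        funext σ
        simp only [TL_apply, Pi.smul_apply, smul_eq_mul]
        have h1 : ∀ c : Fin (m + 1) → Bool,
            push (Tc m c) (fun σ => u (rot m σ)) σ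
            = push (Tc m (fun j => c ((finRotate (m + 1)).symm j))) u
                (rot m σ) := by
          intro c
          simp only [push]
          rw [← Equiv.sum_comp (rotP m) (fun x => if Tc m
            (fun j => c ((finRotate (m + 1)).symm j)) x = rot m σ then u x else 0)]
          refine Finset.sum_congr rfl fun x _ => ?_
          have h2 : (rotP m) x = rot m x := rfl
          rw [h2, Tc_rot]
          have h3 : (rot m (Tc m c x) = rot m σ) ↔ Tc m c x = σ :=
            (rotP m).injective.eq_iff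
          simp only [h3]
        rw [Finset.sum_congr rfl fun c _ => h1 c]
        have h4 := congrFun huT (rot m σ)
        simp only [TL_apply, Pi.smul_apply, smul_eq_mul] at h4
        rw [← h4]
        exact (Equiv.arrowCongr (finRotate (m + 1)) (Equiv.refl Bool)).sum_comp
          (fun c => push (Tc m c) u (rot m σ))
      · simp only [Pi.sub_apply, Finset.sum_sub_distrib]
        rw [sub_eq_zero]
        exact Equiv.sum_comp (rotP m) u
    intro σ
    have := congrFun hrot σ
    simp only [Pi.sub_apply, Pi.zero_apply] at this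
    linarith

end Pool.Agent.H863R2.Cyl
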