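import Pool.Agent.H863R2.Cyl.FamEx
import Pool.Agent.H863R2.Cyl.KEx
import Pool.Agent.H863R2.Cyl.GProp
import Pool.Agent.H863R2.Cyl.GOnes
import Pool.Agent.H863R2.Cyl.Markov

/-! # Module Z: the exact one-arm formula -/

namespace Pool.Agent.H863R2.Cyl
open Pool.Agent.H988R2.Perc (Word flipR flipL rem firstArc PD)
open MvPolynomial

/-- the ratio of Pascal determinants -/
noncomputable def oneArm (n : ℕ) : ℝ :=
  ‖(pas Complex.I (2 * n)).det‖ / ‖(pas (Complex.exp (Real.pi / 3 * Complex.I)) (2 * n)).det‖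

namespace ValueAux

lemma lc_eq {N : ℕ} {M : Type*} [AddCommMonoid M] [Module ℂ M] (g : Word → M) {v : VW} (hv : v ∈ VN N) :
    Finsupp.linearCombination ℂ g v = ∑ σ : Wd N, v σ.1 • g σ.1 := by
  rw [Finsupp.linearCombination_apply]
  have h1 : Finsupp.sum v (fun i a => a • g i) = ∑ x ∈ (Finset.univ : Finset (Wd N)).map
      ⟨fun σ : Wd N => σ.1, fun a b h => Subtype.ext h⟩, v x • g x := by
    apply Finsupp.sum_of_support_subset
    · intro w hw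
      rw [Finset.mem_map]
      have h := (Finsupp.mem_supported ℂ v).mp hv hw
      exact ⟨⟨w, h⟩, Finset.mem_univ _, rfl⟩
    · intro i _
      exact zero_smul _ _
  rw [h1, Finset.sum_map]
  rfl

lemma tot_eq {N : ℕ} {v : VW} (hv : v ∈ VN N) : tot v = ∑ σ : Wd N, v σ.1 := by
  unfold tot
  rw [lc_eq _ hv]
  simp

lemma pr_eq {N : ℕ} (f : Word → Word → ℕ) (t : ℂ) {v' v : VW} (hv' : v' ∈ VN N) (hv : v ∈ VN N) :
    pr f t v' v = ∑ σ : Wd N, ∑ τ : Wd N, v' σ.1 * v τ.1 * t ^ f σ.1 τ.1 := by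
  unfold pr
  rw [lc_eq _ hv', LinearMap.sum_apply]
  apply Finset.sum_congr rfl
  intro σ _
  rw [LinearMap.smul_apply, lc_eq _ hv, smul_eq_mul, Finset.mul_sum]
  apply Finset.sum_congr rfl
  intro τ _
  rw [smul_eq_mul]
  ring

lemma push_lin {m : ℕ} (g : Wd (m + 1) → Wd (m + 1)) (a : ℂ) (u v : Wd (m + 1) → ℂ) (σ : Wd (m + 1)) :
    push g (fun τ => u τ - a * v τ) σ = push g u σ - a * push g v σ := by
  unfold push
  rw [Finset.mul_sum, ← Finset.sum_sub_distrib]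
  apply Finset.sum_congr rfl
  intro τ _
  split_ifs <;> simp

lemma push_ofReal {m : ℕ} (g : Wd (m + 1) → Wd (m + 1)) (v : Wd (m + 1) → ℝ) (σ : Wd (m + 1)) :
    push g (fun τ => ((v τ : ℝ) : ℂ)) σ = ((push g v σ : ℝ) : ℂ) := by
  unfold push
  push_cast
  apply Finset.sum_congr rfl
  intro τ _
  split_ifs <;> simp

lemma eq_mu {q : ℂ} {Ψ : List ℂ → VW} (hΨ : Fam q Ψ) (m : ℕ) (μ : Wd (m + 1) → ℝ)
    (hμ : ∑ σ, μ σ = 1)
    (hst : ∀ σ, ∑ c : Fin (m + 1) → Bool, push (Tc m c) μ σ = 2 ^ (m + 1) * μ σ) (σ : Wd (m + 1)) :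
    Ψ (List.replicate (m + 1) 1) σ.1 = tot (Ψ (List.replicate (m + 1) 1)) * μ σ := by
  set P := Ψ (List.replicate (m + 1) 1) with hP
  have hmem : P ∈ VN (m + 1) := by
    have := hΨ.mem (List.replicate (m + 1) 1)
    rwa [List.length_replicate] at this
  have h := markov_unique m (fun τ => P τ.1 - tot P * (μ τ : ℂ)) (by
    intro σ
    have h1 : ∀ c : Fin (m + 1) → Bool, push (Tc m c) (fun τ => P τ.1 - tot P * (μ τ : ℂ)) σ =
        push (Tc m c) (fun τ => P τ.1) σ - tot P * ((push (Tc m c) μ σ : ℝ) : ℂ) := by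
      intro c
      rw [push_lin (Tc m c) (tot P) (fun τ => P τ.1) (fun τ => (μ τ : ℂ)) σ, push_ofReal]
    simp only [h1]
    rw [Finset.sum_sub_distrib, hΨ.stat m σ, ← Finset.mul_sum, ← Complex.ofReal_sum, hst σ]
    push_cast
    ring) (by
    rw [Finset.sum_sub_distrib, ← Finset.mul_sum, ← Complex.ofReal_sum, hμ, ← tot_eq hmem]
    simp)
  have := congrFun h σ
  simp only [Pi.zero_apply] at this
  exact sub_eq_zero.mp this

end ValueAux

open Classical in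
lemma ValueAux.main {n m : ℕ} (hm1 : m + 1 = 2 * n) {f : Word → Word → ℕ} (hf : FSpec f)
    (μ : Wd (m + 1) → ℝ) (hμ0 : ∀ σ, 0 ≤ μ σ) (hμ : ∑ σ, μ σ = 1)
    (hst : ∀ σ, ∑ c : Fin (m + 1) → Bool, push (Tc m c) μ σ = 2 ^ (m + 1) * μ σ) :
    ∑ σ, ∑ τ, (if f σ.1 τ.1 = 0 then 1 else 0) * μ σ * μ τ = oneArm n := by
  obtain ⟨q, hq⟩ : ∃ q : ℂ, q ^ 2 + q + 1 = 0 := ⟨_, Pool.Agent.H988R2.Perc.q_spec⟩
  have hq2 : (q ^ 2) ^ 2 + q ^ 2 + 1 = 0 := by
    calc (q ^ 2) ^ 2 + q ^ 2 + 1 = (q ^ 2 + q + 1) * (q ^ 2 - q + 1) := by ring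
      _ = 0 := by rw [hq, zero_mul]
  obtain ⟨Ψ, hΨ⟩ := exists_Fam q hq
  obtain ⟨Ψ', hΨ'⟩ := exists_Fam (q ^ 2) hq2
  obtain ⟨K, hK⟩ := exists_K q
  obtain ⟨K', hK'⟩ := exists_K (q ^ 2)
  set one := List.replicate (m + 1) (1 : ℂ) with hone
  set T := tot (Ψ one) with hT
  set T' := tot (Ψ' one) with hT'
  have hT0 : T ≠ 0 := hΨ.tot_ne (m + 1)
  have hT0' : T' ≠ 0 := hΨ'.tot_ne (m + 1)
  have hmem : Ψ one ∈ VN (m + 1) := by
    have := hΨ.mem one
    rwa [hone, List.length_replicate] at this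
  have hmem' : Ψ' one ∈ VN (m + 1) := by
    have := hΨ'.mem one
    rwa [hone, List.length_replicate] at this
  have e1 := ValueAux.eq_mu hΨ m μ hμ hst
  have e2 := ValueAux.eq_mu hΨ' m μ hμ hst
  -- the value of `G`
  have hG : ∀ t : ℂ, pr f t (Ψ' one) (Ψ one) =
      T' * T * ∑ σ : Wd (m + 1), ∑ τ : Wd (m + 1), (μ σ : ℂ) * μ τ * t ^ f σ.1 τ.1 := by
    intro t
    rw [ValueAux.pr_eq f t hmem' hmem, Finset.mul_sum]
    apply Finset.sum_congr rfl
    intro σ _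
    rw [Finset.mul_sum]
    apply Finset.sum_congr rfl
    intro τ _
    rw [e1 τ, e2 σ]
    ring
  -- `t = 0`
  have hI : Complex.I + Complex.I⁻¹ = 0 := by rw [Complex.inv_I]; ring
  have hIne : Complex.I ≠ -1 := by
    intro h
    have := congrArg Complex.re h
    simp at this
  have g0 := G_ones hq Complex.I_ne_zero hIne
    (G := fun z => pr f (Complex.I + Complex.I⁻¹) (Ψ' z) (Ψ z))
    (pr_GSpec hq hΨ hΨ' hK hK' hf (Complex.I + Complex.I⁻¹)) n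
  -- `t = 1`
  set w := Complex.exp (Real.pi / 3 * Complex.I) with hw
  have hwre : w = ((1 / 2 : ℝ) : ℂ) + ((Real.sqrt 3 / 2 : ℝ) : ℂ) * Complex.I := by
    rw [hw, Complex.exp_mul_I]
    have h1 : Complex.cos (Real.pi / 3) = ((1 / 2 : ℝ) : ℂ) := by
      rw [← Real.cos_pi_div_three]; push_cast; rfl
    have h2 : Complex.sin (Real.pi / 3) = ((Real.sqrt 3 / 2 : ℝ) : ℂ) := by
      rw [← Real.sin_pi_div_three]; push_cast; rfl
    rw [h1, h2]
  have hw0 : w ≠ 0 := Complex.exp_ne_zero _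
  have hwnorm : ‖w‖ = 1 := by
    rw [hw]
    have : (Real.pi / 3 * Complex.I : ℂ) = ((Real.pi / 3 : ℝ) : ℂ) * Complex.I := by push_cast; ring
    rw [this, Complex.norm_exp_ofReal_mul_I]
  have hwne : w ≠ -1 := by
    intro h
    have h1 : w.re = 1 / 2 := by rw [hwre]; simp
    rw [h] at h1
    norm_num at h1
  have hw1 : w + w⁻¹ = 1 := by
    have h3 : Real.sqrt 3 * Real.sqrt 3 = 3 := Real.mul_self_sqrt (by norm_num)
    have h4 : w * w - w + 1 = 0 := by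
      rw [hwre]
      apply Complex.ext
      · simp
        nlinarith
      · simp
        ring
    field_simp
    linear_combination h4
  have g1 := G_ones hq hw0 hwne
    (G := fun z => pr f (w + w⁻¹) (Ψ' z) (Ψ z))
    (pr_GSpec hq hΨ hΨ' hK hK' hf (w + w⁻¹)) n
  rw [← hm1] at g0 g1
  simp only [← hone] at g0 g1
  rw [hI, hG 0] at g0
  rw [hw1, hG 1] at g1
  -- evaluation
  have s1 : ∑ σ : Wd (m + 1), ∑ τ : Wd (m + 1), (μ σ : ℂ) * μ τ * 1 ^ f σ.1 τ.1 = 1 := by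
    have : ∑ σ : Wd (m + 1), ∑ τ : Wd (m + 1), (μ σ : ℂ) * μ τ * 1 ^ f σ.1 τ.1 =
        ((((∑ σ : Wd (m + 1), μ σ) * (∑ τ : Wd (m + 1), μ τ) : ℝ)) : ℂ) := by
      push_cast
      rw [Finset.sum_mul_sum]
      simp
    rw [this, hμ]
    simp
  set S : ℝ := ∑ σ : Wd (m + 1), ∑ τ : Wd (m + 1), (if f σ.1 τ.1 = 0 then 1 else 0) * μ σ * μ τ with hS
  have s0 : ∑ σ : Wd (m + 1), ∑ τ : Wd (m + 1), (μ σ : ℂ) * μ τ * 0 ^ f σ.1 τ.1 = ((S : ℝ) : ℂ) := by
    rw [hS]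
    push_cast
    apply Finset.sum_congr rfl
    intro σ _
    apply Finset.sum_congr rfl
    intro τ _
    by_cases h : f σ.1 τ.1 = 0
    · rw [if_pos h, h]; simp
    · rw [if_neg h, zero_pow h]; simp
  rw [s0] at g0
  rw [s1, mul_one] at g1
  have hS0 : 0 ≤ S := by
    rw [hS]
    apply Finset.sum_nonneg
    intro σ _
    apply Finset.sum_nonneg
    intro τ _
    have h1 := hμ0 σ
    have h2 := hμ0 τ
    split_ifs
    · positivity
    · rw [zero_mul, zero_mul]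
  have n0 := congrArg norm g0
  have n1 := congrArg norm g1
  have hIn : ‖(Complex.I⁻¹) ^ n‖ = 1 := by rw [norm_pow, norm_inv, Complex.norm_I, inv_one, one_pow]
  have hwn : ‖(w⁻¹) ^ n‖ = 1 := by rw [norm_pow, norm_inv, hwnorm, inv_one, one_pow]
  have hTT : 0 < ‖T' * T‖ := norm_pos_iff.mpr (mul_ne_zero hT0' hT0)
  generalize T' * T = TT at n0 n1 hTT
  rw [norm_mul, norm_mul, norm_mul, hIn, mul_one, Complex.norm_real, Real.norm_of_nonneg hS0] at n0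
  rw [norm_mul, norm_mul, hwn, mul_one] at n1
  set A : ℝ := ‖((3 : ℂ) ^ ((m + 1) * (n - 1)))‖ with hA
  have hfinal : S = oneArm n := by
    unfold oneArm
    rw [← hm1, ← hw]
    have hA0 : A * ‖(pas w (m + 1)).det‖ ≠ 0 := by rw [← n1]; exact hTT.ne'
    have hA1 : A ≠ 0 := left_ne_zero_of_mul hA0
    have hA2 : ‖(pas w (m + 1)).det‖ ≠ 0 := right_ne_zero_of_mul hA0
    rw [eq_div_iff hA2]
    apply mul_left_cancel₀ hA1
    calc A * (S * ‖(pas w (m + 1)).det‖) = (A * ‖(pas w (m + 1)).det‖) * S := by ring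
      _ = ‖TT‖ * S := by rw [n1]
      _ = _ := n0
  exact hfinal

open Classical in
/-- the exact formula for a stationary measure on the words of length `2n` -/
theorem onearm_value {n : ℕ} (hn : 1 ≤ n) {f : Word → Word → ℕ} (hf : FSpec f)
    (μ : Wd (2 * n - 1 + 1) → ℝ) (hμ0 : ∀ σ, 0 ≤ μ σ) (hμ : ∑ σ, μ σ = 1)
    (hst : ∀ σ, ∑ c : Fin (2 * n - 1 + 1) → Bool, push (Tc (2 * n - 1) c) μ σ
      = 2 ^ (2 * n - 1 + 1) * μ σ) :
    ∑ σ, ∑ τ, (if f σ.1 τ.1 = 0 then 1 else 0) * μ σ * μ τ = oneArm n := by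
  have h := ValueAux.main (n := n) (m := 2 * n - 1) (by omega) hf μ hμ0 hμ hst
  convert h using 5

end Pool.Agent.H863R2.Cyl
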