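import Pool.Agent.H863R2.Cyl.GProp
import Pool.Agent.H974R3.Alt
import Pool.Agent.H974R3.Value

/-! # Module V2: the value at `t = 1` (helper800) -/

namespace Pool.Agent.H863R2.Cyl
open Pool.Agent.H988R2.Perc (Word flipR flipL rem firstArc PD)
open Pool.Agent.H974R3 (aexp Dval)
open Pool.Agent.H974R3.AltAux

namespace Val2Aux

variable {R S : Type*} [CommRing R] [CommRing S]

/-- sharp degree bound -/
lemma aexp_bound' {r M j : ℕ} (hr : r = 1 ∨ r = 2) (hj : j ≤ M) :
    aexp r j - M ≤ aexp r M - M := by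
  unfold aexp
  rcases hr with rfl | rfl <;> omega

open Polynomial in
lemma gg_deg' (r : ℕ) (hr : r = 1 ∨ r = 2) (l : List R) :
    (gg r ((X : R[X]) :: l.map C)).natDegree ≤ aexp r l.length - l.length := by
  classical
  set F : PowerSeries R[X] := Hs (l.map C) with hF
  have hFC : F = PowerSeries.map C (Hs l) := by rw [hF, Hs_map]
  set G : PowerSeries R[X] := geo X * F with hG
  have hG0 : PowerSeries.coeff 0 G = PowerSeries.coeff 0 F := by
    rw [hG, PowerSeries.coeff_mul]
    simp [geo]
  have hGs : ∀ n, PowerSeries.coeff (n + 1) G - X * PowerSeries.coeff n G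
      = PowerSeries.coeff (n + 1) F := by
    intro n
    have h1 : G * (1 - PowerSeries.C X * PowerSeries.X) = F := by
      rw [hG]
      calc geo X * F * (1 - PowerSeries.C X * PowerSeries.X)
          = (geo X * (1 - PowerSeries.C X * PowerSeries.X)) * F := by ring
        _ = F := by rw [geo_mul, one_mul]
    rw [← h1, mul_sub, mul_one, map_sub, ← mul_assoc, PowerSeries.coeff_succ_mul_X,
      PowerSeries.coeff_mul_C]
    ring
  have hGdeg : ∀ n, (PowerSeries.coeff n G).natDegree ≤ n := by
    intro n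
    rw [hG, PowerSeries.coeff_mul]
    apply Polynomial.natDegree_sum_le_of_forall_le
    intro p hp
    rw [Finset.HasAntidiagonal.mem_antidiagonal] at hp
    rw [hFC]
    simp only [geo, PowerSeries.coeff_mk, PowerSeries.coeff_map]
    refine (Polynomial.natDegree_mul_C_le _ _).trans ?_
    refine (Polynomial.natDegree_X_pow_le _).trans ?_
    omega
  have hlen : (((X : R[X]) :: l.map C)).length = l.length + 1 := by simp
  unfold gg
  rw [Hs_cons, ← hF, ← hG, hlen]
  unfold Dm
  rw [← one_mul (Matrix.det _), ← Us_det (l.length + 1) 1 le_rfl (X : R[X]), ← Matrix.det_mul,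
    Matrix.det_apply]
  apply Polynomial.natDegree_sum_le_of_forall_le
  intro σ _
  refine (Polynomial.natDegree_smul_le _ _).trans ?_
  refine (Polynomial.natDegree_prod_le _ _).trans ?_
  have hterm : ∀ k ∈ (Finset.univ : Finset (Fin (l.length + 1))),
      ((Us (l.length + 1) 1 (X : R[X]) * Matrix.of fun k j : Fin (l.length + 1) =>
        if (k : ℕ) ≤ aexp r j then PowerSeries.coeff (aexp r j - k) G else 0) (σ k) k).natDegree
      ≤ if σ k = Fin.last l.length then aexp r l.length - l.length else 0 := by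
    intro k _
    rw [Us_mul _ _ le_rfl]
    simp only [Matrix.of_apply]
    by_cases hlast : σ k = Fin.last l.length
    · rw [if_pos hlast, hlast]
      simp only [Fin.val_last]
      rw [dif_neg (by omega), mul_zero, sub_zero]
      have hk : (k : ℕ) ≤ l.length := by have := k.isLt; omega
      have hb := aexp_bound' hr hk
      split_ifs with c
      · exact (hGdeg _).trans hb
      · simp
    · rw [if_neg hlast]
      have hlt : (σ k : ℕ) < l.length := by
        have h1 := (σ k).isLt
        have h2 : (σ k : ℕ) ≠ l.length := fun h3 => hlast (Fin.ext (by simp [h3]))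
        omega
      rw [dif_pos (by omega)]
      have hval : (if (σ k : ℕ) ≤ aexp r k then PowerSeries.coeff (aexp r k - (σ k : ℕ)) G else 0)
          - X * (if (σ k : ℕ) + 1 ≤ aexp r k then
              PowerSeries.coeff (aexp r k - ((σ k : ℕ) + 1)) G else 0)
          = if (σ k : ℕ) ≤ aexp r k then PowerSeries.coeff (aexp r k - (σ k : ℕ)) F else 0 := by
        rcases lt_trichotomy (σ k : ℕ) (aexp r k) with c | c | c
        · rw [if_pos c.le, if_pos (by omega), if_pos c.le]
          obtain ⟨n, hn⟩ : ∃ n, aexp r k - (σ k : ℕ) = n + 1 := ⟨aexp r k - (σ k : ℕ) - 1, by omega⟩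
          have hn2 : aexp r k - ((σ k : ℕ) + 1) = n := by omega
          rw [hn, hn2, hGs]
        · rw [if_pos c.le, if_neg (by omega), if_pos c.le, mul_zero, sub_zero, c, Nat.sub_self, hG0]
        · rw [if_neg (by omega), if_neg (by omega), if_neg (by omega), mul_zero, sub_zero]
      rw [hval]
      split_ifs with c
      · rw [hFC, PowerSeries.coeff_map]
        simp
      · simp
  refine (Finset.sum_le_sum hterm).trans ?_
  rw [Finset.sum_ite, Finset.sum_const_zero, add_zero, Finset.sum_const, smul_eq_mul]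
  have : (Finset.univ.filter fun k => σ k = Fin.last l.length).card = 1 := by
    rw [Finset.card_eq_one]
    refine ⟨σ.symm (Fin.last l.length), ?_⟩
    ext k
    simp [Equiv.eq_symm_apply]
  rw [this, one_mul]

open MvPolynomial in
/-- the universal polynomial -/
noncomputable def pg (r N : ℕ) : MvPolynomial (Fin N) ℂ := gg r (List.ofFn fun i : Fin N => X i)

open MvPolynomial in
lemma pg_eval (r N : ℕ) (l : List ℂ) (hl : l.length = N) :
    gg r l = eval (fun i : Fin N => l.getD i 0) (pg r N) := by
  subst hl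
  unfold pg
  rw [← gg_map]
  congr 1
  rw [List.map_ofFn]
  have : (⇑(eval fun i : Fin l.length => l.getD i 0) ∘ fun i : Fin l.length => X i) = l.get := by
    funext i
    simp
  rw [this, List.ofFn_get]

open MvPolynomial in
lemma pg_rename (r N : ℕ) (σ : Equiv.Perm (Fin N)) : rename σ (pg r N) = pg r N := by
  unfold pg
  have h1 : rename σ (gg r (List.ofFn fun i : Fin N => (X i : MvPolynomial (Fin N) ℂ)))
      = gg r ((List.ofFn fun i : Fin N => (X i : MvPolynomial (Fin N) ℂ)).map
        ((rename σ : MvPolynomial (Fin N) ℂ →ₐ[ℂ] MvPolynomial (Fin N) ℂ) :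
          MvPolynomial (Fin N) ℂ →+* MvPolynomial (Fin N) ℂ)) := by
    rw [gg_map]
    rfl
  rw [h1]
  apply gg_perm
  rw [List.map_ofFn]
  have h2 : (⇑((rename σ : MvPolynomial (Fin N) ℂ →ₐ[ℂ] MvPolynomial (Fin N) ℂ) :
          MvPolynomial (Fin N) ℂ →+* MvPolynomial (Fin N) ℂ) ∘
        fun i : Fin N => (X i : MvPolynomial (Fin N) ℂ)) = (fun i : Fin N => X i) ∘ σ := by
    funext i
    simp
  rw [h2]
  exact Equiv.Perm.ofFn_comp_perm σ _

open MvPolynomial in
lemma pg_deg (r : ℕ) (hr : r = 1 ∨ r = 2) (M : ℕ) (i : Fin (M + 1)) :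
    (pg r (M + 1)).degreeOf i ≤ aexp r M - M := by
  have h0 : (pg r (M + 1)).degreeOf 0 ≤ aexp r M - M := by
    rw [← natDegree_finSuccEquiv]
    have h1 : finSuccEquiv ℂ M (pg r (M + 1)) = gg r ((Polynomial.X :
        Polynomial (MvPolynomial (Fin M) ℂ)) ::
          (List.ofFn fun i : Fin M => (X i : MvPolynomial (Fin M) ℂ)).map Polynomial.C) := by
      unfold pg
      have h2 := gg_map ((finSuccEquiv ℂ M : MvPolynomial (Fin (M + 1)) ℂ ≃ₐ[ℂ]
        Polynomial (MvPolynomial (Fin M) ℂ)) : MvPolynomial (Fin (M + 1)) ℂ →+*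
          Polynomial (MvPolynomial (Fin M) ℂ)) r
          (List.ofFn fun i : Fin (M + 1) => (X i : MvPolynomial (Fin (M + 1)) ℂ))
      refine Eq.trans h2.symm ?_
      congr 1
      rw [List.ofFn_succ, List.map_cons, List.map_ofFn, List.map_ofFn]
      congr 1
      · exact finSuccEquiv_X_zero
      · congr 1
        funext j
        exact finSuccEquiv_X_succ
    rw [h1]
    have h3 := gg_deg' r hr (List.ofFn fun i : Fin M => (X i : MvPolynomial (Fin M) ℂ))
    rwa [List.length_ofFn] at h3
  have h1 := degreeOf_rename_of_injective (p := pg r (M + 1))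
    (Equiv.swap (0 : Fin (M + 1)) i).injective 0
  rw [pg_rename, Equiv.swap_apply_left] at h1
  rw [h1]
  exact h0

lemma aexp_sum (M : ℕ) : (aexp 1 M - M) + (aexp 2 M - M) = M := by
  unfold aexp
  omega

/-! ### value at zero -/

lemma geo_zero : geo (0 : R) = 1 := by
  ext n
  cases n with
  | zero => simp [geo]
  | succ n => simp [geo, PowerSeries.coeff_one]

lemma Hs_coeff_zero (l : List R) : PowerSeries.coeff 0 (Hs l) = 1 := by
  induction l with
  | nil => simp [Hs]
  | cons u l ih =>
    rw [Hs_cons, PowerSeries.coeff_zero_eq_constantCoeff_apply, map_mul,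
      ← PowerSeries.coeff_zero_eq_constantCoeff_apply,
      ← PowerSeries.coeff_zero_eq_constantCoeff_apply, ih]
    simp [geo]

/-- removing the exponent zero -/
lemma Dm_succ (a b : ℕ → ℕ) (h0 : a 0 = 0) (hab : ∀ j, a (j + 1) = b j + 1) (M : ℕ)
    (F : PowerSeries R) (hF : PowerSeries.coeff 0 F = 1) : Dm a (M + 1) F = Dm b M F := by
  unfold Dm
  rw [Matrix.det_succ_column_zero, Fin.sum_univ_succ, Finset.sum_eq_zero, add_zero]
  · simp only [Fin.val_zero, pow_zero, one_mul, Matrix.of_apply, h0, le_refl, if_true,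
      Nat.sub_self, hF]
    congr 1
    ext k j
    simp only [Matrix.submatrix_apply, Matrix.of_apply, Fin.succAbove_zero, Fin.val_succ, hab,
      Nat.add_le_add_iff_right, Nat.add_sub_add_right]
  · intro i _
    simp only [Matrix.of_apply, Fin.val_zero, h0, Fin.val_succ]
    rw [if_neg (by omega)]
    ring

lemma aexp1_succ (j : ℕ) : aexp 1 (j + 1) = aexp 2 j + 1 := by
  unfold aexp
  omega

lemma aexp2_succ (j : ℕ) : aexp 2 (j + 1) = (aexp 1 j + 1) + 1 := by
  unfold aexp
  omega

/-- raising all exponents by one -/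
lemma Dm_shift (a : ℕ → ℕ) (l : List ℂ) :
    Dm (fun j => a j + 1) l.length (Hs l) = l.prod * Dm a l.length (Hs l) := by
  classical
  set M := l.length with hM
  let U : Fin M → MvPolynomial (Fin M) ℂ := fun k => MvPolynomial.X k
  have h1 := bialt a U
  have h2 := bialt (fun j => a j + 1) U
  have h3 : Matrix.det (Matrix.of fun i j : Fin M => U i ^ (a j + 1))
      = (∏ i, U i) * Matrix.det (Matrix.of fun i j : Fin M => U i ^ a j) := by
    rw [← Matrix.det_mul_column]
    congr 1
    ext i j : 2
    simp only [Matrix.of_apply]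
    rw [pow_succ, mul_comm]
  rw [h2, h1] at h3
  have hV : (Matrix.vandermonde U).det ≠ 0 :=
    (Matrix.det_vandermonde_ne_zero_iff (v := U)).mpr (MvPolynomial.X_injective)
  have h4 : Dm (fun j => a j + 1) M (Hs (List.ofFn U)) = (∏ i, U i) * Dm a M (Hs (List.ofFn U)) := by
    apply mul_left_cancel₀ hV
    rw [h3]
    ring
  have h5 := congrArg (MvPolynomial.eval (fun k : Fin M => l.get k)) h4
  have e1 : ∀ b : ℕ → ℕ, MvPolynomial.eval (fun k : Fin M => l.get k)
      (Dm b M (Hs (List.ofFn U))) = Dm b M (Hs l) := by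
    intro b
    rw [← Dm_map, ← Hs_map, List.map_ofFn]
    congr 2
    have : (⇑(MvPolynomial.eval fun k : Fin M => l.get k) ∘ U) = l.get := by
      funext k
      simp [U]
    rw [this, List.ofFn_get]
  rw [map_mul, e1, e1, map_prod] at h5
  rw [h5]
  congr 1
  have : ∀ k, MvPolynomial.eval (fun k : Fin M => l.get k) (U k) = l.get k := by
    intro k; simp [U]
  rw [Finset.prod_congr rfl (fun k _ => this k), ← List.prod_ofFn]
  congr 1
  exact List.ofFn_get l

lemma gg1_zero (m : List ℂ) : gg 1 (0 :: m) = gg 2 m := by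
  unfold gg
  rw [Hs_cons, geo_zero, one_mul, List.length_cons]
  exact Dm_succ (aexp 1) (aexp 2) (by simp [aexp]) aexp1_succ _ _ (Hs_coeff_zero m)

lemma gg2_zero (m : List ℂ) : gg 2 (0 :: m) = m.prod * gg 1 m := by
  unfold gg
  rw [Hs_cons, geo_zero, one_mul, List.length_cons,
    Dm_succ (aexp 2) (fun j => aexp 1 j + 1) (by simp [aexp]) aexp2_succ _ _ (Hs_coeff_zero m),
    Dm_shift]

lemma ones_val (r : ℕ) (hr : r = 1 ∨ r = 2) (N : ℕ) :
    gg r (List.replicate N (1 : ℂ)) = ((Dval r N : ℝ) : ℂ) := by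
  have h := ones r hr N
  have h1 : (∏ j ∈ Finset.range N, ∏ i ∈ Finset.range j, ((j - i : ℕ) : ℂ)) ≠ 0 := by
    rw [Finset.prod_ne_zero_iff]
    intro j _
    rw [Finset.prod_ne_zero_iff]
    intro i hi
    rw [Finset.mem_range] at hi
    have : j - i ≠ 0 := by omega
    exact_mod_cast this
  apply mul_left_cancel₀ h1
  rw [h]
  unfold Dval
  push_cast
  rw [← Finset.prod_mul_distrib]
  apply Finset.prod_congr rfl
  intro j _
  rw [← Finset.prod_mul_distrib]
  apply Finset.prod_congr rfl
  intro i hi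
  rw [Finset.mem_range] at hi
  have : ((j - i : ℕ) : ℂ) ≠ 0 := by
    have : j - i ≠ 0 := by omega
    exact_mod_cast this
  rw [mul_div_cancel₀]
  exact this

end Val2Aux

open Val2Aux in
theorem gspec_plus (q : ℂ) (hq : q ^ 2 + q + 1 = 0) :
    ∃ G : List ℂ → ℂ, GSpec q 1 G ∧ ∀ N : ℕ, G (List.replicate N 1) =
      ((Pool.Agent.H974R3.Dval 1 N * Pool.Agent.H974R3.Dval 2 N : ℝ) : ℂ) ^ 2 := by
  refine ⟨fun z => (gg 1 z * gg 2 z) ^ 2, ⟨?_, ?_, ?_, ?_, ?_⟩, ?_⟩
  · intro l l' h
    simp only [gg_perm 1 h, gg_perm 2 h]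
  · unfold gg Dm
    simp
  · intro N
    rcases N with _ | M
    · refine ⟨1, fun i => i.elim0, ?_⟩
      intro l hl
      have : l = [] := List.length_eq_zero_iff.1 hl
      subst this
      unfold gg Dm
      simp
    · refine ⟨(pg 1 (M + 1) * pg 2 (M + 1)) ^ 2, ?_, ?_⟩
      · intro i
        refine (MvPolynomial.degreeOf_pow_le _ _ _).trans ?_
        have h1 := MvPolynomial.degreeOf_mul_le i (pg 1 (M + 1)) (pg 2 (M + 1))
        have h2 := pg_deg 1 (Or.inl rfl) M i
        have h3 := pg_deg 2 (Or.inr rfl) M i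
        have h4 := aexp_sum M
        rw [Nat.add_sub_cancel]
        exact Nat.mul_le_mul_left 2 (by omega)
      · intro l hl
        rw [map_pow, map_mul, ← pg_eval 1 _ l hl, ← pg_eval 2 _ l hl]
  · intro x m
    have hq3 : q ^ 3 = 1 := by linear_combination (q - 1) * hq
    have h1 := recur q hq 1 (Or.inl rfl) x m
    have h2 := recur q hq 2 (Or.inr rfl) x m
    simp only [if_true, OfNat.ofNat_ne_one, if_false, one_mul] at h1 h2
    have h3 : (m.map (fun y => (y - q ^ 2 * x) ^ 4)).prod =
        (m.map (fun y => y - q ^ 2 * x)).prod ^ 4 := by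
      clear h1 h2
      induction m with
      | nil => simp
      | cons y m ih => rw [List.map_cons, List.prod_cons, ih, List.map_cons, List.prod_cons, mul_pow]
    simp only [h1, h2, h3]
    linear_combination (x ^ 2 * q * (m.map (fun y => y - q ^ 2 * x)).prod ^ 4 *
      (gg 1 m * gg 2 m) ^ 2) * hq3
  · intro m
    have hc : cst m.length 1 = 1 := by
      unfold cst
      split_ifs
      · rfl
      · norm_num
    simp only [gg1_zero, gg2_zero, hc]
    ring
  · intro N
    simp only [ones_val 1 (Or.inl rfl), ones_val 2 (Or.inr rfl)]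
    push_cast
    ring

end Pool.Agent.H863R2.Cyl
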