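import Pool.Agent.H863R2.Cyl.DetP
import Pool.Agent.H863R2.Cyl.GProp

/-! Module R2: the determinant formula -/

namespace Pool.Agent.H863R2.Cyl
open Pool.Agent.H988R2.Perc (Word flipR flipL rem firstArc PD)

namespace DetGAux
open Polynomial

noncomputable def DD (q w : ℂ) {N : ℕ} (z : Fin N → ℂ) : ℂ :=
  wd q z * (∏ i, z i) * (kern q w z).det

theorem wd_perm (q : ℂ) {N : ℕ} (z : Fin N → ℂ) (σ : Equiv.Perm (Fin N)) :
    wd q (z ∘ σ) = wd q z := by
  unfold wd
  rw [← Equiv.prod_comp σ
    (fun i => ∏ j ∈ Finset.univ.filter (· ≠ i), (q ^ 2 * z i - q * z j) ^ 2)]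
  apply Finset.prod_congr rfl
  intro i _
  rw [Finset.prod_filter, Finset.prod_filter,
    ← Equiv.prod_comp σ (fun j => if j ≠ σ i then (q ^ 2 * z (σ i) - q * z j) ^ 2 else 1)]
  apply Finset.prod_congr rfl
  intro j _
  by_cases h : j = i
  · rw [if_neg (by simp [h]), if_neg (by simp [h])]
  · rw [if_pos h, if_pos (fun h' => h (σ.injective h'))]
    rfl

theorem vd_eq {N : ℕ} (z : Fin N → ℂ) : vd z = (Matrix.vandermonde z).det ^ 2 := by
  rw [Matrix.det_vandermonde, ← Finset.prod_pow]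
  unfold vd
  apply Finset.prod_congr rfl
  intro i _
  rw [← Finset.prod_pow]
  have h : Finset.univ.filter (i < ·) = Finset.Ioi i := by
    ext j
    simp
  rw [h]
  apply Finset.prod_congr rfl
  intro j _
  ring

theorem vd_perm {N : ℕ} (z : Fin N → ℂ) (σ : Equiv.Perm (Fin N)) : vd (z ∘ σ) = vd z := by
  rw [vd_eq, vd_eq]
  have h : Matrix.vandermonde (z ∘ σ) = (Matrix.vandermonde z).submatrix σ id := by
    ext i j
    simp [Matrix.vandermonde_apply]
  rw [h, Matrix.det_permute, mul_pow]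
  have h2 : ((Equiv.Perm.sign σ : ℤ) : ℂ) ^ 2 = 1 := by
    rcases Int.units_eq_one_or (Equiv.Perm.sign σ) with h | h <;> rw [h] <;> simp
  rw [h2, one_mul]

theorem vd_cons {N : ℕ} (x : ℂ) (z : Fin N → ℂ) :
    vd (Fin.cons x z : Fin (N + 1) → ℂ) = (∏ j, (x - z j) ^ 2) * vd z := by
  unfold vd
  rw [Fin.prod_univ_succ]
  congr 1
  · rw [Finset.prod_filter, Fin.prod_univ_succ]
    simp
  · apply Finset.prod_congr rfl
    intro i _
    rw [Finset.prod_filter, Finset.prod_filter, Fin.prod_univ_succ]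
    simp

theorem DD_perm (q w : ℂ) {N : ℕ} (z : Fin N → ℂ) (σ : Equiv.Perm (Fin N)) :
    DD q w (z ∘ σ) = DD q w z := by
  unfold DD
  rw [wd_perm]
  have h1 : ∏ i, (z ∘ σ) i = ∏ i, z i := Equiv.prod_comp σ z
  have h2 : kern q w (z ∘ σ) = (kern q w z).submatrix σ σ := by
    ext i j
    rfl
  rw [h1, h2, Matrix.det_submatrix_equiv_self]

theorem Gen_perm {q : ℂ} {N : ℕ} {z : Fin N → ℂ} (σ : Equiv.Perm (Fin N)) (h : Gen q z) :
    Gen q (z ∘ σ) :=
  ⟨fun i => h.1 (σ i), fun i j hij => h.2.1 _ _ (fun h' => hij (σ.injective h')),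
    fun i j hij => h.2.2 _ _ (fun h' => hij (σ.injective h'))⟩

theorem Gen_tail {q : ℂ} {N : ℕ} {x : ℂ} {z : Fin N → ℂ}
    (h : Gen q (Fin.cons x z : Fin (N + 1) → ℂ)) : Gen q z :=
  ⟨fun i => h.1 i.succ, fun i j hij => h.2.1 i.succ j.succ (fun h' => hij (Fin.succ_injective _ h')),
    fun i j hij => h.2.2 i.succ j.succ (fun h' => hij (Fin.succ_injective _ h'))⟩

theorem cons_perm {N : ℕ} (x : ℂ) (z : Fin N → ℂ) (σ : Equiv.Perm (Fin N)) :
    ∃ τ : Equiv.Perm (Fin (N + 1)),
      (Fin.cons x (z ∘ σ) : Fin (N + 1) → ℂ) = (Fin.cons x z : Fin (N + 1) → ℂ) ∘ τ := by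
  refine ⟨Equiv.Perm.decomposeFin.symm (0, σ), ?_⟩
  funext i
  refine Fin.cases ?_ (fun i => ?_) i
  · simp
  · simp

theorem PD_first {N d : ℕ} {F : List ℂ → ℂ} (h : PD (N + 1) d F) (z : Fin N → ℂ) :
    ∃ P : ℂ[X], P.natDegree ≤ d ∧ ∀ x, P.eval x = F (x :: List.ofFn z) := by
  obtain ⟨p, hp, hF⟩ := h
  refine ⟨Polynomial.map (MvPolynomial.eval z) (MvPolynomial.finSuccEquiv ℂ N p), ?_, fun x => ?_⟩
  · refine Polynomial.natDegree_map_le.trans ?_
    rw [MvPolynomial.natDegree_finSuccEquiv]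
    exact hp 0
  · rw [← MvPolynomial.eval_eq_eval_mv_eval', hF (x :: List.ofFn z) (by simp)]
    congr 2
    funext i
    refine Fin.cases ?_ (fun i => ?_) i
    · simp
    · simp

theorem prod_sq_dvd {N : ℕ} {P : ℂ[X]} {z : Fin N → ℂ} (hz : ∀ i j, i ≠ j → z i ≠ z j)
    (h : ∀ i, P.eval (z i) = 0 ∧ P.derivative.eval (z i) = 0) :
    (∏ i, (X - C (z i)) ^ 2) ∣ P := by
  by_cases hP : P = 0
  · rw [hP]
    exact dvd_zero _
  · have hinj : Function.Injective z := fun i j hij => by
      by_contra hne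
      exact hz i j hne hij
    apply Finset.prod_dvd_of_coprime
    · intro i _ j _ hij
      exact (Polynomial.pairwise_coprime_X_sub_C hinj hij).pow
    · intro i _
      rw [← Polynomial.le_rootMultiplicity_iff hP]
      exact (Polynomial.one_lt_rootMultiplicity_iff_isRoot hP).2 (h i)

theorem cN_add_two (q w : ℂ) (M : ℕ) : cN q w (M + 2) = -w⁻¹ * cN q w M := by
  unfold cN
  have h1 : (M + 2) / 2 = M / 2 + 1 := by omega
  have h2 : Even (M + 2) ↔ Even M := by
    rw [Nat.even_add]
    simp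
  rw [h1, pow_succ]
  by_cases h : Even M
  · rw [if_pos h, if_pos (h2.2 h)]
    ring
  · rw [if_neg h, if_neg (fun h' => h (h2.1 h'))]
    ring

theorem q_ne {q : ℂ} (hq : q ^ 2 + q + 1 = 0) : q ≠ 0 := by
  intro h
  rw [h] at hq
  simp at hq

theorem q_ne1 {q : ℂ} (hq : q ^ 2 + q + 1 = 0) : q ≠ 1 := by
  intro h
  rw [h] at hq
  norm_num at hq

theorem cN_succ {q w : ℂ} (hq : q ^ 2 + q + 1 = 0) (hw : w ≠ 0) (hw1 : w ≠ -1) (N : ℕ) :
    cN q w (N + 1) * ((1 + w) / (q ^ 2 - q)) = cst N (w + w⁻¹) * cN q w N := by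
  have h0 := q_ne hq
  have h1 : q ^ 2 - q ≠ 0 := by
    intro h
    have : q * (q - 1) = 0 := by linear_combination h
    rcases mul_eq_zero.1 this with h | h
    · exact h0 h
    · exact q_ne1 hq (by linear_combination h)
  have h2 : 1 + w ≠ 0 := fun h => hw1 (by linear_combination h)
  unfold cN cst
  rcases Nat.even_or_odd' N with ⟨a, ha | ha⟩
  · have e1 : (N + 1) / 2 = a := by omega
    have e2 : N / 2 = a := by omega
    have e3 : Even N := ⟨a, by omega⟩
    have e4 : ¬ Even (N + 1) := by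
      rw [Nat.even_add_one]
      exact not_not.2 e3
    rw [e1, e2, if_pos e3, if_pos e3, if_neg e4]
    have h5 : (q ^ 2 - q) / (1 + w) * ((1 + w) / (q ^ 2 - q)) = 1 := by
      rw [div_mul_div_comm, mul_comm (q ^ 2 - q) (1 + w), div_self (mul_ne_zero h2 h1)]
    linear_combination ((-w⁻¹) ^ a) * h5
  · have e1 : (N + 1) / 2 = a + 1 := by omega
    have e2 : N / 2 = a := by omega
    have e3 : ¬ Even N := by
      rw [Nat.not_even_iff_odd]
      exact ⟨a, ha⟩
    have e4 : Even (N + 1) := by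
      rw [Nat.even_add_one]
      exact e3
    rw [e1, e2, if_neg e3, if_neg e3, if_pos e4, pow_succ]
    have h3 : (q ^ 2 - q) ^ 2 = -3 := by
      linear_combination (q ^ 2 - 3 * q + 3) * hq
    have h4 : -w⁻¹ * ((1 + w) / (q ^ 2 - q)) = (w + w⁻¹ + 2) / 3 * ((q ^ 2 - q) / (1 + w)) := by
      generalize q ^ 2 - q = s at *
      field_simp
      linear_combination (-(1 + w) ^ 2) * h3
    linear_combination ((-w⁻¹) ^ a) * h4

end DetGAux

open DetGAux Polynomial in
theorem DetGAux.core {q w : ℂ} (hq : q ^ 2 + q + 1 = 0) (hw : w ≠ 0) (hw1 : w ≠ -1)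
    {G : List ℂ → ℂ} (hG : GSpec q (w + w⁻¹) G) {N : ℕ} (x : ℂ) (z : Fin N → ℂ)
    (hxz : Gen q (Fin.cons x z : Fin (N + 1) → ℂ))
    (ih0 : G (List.ofFn z) * vd z = cN q w N * DD q w z)
    (ih1 : ∀ M : ℕ, N = M + 1 → ∀ z' : Fin M → ℂ, Gen q z' →
      G (List.ofFn z') * vd z' = cN q w M * DD q w z') :
    G (x :: List.ofFn z) * vd (Fin.cons x z : Fin (N + 1) → ℂ) =
      cN q w (N + 1) * DD q w (Fin.cons x z : Fin (N + 1) → ℂ) := by
  have hz : Gen q z := Gen_tail hxz
  have hq0 := q_ne hq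
  have hq1 := q_ne1 hq
  have hq3 : q ^ 3 = 1 := by linear_combination (q - 1) * hq
  obtain ⟨P, hPdeg, hPx, hP0, hPd⟩ := det_poly (w := w) hq z hz
  obtain ⟨Pg, hPgdeg, hPg⟩ := PD_first (hG.deg (N + 1)) z
  have hN1 : 2 * (N + 1 - 1) = 2 * N := by omega
  rw [hN1] at hPgdeg
  obtain ⟨P2, hP2⟩ := prod_sq_dvd hz.2.1 hPd
  have hMeval : ∀ y : ℂ, (∏ i, (X - C (z i)) ^ 2 : ℂ[X]).eval y = ∏ i, (y - z i) ^ 2 := by
    intro y
    rw [Polynomial.eval_prod]
    simp
  have hMmonic : (∏ i, (X - C (z i)) ^ 2 : ℂ[X]).Monic :=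
    Polynomial.monic_prod_of_monic _ _ fun i _ => (Polynomial.monic_X_sub_C _).pow 2
  have hMdeg : (∏ i, (X - C (z i)) ^ 2 : ℂ[X]).natDegree = 2 * N := by
    rw [Polynomial.natDegree_prod_of_monic _ _ fun i _ => (Polynomial.monic_X_sub_C _).pow 2]
    simp [mul_comm]
  have hP2deg : P2.natDegree ≤ 2 * N := by
    by_cases h0 : P2 = 0
    · rw [h0]
      simp
    · rw [hP2, hMmonic.natDegree_mul' h0, hMdeg] at hPdeg
      omega
  -- the key identity at the interpolation points
  have key : ∀ y ∈ insert (0 : ℂ) ((Finset.univ.image fun j => q * z j) ∪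
      (Finset.univ.image fun j => q ^ 2 * z j)),
      (∏ i, (y - z i) ^ 2 ≠ 0) ∧
      vd z * Pg.eval y * ∏ i, (y - z i) ^ 2 = cN q w (N + 1) * P.eval y := by
    intro y hy
    rw [Finset.mem_insert, Finset.mem_union, Finset.mem_image, Finset.mem_image] at hy
    rcases hy with rfl | ⟨j, _, rfl⟩ | ⟨j, _, rfl⟩
    · refine ⟨?_, ?_⟩
      · rw [Finset.prod_ne_zero_iff]
        intro i _
        rw [zero_sub, neg_sq]
        exact pow_ne_zero _ (hz.1 i)
      · rw [hPg, hG.zero, hP0, List.length_ofFn, List.prod_ofFn]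
        have e1 : ∏ i, ((0 : ℂ) - z i) ^ 2 = (∏ i, z i) ^ 2 := by
          rw [← Finset.prod_pow]
          exact Finset.prod_congr rfl fun i _ => by ring
        rw [e1]
        have e2 := cN_succ hq hw hw1 N
        unfold DD at ih0
        linear_combination (cst N (w + w⁻¹) * (∏ i, z i) ^ 4) * ih0 -
          ((∏ i, z i) ^ 4 * (wd q z * (∏ i, z i) * (kern q w z).det)) * e2
    all_goals
      obtain ⟨M, rfl⟩ : ∃ M, N = M + 1 := ⟨N - 1, by have := j.2; omega⟩
      set y := z j with hy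
      set z2 : Fin M → ℂ := fun i => z (j.succAbove i) with hz2
      have hσ : z ∘ (j.cycleRange.symm) = (Fin.cons y z2 : Fin (M + 1) → ℂ) := by
        funext i
        have h1 := Fin.insertNth_apply_cycleRange_symm j y z2 i
        have h2 : (j.insertNth y z2 : Fin (M + 1) → ℂ) = z := by
          have := Fin.insertNth_self_removeNth j z
          exact this
        rw [h2] at h1
        exact h1
      set σ : Equiv.Perm (Fin (M + 1)) := j.cycleRange.symm with hσdef
      have hgen2 : Gen q (Fin.cons y z2 : Fin (M + 1) → ℂ) := by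
        rw [← hσ]
        exact Gen_perm σ hz
      have hgen3 : Gen q z2 := Gen_tail hgen2
      have ih := ih1 M rfl z2 hgen3
      have hperm : (List.ofFn z).Perm (y :: List.ofFn z2) := by
        have h1 := Equiv.Perm.ofFn_comp_perm σ z
        rw [hσ, List.ofFn_cons] at h1
        exact h1.symm
      have hvd : vd z = (∏ i, (y - z2 i) ^ 2) * vd z2 := by
        rw [← vd_perm z σ, hσ, vd_cons]
      have hprod : ∀ t : ℂ, ∏ i, (t - z i) ^ 2 = (t - y) ^ 2 * ∏ i, (t - z2 i) ^ 2 := by
        intro t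
        rw [← Equiv.prod_comp σ (fun i => (t - z i) ^ 2)]
        have h1 : ∀ i, (t - z (σ i)) ^ 2 = (t - (Fin.cons y z2 : Fin (M + 1) → ℂ) i) ^ 2 := by
          intro i
          rw [← hσ]
          rfl
        rw [Finset.prod_congr rfl (fun i _ => h1 i), Fin.prod_univ_succ]
        simp
      have hrec := det_rec (w := w) hq y z2 hgen2 P (fun t ht => by
        obtain ⟨τ, hτ⟩ := cons_perm t z σ
        rw [hσ] at hτ
        have h1 : (Fin.cons t z : Fin (M + 1 + 1) → ℂ) =
            (Fin.cons t (Fin.cons y z2 : Fin (M + 1) → ℂ) : Fin (M + 1 + 1) → ℂ) ∘ τ.symm := by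
          rw [hτ]
          funext i
          simp
        have h2 : Gen q (Fin.cons t z : Fin (M + 1 + 1) → ℂ) := by
          rw [h1]
          exact Gen_perm _ ht
        have h3 := hPx t h2
        have h4 := DD_perm q w (Fin.cons t z : Fin (M + 1 + 1) → ℂ) τ
        rw [← hτ] at h4
        unfold DD at h4
        rw [h3, h4])
      have hy0 : y ≠ 0 := hz.1 j
      have hcN := cN_add_two q w M
      have hww : w * w⁻¹ = 1 := mul_inv_cancel₀ hw
      unfold DD at ih
    · -- the point `q y`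
      have hne : ∏ i, (q * y - z i) ^ 2 ≠ 0 := by
        rw [Finset.prod_ne_zero_iff]
        intro i _
        apply pow_ne_zero
        intro h
        by_cases hij : i = j
        · rw [hij, ← hy] at h
          have h5 : (q - 1) * y = 0 := by linear_combination h
          rcases mul_eq_zero.1 h5 with h6 | h6
          · exact hq1 (by linear_combination h6)
          · exact hy0 h6
        · apply hz.2.2 j i (fun h' => hij h'.symm)
          rw [← hy]
          linear_combination q * h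
      refine ⟨hne, ?_⟩
      rw [hrec.2, hPg, hprod, hvd]
      have hGv : G (q * y :: List.ofFn z) = q * y ^ 2 *
          (∏ i, (z2 i - q ^ 2 * y) ^ 4) * G (List.ofFn z2) := by
        rw [hG.perm (q * y :: List.ofFn z) (y :: (q * y) :: List.ofFn z2)
          ((hperm.cons _).trans (List.Perm.swap _ _ _)), hG.recu, List.map_ofFn, List.prod_ofFn]
        rfl
      rw [hGv, hcN]
      have e1 : ∏ i, (y - z2 i) ^ 2 = ∏ i, (z2 i - y) ^ 2 :=
        Finset.prod_congr rfl fun i _ => by ring
      have e2 : ∏ i, (q * y - z2 i) ^ 2 = ∏ i, (z2 i - q * y) ^ 2 :=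
        Finset.prod_congr rfl fun i _ => by ring
      have e3 : ∏ i, ((z2 i - q * y) ^ 2 * (z2 i - q ^ 2 * y) ^ 4 * (z2 i - y) ^ 2) =
          (∏ i, (z2 i - q * y) ^ 2) * (∏ i, (z2 i - q ^ 2 * y) ^ 4) * ∏ i, (z2 i - y) ^ 2 := by
        rw [Finset.prod_mul_distrib, Finset.prod_mul_distrib]
      rw [e1, e2, e3]
      generalize ∏ i, (z2 i - y) ^ 2 = a at *
      generalize ∏ i, (z2 i - q * y) ^ 2 = b at *
      generalize ∏ i, (z2 i - q ^ 2 * y) ^ 4 = c at *
      generalize G (List.ofFn z2) = g at *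
      generalize vd z2 = V at *
      generalize wd q z2 * (∏ i, z2 i) * (kern q w z2).det = D at *
      generalize cN q w M = cM at *
      have hqq : (q * y - y) ^ 2 = -3 * q * y ^ 2 := by linear_combination y ^ 2 * hq
      rw [hqq]
      linear_combination (a * (q * y ^ 2) * c * (-3 * q * y ^ 2) * b) * ih -
        (cM * (q * y ^ 2) * (-3 * q * y ^ 2) * (b * c * a) * D) * hww
    · -- the point `q² y`
      have hne : ∏ i, (q ^ 2 * y - z i) ^ 2 ≠ 0 := by
        rw [Finset.prod_ne_zero_iff]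
        intro i _
        apply pow_ne_zero
        intro h
        by_cases hij : i = j
        · rw [hij, ← hy] at h
          have h5 : (q ^ 2 - 1) * y = 0 := by linear_combination h
          rcases mul_eq_zero.1 h5 with h6 | h6
          · apply hq1
            linear_combination (-(q : ℂ)) * h6 + hq3
          · exact hy0 h6
        · apply hz.2.2 i j hij
          rw [← hy]
          linear_combination (-(q ^ 2)) * h + (q * y) * hq3
      refine ⟨hne, ?_⟩
      rw [hrec.1, hPg, hprod, hvd]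
      have hqx : q * (q ^ 2 * y) = y := by linear_combination y * hq3
      have hGv : G (q ^ 2 * y :: List.ofFn z) = q * (q ^ 2 * y) ^ 2 *
          (∏ i, (z2 i - q * y) ^ 4) * G (List.ofFn z2) := by
        have h6 := hG.recu (q ^ 2 * y) (List.ofFn z2)
        rw [hqx] at h6
        rw [hG.perm (q ^ 2 * y :: List.ofFn z) (q ^ 2 * y :: y :: List.ofFn z2)
          (hperm.cons _), h6, List.map_ofFn, List.prod_ofFn]
        have h7 : ∏ i, ((fun t => (t - q ^ 2 * (q ^ 2 * y)) ^ 4) ∘ z2) i =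
            ∏ i, (z2 i - q * y) ^ 4 := by
          apply Finset.prod_congr rfl
          intro i _
          have h8 : q ^ 2 * (q ^ 2 * y) = q * y := by linear_combination (q * y) * hq3
          simp only [Function.comp_apply]
          rw [h8]
        rw [h7]
      rw [hGv, hcN]
      have e1 : ∏ i, (y - z2 i) ^ 2 = ∏ i, (z2 i - y) ^ 2 :=
        Finset.prod_congr rfl fun i _ => by ring
      have e2 : ∏ i, (q ^ 2 * y - z2 i) ^ 2 = ∏ i, (z2 i - q ^ 2 * y) ^ 2 :=
        Finset.prod_congr rfl fun i _ => by ring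
      have e3 : ∏ i, ((z2 i - y) ^ 2 * (z2 i - q * y) ^ 4 * (z2 i - q ^ 2 * y) ^ 2) =
          (∏ i, (z2 i - y) ^ 2) * (∏ i, (z2 i - q * y) ^ 4) * ∏ i, (z2 i - q ^ 2 * y) ^ 2 := by
        rw [Finset.prod_mul_distrib, Finset.prod_mul_distrib]
      rw [e1, e2, e3]
      generalize ∏ i, (z2 i - y) ^ 2 = a at *
      generalize ∏ i, (z2 i - q * y) ^ 4 = b at *
      generalize ∏ i, (z2 i - q ^ 2 * y) ^ 2 = c at *
      generalize G (List.ofFn z2) = g at *
      generalize vd z2 = V at *
      generalize wd q z2 * (∏ i, z2 i) * (kern q w z2).det = D at *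
      generalize cN q w M = cM at *
      have hqq : (q ^ 2 * y - y) ^ 2 = -3 * q * (q ^ 2 * y) ^ 2 := by
        linear_combination (y ^ 2 * (q ^ 2 - q - 2 + 3)) * hq + (y ^ 2 * (3 * q ^ 2)) * hq3
      rw [hqq]
      linear_combination (a * (q * (q ^ 2 * y) ^ 2) * b * (-3 * q * (q ^ 2 * y) ^ 2) * c) * ih -
        (cM * (q * (q ^ 2 * y) ^ 2) * (-3 * q * (q ^ 2 * y) ^ 2) * (a * b * c) * D) * hww
  -- interpolation
  have hcard : 2 * N < (insert (0 : ℂ) ((Finset.univ.image fun j => q * z j) ∪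
      (Finset.univ.image fun j => q ^ 2 * z j))).card := by
    have hinj : Function.Injective z := fun i j hij => by
      by_contra hne
      exact hz.2.1 i j hne hij
    have h1 : (0 : ℂ) ∉ ((Finset.univ.image fun j => q * z j) ∪
        (Finset.univ.image fun j => q ^ 2 * z j)) := by
      rw [Finset.mem_union, Finset.mem_image, Finset.mem_image]
      rintro (⟨j, _, h⟩ | ⟨j, _, h⟩)
      · exact mul_ne_zero hq0 (hz.1 j) h
      · exact mul_ne_zero (pow_ne_zero _ hq0) (hz.1 j) h
    have h2 : Disjoint (Finset.univ.image fun j => q * z j)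
        (Finset.univ.image fun j => q ^ 2 * z j) := by
      rw [Finset.disjoint_left]
      intro t h3 h4
      rw [Finset.mem_image] at h3 h4
      obtain ⟨i, _, hi⟩ := h3
      obtain ⟨j, _, hj⟩ := h4
      by_cases hij : j = i
      · rw [hij] at hj
        have h5 : q * (q - 1) * z i = 0 := by linear_combination hj - hi
        rcases mul_eq_zero.1 h5 with h6 | h6
        · rcases mul_eq_zero.1 h6 with h7 | h7
          · exact hq0 h7
          · exact hq1 (by linear_combination h7)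
        · exact hz.1 i h6
      · exact hz.2.2 j i hij (hj.trans hi.symm)
    rw [Finset.card_insert_of_notMem h1, Finset.card_union_of_disjoint h2,
      Finset.card_image_of_injective _ (fun i j h => hinj (mul_left_cancel₀ hq0 h)),
      Finset.card_image_of_injective _ (fun i j h => hinj (mul_left_cancel₀ (pow_ne_zero 2 hq0) h)),
      Finset.card_univ, Fintype.card_fin]
    omega
  have hzero : C (vd z) * Pg - C (cN q w (N + 1)) * P2 = 0 := by
    refine Polynomial.eq_zero_of_natDegree_lt_card_of_eval_eq_zero' _ _ (fun y hy => ?_)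
      (lt_of_le_of_lt ?_ hcard)
    · obtain ⟨h1, h2⟩ := key y hy
      rw [hP2, Polynomial.eval_mul, hMeval] at h2
      rw [Polynomial.eval_sub, Polynomial.eval_mul, Polynomial.eval_mul, Polynomial.eval_C,
        Polynomial.eval_C]
      have h3 : (∏ i, (y - z i) ^ 2) *
          (vd z * Pg.eval y - cN q w (N + 1) * P2.eval y) = 0 := by
        linear_combination h2
      exact (mul_eq_zero.1 h3).resolve_left h1
    · refine (Polynomial.natDegree_sub_le _ _).trans (max_le ?_ ?_)
      · exact (Polynomial.natDegree_C_mul_le _ _).trans hPgdeg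
      · exact (Polynomial.natDegree_C_mul_le _ _).trans hP2deg
  have hx := congrArg (Polynomial.eval x) hzero
  rw [Polynomial.eval_sub, Polynomial.eval_mul, Polynomial.eval_mul, Polynomial.eval_C,
    Polynomial.eval_C, Polynomial.eval_zero, hPg] at hx
  have hPx2 := hPx x hxz
  rw [hP2, Polynomial.eval_mul, hMeval] at hPx2
  rw [vd_cons]
  unfold DD
  rw [← hPx2]
  linear_combination (∏ i, (x - z i) ^ 2) * hx

open DetGAux in
theorem G_formula {q w : ℂ} (hq : q ^ 2 + q + 1 = 0) (hw : w ≠ 0) (hw1 : w ≠ -1)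
    {G : List ℂ → ℂ} (hG : GSpec q (w + w⁻¹) G) (N : ℕ) (z : Fin N → ℂ) (hz : Gen q z) :
    G (List.ofFn z) * vd z = cN q w N * (wd q z * (∏ i, z i) * (kern q w z).det) := by
  induction N using Nat.strong_induction_on with
  | _ N ih =>
    rcases N with _ | N
    · rw [List.ofFn_zero, hG.nil]
      simp [vd, wd, cN]
    · have hcons : (Fin.cons (z 0) (Fin.tail z) : Fin (N + 1) → ℂ) = z := Fin.cons_self_tail z
      have hgen : Gen q (Fin.cons (z 0) (Fin.tail z) : Fin (N + 1) → ℂ) := by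
        rw [hcons]
        exact hz
      have h := DetGAux.core hq hw hw1 hG (z 0) (Fin.tail z) hgen
        (ih N (by omega) (Fin.tail z) (Gen_tail hgen))
        (fun M hM z' hz' => ih M (by omega) z' hz')
      rw [hcons] at h
      rw [List.ofFn_succ]
      exact h

end Pool.Agent.H863R2.Cyl
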