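import Pool.Agent.H863R2.Cyl.Defs

/-!
# The determinant as a polynomial in the first variable
-/

set_option linter.unusedSectionVars false

namespace Pool.Agent.H863R2.Cyl

namespace DetPAux

open Polynomial

section Bd

variable {R : Type*} [CommRing R] {N : ℕ}

/-- bordered matrix -/
def bd (a : R) (b c : Fin N → R) (D : Matrix (Fin N) (Fin N) R) :
    Matrix (Fin (N + 1)) (Fin (N + 1)) R :=
  Matrix.of (Fin.cons (Fin.cons a b) (fun k => Fin.cons (c k) (D k)))

theorem bd_00 (a : R) (b c : Fin N → R) (D : Matrix (Fin N) (Fin N) R) : bd a b c D 0 0 = a := rfl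

theorem bd_0s (a : R) (b c : Fin N → R) (D : Matrix (Fin N) (Fin N) R) (j : Fin N) :
    bd a b c D 0 j.succ = b j := rfl

theorem bd_s0 (a : R) (b c : Fin N → R) (D : Matrix (Fin N) (Fin N) R) (k : Fin N) :
    bd a b c D k.succ 0 = c k := rfl

theorem bd_ss (a : R) (b c : Fin N → R) (D : Matrix (Fin N) (Fin N) R) (k j : Fin N) :
    bd a b c D k.succ j.succ = D k j := rfl

theorem bd_ext {M M' : Matrix (Fin (N + 1)) (Fin (N + 1)) R} (h0 : M 0 0 = M' 0 0)
    (h1 : ∀ j : Fin N, M 0 j.succ = M' 0 j.succ) (h2 : ∀ k : Fin N, M k.succ 0 = M' k.succ 0)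
    (h3 : ∀ k j : Fin N, M k.succ j.succ = M' k.succ j.succ) : M = M' := by
  ext i j
  refine Fin.cases ?_ (fun i => ?_) i <;> refine Fin.cases ?_ (fun j => ?_) j
  · exact h0
  · exact h1 j
  · exact h2 i
  · exact h3 i j

theorem bd_scale (s t a : R) (b c : Fin N → R) (D : Matrix (Fin N) (Fin N) R) :
    (bd (s * t * a) (fun j => s * b j) (fun k => t * c k) D).det = s * t * (bd a b c D).det := by
  have h1 : bd (s * t * a) (fun j => s * b j) (fun k => t * c k) D =
      Matrix.of fun i j => (Fin.cons s (fun _ => 1) : Fin (N + 1) → R) i *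
        (Matrix.of fun i j => (Fin.cons t (fun _ => 1) : Fin (N + 1) → R) j * bd a b c D i j)
          i j := by
    apply bd_ext
    · rw [bd_00, Matrix.of_apply, Matrix.of_apply, Fin.cons_zero, Fin.cons_zero, bd_00]; ring
    · intro j
      rw [bd_0s, Matrix.of_apply, Matrix.of_apply, Fin.cons_zero, Fin.cons_succ, bd_0s]; ring
    · intro k
      rw [bd_s0, Matrix.of_apply, Matrix.of_apply, Fin.cons_zero, Fin.cons_succ, bd_s0]; ring
    · intro k j
      rw [bd_ss, Matrix.of_apply, Matrix.of_apply, Fin.cons_succ, Fin.cons_succ, bd_ss]; ring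
  rw [h1, Matrix.det_mul_column, Matrix.det_mul_row, Fin.prod_univ_succ, Fin.prod_univ_succ]
  simp only [Fin.cons_zero, Fin.cons_succ, Finset.prod_const_one]
  ring

theorem bd_map {S : Type*} [CommRing S] (f : R →+* S) (a : R) (b c : Fin N → R)
    (D : Matrix (Fin N) (Fin N) R) :
    f (bd a b c D).det = (bd (f a) (fun j => f (b j)) (fun k => f (c k)) (D.map f)).det := by
  rw [RingHom.map_det]
  congr 1
  apply bd_ext
  · rfl
  · intro j; rfl
  · intro k; rfl
  · intro k j; rfl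

theorem bd_transpose (a : R) (b c : Fin N → R) (D : Matrix (Fin N) (Fin N) R) :
    (bd a b c D).transpose = bd a c b D.transpose := by
  apply bd_ext
  · rfl
  · intro j; rfl
  · intro k; rfl
  · intro k j; rfl

theorem bd_row (r : R) (i : Fin N) (a : R) (b c : Fin N → R) (D : Matrix (Fin N) (Fin N) R) :
    (bd a b c D).det = (bd (a - r * c i) (fun j => b j - r * D i j) c D).det := by
  refine Matrix.det_eq_of_forall_row_eq_smul_add_const (Fin.cons r (fun _ => 0)) i.succ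
    (by rw [Fin.cons_succ]) ?_
  intro k j
  refine Fin.cases ?_ (fun k => ?_) k <;> refine Fin.cases ?_ (fun j => ?_) j
  · rw [bd_00, bd_00, Fin.cons_zero, bd_s0]; ring
  · rw [bd_0s, bd_0s, Fin.cons_zero, bd_ss]; ring
  · rw [bd_s0, bd_s0, Fin.cons_succ, zero_mul, add_zero]
  · rw [bd_ss, bd_ss, Fin.cons_succ, zero_mul, add_zero]

theorem bd_col (r : R) (i : Fin N) (a : R) (b c : Fin N → R) (D : Matrix (Fin N) (Fin N) R) :
    (bd a b c D).det = (bd (a - r * b i) b (fun k => c k - r * D k i) D).det := by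
  rw [← Matrix.det_transpose, bd_transpose, bd_row r i, ← Matrix.det_transpose, bd_transpose,
    Matrix.transpose_transpose]
  rfl

theorem bd_zero_row (a : R) (c : Fin N → R) (D : Matrix (Fin N) (Fin N) R) :
    (bd a (fun _ => 0) c D).det = a * D.det := by
  rw [Matrix.det_succ_row_zero, Fin.sum_univ_succ]
  have h1 : ∑ i : Fin N, (-1) ^ ((i.succ : Fin (N + 1)) : ℕ) *
      bd a (fun _ => 0) c D 0 i.succ *
      ((bd a (fun _ => 0) c D).submatrix Fin.succ i.succ.succAbove).det = 0 := by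
    refine Finset.sum_eq_zero fun i _ => ?_
    rw [bd_0s]; ring
  rw [h1, add_zero, bd_00]
  have h2 : (bd a (fun _ => 0) c D).submatrix Fin.succ (Fin.succAbove 0) = D := by
    ext k j
    rw [Matrix.submatrix_apply, Fin.succAbove_zero, bd_ss]
  rw [h2]
  simp

theorem bd_zero_col (a : R) (b : Fin N → R) (D : Matrix (Fin N) (Fin N) R) :
    (bd a b (fun _ => 0) D).det = a * D.det := by
  rw [← Matrix.det_transpose, bd_transpose, bd_zero_row, Matrix.det_transpose]

theorem bd_two (p r a : R) (b c : Fin N → R) (D : Matrix (Fin N) (Fin N) R) :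
    (bd 0 (Fin.cons p (fun _ => 0)) (Fin.cons r (fun _ => 0)) (bd a b c D)).det =
      -(p * r * D.det) := by
  rw [Matrix.det_succ_row_zero, Fin.sum_univ_succ, Fin.sum_univ_succ]
  have h1 : ∑ i : Fin N, (-1) ^ ((i.succ.succ : Fin (N + 2)) : ℕ) *
      bd 0 (Fin.cons p (fun _ => 0)) (Fin.cons r (fun _ => 0)) (bd a b c D) 0 i.succ.succ *
      ((bd 0 (Fin.cons p (fun _ => 0)) (Fin.cons r (fun _ => 0)) (bd a b c D)).submatrix Fin.succ
        i.succ.succ.succAbove).det = 0 := by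
    refine Finset.sum_eq_zero fun i _ => ?_
    rw [bd_0s, Fin.cons_succ]; ring
  rw [h1, bd_00, bd_0s, Fin.cons_zero]
  have h2 : (bd 0 (Fin.cons p (fun _ => 0)) (Fin.cons r (fun _ => 0)) (bd a b c D)).submatrix
      Fin.succ (Fin.succAbove (0 : Fin (N + 1)).succ) = bd r b (fun _ => 0) D := by
    apply bd_ext
    · rw [Matrix.submatrix_apply, bd_00, Fin.succAbove_of_castSucc_lt _ _ (by simp)]
      rw [Fin.castSucc_zero, bd_s0, Fin.cons_zero]
    · intro j
      rw [Matrix.submatrix_apply, bd_0s, Fin.succAbove_of_le_castSucc _ _ (by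
        rw [Fin.le_def]; simp), bd_ss, bd_0s]
    · intro k
      rw [Matrix.submatrix_apply, bd_s0, Fin.succAbove_of_castSucc_lt _ _ (by simp)]
      rw [Fin.castSucc_zero, bd_s0, Fin.cons_succ]
    · intro k j
      rw [Matrix.submatrix_apply, bd_ss, Fin.succAbove_of_le_castSucc _ _ (by
        rw [Fin.le_def]; simp), bd_ss, bd_ss]
  rw [h2, bd_zero_col]
  simp [mul_assoc]

theorem natDegree_det_le {M : ℕ} (A : Matrix (Fin M) (Fin M) R[X]) (r c : Fin M → ℕ)
    (h : ∀ i j, (A i j).natDegree ≤ r i + c j) :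
    A.det.natDegree ≤ ∑ i, r i + ∑ j, c j := by
  rw [Matrix.det_apply']
  refine natDegree_sum_le_of_forall_le _ _ fun σ _ => ?_
  have h1 : (((Equiv.Perm.sign σ : ℤ) : R[X])).natDegree = 0 := by
    rw [← map_intCast (C : R →+* R[X]), natDegree_C]
  refine natDegree_mul_le.trans ?_
  rw [h1, zero_add]
  refine (natDegree_prod_le _ _).trans ?_
  calc ∑ i, (A (σ i) i).natDegree ≤ ∑ i, (r (σ i) + c i) := Finset.sum_le_sum fun i _ => h _ _
    _ = ∑ i, r i + ∑ j, c j := by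
      rw [Finset.sum_add_distrib, Equiv.sum_comp σ r]

end Bd

section Ker

variable {q w : ℂ} {N : ℕ}

theorem q3 (hq : q ^ 2 + q + 1 = 0) : q ^ 3 = 1 := by
  linear_combination (q - 1) * hq

theorem q_ne (hq : q ^ 2 + q + 1 = 0) : q ≠ 0 := by
  rintro rfl
  norm_num at hq

theorem qq_ne (hq : q ^ 2 + q + 1 = 0) : q ^ 2 - q ≠ 0 := by
  intro h
  have h1 : (q ^ 2 - q) ^ 2 = -3 := by
    linear_combination (q ^ 2 - 3 * q + 3) * hq
  rw [h] at h1
  norm_num at h1

/-- linear factors -/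
noncomputable def lv (q x y : ℂ) : ℂ := q ^ 2 * x - q * y

noncomputable def Uv (q : ℂ) (z : Fin N → ℂ) (x : ℂ) : ℂ := ∏ j, (lv q x (z j) * lv q (z j) x)

noncomputable def Ujv (q : ℂ) (z : Fin N → ℂ) (j : Fin N) (x : ℂ) : ℂ :=
  ∏ k ∈ Finset.univ.erase j, (lv q x (z k) * lv q (z k) x)

theorem Uv_eq (z : Fin N → ℂ) (j : Fin N) (x : ℂ) :
    Uv q z x = lv q x (z j) * lv q (z j) x * Ujv q z j x := by
  exact (Finset.mul_prod_erase Finset.univ (fun k => lv q x (z k) * lv q (z k) x)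
    (Finset.mem_univ j)).symm

theorem kern_cons (x : ℂ) (z : Fin N → ℂ) :
    kern q w (Fin.cons x z : Fin (N + 1) → ℂ) =
      bd ((1 + w) * (lv q x x)⁻¹) (fun j => (lv q x (z j))⁻¹ + w * (lv q (z j) x)⁻¹)
        (fun k => (lv q (z k) x)⁻¹ + w * (lv q x (z k))⁻¹) (kern q w z) := by
  apply bd_ext
  · rw [bd_00, kern, Matrix.of_apply, Fin.cons_zero, lv]; ring
  · intro j
    rw [bd_0s, kern, Matrix.of_apply, Fin.cons_zero, Fin.cons_succ, lv, lv]
  · intro k
    rw [bd_s0, kern, Matrix.of_apply, Fin.cons_zero, Fin.cons_succ, lv, lv]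
  · intro k j
    rw [bd_ss, kern, Matrix.of_apply, Fin.cons_succ, Fin.cons_succ, kern, Matrix.of_apply]

theorem wd_eq (z : Fin N → ℂ) :
    wd q z = ∏ i, ∏ j, (if j ≠ i then lv q (z i) (z j) ^ 2 else 1) := by
  rw [wd]
  refine Finset.prod_congr rfl fun i _ => ?_
  rw [Finset.prod_filter]
  rfl

theorem wd_cons (x : ℂ) (z : Fin N → ℂ) :
    wd q (Fin.cons x z : Fin (N + 1) → ℂ) = Uv q z x ^ 2 * wd q z := by
  rw [wd_eq, wd_eq, Fin.prod_univ_succ, Fin.prod_univ_succ]
  have h1 : ∀ i : Fin N, ∏ j, (if j ≠ i.succ then lv q ((Fin.cons x z : Fin (N + 1) → ℂ) i.succ)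
      ((Fin.cons x z : Fin (N + 1) → ℂ) j) ^ 2 else 1) = lv q (z i) x ^ 2 *
      ∏ j, (if j ≠ i then lv q (z i) (z j) ^ 2 else 1) := by
    intro i
    rw [Fin.prod_univ_succ, if_pos (Fin.succ_ne_zero i).symm, Fin.cons_succ, Fin.cons_zero]
    congr 1
    refine Finset.prod_congr rfl fun j _ => ?_
    rw [Fin.cons_succ]
    congr 1
    rw [Ne, Ne, Fin.succ_inj]
  rw [Finset.prod_congr rfl fun i _ => h1 i, Finset.prod_mul_distrib, if_neg (not_not.2 rfl),
    one_mul]
  have h2 : ∏ j : Fin N, (if j.succ ≠ 0 then lv q ((Fin.cons x z : Fin (N + 1) → ℂ) 0)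
      ((Fin.cons x z : Fin (N + 1) → ℂ) j.succ) ^ 2 else 1) = ∏ j, lv q x (z j) ^ 2 := by
    refine Finset.prod_congr rfl fun j _ => ?_
    rw [if_pos (Fin.succ_ne_zero j), Fin.cons_zero, Fin.cons_succ]
  rw [h2, Uv, Finset.prod_mul_distrib, mul_pow, ← Finset.prod_pow, ← Finset.prod_pow]
  ring

theorem lv_self (hq : q ^ 2 + q + 1 = 0) {x : ℂ} (hx : x ≠ 0) : lv q x x ≠ 0 := by
  have : lv q x x = (q ^ 2 - q) * x := by rw [lv]; ring
  rw [this]
  exact mul_ne_zero (qq_ne hq) hx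

theorem lv_ne {z : Fin N → ℂ} (hq : q ^ 2 + q + 1 = 0) (hz : Gen q z) (i j : Fin N) :
    lv q (z i) (z j) ≠ 0 := by
  by_cases h : i = j
  · subst h; exact lv_self hq (hz.1 i)
  · exact sub_ne_zero.2 (hz.2.2 i j h)

theorem lv_cons {x : ℂ} {z : Fin N → ℂ} (hq : q ^ 2 + q + 1 = 0)
    (hz : Gen q (Fin.cons x z : Fin (N + 1) → ℂ)) (j : Fin N) :
    lv q x (z j) ≠ 0 ∧ lv q (z j) x ≠ 0 := by
  have h1 := lv_ne hq hz 0 j.succ
  have h2 := lv_ne hq hz j.succ 0
  rw [Fin.cons_zero, Fin.cons_succ] at h1 h2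
  exact ⟨h1, h2⟩

theorem Uv_ne {x : ℂ} {z : Fin N → ℂ} (hq : q ^ 2 + q + 1 = 0)
    (hz : Gen q (Fin.cons x z : Fin (N + 1) → ℂ)) : Uv q z x ≠ 0 :=
  Finset.prod_ne_zero_iff.2 fun j _ => mul_ne_zero (lv_cons hq hz j).1 (lv_cons hq hz j).2

/-- the value of the polynomial -/
noncomputable def Pv (q w : ℂ) (z : Fin N → ℂ) (x : ℂ) : ℂ :=
  wd q z * (∏ i, z i) * (bd ((1 + w) / (q ^ 2 - q) * Uv q z x ^ 2)
    (fun j => x * (Ujv q z j x * (lv q (z j) x + w * lv q x (z j))))
    (fun k => Ujv q z k x * (lv q x (z k) + w * lv q (z k) x)) (kern q w z)).det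

theorem Pv_gen (hq : q ^ 2 + q + 1 = 0) {x : ℂ} {z : Fin N → ℂ}
    (hz : Gen q (Fin.cons x z : Fin (N + 1) → ℂ)) :
    Pv q w z x = wd q (Fin.cons x z : Fin (N + 1) → ℂ) *
      (∏ i, (Fin.cons x z : Fin (N + 1) → ℂ) i) *
      (kern q w (Fin.cons x z : Fin (N + 1) → ℂ)).det := by
  have hx : x ≠ 0 := hz.1 0
  have h1 : (x * Uv q z x) * Uv q z x * ((1 + w) * (lv q x x)⁻¹) =
      (1 + w) / (q ^ 2 - q) * Uv q z x ^ 2 := by
    have h2 : lv q x x = (q ^ 2 - q) * x := by rw [lv]; ring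
    have h3 := qq_ne hq
    rw [h2]
    field_simp
  have h2 : ∀ j, (x * Uv q z x) * ((lv q x (z j))⁻¹ + w * (lv q (z j) x)⁻¹) =
      x * (Ujv q z j x * (lv q (z j) x + w * lv q x (z j))) := by
    intro j
    obtain ⟨h3, h4⟩ := lv_cons hq hz j
    rw [Uv_eq z j]
    field_simp
  have h3 : ∀ j, Uv q z x * ((lv q (z j) x)⁻¹ + w * (lv q x (z j))⁻¹) =
      Ujv q z j x * (lv q x (z j) + w * lv q (z j) x) := by
    intro j
    obtain ⟨h3, h4⟩ := lv_cons hq hz j
    rw [Uv_eq z j]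
    field_simp
  rw [Pv, kern_cons, wd_cons, Fin.prod_univ_succ, Fin.cons_zero]
  have h4 := bd_scale (x * Uv q z x) (Uv q z x) ((1 + w) * (lv q x x)⁻¹)
    (fun j => (lv q x (z j))⁻¹ + w * (lv q (z j) x)⁻¹)
    (fun k => (lv q (z k) x)⁻¹ + w * (lv q x (z k))⁻¹) (kern q w z)
  simp only [h1, h2, h3] at h4
  rw [h4]
  simp only [Fin.cons_succ]
  ring

/-- the factors as polynomials -/
noncomputable def lp (q y : ℂ) : ℂ[X] := C (q ^ 2) * X - C (q * y)

noncomputable def rp (q y : ℂ) : ℂ[X] := C (q ^ 2 * y) - C q * X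

noncomputable def Up (q : ℂ) (z : Fin N → ℂ) : ℂ[X] := ∏ j, (lp q (z j) * rp q (z j))

noncomputable def Ujp (q : ℂ) (z : Fin N → ℂ) (j : Fin N) : ℂ[X] :=
  ∏ k ∈ Finset.univ.erase j, (lp q (z k) * rp q (z k))

theorem Up_eq (z : Fin N → ℂ) (j : Fin N) :
    Up q z = lp q (z j) * rp q (z j) * Ujp q z j := by
  exact (Finset.mul_prod_erase Finset.univ (fun k => lp q (z k) * rp q (z k))
    (Finset.mem_univ j)).symm

/-- the polynomial -/
noncomputable def Pp (q w : ℂ) (z : Fin N → ℂ) : ℂ[X] :=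
  C (wd q z * (∏ i, z i)) * (bd (C ((1 + w) / (q ^ 2 - q)) * Up q z ^ 2)
    (fun j => X * (Ujp q z j * (rp q (z j) + C w * lp q (z j))))
    (fun k => Ujp q z k * (lp q (z k) + C w * rp q (z k))) ((kern q w z).map C)).det

theorem eval_lp (y x : ℂ) : (lp q y).eval x = lv q x y := by
  simp [lp, lv]

theorem eval_rp (y x : ℂ) : (rp q y).eval x = lv q y x := by
  simp [rp, lv]

theorem eval_Up (z : Fin N → ℂ) (x : ℂ) : (Up q z).eval x = Uv q z x := by
  rw [Up, Uv, eval_prod]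
  refine Finset.prod_congr rfl fun j _ => ?_
  rw [eval_mul, eval_lp, eval_rp]

theorem eval_Ujp (z : Fin N → ℂ) (j : Fin N) (x : ℂ) : (Ujp q z j).eval x = Ujv q z j x := by
  rw [Ujp, Ujv, eval_prod]
  refine Finset.prod_congr rfl fun j _ => ?_
  rw [eval_mul, eval_lp, eval_rp]

theorem eval_Pp (z : Fin N → ℂ) (x : ℂ) : (Pp q w z).eval x = Pv q w z x := by
  rw [Pp, Pv, eval_mul, eval_C]
  congr 1
  rw [← coe_evalRingHom, bd_map]
  congr 1
  apply bd_ext
  · simp only [bd_00, coe_evalRingHom, eval_mul, eval_C, eval_pow, eval_Up]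
  · intro j
    simp only [bd_0s, coe_evalRingHom, eval_mul, eval_C, eval_add, eval_X, eval_Ujp, eval_lp,
      eval_rp]
  · intro j
    simp only [bd_s0, coe_evalRingHom, eval_mul, eval_C, eval_add, eval_X, eval_Ujp, eval_lp,
      eval_rp]
  · intro k j
    simp only [bd_ss, Matrix.map_apply, coe_evalRingHom, eval_C]

theorem natDegree_lp (y : ℂ) : (lp q y).natDegree ≤ 1 := by
  unfold lp; compute_degree

theorem natDegree_rp (y : ℂ) : (rp q y).natDegree ≤ 1 := by
  unfold rp; compute_degree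

theorem natDegree_Up (z : Fin N → ℂ) : (Up q z).natDegree ≤ 2 * N := by
  rw [Up]
  refine (natDegree_prod_le _ _).trans ?_
  calc ∑ j : Fin N, (lp q (z j) * rp q (z j)).natDegree ≤ ∑ _j : Fin N, 2 :=
        Finset.sum_le_sum fun j _ => natDegree_mul_le.trans
          (add_le_add (natDegree_lp _) (natDegree_rp _))
    _ = 2 * N := by simp [mul_comm]

theorem natDegree_Ujp (z : Fin N → ℂ) (j : Fin N) : (Ujp q z j).natDegree ≤ 2 * (N - 1) := by
  rw [Ujp]
  refine (natDegree_prod_le _ _).trans ?_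
  calc ∑ j ∈ Finset.univ.erase j, (lp q (z j) * rp q (z j)).natDegree
      ≤ ∑ _j ∈ Finset.univ.erase j, 2 :=
        Finset.sum_le_sum fun j _ => natDegree_mul_le.trans
          (add_le_add (natDegree_lp _) (natDegree_rp _))
    _ = 2 * (N - 1) := by
      rw [Finset.sum_const, Finset.card_erase_of_mem (Finset.mem_univ _), Finset.card_univ,
        Fintype.card_fin, smul_eq_mul, mul_comm]

theorem natDegree_Pp (z : Fin N → ℂ) : (Pp q w z).natDegree ≤ 4 * N := by
  rw [Pp]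
  refine (natDegree_C_mul_le _ _).trans ?_
  refine (natDegree_det_le _ (Fin.cons (2 * N) (fun _ => 0)) (Fin.cons (2 * N) (fun _ => 0))
    ?_).trans ?_
  · intro i j
    refine Fin.cases ?_ (fun i => ?_) i <;> refine Fin.cases ?_ (fun j => ?_) j
    · rw [bd_00, Fin.cons_zero]
      refine (natDegree_C_mul_le _ _).trans (natDegree_pow_le.trans ?_)
      have := natDegree_Up (q := q) z
      omega
    · rw [bd_0s, Fin.cons_zero, Fin.cons_succ]
      have hN : 1 ≤ N := Fin.pos j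
      have h1 := natDegree_Ujp (q := q) z j
      have h2 : (rp q (z j) + C w * lp q (z j)).natDegree ≤ 1 :=
        (natDegree_add_le _ _).trans (max_le (natDegree_rp _)
          ((natDegree_C_mul_le _ _).trans (natDegree_lp _)))
      refine natDegree_mul_le.trans ?_
      have h3 := natDegree_mul_le (p := Ujp q z j) (q := rp q (z j) + C w * lp q (z j))
      rw [natDegree_X]
      omega
    · rw [bd_s0, Fin.cons_zero, Fin.cons_succ]
      have hN : 1 ≤ N := Fin.pos i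
      have h1 := natDegree_Ujp (q := q) z i
      have h2 : (lp q (z i) + C w * rp q (z i)).natDegree ≤ 1 :=
        (natDegree_add_le _ _).trans (max_le (natDegree_lp _)
          ((natDegree_C_mul_le _ _).trans (natDegree_rp _)))
      refine natDegree_mul_le.trans ?_
      omega
    · rw [bd_ss, Matrix.map_apply, natDegree_C]
      exact Nat.zero_le _
  · rw [Fin.sum_univ_succ, Fin.cons_zero]
    simp only [Fin.cons_succ, Finset.sum_const_zero]
    omega

theorem Pv_zero (hq : q ^ 2 + q + 1 = 0) (z : Fin N → ℂ) :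
    Pv q w z 0 = (1 + w) / (q ^ 2 - q) * (∏ i, z i) ^ 4 *
      (wd q z * (∏ i, z i) * (kern q w z).det) := by
  have h1 : Uv q z 0 ^ 2 = (∏ i, z i) ^ 4 := by
    rw [Uv, ← Finset.prod_pow, ← Finset.prod_pow]
    refine Finset.prod_congr rfl fun j _ => ?_
    rw [lv, lv]
    linear_combination ((q ^ 3 + 1) * (z j) ^ 4) * q3 hq
  have h2 : (fun j => (0 : ℂ) * (Ujv q z j 0 * (lv q (z j) 0 + w * lv q 0 (z j)))) =
      fun _ => 0 := by
    funext j
    rw [zero_mul]
  rw [Pv, h2, bd_zero_row, h1]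
  ring

theorem dvd_of_eval {P : ℂ[X]} {a : ℂ} (h : P.eval a = 0) : ∃ S, P = (X - C a) * S := by
  obtain ⟨S, hS⟩ := (dvd_iff_isRoot (p := P) (a := a)).2 h
  exact ⟨S, hS⟩

theorem Pp_double (hq : q ^ 2 + q + 1 = 0) {z : Fin N → ℂ} (hz : Gen q z) (i : Fin N) :
    ∃ S, Pp q w z = (X - C (z i)) ^ 2 * S := by
  have hκ := qq_ne hq
  have hκ2 : (q ^ 2 - q) ^ 2 = -3 := by
    linear_combination (q ^ 2 - 3 * q + 3) * hq
  have hb : ∀ j, ∃ S, X * (Ujp q z j * (rp q (z j) + C w * lp q (z j))) -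
      (X * Up q z) * (kern q w z).map C i j = (X - C (z i)) * S := by
    intro j
    apply dvd_of_eval
    have h1 := lv_ne hq hz i j
    have h2 := lv_ne hq hz j i
    rw [Up_eq z j]
    simp only [eval_sub, eval_mul, eval_X, eval_add, eval_C, eval_lp, eval_rp, eval_Ujp,
      Matrix.map_apply]
    have h3 : kern q w z i j = (lv q (z i) (z j))⁻¹ + w * (lv q (z j) (z i))⁻¹ := rfl
    rw [h3]
    field_simp
    ring
  have hc : ∀ k, ∃ S, Ujp q z k * (lp q (z k) + C w * rp q (z k)) -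
      Up q z * (kern q w z).map C k i = (X - C (z i)) * S := by
    intro j
    apply dvd_of_eval
    have h1 := lv_ne hq hz i j
    have h2 := lv_ne hq hz j i
    rw [Up_eq z j]
    simp only [eval_sub, eval_mul, eval_add, eval_C, eval_lp, eval_rp, eval_Ujp,
      Matrix.map_apply]
    have h3 : kern q w z j i = (lv q (z j) (z i))⁻¹ + w * (lv q (z i) (z j))⁻¹ := rfl
    rw [h3]
    field_simp
    ring
  have ha : ∃ S, C ((1 + w) / (q ^ 2 - q)) * Up q z ^ 2 -
      (X * Up q z) * (Ujp q z i * (lp q (z i) + C w * rp q (z i))) -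
      Up q z * (X * (Ujp q z i * (rp q (z i) + C w * lp q (z i))) -
        (X * Up q z) * (kern q w z).map C i i) = (X - C (z i)) * (X - C (z i)) * S := by
    refine ⟨-(C ((1 + w) / ((q ^ 2 - q) * z i)) * (X + C (z i)) * (Up q z * Ujp q z i)), ?_⟩
    have hzi := hz.1 i
    have hbr : C ((1 + w) / (q ^ 2 - q)) * (lp q (z i) * rp q (z i)) -
        X * (lp q (z i) + C w * rp q (z i)) - X * (rp q (z i) + C w * lp q (z i)) +
        X * (lp q (z i) * rp q (z i)) * (kern q w z).map C i i =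
        -(C ((1 + w) / ((q ^ 2 - q) * z i)) * (X + C (z i)) * (X - C (z i)) ^ 2) := by
      apply Polynomial.funext
      intro x
      have h3 : kern q w z i i = (1 + w) / ((q ^ 2 - q) * z i) := by
        have h4 : kern q w z i i = (lv q (z i) (z i))⁻¹ + w * (lv q (z i) (z i))⁻¹ := rfl
        have h5 : lv q (z i) (z i) = (q ^ 2 - q) * z i := by rw [lv]; ring
        rw [h4, h5, div_eq_mul_inv]
        ring
      simp only [eval_sub, eval_mul, eval_X, eval_add, eval_C, eval_lp, eval_rp, eval_neg,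
        eval_pow, Matrix.map_apply, h3]
      have h6 : lv q x (z i) * lv q (z i) x = -(x ^ 2 + x * z i + z i ^ 2) := by
        rw [lv, lv]
        linear_combination (q * x * z i - x ^ 2 - z i ^ 2) * q3 hq + x * z i * hq
      have h7 : lv q x (z i) + lv q (z i) x = (q ^ 2 - q) * (x + z i) := by
        rw [lv, lv]; ring
      have h8 : x * (lv q x (z i) + w * lv q (z i) x) + x * (lv q (z i) x + w * lv q x (z i)) =
          (1 + w) * x * ((q ^ 2 - q) * (x + z i)) := by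
        rw [← h7]; ring
      rw [sub_sub, h8, h6]
      clear hb hc h8 h7 h6 h3
      generalize q ^ 2 - q = κ at hκ hκ2 ⊢
      field_simp
      linear_combination (-((1 + w) * z i * x * (x + z i))) * hκ2
    have h9 : C ((1 + w) / (q ^ 2 - q)) * Up q z ^ 2 -
        (X * Up q z) * (Ujp q z i * (lp q (z i) + C w * rp q (z i))) -
        Up q z * (X * (Ujp q z i * (rp q (z i) + C w * lp q (z i))) -
          (X * Up q z) * (kern q w z).map C i i) =
        Up q z * Ujp q z i * (C ((1 + w) / (q ^ 2 - q)) * (lp q (z i) * rp q (z i)) -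
        X * (lp q (z i) + C w * rp q (z i)) - X * (rp q (z i) + C w * lp q (z i)) +
        X * (lp q (z i) * rp q (z i)) * (kern q w z).map C i i) := by
      have h10 := Up_eq (q := q) z i
      linear_combination (Up q z * C ((1 + w) / (q ^ 2 - q)) +
        Up q z * X * (kern q w z).map C i i) * h10
    rw [h9, hbr]
    ring
  choose b' hb' using hb
  choose c' hc' using hc
  obtain ⟨a', ha'⟩ := ha
  have h1 := (bd_row (X * Up q z) i (C ((1 + w) / (q ^ 2 - q)) * Up q z ^ 2)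
    (fun j => X * (Ujp q z j * (rp q (z j) + C w * lp q (z j))))
    (fun k => Ujp q z k * (lp q (z k) + C w * rp q (z k))) ((kern q w z).map C)).trans
    (bd_col (Up q z) i _ _ _ _)
  rw [hb' i] at ha'
  simp only [hb', hc', ha'] at h1
  rw [bd_scale] at h1
  rw [Pp, h1]
  exact ⟨C (wd q z * ∏ i, z i) * (bd a' b' c' ((kern q w z).map C)).det, by ring⟩

theorem Gen_infinite {z : Fin N → ℂ} (hq : q ^ 2 + q + 1 = 0) (hz : Gen q z) :
    {x : ℂ | Gen q (Fin.cons x z : Fin (N + 1) → ℂ)}.Infinite := by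
  have hq0 := q_ne hq
  set B : Set ℂ := {0} ∪ (Set.range z ∪ (Set.range (fun j => q * z j) ∪
    Set.range (fun j => q⁻¹ * z j))) with hB
  have hfin : B.Finite := (Set.finite_singleton 0).union ((Set.finite_range _).union
    ((Set.finite_range _).union (Set.finite_range _)))
  refine (hfin.infinite_compl).mono ?_
  intro x hx
  rw [hB, Set.mem_compl_iff, Set.mem_union, Set.mem_union, Set.mem_union, not_or, not_or,
    not_or] at hx
  obtain ⟨h0, h1, h2, h3⟩ := hx
  refine ⟨?_, ?_, ?_⟩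
  · intro i
    refine Fin.cases ?_ (fun i => ?_) i
    · exact h0
    · exact hz.1 i
  · intro i j
    refine Fin.cases ?_ (fun i => ?_) i <;> refine Fin.cases ?_ (fun j => ?_) j
    · intro h; exact absurd rfl h
    · intro _ h
      exact h1 ⟨j, h.symm⟩
    · intro _ h
      exact h1 ⟨i, h⟩
    · intro h
      exact hz.2.1 i j fun h' => h (by rw [h'])
  · intro i j
    refine Fin.cases ?_ (fun i => ?_) i <;> refine Fin.cases ?_ (fun j => ?_) j
    · intro h; exact absurd rfl h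
    · intro _ h
      rw [Fin.cons_zero, Fin.cons_succ] at h
      refine h3 ⟨j, ?_⟩
      change q⁻¹ * z j = x
      have h4 : q * (q * x - z j) = 0 := by linear_combination h
      have h5 := (mul_eq_zero.1 h4).resolve_left hq0
      rw [sub_eq_zero] at h5
      rw [← h5, inv_mul_cancel_left₀ hq0]
    · intro _ h
      rw [Fin.cons_zero, Fin.cons_succ] at h
      refine h2 ⟨i, ?_⟩
      change q * z i = x
      have h4 : q * (q * z i - x) = 0 := by linear_combination h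
      have h5 := (mul_eq_zero.1 h4).resolve_left hq0
      exact sub_eq_zero.1 h5
    · intro h
      exact hz.2.2 i j fun h' => h (by rw [h'])

/-- uniqueness of the polynomial -/
theorem eq_Pp (hq : q ^ 2 + q + 1 = 0) {z : Fin N → ℂ} (hz : Gen q z) (P : ℂ[X])
    (hP : ∀ x, Gen q (Fin.cons x z : Fin (N + 1) → ℂ) →
        P.eval x = wd q (Fin.cons x z : Fin (N + 1) → ℂ) *
          (∏ i, (Fin.cons x z : Fin (N + 1) → ℂ) i)
          * (kern q w (Fin.cons x z : Fin (N + 1) → ℂ)).det) : P = Pp q w z := by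
  refine Polynomial.eq_of_infinite_eval_eq P (Pp q w z) ((Gen_infinite hq hz).mono ?_)
  intro x hx
  change P.eval x = (Pp q w z).eval x
  rw [eval_Pp, Pv_gen hq hx, hP x hx]

theorem Ujv_zero (y : ℂ) (z : Fin N → ℂ) (x : ℂ) :
    Ujv q (Fin.cons y z : Fin (N + 1) → ℂ) 0 x = Uv q z x := by
  have h1 : (Finset.univ : Finset (Fin (N + 1))).erase 0 = Finset.univ.map (Fin.succEmb N) := by
    ext i
    rw [Finset.mem_erase, Finset.mem_map]
    constructor
    · rintro ⟨h, _⟩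
      obtain ⟨j, rfl⟩ := Fin.exists_succ_eq.2 h
      exact ⟨j, Finset.mem_univ _, rfl⟩
    · rintro ⟨j, _, rfl⟩
      exact ⟨Fin.succ_ne_zero j, Finset.mem_univ _⟩
  rw [Ujv, h1, Finset.prod_map, Uv]
  refine Finset.prod_congr rfl fun j _ => ?_
  rw [Fin.coe_succEmb, Fin.cons_succ]

theorem Ujv_succ (y : ℂ) (z : Fin N → ℂ) (x : ℂ) (h : lv q x y * lv q y x = 0) (j : Fin N) :
    Ujv q (Fin.cons y z : Fin (N + 1) → ℂ) j.succ x = 0 := by
  rw [Ujv]
  refine Finset.prod_eq_zero (i := 0) (Finset.mem_erase.2 ⟨(Fin.succ_ne_zero j).symm,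
    Finset.mem_univ _⟩) ?_
  rw [Fin.cons_zero]
  exact h

theorem Pv_rec (y : ℂ) (z : Fin N → ℂ) (x : ℂ) (h : lv q x y * lv q y x = 0) :
    Pv q w (Fin.cons y z : Fin (N + 1) → ℂ) x =
      -(x * (lv q y x + w * lv q x y) * (lv q x y + w * lv q y x) * y *
        (Uv q z x ^ 2 * Uv q z y ^ 2) * (wd q z * (∏ i, z i) * (kern q w z).det)) := by
  have h1 : Uv q (Fin.cons y z : Fin (N + 1) → ℂ) x = 0 := by
    rw [Uv_eq _ 0, Fin.cons_zero, h, zero_mul]
  have h2 : (fun j => x * (Ujv q (Fin.cons y z : Fin (N + 1) → ℂ) j x *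
      (lv q ((Fin.cons y z : Fin (N + 1) → ℂ) j) x +
        w * lv q x ((Fin.cons y z : Fin (N + 1) → ℂ) j)))) =
      Fin.cons (x * (Uv q z x * (lv q y x + w * lv q x y))) (fun _ => 0) := by
    funext j
    refine Fin.cases ?_ (fun j => ?_) j
    · rw [Ujv_zero, Fin.cons_zero, Fin.cons_zero]
    · rw [Ujv_succ y z x h, zero_mul, mul_zero, Fin.cons_succ]
  have h3 : (fun k => Ujv q (Fin.cons y z : Fin (N + 1) → ℂ) k x *
      (lv q x ((Fin.cons y z : Fin (N + 1) → ℂ) k) +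
        w * lv q ((Fin.cons y z : Fin (N + 1) → ℂ) k) x)) =
      Fin.cons (Uv q z x * (lv q x y + w * lv q y x)) (fun _ => 0) := by
    funext j
    refine Fin.cases ?_ (fun j => ?_) j
    · rw [Ujv_zero, Fin.cons_zero, Fin.cons_zero]
    · rw [Ujv_succ y z x h, zero_mul, Fin.cons_succ]
  rw [Pv, h1, h2, h3, zero_pow (by norm_num), mul_zero, kern_cons, bd_two, wd_cons,
    Fin.prod_univ_succ, Fin.cons_zero]
  simp only [Fin.cons_succ]
  ring

end Ker

end DetPAux

open DetPAux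

theorem det_poly {q w : ℂ} (hq : q ^ 2 + q + 1 = 0) {N : ℕ} (z : Fin N → ℂ) (hz : Gen q z) :
    ∃ P : Polynomial ℂ, P.natDegree ≤ 4 * N ∧
      (∀ x, Gen q (Fin.cons x z : Fin (N + 1) → ℂ) →
        P.eval x = wd q (Fin.cons x z : Fin (N + 1) → ℂ) * (∏ i, (Fin.cons x z : Fin (N + 1) → ℂ) i)
          * (kern q w (Fin.cons x z : Fin (N + 1) → ℂ)).det) ∧
      P.eval 0 = (1 + w) / (q ^ 2 - q) * (∏ i, z i) ^ 4 * (wd q z * (∏ i, z i) * (kern q w z).det) ∧
      ∀ i, P.eval (z i) = 0 ∧ P.derivative.eval (z i) = 0 := by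
  refine ⟨Pp q w z, natDegree_Pp z, fun x hx => ?_, ?_, fun i => ?_⟩
  · rw [eval_Pp, Pv_gen hq hx]
  · rw [eval_Pp, Pv_zero hq]
  · obtain ⟨S, hS⟩ := Pp_double (w := w) hq hz i
    rw [hS]
    constructor
    · simp
    · rw [Polynomial.derivative_mul, Polynomial.derivative_X_sub_C_sq]
      simp

theorem det_rec {q w : ℂ} (hq : q ^ 2 + q + 1 = 0) {N : ℕ} (y : ℂ) (z : Fin N → ℂ)
    (hz : Gen q (Fin.cons y z : Fin (N + 1) → ℂ)) (P : Polynomial ℂ)
    (hP : ∀ x, Gen q (Fin.cons x (Fin.cons y z) : Fin (N + 2) → ℂ) →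
        P.eval x = wd q (Fin.cons x (Fin.cons y z) : Fin (N + 2) → ℂ)
          * (∏ i, (Fin.cons x (Fin.cons y z) : Fin (N + 2) → ℂ) i)
          * (kern q w (Fin.cons x (Fin.cons y z) : Fin (N + 2) → ℂ)).det) :
    -- `x = q² y`, i.e. `(x, y) = (x, q x)`
    P.eval (q ^ 2 * y) = -w * (q * (q ^ 2 * y) ^ 2) * (-3 * q * (q ^ 2 * y) ^ 2)
        * (∏ j, ((z j - y) ^ 2 * (z j - q * y) ^ 4 * (z j - q ^ 2 * y) ^ 2))
        * (wd q z * (∏ i, z i) * (kern q w z).det) ∧
    -- `x = q y`, i.e. `(y, x) = (y, q y)`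
    P.eval (q * y) = -w * (q * y ^ 2) * (-3 * q * y ^ 2)
        * (∏ j, ((z j - q * y) ^ 2 * (z j - q ^ 2 * y) ^ 4 * (z j - y) ^ 2))
        * (wd q z * (∏ i, z i) * (kern q w z).det) := by
  have hP' := eq_Pp (w := w) hq hz P hP
  have h3 := q3 hq
  have h4 : q ^ 4 = q := by linear_combination q * h3
  have hl1 : ∀ t : ℂ, lv q (q ^ 2 * y) t = -q * (t - y) := by
    intro t
    rw [lv]
    linear_combination (q * y) * h3
  have hl2 : ∀ t : ℂ, lv q t (q ^ 2 * y) = q ^ 2 * (t - q * y) := by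
    intro t
    rw [lv]
    ring
  have hl3 : ∀ t : ℂ, lv q y t = -q * (t - q * y) := by
    intro t
    rw [lv]
    ring
  have hl4 : ∀ t : ℂ, lv q t y = q ^ 2 * (t - q ^ 2 * y) := by
    intro t
    rw [lv]
    linear_combination (q * y) * h3
  have hl5 : ∀ t : ℂ, lv q (q * y) t = -q * (t - q ^ 2 * y) := by
    intro t
    rw [lv]
    ring
  have hl6 : ∀ t : ℂ, lv q t (q * y) = q ^ 2 * (t - y) := by
    intro t
    rw [lv]
    ring
  have h12 : q ^ 12 = 1 := by
    have : q ^ 12 = (q ^ 3) ^ 4 := by ring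
    rw [this, h3, one_pow]
  constructor
  · have h0 : lv q (q ^ 2 * y) y = 0 := by rw [hl1, sub_self, mul_zero]
    have hU : Uv q z (q ^ 2 * y) ^ 2 * Uv q z y ^ 2 =
        ∏ j, ((z j - y) ^ 2 * (z j - q * y) ^ 4 * (z j - q ^ 2 * y) ^ 2) := by
      rw [Uv, Uv, ← Finset.prod_pow, ← Finset.prod_pow, ← Finset.prod_mul_distrib]
      refine Finset.prod_congr rfl fun j _ => ?_
      rw [hl1, hl2, hl3, hl4]
      linear_combination ((z j - y) ^ 2 * (z j - q * y) ^ 4 * (z j - q ^ 2 * y) ^ 2) * h12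
    rw [hP', eval_Pp, Pv_rec y z _ (by rw [h0, zero_mul]), hU, h0]
    have h5 : lv q y (q ^ 2 * y) = (q ^ 2 - 1) * y := by
      rw [lv]; linear_combination (-y) * h3
    rw [h5]
    have h6 : q ^ 2 * y * ((q ^ 2 - 1) * y + w * 0) * (0 + w * ((q ^ 2 - 1) * y)) * y =
        w * (q * (q ^ 2 * y) ^ 2) * (-3 * q * (q ^ 2 * y) ^ 2) := by
      linear_combination (w * y ^ 4 * (3 * q ^ 8 - 3 * q ^ 7 + 3 * q ^ 5 - 2 * q ^ 4 - q ^ 3 + q ^ 2)) * hq
    linear_combination (-((∏ j, ((z j - y) ^ 2 * (z j - q * y) ^ 4 * (z j - q ^ 2 * y) ^ 2)) *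
      (wd q z * (∏ i, z i) * (kern q w z).det))) * h6
  · have h0 : lv q y (q * y) = 0 := by rw [hl6, sub_self, mul_zero]
    have hU : Uv q z (q * y) ^ 2 * Uv q z y ^ 2 =
        ∏ j, ((z j - q * y) ^ 2 * (z j - q ^ 2 * y) ^ 4 * (z j - y) ^ 2) := by
      rw [Uv, Uv, ← Finset.prod_pow, ← Finset.prod_pow, ← Finset.prod_mul_distrib]
      refine Finset.prod_congr rfl fun j _ => ?_
      rw [hl5, hl6, hl3, hl4]
      linear_combination ((z j - q * y) ^ 2 * (z j - q ^ 2 * y) ^ 4 * (z j - y) ^ 2) * h12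
    rw [hP', eval_Pp, Pv_rec y z _ (by rw [h0, mul_zero]), hU, h0]
    have h5 : lv q (q * y) y = (1 - q) * y := by
      rw [lv]; linear_combination y * h3
    rw [h5]
    have h6 : q * y * (0 + w * ((1 - q) * y)) * ((1 - q) * y + w * 0) * y =
        w * (q * y ^ 2) * (-3 * q * y ^ 2) := by
      linear_combination (w * q * y ^ 4) * hq
    linear_combination (-((∏ j, ((z j - q * y) ^ 2 * (z j - q ^ 2 * y) ^ 4 * (z j - y) ^ 2)) *
      (wd q z * (∏ i, z i) * (kern q w z).det))) * h6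

end Pool.Agent.H863R2.Cyl
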