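import Pool.Agent.H863R2.Cyl.Defs

/-!
# Module S1: faces of the universal cover, the connection relation of a word, and the action of the
Temperley-Lieb generators on it.
-/

namespace Pool.Agent.H863R2.Cyl
open Pool.Agent.H988R2.Perc (Word flipR flipL rem firstArc PD)

/-- the sign of the (lifted) strand `j` -/
def sg (w : Word) (j : ℤ) : ℤ := if w.getD (j % (w.length : ℤ)).toNat true then 1 else -1

/-- height difference of the faces `j ≤ k` (face `j` is between the strands `j-1` and `j`) -/
noncomputable def Sh (w : Word) (j k : ℤ) : ℤ := ∑ i ∈ Finset.Ico j k, sg w i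

/-- the (lifted) faces `j ≤ k` are connected by the word -/
def Rle (w : Word) (j k : ℤ) : Prop := j ≤ k ∧ (∀ l, j ≤ l → l ≤ k → 0 ≤ Sh w j l) ∧ Sh w j k = 0

/-- the (lifted) faces `j`, `k` are connected by the word -/
def Rw (w : Word) (j k : ℤ) : Prop := Rle w j k ∨ Rle w k j

namespace Sem1Aux

/-- `s` is the increment of `H` -/
def Inc (s H : ℤ → ℤ) : Prop := ∀ x, H (x + 1) = H x + s x

theorem Inc.unique {s H H' : ℤ → ℤ} (h : Inc s H) (h' : Inc s H') (x0 : ℤ) (e : H x0 = H' x0)
    (x : ℤ) : H x = H' x := by
  induction x using Int.inductionOn' (b := x0) with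
  | zero => exact e
  | succ k _ ih => rw [h, h', ih]
  | pred k _ ih =>
    have h1 := h (k - 1)
    have h2 := h' (k - 1)
    simp only [sub_add_cancel] at h1 h2
    omega

theorem Ico_succ (j k : ℤ) (h : j ≤ k) : Finset.Ico j (k + 1) = insert k (Finset.Ico j k) := by
  ext x; simp only [Finset.mem_Ico, Finset.mem_insert]; omega

theorem Ico_pred (j k : ℤ) (h : j < k) : Finset.Ico j k = insert j (Finset.Ico (j + 1) k) := by
  ext x; simp only [Finset.mem_Ico, Finset.mem_insert]; omega

theorem exists_ht (s : ℤ → ℤ) : ∃ H : ℤ → ℤ, Inc s H ∧ H 0 = 0 := by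
  refine ⟨fun k => ∑ i ∈ Finset.Ico 0 k, s i - ∑ i ∈ Finset.Ico k 0, s i, ?_, by simp⟩
  intro x
  show _ - _ = (_ - _) + s x
  rcases le_or_gt 0 x with hx | hx
  · rw [Ico_succ 0 x hx, Finset.sum_insert (by simp), Finset.Ico_eq_empty_of_le hx,
      Finset.Ico_eq_empty_of_le (show (0:ℤ) ≤ x + 1 by omega)]
    simp only [Finset.sum_empty]
    ring
  · rw [Ico_pred x 0 hx, Finset.sum_insert (by simp), Finset.Ico_eq_empty_of_le hx.le,
      Finset.Ico_eq_empty_of_le (show x + 1 ≤ (0:ℤ) by omega)]
    simp only [Finset.sum_empty]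
    ring

theorem Sh_eq {w : Word} {H : ℤ → ℤ} (h : Inc (sg w) H) (j k : ℤ) (hjk : j ≤ k) :
    Sh w j k = H k - H j := by
  induction k, hjk using Int.leInduction with
  | base => simp [Sh]
  | succ k hk ih =>
    have e : Sh w j (k + 1) = Sh w j k + sg w k := by
      unfold Sh
      rw [Ico_succ j k hk, Finset.sum_insert (by simp)]
      ring
    rw [e, ih, h k]
    ring

/-- connection relation of a height function -/
def RH (H : ℤ → ℤ) (a b : ℤ) : Prop :=
  H a = H b ∧ ∀ l, (a ≤ l ∧ l ≤ b ∨ b ≤ l ∧ l ≤ a) → H a ≤ H l

theorem RH.refl (H : ℤ → ℤ) (a : ℤ) : RH H a a :=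
  ⟨rfl, fun l hl => by
    have : l = a := by omega
    rw [this]⟩

theorem RH.symm {H : ℤ → ℤ} {a b : ℤ} (h : RH H a b) : RH H b a :=
  ⟨h.1.symm, fun l hl => by
    have := h.2 l (by tauto)
    have := h.1
    omega⟩

theorem RH.trans {H : ℤ → ℤ} {a b c : ℤ} (h : RH H a b) (h' : RH H b c) : RH H a c :=
  ⟨h.1.trans h'.1, fun l hl => by
    have e := h.1
    by_cases hb : a ≤ l ∧ l ≤ b ∨ b ≤ l ∧ l ≤ a
    · exact h.2 l hb
    · have := h'.2 l (by omega)
      omega⟩

theorem RH.of_le {H : ℤ → ℤ} {a b : ℤ} (h : a ≤ b) (e : H a = H b)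
    (hl : ∀ l, a ≤ l → l ≤ b → H a ≤ H l) : RH H a b :=
  ⟨e, fun l hl' => by
    rcases hl' with h1 | h1
    · exact hl l h1.1 h1.2
    · exact hl l (by omega) (by omega)⟩

theorem Rw_iff {w : Word} {H : ℤ → ℤ} (h : Inc (sg w) H) (a b : ℤ) : Rw w a b ↔ RH H a b := by
  have key : ∀ a b, Rle w a b ↔ (a ≤ b ∧ RH H a b) := by
    intro a b
    constructor
    · rintro ⟨h1, h2, h3⟩
      refine ⟨h1, RH.of_le h1 ?_ ?_⟩
      · rw [Sh_eq h a b h1] at h3; omega
      · intro l hl hl'
        have := h2 l hl hl'
        rw [Sh_eq h a l hl] at this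
        omega
    · rintro ⟨h1, h2, h3⟩
      refine ⟨h1, ?_, ?_⟩
      · intro l hl hl'
        rw [Sh_eq h a l hl]
        have := h3 l (Or.inl ⟨hl, hl'⟩)
        omega
      · rw [Sh_eq h a b h1]; omega
  unfold Rw
  rw [key, key]
  constructor
  · rintro (⟨_, h1⟩ | ⟨_, h1⟩)
    · exact h1
    · exact h1.symm
  · intro h1
    rcases le_total a b with h2 | h2
    · exact Or.inl ⟨h2, h1⟩
    · exact Or.inr ⟨h2, h1.symm⟩

/-- consecutive elements of a class -/
def Cons (H : ℤ → ℤ) (a b : ℤ) : Prop := a < b ∧ H a = H b ∧ ∀ l, a < l → l < b → H a < H l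

theorem eqv_of_cons {H : ℤ → ℤ} {G : ℤ → ℤ → Prop}
    (hG : ∀ a b, Cons H a b → Relation.EqvGen G a b) (a b : ℤ) (h : RH H a b) :
    Relation.EqvGen G a b := by
  have key : ∀ n : ℕ, ∀ a b : ℤ, a ≤ b → b - a ≤ n → RH H a b → Relation.EqvGen G a b := by
    intro n
    induction n with
    | zero =>
      intro a b h1 h2 _
      have : a = b := by push_cast at h2; omega
      rw [this]
      exact Relation.EqvGen.refl _
    | succ n ih =>
      intro a b h1 h2 h3
      rcases h1.eq_or_lt with h4 | h4
      · rw [h4]; exact Relation.EqvGen.refl _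
      · by_cases hc : ∀ l, a < l → l < b → H a < H l
        · exact hG a b ⟨h4, h3.1, hc⟩
        · push Not at hc
          obtain ⟨l, hl1, hl2, hl3⟩ := hc
          have h5 := h3.2 l (Or.inl ⟨hl1.le, hl2.le⟩)
          have h6 : H a = H l := le_antisymm h5 hl3
          have h7 : RH H a l := RH.of_le hl1.le h6
            (fun x hx hx' => h3.2 x (Or.inl ⟨hx, hx'.trans hl2.le⟩))
          have h8 : RH H l b := h7.symm.trans h3
          push_cast at h2
          exact Relation.EqvGen.trans _ _ _ (ih a l hl1.le (by omega) h7)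
            (ih l b hl2.le (by omega) h8)
  rcases le_total a b with h1 | h1
  · exact key (b - a).toNat a b h1 (by omega) h
  · exact Relation.EqvGen.symm _ _ (key (a - b).toNat b a h1 (by omega) h.symm)

theorem eqvGen_map {α β : Type*} {G : α → α → Prop} {G' : β → β → Prop} (f : α → β)
    (h : ∀ x y, G x y → Relation.EqvGen G' (f x) (f y)) {a b : α} (hab : Relation.EqvGen G a b) :
    Relation.EqvGen G' (f a) (f b) := by
  induction hab with
  | rel x y h1 => exact h x y h1
  | refl x => exact Relation.EqvGen.refl _
  | symm x y _ ih => exact Relation.EqvGen.symm _ _ ih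
  | trans x y z _ _ ih1 ih2 => exact Relation.EqvGen.trans _ _ _ ih1 ih2

theorem eqv_sub_RH {H : ℤ → ℤ} {G : ℤ → ℤ → Prop} (h : ∀ x y, G x y → RH H x y) {a b : ℤ}
    (hab : Relation.EqvGen G a b) : RH H a b := by
  induction hab with
  | rel x y h1 => exact h x y h1
  | refl x => exact RH.refl _ _
  | symm x y _ ih => exact ih.symm
  | trans x y z _ _ ih1 ih2 => exact ih1.trans ih2

/-- The generating relation -/
def Gn (H : ℤ → ℤ) (P : ℤ → Prop) (x y : ℤ) : Prop :=
  (¬ P (x - 1) ∧ ¬ P (y - 1) ∧ RH H x y) ∨ (P x ∧ y = x + 2)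

/-- peaks are isolated -/
theorem peak_isol {H : ℤ → ℤ} {a b : ℤ} (h1 : H (a - 1) < H a) (h2 : H (a + 1) < H a)
    (h : RH H a b) : a = b := by
  by_contra hne
  rcases lt_or_gt_of_ne hne with h3 | h3
  · have := h.2 (a + 1) (by omega)
    omega
  · have := h.2 (a - 1) (by omega)
    omega

/-- case `true, false` -/
theorem case_TF (H : ℤ → ℤ) (P : ℤ → Prop)
    (hP : ∀ L, P L → H (L + 1) = H L + 1 ∧ H (L + 2) = H L) (a b : ℤ) :
    RH H a b ↔ (a = b ∨ (¬ P (a - 1) ∧ ¬ P (b - 1) ∧ Relation.EqvGen (Gn H P) a b)) := by
  have hpk : ∀ a b, P (a - 1) → RH H a b → a = b := by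
    intro a b h1 h2
    have := hP _ h1
    have e1 : a - 1 + 1 = a := by ring
    have e2 : a - 1 + 2 = a + 1 := by ring
    rw [e1, e2] at this
    exact peak_isol (by omega) (by omega) h2
  constructor
  · intro h
    by_cases hab : a = b
    · exact Or.inl hab
    · have h1 : ¬ P (a - 1) := fun h1 => hab (hpk a b h1 h)
      have h2 : ¬ P (b - 1) := fun h2 => hab (hpk b a h2 h.symm).symm
      exact Or.inr ⟨h1, h2, Relation.EqvGen.rel _ _ (Or.inl ⟨h1, h2, h⟩)⟩
  · rintro (rfl | ⟨_, _, h⟩)
    · exact RH.refl _ _
    · apply eqv_sub_RH _ h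
      rintro x y (⟨_, _, h3⟩ | ⟨h3, rfl⟩)
      · exact h3
      · have := hP x h3
        refine RH.of_le (by omega) (by omega) ?_
        intro l hl1 hl2
        have : l = x ∨ l = x + 1 ∨ l = x + 2 := by omega
        rcases this with rfl | rfl | rfl <;> omega

/-- case `false, true` -/
theorem case_FT (H H' : ℤ → ℤ) (P : ℤ → Prop)
    (hP : ∀ L, P L → H (L + 1) = H L - 1 ∧ H (L + 2) = H L ∧ H' (L + 1) = H (L + 1) + 2)
    (hP' : ∀ x, ¬ P (x - 1) → H' x = H x)
    (hPP : ∀ L, P L → ¬ P (L - 1)) (a b : ℤ) :
    RH H' a b ↔ (a = b ∨ (¬ P (a - 1) ∧ ¬ P (b - 1) ∧ Relation.EqvGen (Gn H P) a b)) := by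
  have hP1 : ∀ L, P L → H' L = H L := fun L h => hP' L (hPP L h)
  have hP2 : ∀ L, P L → H' (L + 2) = H (L + 2) := by
    intro L h
    apply hP'
    intro h'
    have := hPP _ h'
    apply this
    have e : L + 2 - 1 - 1 = L := by ring
    rw [e]; exact h
  have hge : ∀ x, H x ≤ H' x := by
    intro x
    by_cases h : P (x - 1)
    · have := (hP _ h).2.2
      have e : x - 1 + 1 = x := by ring
      rw [e] at this
      omega
    · rw [hP' x h]
  have hpk : ∀ a b, P (a - 1) → RH H' a b → a = b := by
    intro a b h1 h2
    have h3 := hP _ h1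
    have h4 := hP1 _ h1
    have h5 := hP2 _ h1
    have e1 : a - 1 + 1 = a := by ring
    have e2 : a - 1 + 2 = a + 1 := by ring
    rw [e1, e2] at h3
    rw [e2] at h5
    exact peak_isol (by omega) (by omega) h2
  constructor
  · intro h
    by_cases hab : a = b
    · exact Or.inl hab
    · have h1 : ¬ P (a - 1) := fun h1 => hab (hpk a b h1 h)
      have h2 : ¬ P (b - 1) := fun h2 => hab (hpk b a h2 h.symm).symm
      refine Or.inr ⟨h1, h2, ?_⟩
      apply eqv_of_cons _ a b h
      clear h h1 h2 hab a b
      rintro a b ⟨hab, he, hl⟩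
      have hRH : RH H' a b := RH.of_le hab.le he (fun l h1 h2 => by
        rcases h1.eq_or_lt with h3 | h3
        · rw [h3]
        · rcases h2.eq_or_lt with h4 | h4
          · rw [h4, he]
          · exact (hl l h3 h4).le)
      have h1 : ¬ P (a - 1) := fun h1 => hab.ne (hpk a b h1 hRH)
      have h2 : ¬ P (b - 1) := fun h2 => hab.ne (hpk b a h2 hRH.symm).symm
      have ha := hP' a h1
      have hb := hP' b h2
      by_cases hex : ∃ L, P L ∧ a ≤ L ∧ L + 2 ≤ b ∧ H' L = H' a
      · obtain ⟨L, hL, h3, h4, h5⟩ := hex
        have h6 : a = L := by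
          by_contra hne
          have := hl L (by omega) (by omega)
          omega
        subst h6
        have h7 : b = a + 2 := by
          by_contra hne
          have := hl (a + 2) (by omega) (by omega)
          have := hP2 a hL
          have := hP a hL
          omega
        exact Relation.EqvGen.rel _ _ (Or.inr ⟨hL, h7⟩)
      · apply Relation.EqvGen.rel
        refine Or.inl ⟨h1, h2, RH.of_le hab.le (by omega) ?_⟩
        intro l hl1 hl2
        by_cases hPl : P (l - 1)
        · have h3 := hP _ hPl
          have h4 := hP1 _ hPl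
          have h5 := hP2 _ hPl
          have e1 : l - 1 + 1 = l := by ring
          have e2 : l - 1 + 2 = l + 1 := by ring
          rw [e1, e2] at h3
          have hla : a ≠ l := fun h => h1 (by rw [h]; exact hPl)
          have hlb : b ≠ l := fun h => h2 (by rw [h]; exact hPl)
          have h6 : H' (l - 1) ≠ H' a := by
            intro h7
            exact hex ⟨l - 1, hPl, by omega, by omega, h7⟩
          have h8 := hRH.2 (l - 1) (by omega)
          omega
        · have := hRH.2 l (Or.inl ⟨hl1, hl2⟩)
          have := hP' l hPl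
          omega
  · rintro (rfl | ⟨_, _, h⟩)
    · exact RH.refl _ _
    · apply eqv_sub_RH _ h
      rintro x y (⟨h1, h2, h3⟩ | ⟨h3, rfl⟩)
      · refine ⟨by rw [hP' x h1, hP' y h2]; exact h3.1, ?_⟩
        intro l hl
        have := h3.2 l hl
        have := hge l
        rw [hP' x h1]
        omega
      · have := hP x h3
        have := hP1 x h3
        have := hP2 x h3
        refine RH.of_le (by omega) (by omega) ?_
        intro l hl1 hl2
        have : l = x ∨ l = x + 1 ∨ l = x + 2 := by omega
        rcases this with rfl | rfl | rfl <;> omega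

/-- case `true, true` -/
theorem case_TT (H H' : ℤ → ℤ) (B : ℤ → ℤ → Prop)
    (hI : ∀ x, (∃ L R, B L R ∧ L + 2 ≤ x ∧ x ≤ R ∧ H' x = H x - 2) ∨
      (H' x = H x ∧ ∀ L R, B L R → ¬ (L + 2 ≤ x ∧ x ≤ R)))
    (hB : ∀ L R, B L R → L + 2 ≤ R ∧ H (L + 1) = H L + 1 ∧ H (L + 2) = H L + 2 ∧
      H R = H L + 2 ∧ H (R + 1) = H L + 1 ∧ ∀ x, L + 2 ≤ x → x ≤ R → H L + 2 ≤ H x)
    (hD : ∀ L R L' R', B L R → B L' R' → (L = L' ∧ R = R') ∨ R + 1 ≤ L' ∨ R' + 1 ≤ L)
    (a b : ℤ) :
    RH H' a b ↔ (a = b ∨ (¬ (∃ R, B (a - 1) R) ∧ ¬ (∃ R, B (b - 1) R) ∧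
      Relation.EqvGen (Gn H (fun L => ∃ R, B L R)) a b)) := by
  -- facts on blocks
  have f0 : ∀ L R, B L R → H' L = H L := by
    intro L R h
    rcases hI L with ⟨L', R', h1, h2, h3, _⟩ | ⟨h1, _⟩
    · have := hD L R L' R' h h1
      have := (hB L R h).1
      omega
    · exact h1
  have f1 : ∀ L R, B L R → H' (L + 1) = H L + 1 := by
    intro L R h
    rcases hI (L + 1) with ⟨L', R', h1, h2, h3, _⟩ | ⟨h1, _⟩
    · have := hD L R L' R' h h1
      have := (hB L R h).1
      omega
    · rw [h1]; exact (hB L R h).2.1
  have f2 : ∀ L R, B L R → ∀ x, L + 2 ≤ x → x ≤ R → H' x = H x - 2 := by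
    intro L R h x hx hx'
    rcases hI x with ⟨L', R', h1, h2, h3, h4⟩ | ⟨_, h1⟩
    · exact h4
    · exact absurd ⟨hx, hx'⟩ (h1 L R h)
  have f3 : ∀ L R, B L R → H' (R + 1) = H L + 1 := by
    intro L R h
    rcases hI (R + 1) with ⟨L', R', h1, h2, h3, _⟩ | ⟨h1, _⟩
    · have := hD L R L' R' h h1
      have := (hB L R h).1
      omega
    · rw [h1]; exact (hB L R h).2.2.2.2.1
  have hle : ∀ x, H' x ≤ H x := by
    intro x
    rcases hI x with ⟨L', R', h1, h2, h3, h4⟩ | ⟨h1, _⟩ <;> omega
  have nJ : ∀ L R, B L R → ∀ x, L ≤ x → x ≤ R → x ≠ L + 1 → ¬ ∃ R', B (x - 1) R' := by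
    rintro L R h x hx hx' hne ⟨R', h1⟩
    have := hD L R _ _ h h1
    have := (hB L R h).1
    have := (hB _ _ h1).1
    omega
  have hpk : ∀ a b, (∃ R, B (a - 1) R) → RH H' a b → a = b := by
    rintro a b ⟨R, h1⟩ h2
    have g0 := f0 _ _ h1
    have g1 := f1 _ _ h1
    have g2 := f2 _ _ h1 (a + 1) (by omega) (by have := (hB _ _ h1).1; omega)
    have g3 := (hB _ _ h1).2.2.1
    have e1 : a - 1 + 1 = a := by ring
    have e2 : a - 1 + 2 = a + 1 := by ring
    rw [e1] at g1
    rw [e2] at g3
    exact peak_isol (by omega) (by omega) h2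
  constructor
  · intro h
    by_cases hab : a = b
    · exact Or.inl hab
    · have h1 : ¬ ∃ R, B (a - 1) R := fun h1 => hab (hpk a b h1 h)
      have h2 : ¬ ∃ R, B (b - 1) R := fun h2 => hab (hpk b a h2 h.symm).symm
      refine Or.inr ⟨h1, h2, ?_⟩
      apply eqv_of_cons _ a b h
      clear h h1 h2 hab a b
      rintro a b ⟨hab, he, hl⟩
      have hRH : RH H' a b := RH.of_le hab.le he (fun l h1 h2 => by
        rcases h1.eq_or_lt with h3 | h3
        · rw [h3]
        · rcases h2.eq_or_lt with h4 | h4
          · rw [h4, he]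
          · exact (hl l h3 h4).le)
      have h1 : ¬ ∃ R, B (a - 1) R := fun h1 => hab.ne (hpk a b h1 hRH)
      have h2 : ¬ ∃ R, B (b - 1) R := fun h2 => hab.ne (hpk b a h2 hRH.symm).symm
      rcases hI a with ⟨L, R, hLR, ha1, ha2, ha3⟩ | ⟨ha, ha'⟩
      · have hBB := hB L R hLR
        by_cases hbR : b ≤ R
        · -- both in the same block
          apply Relation.EqvGen.rel
          refine Or.inl ⟨h1, h2, RH.of_le hab.le ?_ ?_⟩
          · have := f2 L R hLR b (by omega) hbR
            omega
          · intro l hl1 hl2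
            have := f2 L R hLR l (by omega) (by omega)
            have := hRH.2 l (Or.inl ⟨hl1, hl2⟩)
            omega
        · have hHR := f2 L R hLR R hBB.1 le_rfl
          have haR : a = R := by
            by_contra hne
            have := hl R (by omega) (by omega)
            have := hBB.2.2.2.2.2 a ha1 ha2
            omega
          subst haR
          rcases hI b with ⟨L', R', hLR', hb1, hb2, hb3⟩ | ⟨hb, hb'⟩
          · exfalso
            have h3 := hD L a L' R' hLR hLR'
            have h4 := (hB L' R' hLR').2.2.2.2.2 b hb1 hb2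
            have h5 := f0 L' R' hLR'
            have h6 := hl L' (by omega) (by omega)
            omega
          · have c1 : Relation.EqvGen (Gn H (fun L => ∃ R, B L R)) (L + 2) a := by
              apply Relation.EqvGen.rel
              refine Or.inl ⟨?_, h1, RH.of_le ha1 (by omega) ?_⟩
              · exact nJ L a hLR (L + 2) (by omega) ha1 (by omega)
              · intro l hl1 hl2
                have := hBB.2.2.2.2.2 l hl1 hl2
                omega
            have c2 : Relation.EqvGen (Gn H (fun L => ∃ R, B L R)) L (L + 2) :=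
              Relation.EqvGen.rel _ _ (Or.inr ⟨⟨a, hLR⟩, rfl⟩)
            have c3 : Relation.EqvGen (Gn H (fun L => ∃ R, B L R)) L b := by
              apply Relation.EqvGen.rel
              refine Or.inl ⟨?_, h2, RH.of_le (by omega) (by omega) ?_⟩
              · exact nJ L a hLR L le_rfl (by omega) (by omega)
              · intro l hl1 hl2
                by_cases h3 : l ≤ L + 1
                · have : l = L ∨ l = L + 1 := by omega
                  rcases this with rfl | rfl <;> omega
                · by_cases h4 : l ≤ a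
                  · have := hBB.2.2.2.2.2 l (by omega) h4
                    omega
                  · have := hRH.2 l (Or.inl ⟨by omega, hl2⟩)
                    have := hle l
                    omega
            exact Relation.EqvGen.trans _ _ _ (Relation.EqvGen.symm _ _ c1)
              (Relation.EqvGen.trans _ _ _ (Relation.EqvGen.symm _ _ c2) c3)
      · rcases hI b with ⟨L, R, hLR, hb1, hb2, hb3⟩ | ⟨hb, hb'⟩
        · have hBB := hB L R hLR
          have h3 := ha' L R hLR
          have h4 : a ≠ L + 1 := by
            rintro rfl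
            apply h1
            have e : L + 1 - 1 = L := by ring
            rw [e]
            exact ⟨R, hLR⟩
          have h5 := f0 L R hLR
          have h6 := hBB.2.2.2.2.2 b hb1 hb2
          have haL : a = L := by
            by_contra hne
            have := hl L (by omega) (by omega)
            omega
          subst haL
          have hbL : b = a + 2 := by
            by_contra hne
            have := hl (a + 2) (by omega) (by omega)
            have := f2 a R hLR (a + 2) le_rfl hBB.1
            omega
          exact Relation.EqvGen.rel _ _ (Or.inr ⟨⟨R, hLR⟩, hbL⟩)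
        · apply Relation.EqvGen.rel
          refine Or.inl ⟨h1, h2, RH.of_le hab.le (by omega) ?_⟩
          intro l hl1 hl2
          have := hRH.2 l (Or.inl ⟨hl1, hl2⟩)
          have := hle l
          omega
  · rintro (rfl | ⟨_, _, h⟩)
    · exact RH.refl _ _
    · apply eqv_sub_RH _ h
      have main : ∀ x y, x ≤ y → (¬ ∃ R, B (x - 1) R) → (¬ ∃ R, B (y - 1) R) → RH H x y →
          RH H' x y := by
        intro x y hxy hx hy h3
        have h4 := h3.1
        rcases hI x with ⟨L, R, hLR, hx1, hx2, hx3⟩ | ⟨hx1, hx2⟩
        · have hBB := hB L R hLR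
          have h5 := hBB.2.2.2.2.2 x hx1 hx2
          have hyR : y ≤ R := by
            by_contra hne
            have := h3.2 (R + 1) (by omega)
            omega
          have h6 := f2 L R hLR y (by omega) hyR
          refine RH.of_le hxy (by omega) ?_
          intro l hl1 hl2
          have := f2 L R hLR l (by omega) (by omega)
          have := h3.2 l (Or.inl ⟨hl1, hl2⟩)
          omega
        · rcases hI y with ⟨L, R, hLR, hy1, hy2, hy3⟩ | ⟨hy1, hy2⟩
          · exfalso
            have hBB := hB L R hLR
            have h5 := hBB.2.2.2.2.2 y hy1 hy2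
            have h6 := hx2 L R hLR
            have := h3.2 (L + 1) (by omega)
            omega
          · refine RH.of_le hxy (by omega) ?_
            intro l hl1 hl2
            have h7 := h3.2 l (Or.inl ⟨hl1, hl2⟩)
            rcases hI l with ⟨L, R, hLR, hm1, hm2, hm3⟩ | ⟨hm1, hm2⟩
            · have hBB := hB L R hLR
              have h6 := hx2 L R hLR
              have h8 : x ≠ L + 1 := by
                rintro rfl
                apply hx
                have e : L + 1 - 1 = L := by ring
                rw [e]
                exact ⟨R, hLR⟩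
              have := h3.2 L (by omega)
              have := hBB.2.2.2.2.2 l hm1 hm2
              omega
            · omega
      rintro x y (⟨h1, h2, h3⟩ | ⟨⟨R, h3⟩, rfl⟩)
      · rcases le_total x y with h4 | h4
        · exact main x y h4 h1 h2 h3
        · exact (main y x h4 h2 h1 h3.symm).symm
      · have g0 := f0 _ _ h3
        have g1 := f1 _ _ h3
        have g3 := (hB _ _ h3)
        have g2 := f2 _ _ h3 (x + 2) le_rfl g3.1
        refine RH.of_le (by omega) (by omega) ?_
        intro l hl1 hl2
        have : l = x ∨ l = x + 1 ∨ l = x + 2 := by omega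
        rcases this with rfl | rfl | rfl <;> omega

/-- case `false, false` -/
theorem case_FF (H H' : ℤ → ℤ) (B : ℤ → ℤ → Prop)
    (hI : ∀ x, (∃ L R, B L R ∧ L ≤ x ∧ x ≤ R ∧ H' x = H x - 2) ∨
      (H' x = H x ∧ ∀ L R, B L R → ¬ (L ≤ x ∧ x ≤ R)))
    (hB : ∀ L R, B L R → L ≤ R ∧ H (R + 1) = H (R + 2) + 1 ∧ H R = H (R + 2) + 2 ∧
      H L = H (R + 2) + 2 ∧ H (L - 1) = H (R + 2) + 1 ∧
      ∀ x, L ≤ x → x ≤ R → H (R + 2) + 2 ≤ H x)
    (hD : ∀ L R L' R', B L R → B L' R' → (L = L' ∧ R = R') ∨ R + 2 < L' ∨ R' + 2 < L)
    (a b : ℤ) :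
    RH H' a b ↔ (a = b ∨ (¬ (∃ L, B L (a - 1)) ∧ ¬ (∃ L, B L (b - 1)) ∧
      Relation.EqvGen (Gn H (fun R => ∃ L, B L R)) a b)) := by
  have key := case_TT (fun x => H (-x)) (fun x => H' (-x)) (fun L R => B (-R) (-L - 2))
    (by
      intro x
      rcases hI (-x) with ⟨L, R, h1, h2, h3, h4⟩ | ⟨h1, h2⟩
      · refine Or.inl ⟨-R - 2, -L, ?_, by omega, by omega, h4⟩
        have e1 : -(-L) = L := by ring
        have e2 : -(-R - 2) - 2 = R := by ring
        show B (-(-L)) (-(-R - 2) - 2)
        rw [e1, e2]; exact h1
      · refine Or.inr ⟨h1, ?_⟩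
        intro L R h3 h4
        exact h2 _ _ h3 (by omega))
    (by
      intro L R h
      obtain ⟨h1, h2, h3, h4, h5, h6⟩ := hB _ _ h
      have e1 : -L - 2 + 1 = -(L + 1) := by ring
      have e2 : -L - 2 + 2 = -L := by ring
      have e3 : -L - 2 = -(L + 2) := by ring
      have e4 : -R - 1 = -(R + 1) := by ring
      rw [e1, e2] at h2
      rw [e2, e3] at h3
      rw [e2] at h4 h5 h6
      rw [e4] at h5
      refine ⟨by omega, h2, h3, h4, h5, ?_⟩
      intro x hx hx'
      exact h6 (-x) (by omega) (by omega))
    (by
      intro L R L' R' h h'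
      have := hD _ _ _ _ h h'
      omega)
    (-a) (-b)
  have eRH : ∀ (F : ℤ → ℤ) (x y : ℤ), RH (fun x => F (-x)) x y ↔ RH F (-x) (-y) := by
    intro F x y
    constructor
    · rintro ⟨h1, h2⟩
      refine ⟨h1, ?_⟩
      intro l hl
      have := h2 (-l) (by omega)
      simpa using this
    · rintro ⟨h1, h2⟩
      refine ⟨h1, ?_⟩
      intro l hl
      exact h2 (-l) (by omega)
  have eP : ∀ x, (∃ R, B (-R) (-x - 2)) ↔ ∃ L, B L (-x - 2) := by
    intro x
    constructor
    · rintro ⟨R, h⟩; exact ⟨-R, h⟩
    · rintro ⟨L, h⟩; exact ⟨-L, by rw [neg_neg]; exact h⟩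
  rw [eRH, neg_neg, neg_neg, eP, eP] at key
  have e1 : ∀ x : ℤ, -(-x - 1) - 2 = x - 1 := fun x => by ring
  rw [e1, e1] at key
  rw [key, neg_inj]
  have hG : Relation.EqvGen (Gn (fun x => H (-x)) (fun L => ∃ R, B (-R) (-L - 2))) (-a) (-b) ↔
      Relation.EqvGen (Gn H (fun R => ∃ L, B L R)) a b := by
    constructor
    · intro h
      have := eqvGen_map (G' := Gn H (fun R => ∃ L, B L R)) (fun x : ℤ => -x) (by
        rintro x y (⟨h1, h2, h3⟩ | ⟨h1, rfl⟩)
        · apply Relation.EqvGen.rel
          refine Or.inl ⟨?_, ?_, (eRH H x y).mp h3⟩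
          · have h1' := mt (eP (x - 1)).mpr h1
            have e : -(x - 1) - 2 = -x - 1 := by ring
            rwa [e] at h1'
          · have h2' := mt (eP (y - 1)).mpr h2
            have e : -(y - 1) - 2 = -y - 1 := by ring
            rwa [e] at h2'
        · apply Relation.EqvGen.symm
          apply Relation.EqvGen.rel
          have h1' := (eP x).mp h1
          refine Or.inr ⟨?_, by ring⟩
          have e : -(x + 2) = -x - 2 := by ring
          rw [e]
          exact h1') h
      simpa using this
    · intro h
      exact eqvGen_map (fun x : ℤ => -x) (by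
        rintro x y (⟨h1, h2, h3⟩ | ⟨h1, rfl⟩)
        · apply Relation.EqvGen.rel
          refine Or.inl ⟨?_, ?_, (eRH H (-x) (-y)).mpr (by simpa using h3)⟩
          · show ¬ ∃ R, B (-R) (-(-x - 1) - 2)
            rw [eP, e1]
            exact h1
          · show ¬ ∃ R, B (-R) (-(-y - 1) - 2)
            rw [eP, e1]
            exact h2
        · apply Relation.EqvGen.symm
          apply Relation.EqvGen.rel
          refine Or.inr ⟨?_, by ring⟩
          show ∃ R, B (-R) (-(-(x + 2)) - 2)
          rw [eP]
          have e : -(-(x + 2)) - 2 = x := by ring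
          rw [e]
          exact h1) h
  rw [hG]

/-! ### words -/

/-- sign of a letter -/
def ep (b : Bool) : ℤ := if b then 1 else -1

/-- sum of the signs -/
def lsum (l : List Bool) : ℤ := (l.map ep).sum

theorem lsum_nil : lsum [] = 0 := rfl
theorem lsum_cons (b : Bool) (l : List Bool) : lsum (b :: l) = ep b + lsum l := by simp [lsum]
theorem lsum_append (l l' : List Bool) : lsum (l ++ l') = lsum l + lsum l' := by simp [lsum]
theorem lsum_reverse (l : List Bool) : lsum l.reverse = lsum l := by
  simp [lsum, List.map_reverse]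

theorem lsum_count (l : List Bool) : lsum l = 2 * (l.count true : ℤ) - l.length := by
  induction l with
  | nil => simp [lsum]
  | cons b l ih =>
    rw [lsum_cons, ih]
    cases b
    · rw [List.count_cons_of_ne (by decide)]
      simp [ep]; ring
    · rw [List.count_cons_self]
      simp [ep]; ring

theorem flipR_spec : ∀ (v : Word) (d : ℕ), lsum v + d < 0 → ∃ v1 v2 : Word,
    v = v1 ++ false :: v2 ∧ flipR d v = v1 ++ true :: v2 ∧ lsum v1 + d = 0 ∧
      ∀ j ≤ v1.length, 0 ≤ lsum (v1.take j) + d := by
  intro v
  induction v with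
  | nil => intro d h; simp [lsum] at h; omega
  | cons b v ih =>
    intro d h
    rw [lsum_cons] at h
    cases b
    · rcases d with _ | d
      · refine ⟨[], v, rfl, rfl, by simp [lsum], ?_⟩
        intro j _
        simp [lsum]
      · simp only [ep, Bool.false_eq_true, if_false] at h
        obtain ⟨v1, v2, h1, h2, h3, h4⟩ := ih d (by push_cast at h; omega)
        refine ⟨false :: v1, v2, by rw [h1]; rfl, ?_, ?_, ?_⟩
        · show false :: flipR d v = _
          rw [h2]; rfl
        · rw [lsum_cons]; simp only [ep, Bool.false_eq_true, if_false]; push_cast; omega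
        · intro j hj
          rcases j with _ | j
          · simp [lsum]; omega
          · rw [List.take_succ_cons, lsum_cons]
            have := h4 j (by simpa using hj)
            simp only [ep, Bool.false_eq_true, if_false]; push_cast; omega
    · simp only [ep, if_true] at h
      obtain ⟨v1, v2, h1, h2, h3, h4⟩ := ih (d + 1) (by push_cast; omega)
      refine ⟨true :: v1, v2, by rw [h1]; rfl, ?_, ?_, ?_⟩
      · show true :: flipR (d + 1) v = _
        rw [h2]; rfl
      · rw [lsum_cons]; simp only [ep, if_true]; push_cast at h3; omega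
      · intro j hj
        rcases j with _ | j
        · simp [lsum]
        · rw [List.take_succ_cons, lsum_cons]
          have := h4 j (by simpa using hj)
          simp only [ep, if_true]; push_cast at this; omega

theorem flipL_spec : ∀ (v : Word) (d : ℕ), - lsum v + d < 0 → ∃ v1 v2 : Word,
    v = v1 ++ true :: v2 ∧ flipL d v = v1 ++ false :: v2 ∧ - lsum v1 + d = 0 ∧
      ∀ j ≤ v1.length, 0 ≤ - lsum (v1.take j) + d := by
  intro v
  induction v with
  | nil => intro d h; simp [lsum] at h; omega
  | cons b v ih =>
    intro d h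
    rw [lsum_cons] at h
    cases b
    · simp only [ep, Bool.false_eq_true, if_false] at h
      obtain ⟨v1, v2, h1, h2, h3, h4⟩ := ih (d + 1) (by push_cast; omega)
      refine ⟨false :: v1, v2, by rw [h1]; rfl, ?_, ?_, ?_⟩
      · show false :: flipL (d + 1) v = _
        rw [h2]; rfl
      · rw [lsum_cons]; simp only [ep, Bool.false_eq_true, if_false]; push_cast at h3; omega
      · intro j hj
        rcases j with _ | j
        · simp [lsum]
        · rw [List.take_succ_cons, lsum_cons]
          have := h4 j (by simpa using hj)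
          simp only [ep, Bool.false_eq_true, if_false]; push_cast at this; omega
    · rcases d with _ | d
      · refine ⟨[], v, rfl, rfl, by simp [lsum], ?_⟩
        intro j _
        simp [lsum]
      · simp only [ep, if_true] at h
        obtain ⟨v1, v2, h1, h2, h3, h4⟩ := ih d (by push_cast at h; omega)
        refine ⟨true :: v1, v2, by rw [h1]; rfl, ?_, ?_, ?_⟩
        · show true :: flipL d v = _
          rw [h2]; rfl
        · rw [lsum_cons]; simp only [ep, if_true]; push_cast; omega
        · intro j hj
          rcases j with _ | j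
          · simp [lsum]; omega
          · rw [List.take_succ_cons, lsum_cons]
            have := h4 j (by simpa using hj)
            simp only [ep, if_true]; push_cast; omega

theorem flipLr_spec (v : Word) (h : 0 < lsum v) : ∃ v2 v1 : Word,
    v = v2 ++ true :: v1 ∧ (flipL 0 v.reverse).reverse = v2 ++ false :: v1 ∧ lsum v1 = 0 ∧
      ∀ j ≤ v1.length, lsum (v1.drop j) ≤ 0 := by
  obtain ⟨r1, r2, h1, h2, h3, h4⟩ := flipL_spec v.reverse 0 (by rw [lsum_reverse]; push_cast; omega)
  refine ⟨r2.reverse, r1.reverse, ?_, ?_, ?_, ?_⟩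
  · have := congrArg List.reverse h1
    rw [List.reverse_reverse] at this
    rw [this]
    simp
  · rw [h2]
    simp
  · rw [lsum_reverse]; push_cast at h3; omega
  · intro j hj
    rw [List.length_reverse] at hj
    have e : r1.reverse.drop j = (r1.take (r1.length - j)).reverse := by
      rw [List.reverse_take]
      congr 1
      omega
    rw [e, lsum_reverse]
    have := h4 (r1.length - j) (by omega)
    push_cast at this
    omega

/-! ### signs -/

theorem sg_def (w : Word) (j : ℤ) : sg w j = ep (w.getD (j % (w.length : ℤ)).toNat true) := rfl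

theorem sg_per (w : Word) (j k : ℤ) : sg w (j + k * w.length) = sg w j := by
  rw [sg_def, sg_def, Int.add_mul_emod_self_right]

theorem sg_nat {w : Word} {r : ℕ} (hr : r < w.length) : sg w (r : ℤ) = ep (w.getD r true) := by
  rw [sg_def]
  congr 2
  rw [Int.emod_eq_of_lt (by omega) (by omega)]
  simp

theorem ht_take {w : Word} {H : ℤ → ℤ} (h : Inc (sg w) H) (k : ℤ) (r : ℕ) (hr : r ≤ w.length) :
    H (k * w.length + r) = H (k * w.length) + lsum (w.take r) := by
  induction r with
  | zero => simp [lsum]
  | succ r ih =>
    have h1 := h (k * w.length + r)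
    have e : k * (w.length : ℤ) + r + 1 = k * w.length + ((r + 1 : ℕ) : ℤ) := by push_cast; ring
    rw [e] at h1
    rw [h1, ih (by omega)]
    have e2 : sg w (k * w.length + r) = ep (w.getD r true) := by
      rw [add_comm, sg_per, sg_nat (by omega)]
    rw [e2]
    have e3 : w.take (r + 1) = w.take r ++ [w.getD r true] := by
      rw [List.take_add_one]
      congr 1
      rw [List.getElem?_eq_getElem (by omega), List.getD_eq_getElem _ _ (by omega)]
      rfl
    rw [e3, lsum_append, lsum_cons, lsum_nil]
    ring

theorem getD_mid (a b : List Bool) (x : Bool) : (a ++ x :: b).getD a.length true = x := by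
  simp [List.getD]

theorem getD_ne (a b : List Bool) (x y : Bool) (n : ℕ) (h : n ≠ a.length) :
    (a ++ x :: b).getD n true = (a ++ y :: b).getD n true := by
  simp only [List.getD_eq_getElem?_getD]
  rcases lt_or_gt_of_ne h with h1 | h1
  · rw [List.getElem?_append_left h1, List.getElem?_append_left h1]
  · rw [List.getElem?_append_right h1.le, List.getElem?_append_right h1.le]
    obtain ⟨t, ht⟩ : ∃ t, n - a.length = t + 1 := ⟨n - a.length - 1, by omega⟩
    rw [ht]
    simp

theorem sg_mid (a b : List Bool) (x : Bool) (j : ℤ)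
    (h : j % ((a ++ x :: b).length : ℤ) = a.length) : sg (a ++ x :: b) j = ep x := by
  rw [sg_def, h, Int.toNat_natCast, getD_mid]

theorem sg_ne (a b : List Bool) (x y : Bool) (j : ℤ)
    (h : j % ((a ++ x :: b).length : ℤ) ≠ a.length) :
    sg (a ++ x :: b) j = sg (a ++ y :: b) j := by
  have hl : (a ++ x :: b).length = (a ++ y :: b).length := by simp
  have h0 : 0 ≤ j % ((a ++ x :: b).length : ℤ) := by
    apply Int.emod_nonneg
    simp; omega
  rw [sg_def, sg_def, ← hl, getD_ne a b x y]
  intro h1
  apply h
  omega

theorem emod_succ (x N : ℤ) (hN : 0 < N) :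
    (x + 1) % N = if x % N = N - 1 then 0 else x % N + 1 := by
  have h0 := Int.emod_nonneg x hN.ne'
  have h1 := Int.emod_lt_of_pos x hN
  have h2 := Int.emod_add_mul_ediv x N
  split_ifs with h
  · have : x + 1 = 0 + N * (x / N + 1) := by rw [h] at h2; linarith
    rw [this, Int.add_mul_emod_self_left, Int.zero_emod]
  · have : x + 1 = (x % N + 1) + N * (x / N) := by linarith
    conv_lhs => rw [this]
    rw [Int.add_mul_emod_self_left, Int.emod_eq_of_lt (by omega) (by omega)]

/-- position in the block of a face -/
theorem emod_of_dvd {N L x : ℤ} (hL : N ∣ L) (h1 : L ≤ x) (h2 : x < L + N) : x % N = x - L := by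
  obtain ⟨k, rfl⟩ := hL
  have : x = (x - N * k) + N * k := by ring
  conv_lhs => rw [this]
  rw [Int.add_mul_emod_self_left, Int.emod_eq_of_lt (by omega) (by omega)]

theorem dvd_sub_emod (N x : ℤ) : N ∣ x - x % N := by
  have h2 := Int.emod_add_mul_ediv x N
  exact ⟨x / N, by linarith⟩

theorem dvd_cases {N L L' : ℤ} (_hN : 0 < N) (h : N ∣ L) (h' : N ∣ L') :
    L = L' ∨ L + N ≤ L' ∨ L' + N ≤ L := by
  rcases lt_trichotomy L L' with h1 | h1 | h1
  · have := Int.le_of_dvd (by omega) (dvd_sub h' h)
    omega
  · exact Or.inl h1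
  · have := Int.le_of_dvd (by omega) (dvd_sub h h')
    omega

/-- the statement for the strands `0, 1` -/
def Goal0 (u u' : Word) : Prop :=
  ∀ H, Inc (sg u) H → ∃ H', Inc (sg u') H' ∧ ∀ a b, RH H' a b ↔
    (a = b ∨ (¬ (u.length : ℤ) ∣ a - 1 ∧ ¬ (u.length : ℤ) ∣ b - 1 ∧
      Relation.EqvGen (Gn H (fun L => (u.length : ℤ) ∣ L)) a b))

theorem goal_TF (v : Word) : Goal0 (true :: false :: v) (true :: false :: v) := by
  intro H hH
  refine ⟨H, hH, ?_⟩
  intro a b
  apply case_TF
  rintro L ⟨k, rfl⟩
  have h1 := ht_take hH k 1 (by simp)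
  have h2 := ht_take hH k 2 (by simp)
  rw [show lsum (List.take 1 (true :: false :: v)) = 1 by simp [lsum, ep]] at h1
  rw [show lsum (List.take 2 (true :: false :: v)) = 0 by simp [lsum, ep]] at h2
  rw [mul_comm]
  push_cast at h1 h2 ⊢
  constructor
  · linarith
  · linarith

theorem goal_FT (v : Word) : Goal0 (false :: true :: v) (true :: false :: v) := by
  intro H hH
  set N : ℤ := ((false :: true :: v).length : ℤ) with hN
  have hN2 : 2 ≤ N := by simp [hN]; omega
  have hN' : ((true :: false :: v).length : ℤ) = N := by simp [hN]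
  have hs0 : ∀ x : ℤ, x % N = 0 → sg (false :: true :: v) x = -1 ∧
      sg (true :: false :: v) x = 1 := by
    intro x hx
    rw [sg_def, sg_def, hN', ← hN, hx]
    simp [ep]
  have hs1 : ∀ x : ℤ, x % N = 1 → sg (false :: true :: v) x = 1 ∧
      sg (true :: false :: v) x = -1 := by
    intro x hx
    rw [sg_def, sg_def, hN', ← hN, hx]
    simp [ep]
  have hs2 : ∀ x : ℤ, x % N ≠ 0 → x % N ≠ 1 → sg (true :: false :: v) x =
      sg (false :: true :: v) x := by
    intro x hx hx'
    have h1 : sg (true :: false :: v) x = sg (false :: false :: v) x := by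
      apply sg_ne [] (false :: v) true false
      show x % ((true :: false :: v).length : ℤ) ≠ 0
      rw [hN']
      exact hx
    have h2 : sg (false :: false :: v) x = sg (false :: true :: v) x := by
      apply sg_ne [false] v false true
      show x % ((false :: false :: v).length : ℤ) ≠ 1
      rw [show ((false :: false :: v).length : ℤ) = N by simp [hN]]
      exact hx'
    rw [h1, h2]
  refine ⟨fun x => if x % N = 1 then H x + 2 else H x, ?_, ?_⟩
  · intro x
    have h0 := Int.emod_nonneg x (show N ≠ 0 by omega)
    have h1 := Int.emod_lt_of_pos x (show 0 < N by omega)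
    have hx := hH x
    have hsucc := emod_succ x N (by omega)
    show (if (x + 1) % N = 1 then H (x + 1) + 2 else H (x + 1)) =
      (if x % N = 1 then H x + 2 else H x) + _
    by_cases c0 : x % N = 0
    · rw [if_neg (show x % N ≠ N - 1 by omega)] at hsucc
      rw [if_pos (show (x + 1) % N = 1 by omega), if_neg (show ¬ x % N = 1 by omega), hx,
        (hs0 x c0).1, (hs0 x c0).2]
      ring
    · by_cases c1 : x % N = 1
      · rw [if_neg (show ¬ (x + 1) % N = 1 by split_ifs at hsucc <;> omega), if_pos c1, hx,
          (hs1 x c1).1, (hs1 x c1).2]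
        ring
      · rw [if_neg (show ¬ (x + 1) % N = 1 by split_ifs at hsucc <;> omega), if_neg c1, hx,
          hs2 x c0 c1]
  · intro a b
    apply case_FT
    · rintro L ⟨k, rfl⟩
      have h1 := ht_take hH k 1 (by simp)
      have h2 := ht_take hH k 2 (by simp)
      have h3 : (N * k + 1) % N = 1 := by
        rw [emod_of_dvd (L := N * k) ⟨k, rfl⟩ (by omega) (by omega)]; ring
      rw [← hN, mul_comm k N] at h1 h2
      simp [lsum, ep] at h1 h2
      refine ⟨by linarith, by linarith, ?_⟩
      show (if (N * k + 1) % N = 1 then H (N * k + 1) + 2 else H (N * k + 1)) = _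
      rw [if_pos h3]
    · intro x hx
      show (if x % N = 1 then H x + 2 else H x) = _
      rw [if_neg]
      intro h
      apply hx
      have := dvd_sub_emod N x
      rwa [h] at this
    · intro L hL hL'
      have := Int.le_of_dvd (by omega) (dvd_sub hL hL')
      omega

theorem goal_TT (v1 v2 : Word) (h0 : lsum v1 = 0) (h1 : ∀ j ≤ v1.length, 0 ≤ lsum (v1.take j)) :
    Goal0 (true :: true :: (v1 ++ false :: v2)) (true :: false :: (v1 ++ true :: v2)) := by
  intro H hH
  set u : Word := true :: true :: (v1 ++ false :: v2) with hu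
  set N : ℤ := (u.length : ℤ) with hN
  set p : ℤ := 2 + v1.length with hp
  have hNp : N = p + 1 + v2.length := by
    simp only [hN, hu, hp, List.length_cons, List.length_append]; push_cast; ring
  have hs1 : ∀ x : ℤ, x % N = 1 → sg u x = 1 ∧
      sg (true :: false :: (v1 ++ true :: v2)) x = -1 := by
    intro x hx
    have hN' : ((true :: false :: (v1 ++ true :: v2)).length : ℤ) = N := by
      simp only [hN, hu, List.length_cons, List.length_append]
    constructor
    · have := sg_mid [true] (v1 ++ false :: v2) true x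
        (by show x % (u.length : ℤ) = _; rw [← hN, hx]; rfl)
      exact this
    · have := sg_mid [true] (v1 ++ true :: v2) false x
        (by show x % ((true :: false :: (v1 ++ true :: v2)).length : ℤ) = _; rw [hN', hx]; rfl)
      exact this
  have hsp : ∀ x : ℤ, x % N = p → sg u x = -1 ∧
      sg (true :: false :: (v1 ++ true :: v2)) x = 1 := by
    intro x hx
    have hN' : ((true :: false :: (v1 ++ true :: v2)).length : ℤ) = N := by
      simp only [hN, hu, List.length_cons, List.length_append]
    constructor
    · have := sg_mid (true :: true :: v1) v2 false x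
        (by show x % (u.length : ℤ) = _; rw [← hN, hx]; simp [hp]; ring)
      exact this
    · have := sg_mid (true :: false :: v1) v2 true x
        (by show x % ((true :: false :: (v1 ++ true :: v2)).length : ℤ) = _
            rw [hN', hx]; simp [hp]; ring)
      exact this
  have hs2 : ∀ x : ℤ, x % N ≠ 1 → x % N ≠ p →
      sg (true :: false :: (v1 ++ true :: v2)) x = sg u x := by
    intro x hx hx'
    have hN' : ((true :: false :: (v1 ++ true :: v2)).length : ℤ) = N := by
      simp only [hN, hu, List.length_cons, List.length_append]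
    have e1 : sg (true :: false :: (v1 ++ true :: v2)) x =
        sg (true :: true :: (v1 ++ true :: v2)) x := by
      apply sg_ne [true] (v1 ++ true :: v2) false true
      show x % ((true :: false :: (v1 ++ true :: v2)).length : ℤ) ≠ _
      rw [hN']
      exact hx
    have e2 : sg (true :: true :: (v1 ++ true :: v2)) x = sg u x := by
      apply sg_ne (true :: true :: v1) v2 true false
      show x % ((true :: true :: (v1 ++ true :: v2)).length : ℤ) ≠ _
      have : ((true :: true :: (v1 ++ true :: v2)).length : ℤ) = N := by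
        simp only [hN, hu, List.length_cons, List.length_append]
      rw [this]
      intro h
      apply hx'
      rw [h, hp]
      simp
      ring
    rw [e1, e2]
  refine ⟨fun x => if 2 ≤ x % N ∧ x % N ≤ p then H x - 2 else H x, ?_, ?_⟩
  · intro x
    have h0 := Int.emod_nonneg x (show N ≠ 0 by omega)
    have h1 := Int.emod_lt_of_pos x (show 0 < N by omega)
    have hx := hH x
    have hsucc := emod_succ x N (by omega)
    show (if 2 ≤ (x + 1) % N ∧ (x + 1) % N ≤ p then H (x + 1) - 2 else H (x + 1)) =
      (if 2 ≤ x % N ∧ x % N ≤ p then H x - 2 else H x) + _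
    by_cases c1 : x % N = 1
    · rw [if_neg (show x % N ≠ N - 1 by omega)] at hsucc
      rw [if_pos (show 2 ≤ (x + 1) % N ∧ (x + 1) % N ≤ p by omega), if_neg (by omega), hx,
        (hs1 x c1).1, (hs1 x c1).2]
      ring
    · by_cases cp : x % N = p
      · rw [if_neg (show ¬ (2 ≤ (x + 1) % N ∧ (x + 1) % N ≤ p) by
          split_ifs at hsucc <;> omega), if_pos (by omega), hx, (hsp x cp).1, (hsp x cp).2]
        ring
      · rw [hs2 x c1 cp]
        by_cases c2 : 2 ≤ x % N ∧ x % N ≤ p
        · rw [if_pos c2, if_pos (by split_ifs at hsucc <;> omega), hx]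
          ring
        · rw [if_neg c2, if_neg (by split_ifs at hsucc <;> omega), hx]
  · intro a b
    have key := case_TT H (fun x => if 2 ≤ x % N ∧ x % N ≤ p then H x - 2 else H x)
      (fun L R => N ∣ L ∧ R = L + p)
      (by
        intro x
        by_cases c2 : 2 ≤ x % N ∧ x % N ≤ p
        · refine Or.inl ⟨x - x % N, x - x % N + p, ⟨dvd_sub_emod N x, rfl⟩, by omega, by omega, ?_⟩
          show (if 2 ≤ x % N ∧ x % N ≤ p then H x - 2 else H x) = _
          rw [if_pos c2]
        · refine Or.inr ⟨?_, ?_⟩
          · show (if 2 ≤ x % N ∧ x % N ≤ p then H x - 2 else H x) = _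
            rw [if_neg c2]
          · rintro L R ⟨hL, rfl⟩ ⟨h3, h4⟩
            apply c2
            rw [emod_of_dvd hL (by omega) (by omega)]
            omega)
      (by
        rintro L R ⟨⟨k, rfl⟩, rfl⟩
        have hh : ∀ r : ℕ, (r : ℤ) ≤ N → H (N * k + r) = H (N * k) + lsum (u.take r) := by
          intro r hr
          have := ht_take hH k r (by omega)
          rwa [← hN, mul_comm k N] at this
        have g1 := hh 1 (by push_cast; omega)
        have g2 := hh 2 (by push_cast; omega)
        simp [hu, lsum, ep] at g1 g2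
        have g3 : ∀ j : ℕ, j ≤ v1.length → H (N * k + 2 + j) = H (N * k) + 2 + lsum (v1.take j) := by
          intro j hj
          have := hh (j + 2) (by push_cast; omega)
          have e : N * k + ((j + 2 : ℕ) : ℤ) = N * k + 2 + j := by push_cast; ring
          rw [e] at this
          rw [this]
          have e2 : u.take (j + 2) = true :: true :: v1.take j := by
            rw [hu, List.take_succ_cons, List.take_succ_cons, List.take_append_of_le_length hj]
          rw [e2, lsum_cons, lsum_cons]
          simp [ep]
          ring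
        have g4 := g3 v1.length le_rfl
        rw [List.take_length, h0] at g4
        have g5 := hh (v1.length + 3) (by push_cast; omega)
        have e5 : u.take (v1.length + 3) = true :: true :: (v1 ++ [false]) := by
          rw [hu, show v1.length + 3 = v1.length + 1 + 1 + 1 by ring, List.take_succ_cons,
            List.take_succ_cons, List.take_append]
          simp
        rw [e5, lsum_cons, lsum_cons, lsum_append, h0, lsum_cons, lsum_nil] at g5
        have e6 : N * k + ((v1.length + 3 : ℕ) : ℤ) = N * k + p + 1 := by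
          rw [hp]; push_cast; ring
        rw [e6] at g5
        have e7 : N * k + 2 + (v1.length : ℤ) = N * k + p := by rw [hp]; ring
        rw [e7] at g4
        simp [ep] at g5
        refine ⟨by omega, by omega, by omega, by omega, by omega, ?_⟩
        intro x hx hx'
        obtain ⟨j, hj⟩ : ∃ j : ℕ, x = N * k + 2 + j := ⟨(x - (N * k + 2)).toNat, by omega⟩
        rw [hj, g3 j (by omega)]
        have := h1 j (by omega)
        omega)
      (by
        rintro L R L' R' ⟨hL, rfl⟩ ⟨hL', rfl⟩
        have := dvd_cases (by omega) hL hL'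
        omega)
      a b
    rw [key]
    have eP : (fun L => ∃ R, N ∣ L ∧ R = L + p) = (fun L => N ∣ L) := by
      funext L
      simp
    have eP' : ∀ L, (∃ R, N ∣ L ∧ R = L + p) ↔ N ∣ L := fun L => by simp
    rw [eP' (a - 1), eP' (b - 1), eP]

theorem goal_FF (v2 v1 : Word) (h0 : lsum v1 = 0) (h1 : ∀ j ≤ v1.length, lsum (v1.drop j) ≤ 0) :
    Goal0 (false :: false :: (v2 ++ true :: v1)) (true :: false :: (v2 ++ false :: v1)) := by
  intro H hH
  set u : Word := false :: false :: (v2 ++ true :: v1) with hu
  set N : ℤ := (u.length : ℤ) with hN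
  set p : ℤ := 2 + v2.length with hp
  have hNp : N = p + 1 + v1.length := by
    simp only [hN, hu, hp, List.length_cons, List.length_append]; push_cast; ring
  have hN' : ((true :: false :: (v2 ++ false :: v1)).length : ℤ) = N := by
    simp only [hN, hu, List.length_cons, List.length_append]
  have hs1 : ∀ x : ℤ, x % N = 0 → sg u x = -1 ∧
      sg (true :: false :: (v2 ++ false :: v1)) x = 1 := by
    intro x hx
    constructor
    · have := sg_mid [] (false :: (v2 ++ true :: v1)) false x
        (by show x % (u.length : ℤ) = _; rw [← hN, hx]; rfl)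
      exact this
    · have := sg_mid [] (false :: (v2 ++ false :: v1)) true x
        (by show x % ((true :: false :: (v2 ++ false :: v1)).length : ℤ) = _; rw [hN', hx]; rfl)
      exact this
  have hsp : ∀ x : ℤ, x % N = p → sg u x = 1 ∧
      sg (true :: false :: (v2 ++ false :: v1)) x = -1 := by
    intro x hx
    constructor
    · have := sg_mid (false :: false :: v2) v1 true x
        (by show x % (u.length : ℤ) = _; rw [← hN, hx]; simp [hp]; ring)
      exact this
    · have := sg_mid (true :: false :: v2) v1 false x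
        (by show x % ((true :: false :: (v2 ++ false :: v1)).length : ℤ) = _
            rw [hN', hx]; simp [hp]; ring)
      exact this
  have hs2 : ∀ x : ℤ, x % N ≠ 0 → x % N ≠ p →
      sg (true :: false :: (v2 ++ false :: v1)) x = sg u x := by
    intro x hx hx'
    have e1 : sg (true :: false :: (v2 ++ false :: v1)) x =
        sg (false :: false :: (v2 ++ false :: v1)) x := by
      apply sg_ne [] (false :: (v2 ++ false :: v1)) true false
      show x % ((true :: false :: (v2 ++ false :: v1)).length : ℤ) ≠ _
      rw [hN']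
      exact hx
    have e2 : sg (false :: false :: (v2 ++ false :: v1)) x = sg u x := by
      apply sg_ne (false :: false :: v2) v1 false true
      show x % ((false :: false :: (v2 ++ false :: v1)).length : ℤ) ≠ _
      have : ((false :: false :: (v2 ++ false :: v1)).length : ℤ) = N := by
        simp only [hN, hu, List.length_cons, List.length_append]
      rw [this]
      intro h
      apply hx'
      rw [h, hp]
      simp
      ring
    rw [e1, e2]
  refine ⟨fun x => if x % N = 0 ∨ p + 1 ≤ x % N then H x - 2 else H x, ?_, ?_⟩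
  · intro x
    have h0 := Int.emod_nonneg x (show N ≠ 0 by omega)
    have h1 := Int.emod_lt_of_pos x (show 0 < N by omega)
    have hx := hH x
    have hsucc := emod_succ x N (by omega)
    show (if (x + 1) % N = 0 ∨ p + 1 ≤ (x + 1) % N then H (x + 1) - 2 else H (x + 1)) =
      (if x % N = 0 ∨ p + 1 ≤ x % N then H x - 2 else H x) + _
    by_cases c1 : x % N = 0
    · rw [if_neg (show x % N ≠ N - 1 by omega)] at hsucc
      rw [if_neg (show ¬ ((x + 1) % N = 0 ∨ p + 1 ≤ (x + 1) % N) by omega),
        if_pos (Or.inl c1), hx, (hs1 x c1).1, (hs1 x c1).2]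
      ring
    · by_cases cp : x % N = p
      · rw [if_pos (show ((x + 1) % N = 0 ∨ p + 1 ≤ (x + 1) % N) by
          split_ifs at hsucc <;> omega), if_neg (by omega), hx, (hsp x cp).1, (hsp x cp).2]
        ring
      · rw [hs2 x c1 cp]
        by_cases c2 : p + 1 ≤ x % N
        · rw [if_pos (Or.inr c2), if_pos (by split_ifs at hsucc <;> omega), hx]
          ring
        · rw [if_neg (show ¬ (x % N = 0 ∨ p + 1 ≤ x % N) by omega),
            if_neg (by split_ifs at hsucc <;> omega), hx]
  · intro a b
    have key := case_FF H (fun x => if x % N = 0 ∨ p + 1 ≤ x % N then H x - 2 else H x)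
      (fun L R => N ∣ R ∧ L = R - v1.length)
      (by
        intro x
        have h0 := Int.emod_nonneg x (show N ≠ 0 by omega)
        have h1 := Int.emod_lt_of_pos x (show 0 < N by omega)
        by_cases c2 : x % N = 0 ∨ p + 1 ≤ x % N
        · rcases c2 with c2 | c2
          · refine Or.inl ⟨x - v1.length, x, ⟨?_, rfl⟩, by omega, by omega, ?_⟩
            · have := dvd_sub_emod N x
              rwa [c2, sub_zero] at this
            · show (if x % N = 0 ∨ p + 1 ≤ x % N then H x - 2 else H x) = _
              rw [if_pos (Or.inl c2)]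
          · refine Or.inl ⟨x - x % N + N - v1.length, x - x % N + N, ⟨?_, rfl⟩, by omega,
              by omega, ?_⟩
            · exact dvd_add (dvd_sub_emod N x) (dvd_refl _)
            · show (if x % N = 0 ∨ p + 1 ≤ x % N then H x - 2 else H x) = _
              rw [if_pos (Or.inr c2)]
        · refine Or.inr ⟨?_, ?_⟩
          · show (if x % N = 0 ∨ p + 1 ≤ x % N then H x - 2 else H x) = _
            rw [if_neg c2]
          · rintro L R ⟨hL, rfl⟩ ⟨h3, h4⟩
            apply c2
            rcases h4.eq_or_lt with h5 | h5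
            · left
              rw [h5]
              exact Int.emod_eq_zero_of_dvd hL
            · right
              rw [emod_of_dvd (L := R - N) (dvd_sub hL (dvd_refl _)) (by omega) (by omega)]
              omega)
      (by
        rintro L R ⟨⟨k, rfl⟩, rfl⟩
        have hh : ∀ r : ℕ, (r : ℤ) ≤ N → H (N * k + r) = H (N * k) + lsum (u.take r) := by
          intro r hr
          have := ht_take hH k r (by omega)
          rwa [← hN, mul_comm k N] at this
        have hh' : ∀ r : ℕ, (r : ℤ) ≤ N →
            H (N * k - N + r) = H (N * k - N) + lsum (u.take r) := by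
          intro r hr
          have := ht_take hH (k - 1) r (by omega)
          have e : (k - 1) * (u.length : ℤ) = N * k - N := by rw [← hN]; ring
          rwa [e] at this
        have g1 := hh 1 (by push_cast; omega)
        have g2 := hh 2 (by push_cast; omega)
        simp [hu, lsum, ep] at g1 g2
        -- total
        have gN := hh' u.length (by rw [← hN])
        rw [List.take_length, ← hN, sub_add_cancel] at gN
        have lu : lsum u = -1 + (-1) + lsum v2 + 1 := by
          rw [hu, lsum_cons, lsum_cons, lsum_append, lsum_cons, h0]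
          simp [ep]
          ring
        have g3 : ∀ j : ℕ, j ≤ v1.length → H (N * k - v1.length + j) =
            H (N * k) - lsum (v1.drop j) := by
          intro j hj
          have := hh' (v2.length + 3 + j) (by push_cast; omega)
          have e : N * k - N + ((v2.length + 3 + j : ℕ) : ℤ) = N * k - v1.length + j := by
            rw [hNp, hp]; push_cast; ring
          rw [e] at this
          rw [this, gN]
          have e2 : u.take (v2.length + 3 + j) = (false :: false :: (v2 ++ [true])) ++ v1.take j := by
            have : u = (false :: false :: (v2 ++ [true])) ++ v1 := by simp [hu]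
            rw [this, List.take_append]
            congr 1
            · rw [List.take_of_length_le]
              simp
            · congr 1
              simp
          rw [e2, lu]
          have e3 : lsum (v1.take j) + lsum (v1.drop j) = lsum v1 := by
            rw [← lsum_append, List.take_append_drop]
          rw [lsum_append, lsum_cons, lsum_cons, lsum_append, lsum_cons, lsum_nil]
          simp only [ep, Bool.false_eq_true, if_false, if_true]
          omega
        have g4 := g3 0 (Nat.zero_le _)
        rw [List.drop_zero, h0] at g4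
        have g5 := hh' (v2.length + 2) (by push_cast; omega)
        have e5 : u.take (v2.length + 2) = false :: false :: v2 := by
          rw [hu, show v2.length + 2 = v2.length + 1 + 1 by ring, List.take_succ_cons,
            List.take_succ_cons, List.take_left']
          rfl
        rw [e5, lsum_cons, lsum_cons] at g5
        have e6 : N * k - N + ((v2.length + 2 : ℕ) : ℤ) = N * k - v1.length - 1 := by
          rw [hNp, hp]; push_cast; ring
        rw [e6] at g5
        simp only [ep, Bool.false_eq_true, if_false] at g5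
        simp only [Nat.cast_zero, add_zero, sub_zero] at g4
        refine ⟨by omega, by omega, by omega, by omega, by omega, ?_⟩
        intro x hx hx'
        obtain ⟨j, hj⟩ : ∃ j : ℕ, x = N * k - v1.length + j :=
          ⟨(x - (N * k - v1.length)).toNat, by omega⟩
        rw [hj, g3 j (by omega)]
        have := h1 j (by omega)
        omega)
      (by
        rintro L R L' R' ⟨hL, rfl⟩ ⟨hL', rfl⟩
        have := dvd_cases (by omega) hL hL'
        omega)
      a b
    rw [key]
    have eP : (fun R => ∃ L, N ∣ R ∧ L = R - (v1.length : ℤ)) = (fun L => N ∣ L) := by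
      funext L
      simp
    have eP' : ∀ R, (∃ L, N ∣ R ∧ L = R - (v1.length : ℤ)) ↔ N ∣ R := fun L => by simp
    rw [eP' (a - 1), eP' (b - 1), eP]

theorem goal_act0 {u : Word} (hu : Ok u) (h2 : 2 ≤ u.length) : Goal0 u (act0 u) := by
  rcases u with _ | ⟨x, u⟩
  · simp at h2
  rcases u with _ | ⟨y, v⟩
  · simp at h2
  have hl : 0 ≤ lsum (x :: y :: v) ∧ lsum (x :: y :: v) ≤ 1 := by
    rw [lsum_count]
    unfold Ok at hu
    rw [hu]
    constructor <;> omega
  rw [lsum_cons, lsum_cons] at hl
  rcases x with _ | _ <;> rcases y with _ | _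
  · -- false false
    simp only [ep, Bool.false_eq_true, if_false] at hl
    obtain ⟨v2, v1, g1, g2, g3, g4⟩ := flipLr_spec v (by omega)
    show Goal0 _ (true :: false :: (flipL 0 v.reverse).reverse)
    rw [g2, g1]
    exact goal_FF v2 v1 g3 g4
  · exact goal_FT v
  · exact goal_TF v
  · simp only [ep, if_true] at hl
    obtain ⟨v1, v2, g1, g2, g3, g4⟩ := flipR_spec v 0 (by push_cast; omega)
    show Goal0 _ (true :: false :: flipR 0 v)
    rw [g2, g1]
    simp only [Nat.cast_zero, add_zero] at g3 g4
    exact goal_TT v1 v2 g3 g4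

theorem sg_rotate (w : Word) (n : ℕ) (j : ℤ) : sg (w.rotate n) j = sg w (j + n) := by
  rcases Nat.eq_zero_or_pos w.length with h0 | h0
  · have : w = [] := List.eq_nil_of_length_eq_zero h0
    subst this
    simp [sg]
  · have hN : (0 : ℤ) < w.length := by exact_mod_cast h0
    rw [sg_def, sg_def, List.length_rotate]
    have b1 := Int.emod_nonneg j hN.ne'
    have b2 := Int.emod_lt_of_pos j hN
    have b3 := Int.emod_nonneg (j + n) hN.ne'
    have b4 := Int.emod_lt_of_pos (j + n) hN
    have hr : (j % (w.length : ℤ)).toNat < (w.rotate n).length := by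
      rw [List.length_rotate]; omega
    have hr' : ((j + n) % (w.length : ℤ)).toNat < w.length := by omega
    rw [List.getD_eq_getElem _ _ hr, List.getD_eq_getElem _ _ hr', List.getElem_rotate]
    congr 2
    zify
    rw [Int.toNat_of_nonneg b1, Int.toNat_of_nonneg b3, Int.emod_add_emod]

end Sem1Aux

open Sem1Aux

theorem Rw_equiv (w : Word) : Equivalence (Rw w) := by
  obtain ⟨H, hH, _⟩ := exists_ht (sg w)
  refine ⟨fun a => ?_, fun {a b} h => ?_, fun {a b c} h h' => ?_⟩
  · rw [Rw_iff hH]; exact RH.refl _ _
  · rw [Rw_iff hH] at *; exact h.symm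
  · rw [Rw_iff hH] at *; exact h.trans h'

namespace Sem1Aux

theorem Rw_translate (w w' : Word) (n : ℤ) (h : ∀ j, sg w' (j + n) = sg w j) (j k : ℤ) :
    Rw w' (j + n) (k + n) ↔ Rw w j k := by
  obtain ⟨H, hH, _⟩ := exists_ht (sg w')
  have hH' : Inc (sg w) (fun x => H (x + n)) := by
    intro x
    have := hH (x + n)
    show H (x + 1 + n) = H (x + n) + sg w x
    rw [← h x, ← this]
    congr 1
    ring
  rw [Rw_iff hH, Rw_iff hH']
  constructor
  · rintro ⟨h1, h2⟩
    exact ⟨h1, fun l hl => h2 (l + n) (by omega)⟩
  · rintro ⟨h1, h2⟩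
    refine ⟨h1, fun l hl => ?_⟩
    have := h2 (l - n) (by omega)
    simpa using this

end Sem1Aux

theorem Rw_shift (w : Word) (j k : ℤ) : Rw w (j + w.length) (k + w.length) ↔ Rw w j k := by
  apply Rw_translate
  intro x
  have := sg_per w x 1
  rwa [one_mul] at this

theorem Rw_rotr (w : Word) (hw : w ≠ []) (j k : ℤ) :
    Rw (rotr w) (j + 1) (k + 1) ↔ Rw w j k := by
  apply Rw_translate
  intro x
  unfold rotr
  rw [sg_rotate]
  have hl : 0 < w.length := List.length_pos_iff.mpr hw
  have e : x + 1 + ((w.length - 1 : ℕ) : ℤ) = x + 1 * w.length := by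
    have : ((w.length - 1 : ℕ) : ℤ) = w.length - 1 := by omega
    rw [this]; ring
  rw [e, sg_per]

/-- faces isolated by `act i` -/
def isol (w : Word) (i : ℕ) (a : ℤ) : Prop := ∃ k : ℤ, a = i + 1 + k * w.length

theorem Rw_act {i : ℕ} {w : Word} (hw : Ok w) (h2 : 2 ≤ w.length) (a b : ℤ) :
    Rw (act i w) a b ↔ (a = b ∨ (¬ isol w i a ∧ ¬ isol w i b ∧
      Relation.EqvGen (fun x y => (¬ isol w i x ∧ ¬ isol w i y ∧ Rw w x y) ∨
        ∃ k : ℤ, x = i + k * w.length ∧ y = i + 2 + k * w.length) a b)) := by
  have hok : Ok (w.rotate i) := by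
    unfold Ok at hw ⊢
    rw [List.length_rotate, (List.rotate_perm w i).count_eq, hw]
  obtain ⟨H, hH, _⟩ := exists_ht (sg (w.rotate i))
  obtain ⟨H', hH', key⟩ := goal_act0 hok (by rwa [List.length_rotate]) H hH
  have hlen : (act0 (w.rotate i)).length = w.length := by
    have hh : ∀ u : Word, 2 ≤ u.length → Ok u → (act0 u).length = u.length := by
      intro u hu2 hu
      rcases u with _ | ⟨x, u⟩
      · simp at hu2
      rcases u with _ | ⟨y, v⟩
      · simp at hu2
      have hl : 0 ≤ lsum (x :: y :: v) ∧ lsum (x :: y :: v) ≤ 1 := by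
        rw [lsum_count]
        unfold Ok at hu
        rw [hu]
        constructor <;> omega
      rw [lsum_cons, lsum_cons] at hl
      rcases x with _ | _ <;> rcases y with _ | _
      · simp only [ep, Bool.false_eq_true, if_false] at hl
        obtain ⟨v2, v1, g1, g2, g3, g4⟩ := flipLr_spec v (by omega)
        show (true :: false :: (flipL 0 v.reverse).reverse).length = _
        rw [g2, g1]
        simp
      · rfl
      · rfl
      · simp only [ep, if_true] at hl
        obtain ⟨v1, v2, g1, g2, g3, g4⟩ := flipR_spec v 0 (by push_cast; omega)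
        show (true :: false :: flipR 0 v).length = _
        rw [g2, g1]
        simp
    rw [hh _ (by rwa [List.length_rotate]) hok, List.length_rotate]
  -- translate
  have t1 : ∀ a b : ℤ, Rw (act i w) a b ↔ RH H' (a - i) (b - i) := by
    intro a b
    rw [← Rw_iff hH']
    have := Rw_translate (act0 (w.rotate i)) (act i w) i (by
      intro j
      unfold act
      rw [sg_rotate]
      have hpos : 0 < w.length := by omega
      have hle : i % w.length ≤ w.length := (Nat.mod_lt _ hpos).le
      have e : j + (i : ℤ) + ((w.length - i % w.length : ℕ) : ℤ) =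
          j + ((i / w.length : ℕ) + 1 : ℤ) * (act0 (w.rotate i)).length := by
        rw [hlen, Nat.cast_sub hle]
        have := Nat.mod_add_div i w.length
        have h3 : (i : ℤ) = ((i % w.length : ℕ) : ℤ) + w.length * ((i / w.length : ℕ) : ℤ) := by
          exact_mod_cast this.symm
        linear_combination h3
      rw [e, sg_per]) (a - i) (b - i)
    simpa using this
  have t2 : ∀ a b : ℤ, Rw w a b ↔ RH H (a - i) (b - i) := by
    intro a b
    rw [← Rw_iff hH]
    have := Rw_translate (w.rotate i) w i (by
      intro j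
      rw [sg_rotate]) (a - i) (b - i)
    simpa using this
  have t3 : ∀ a : ℤ, isol w i a ↔ ((w.rotate i).length : ℤ) ∣ (a - i) - 1 := by
    intro a
    rw [List.length_rotate]
    unfold isol
    constructor
    · rintro ⟨k, hk⟩
      exact ⟨k, by rw [hk]; ring⟩
    · rintro ⟨k, hk⟩
      exact ⟨k, by linear_combination hk⟩
  rw [t1, key, sub_left_inj, ← t3, ← t3]
  have hG : Relation.EqvGen (Gn H (fun L => ((w.rotate i).length : ℤ) ∣ L)) (a - i) (b - i) ↔
      Relation.EqvGen (fun x y => (¬ isol w i x ∧ ¬ isol w i y ∧ Rw w x y) ∨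
        ∃ k : ℤ, x = i + k * w.length ∧ y = i + 2 + k * w.length) a b := by
    constructor
    · intro h
      have := eqvGen_map (G' := (fun x y => (¬ isol w i x ∧ ¬ isol w i y ∧ Rw w x y) ∨
        ∃ k : ℤ, x = i + k * w.length ∧ y = i + 2 + k * w.length)) (fun x : ℤ => x + i) (by
        rintro x y (⟨g1, g2, g3⟩ | ⟨⟨k, g1⟩, rfl⟩)
        · apply Relation.EqvGen.rel
          left
          rw [t3, t3, t2, add_sub_cancel_right, add_sub_cancel_right]
          exact ⟨g1, g2, g3⟩
        · apply Relation.EqvGen.rel
          right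
          rw [List.length_rotate] at g1
          exact ⟨k, by rw [g1]; ring, by rw [g1]; ring⟩) h
      simpa using this
    · intro h
      exact eqvGen_map (fun x : ℤ => x - i) (by
        rintro x y (⟨g1, g2, g3⟩ | ⟨k, g1, g2⟩)
        · apply Relation.EqvGen.rel
          left
          rw [t3] at g1 g2
          exact ⟨g1, g2, (t2 x y).mp g3⟩
        · apply Relation.EqvGen.rel
          right
          refine ⟨?_, by rw [g1, g2]; ring⟩
          show ((w.rotate i).length : ℤ) ∣ x - i
          rw [List.length_rotate]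
          exact ⟨k, by rw [g1]; ring⟩) h
  rw [hG]

end Pool.Agent.H863R2.Cyl
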