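import Pool.Agent.H863R2.Cyl.Gen

/-!
# Module D1 : rational ground state (helper954)
-/

set_option autoImplicit false
set_option maxHeartbeats 400000

namespace Pool.Agent.H863R2.Cyl
open Equiv MvPolynomial Matrix

open GenAux

theorem exists_Phi (q : ℂ) (hq : q ^ 2 + q + 1 = 0) (m : ℕ) :
    ∃ Φ : Wd (m + 1) → FractionRing (MvPolynomial (Fin (m + 1)) ℂ),
      (∑ σ, Φ σ = 1) ∧
      (Tz (algebraMap (MvPolynomial (Fin (m + 1)) ℂ) _ (C q))
        (fun j => algebraMap (MvPolynomial (Fin (m + 1)) ℂ) _ (X j)) Φ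
          = fun σ => (∏ j, (1 + algebraMap (MvPolynomial (Fin (m + 1)) ℂ) _ (X j))) * Φ σ) ∧
      Φ (base m) ≠ 0 ∧
      ∀ v : Wd (m + 1) → FractionRing (MvPolynomial (Fin (m + 1)) ℂ),
        (Tz (algebraMap (MvPolynomial (Fin (m + 1)) ℂ) _ (C q))
          (fun j => algebraMap (MvPolynomial (Fin (m + 1)) ℂ) _ (X j)) v
            = fun σ => (∏ j, (1 + algebraMap (MvPolynomial (Fin (m + 1)) ℂ) _ (X j))) * v σ) →
        ∑ σ, v σ = 0 → v = 0 := by
  classical
  set R := MvPolynomial (Fin (m + 1)) ℂ with hR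
  set F := FractionRing R with hF
  set a : R →+* F := algebraMap R F with ha
  have hainj : Function.Injective a := IsFractionRing.injective R F
  set A := Amat (C q : R) X (base m) with hA
  have hAdet : A.det ≠ 0 := det_poly_ne_zero q hq m
  have hqR : (C q : R) ^ 2 + C q + 1 = 0 := by
    rw [← C_pow, ← C_add, ← C_1, ← C_add, hq, C_0]
  have hqF : (a (C q)) ^ 2 + a (C q) + 1 = 0 := by
    rw [← map_pow, ← map_add, ← map_one a, ← map_add, hqR, map_zero]
  have hAF : Amat (a (C q)) (fun j => a (X j)) (base m) = A.map a := by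
    rw [hA, Amat_map]
  have hdetF : (A.map a).det = a A.det := by
    rw [RingHom.map_det, RingHom.mapMatrix_apply]
  have hdetF0 : (A.map a).det ≠ 0 := by
    rw [hdetF]
    intro h
    exact hAdet (hainj (by rw [h, map_zero]))
  -- cramer solution over R
  set δ : Wd (m + 1) → R := fun σ => if σ = base m then 1 else 0 with hδ
  set w : Wd (m + 1) → R := A.adjugate *ᵥ δ with hw
  have hAw : A *ᵥ w = fun σ => if σ = base m then A.det else 0 := by
    rw [hw, Matrix.mulVec_mulVec, Matrix.mul_adjugate, Matrix.smul_mulVec, Matrix.one_mulVec]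
    funext σ
    simp [hδ]
  have hmapMulVec : ∀ v : Wd (m + 1) → R, (A.map a) *ᵥ (fun σ => a (v σ)) = fun σ => a ((A *ᵥ v) σ) := by
    intro v
    funext σ
    simp [Matrix.mulVec, dotProduct, map_sum]
  set Φ : Wd (m + 1) → F := fun σ => a (w σ) / a A.det with hΦ
  have had : a A.det ≠ 0 := by rw [← hdetF]; exact hdetF0
  have hAΦ : Amat (a (C q)) (fun j => a (X j)) (base m) *ᵥ Φ = fun σ => if σ = base m then 1 else 0 := by
    have h1 : Φ = (a A.det)⁻¹ • (fun σ => a (w σ)) := by
      funext σ
      simp [hΦ, div_eq_inv_mul]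
    rw [hAF, h1, Matrix.mulVec_smul, hmapMulVec, hAw]
    funext σ
    simp only [Pi.smul_apply, smul_eq_mul]
    split_ifs
    · exact inv_mul_cancel₀ had
    · rw [map_zero, mul_zero]
  obtain ⟨hs, hst⟩ := stat_of_Amat (a (C q)) hqF (fun j => a (X j)) (base m) Φ 1 hAΦ
  refine ⟨Φ, hs, hst, ?_, ?_⟩
  · intro h0
    have hwb : w (base m) = 0 := by
      apply hainj
      rw [map_zero]
      have : a (w (base m)) / a A.det = 0 := h0
      rcases div_eq_zero_iff.1 this with h | h
      · exact h
      · exact absurd h had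
    -- evaluate at 1
    set ev : R →+* ℂ := eval fun _ => (1 : ℂ) with hev
    have hA1 : Amat q (fun _ : Fin (m + 1) => (1 : ℂ)) (base m) = A.map ev := by
      rw [hA, Amat_map]
      simp [hev]
    set d : ℂ := ev A.det with hd
    have hd0 : d ≠ 0 := by
      have := det_one_ne_zero q hq m
      rw [hA1, ← RingHom.mapMatrix_apply, ← RingHom.map_det] at this
      exact this
    have h2 : Amat q (fun _ : Fin (m + 1) => (1 : ℂ)) (base m) *ᵥ (fun σ => ev (w σ)) =
        fun σ => if σ = base m then d else 0 := by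
      rw [hA1]
      have h3 : (A.map ev) *ᵥ (fun σ => ev (w σ)) = fun σ => ev ((A *ᵥ w) σ) := by
        funext σ
        simp [Matrix.mulVec, dotProduct, map_sum]
      rw [h3, hAw]
      funext σ
      by_cases hσ : σ = base m
      · simp [hσ, hd]
      · simp [hσ]
    obtain ⟨hs1, hst1⟩ := stat_of_Amat q hq (fun _ : Fin (m + 1) => (1 : ℂ)) (base m) _ d h2
    obtain ⟨μ, hμ0, hμ1, hμst, hμb, -⟩ := markov_exists m
    have h4 : (fun σ => ev (w σ) - d * (μ σ : ℂ)) = 0 := by
      refine markov_unique m _ (fun σ => ?_) ?_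
      · have e1 : ∑ c : Fin (m + 1) → Bool, push (Tc m c) (fun σ => ev (w σ)) σ =
            2 ^ (m + 1) * ev (w σ) := by
          rw [← Tz_one q hq (fun σ => ev (w σ)) σ, hst1, prod_one_add]
        have e2 : ∑ c : Fin (m + 1) → Bool, push (Tc m c) (fun σ => (μ σ : ℂ)) σ =
            2 ^ (m + 1) * (μ σ : ℂ) := by
          have := congrArg (fun x : ℝ => (x : ℂ)) (hμst σ)
          simp only [push] at this ⊢
          push_cast at this
          rw [← this]
          refine Finset.sum_congr rfl fun c _ => Finset.sum_congr rfl fun τ _ => ?_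
          split_ifs <;> simp
        have e3 : ∑ c : Fin (m + 1) → Bool, push (Tc m c) (fun σ => ev (w σ) - d * (μ σ : ℂ)) σ =
            ∑ c : Fin (m + 1) → Bool, push (Tc m c) (fun σ => ev (w σ)) σ -
              d * ∑ c : Fin (m + 1) → Bool, push (Tc m c) (fun σ => (μ σ : ℂ)) σ := by
          rw [Finset.mul_sum, ← Finset.sum_sub_distrib]
          refine Finset.sum_congr rfl fun c _ => ?_
          simp only [push, Finset.mul_sum]
          rw [← Finset.sum_sub_distrib]
          refine Finset.sum_congr rfl fun τ _ => ?_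
          split_ifs <;> simp
        rw [e3, e1, e2]
        ring
      · rw [Finset.sum_sub_distrib, hs1, ← Finset.mul_sum]
        have : ∑ σ, (μ σ : ℂ) = 1 := by
          rw [← Complex.ofReal_sum, hμ1, Complex.ofReal_one]
        rw [this]
        ring
    have h5 := congrFun h4 (base m)
    simp only [hwb, map_zero, zero_sub, Pi.zero_apply, neg_eq_zero, mul_eq_zero] at h5
    rcases h5 with h5 | h5
    · exact hd0 h5
    · exact hμb.ne' (by exact_mod_cast h5)
  · intro v hv hvs
    refine Matrix.eq_zero_of_mulVec_eq_zero hdetF0 ?_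
    rw [← hAF, Amat_of_stat _ _ (base m) v hv, hvs]
    funext σ
    simp

end Pool.Agent.H863R2.Cyl
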