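import Pool.Agent.H863R2.Cyl.Defs
import Pool.Agent.H863R2.Cyl.Rel
import Pool.Agent.H863R2.Cyl.TransZ
import Pool.Agent.H863R2.Cyl.Tri
import Pool.Agent.H863R2.Cyl.Phi

/-!
# Module D2 : the polynomial ground state

From the rational ground state `Φ` (module Phi): exchange relations and rotation (uniqueness with
permuted variables), the base component is a symmetric factor times `Dl`, divided differences and
the triangular structure give polynomiality with partial degrees at most `m`.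
-/

set_option maxHeartbeats 400000

namespace Pool.Agent.H863R2.Cyl.PsiAux
open Equiv MvPolynomial

/-! ### linearity and functoriality of the operators -/

theorem Tz_map {R S : Type*} [CommRing R] [CommRing S] {m : ℕ} (f : R →+* S) (q : R)
    (z : Fin (m + 1) → R) (v : Wd (m + 1) → R) (σ : Wd (m + 1)) :
    f (Tz q z v σ) = Tz (f q) (fun j => f (z j)) (fun τ => f (v τ)) σ := by
  simp only [Tz, push, map_sum, map_mul, map_prod]
  refine Finset.sum_congr rfl fun c _ => ?_
  congr 1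
  · refine Finset.prod_congr rfl fun j _ => ?_
    cases c j <;> simp [wt]
  · refine Finset.sum_congr rfl fun τ _ => ?_
    split_ifs <;> simp

theorem push_smul {X Y : Type*} [Fintype X] [DecidableEq Y] {R : Type*} [CommRing R]
    (f : X → Y) (a : R) (v : X → R) (y : Y) : push f (fun x => a * v x) y = a * push f v y := by
  simp only [push, Finset.mul_sum, mul_ite, mul_zero]

theorem push_sub {X Y : Type*} [Fintype X] [DecidableEq Y] {R : Type*} [CommRing R]
    (f : X → Y) (v w : X → R) (y : Y) : push f (fun x => v x - w x) y = push f v y - push f w y := by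
  simp only [push, ← Finset.sum_sub_distrib]
  refine Finset.sum_congr rfl fun x _ => ?_
  split_ifs <;> simp

theorem Tz_smul {R : Type*} [CommRing R] {m : ℕ} (q : R) (z : Fin (m + 1) → R) (a : R)
    (v : Wd (m + 1) → R) (σ : Wd (m + 1)) :
    Tz q z (fun τ => a * v τ) σ = a * Tz q z v σ := by
  simp only [Tz, push_smul, Finset.mul_sum]
  refine Finset.sum_congr rfl fun c _ => ?_
  ring

theorem Tz_sub {R : Type*} [CommRing R] {m : ℕ} (q : R) (z : Fin (m + 1) → R)
    (v w : Wd (m + 1) → R) (σ : Wd (m + 1)) :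
    Tz q z (fun τ => v τ - w τ) σ = Tz q z v σ - Tz q z w σ := by
  simp only [Tz, push_sub, mul_sub, Finset.sum_sub_distrib]

theorem Rh_smul {R : Type*} [CommRing R] {m : ℕ} (q x y : R) (i : ℕ) (a : R)
    (v : Wd (m + 1) → R) (σ : Wd (m + 1)) :
    Rh q x y i (fun τ => a * v τ) σ = a * Rh q x y i v σ := by
  simp only [Rh, push_smul]
  ring

theorem sum_Rh {R : Type*} [CommRing R] {m : ℕ} (q x y : R) (hq : q ^ 2 + q + 1 = 0) (i : ℕ)
    (v : Wd (m + 1) → R) : ∑ τ, Rh q x y i v τ = (q * y - q ^ 2 * x) * ∑ τ, v τ := by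
  simp only [Rh, Finset.sum_add_distrib, ← Finset.mul_sum, sum_push]
  linear_combination (x - y) * (∑ τ, v τ) * hq

theorem push_bij {X Y : Type*} [Fintype X] [DecidableEq Y] {R : Type*} [CommRing R]
    (f : X → Y) (g : Y → X) (h : ∀ x, g (f x) = x) (v : X → R) (x : X) :
    push f v (f x) = v x := by
  classical
  unfold push
  rw [Finset.sum_eq_single x]
  · simp
  · intro y _ hy
    rw [if_neg]
    intro h'
    apply hy
    rw [← h y, h', h]
  · simp

/-! ### automorphisms of the field of rational functions -/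

section field
variable {N : ℕ} {K : Type} [Field K] [Algebra (MvPolynomial (Fin N) ℂ) K]
  [IsFractionRing (MvPolynomial (Fin N) ℂ) K]



variable (K) in
/-- the automorphism permuting the variables -/
noncomputable def fr (p : Perm (Fin N)) : K →+* K :=
  (IsFractionRing.ringEquivOfRingEquiv (K := K) (L := K) (renameEquiv ℂ p).toRingEquiv).toRingHom

theorem fr_alg (p : Perm (Fin N)) (P : MvPolynomial (Fin N) ℂ) :
    fr K p ((algebraMap (MvPolynomial (Fin _) ℂ) K) P) = (algebraMap (MvPolynomial (Fin _) ℂ) K) (rename p P) := by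
  unfold fr
  simp only [RingEquiv.toRingHom_eq_coe, RingHom.coe_coe]
  rw [IsFractionRing.ringEquivOfRingEquiv_algebraMap]
  rfl

theorem fr_mul (p p' : Perm (Fin N)) (x : K) :
    fr K (p * p') x = fr K p (fr K p' x) := by
  have : fr K (p * p') = (fr K p).comp (fr K p') := by
    apply IsLocalization.ringHom_ext (nonZeroDivisors (MvPolynomial (Fin N) ℂ))
    refine RingHom.ext fun P => ?_
    simp [fr_alg, rename_rename]
  rw [this]
  rfl

theorem fr_one (x : K) : fr K (1 : Perm (Fin N)) x = x := by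
  have : fr K (1 : Perm (Fin N)) = RingHom.id _ := by
    apply IsLocalization.ringHom_ext (nonZeroDivisors (MvPolynomial (Fin N) ℂ))
    refine RingHom.ext fun P => ?_
    simp [fr_alg]
  rw [this]
  rfl

theorem fr_inv (p : Perm (Fin N)) (x : K) : fr K p (fr K p⁻¹ x) = x := by
  rw [← fr_mul, mul_inv_cancel, fr_one]

theorem fr_inv' (p : Perm (Fin N)) (x : K) : fr K p⁻¹ (fr K p x) = x := by
  rw [← fr_mul, inv_mul_cancel, fr_one]

theorem al_inj {P Q : MvPolynomial (Fin N) ℂ} (h : (algebraMap (MvPolynomial (Fin _) ℂ) K) P = (algebraMap (MvPolynomial (Fin _) ℂ) K) Q) : P = Q :=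
  IsFractionRing.injective (MvPolynomial (Fin N) ℂ) K h

omit [IsFractionRing (MvPolynomial (Fin N) ℂ) K] in
variable (K N) in
theorem al_q {q : ℂ} (hq : q ^ 2 + q + 1 = 0) :
    ((algebraMap (MvPolynomial (Fin _) ℂ) K) (C q : MvPolynomial (Fin N) ℂ)) ^ 2 + (algebraMap (MvPolynomial (Fin _) ℂ) K) (C q : MvPolynomial (Fin N) ℂ) + 1 = 0 := by
  have : (C q : MvPolynomial (Fin N) ℂ) ^ 2 + C q + 1 = 0 := by
    rw [← C_1, ← C_pow, ← C_add, ← C_add, hq, C_0]
  have h2 := congrArg ((algebraMap (MvPolynomial (Fin _) ℂ) K)) this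
  simpa using h2

variable (K N) in
theorem K_charZero (K : Type) [Field K] (N : ℕ) [Algebra (MvPolynomial (Fin N) ℂ) K]
    [IsFractionRing (MvPolynomial (Fin N) ℂ) K] : CharZero K :=
  charZero_of_injective_algebraMap (IsFractionRing.injective (MvPolynomial (Fin N) ℂ) K)

end field

/-! ### the rational ground state -/

section stat
variable {m : ℕ} {K : Type} [Field K] [Algebra (MvPolynomial (Fin (m + 1)) ℂ) K]
  [IsFractionRing (MvPolynomial (Fin (m + 1)) ℂ) K]


/-- the stationary equation with permuted variables -/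
def Stat (q : ℂ) (m : ℕ) {K : Type} [Field K] [Algebra (MvPolynomial (Fin (m + 1)) ℂ) K]
    (p : Perm (Fin (m + 1))) (v : Wd (m + 1) → K) : Prop :=
  ∀ σ, Tz (algebraMap (MvPolynomial (Fin (m + 1)) ℂ) K (C q))
    (fun j => algebraMap (MvPolynomial (Fin (m + 1)) ℂ) K (X (p j))) v σ
    = (∏ j, (1 + algebraMap (MvPolynomial (Fin (m + 1)) ℂ) K (X j))) * v σ

omit [IsFractionRing (MvPolynomial (Fin (m + 1)) ℂ) K] in
theorem Stat.one {q : ℂ} {Φ : Wd (m + 1) → K} (hst : Stat q m 1 Φ) :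
    Tz ((algebraMap (MvPolynomial (Fin (m + 1)) ℂ) K) (C q)) (fun j => (algebraMap (MvPolynomial (Fin (m + 1)) ℂ) K) (X j)) Φ = fun σ => (∏ j, (1 + (algebraMap (MvPolynomial (Fin (m + 1)) ℂ) K) (X j))) * Φ σ := by
  funext σ
  have h := hst σ
  simp only [Perm.coe_one, id] at h
  exact h

theorem Stat.fr {q : ℂ} {p : Perm (Fin (m + 1))} {v : Wd (m + 1) → K}
    (h : Stat q m p v) (r : Perm (Fin (m + 1))) :
    Stat q m (r * p) (fun σ => fr K r (v σ)) := by
  intro σ
  have h1 := congrArg (PsiAux.fr K r) (h σ)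
  rw [Tz_map] at h1
  have e1 : (PsiAux.fr K r) ((algebraMap (MvPolynomial (Fin (m + 1)) ℂ) K) (C q)) = (algebraMap (MvPolynomial (Fin (m + 1)) ℂ) K) (C q) := by
    rw [fr_alg, rename_C]
  have e2 : ∀ j, (PsiAux.fr K r) ((algebraMap (MvPolynomial (Fin (m + 1)) ℂ) K) (X j)) = (algebraMap (MvPolynomial (Fin (m + 1)) ℂ) K) (X (r j)) := by
    intro j
    rw [fr_alg, rename_X]
  have e3 : (PsiAux.fr K r) ((∏ j, (1 + (algebraMap (MvPolynomial (Fin (m + 1)) ℂ) K) (X j))) * v σ)
      = (∏ j, (1 + (algebraMap (MvPolynomial (Fin (m + 1)) ℂ) K) (X j))) * (PsiAux.fr K r) (v σ) := by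
    rw [map_mul, map_prod]
    congr 1
    simp only [map_add, map_one, e2]
    exact Equiv.prod_comp r (fun j => 1 + (algebraMap (MvPolynomial (Fin (m + 1)) ℂ) K) (X j))
  rw [e1, e3] at h1
  simp only [e2] at h1
  exact h1

theorem Stat.unique {q : ℂ} {Φ : Wd (m + 1) → K}
    (hs : ∑ σ, Φ σ = 1) (hst : Stat q m 1 Φ)
    (hu : ∀ v : Wd (m + 1) → K, Stat q m 1 v → ∑ σ, v σ = 0 → v = 0)
    {p : Perm (Fin (m + 1))} {w : Wd (m + 1) → K}
    (h : Stat q m p w) (σ : Wd (m + 1)) : w σ = (∑ τ, w τ) * PsiAux.fr K p (Φ σ) := by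
  have h1 := h.fr p⁻¹
  rw [inv_mul_cancel] at h1
  have h2 : Stat q m 1 (fun σ => PsiAux.fr K p⁻¹ (w σ) - (∑ τ, PsiAux.fr K p⁻¹ (w τ)) * Φ σ) := by
    intro τ
    rw [Tz_sub, Tz_smul, h1 τ, hst τ]
    ring
  have h3 := hu _ h2 (by rw [Finset.sum_sub_distrib, ← Finset.mul_sum, hs, mul_one, sub_self])
  have h4 : PsiAux.fr K p⁻¹ (w σ) = (∑ τ, PsiAux.fr K p⁻¹ (w τ)) * Φ σ :=
    sub_eq_zero.mp (congrFun h3 σ)
  have h5 := congrArg (PsiAux.fr K p) h4
  rw [fr_inv, map_mul, map_sum] at h5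
  simpa only [fr_inv] using h5

/-- exchange relations -/
theorem Stat.exch {q : ℂ} (hq : q ^ 2 + q + 1 = 0) (hm : 2 ≤ m) {Φ : Wd (m + 1) → K}
    (hs : ∑ σ, Φ σ = 1) (hst : Stat q m 1 Φ)
    (hu : ∀ v : Wd (m + 1) → K, Stat q m 1 v → ∑ σ, v σ = 0 → v = 0) (i : ℕ)
    (σ : Wd (m + 1)) :
    (algebraMap (MvPolynomial (Fin (m + 1)) ℂ) K) (C q * X (ix m i) - C (q ^ 2) * X (ix m (i + 1))) * Φ σ
        + (algebraMap (MvPolynomial (Fin (m + 1)) ℂ) K) (X (ix m i) - X (ix m (i + 1))) * push (E m i) Φ σ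
        = (algebraMap (MvPolynomial (Fin (m + 1)) ℂ) K) (C q * X (ix m (i + 1)) - C (q ^ 2) * X (ix m i))
          * PsiAux.fr K (swap (ix m i) (ix m (i + 1))) (Φ σ) := by
  have := K_charZero K (m + 1)
  have h1 := Rh_Tz (m := m) hm ((algebraMap (MvPolynomial (Fin (m + 1)) ℂ) K) (C q)) (al_q (m + 1) K hq) i
    (fun j => (algebraMap (MvPolynomial (Fin (m + 1)) ℂ) K) (X j)) Φ
  rw [hst.one] at h1
  have h2 : Stat q m (swap (ix m i) (ix m (i + 1)))
      (Rh ((algebraMap (MvPolynomial (Fin (m + 1)) ℂ) K) (C q)) ((algebraMap (MvPolynomial (Fin (m + 1)) ℂ) K) (X (ix m i))) ((algebraMap (MvPolynomial (Fin (m + 1)) ℂ) K) (X (ix m (i + 1)))) i Φ) := by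
    intro τ
    have h4 := congrFun h1 τ
    rw [Rh_smul] at h4
    exact h4.symm
  have h4 := Stat.unique hs hst hu h2 σ
  rw [sum_Rh _ _ _ (al_q (m + 1) K hq), hs, mul_one] at h4
  have e : ∀ c d : Fin (m + 1), (algebraMap (MvPolynomial (Fin (m + 1)) ℂ) K) (C q * X c - C (q ^ 2) * X d)
      = (algebraMap (MvPolynomial (Fin (m + 1)) ℂ) K) (C q) * (algebraMap (MvPolynomial (Fin (m + 1)) ℂ) K) (X c) - (algebraMap (MvPolynomial (Fin (m + 1)) ℂ) K) (C q) ^ 2 * (algebraMap (MvPolynomial (Fin (m + 1)) ℂ) K) (X d) := by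
    intro c d
    simp only [map_sub, map_mul, map_pow]
  have e' : ∀ c d : Fin (m + 1), (algebraMap (MvPolynomial (Fin (m + 1)) ℂ) K) ((X c - X d : MvPolynomial (Fin (m + 1)) ℂ))
      = (algebraMap (MvPolynomial (Fin (m + 1)) ℂ) K) (X c) - (algebraMap (MvPolynomial (Fin (m + 1)) ℂ) K) (X d) := by
    intro c d
    simp only [map_sub]
  rw [e, e, e', ← h4]
  rfl

/-- rotation -/
theorem Stat.rot {q : ℂ} {Φ : Wd (m + 1) → K}
    (hs : ∑ σ, Φ σ = 1) (hst : Stat q m 1 Φ)
    (hu : ∀ v : Wd (m + 1) → K, Stat q m 1 v → ∑ σ, v σ = 0 → v = 0)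
    (σ : Wd (m + 1)) :
    Φ (rot m σ) = PsiAux.fr K (finRotate (m + 1)) (Φ σ) := by
  have h1 := push_rot_Tz (m := m) ((algebraMap (MvPolynomial (Fin (m + 1)) ℂ) K) (C q)) (fun j => (algebraMap (MvPolynomial (Fin (m + 1)) ℂ) K) (X j)) Φ
  rw [hst.one] at h1
  have h2 : Stat q m (finRotate (m + 1))⁻¹ (push (Cyl.rot m) Φ) := by
    intro τ
    have h4 := congrFun h1 τ
    rw [push_smul] at h4
    exact h4.symm
  have h4 := Stat.unique hs hst hu h2 (Cyl.rot m σ)
  rw [sum_push, hs, one_mul, push_bij _ (rotInv m) (rotInv_rot m)] at h4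
  rw [h4, fr_inv]

end stat

/-! ### the base component -/

section chain

theorem chain_inj {m i j : ℕ} (hi : i < m + 1) (hj : j < m + 1)
    (h : chain m i = chain m j) : i = j := by
  have h1 : ((m + 1) / 2 + i) % (m + 1) = ((m + 1) / 2 + j) % (m + 1) := congrArg Fin.val h
  have e : ∀ k, k < m + 1 → ((m + 1) / 2 + k) % (m + 1)
      = if (m + 1) / 2 + k < m + 1 then (m + 1) / 2 + k else (m + 1) / 2 + k - (m + 1) := by
    intro k hk
    split_ifs with h2
    · exact Nat.mod_eq_of_lt (by omega)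
    · rw [Nat.mod_eq_sub_mod (by omega), Nat.mod_eq_of_lt (by omega)]
  rw [e i hi, e j hj] at h1
  split_ifs at h1 <;> omega

theorem chain_surj {m : ℕ} (x : Fin (m + 1)) : ∃ k, k < m + 1 ∧ chain m k = x := by
  have hx := x.isLt
  by_cases h : (m + 1) / 2 ≤ x.val
  · refine ⟨x.val - (m + 1) / 2, by omega, Fin.ext ?_⟩
    have : (m + 1) / 2 + (x.val - (m + 1) / 2) = x.val := by omega
    simp only [chain, ix, this]
    exact Nat.mod_eq_of_lt x.isLt
  · refine ⟨x.val + (m + 1) - (m + 1) / 2, by omega, Fin.ext ?_⟩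
    have : (m + 1) / 2 + (x.val + (m + 1) - (m + 1) / 2) = x.val + (m + 1) := by omega
    simp only [chain, ix, this, Nat.add_mod_right]
    exact Nat.mod_eq_of_lt x.isLt

theorem Dl_eq (q : ℂ) (m : ℕ) : Dl q m =
    ∏ p ∈ (Finset.range (m + 1)).sigma (fun j => Finset.range j),
      (C q * X (chain m p.1) - C (q ^ 2) * X (chain m p.2)) := by
  unfold Dl
  rw [Finset.prod_sigma']

theorem Dl_ne (q : ℂ) (hq : q ^ 2 + q + 1 = 0) (m : ℕ) : Dl q m ≠ 0 := by
  have hq0 : q ≠ 0 := by
    rintro rfl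
    norm_num at hq
  unfold Dl
  refine Finset.prod_ne_zero_iff.mpr fun j hj => Finset.prod_ne_zero_iff.mpr fun i hi => ?_
  rw [Finset.mem_range] at hj hi
  intro h
  have h1 := congrArg (coeff (Finsupp.single (chain m j) 1)) h
  have hne : chain m i ≠ chain m j := fun h2 => by
    have := chain_inj (by omega) hj h2
    omega
  have hne' : Finsupp.single (chain m i) 1 ≠ (Finsupp.single (chain m j) 1 : Fin (m + 1) →₀ ℕ) :=
    fun h2 => hne ((Finsupp.single_left_inj one_ne_zero).mp h2)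
  rw [coeff_sub, coeff_C_mul, coeff_C_mul, coeff_X, coeff_X, if_pos rfl, if_neg hne', coeff_zero] at h1
  simp [hq0] at h1

theorem Dl_swap (q : ℂ) {m k : ℕ} (hk : k < m) :
    (C q * X (chain m k) - C (q ^ 2) * X (chain m (k + 1))) * Dl q m
      = (C q * X (chain m (k + 1)) - C (q ^ 2) * X (chain m k))
        * rename (swap (chain m k) (chain m (k + 1))) (Dl q m) := by
  rw [Dl_eq]
  set s := (Finset.range (m + 1)).sigma (fun j => Finset.range j) with hs
  have hmem : (⟨k + 1, k⟩ : (_ : ℕ) × ℕ) ∈ s := by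
    simp only [hs, Finset.mem_sigma, Finset.mem_range]
    omega
  have hsw : ∀ j, j < m + 1 →
      swap (chain m k) (chain m (k + 1)) (chain m j) = chain m (swap k (k + 1) j) := by
    intro j hj
    rw [swap_apply_def, swap_apply_def]
    by_cases h1 : j = k
    · subst h1; simp
    · by_cases h2 : j = k + 1
      · subst h2
        rw [if_neg, if_neg h1, if_pos rfl, if_pos rfl]
        intro h3
        exact h1 (chain_inj (by omega) (by omega) h3)
      · rw [if_neg, if_neg, if_neg h1, if_neg h2]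
        · intro h3
          exact h2 (chain_inj hj (by omega) h3)
        · intro h3
          exact h1 (chain_inj hj (by omega) h3)
  rw [map_prod, ← Finset.mul_prod_erase s _ hmem, ← Finset.mul_prod_erase s
    (fun p => rename (swap (chain m k) (chain m (k + 1)))
      (C q * X (chain m p.1) - C (q ^ 2) * X (chain m p.2))) hmem]
  have key : ∏ p ∈ s.erase ⟨k + 1, k⟩, rename (swap (chain m k) (chain m (k + 1)))
      (C q * X (chain m p.1) - C (q ^ 2) * X (chain m p.2))
      = ∏ p ∈ s.erase ⟨k + 1, k⟩, (C q * X (chain m p.1) - C (q ^ 2) * X (chain m p.2)) := by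
    refine Finset.prod_bij' (fun p _ => ⟨swap k (k + 1) p.1, swap k (k + 1) p.2⟩)
      (fun p _ => ⟨swap k (k + 1) p.1, swap k (k + 1) p.2⟩) ?_ ?_ ?_ ?_ ?_
    · rintro ⟨j, i⟩ hp
      simp only [hs, Finset.mem_erase, ne_eq, Sigma.mk.injEq, heq_eq_eq, Finset.mem_sigma,
        Finset.mem_range, swap_apply_def] at hp ⊢
      split_ifs <;> omega
    · rintro ⟨j, i⟩ hp
      simp only [hs, Finset.mem_erase, ne_eq, Sigma.mk.injEq, heq_eq_eq, Finset.mem_sigma,
        Finset.mem_range, swap_apply_def] at hp ⊢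
      split_ifs <;> omega
    · rintro ⟨j, i⟩ hp
      simp
    · rintro ⟨j, i⟩ hp
      simp
    · rintro ⟨j, i⟩ hp
      simp only [hs, Finset.mem_erase, ne_eq, Sigma.mk.injEq, heq_eq_eq, Finset.mem_sigma,
        Finset.mem_range] at hp
      simp only [map_sub, map_mul, rename_C, rename_X]
      rw [hsw j (by omega), hsw i (by omega)]
  rw [key]
  simp only [map_sub, map_mul, rename_C, rename_X, swap_apply_left, swap_apply_right]
  ring

theorem sum_count (k : ℕ) : ∀ L : ℕ, ∑ j ∈ Finset.range L, ∑ i ∈ Finset.range j,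
    ((if j = k then 1 else 0) + (if i = k then 1 else 0)) = if k < L then L - 1 else 0 := by
  intro L
  induction L with
  | zero => simp
  | succ L ih =>
    rw [Finset.sum_range_succ, ih]
    have h1 : ∑ i ∈ Finset.range L, ((if L = k then 1 else 0) + (if i = k then 1 else 0))
        = (if L = k then L else 0) + (if k < L then 1 else 0) := by
      rw [Finset.sum_add_distrib, Finset.sum_ite_eq' (Finset.range L) k]
      simp only [Finset.mem_range]
      split_ifs <;> simp
    rw [h1]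
    split_ifs <;> omega

theorem degreeOf_fac {N : ℕ} (a b : ℂ) (x y k : Fin N) :
    degreeOf k (C a * X x - C b * X y : MvPolynomial (Fin N) ℂ)
      ≤ max (if k = x then 1 else 0) (if k = y then 1 else 0) := by
  refine (degreeOf_sub_le _ _ _).trans (max_le_max ?_ ?_)
  · refine (degreeOf_C_mul_le _ _ _).trans ?_
    rw [degreeOf_X]
  · refine (degreeOf_C_mul_le _ _ _).trans ?_
    rw [degreeOf_X]

theorem Dl_deg (q : ℂ) (m : ℕ) (x : Fin (m + 1)) : degreeOf x (Dl q m) ≤ m := by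
  obtain ⟨k, hk, rfl⟩ := chain_surj x
  unfold Dl
  refine (degreeOf_prod_le _ _ _).trans ?_
  calc ∑ j ∈ Finset.range (m + 1), degreeOf (chain m k)
        (∏ i ∈ Finset.range j, (C q * X (chain m j) - C (q ^ 2) * X (chain m i)))
      ≤ ∑ j ∈ Finset.range (m + 1), ∑ i ∈ Finset.range j,
        ((if j = k then 1 else 0) + (if i = k then 1 else 0)) := by
        refine Finset.sum_le_sum fun j hj => (degreeOf_prod_le _ _ _).trans
          (Finset.sum_le_sum fun i hi => (degreeOf_fac _ _ _ _ _).trans ?_)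
        rw [Finset.mem_range] at hj hi
        have e : ∀ l, l < m + 1 → (if chain m k = chain m l then 1 else 0)
            ≤ (if l = k then 1 else 0) := by
          intro l hl
          by_cases h : chain m k = chain m l
          · rw [if_pos (chain_inj hk hl h).symm, if_pos h]
          · rw [if_neg h]; exact Nat.zero_le _
        have e1 := e j hj
        have e2 := e i (by omega)
        refine max_le ?_ ?_ <;> omega
    _ = m := by
        rw [sum_count, if_pos hk]
        omega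

end chain

section dd
variable {N : ℕ}

theorem sub_ne {a b : Fin N} (h : a ≠ b) : (X a - X b : MvPolynomial (Fin N) ℂ) ≠ 0 := by
  intro h1
  exact h (X_injective (sub_eq_zero.mp h1))

theorem dvd_swap (a b : Fin N) (P : MvPolynomial (Fin N) ℂ) :
    (X a - X b) ∣ rename (swap a b) P - P := by
  induction P using MvPolynomial.induction_on with
  | C c => simp
  | add P Q hP hQ =>
    have : rename (swap a b) (P + Q) - (P + Q)
        = (rename (swap a b) P - P) + (rename (swap a b) Q - Q) := by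
      rw [map_add]; ring
    rw [this]
    exact dvd_add hP hQ
  | mul_X P k hP =>
    have h1 : rename (swap a b) (P * X k) - P * X k
        = (rename (swap a b) P - P) * X (swap a b k) + P * (X (swap a b k) - X k) := by
      rw [map_mul, rename_X]; ring
    rw [h1]
    refine dvd_add (Dvd.dvd.mul_right hP _) (Dvd.dvd.mul_left ?_ _)
    rw [swap_apply_def]
    split_ifs with h2 h3
    · subst h2
      exact ⟨-1, by ring⟩
    · subst h3
      exact ⟨1, by ring⟩
    · simp

theorem degreeOf_sub_eq {a b : Fin N} (h : a ≠ b) (k : Fin N) :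
    max (if k = a then 1 else 0) (if k = b then 1 else 0)
      ≤ degreeOf k (X a - X b : MvPolynomial (Fin N) ℂ) := by
  have hs : ∀ c : Fin N, (c = a ∨ c = b) → 1 ≤ degreeOf c (X a - X b : MvPolynomial (Fin N) ℂ) := by
    intro c hc
    have h1 : Finsupp.single c 1 ∈ (X a - X b : MvPolynomial (Fin N) ℂ).support := by
      rw [mem_support_iff, coeff_sub, coeff_X, coeff_X]
      have e : ∀ d e : Fin N, (Finsupp.single d 1 = (Finsupp.single e 1 : Fin N →₀ ℕ)) ↔ d = e :=
        fun d e => Finsupp.single_left_inj one_ne_zero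
      rcases hc with hc | hc
      · subst hc
        rw [if_pos rfl, if_neg (fun h' => h ((e _ _).mp h').symm)]
        simp
      · subst hc
        rw [if_pos rfl, if_neg (fun h' => h ((e _ _).mp h'))]
        simp
    have h2 := le_degreeOf_of_mem_support c h1
    simpa using h2
  refine max_le ?_ ?_
  · split_ifs with h1
    · exact hs k (Or.inl h1)
    · exact Nat.zero_le _
  · split_ifs with h1
    · exact hs k (Or.inr h1)
    · exact Nat.zero_le _

theorem degreeOf_rename_perm (p : Perm (Fin N)) (P : MvPolynomial (Fin N) ℂ) (d : ℕ)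
    (h : ∀ k, degreeOf k P ≤ d) (k : Fin N) : degreeOf k (rename p P) ≤ d := by
  have h1 := degreeOf_rename_of_injective (p := P) p.injective (p.symm k)
  rw [apply_symm_apply] at h1
  rw [h1]
  exact h _

/-- the divided difference does not increase the partial degrees -/
theorem exists_dd (q : ℂ) {a b : Fin N} (hab : a ≠ b) (P : MvPolynomial (Fin N) ℂ) (d : ℕ)
    (h : ∀ k, degreeOf k P ≤ d) :
    ∃ T : MvPolynomial (Fin N) ℂ, (∀ k, degreeOf k T ≤ d) ∧
      (X a - X b) * T = (C q * X b - C (q ^ 2) * X a) * (rename (swap a b) P - P) := by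
  obtain ⟨Q, hQ⟩ := dvd_swap a b P
  by_cases hQ0 : Q = 0
  · refine ⟨0, fun k => by simp, ?_⟩
    rw [hQ, hQ0]; ring
  refine ⟨(C q * X b - C (q ^ 2) * X a) * Q, fun k => ?_, ?_⟩
  · have h1 : degreeOf k (rename (swap a b) P - P) ≤ d :=
      (degreeOf_sub_le _ _ _).trans (max_le (degreeOf_rename_perm _ P d h k) (h k))
    rw [hQ, degreeOf_mul_eq (sub_ne hab) hQ0] at h1
    have h2 := degreeOf_sub_eq hab k
    have h3 := degreeOf_fac q (q ^ 2) b a k
    have h4 := degreeOf_mul_le k (C q * X b - C (q ^ 2) * X a) Q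
    rw [max_comm] at h3
    omega
  · rw [hQ]; ring

end dd

/-! ### symmetry of the quotient and polynomiality -/

section main
variable {m : ℕ} {K : Type} [Field K] [Algebra (MvPolynomial (Fin (m + 1)) ℂ) K]
  [IsFractionRing (MvPolynomial (Fin (m + 1)) ℂ) K]


/-- an element of the field of rational functions invariant under the adjacent transpositions
of the chain is symmetric -/
theorem sym_of_chain (S : K)
    (h : ∀ k, k < m → fr K (swap (chain m k) (chain m (k + 1))) S = S)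
    (p : Perm (Fin (m + 1))) : fr K p S = S := by
  let r : Perm (Fin (m + 1)) := Equiv.addRight (⟨(m + 1) / 2, by omega⟩ : Fin (m + 1))
  have hr : ∀ j : Fin (m + 1), r j = chain m j.val := by
    intro j
    apply Fin.ext
    simp only [r, coe_addRight, Fin.val_add, chain, ix]
    rw [add_comm]
  have key : ∀ p : Perm (Fin (m + 1)), fr K (r * p * r⁻¹) S = S := by
    intro p
    have hp : p ∈ Submonoid.closure (Set.range fun i : Fin m => swap i.castSucc i.succ) := by
      rw [Perm.mclosure_swap_castSucc_succ]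
      trivial
    induction hp using Submonoid.closure_induction with
    | mem x hx =>
      obtain ⟨i, rfl⟩ := hx
      have e : r * swap i.castSucc i.succ * r⁻¹ = swap (chain m i.val) (chain m (i.val + 1)) := by
        rw [← swap_apply_apply, hr, hr]
        rfl
      simp only [e]
      exact h i.val i.isLt
    | one =>
      rw [mul_one, mul_inv_cancel, fr_one]
    | mul x y _ _ hx hy =>
      have e : r * (x * y) * r⁻¹ = (r * x * r⁻¹) * (r * y * r⁻¹) := by group
      rw [e, fr_mul, hy, hx]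
  have h1 := key (r⁻¹ * p * r)
  have e : r * (r⁻¹ * p * r) * r⁻¹ = p := by group
  rwa [e] at h1

omit [Algebra (MvPolynomial (Fin (m + 1)) ℂ) K]
  [IsFractionRing (MvPolynomial (Fin (m + 1)) ℂ) K] in
theorem push_E_base (hm : 2 ≤ m) {i : ℕ} (hi : i < m + 1) (hi2 : i + 1 ≠ (m + 1) / 2)
    (Φ : Wd (m + 1) → K) : push (E m i) Φ (base m) = 0 := by
  unfold push
  refine Finset.sum_eq_zero fun τ _ => ?_
  rw [if_neg (base_no_arc (by omega) hi hi2 τ)]

theorem ix_per (m i : ℕ) : ix m (i + (m + 1)) = ix m i := by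
  apply Fin.ext
  simp [ix]

/-- the base component divided by the product is symmetric -/
theorem base_sym {q : ℂ} (hq : q ^ 2 + q + 1 = 0) (hm : 2 ≤ m) {Φ : Wd (m + 1) → K}
    (hex : ∀ i : ℕ, ∀ σ : Wd (m + 1),
      (algebraMap (MvPolynomial (Fin (m + 1)) ℂ) K) (C q * X (ix m i) - C (q ^ 2) * X (ix m (i + 1))) * Φ σ
        + (algebraMap (MvPolynomial (Fin (m + 1)) ℂ) K) (X (ix m i) - X (ix m (i + 1))) * push (E m i) Φ σ
        = (algebraMap (MvPolynomial (Fin (m + 1)) ℂ) K) (C q * X (ix m (i + 1)) - C (q ^ 2) * X (ix m i))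
          * fr K (swap (ix m i) (ix m (i + 1))) (Φ σ))
    (p : Perm (Fin (m + 1))) :
    fr K p (Φ (base m) / (algebraMap (MvPolynomial (Fin (m + 1)) ℂ) K) (Dl q m)) = Φ (base m) / (algebraMap (MvPolynomial (Fin (m + 1)) ℂ) K) (Dl q m) := by
  have hDl : ∀ P : MvPolynomial (Fin (m + 1)) ℂ, P ≠ 0 → (algebraMap (MvPolynomial (Fin (m + 1)) ℂ) K) P ≠ 0 := by
    intro P hP h0
    apply hP
    apply al_inj (K := K)
    rw [h0, map_zero]
  refine sym_of_chain _ (fun k hk => ?_) p
  have hDlr : rename (swap (chain m k) (chain m (k + 1))) (Dl q m) ≠ 0 := by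
    intro h0
    apply Dl_ne q hq m
    apply rename_injective _ (swap (chain m k) (chain m (k + 1))).injective
    rw [h0, map_zero]
  have hfac : (C q * X (chain m (k + 1)) - C (q ^ 2) * X (chain m k) :
      MvPolynomial (Fin (m + 1)) ℂ) ≠ 0 := by
    intro h0
    have h1 := Dl_swap q hk
    rw [h0, zero_mul] at h1
    have h2 := congrArg (rename (swap (chain m k) (chain m (k + 1)))) h0
    rw [map_sub, map_mul, map_mul, rename_C, rename_C, rename_X, rename_X, swap_apply_left,
      swap_apply_right, map_zero] at h2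
    have hne : chain m k ≠ chain m (k + 1) := fun h2 => by
      have := chain_inj (by omega) (by omega) h2
      omega
    have hq0 : q ≠ 0 := by
      rintro rfl
      norm_num at hq
    have h3 := congrArg (coeff (Finsupp.single (chain m k) 1)) h2
    have hne' : Finsupp.single (chain m (k + 1)) 1
        ≠ (Finsupp.single (chain m k) 1 : Fin (m + 1) →₀ ℕ) :=
      fun h2 => hne ((Finsupp.single_left_inj one_ne_zero).mp h2).symm
    rw [coeff_sub, coeff_C_mul, coeff_C_mul, coeff_X, coeff_X, if_pos rfl, if_neg hne',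
      coeff_zero] at h3
    simp [hq0] at h3
  -- the exchange relation at the base component
  have h1 : (algebraMap (MvPolynomial (Fin (m + 1)) ℂ) K) (C q * X (chain m k) - C (q ^ 2) * X (chain m (k + 1))) * Φ (base m)
      = (algebraMap (MvPolynomial (Fin (m + 1)) ℂ) K) (C q * X (chain m (k + 1)) - C (q ^ 2) * X (chain m k))
        * fr K (swap (chain m k) (chain m (k + 1))) (Φ (base m)) := by
    have h2 := hex (if (m + 1) / 2 + k < m + 1 then (m + 1) / 2 + k else (m + 1) / 2 + k - (m + 1)) (base m)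
    rw [push_E_base hm (by split_ifs <;> omega) (by split_ifs <;> omega), mul_zero,
      add_zero] at h2
    have e1 : ix m (if (m + 1) / 2 + k < m + 1 then (m + 1) / 2 + k else (m + 1) / 2 + k - (m + 1))
        = chain m k := by
      split_ifs with h3
      · rfl
      · rw [← ix_per]
        unfold chain
        congr 1
        omega
    have e2 : ix m ((if (m + 1) / 2 + k < m + 1 then (m + 1) / 2 + k else (m + 1) / 2 + k - (m + 1)) + 1)
        = chain m (k + 1) := by
      split_ifs with h3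
      · rfl
      · rw [← ix_per]
        unfold chain
        congr 1
        omega
    rw [e1, e2] at h2
    exact h2
  have h2 := congrArg ((algebraMap (MvPolynomial (Fin (m + 1)) ℂ) K)) (Dl_swap q hk)
  rw [map_mul, map_mul] at h2
  rw [map_div₀, fr_alg, div_eq_div_iff (hDl _ hDlr) (hDl _ (Dl_ne q hq m))]
  apply mul_left_cancel₀ (hDl _ hfac)
  linear_combination (-(algebraMap (MvPolynomial (Fin (m + 1)) ℂ) K) (Dl q m)) * h1 + Φ (base m) * h2

/-- polynomial with all partial degrees at most `m` -/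
def PGood (m : ℕ) {K : Type} [Field K] [Algebra (MvPolynomial (Fin (m + 1)) ℂ) K] (x : K) :
    Prop :=
  ∃ P : MvPolynomial (Fin (m + 1)) ℂ, (∀ k, degreeOf k P ≤ m) ∧
    algebraMap (MvPolynomial (Fin (m + 1)) ℂ) K P = x

omit [IsFractionRing (MvPolynomial (Fin (m + 1)) ℂ) K] in
theorem PGood.zero : PGood m (0 : K) := ⟨0, fun k => by simp, by simp⟩

omit [IsFractionRing (MvPolynomial (Fin (m + 1)) ℂ) K] in
theorem PGood.sub {x y : K} (hx : PGood m x) (hy : PGood m y) : PGood m (x - y) := by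
  obtain ⟨P, hP, rfl⟩ := hx
  obtain ⟨Q, hQ, rfl⟩ := hy
  exact ⟨P - Q, fun k => (degreeOf_sub_le _ _ _).trans (max_le (hP k) (hQ k)), by rw [map_sub]⟩

omit [IsFractionRing (MvPolynomial (Fin (m + 1)) ℂ) K] in
theorem PGood.add {x y : K} (hx : PGood m x) (hy : PGood m y) : PGood m (x + y) := by
  obtain ⟨P, hP, rfl⟩ := hx
  obtain ⟨Q, hQ, rfl⟩ := hy
  exact ⟨P + Q, fun k => (degreeOf_add_le _ _ _).trans (max_le (hP k) (hQ k)), by rw [map_add]⟩

omit [IsFractionRing (MvPolynomial (Fin (m + 1)) ℂ) K] in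
theorem PGood.sum {ι : Type*} (s : Finset ι) (f : ι → K) (h : ∀ i ∈ s, PGood m (f i)) :
    PGood m (∑ i ∈ s, f i) := by
  classical
  induction s using Finset.induction_on with
  | empty => rw [Finset.sum_empty]; exact PGood.zero
  | insert a s ha ih =>
    rw [Finset.sum_insert ha]
    exact (h a (Finset.mem_insert_self _ _)).add (ih fun i hi => h i (Finset.mem_insert_of_mem hi))

/-- polynomiality of the components with the defect at the last position -/
theorem good_last {q : ℂ} (hq : q ^ 2 + q + 1 = 0) {Ψ : Wd (m + 1) → K}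
    (hex : ∀ i : ℕ, ∀ σ : Wd (m + 1),
      (algebraMap (MvPolynomial (Fin (m + 1)) ℂ) K) (C q * X (ix m i) - C (q ^ 2) * X (ix m (i + 1))) * Ψ σ
        + (algebraMap (MvPolynomial (Fin (m + 1)) ℂ) K) (X (ix m i) - X (ix m (i + 1))) * push (E m i) Ψ σ
        = (algebraMap (MvPolynomial (Fin (m + 1)) ℂ) K) (C q * X (ix m (i + 1)) - C (q ^ 2) * X (ix m i))
          * fr K (swap (ix m i) (ix m (i + 1))) (Ψ σ))
    (hb : Ψ (base m) = (algebraMap (MvPolynomial (Fin (m + 1)) ℂ) K) (Dl q m)) :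
    ∀ N : ℕ, ∀ σ : Wd (m + 1), 2 * (m + 2) * (m + 2) - area σ.1 ≤ N →
      Good σ.1 → PGood m (Ψ σ) := by
  intro N
  induction N with
  | zero =>
    intro σ hN hd
    by_cases hσ : σ = base m
    · rw [hσ]
      exact ⟨Dl q m, Dl_deg q m, hb.symm⟩
    · obtain ⟨i, -, -, -, hlen, -⟩ := tri_step m σ hd hσ
      have := area_le (E m i σ)
      omega
  | succ N ih =>
    intro σ hN hd
    by_cases hσ : σ = base m
    · rw [hσ]
      exact ⟨Dl q m, Dl_deg q m, hb.symm⟩
    obtain ⟨i, hi, hne, hd', hlen, hτ⟩ := tri_step m σ hd hσ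
    set σ' := E m i σ with hσ'
    have hidem : E m i σ' = σ' := by rw [hσ', E_idem]
    have hle := area_le σ'
    obtain ⟨P, hP, hPσ⟩ := ih σ' (by omega) hd'
    have hab : ix m i ≠ ix m (i + 1) := by
      intro h
      have h1 := congrArg Fin.val h
      simp only [ix] at h1
      rw [Nat.mod_eq_of_lt (by omega), Nat.mod_eq_of_lt (by omega)] at h1
      omega
    obtain ⟨T, hT, hTe⟩ := exists_dd q hab P m hP
    set W : K := ∑ τ ∈ (Finset.univ.erase σ).erase σ', if E m i τ = σ' then Ψ τ else 0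
      with hW
    have hpush : push (E m i) Ψ σ' = Ψ σ + (Ψ σ' + W) := by
      unfold push
      rw [hW, ← Finset.add_sum_erase Finset.univ _ (Finset.mem_univ σ), if_pos hσ'.symm,
        ← Finset.add_sum_erase (Finset.univ.erase σ) _
          (Finset.mem_erase.mpr ⟨hne, Finset.mem_univ σ'⟩), if_pos hidem]
    have hWg : PGood m W := by
      refine PGood.sum _ _ fun τ hτ2 => ?_
      rw [Finset.mem_erase, Finset.mem_erase] at hτ2
      split_ifs with h1
      · obtain ⟨h2, h3⟩ := hτ τ h1 hτ2.2.1 hτ2.1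
        exact ih τ (by omega) h2
      · exact PGood.zero
    have h1 := hex i σ'
    rw [hpush, ← hPσ, fr_alg] at h1
    have h2 := congrArg ((algebraMap (MvPolynomial (Fin (m + 1)) ℂ) K)) hTe
    have hCq : (C q : MvPolynomial (Fin (m + 1)) ℂ) ^ 2 + C q + 1 = 0 := by
      rw [← C_1, ← C_pow, ← C_add, ← C_add, hq, C_0]
    have h3 := congrArg ((algebraMap (MvPolynomial (Fin (m + 1)) ℂ) K)) hCq
    have hne0 : (algebraMap (MvPolynomial (Fin (m + 1)) ℂ) K) (X (ix m i) - X (ix m (i + 1))) ≠ 0 := by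
      intro h0
      apply sub_ne hab
      apply al_inj (K := K)
      rw [h0, map_zero]
    have h4 : Ψ σ + W = (algebraMap (MvPolynomial (Fin (m + 1)) ℂ) K) T := by
      apply mul_left_cancel₀ hne0
      simp only [map_sub, map_mul, map_pow, map_add, map_one, map_zero] at h1 h2 h3 ⊢
      linear_combination h1 - h2 - ((algebraMap (MvPolynomial (Fin (m + 1)) ℂ) K) (X (ix m i)) - (algebraMap (MvPolynomial (Fin (m + 1)) ℂ) K) (X (ix m (i + 1)))) * (algebraMap (MvPolynomial (Fin (m + 1)) ℂ) K) P * h3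
    have h5 : Ψ σ = (algebraMap (MvPolynomial (Fin (m + 1)) ℂ) K) T - W := by rw [← h4]; ring
    rw [h5]
    exact PGood.sub ⟨T, hT, rfl⟩ hWg

theorem good_rot {Ψ : Wd (m + 1) → K}
    (hrot : ∀ σ, Ψ (rot m σ) = fr K (finRotate (m + 1)) (Ψ σ)) :
    ∀ (k : ℕ) (σ : Wd (m + 1)), PGood m (Ψ ((rot m)^[k] σ)) → PGood m (Ψ σ) := by
  intro k
  induction k with
  | zero => intro σ h; exact h
  | succ k ih =>
    intro σ h
    rw [Function.iterate_succ_apply] at h
    obtain ⟨P, hP, hPe⟩ := ih _ h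
    refine ⟨rename (⇑(finRotate (m + 1))⁻¹) P, degreeOf_rename_perm _ P _ hP, ?_⟩
    rw [← fr_alg, hPe, hrot, fr_inv']

theorem good_all {q : ℂ} (hq : q ^ 2 + q + 1 = 0) {Ψ : Wd (m + 1) → K}
    (hex : ∀ i : ℕ, ∀ σ : Wd (m + 1),
      (algebraMap (MvPolynomial (Fin (m + 1)) ℂ) K) (C q * X (ix m i) - C (q ^ 2) * X (ix m (i + 1))) * Ψ σ
        + (algebraMap (MvPolynomial (Fin (m + 1)) ℂ) K) (X (ix m i) - X (ix m (i + 1))) * push (E m i) Ψ σ
        = (algebraMap (MvPolynomial (Fin (m + 1)) ℂ) K) (C q * X (ix m (i + 1)) - C (q ^ 2) * X (ix m i))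
          * fr K (swap (ix m i) (ix m (i + 1))) (Ψ σ))
    (hb : Ψ (base m) = (algebraMap (MvPolynomial (Fin (m + 1)) ℂ) K) (Dl q m))
    (hrot : ∀ σ, Ψ (rot m σ) = fr K (finRotate (m + 1)) (Ψ σ))
    (σ : Wd (m + 1)) : PGood m (Ψ σ) := by
  obtain ⟨k, hk⟩ := rot_to_good m σ
  exact good_rot hrot k σ (good_last hq hex hb _ _ le_rfl hk)

theorem push_map {X Y : Type*} [Fintype X] [DecidableEq Y] {R S : Type*} [CommRing R]
    [CommRing S] (g : R →+* S) (f : X → Y) (v : X → R) (y : Y) :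
    g (push f v y) = push f (fun x => g (v x)) y := by
  simp only [push, map_sum]
  refine Finset.sum_congr rfl fun x _ => ?_
  split_ifs <;> simp

/-- the polynomial ground state, from the rational one -/
theorem psi_of_phi {q : ℂ} (hq : q ^ 2 + q + 1 = 0) (hm : 2 ≤ m) {Φ : Wd (m + 1) → K}
    (hs : ∑ σ, Φ σ = 1) (hst : Stat q m 1 Φ) (hb : Φ (base m) ≠ 0)
    (hu : ∀ v : Wd (m + 1) → K, Stat q m 1 v → ∑ σ, v σ = 0 → v = 0) :
    ∃ Ψ : Wd (m + 1) → MvPolynomial (Fin (m + 1)) ℂ, PsiSpec q m Ψ := by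
  have hex := Stat.exch hq hm hs hst hu
  have hrot := Stat.rot hs hst hu
  have hDl : (algebraMap (MvPolynomial (Fin (m + 1)) ℂ) K) (Dl q m) ≠ 0 := by
    intro h0
    apply Dl_ne q hq m
    apply al_inj (K := K)
    rw [h0, map_zero]
  obtain ⟨S, hS⟩ : ∃ S, S = Φ (base m) / (algebraMap (MvPolynomial (Fin (m + 1)) ℂ) K) (Dl q m) := ⟨_, rfl⟩
  have hS0 : S ≠ 0 := by
    rw [hS]
    exact div_ne_zero hb hDl
  have hSsym : ∀ p : Perm (Fin (m + 1)), fr K p S⁻¹ = S⁻¹ := by
    intro p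
    rw [map_inv₀, hS, base_sym hq hm hex]
  have hex' : ∀ i : ℕ, ∀ σ : Wd (m + 1),
      (algebraMap (MvPolynomial (Fin (m + 1)) ℂ) K) (C q * X (ix m i) - C (q ^ 2) * X (ix m (i + 1))) * (S⁻¹ * Φ σ)
        + (algebraMap (MvPolynomial (Fin (m + 1)) ℂ) K) (X (ix m i) - X (ix m (i + 1)))
          * push (E m i) (fun τ => S⁻¹ * Φ τ) σ
        = (algebraMap (MvPolynomial (Fin (m + 1)) ℂ) K) (C q * X (ix m (i + 1)) - C (q ^ 2) * X (ix m i))
          * fr K (swap (ix m i) (ix m (i + 1))) (S⁻¹ * Φ σ) := by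
    intro i σ
    rw [push_smul, map_mul (fr K _), hSsym]
    linear_combination S⁻¹ * hex i σ
  have hb' : S⁻¹ * Φ (base m) = (algebraMap (MvPolynomial (Fin (m + 1)) ℂ) K) (Dl q m) := by
    rw [hS]
    field_simp
  have hrot' : ∀ σ, S⁻¹ * Φ (rot m σ) = fr K (finRotate (m + 1)) (S⁻¹ * Φ σ) := by
    intro σ
    rw [map_mul, hSsym, hrot]
  have hgood := good_all hq (Ψ := fun τ => S⁻¹ * Φ τ) hex' hb' hrot'
  choose Ψ hdeg hΨ using hgood
  refine ⟨Ψ, ?_, ?_, ?_, ?_, ?_⟩
  · apply al_inj (K := K)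
    rw [hΨ, hb']
  · intro i _ σ
    apply al_inj (K := K)
    have h1 := hex' i σ
    rw [map_add, map_mul, map_mul, map_mul, push_map, ← fr_alg]
    simp only [hΨ]
    exact h1
  · intro σ
    apply al_inj (K := K)
    rw [hΨ, ← fr_alg, hΨ]
    exact hrot' σ
  · exact fun σ k => hdeg σ k
  · funext σ
    apply al_inj (K := K)
    rw [Tz_map]
    simp only [hΨ]
    rw [Tz_smul, hst.one, map_mul, map_prod, hΨ]
    simp only [map_add, map_one]
    ring

end main

theorem wd_one (σ : Wd (0 + 1)) : σ.1 = [true] := by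
  obtain ⟨w, hl, hw⟩ := σ
  match w, hl with
  | [b], _ =>
    cases b
    · simp [Ok] at hw
    · rfl

theorem pat_one (σ τ : Wd (0 + 1)) : σ = τ := Subtype.ext ((wd_one σ).trans (wd_one τ).symm)

theorem psi_zero (q : ℂ) (hq : q ^ 2 + q + 1 = 0) :
    ∃ Ψ : Wd (0 + 1) → MvPolynomial (Fin (0 + 1)) ℂ, PsiSpec q 0 Ψ := by
  refine ⟨fun _ => 1, ?_, ?_, ?_, ?_, ?_⟩
  · simp [Dl]
  · intro i hi
    omega
  · intro σ
    rw [map_one]
  · intro σ i
    rw [degreeOf_one]
  · funext σ
    have hCq : (C q : MvPolynomial (Fin (0 + 1)) ℂ) ^ 2 + C q + 1 = 0 := by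
      rw [← C_1, ← C_pow, ← C_add, ← C_add, hq, C_0]
    have h1 := sum_Tz (m := 0) (C q) hCq X (fun _ => 1)
    have h2 : ∀ f : Wd (0 + 1) → MvPolynomial (Fin (0 + 1)) ℂ, ∑ τ, f τ = f σ := by
      intro f
      rw [Finset.sum_eq_single σ]
      · intro τ _ h
        exact absurd (pat_one τ σ) h
      · intro h
        exact absurd (Finset.mem_univ σ) h
    rw [h2, h2] at h1
    exact h1

/-! ### two strands -/

/-- the word `(` `)` -/
def tf : Wd (1 + 1) := ⟨[true, false], rfl, rfl⟩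

/-- the word `)` `(` -/
def ft : Wd (1 + 1) := ⟨[false, true], rfl, rfl⟩

theorem tf_ne_ft : tf ≠ ft := by
  intro h
  have := congrArg (fun σ : Wd (1 + 1) => σ.1.head?) h
  simp [tf, ft] at this

theorem wd_two (σ : Wd (1 + 1)) : σ = tf ∨ σ = ft := by
  obtain ⟨w, hl, hw⟩ := σ
  match w, hl with
  | [a, b], _ =>
    cases a <;> cases b
    · simp [Ok] at hw
    · exact Or.inr rfl
    · exact Or.inl rfl
    · simp [Ok] at hw

theorem sum_two {R : Type*} [AddCommMonoid R] (f : Wd (1 + 1) → R) : ∑ σ, f σ = f tf + f ft := by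
  classical
  have h : (Finset.univ : Finset (Wd (1 + 1))) = {tf, ft} := by
    ext σ
    simpa using wd_two σ
  rw [h, Finset.sum_pair tf_ne_ft]

theorem E0_two (σ : Wd (1 + 1)) : E 1 0 σ = tf := by
  apply Subtype.ext
  rw [E_val]
  rcases wd_two σ with rfl | rfl <;> rfl

theorem E1_two (σ : Wd (1 + 1)) : E 1 1 σ = ft := by
  apply Subtype.ext
  rw [E_val]
  rcases wd_two σ with rfl | rfl <;> rfl

theorem rot_tf : rot 1 tf = ft := by
  apply Subtype.ext
  rw [rot_val]
  rfl

theorem rot_ft : rot 1 ft = tf := by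
  apply Subtype.ext
  rw [rot_val]
  rfl

theorem rotInv_tf : rotInv 1 tf = ft := by
  apply Subtype.ext
  rw [rotInv_val]
  rfl

theorem rotInv_ft : rotInv 1 ft = tf := by
  apply Subtype.ext
  rw [rotInv_val]
  rfl

theorem base_two : base 1 = tf := rfl

theorem ix10 : ix 1 0 = 0 := rfl
theorem ix11 : ix 1 1 = 1 := rfl
theorem ix12 : ix 1 2 = 0 := rfl

theorem word_two (c : Fin (1 + 1) → Bool) (k : ℕ) (σ : Wd (1 + 1)) :
    word 1 c k 1 σ = if c (ix 1 (k + 1)) = true then E 1 k σ else σ := rfl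

open Classical in
theorem Tc_zero (c : Fin (1 + 1) → Bool) (h0 : c 0 = false) (σ : Wd (1 + 1)) :
    Tc 1 c σ = rot 1 (if c 1 = true then tf else σ) := by
  have h : ∃ k : ℕ, k < 1 + 1 ∧ c (ix 1 k) = false := ⟨0, by omega, h0⟩
  have hf : Nat.find h = 0 := (Nat.find_eq_zero h).mpr ⟨by omega, h0⟩
  rw [Tc, dif_pos h, hf, word_two, ix11, E0_two]

open Classical in
theorem Tc_one (c : Fin (1 + 1) → Bool) (h0 : c 0 = true) (h1 : c 1 = false) (σ : Wd (1 + 1)) :
    Tc 1 c σ = tf := by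
  have h : ∃ k : ℕ, k < 1 + 1 ∧ c (ix 1 k) = false := ⟨1, by omega, h1⟩
  have hf : Nat.find h = 1 := by
    rw [Nat.find_eq_iff]
    refine ⟨⟨by omega, h1⟩, fun n hn hh => ?_⟩
    obtain rfl : n = 0 := by omega
    rw [ix10, h0] at hh
    exact absurd hh.2 (by decide)
  rw [Tc, dif_pos h, hf, word_two, ix12, h0, if_pos rfl, E1_two, rot_ft]

open Classical in
theorem Tc_two (c : Fin (1 + 1) → Bool) (h0 : c 0 = true) (h1 : c 1 = true) (σ : Wd (1 + 1)) :
    Tc 1 c σ = rotInv 1 σ := by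
  have h : ¬ ∃ k : ℕ, k < 1 + 1 ∧ c (ix 1 k) = false := by
    rintro ⟨k, hk, hc⟩
    have : k = 0 ∨ k = 1 := by omega
    rcases this with rfl | rfl
    · rw [ix10, h0] at hc
      exact absurd hc (by decide)
    · rw [ix11, h1] at hc
      exact absurd hc (by decide)
  rw [Tc, dif_neg h]

theorem sum_bool2 {R : Type*} [AddCommMonoid R] (f : (Fin (1 + 1) → Bool) → R) :
    ∑ c, f c = (f ![true, true] + f ![true, false]) + (f ![false, true] + f ![false, false]) := by
  rw [← (finTwoArrowEquiv Bool).symm.sum_comp, Fintype.sum_prod_type, Fintype.sum_bool,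
    Fintype.sum_bool, Fintype.sum_bool]
  rfl

theorem push_two {X R : Type*} [DecidableEq X] [AddCommMonoid R] (f : Wd (1 + 1) → X)
    (v : Wd (1 + 1) → R) (y : X) :
    push f v y = (if f tf = y then v tf else 0) + (if f ft = y then v ft else 0) := by
  unfold push
  rw [sum_two]

theorem Dl_two (q : ℂ) : Dl q 1 = C q * X 0 - C (q ^ 2) * X 1 := by
  unfold Dl
  rw [Finset.prod_range_succ, Finset.prod_range_succ, Finset.prod_range_zero,
    Finset.prod_range_zero, Finset.prod_range_succ, Finset.prod_range_zero, one_mul, one_mul,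
    one_mul]
  rfl

theorem Tz_two {R : Type*} [CommRing R] (q : R) (z : Fin (1 + 1) → R) (v : Wd (1 + 1) → R) :
    Tz q z v tf = (-q - q ^ 2 * z 0) * (-q - q ^ 2 * z 1) * v ft
      + (-q - q ^ 2 * z 0) * (-q ^ 2 - q * z 1) * (v tf + v ft)
      + (-q ^ 2 - q * z 0) * (-q ^ 2 - q * z 1) * v ft ∧
    Tz q z v ft = (-q - q ^ 2 * z 0) * (-q - q ^ 2 * z 1) * v tf
      + (-q ^ 2 - q * z 0) * (-q - q ^ 2 * z 1) * (v tf + v ft)
      + (-q ^ 2 - q * z 0) * (-q ^ 2 - q * z 1) * v tf := by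
  have h1 : ∀ σ, Tc 1 ![true, true] σ = rotInv 1 σ := Tc_two _ rfl rfl
  have h2 : ∀ σ, Tc 1 ![true, false] σ = tf := Tc_one _ rfl rfl
  have h3 : ∀ σ, Tc 1 ![false, true] σ = ft := by
    intro σ
    rw [Tc_zero _ rfl, if_pos (by rfl), rot_tf]
  have h4 : ∀ σ, Tc 1 ![false, false] σ = rot 1 σ := by
    intro σ
    rw [Tc_zero _ rfl, if_neg (by simp)]
  have w1 : ∀ a b : Bool, (∏ j : Fin (1 + 1), wt q ((![a, b] : Fin (1 + 1) → Bool) j) (z j))
      = wt q a (z 0) * wt q b (z 1) := fun a b => Fin.prod_univ_two _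
  have wT : ∀ x : R, wt q true x = -q - q ^ 2 * x := fun x => rfl
  have wF : ∀ x : R, wt q false x = -q ^ 2 - q * x := fun x => rfl
  unfold Tz
  simp only [sum_bool2, push_two, h1, h2, h3, h4, rotInv_tf, rotInv_ft, rot_tf, rot_ft,
    if_neg tf_ne_ft, if_neg tf_ne_ft.symm, if_pos, w1, wT, wF]
  constructor <;> ring

theorem psi_one (q : ℂ) (hq : q ^ 2 + q + 1 = 0) :
    ∃ Ψ : Wd (1 + 1) → MvPolynomial (Fin (1 + 1)) ℂ, PsiSpec q 1 Ψ := by
  classical
  have hCq : (C q : MvPolynomial (Fin (1 + 1)) ℂ) ^ 2 + C q + 1 = 0 := by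
    rw [← C_1, ← C_pow, ← C_add, ← C_add, hq, C_0]
  obtain ⟨Ψ, hΨ⟩ : ∃ Ψ : Wd (1 + 1) → MvPolynomial (Fin (1 + 1)) ℂ, Ψ = fun σ =>
      if σ = tf then C q * X 0 - C (q ^ 2) * X 1 else C q * X 1 - C (q ^ 2) * X 0 := ⟨_, rfl⟩
  have htf : Ψ tf = C q * X 0 - C (q ^ 2) * X 1 := by rw [hΨ]; exact if_pos rfl
  have hft : Ψ ft = C q * X 1 - C (q ^ 2) * X 0 := by rw [hΨ]; exact if_neg tf_ne_ft.symm
  refine ⟨Ψ, ?_, ?_, ?_, ?_, ?_⟩
  · rw [base_two, htf, Dl_two]
  · intro i hi σ
    obtain rfl : i = 0 := by omega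
    rw [push_two, E0_two, E0_two, ix10, ix11]
    rcases wd_two σ with rfl | rfl
    · rw [if_pos rfl, if_pos rfl, htf, hft]
      simp only [map_sub, map_mul, map_pow, rename_C, rename_X, swap_apply_left, swap_apply_right]
      linear_combination -(C q * (C q - 1) * (X 0 ^ 2 - X 1 ^ 2)) * hCq
    · rw [if_neg tf_ne_ft, if_neg tf_ne_ft, hft]
      simp only [map_sub, map_mul, map_pow, rename_C, rename_X, swap_apply_left, swap_apply_right]
      ring
  · have hf : finRotate (1 + 1) = swap 0 1 := by decide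
    intro σ
    rw [hf]
    rcases wd_two σ with rfl | rfl
    · rw [rot_tf, htf, hft]
      simp only [map_sub, map_mul, rename_C, rename_X, swap_apply_left, swap_apply_right]
    · rw [rot_ft, htf, hft]
      simp only [map_sub, map_mul, rename_C, rename_X, swap_apply_left, swap_apply_right]
  · intro σ i
    rcases wd_two σ with rfl | rfl
    · rw [htf]
      refine (degreeOf_fac _ _ _ _ _).trans (max_le ?_ ?_) <;> split_ifs <;> omega
    · rw [hft]
      refine (degreeOf_fac _ _ _ _ _).trans (max_le ?_ ?_) <;> split_ifs <;> omega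
  · funext σ
    rw [Fin.prod_univ_two]
    rcases wd_two σ with rfl | rfl
    · rw [(Tz_two _ _ _).1, htf, hft, C_pow]
      linear_combination ((X 0 * X 1 + X 0 * X 1 ^ 2 + X 1 + X 1 ^ 2) * C q ^ 2
        - (X 0 + X 0 * X 1 + X 0 ^ 2 + X 0 ^ 2 * X 1) * C q * (C q ^ 3 - C q + 1)) * hCq
    · rw [(Tz_two _ _ _).2, htf, hft, C_pow]
      linear_combination ((X 0 + X 0 * X 1 + X 0 ^ 2 + X 0 ^ 2 * X 1) * C q ^ 2
        - (X 0 * X 1 + X 0 * X 1 ^ 2 + X 1 + X 1 ^ 2) * C q * (C q ^ 3 - C q + 1)) * hCq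

end Pool.Agent.H863R2.Cyl.PsiAux

namespace Pool.Agent.H863R2.Cyl
open Equiv MvPolynomial PsiAux

/-- existence of the polynomial ground state -/
theorem exists_psi (q : ℂ) (hq : q ^ 2 + q + 1 = 0) (m : ℕ) :
    ∃ Ψ : Wd (m + 1) → MvPolynomial (Fin (m + 1)) ℂ, PsiSpec q m Ψ := by
  rcases m with _ | _ | m
  · exact psi_zero q hq
  · exact psi_one q hq
  obtain ⟨Φ, hs, hst, hb, hu⟩ := exists_Phi q hq (m + 2)
  refine psi_of_phi hq (by omega) (Φ := Φ) hs (fun σ => ?_) hb (fun v hv h0 => hu v (funext fun σ => ?_) h0)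
  · have := congrFun hst σ
    simpa only [Perm.coe_one, id] using this
  · have := hv σ
    simpa only [Perm.coe_one, id] using this
end Pool.Agent.H863R2.Cyl
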