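import Pool.Agent.H863R2.Cyl.Defs
import Pool.Agent.H863R2.Cyl.Lst
import Pool.Agent.H863R2.Cyl.Lst2
import Pool.Agent.H863R2.Cyl.Rel

namespace Pool.Agent.H863R2.Cyl
open Pool.Agent.H988R2.Perc (Word flipR flipL rem firstArc PD)

theorem InsAux.lins_zero (w : Word) : lins 0 w = true :: false :: w := by
  simp [lins, Pool.Agent.H988R2.Perc.ins]

theorem InsAux.length_lins (i : ℕ) (w : Word) : (lins i w).length = w.length + 2 :=
  Pool.Agent.H988R2.Perc.length_ins i w

theorem InsAux.ins_val {L : ℕ} (σ : Wd L) : (ins σ).1 = lins 0 σ.1 := by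
  rw [InsAux.lins_zero]; rfl

theorem InsAux.lins_lins0 (i : ℕ) (w : Word) : lins (i + 2) (lins 0 w) = lins 0 (lins i w) := by
  rw [InsAux.lins_zero, InsAux.lins_zero]
  simp [lins, Pool.Agent.H988R2.Perc.ins]

theorem InsAux.act0_lins1 {u : Word} (h : 1 ≤ u.length) : act 0 (lins 1 u) = lins 0 u := by
  rw [act_eq (by rw [InsAux.length_lins]; omega), cap_lins_succ (by omega)]

theorem InsAux.act_lins0 {i : ℕ} {w : Word} (h : i + 2 ≤ w.length) :
    act (i + 2) (lins 0 w) = lins 0 (act i w) := by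
  rw [act_eq (by rw [InsAux.length_lins]; omega), cap_lins_left (by omega) (by omega),
    InsAux.lins_lins0, Nat.add_sub_cancel, ← act_eq h]

theorem ins_inj {L : ℕ} {σ τ : Wd L} (h : ins σ = ins τ) : σ = τ := by
  have h1 : (ins σ).1 = (ins τ).1 := by rw [h]
  apply Subtype.ext
  have h2 : true :: false :: σ.1 = true :: false :: τ.1 := h1
  simpa using h2

theorem ins_range {L : ℕ} (τ : Wd (L + 2)) : (∃ σ, ins σ = τ) ↔ arcAt 0 τ.1 := by
  constructor
  · rintro ⟨σ, rfl⟩
    exact ⟨σ.1, by rw [List.rotate_zero]; rfl⟩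
  · rintro ⟨v, hv⟩
    rw [List.rotate_zero] at hv
    have h1 := τ.2.1
    have h2 := τ.2.2
    unfold Ok at h2
    rw [hv] at h1 h2
    simp only [List.length_cons] at h1
    have hl : v.length = L := by omega
    have hok : Ok v := by
      unfold Ok
      rw [List.count_cons_self, List.count_cons_of_ne (by decide)] at h2
      simp only [List.length_cons] at h2
      omega
    exact ⟨⟨v, hl, hok⟩, Subtype.ext (by rw [hv]; rfl)⟩

theorem ins_E {m i : ℕ} (hi : i < m) (σ : Wd (m + 1)) :
    E (m + 2) (i + 2) (ins σ) = ins (E m i σ) := by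
  apply Subtype.ext
  rw [E_val, InsAux.ins_val, InsAux.ins_val, E_val, InsAux.act_lins0 (by rw [σ.2.1]; omega)]

theorem ins_E0 {m : ℕ} (σ : Wd (m + 1)) : E (m + 2) 0 (ins σ) = ins σ :=
  E_fix 0 _ ((ins_range _).1 ⟨σ, rfl⟩)

theorem ins_Elast {m : ℕ} (σ : Wd (m + 1)) :
    E (m + 2) 0 (E (m + 2) (m + 2) (E (m + 2) 1 (ins σ))) = ins (E m m σ) := by
  apply Subtype.ext
  rw [E_val, E_val, E_val, InsAux.ins_val, InsAux.ins_val, E_val]
  obtain ⟨w, hl, hok⟩ := σ
  simp only
  rcases Nat.eq_zero_or_pos m with rfl | hm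
  · match w, hl, hok with
    | [true], _, _ => rfl
    | [false], _, hok => exact absurd hok (by unfold Ok; decide)
  · have e1 : act 1 (lins 0 w) = lins 1 w := by
      rw [act_eq (by rw [InsAux.length_lins]; omega)]
      exact congrArg _ (cap_succ_lins (by omega))
    rw [e1]
    have e2 : rotl (lins 1 w) = lins 0 (rotl w) := by
      match w, hl with
      | a :: w', _ =>
        rw [rotl_cons, InsAux.lins_zero]
        have : lins 1 (a :: w') = a :: true :: false :: w' := by
          simp [lins, Pool.Agent.H988R2.Perc.ins]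
        rw [this, rotl_cons]
        rfl
    have e3 : act (m + 2) (lins 1 w) = lins 1 (act m w) := by
      have h1 : act (m + 2) (lins 1 w) = rotr (act (m + 1) (rotl (lins 1 w))) := by
        rw [rotr_act, rotr_rotl]
      have h2 : act (m + 1) (lins 0 (rotl w)) = lins 0 (act (m - 1) (rotl w)) := by
        have := InsAux.act_lins0 (i := m - 1) (w := rotl w) (by rw [length_rotl]; omega)
        rwa [show m - 1 + 2 = m + 1 by omega] at this
      have h3 : rotr (act (m - 1) (rotl w)) = act m w := by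
        rw [rotr_act, rotr_rotl, show m - 1 + 1 = m by omega]
      rw [h1, e2, h2, rotr_lins (by rw [length_act, length_rotl]; omega), h3]
    rw [e3, InsAux.act0_lins1 (by rw [length_act]; omega)]

theorem ins_rot {m : ℕ} (σ : Wd (m + 1)) :
    E (m + 2) 0 (rot (m + 2) (ins σ)) = ins (rot m σ) := by
  apply Subtype.ext
  rw [E_val, rot_val, InsAux.ins_val, InsAux.ins_val, rot_val,
    rotr_lins (by rw [σ.2.1]; omega), InsAux.act0_lins1 (by rw [length_rotr, σ.2.1]; omega)]

theorem ins_rotInv {m : ℕ} (σ : Wd (m + 1)) :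
    E (m + 2) 0 (rotInv (m + 2) (ins σ)) = ins (rotInv m σ) := by
  apply Subtype.ext
  rw [E_val, rotInv_val, InsAux.ins_val, InsAux.ins_val, rotInv_val]
  have h1 : rotl (lins 0 σ.1) = seam σ.1 := by
    rw [InsAux.lins_zero, rotl_cons]; rfl
  have hl := σ.2.1
  rw [h1, act_eq (by simp only [seam, List.length_append, List.length_cons, List.length_nil]; omega),
    cap_zero_seam (by omega)]

end Pool.Agent.H863R2.Cyl
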