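import Pool.Agent.H863R2.Cyl.Gen
import Pool.Agent.H863R2.Cyl.TransIns

/-!
# Module F : recursion of the polynomial ground state (port of helper773's H974R3.Rec by helper653)
-/

namespace Pool.Agent.H863R2.Cyl

/-- recursion factor -/
noncomputable def Fac {N : ℕ} (q x : ℂ) (z : Fin N → ℂ) : ℂ :=
  (-1) ^ N * (q - 1) * x * ∏ j, (z j - q ^ 2 * x) ^ 2

end Pool.Agent.H863R2.Cyl

namespace Pool.Agent.H863R2.Cyl.RecAux
open Equiv MvPolynomial

/-! ### generalities -/

theorem rec_q3 {q : ℂ} (hq : q ^ 2 + q + 1 = 0) : q ^ 3 = 1 := by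
  linear_combination (q - 1) * hq

theorem rec_q1 {q : ℂ} (hq : q ^ 2 + q + 1 = 0) : q - 1 ≠ 0 := by
  intro h
  have h1 : q = 1 := by linear_combination h
  rw [h1] at hq
  norm_num at hq

theorem rec_q0 {q : ℂ} (hq : q ^ 2 + q + 1 = 0) : q ≠ 0 := by
  intro h
  rw [h] at hq
  norm_num at hq

theorem rec_eval_push {X Y : Type*} [Fintype X] [DecidableEq Y] {N : ℕ} (f : X → Y)
    (v : X → MvPolynomial (Fin N) ℂ) (z : Fin N → ℂ) (y : Y) :
    eval z (push f v y) = push f (fun x => eval z (v x)) y := by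
  unfold push
  rw [map_sum]
  refine Finset.sum_congr rfl fun x _ => ?_
  split_ifs
  · rfl
  · simp

theorem rec_eval_Tz {m : ℕ} (q : ℂ) (Ψ : Wd (m + 1) → MvPolynomial (Fin (m + 1)) ℂ)
    (z : Fin (m + 1) → ℂ) (σ : Wd (m + 1)) :
    eval z (Tz (C q) X Ψ σ) = Tz q z (fun s => eval z (Ψ s)) σ := by
  unfold Tz
  rw [map_sum]
  refine Finset.sum_congr rfl fun c _ => ?_
  rw [map_mul, map_prod, rec_eval_push]
  congr 1
  refine Finset.prod_congr rfl fun j _ => ?_
  unfold wt
  split_ifs <;> simp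

/-- push forward along an injective map -/
theorem rec_push_inj {X Y : Type*} [Fintype X] [DecidableEq Y] {R : Type*} [AddCommMonoid R]
    (f : X → Y) (hf : Function.Injective f) (v : X → R) (x : X) : push f v (f x) = v x := by
  classical
  unfold push
  rw [Finset.sum_eq_single_of_mem x (Finset.mem_univ x)]
  · simp
  · intro b _ hb
    rw [if_neg]
    intro h
    exact hb (hf h)

theorem rec_push_out {X Y : Type*} [Fintype X] [DecidableEq Y] {R : Type*} [AddCommMonoid R]
    (f : X → Y) (v : X → R) (y : Y) (hy : ∀ x, f x ≠ y) : push f v y = 0 := by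
  unfold push
  apply Finset.sum_eq_zero
  intro x _
  rw [if_neg (hy x)]

theorem rec_Tz_add {m : ℕ} (q : ℂ) (z : Fin (m + 1) → ℂ) (a b : ℂ) (v w : Wd (m + 1) → ℂ)
    (σ : Wd (m + 1)) :
    Tz q z (fun s => a * v s - b * w s) σ = a * Tz q z v σ - b * Tz q z w σ := by
  have hp : ∀ (f : Wd (m + 1) → Wd (m + 1)), push f (fun s => a * v s - b * w s) σ
      = a * push f v σ - b * push f w σ := by
    intro f
    unfold push
    rw [Finset.mul_sum, Finset.mul_sum, ← Finset.sum_sub_distrib]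
    refine Finset.sum_congr rfl fun x _ => ?_
    split_ifs
    · rfl
    · ring
  unfold Tz
  rw [Finset.mul_sum, Finset.mul_sum, ← Finset.sum_sub_distrib]
  refine Finset.sum_congr rfl fun c _ => ?_
  rw [hp]
  ring


/-! ### rotations -/

theorem rec_ix_lt {m i : ℕ} (h : i < m + 1) : ix m i = ⟨i, h⟩ := by
  unfold ix
  ext
  simp only
  exact Nat.mod_eq_of_lt h

theorem rec_finRotate_ix (m i : ℕ) : finRotate (m + 1) (ix m i) = ix m (i + 1) := by
  rw [finRotate_apply]
  ext
  unfold ix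
  rw [Fin.val_add]
  simp only [Nat.mod_add_mod]
  rcases Nat.eq_zero_or_pos m with h | h
  · subst h; omega
  · rw [Fin.val_one', Nat.add_mod_mod]

theorem rec_finRotate_iter (m i k : ℕ) : (finRotate (m + 1))^[k] (ix m i) = ix m (i + k) := by
  induction k with
  | zero => rfl
  | succ k ih => rw [Function.iterate_succ_apply', ih, rec_finRotate_ix]; rfl


theorem rec_rotInv_iter (m k : ℕ) (σ : Wd (m + 1)) :
    ((rotInv m)^[k] σ).1 = σ.1.rotate k := by
  induction k with
  | zero => simp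
  | succ k ih =>
    rw [Function.iterate_succ_apply', rotInv_val, ih]
    unfold rotl
    rw [List.rotate_rotate]

theorem rec_rot_rotInv_iter (m k : ℕ) (σ : Wd (m + 1)) :
    (rot m)^[k] ((rotInv m)^[k] σ) = σ := by
  induction k with
  | zero => rfl
  | succ k ih =>
    rw [Function.iterate_succ_apply, Function.iterate_succ_apply', rot_rotInv]
    exact ih

/-- the special word: the base word rotated by `-h` -/
noncomputable def sp (m : ℕ) : Wd (m + 1) := (rotInv m)^[(m + 1) / 2] (base m)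

theorem rec_ix_sub (m i : ℕ) (h : m + 1 ≤ i) : ix m i = ix m (i - (m + 1)) := by
  have := ix_add m (i - (m + 1))
  rw [← this]
  congr 1
  omega

theorem ins_sp (m : ℕ) : ins (sp m) = (rotInv (m + 2))^[(m + 1) / 2] (base (m + 2)) := by
  apply Subtype.ext
  rw [rec_rotInv_iter (m + 2)]
  have h1 : (sp m).1 = (base m).1.rotate ((m + 1) / 2) := rec_rotInv_iter m _ _
  have h2 : (ins (sp m)).1 = true :: false :: (sp m).1 := rfl
  rw [h2, h1]
  have h3 : (base m).1 = baseW (m + 1) := rfl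
  have h4 : (base (m + 2)).1 = baseW (m + 2 + 1) := rfl
  rw [h3, h4]
  unfold baseW
  have e1 : (m + 2 + 1) / 2 = (m + 1) / 2 + 1 := by omega
  have e2 : (m + 2 + 1) % 2 = (m + 1) % 2 := by omega
  rw [e1, e2]
  generalize (m + 1) / 2 = h
  generalize (m + 1) % 2 = r
  have r1 : (List.replicate h true ++ List.replicate h false ++ List.replicate r true).rotate h =
      (List.replicate h false ++ List.replicate r true) ++ List.replicate h true := by
    have := List.rotate_append_length_eq (List.replicate h true)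
      (List.replicate h false ++ List.replicate r true)
    rw [List.length_replicate, ← List.append_assoc] at this
    exact this
  have r2 : (List.replicate (h + 1) true ++ List.replicate (h + 1) false ++
      List.replicate r true).rotate h =
      (true :: List.replicate (h + 1) false ++ List.replicate r true) ++ List.replicate h true := by
    have := List.rotate_append_length_eq (List.replicate h true)
      (true :: List.replicate (h + 1) false ++ List.replicate r true)
    rw [List.length_replicate] at this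
    rw [← this]
    congr 1
    rw [List.replicate_succ' (n := h) (a := true)]
    simp
  rw [r1, r2]
  simp [List.replicate_succ]


/-! ### evaluation of the base components -/

theorem rec_rot_eval {q : ℂ} {m : ℕ} {Ψ : Wd (m + 1) → MvPolynomial (Fin (m + 1)) ℂ}
    (h : PsiSpec q m Ψ) (k : ℕ) (σ : Wd (m + 1)) (w : Fin (m + 1) → ℂ) :
    eval w (Ψ ((rot m)^[k] σ)) = eval (fun j => w ((finRotate (m + 1))^[k] j)) (Ψ σ) := by
  induction k generalizing w with
  | zero => rfl
  | succ k ih =>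
    rw [Function.iterate_succ_apply', h.rot, eval_rename, ih]
    have e : (fun j => (w ∘ (finRotate (m + 1))) ((finRotate (m + 1))^[k] j)) =
        fun j => w ((finRotate (m + 1))^[k + 1] j) := by
      funext j
      rw [Function.iterate_succ_apply']
      rfl
    rw [e]

/-- evaluation at a rotated base pattern -/
theorem rec_base_eval {q : ℂ} {m : ℕ} {Ψ : Wd (m + 1) → MvPolynomial (Fin (m + 1)) ℂ}
    (h : PsiSpec q m Ψ) (k : ℕ) (z : Fin (m + 1) → ℂ) (s : ℕ) (hs : s + k = (m + 1) / 2) :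
    eval z (Ψ ((rotInv m)^[k] (base m))) =
      ∏ j ∈ Finset.range (m + 1), ∏ i ∈ Finset.range j,
        (q * z (ix m (s + j)) - q ^ 2 * z (ix m (s + i))) := by
  set w : Fin (m + 1) → ℂ := fun j => z (((finRotate (m + 1)).symm)^[k] j) with hw
  have hinv : ∀ j, ((finRotate (m + 1)).symm)^[k] ((finRotate (m + 1))^[k] j) = j := by
    intro j
    exact Function.LeftInverse.iterate (finRotate (m + 1)).left_inv k j
  have h1 : eval z (Ψ ((rotInv m)^[k] (base m))) = eval w (Ψ (base m)) := by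
    have h2 := rec_rot_eval h k ((rotInv m)^[k] (base m)) w
    rw [rec_rot_rotInv_iter] at h2
    rw [h2]
    have e : (fun j => w ((finRotate (m + 1))^[k] j)) = z := by
      funext j
      rw [hw]
      simp only [hinv]
    rw [e]
  have hwix : ∀ j, w (ix m ((m + 1) / 2 + j)) = z (ix m (s + j)) := by
    intro j
    have e : ix m ((m + 1) / 2 + j) = (finRotate (m + 1))^[k] (ix m (s + j)) := by
      rw [rec_finRotate_iter]
      congr 1
      omega
    rw [e, hw]
    simp only [hinv]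
  rw [h1, h.base]
  unfold Dl chain
  rw [map_prod]
  refine Finset.prod_congr rfl fun j _ => ?_
  rw [map_prod]
  refine Finset.prod_congr rfl fun i _ => ?_
  simp only [map_sub, map_mul, eval_C, eval_X, hwix]

theorem rec_prod_split (N : ℕ) (f : ℕ → ℕ → ℂ) :
    ∏ j ∈ Finset.range (N + 2), ∏ i ∈ Finset.range j, f i j =
      (∏ j ∈ Finset.range N, (f 0 (j + 1) * f (j + 1) (N + 1))) * f 0 (N + 1) *
      ∏ j ∈ Finset.range N, ∏ i ∈ Finset.range j, f (i + 1) (j + 1) := by
  rw [Finset.prod_range_succ]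
  rw [Finset.prod_range_succ' (fun i => f i (N + 1)) N]
  rw [Finset.prod_range_succ' (fun j => ∏ i ∈ Finset.range j, f i j) N]
  have h1 : ∏ j ∈ Finset.range N, ∏ i ∈ Finset.range (j + 1), f i (j + 1) =
      (∏ j ∈ Finset.range N, f 0 (j + 1)) *
        ∏ j ∈ Finset.range N, ∏ i ∈ Finset.range j, f (i + 1) (j + 1) := by
    rw [← Finset.prod_mul_distrib]
    refine Finset.prod_congr rfl fun j _ => ?_
    rw [Finset.prod_range_succ']
    ring
  rw [h1, Finset.prod_mul_distrib]
  simp only [Finset.range_zero, Finset.prod_empty]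
  ring

/-- the base component of the recursion -/
theorem rec_special {q : ℂ} (hq : q ^ 2 + q + 1 = 0) {m : ℕ}
    {Ψ : Wd (m + 1) → MvPolynomial (Fin (m + 1)) ℂ} (h : PsiSpec q m Ψ)
    {Ψ' : Wd (m + 3) → MvPolynomial (Fin (m + 3)) ℂ} (h' : PsiSpec q (m + 2) Ψ')
    (x : ℂ) (z : Fin (m + 1) → ℂ) :
    eval (Fin.cons x (Fin.cons (q * x) z)) (Ψ' (ins (sp m)))
      = Fac q x z * eval z (Ψ (sp m)) := by
  have q3 := rec_q3 hq
  have e1 := rec_base_eval h ((m + 1) / 2) z 0 (by omega)
  have e2 := rec_base_eval h' ((m + 1) / 2) (Fin.cons x (Fin.cons (q * x) z)) 1 (by omega)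
  have e3 : Ψ' (ins (sp m)) = Ψ' ((rotInv (m + 2))^[(m + 1) / 2] (base (m + 2))) := by
    rw [← ins_sp]
  rw [e3]
  have e4 : eval z (Ψ (sp m)) = ∏ j ∈ Finset.range (m + 1), ∏ i ∈ Finset.range j,
        (q * z (ix m (0 + j)) - q ^ 2 * z (ix m (0 + i))) := e1
  rw [e4]
  set w : Fin ((m + 2) + 1) → ℂ := Fin.cons x (Fin.cons (q * x) z) with hw
  have e5 : eval w (Ψ' ((rotInv (m + 2))^[(m + 1) / 2] (base (m + 2)))) =
      ∏ j ∈ Finset.range ((m + 1) + 2), ∏ i ∈ Finset.range j,
        (q * w (ix (m + 2) (1 + j)) - q ^ 2 * w (ix (m + 2) (1 + i))) := e2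
  refine Eq.trans e5 ?_
  rw [rec_prod_split (m + 1) (fun i j => q * w (ix (m + 2) (1 + j)) -
    q ^ 2 * w (ix (m + 2) (1 + i)))]
  have w1 : w (ix (m + 2) (1 + 0)) = q * x := by
    rw [rec_ix_lt (by omega)]
    rfl
  have w2 : ∀ j, j < m + 1 → w (ix (m + 2) (1 + (j + 1))) = z (ix m (0 + j)) := by
    intro j hj
    rw [rec_ix_lt (show 1 + (j + 1) < (m + 2) + 1 by omega), rec_ix_lt (show 0 + j < m + 1 by omega)]
    have : (⟨1 + (j + 1), by omega⟩ : Fin (m + 1 + 1 + 1)) = (⟨0 + j, by omega⟩ : Fin (m + 1)).succ.succ := by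
      ext
      simp
      omega
    rw [hw]
    exact (congrArg (Fin.cons x (Fin.cons (q * x) z) : Fin (m + 1 + 1 + 1) → ℂ) this)
  have w3 : w (ix (m + 2) (1 + ((m + 1) + 1))) = x := by
    have : ix (m + 2) (1 + ((m + 1) + 1)) = ix (m + 2) 0 := by
      rw [rec_ix_sub _ _ (by omega)]
      congr 1
      omega
    rw [this, rec_ix_lt (by omega)]
    rfl
  have p1 : ∏ j ∈ Finset.range (m + 1), ∏ i ∈ Finset.range j,
      (q * w (ix (m + 2) (1 + (j + 1))) - q ^ 2 * w (ix (m + 2) (1 + (i + 1)))) =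
      ∏ j ∈ Finset.range (m + 1), ∏ i ∈ Finset.range j,
        (q * z (ix m (0 + j)) - q ^ 2 * z (ix m (0 + i))) := by
    refine Finset.prod_congr rfl fun j hj => Finset.prod_congr rfl fun i hi => ?_
    rw [Finset.mem_range] at hj hi
    rw [w2 j hj, w2 i (by omega)]
  have p2 : ∏ j ∈ Finset.range (m + 1),
      ((q * w (ix (m + 2) (1 + (j + 1))) - q ^ 2 * w (ix (m + 2) (1 + 0))) *
        (q * w (ix (m + 2) (1 + (m + 1 + 1))) - q ^ 2 * w (ix (m + 2) (1 + (j + 1))))) =
      (-1) ^ (m + 1) * ∏ j : Fin (m + 1), (z j - q ^ 2 * x) ^ 2 := by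
    have : ∀ j ∈ Finset.range (m + 1),
      ((q * w (ix (m + 2) (1 + (j + 1))) - q ^ 2 * w (ix (m + 2) (1 + 0))) *
        (q * w (ix (m + 2) (1 + (m + 1 + 1))) - q ^ 2 * w (ix (m + 2) (1 + (j + 1))))) =
        (-1) * (z (ix m (0 + j)) - q ^ 2 * x) ^ 2 := by
      intro j hj
      rw [Finset.mem_range] at hj
      rw [w1, w2 j hj, w3]
      generalize z (ix m (0 + j)) = t
      linear_combination (-t ^ 2 + q ^ 2 * x * t) * q3
    rw [Finset.prod_congr rfl this, Finset.prod_mul_distrib, Finset.prod_const, Finset.card_range]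
    rw [Finset.prod_range (fun j => (z (ix m (0 + j)) - q ^ 2 * x) ^ 2)]
    congr 1
    refine Finset.prod_congr rfl fun j _ => ?_
    have : ix m (0 + j.val) = j := by
      rw [rec_ix_lt (by omega)]
      ext
      simp
    rw [this]
  rw [p1, p2, w1, w3]
  unfold Fac
  linear_combination (-(-1) ^ (m + 1) * x * (∏ j, (z j - q ^ 2 * x) ^ 2) *
    ∏ j ∈ Finset.range (m + 1), ∏ i ∈ Finset.range j,
        (q * z (ix m (0 + j)) - q ^ 2 * z (ix m (0 + i)))) * q3


/-! ### vanishing outside the range of `ins` -/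

theorem rec_eq_zero_of_ne {f : ℂ → ℂ} (hf : Continuous f) (S : Set ℂ) (hS : S.Finite)
    (h : ∀ u, u ∉ S → f u = 0) (x : ℂ) : f x = 0 := by
  have hd : Dense (Sᶜ) := hS.countable.dense_compl ℂ
  have h1 : f = fun _ => 0 := by
    apply Continuous.ext_on hd hf continuous_const
    intro u hu
    exact h u hu
  rw [h1]

theorem rec_cont_eval {N M : ℕ} (P : MvPolynomial (Fin N) ℂ) (g : (Fin M → ℂ) → Fin N → ℂ)
    (hg : ∀ j, Continuous fun z => g z j) : Continuous fun z => eval (g z) P :=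
  (MvPolynomial.continuous_eval P).comp (continuous_pi hg)

theorem rec_cont_eval' {N : ℕ} (P : MvPolynomial (Fin N) ℂ) (g : ℂ → Fin N → ℂ)
    (hg : ∀ j, Continuous fun z => g z j) : Continuous fun z => eval (g z) P :=
  (MvPolynomial.continuous_eval P).comp (continuous_pi hg)

theorem rec_cont_cons {M N : ℕ} (q : ℂ) (a : (Fin M → ℂ) → ℂ) (ha : Continuous a)
    (b : (Fin M → ℂ) → Fin N → ℂ) (hb : ∀ j, Continuous fun z => b z j) (j : Fin (N + 2)) :
    Continuous fun z => (Fin.cons (a z) (Fin.cons (q * a z) (b z)) : Fin (N + 2) → ℂ) j := by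
  refine Fin.cases ?_ (fun j' => ?_) j
  · simpa using ha
  · refine Fin.cases ?_ (fun j'' => ?_) j'
    · have : Continuous fun z => q * a z := continuous_const.mul ha
      simpa using this
    · simpa using hb j''

theorem rec_vanish {q : ℂ} (hq : q ^ 2 + q + 1 = 0) {m : ℕ}
    {Ψ' : Wd (m + 3) → MvPolynomial (Fin (m + 3)) ℂ} (h' : PsiSpec q (m + 2) Ψ')
    (x : ℂ) (z : Fin (m + 1) → ℂ) (τ : Wd (m + 3))
    (hτ : ∀ σ : Wd (m + 1), ins σ ≠ τ) :
    eval (Fin.cons x (Fin.cons (q * x) z)) (Ψ' τ) = 0 := by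
  have q3 := rec_q3 hq
  apply rec_eq_zero_of_ne (f := fun u => eval (Fin.cons u (Fin.cons (q * u) z) : Fin (m + 3) → ℂ) (Ψ' τ))
    _ {0} (Set.finite_singleton 0)
  · intro u hu
    have hu0 : u ≠ 0 := by simpa using hu
    have h1 := h'.exch 0 (by omega) τ
    have hp : push (E (m + 2) 0) Ψ' τ = 0 := by
      apply rec_push_out
      intro σ hσ
      have h2 := E_arc (m := (m + 2)) (by omega) 0 σ
      rw [hσ] at h2
      obtain ⟨σ', hσ'⟩ := (ins_range (L := m + 1) τ).2 h2
      exact hτ σ' hσ'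
    rw [hp, mul_zero, add_zero] at h1
    have h2 := congrArg (eval (Fin.cons u (Fin.cons (q * u) z) : Fin (m + 3) → ℂ)) h1
    have e0 : (Fin.cons u (Fin.cons (q * u) z) : Fin (m + 3) → ℂ) (ix (m + 2) 0) = u := by
      rw [rec_ix_lt (by omega)]; rfl
    have e1 : (Fin.cons u (Fin.cons (q * u) z) : Fin (m + 3) → ℂ) (ix (m + 2) (0 + 1)) = q * u := by
      rw [rec_ix_lt (by omega)]; rfl
    rw [map_mul, map_mul, map_sub, map_sub, map_mul, map_mul, map_mul, map_mul, eval_C, eval_C,
      eval_X, eval_X, e0, e1] at h2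
    have h3 : (q * (q * u) - q ^ 2 * u) = 0 := by ring
    rw [h3, zero_mul] at h2
    have h4 : q * u - q ^ 2 * (q * u) ≠ 0 := by
      have : q * u - q ^ 2 * (q * u) = (q - 1) * u := by linear_combination (-u) * q3
      rw [this]
      exact mul_ne_zero (rec_q1 hq) hu0
    exact (mul_eq_zero.1 h2).resolve_left h4
  · apply rec_cont_eval'
    intro j
    refine Fin.cases ?_ (fun j' => ?_) j
    · have : Continuous fun u : ℂ => u := continuous_id
      simpa using this
    · refine Fin.cases ?_ (fun j'' => ?_) j'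
      · have : Continuous fun u : ℂ => q * u := continuous_const.mul continuous_id
        simpa using this
      · simpa using continuous_const

/-! ### the main recursion -/

theorem rec_ker {q : ℂ} {m : ℕ} {Ψ : Wd (m + 1) → MvPolynomial (Fin (m + 1)) ℂ}
    (h : PsiSpec q m Ψ) (z : Fin (m + 1) → ℂ) :
    Tz q z (fun s => eval z (Ψ s)) = fun σ => (∏ j, (1 + z j)) * eval z (Ψ σ) := by
  funext σ
  rw [← rec_eval_Tz, h.stat, map_mul, map_prod]
  simp

theorem rec_ker' {q : ℂ} (hq : q ^ 2 + q + 1 = 0) {m : ℕ}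
    {Ψ' : Wd (m + 3) → MvPolynomial (Fin (m + 3)) ℂ} (h' : PsiSpec q (m + 2) Ψ')
    (x : ℂ) (hx : (1 + x) * (1 + q * x) ≠ 0) (z : Fin (m + 1) → ℂ) :
    Tz q z (fun s => eval (Fin.cons x (Fin.cons (q * x) z)) (Ψ' (ins s))) =
      fun σ => (∏ j, (1 + z j)) * eval (Fin.cons x (Fin.cons (q * x) z)) (Ψ' (ins σ)) := by
  have h1 := rec_ker h' (Fin.cons x (Fin.cons (q * x) z) : Fin (m + 3) → ℂ)
  have hinj : Function.Injective (ins : Wd (m + 1) → Wd (m + 1 + 2)) :=
    fun a b hab => ins_inj hab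
  set Θ : Wd (m + 1) → ℂ := fun s => eval (Fin.cons x (Fin.cons (q * x) z)) (Ψ' (ins s)) with hΘ
  have h2 : (fun s : Wd (m + 1 + 2) => eval (Fin.cons x (Fin.cons (q * x) z)) (Ψ' s)) = push ins Θ := by
    funext τ
    by_cases hτ : ∃ σ : Wd (m + 1), ins σ = τ
    · obtain ⟨σ, rfl⟩ := hτ
      rw [rec_push_inj _ hinj]
    · push Not at hτ
      rw [rec_push_out _ _ _ hτ]
      exact rec_vanish hq h' x z τ hτ
  have h3 := Tz_ins q hq x z Θ
  have h4 : Tz (m := m + 2) q (Fin.cons x (Fin.cons (q * x) z)) (push ins Θ) =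
      fun σ : Wd (m + 1 + 2) => (∏ j, (1 + (Fin.cons x (Fin.cons (q * x) z) : Fin (m + 1 + 2) → ℂ) j)) * push ins Θ σ := by
    rw [← h2]
    exact h1
  funext σ
  have h5 := congrFun (h3.symm.trans h4) (ins σ)
  simp only [rec_push_inj _ hinj, Fin.prod_univ_succ, Fin.cons_zero, Fin.cons_succ] at h5
  apply mul_left_cancel₀ hx
  rw [Fin.prod_univ_succ]
  linear_combination h5


theorem rec_sp_ne {q : ℂ} (hq : q ^ 2 + q + 1 = 0) {m : ℕ}
    {Ψ : Wd (m + 1) → MvPolynomial (Fin (m + 1)) ℂ} (h : PsiSpec q m Ψ) :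
    Ψ (sp m) ≠ 0 := by
  intro h0
  have e1 := rec_base_eval h ((m + 1) / 2) (fun _ => 1) 0 (by omega)
  have e2 : Ψ ((rotInv m)^[(m + 1) / 2] (base m)) = 0 := h0
  rw [e2, map_zero] at e1
  have e3 : ∏ j ∈ Finset.range (m + 1), ∏ i ∈ Finset.range j,
        (q * (1 : ℂ) - q ^ 2 * 1) ≠ 0 := by
    rw [Finset.prod_ne_zero_iff]
    intro j _
    rw [Finset.prod_ne_zero_iff]
    intro i _
    have : q * (1 : ℂ) - q ^ 2 * 1 = -(q * (q - 1)) := by ring
    rw [this]
    exact neg_ne_zero.2 (mul_ne_zero (rec_q0 hq) (rec_q1 hq))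
  exact e3 e1.symm

theorem rec_generic {q : ℂ} (hq : q ^ 2 + q + 1 = 0) {m : ℕ}
    {Ψ : Wd (m + 1) → MvPolynomial (Fin (m + 1)) ℂ} (h : PsiSpec q m Ψ)
    {Ψ' : Wd (m + 3) → MvPolynomial (Fin (m + 3)) ℂ} (h' : PsiSpec q (m + 2) Ψ')
    (x : ℂ) (hx : (1 + x) * (1 + q * x) ≠ 0) (z : Fin (m + 1) → ℂ)
    (hz : ∀ v : Wd (m + 1) → ℂ, (Tz q z v = fun σ => (∏ j, (1 + z j)) * v σ) →
        ∑ σ, v σ = 0 → v = 0) (hs : eval z (Ψ (sp m)) ≠ 0) (σ : Wd (m + 1)) :
    eval (Fin.cons x (Fin.cons (q * x) z)) (Ψ' (ins σ)) = Fac q x z * eval z (Ψ σ) := by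
  set Θ : Wd (m + 1) → ℂ := fun s => eval (Fin.cons x (Fin.cons (q * x) z)) (Ψ' (ins s)) with hΘ
  set ψ : Wd (m + 1) → ℂ := fun s => eval z (Ψ s) with hψ
  have k1 : Tz q z ψ = fun σ => (∏ j, (1 + z j)) * ψ σ := rec_ker h z
  have k2 : Tz q z Θ = fun σ => (∏ j, (1 + z j)) * Θ σ := rec_ker' hq h' x hx z
  have k3 : (fun s => (∑ t, ψ t) * Θ s - (∑ t, Θ t) * ψ s) = 0 := by
    apply hz
    · funext s
      rw [rec_Tz_add, k1, k2]
      ring
    · rw [Finset.sum_sub_distrib, ← Finset.mul_sum, ← Finset.mul_sum]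
      ring
  have k4 : Θ (sp m) = Fac q x z * ψ (sp m) := rec_special hq h h' x z
  have k5 : (∑ t, ψ t) ≠ 0 := by
    intro h0
    have := hz ψ k1 h0
    exact hs (congrFun this (sp m))
  have k6 := congrFun k3 (sp m)
  simp only [Pi.zero_apply] at k6
  rw [k4] at k6
  have k7 : (∑ t, Θ t) = Fac q x z * ∑ t, ψ t := by
    have : ((∑ t, ψ t) * Fac q x z - ∑ t, Θ t) * ψ (sp m) = 0 := by linear_combination k6
    have := (mul_eq_zero.1 this).resolve_right hs
    linear_combination -this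
  have k8 := congrFun k3 σ
  simp only [Pi.zero_apply] at k8
  rw [k7] at k8
  have k9 : (∑ t, ψ t) * (Θ σ - Fac q x z * ψ σ) = 0 := by linear_combination k8
  have := (mul_eq_zero.1 k9).resolve_left k5
  exact sub_eq_zero.1 this

end Pool.Agent.H863R2.Cyl.RecAux

namespace Pool.Agent.H863R2.Cyl
open Equiv MvPolynomial RecAux

theorem psi_rec (q : ℂ) (hq : q ^ 2 + q + 1 = 0) (m : ℕ)
    (Ψ : Wd (m + 1) → MvPolynomial (Fin (m + 1)) ℂ) (h : PsiSpec q m Ψ)
    (Ψ' : Wd (m + 3) → MvPolynomial (Fin (m + 3)) ℂ) (h' : PsiSpec q (m + 2) Ψ')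
    (x : ℂ) (z : Fin (m + 1) → ℂ) :
    (∀ σ : Wd (m + 1), eval (Fin.cons x (Fin.cons (q * x) z)) (Ψ' (ins σ))
      = Fac q x z * eval z (Ψ σ)) ∧
    ∀ τ : Wd (m + 3), (∀ σ : Wd (m + 1), ins σ ≠ τ) →
      eval (Fin.cons x (Fin.cons (q * x) z)) (Ψ' τ) = 0 := by
  have q3 := rec_q3 hq
  refine ⟨fun σ => ?_, fun τ hτ => rec_vanish hq h' x z τ hτ⟩
  obtain ⟨Z0, hZ0, hZ⟩ := generic_unique q hq m
  have key : ∀ u : ℂ, (1 + u) * (1 + q * u) ≠ 0 → ∀ w : Fin (m + 1) → ℂ,
      eval (Fin.cons u (Fin.cons (q * u) w) : Fin (m + 3) → ℂ) (Ψ' (ins σ))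
        = Fac q u w * eval w (Ψ σ) := by
    intro u hu
    have hfg := dense_agree (Z0 * Ψ (sp m)) (mul_ne_zero hZ0 (rec_sp_ne hq h))
      (fun w => eval (Fin.cons u (Fin.cons (q * u) w) : Fin (m + 3) → ℂ) (Ψ' (ins σ)))
      (fun w => Fac q u w * eval w (Ψ σ)) ?_ ?_ ?_
    · intro w
      exact congrFun hfg w
    · apply rec_cont_eval
      intro j
      exact rec_cont_cons q (fun _ => u) continuous_const (fun w => w) (fun j => continuous_apply j) j
    · unfold Fac
      apply Continuous.mul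
      · apply Continuous.mul continuous_const
        apply continuous_finsetProd
        intro j _
        exact ((continuous_apply j).sub continuous_const).pow 2
      · exact MvPolynomial.continuous_eval _
    · intro w hw
      rw [map_mul] at hw
      exact rec_generic hq h h' u hu w (hZ w (left_ne_zero_of_mul hw)) (right_ne_zero_of_mul hw) σ
  have hfin := rec_eq_zero_of_ne (f := fun u => eval (Fin.cons u (Fin.cons (q * u) z) : Fin (m + 3) → ℂ) (Ψ' (ins σ))
        - Fac q u z * eval z (Ψ σ)) ?_ {-1, -q ^ 2} (by simp) ?_ x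
  · exact sub_eq_zero.1 hfin
  · apply Continuous.sub
    · apply rec_cont_eval'
      intro j
      refine Fin.cases ?_ (fun j' => ?_) j
      · have : Continuous fun u : ℂ => u := continuous_id
        simpa using this
      · refine Fin.cases ?_ (fun j'' => ?_) j'
        · have : Continuous fun u : ℂ => q * u := continuous_const.mul continuous_id
          simpa using this
        · simpa using continuous_const
    · unfold Fac
      apply Continuous.mul _ continuous_const
      apply Continuous.mul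
      · exact continuous_const.mul continuous_id
      · apply continuous_finsetProd
        intro j _
        exact (continuous_const.sub (continuous_const.mul continuous_id)).pow 2
  · intro u hu
    rw [key u _ z, sub_self]
    apply mul_ne_zero
    · intro h0
      apply hu
      left
      linear_combination h0
    · intro h0
      apply hu
      right
      rw [Set.mem_singleton_iff]
      linear_combination q ^ 2 * h0 - u * q3

end Pool.Agent.H863R2.Cyl
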