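import Pool.Agent.H863R2.Cyl.Defs
import Pool.Agent.H863R2.Cyl.Lst
import Pool.Agent.H863R2.Cyl.Lst2
import Pool.Agent.H863R2.Cyl.Rel
import Pool.Agent.H863R2.Cyl.Markov
import Pool.Agent.H863R2.Cyl.Psi
import Pool.Agent.H863R2.Cyl.Rec

/-! Module FA: the family of normalised ground states. -/

namespace Pool.Agent.H863R2.Cyl
open Pool.Agent.H988R2.Perc (Word flipR flipL rem firstArc PD)
open MvPolynomial

namespace FamAux

/-! ### the embedding -/

/-- embedding of vectors of typed words -/
noncomputable def emb {N : ℕ} (v : Wd N → ℂ) : VW := ∑ σ : Wd N, v σ • bs σ.1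

theorem emb_apply {N : ℕ} (v : Wd N → ℂ) (σ : Wd N) : emb v σ.1 = v σ := by
  unfold emb
  rw [Finsupp.finsetSum_apply, Finset.sum_eq_single σ]
  · simp
  · intro τ _ hτ
    have : τ.1 ≠ σ.1 := fun h => hτ (Subtype.ext h)
    simp [this]
  · intro h; exact absurd (Finset.mem_univ _) h

theorem emb_apply_ne {N : ℕ} (v : Wd N → ℂ) (w : Word) (h : ¬ (w.length = N ∧ Ok w)) :
    emb v w = 0 := by
  unfold emb
  rw [Finsupp.finsetSum_apply]
  refine Finset.sum_eq_zero fun σ _ => ?_
  have : σ.1 ≠ w := by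
    intro hw; subst hw; exact h σ.2
  simp [this]

theorem emb_mem {N : ℕ} (v : Wd N → ℂ) : emb v ∈ VN N := by
  unfold emb VN
  refine Submodule.sum_mem _ fun σ _ => ?_
  refine Submodule.smul_mem _ _ ?_
  exact Finsupp.single_mem_supported ℂ _ σ.2

theorem emb_smul {N : ℕ} (a : ℂ) (v : Wd N → ℂ) : emb (fun σ => a * v σ) = a • emb v := by
  unfold emb
  rw [Finset.smul_sum]
  exact Finset.sum_congr rfl fun σ _ => by rw [mul_smul]

theorem emb_add {N : ℕ} (v v' : Wd N → ℂ) : emb (fun σ => v σ + v' σ) = emb v + emb v' := by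
  unfold emb
  rw [← Finset.sum_add_distrib]
  exact Finset.sum_congr rfl fun σ _ => by rw [add_smul]

theorem emb_push {N M : ℕ} (f : Wd N → Wd M) (g : Word → Word) (hfg : ∀ σ, (f σ).1 = g σ.1)
    (v : Wd N → ℂ) : emb (push f v) = lin g (emb v) := by
  unfold emb push
  rw [map_sum]
  have h1 : ∀ σ : Wd N, lin g (v σ • bs σ.1) = v σ • bs (f σ).1 := by
    intro σ
    rw [map_smul, hfg]
    congr 1
    simp [lin, bs, Finsupp.lmapDomain_apply, Finsupp.mapDomain_single]
  rw [Finset.sum_congr rfl fun σ _ => h1 σ]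
  have h2 : ∀ τ : Wd M, (∑ σ : Wd N, if f σ = τ then v σ else 0) • bs τ.1
      = ∑ σ : Wd N, if f σ = τ then v σ • bs τ.1 else 0 := by
    intro τ
    rw [Finset.sum_smul]
    exact Finset.sum_congr rfl fun σ _ => by split_ifs <;> simp
  rw [Finset.sum_congr rfl fun τ _ => h2 τ, Finset.sum_comm]
  refine Finset.sum_congr rfl fun σ _ => ?_
  rw [Finset.sum_ite_eq]
  simp

theorem tot_emb {N : ℕ} (v : Wd N → ℂ) : tot (emb v) = ∑ σ, v σ := by
  unfold emb tot
  rw [map_sum]
  exact Finset.sum_congr rfl fun σ _ => by simp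

theorem VW_ext {v v' : VW} {N : ℕ} (h : v ∈ VN N) (h' : v' ∈ VN N)
    (e : ∀ σ : Wd N, v σ.1 = v' σ.1) : v = v' := by
  ext w
  by_cases hw : w.length = N ∧ Ok w
  · exact e ⟨w, hw⟩
  · have h1 : v w = 0 := by
      by_contra h0
      exact hw (h (by simpa using h0))
    have h2 : v' w = 0 := by
      by_contra h0
      exact hw (h' (by simpa using h0))
    rw [h1, h2]

/-! ### constants -/

/-- normalisation -/
noncomputable def gam (q : ℂ) : ℕ → ℂ
  | 0 => 1
  | 1 => 1
  | (N + 2) => (-1) ^ N * (q - 1) * gam q N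

theorem gam_ne {q : ℂ} (hq1 : q ≠ 1) : ∀ N, gam q N ≠ 0
  | 0 => by simp [gam]
  | 1 => by simp [gam]
  | (N + 2) => by
      rw [gam]
      refine mul_ne_zero (mul_ne_zero ?_ (sub_ne_zero.mpr hq1)) (gam_ne hq1 N)
      exact pow_ne_zero _ (by norm_num)

theorem q_ne_one {q : ℂ} (hq : q ^ 2 + q + 1 = 0) : q ≠ 1 := by
  rintro rfl; norm_num at hq

theorem q_ne_zero {q : ℂ} (hq : q ^ 2 + q + 1 = 0) : q ≠ 0 := by
  rintro rfl; norm_num at hq

theorem q_cube {q : ℂ} (hq : q ^ 2 + q + 1 = 0) : q ^ 3 = 1 := by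
  linear_combination (q - 1) * hq

/-! ### the family -/

/-- the point of a list -/
noncomputable def pt (n : ℕ) (z : List ℂ) : Fin n → ℂ := fun i => z.getD i 0

variable {q : ℂ}

/-- evaluated ground state -/
noncomputable def A (q : ℂ) (P : ∀ m, Wd (m + 1) → MvPolynomial (Fin (m + 1)) ℂ) (m : ℕ)
    (z : List ℂ) : VW := emb (fun σ => (gam q (m + 1))⁻¹ * eval (pt (m + 1) z) (P m σ))

/-- the family -/
noncomputable def Ps (q : ℂ) (P : ∀ m, Wd (m + 1) → MvPolynomial (Fin (m + 1)) ℂ) :
    List ℂ → VW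
  | [] => bs []
  | (x :: l) => A q P l.length (x :: l)

variable (P : ∀ m, Wd (m + 1) → MvPolynomial (Fin (m + 1)) ℂ)

theorem Ps_eq {m : ℕ} {z : List ℂ} (h : z.length = m + 1) : Ps q P z = A q P m z := by
  rcases z with _ | ⟨x, l⟩
  · simp at h
  · simp at h; subst h; rfl

theorem A_apply {m : ℕ} {z : List ℂ} (σ : Wd (m + 1)) :
    A q P m z σ.1 = (gam q (m + 1))⁻¹ * eval (pt (m + 1) z) (P m σ) := emb_apply _ _

theorem A_mem {m : ℕ} {z : List ℂ} : A q P m z ∈ VN (m + 1) := emb_mem _

theorem Ps_mem (z : List ℂ) : Ps q P z ∈ VN z.length := by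
  rcases z with _ | ⟨x, l⟩
  · simp only [Ps, VN, List.length_nil]
    exact Finsupp.single_mem_supported ℂ _ ⟨rfl, by simp [Ok]⟩
  · exact A_mem P

theorem eval_push {X Y : Type*} [Fintype X] [DecidableEq Y] {n : ℕ} (f : X → Y)
    (v : X → MvPolynomial (Fin n) ℂ) (z : Fin n → ℂ) (y : Y) :
    eval z (push f v y) = push f (fun x => eval z (v x)) y := by
  unfold push
  rw [map_sum]
  exact Finset.sum_congr rfl fun x _ => by split_ifs <;> simp

theorem ix_val {m i : ℕ} (h : i < m + 1) : ((ix m i : Fin (m + 1)) : ℕ) = i := Nat.mod_eq_of_lt h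

/-! ### base values -/

theorem ps_one (hP : ∀ m, PsiSpec q m (P m)) (x : ℂ) : Ps q P [x] = bs [true] := by
  have hm : (bs [true] : VW) ∈ VN (0 + 1) := by
    exact Finsupp.single_mem_supported ℂ _ ⟨rfl, by simp [Ok]⟩
  refine VW_ext (N := 0 + 1) (A_mem P) hm fun σ => ?_
  have hσ : σ = base 0 := by
    obtain ⟨w, h1, h2⟩ := σ
    apply Subtype.ext
    show w = baseW 1
    rcases w with _ | ⟨a, _ | ⟨b, w⟩⟩
    · simp at h1
    · cases a
      · simp [Ok] at h2
      · simp [baseW]
    · simp at h1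
  subst hσ
  show A q P 0 [x] (base 0).1 = _
  rw [A_apply, (hP 0).base]
  simp [Dl, gam, base, baseW]

theorem ps_two (hP : ∀ m, PsiSpec q m (P m)) (x y : ℂ) :
    Ps q P [x, y] [true, false] = (q - 1)⁻¹ * (q * x - q ^ 2 * y) := by
  have h : (base 1).1 = [true, false] := by simp [base, baseW]
  rw [← h]
  show A q P 1 [x, y] (base 1).1 = _
  rw [A_apply, (hP 1).base]
  simp [Dl, gam, Finset.prod_range_succ, chain, ix, pt]

theorem ps_three (hP : ∀ m, PsiSpec q m (P m)) (x y z : ℂ) :
    Ps q P [x, y, z] [true, false, true] =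
    -(q - 1)⁻¹ * ((q * z - q ^ 2 * y) * (q * x - q ^ 2 * y) * (q * x - q ^ 2 * z)) := by
  have h : (base 2).1 = [true, false, true] := by simp [base, baseW]
  rw [← h]
  show A q P 2 [x, y, z] (base 2).1 = _
  rw [A_apply, (hP 2).base]
  simp [Dl, gam, Finset.prod_range_succ, chain, ix, pt]
  rw [show (1 - q) = -(q - 1) by ring, inv_neg]
  ring

theorem ps_deg (hP : ∀ m, PsiSpec q m (P m)) (N : ℕ) (w : Word) :
    PD N (N - 1) (fun z => Ps q P z w) := by
  rcases N with _ | m
  · refine ⟨C ((Ps q P [] : VW) w), ?_, ?_⟩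
    · intro i; exact i.elim0
    · intro l hl
      rw [List.length_eq_zero_iff] at hl
      subst hl; simp
  · by_cases hw : w.length = m + 1 ∧ Ok w
    · refine ⟨C (gam q (m + 1))⁻¹ * P m ⟨w, hw⟩, ?_, ?_⟩
      · intro i
        refine (degreeOf_C_mul_le _ _ _).trans ?_
        simpa using (hP m).deg ⟨w, hw⟩ i
      · intro l hl
        show Ps q P l w = _
        rw [Ps_eq P hl, map_mul, eval_C]
        exact A_apply P (⟨w, hw⟩ : Wd (m + 1))
    · refine ⟨0, ?_, ?_⟩
      · intro i; simp
      · intro l hl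
        show Ps q P l w = _
        rw [Ps_eq P hl, map_zero]
        exact emb_apply_ne _ w hw

/-! ### exchange -/

theorem pt_swap {m : ℕ} {u v : List ℂ} {x y : ℂ} (h : (u ++ x :: y :: v).length = m + 1) :
    (fun i => pt (m + 1) (u ++ x :: y :: v)
      (Equiv.swap (ix m u.length) (ix m (u.length + 1)) i))
      = pt (m + 1) (u ++ y :: x :: v) := by
  have hl : u.length + 1 < m + 1 := by simp at h; omega
  have v1 : ((ix m u.length : Fin (m + 1)) : ℕ) = u.length := ix_val (by omega)
  have v2 : ((ix m (u.length + 1) : Fin (m + 1)) : ℕ) = u.length + 1 := ix_val hl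
  funext i
  unfold pt
  by_cases h1 : i = ix m u.length
  · subst h1
    rw [Equiv.swap_apply_left, v1, v2]
    simp [List.getD_append_right]
  · by_cases h2 : i = ix m (u.length + 1)
    · subst h2
      rw [Equiv.swap_apply_right, v1, v2]
      simp
    · rw [Equiv.swap_apply_of_ne_of_ne h1 h2]
      have n1 : (i : ℕ) ≠ u.length := fun h => h1 (Fin.ext (by rw [v1]; exact h))
      have n2 : (i : ℕ) ≠ u.length + 1 := fun h => h2 (Fin.ext (by rw [v2]; exact h))
      rcases lt_or_ge (i : ℕ) u.length with h3 | h3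
      · rw [List.getD_append _ _ _ _ h3, List.getD_append _ _ _ _ h3]
      · rw [List.getD_append_right _ _ _ _ h3, List.getD_append_right _ _ _ _ h3]
        obtain ⟨k, hk⟩ : ∃ k, (i : ℕ) - u.length = k + 2 := ⟨i - u.length - 2, by omega⟩
        rw [hk]; simp

theorem ps_exch (hP : ∀ m, PsiSpec q m (P m)) (u v : List ℂ) (x y : ℂ) :
    (q * y - q ^ 2 * x) • Ps q P (u ++ y :: x :: v) =
      (q * x - q ^ 2 * y) • Ps q P (u ++ x :: y :: v) +
      (x - y) • lin (act u.length) (Ps q P (u ++ x :: y :: v)) := by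
  obtain ⟨m, hm⟩ : ∃ m, (u ++ x :: y :: v).length = m + 1 :=
    ⟨u.length + v.length + 1, by simp; omega⟩
  have hm' : (u ++ y :: x :: v).length = m + 1 := by simp at hm ⊢; omega
  have hl : u.length < m := by simp at hm; omega
  rw [Ps_eq P hm, Ps_eq P hm']
  unfold A
  rw [← emb_smul, ← emb_smul, ← emb_push (E m u.length) (act u.length) (fun σ => E_val _ _ σ),
    ← emb_smul, ← emb_add]
  congr 1
  funext σ
  have h := congrArg (eval (pt (m + 1) (u ++ x :: y :: v))) ((hP m).exch u.length hl σ)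
  simp only [map_add, map_mul, map_sub, eval_C, eval_X, eval_push, eval_rename] at h
  have e1 : pt (m + 1) (u ++ x :: y :: v) (ix m u.length) = x := by
    unfold pt; rw [ix_val (by omega)]; simp
  have e2 : pt (m + 1) (u ++ x :: y :: v) (ix m (u.length + 1)) = y := by
    unfold pt; rw [ix_val (by omega)]; simp
  have e3 : pt (m + 1) (u ++ x :: y :: v) ∘
      ⇑(Equiv.swap (ix m u.length) (ix m (u.length + 1))) = pt (m + 1) (u ++ y :: x :: v) :=
    pt_swap hm
  rw [e1, e2, e3] at h
  have e4 : push (E m u.length)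
      (fun σ => (gam q (m + 1))⁻¹ * eval (pt (m + 1) (u ++ x :: y :: v)) (P m σ)) σ
      = (gam q (m + 1))⁻¹ * push (E m u.length)
        (fun σ => eval (pt (m + 1) (u ++ x :: y :: v)) (P m σ)) σ := by
    unfold push
    rw [Finset.mul_sum]
    exact Finset.sum_congr rfl fun τ _ => by split_ifs <;> simp
  rw [e4]
  linear_combination (-(gam q (m + 1))⁻¹) * h

/-! ### rotation -/

theorem pt_rot {m : ℕ} {l : List ℂ} {x : ℂ} (h : l.length = m) :
    (fun i => pt (m + 1) (x :: l) (finRotate (m + 1) i)) = pt (m + 1) (l ++ [x]) := by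
  funext i
  unfold pt
  by_cases hi : (i : ℕ) < m
  · rw [coe_finRotate_of_ne_last (by
      intro hc; rw [hc] at hi; simp at hi)]
    rw [List.getD_append _ _ _ _ (by omega)]
    simp
  · have : i = Fin.last m := Fin.ext (by simp; omega)
    subst this
    rw [finRotate_last]
    simp [← h]

theorem ps_rot (hP : ∀ m, PsiSpec q m (P m)) (x : ℂ) (l : List ℂ) :
    Ps q P (x :: l) = lin rotr (Ps q P (l ++ [x])) := by
  have h1 : (x :: l).length = l.length + 1 := rfl
  have h2 : (l ++ [x]).length = l.length + 1 := by simp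
  rw [Ps_eq P h1, Ps_eq P h2]
  unfold A
  rw [← emb_push (rot l.length) rotr (fun σ => rot_val _ σ)]
  congr 1
  funext σ
  obtain ⟨τ, rfl⟩ : ∃ τ, rot l.length τ = σ := ⟨_, rot_rotInv _ σ⟩
  have hinj : Function.Injective (rot l.length) := fun a b hab => by
    rw [← rotInv_rot _ a, hab, rotInv_rot]
  unfold push
  rw [Finset.sum_eq_single τ]
  · rw [if_pos rfl, (hP l.length).rot, eval_rename]
    exact congrArg (fun z => (gam q (l.length + 1))⁻¹ * eval z (P l.length τ))
      (pt_rot (x := x) rfl)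
  · intro b _ hb
    rw [if_neg (fun h => hb (hinj h))]
  · intro h; exact absurd (Finset.mem_univ _) h

/-! ### recursion -/

theorem lin_bs (f : Word → Word) (w : Word) : lin f (bs w) = bs (f w) := by
  simp [lin, bs, Finsupp.lmapDomain_apply, Finsupp.mapDomain_single]

theorem lin_comp (f g : Word → Word) (v : VW) : lin f (lin g v) = lin (fun w => f (g w)) v := by
  simp only [lin, Finsupp.lmapDomain_apply]
  rw [← Finsupp.mapDomain_comp]; rfl

theorem lin_congr {N : ℕ} {f g : Word → Word} (h : ∀ w : Word, w.length = N → Ok w → f w = g w)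
    {v : VW} (hv : v ∈ VN N) : lin f v = lin g v := by
  simp only [lin, Finsupp.lmapDomain_apply]
  refine Finsupp.mapDomain_congr fun w hw => ?_
  obtain ⟨h1, h2⟩ := hv hw
  exact h w h1 h2

theorem ps_recu0 (hq : q ^ 2 + q + 1 = 0) (hP : ∀ m, PsiSpec q m (P m)) (v : List ℂ) (x : ℂ) :
    Ps q P (x :: (q * x) :: v) = fac q x v • lin (lins 0) (Ps q P v) := by
  have hq1 := q_ne_one hq
  rcases v with _ | ⟨y, l⟩
  · have hm : fac q x [] • lin (lins 0) (Ps q P []) ∈ VN (1 + 1) := by
      refine Submodule.smul_mem _ _ ?_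
      rw [Ps, lin_bs]
      exact Finsupp.single_mem_supported ℂ _
        ⟨by simp [Pool.Agent.H988R2.Perc.ins], by simp [Ok, Pool.Agent.H988R2.Perc.ins]⟩
    refine VW_ext (N := 1 + 1) (A_mem P) hm fun σ => ?_
    have h2 : (q - 1) * (q - 1)⁻¹ = 1 := mul_inv_cancel₀ (sub_ne_zero.mpr hq1)
    have hr : (fac q x [] • lin (lins 0) (Ps q P []) : VW) = x • bs [true, false] := by
      rw [Ps, lin_bs]; simp [fac, Pool.Agent.H988R2.Perc.ins]
    show Ps q P [x, q * x] σ.1 = _
    rw [hr]
    obtain ⟨w, h1, h3⟩ := σ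
    have hw : w = [true, false] ∨ w = [false, true] := by
      rcases w with _ | ⟨a, _ | ⟨b, _ | ⟨c, w⟩⟩⟩
      · simp at h1
      · simp at h1
      · cases a <;> cases b <;> simp [Ok] at h3 ⊢
      · simp at h1
    rcases hw with rfl | rfl
    · show Ps q P [x, q * x] [true, false] = _
      rw [ps_two P hP]
      simp
      have : q * x - q ^ 2 * (q * x) = (q - 1) * x := by
        linear_combination (-x) * q_cube hq
      rw [this]
      linear_combination x * h2
    · show Ps q P [x, q * x] [false, true] = _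
      rw [ps_rot P hP]
      have e : ([false, true] : Word) = rotr [true, false] := by simp [rotr]
      have hinj : Function.Injective rotr := fun a b hab => by
        rw [← rotl_rotr a, hab, rotl_rotr]
      have e2 : (lin rotr (Ps q P ([q * x] ++ [x]))) [false, true]
          = Ps q P [q * x, x] [true, false] := by
        rw [e]
        simp only [lin, Finsupp.lmapDomain_apply]
        exact Finsupp.mapDomain_apply hinj _ _
      rw [e2, ps_two P hP]
      simp
      right
      ring
  · have h1 : (x :: q * x :: y :: l).length = (l.length + 2) + 1 := rfl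
    have h2 : (y :: l).length = l.length + 1 := rfl
    rw [Ps_eq P h1, Ps_eq P h2]
    unfold A
    rw [← emb_push (N := l.length + 1) (M := l.length + 3) ins (lins 0)
      (fun σ => by simp [ins, Pool.Agent.H988R2.Perc.ins]), ← emb_smul]
    congr 1
    funext τ
    have hrec := psi_rec q hq l.length (P l.length) (hP _) (P (l.length + 2)) (hP _) x
      (pt (l.length + 1) (y :: l))
    have hpt : pt (l.length + 2 + 1) (x :: q * x :: y :: l)
        = Fin.cons x (Fin.cons (q * x) (pt (l.length + 1) (y :: l))) := by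
      funext i
      refine Fin.cases ?_ (fun i => ?_) i
      · simp [pt]
      · refine Fin.cases ?_ (fun i => ?_) i
        · simp [pt]
        · simp [pt]
    have hfac : (gam q (l.length + 3))⁻¹ * Fac q x (pt (l.length + 1) (y :: l))
        = fac q x (y :: l) * (gam q (l.length + 1))⁻¹ := by
      have hprod : ∏ j, (pt (l.length + 1) (y :: l) j - q ^ 2 * x) ^ 2
          = ((y :: l).map (fun y => (y - q ^ 2 * x) ^ 2)).prod := by
        have := Fin.prod_univ_getElem ((y :: l).map (fun y => (y - q ^ 2 * x) ^ 2))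
        rw [← this]
        refine Fintype.prod_equiv (finCongr (by simp)) _ _ fun i => ?_
        simp only [pt, List.getElem_map, finCongr_apply, Fin.val_cast]
        rw [List.getD_eq_getElem _ _ (by simpa using i.2)]
      unfold Fac fac
      rw [hprod, gam]
      have hg := gam_ne hq1 (l.length + 1)
      have hs : ((-1 : ℂ) ^ (l.length + 1)) ≠ 0 := pow_ne_zero _ (by norm_num)
      have hq2 : q - 1 ≠ 0 := sub_ne_zero.mpr hq1
      field_simp
    by_cases hτ : ∃ σ, ins σ = τ
    · obtain ⟨σ, rfl⟩ := hτ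
      have hpush : push ins (fun σ : Wd (l.length + 1) => (gam q (l.length + 1))⁻¹ *
          eval (pt (l.length + 1) (y :: l)) (P l.length σ)) (ins σ)
          = (gam q (l.length + 1))⁻¹ * eval (pt (l.length + 1) (y :: l)) (P l.length σ) := by
        unfold push
        rw [Finset.sum_eq_single σ]
        · rw [if_pos rfl]
        · intro b _ hb
          rw [if_neg (fun h => hb (ins_inj h))]
        · intro h; exact absurd (Finset.mem_univ _) h
      rw [hpush, hpt, hrec.1 σ, ← mul_assoc, ← mul_assoc]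
      congr 1
    · push Not at hτ
      rw [hpt, hrec.2 τ hτ]
      have : push ins (fun σ : Wd (l.length + 1) => (gam q (l.length + 1))⁻¹ *
          eval (pt (l.length + 1) (y :: l)) (P l.length σ)) τ = 0 := by
        unfold push
        exact Finset.sum_eq_zero fun σ _ => if_neg (hτ σ)
      rw [this, mul_zero, mul_zero]

theorem fac_rot (x a : ℂ) (l : List ℂ) : fac q x (l ++ [a]) = fac q x (a :: l) := by
  unfold fac
  simp only [List.map_append, List.prod_append, List.map_cons, List.prod_cons, List.map_nil,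
    List.prod_nil]
  ring

theorem ps_recu (hq : q ^ 2 + q + 1 = 0) (hP : ∀ m, PsiSpec q m (P m)) :
    ∀ (u v : List ℂ) (x : ℂ),
    Ps q P (u ++ x :: (q * x) :: v) = fac q x (u ++ v) • lin (lins u.length) (Ps q P (u ++ v)) := by
  intro u
  induction u with
  | nil => intro v x; exact ps_recu0 P hq hP v x
  | cons a u ih =>
    intro v x
    have h1 : a :: u ++ x :: q * x :: v = a :: (u ++ x :: q * x :: v) := rfl
    have h2 : u ++ x :: q * x :: v ++ [a] = u ++ x :: q * x :: (v ++ [a]) := by simp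
    have h3 : a :: u ++ v = a :: (u ++ v) := rfl
    have h4 : u ++ (v ++ [a]) = (u ++ v) ++ [a] := by simp
    rw [h1, ps_rot P hP, h2, ih, h4, fac_rot, map_smul, lin_comp, h3, ps_rot P hP a (u ++ v),
      lin_comp]
    congr 1
    refine lin_congr (N := (u ++ v ++ [a]).length) ?_ (Ps_mem P _)
    intro w hw _
    exact rotr_lins (by rw [hw]; simp)

/-! ### stationarity -/

theorem pt_ones (m : ℕ) : pt (m + 1) (List.replicate (m + 1) 1) = fun _ => 1 := by
  funext i
  unfold pt
  rw [List.getD_eq_getElem _ _ (by simpa using i.2)]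
  simp

theorem stat0 (hq : q ^ 2 + q + 1 = 0) (hP : ∀ m, PsiSpec q m (P m)) (m : ℕ)
    (σ : Wd (m + 1)) :
    ∑ c : Fin (m + 1) → Bool, push (Tc m c) (fun τ => eval (fun _ => (1 : ℂ)) (P m τ)) σ
      = 2 ^ (m + 1) * eval (fun _ => (1 : ℂ)) (P m σ) := by
  have h := congrArg (eval (fun _ => (1 : ℂ))) (congrFun (hP m).stat σ)
  unfold Tz at h
  have hw : ∀ b, eval (fun _ => (1 : ℂ)) (wt (C q) b (X (R := ℂ) (σ := Fin (m + 1)) 0)) = 1 := by
    intro b
    cases b
    · simp [wt]; linear_combination (-1 : ℂ) * hq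
    · simp [wt]; linear_combination (-1 : ℂ) * hq
  have hw' : ∀ (b : Bool) (j : Fin (m + 1)),
      eval (fun _ => (1 : ℂ)) (wt (C q) b (X (R := ℂ) j)) = 1 := by
    intro b j
    cases b
    · simp [wt]; linear_combination (-1 : ℂ) * hq
    · simp [wt]; linear_combination (-1 : ℂ) * hq
  simp only [map_sum, map_mul, map_prod, hw', Finset.prod_const_one, one_mul, eval_push,
    map_add, map_one, eval_X] at h
  rw [h]
  norm_num

theorem ps_stat (hq : q ^ 2 + q + 1 = 0) (hP : ∀ m, PsiSpec q m (P m)) (m : ℕ)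
    (σ : Wd (m + 1)) :
    ∑ c : Fin (m + 1) → Bool, push (Tc m c)
      (fun τ : Wd (m + 1) => Ps q P (List.replicate (m + 1) 1) τ.1) σ
      = 2 ^ (m + 1) * Ps q P (List.replicate (m + 1) 1) σ.1 := by
  have hl : (List.replicate (m + 1) (1 : ℂ)).length = m + 1 := by simp
  have e : ∀ τ : Wd (m + 1), Ps q P (List.replicate (m + 1) 1) τ.1
      = (gam q (m + 1))⁻¹ * eval (fun _ => (1 : ℂ)) (P m τ) := by
    intro τ
    rw [Ps_eq P hl, A_apply, pt_ones]
  simp only [e]
  have h := stat0 P hq hP m σ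
  have e2 : ∀ c : Fin (m + 1) → Bool, push (Tc m c) (fun τ : Wd (m + 1) =>
      (gam q (m + 1))⁻¹ * eval (fun _ => (1 : ℂ)) (P m τ)) σ
      = (gam q (m + 1))⁻¹ * push (Tc m c) (fun τ => eval (fun _ => (1 : ℂ)) (P m τ)) σ := by
    intro c
    unfold push
    rw [Finset.mul_sum]
    exact Finset.sum_congr rfl fun τ _ => by split_ifs <;> simp
  rw [Finset.sum_congr rfl fun c _ => e2 c, ← Finset.mul_sum, h]
  ring

theorem ps_tot_ne (hq : q ^ 2 + q + 1 = 0) (hP : ∀ m, PsiSpec q m (P m)) (N : ℕ) :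
    tot (Ps q P (List.replicate N 1)) ≠ 0 := by
  rcases N with _ | m
  · simp [Ps, tot]
  · have hq1 := q_ne_one hq
    have hq0 := q_ne_zero hq
    have hl : (List.replicate (m + 1) (1 : ℂ)).length = m + 1 := by simp
    rw [Ps_eq P hl]
    unfold A
    rw [tot_emb, ← Finset.mul_sum, pt_ones]
    refine mul_ne_zero (inv_ne_zero (gam_ne hq1 _)) ?_
    intro h0
    have hu := markov_unique m (fun σ => eval (fun _ => (1 : ℂ)) (P m σ)) (stat0 P hq hP m) h0
    have hb := congrFun hu (base m)
    simp only [(hP m).base, Dl, map_prod, map_sub, map_mul, eval_C, eval_X, mul_one,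
      Pi.zero_apply] at hb
    rw [Finset.prod_eq_zero_iff] at hb
    obtain ⟨j, _, hj⟩ := hb
    rw [Finset.prod_eq_zero_iff] at hj
    obtain ⟨i, _, hi⟩ := hj
    have : q * (q - 1) = 0 := by linear_combination (-1 : ℂ) * hi
    rcases mul_eq_zero.mp this with h | h
    · exact hq0 h
    · exact hq1 (sub_eq_zero.mp h)

end FamAux

open FamAux in
theorem exists_Fam (q : ℂ) (hq : q ^ 2 + q + 1 = 0) : ∃ Ψ : List ℂ → VW, Fam q Ψ := by
  have h := fun m => exists_psi q hq m
  choose P hP using h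
  exact ⟨Ps q P, {
    mem := Ps_mem P
    nil := rfl
    one := ps_one P hP
    two := ps_two P hP
    three := ps_three P hP
    deg := ps_deg P hP
    exch := ps_exch P hP
    rot := ps_rot P hP
    recu := ps_recu P hq hP
    stat := ps_stat P hq hP
    tot_ne := ps_tot_ne P hq hP }⟩

end Pool.Agent.H863R2.Cyl
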