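import Pool.Agent.H863R2.Cyl.Markov
import Pool.Agent.H863R2.Cyl.TransZ

/-!
# Module D0 : uniqueness at generic points, dense agreement (port of helper954)
-/

set_option autoImplicit false
set_option maxHeartbeats 400000

namespace Pool.Agent.H863R2.Cyl
open Equiv MvPolynomial Matrix

namespace GenAux

section mat
variable {R : Type*} [CommRing R]

/-- matrix of `Tz q z - ∏ (1 + z j)` plus the row of ones at `b` -/
noncomputable def Amat {m : ℕ} (q : R) (z : Fin (m + 1) → R) (b : Wd (m + 1)) :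
    Matrix (Wd (m + 1)) (Wd (m + 1)) R := fun σ τ =>
  (∑ c : Fin (m + 1) → Bool, (∏ j, wt q (c j) (z j)) * (if Tc m c τ = σ then 1 else 0))
    - (∏ j, (1 + z j)) * (if σ = τ then 1 else 0) + (if σ = b then 1 else 0)

theorem Amat_mulVec {m : ℕ} (q : R) (z : Fin (m + 1) → R) (b : Wd (m + 1))
    (v : Wd (m + 1) → R) (σ : Wd (m + 1)) :
    (Amat q z b *ᵥ v) σ = Tz q z v σ - (∏ j, (1 + z j)) * v σ + (if σ = b then ∑ τ, v τ else 0) := by
  classical
  simp only [Matrix.mulVec, dotProduct, Amat, add_mul, sub_mul, Finset.sum_add_distrib,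
    Finset.sum_sub_distrib]
  congr 1
  · congr 1
    · simp only [Tz, push, Finset.sum_mul, Finset.mul_sum]
      rw [Finset.sum_comm]
      refine Finset.sum_congr rfl fun c _ => Finset.sum_congr rfl fun τ _ => ?_
      split_ifs <;> ring
    · simp
  · split_ifs with h
    · simp
    · simp

theorem Amat_map {S : Type*} [CommRing S] (f : R →+* S) {m : ℕ} (q : R) (z : Fin (m + 1) → R)
    (b : Wd (m + 1)) : (Amat q z b).map f = Amat (f q) (fun j => f (z j)) b := by
  classical
  ext σ τ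
  simp only [Matrix.map_apply, Amat, map_add, map_sub, map_mul, map_sum, map_prod, map_one]
  congr 1
  · congr 1
    · refine Finset.sum_congr rfl fun c _ => ?_
      congr 1
      · refine Finset.prod_congr rfl fun j _ => ?_
        unfold wt
        split_ifs <;> simp
      · split_ifs <;> simp
    · split_ifs <;> simp
  · split_ifs <;> simp

theorem sum_Amat {m : ℕ} (q : R) (hq : q ^ 2 + q + 1 = 0) (z : Fin (m + 1) → R) (b : Wd (m + 1))
    (v : Wd (m + 1) → R) : ∑ σ, (Amat q z b *ᵥ v) σ = ∑ σ, v σ := by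
  classical
  simp only [Amat_mulVec, Finset.sum_add_distrib, Finset.sum_sub_distrib, sum_Tz q hq]
  rw [← Finset.mul_sum]
  simp

theorem Amat_of_stat {m : ℕ} (q : R) (z : Fin (m + 1) → R) (b : Wd (m + 1))
    (v : Wd (m + 1) → R) (h : Tz q z v = fun σ => (∏ j, (1 + z j)) * v σ) :
    Amat q z b *ᵥ v = fun σ => if σ = b then ∑ τ, v τ else 0 := by
  funext σ
  rw [Amat_mulVec, h]
  simp

theorem stat_of_Amat {m : ℕ} (q : R) (hq : q ^ 2 + q + 1 = 0) (z : Fin (m + 1) → R) (b : Wd (m + 1))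
    (v : Wd (m + 1) → R) (d : R) (h : Amat q z b *ᵥ v = fun σ => if σ = b then d else 0) :
    ∑ σ, v σ = d ∧ Tz q z v = fun σ => (∏ j, (1 + z j)) * v σ := by
  classical
  have h1 : ∑ σ, v σ = d := by
    rw [← sum_Amat q hq z b v, h]
    simp
  refine ⟨h1, ?_⟩
  funext σ
  have h2 := congrFun h σ
  rw [Amat_mulVec, h1] at h2
  split_ifs at h2 with h3
  · linear_combination h2
  · linear_combination h2

end mat

/-- the transfer operator at `z = 1` -/
theorem Tz_one {m : ℕ} (q : ℂ) (hq : q ^ 2 + q + 1 = 0) (v : Wd (m + 1) → ℂ) (σ : Wd (m + 1)) :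
    Tz q (fun _ => 1) v σ = ∑ c : Fin (m + 1) → Bool, push (Tc m c) v σ := by
  unfold Tz
  refine Finset.sum_congr rfl fun c _ => ?_
  have : ∏ j, wt q (c j) (1 : ℂ) = 1 := by
    refine Finset.prod_eq_one fun j _ => ?_
    unfold wt
    split_ifs <;> linear_combination -hq
  rw [this, one_mul]

theorem prod_one_add {m : ℕ} : ∏ _j : Fin (m + 1), (1 + (1 : ℂ)) = 2 ^ (m + 1) := by
  rw [Finset.prod_const, Finset.card_univ, Fintype.card_fin]
  norm_num

theorem det_one_ne_zero (q : ℂ) (hq : q ^ 2 + q + 1 = 0) (m : ℕ) :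
    (Amat q (fun _ : Fin (m + 1) => (1 : ℂ)) (base m)).det ≠ 0 := by
  classical
  intro h
  obtain ⟨v, hv0, hv⟩ := Matrix.exists_mulVec_eq_zero_iff.2 h
  obtain ⟨h1, h2⟩ := stat_of_Amat q hq (fun _ : Fin (m + 1) => (1 : ℂ)) (base m) v 0 (by
    rw [hv]; funext σ; simp)
  apply hv0
  refine markov_unique m v (fun σ => ?_) h1
  rw [← Tz_one q hq v σ, h2, prod_one_add]

theorem det_poly_ne_zero (q : ℂ) (hq : q ^ 2 + q + 1 = 0) (m : ℕ) :
    (Amat (C q : MvPolynomial (Fin (m + 1)) ℂ) X (base m)).det ≠ 0 := by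
  classical
  intro h
  apply det_one_ne_zero q hq m
  have h1 : Amat q (fun _ : Fin (m + 1) => (1 : ℂ)) (base m) =
      (Amat (C q : MvPolynomial (Fin (m + 1)) ℂ) X (base m)).map (eval fun _ => (1 : ℂ)) := by
    rw [Amat_map]
    simp
  rw [h1, ← RingHom.mapMatrix_apply, ← RingHom.map_det, h, map_zero]

end GenAux

open GenAux

theorem generic_unique (q : ℂ) (hq : q ^ 2 + q + 1 = 0) (m : ℕ) :
    ∃ Z0 : MvPolynomial (Fin (m + 1)) ℂ, Z0 ≠ 0 ∧ ∀ z, eval z Z0 ≠ 0 →
      ∀ v : Wd (m + 1) → ℂ, (Tz q z v = fun σ => (∏ j, (1 + z j)) * v σ) →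
        ∑ σ, v σ = 0 → v = 0 := by
  classical
  refine ⟨(Amat (C q : MvPolynomial (Fin (m + 1)) ℂ) X (base m)).det, det_poly_ne_zero q hq m, ?_⟩
  intro z hz v hv hs
  have h1 : Amat q z (base m) =
      (Amat (C q : MvPolynomial (Fin (m + 1)) ℂ) X (base m)).map (eval z) := by
    rw [Amat_map]
    simp
  have h2 : (Amat q z (base m)).det ≠ 0 := by
    rw [h1, ← RingHom.mapMatrix_apply, ← RingHom.map_det]
    exact hz
  refine Matrix.eq_zero_of_mulVec_eq_zero h2 ?_
  rw [Amat_of_stat q z (base m) v hv, hs]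
  funext σ
  simp

theorem dense_agree {N : ℕ} (D : MvPolynomial (Fin N) ℂ) (hD : D ≠ 0)
    (f g : (Fin N → ℂ) → ℂ) (hf : Continuous f) (hg : Continuous g)
    (h : ∀ z, eval z D ≠ 0 → f z = g z) : f = g := by
  funext z0
  obtain ⟨w, hw⟩ : ∃ w, eval w D ≠ 0 := by
    by_contra hcon
    push Not at hcon
    apply hD
    refine MvPolynomial.funext fun w => ?_
    rw [hcon w, map_zero]
  set P : Polynomial ℂ := aeval (fun i => Polynomial.C (z0 i) + Polynomial.X * Polynomial.C (w i - z0 i)) D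
    with hP
  have hPe : ∀ t : ℂ, P.eval t = eval (fun i => z0 i + t * (w i - z0 i)) D := by
    intro t
    have h1 : P.eval t = (Polynomial.aeval t : Polynomial ℂ →ₐ[ℂ] ℂ) P := by
      rw [Polynomial.coe_aeval_eq_eval]
    rw [h1, hP, ← AlgHom.comp_apply, MvPolynomial.comp_aeval]
    simp only [map_add, map_mul, Polynomial.aeval_C, Polynomial.aeval_X]
    rw [MvPolynomial.aeval_eq_eval]
    simp
  have hP0 : P ≠ 0 := by
    intro h0
    apply hw
    have := hPe 1
    rw [h0, Polynomial.eval_zero] at this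
    rw [this]
    congr 2
    funext i
    ring
  have hdense : Dense {t : ℂ | P.eval t ≠ 0} := by
    have hfin : Set.Finite {t : ℂ | P.eval t = 0} := by
      refine (P.roots.toFinset.finite_toSet).subset ?_
      intro t ht
      simp only [Finset.mem_coe, Multiset.mem_toFinset]
      exact (Polynomial.mem_roots hP0).2 ht
    have h5 := (dense_univ (X := ℂ)).sdiff_finite hfin
    convert h5 using 1
    ext t
    simp
  have h3 : (fun t : ℂ => f (fun i => z0 i + t * (w i - z0 i))) =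
      fun t : ℂ => g (fun i => z0 i + t * (w i - z0 i)) := by
    refine Continuous.ext_on hdense ?_ ?_ ?_
    · exact hf.comp (by fun_prop)
    · exact hg.comp (by fun_prop)
    · intro t ht
      exact h _ (by rw [← hPe]; exact ht)
  have h4 := congrFun h3 0
  simpa using h4

end Pool.Agent.H863R2.Cyl
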