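import Pool.Agent.H863R2.Cyl.Defs
import Pool.Agent.H974R2.Infinite

/-!
# From words to percolation on the even cylinder and on the plane: definitions

The lattice `ℤ²` rotated by 45 degrees: the lifted face `(j, r)` with `j + r ≡ M (mod 2)` is the
vertex `cv M j r`, the lifted plaquette `(j, r)` is the edge `ce M j r`; the cylinder of
circumference `2n` is the quotient by the translation by `(n, n)`.
-/

namespace Pool.Agent.H863R2.Cyl
open H974 (Vtx Edg Reach Adj Pr Arm arm boxE)

/-- the vertex of `ℤ²` at the (lifted) face `(j, r)`, `M` = middle level -/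
def cv (M : ℕ) (j : ℤ) (r : ℕ) : Vtx := ((j + ((r : ℤ) - M)) / 2, (j - ((r : ℤ) - M)) / 2)

/-- the edge of `ℤ²` at the (lifted) plaquette `(j, r)` -/
def ce (M : ℕ) (j : ℤ) (r : ℕ) : Edg :=
  if (j + r) % 2 = (M : ℤ) % 2 then ((j + ((r : ℤ) - M)) / 2, (j - ((r : ℤ) - M)) / 2, true)
  else ((j + ((r : ℤ) - M) + 1) / 2, (j - ((r : ℤ) - M) - 1) / 2, false)

/-- the representative in `[-n, n)` of a strand of the cylinder of circumference `2n` -/
def pw (n : ℕ) (j : Fin (2 * n - 1 + 1)) : ℤ := if (j.val : ℤ) < n then j.val else (j.val : ℤ) - 2 * n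

/-- the state of the plaquette `(j, r)` in the configuration `F` -/
def cp (n M : ℕ) (F : Finset Edg) (r : ℕ) (j : Fin (2 * n - 1 + 1)) : Bool :=
  if (pw n j + r) % 2 = (M : ℤ) % 2 then decide (ce M (pw n j) r ∉ F)
  else decide (ce M (pw n j) r ∈ F)

/-- the lower rows -/
def clo (n M : ℕ) (F : Finset Edg) : ℕ → Fin (2 * n - 1 + 1) → Bool := fun t => cp n M F t

/-- the upper rows, seen upside down -/
def cup (n M : ℕ) (F : Finset Edg) : ℕ → Fin (2 * n - 1 + 1) → Bool :=
  fun t j => !(cp n M F (2 * M - 1 - t) j)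

/-- the edges of a fundamental domain of the cylinder, levels `0 ≤ r < 2M` -/
noncomputable def SC (n M : ℕ) : Finset Edg :=
  (Finset.Ico (-(n : ℤ)) n ×ˢ Finset.range (2 * M)).image (fun p => ce M p.1 p.2)

/-- the periodic configuration -/
def Lft (n : ℕ) (F : Set Edg) : Set Edg := {e | ∃ k : ℤ, (e.1 + k * n, e.2.1 + k * n, e.2.2) ∈ F}

/-- the cluster of the origin contains a non-contractible circuit of the cylinder -/
def Wnd (n : ℕ) (F : Finset Edg) : Prop := Reach (Lft n ↑F) (0, 0) ((n : ℤ), (n : ℤ))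

end Pool.Agent.H863R2.Cyl
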