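import Pool.Agent.H863R2.Cyl.Stubs
import Pool.Agent.H863R2.Cyl.PDefs
import Pool.Agent.H974R3.Alt
import Pool.Agent.H974R3.Value
import Pool.Agent.H160R2.OA.Defs

/-!
# Blueprint, part 2: statements with `sorry`.  DO NOT import this file in final proofs.
Planar part (PL), special values of the determinants (V), the exponent (X).
-/

namespace Pool.Agent.H863R2.Cyl
open Pool.Agent.H988R2.Perc (Word PD)
open H974 (Vtx Edg Reach Adj Pr Arm arm boxE)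

/-! ## Module PL1 (file Pl1.lean, imports PDefs, Sem3, Sem4) -/

theorem arm_of_f_zero {f : Word → Word → ℕ} (hf : FSpec f) {n M r : ℕ} (hn : 1 ≤ n)
    (hr : 2 * r ≤ n) (hM : 2 * r ≤ M) {F : Finset Edg} (σ τ : Wd (2 * n - 1 + 1))
    (h : f (rows (2 * n - 1) (cup n M F) M τ).1 (rows (2 * n - 1) (clo n M F) M σ).1 = 0) :
    Arm r F := sorry

/-! ## Module PL2 (file Pl2.lean, imports PDefs, Sem3, Sem4) -/

theorem f_zero_of_wnd {f : Word → Word → ℕ} (hf : FSpec f) {n M : ℕ} (hn : 1 ≤ n)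
    {F : Finset Edg} (hF : F ⊆ SC n M) (σ τ : Wd (2 * n - 1 + 1)) (h : Wnd n F) :
    f (rows (2 * n - 1) (cup n M F) M τ).1 (rows (2 * n - 1) (clo n M F) M σ).1 = 0 := sorry

/-! ## Module PL3 (file Pl3.lean, imports PDefs, Sem3; port of H974R3.Box) -/

open Classical in
theorem cyl_prob (f : Word → Word → ℕ) {n M : ℕ} (hn : 1 ≤ n) (μ : Wd (2 * n - 1 + 1) → ℝ)
    (hst : ∀ σ, ∑ c : Fin (2 * n - 1 + 1) → Bool, push (Tc (2 * n - 1) c) μ σ
      = 2 ^ (2 * n - 1 + 1) * μ σ) :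
    ∑ σ, ∑ τ, μ σ * μ τ * Pr (fun _ => (1 / 2 : ℝ)) (SC n M) (fun F =>
        f (rows (2 * n - 1) (cup n M F) M τ).1 (rows (2 * n - 1) (clo n M F) M σ).1 = 0)
      = ∑ σ, ∑ τ, (if f σ.1 τ.1 = 0 then 1 else 0) * μ σ * μ τ := sorry

/-! ## Module PL5 (file Pl5.lean, imports PDefs): lower bound by RSW and FKG -/

theorem wnd_lower {k M : ℕ} (hk : 0 < k) (hM : 8 * k ≤ M) :
    (1 / 2 : ℝ) ^ 940 * arm (1 / 2) (4 * k) ≤
      Pr (fun _ => (1 / 2 : ℝ)) (SC (16 * k) M) (Wnd (16 * k)) := sorry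

/-! ## Module PL6 (file Pl6.lean, imports Pl1, Pl2, Pl3, Pl5, Value, FEx, Markov) -/

theorem oneArm_le_arm {n r : ℕ} (hn : 1 ≤ n) (hr : 2 * r ≤ n) : oneArm n ≤ arm (1 / 2) r := sorry
theorem arm_le_oneArm {k : ℕ} (hk : 0 < k) :
    (1 / 2 : ℝ) ^ 940 * arm (1 / 2) (4 * k) ≤ oneArm (16 * k) := sorry

/-! ## Module V1 (file Val1.lean, imports H974R3.Alt): the value at `t = -1` -/

theorem gspec_minus {q : ℂ} (hq : q ^ 2 + q + 1 = 0) {g1 : List ℂ → ℂ}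
    (h1 : Pool.Agent.H974R3.GSpec q 1 g1) :
    GSpec q (-1) (fun z => (1 / 3) ^ (z.length / 2) * g1 (z ++ z)) := sorry

/-! ## Module V2 (file Val2.lean, imports H974R3.Alt): the value at `t = 1` -/

theorem gspec_plus (q : ℂ) (hq : q ^ 2 + q + 1 = 0) :
    ∃ G : List ℂ → ℂ, GSpec q 1 G ∧ ∀ N : ℕ, G (List.replicate N 1) =
      ((Pool.Agent.H974R3.Dval 1 N * Pool.Agent.H974R3.Dval 2 N : ℝ) : ℂ) ^ 2 := sorry

/-! ## Module V3 (file Val3.lean, imports Val1, Val2, GOnes, H974R3.Alt, H974R3.Value) -/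

/-- the value `A_{2n} / A_HT(2n)^2` -/
noncomputable def pvalE (n : ℕ) : ℝ :=
  Pool.Agent.H974R3.Dval 1 (4 * n) /
    (3 ^ n * (Pool.Agent.H974R3.Dval 1 (2 * n) * Pool.Agent.H974R3.Dval 2 (2 * n)) ^ 2)

theorem det_third (n : ℕ) :
    ‖(pas (Complex.exp (Real.pi / 3 * Complex.I)) (2 * n)).det‖ * 3 ^ (2 * n * (n - 1)) =
      (Pool.Agent.H974R3.Dval 1 (2 * n) * Pool.Agent.H974R3.Dval 2 (2 * n)) ^ 2 := sorry
theorem det_two_thirds (n : ℕ) :
    ‖(pas (Complex.exp (2 * Real.pi / 3 * Complex.I)) (2 * n)).det‖ * 3 ^ (2 * n * (n - 1)) * 3 ^ n =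
      Pool.Agent.H974R3.Dval 1 (4 * n) := sorry

/-! ## Module V4 (file Val4.lean, imports H974R3.Value, H974R3.Homog) -/

/-- `P(2n) ≥ P(2n-1)/2` -/
theorem pvalE_lower {n : ℕ} (hn : 1 ≤ n) : 1 / 2 * Pool.Agent.H974R3.pval (n - 1) ≤ pvalE n := sorry
theorem pval_pow (n : ℕ) : 1 ≤ Pool.Agent.H974R3.pval n ^ 4 * (2 * (n : ℝ) + 1) := sorry

/-! ## Module X (file Expo.lean, imports Val3, Val4, Value, Pl6, H160R2.OA.Final) -/

theorem oneArm_asymp :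
    Filter.Tendsto (fun n : ℕ => Real.log (oneArm n) / Real.log n) Filter.atTop
      (nhds (-(5 / 48))) := sorry

theorem arm_asymp :
    Filter.Tendsto (fun n : ℕ => Real.log (arm (1 / 2) n) / Real.log n) Filter.atTop
      (nhds (-(5 / 48))) := sorry

end Pool.Agent.H863R2.Cyl
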