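import Pool.Agent.H863R2.Cyl.PDefs
import Pool.Agent.H863R2.Cyl.Sem3
import Pool.Agent.H863R2.Cyl.Sem4

/-!
# Module PL2: a winding cluster of the origin kills the loops around the face
-/

namespace Pool.Agent.H863R2.Cyl
open Pool.Agent.H988R2.Perc (Word PD)
open H974 (Vtx Edg Reach Adj Pr Arm arm boxE)

namespace Pl2Aux

/-- the representative in `[-n, n)` -/
theorem pw_rep {n : ℕ} (hn : 1 ≤ n) {j' : ℤ} (h1 : -(n : ℤ) ≤ j') (h2 : j' < n) (k : ℤ) :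
    pw n (ix (2 * n - 1) ((j' - 2 * (k * n)) % (((2 * n - 1 : ℕ) : ℤ) + 1)).toNat) = j' := by
  have hm : (((2 * n - 1 : ℕ) : ℤ) + 1) = 2 * n := by omega
  rw [hm]
  have h3 : (j' - 2 * (k * n)) % (2 * (n : ℤ)) = j' % (2 * n) := by
    have : j' - 2 * (k * n) = j' + (2 * n) * (-k) := by ring
    rw [this, Int.add_mul_emod_self_left]
  rw [h3]
  have h4 : 0 ≤ j' % (2 * (n : ℤ)) := Int.emod_nonneg _ (by omega)
  have h5 : j' % (2 * (n : ℤ)) < 2 * n := Int.emod_lt_of_pos _ (by omega)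
  have h6 : ((ix (2 * n - 1) (j' % (2 * (n : ℤ))).toNat).val : ℤ) = j' % (2 * n) := by
    unfold ix
    simp only
    rw [Nat.mod_eq_of_lt (by omega)]
    exact Int.toNat_of_nonneg h4
  unfold pw
  rw [h6]
  by_cases h0 : 0 ≤ j'
  · have h7 : j' % (2 * (n : ℤ)) = j' := Int.emod_eq_of_lt h0 (by omega)
    rw [h7, if_pos h2]
  · have h7 : j' % (2 * (n : ℤ)) = j' + 2 * n := by
      have : j' % (2 * (n : ℤ)) = (j' + 2 * n) % (2 * n) := by rw [Int.add_emod_right]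
      rw [this]
      exact Int.emod_eq_of_lt (by omega) (by omega)
    rw [h7, if_neg (by omega)]
    ring

/-- the state of a plaquette whose edge is in `F`, first kind -/
theorem cp_first {n M : ℕ} (hn : 1 ≤ n) {F : Finset Edg} {j' : ℤ} {r : ℕ} (h1 : -(n : ℤ) ≤ j')
    (h2 : j' < n) (hF : ce M j' r ∈ F) (hp : (j' + r) % 2 = (M : ℤ) % 2) (k : ℤ) :
    cl (cp n M F r) (j' - 2 * (k * n)) = false := by
  unfold cl cp
  rw [pw_rep hn h1 h2 k, if_pos hp]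
  simpa using hF

theorem cp_second {n M : ℕ} (hn : 1 ≤ n) {F : Finset Edg} {j' : ℤ} {r : ℕ} (h1 : -(n : ℤ) ≤ j')
    (h2 : j' < n) (hF : ce M j' r ∈ F) (hp : ¬ (j' + r) % 2 = (M : ℤ) % 2) (k : ℤ) :
    cl (cp n M F r) (j' - 2 * (k * n)) = true := by
  unfold cl cp
  rw [pw_rep hn h1 h2 k, if_neg hp]
  simpa using hF

/-- the position of an edge of the lifted configuration -/
theorem edge_pos {n M : ℕ} (hn : 1 ≤ n) {F : Finset Edg} (hF : F ⊆ SC n M) {u v : Vtx}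
    (h : ∃ e ∈ Lft n (↑F : Set Edg), H974.src e = u ∧ H974.tgt e = v) :
    ∃ (j : ℤ) (r : ℕ), r < 2 * M ∧
      ((u.1 + u.2 = j ∧ (M : ℤ) + u.1 - u.2 = r ∧ v.1 + v.2 = j + 1 ∧ (M : ℤ) + v.1 - v.2 = r + 1 ∧
        cl (cp n M F r) j = false) ∨
       (u.1 + u.2 = j ∧ (M : ℤ) + u.1 - u.2 = r + 1 ∧ v.1 + v.2 = j + 1 ∧ (M : ℤ) + v.1 - v.2 = r ∧
        cl (cp n M F r) j = true)) := by
  obtain ⟨e, ⟨k, hk⟩, hu, hv⟩ := h
  have h1 := hF hk
  unfold SC at h1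
  rw [Finset.mem_image] at h1
  obtain ⟨⟨j', r⟩, hp, he⟩ := h1
  rw [Finset.mem_product, Finset.mem_Ico, Finset.mem_range] at hp
  simp only at hp he
  obtain ⟨⟨hj1, hj2⟩, hr⟩ := hp
  have hFm : ce M j' r ∈ F := by rw [he]; exact hk
  refine ⟨j' - 2 * (k * n), r, hr, ?_⟩
  by_cases hpar : (j' + r) % 2 = (M : ℤ) % 2
  · left
    have h2 := cp_first hn hj1 hj2 hFm hpar k
    unfold ce at he
    rw [if_pos hpar] at he
    have e1 := congrArg Prod.fst he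
    have e2 := congrArg (fun x => x.2.1) he
    have e3 := congrArg (fun x => x.2.2) he
    simp only at e1 e2 e3
    unfold H974.src at hu
    unfold H974.tgt at hv
    rw [if_pos e3.symm] at hv
    subst hu hv
    simp only
    refine ⟨?_, ?_, ?_, ?_, h2⟩ <;> omega
  · right
    have h2 := cp_second hn hj1 hj2 hFm hpar k
    unfold ce at he
    rw [if_neg hpar] at he
    have e1 := congrArg Prod.fst he
    have e2 := congrArg (fun x => x.2.1) he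
    have e3 := congrArg (fun x => x.2.2) he
    simp only at e1 e2 e3
    unfold H974.src at hu
    unfold H974.tgt at hv
    rw [if_neg (by rw [← e3]; simp)] at hv
    subst hu hv
    simp only
    refine ⟨?_, ?_, ?_, ?_, h2⟩ <;> omega

/-- an edge of the lifted configuration is a link of the lower or of the upper graph -/
theorem edge_link {n M : ℕ} (hn : 1 ≤ n) {F : Finset Edg} (hF : F ⊆ SC n M)
    (w w' : Word) {u v : Vtx}
    (h : ∃ e ∈ Lft n (↑F : Set Edg), H974.src e = u ∧ H974.tgt e = v) :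
    (∃ s t : ℕ, s ≤ M ∧ t ≤ M ∧ (M : ℤ) + u.1 - u.2 = s ∧ (M : ℤ) + v.1 - v.2 = t ∧
      Relation.EqvGen (Lk (2 * n - 1) (clo n M F) M w) (u.1 + u.2, s) (v.1 + v.2, t)) ∨
    (∃ s t : ℕ, s ≤ M ∧ t ≤ M ∧ (M : ℤ) + u.1 - u.2 = 2 * M - s ∧
      (M : ℤ) + v.1 - v.2 = 2 * M - t ∧
      Relation.EqvGen (Lk (2 * n - 1) (cup n M F) M w') (u.1 + u.2, s) (v.1 + v.2, t)) := by
  obtain ⟨j, r, hr, h⟩ := edge_pos hn hF h
  rcases lt_or_ge r M with hrM | hrM
  · left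
    rcases h with ⟨h1, h2, h3, h4, h5⟩ | ⟨h1, h2, h3, h4, h5⟩
    · refine ⟨r, r + 1, hrM.le, hrM, h2, by push_cast; exact h4, ?_⟩
      rw [h1, h3]
      exact Relation.EqvGen.rel _ _ (Lk.link0 j r hrM h5)
    · refine ⟨r + 1, r, hrM, hrM.le, by push_cast; exact h2, h4, ?_⟩
      rw [h1, h3]
      exact Relation.EqvGen.symm _ _ (Relation.EqvGen.rel _ _ (Lk.link1 j r hrM h5))
  · right
    set t := 2 * M - 1 - r with ht
    have htM : t < M := by omega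
    have hcup : ∀ b : Bool, cl (cp n M F r) j = b → cl (cup n M F t) j = !b := by
      intro b hb
      unfold cl cup at *
      have : 2 * M - 1 - t = r := by omega
      rw [this, hb]
    rcases h with ⟨h1, h2, h3, h4, h5⟩ | ⟨h1, h2, h3, h4, h5⟩
    · refine ⟨t + 1, t, htM, htM.le, by push_cast; omega, by omega, ?_⟩
      rw [h1, h3]
      exact Relation.EqvGen.symm _ _ (Relation.EqvGen.rel _ _ (Lk.link1 j t htM (hcup _ h5)))
    · refine ⟨t, t + 1, htM.le, htM, by omega, by push_cast; omega, ?_⟩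
      rw [h1, h3]
      exact Relation.EqvGen.rel _ _ (Lk.link0 j t htM (hcup _ h5))

/-- the gluing argument: `A` and `B` are the two half graphs -/
theorem glue {M : ℕ} {A B : ℤ × ℕ → ℤ × ℕ → Prop} {R : ℤ → ℤ → Prop}
    (hA : ∀ a b, Relation.EqvGen A (a, M) (b, M) → R a b)
    (hB : ∀ a b, Relation.EqvGen B (a, M) (b, M) → R a b)
    {Ad : Vtx → Vtx → Prop}
    (hs : ∀ u v, Ad u v →
      (∃ s t : ℕ, s ≤ M ∧ t ≤ M ∧ (M : ℤ) + u.1 - u.2 = s ∧ (M : ℤ) + v.1 - v.2 = t ∧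
        Relation.EqvGen A (u.1 + u.2, s) (v.1 + v.2, t)) ∨
      (∃ s t : ℕ, s ≤ M ∧ t ≤ M ∧ (M : ℤ) + u.1 - u.2 = 2 * M - s ∧
        (M : ℤ) + v.1 - v.2 = 2 * M - t ∧
        Relation.EqvGen B (u.1 + u.2, s) (v.1 + v.2, t))) {v : Vtx}
    (h : Relation.ReflTransGen Ad (0, 0) v) :
    (∃ t : ℕ, t ≤ M ∧ (M : ℤ) + v.1 - v.2 = t ∧ ∃ m, Relation.EqvGen R 0 m ∧
      Relation.EqvGen A (m, M) (v.1 + v.2, t)) ∨
    (∃ t : ℕ, t ≤ M ∧ (M : ℤ) + v.1 - v.2 = 2 * M - t ∧ ∃ m, Relation.EqvGen R 0 m ∧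
      Relation.EqvGen B (m, M) (v.1 + v.2, t)) := by
  induction h with
  | refl =>
    left
    refine ⟨M, le_rfl, by simp, 0, Relation.EqvGen.refl _, ?_⟩
    simpa using Relation.EqvGen.refl (r := A) ((0 : ℤ), M)
  | @tail u v _ huv ih =>
    rcases hs u v huv with ⟨s, t, hsM, htM, hu, hv, hst⟩ | ⟨s, t, hsM, htM, hu, hv, hst⟩
    · left
      refine ⟨t, htM, hv, ?_⟩
      rcases ih with ⟨s', hs', hu', m, hm, hm'⟩ | ⟨s', hs', hu', m, hm, hm'⟩
      · have : s' = s := by omega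
        subst this
        exact ⟨m, hm, hm'.trans _ _ _ hst⟩
      · have e1 : s' = M := by omega
        have e2 : s = M := by omega
        subst e1
        rw [e2] at hst
        exact ⟨u.1 + u.2, hm.trans _ _ _ (Relation.EqvGen.rel _ _ (hB _ _ hm')), hst⟩
    · right
      refine ⟨t, htM, hv, ?_⟩
      rcases ih with ⟨s', hs', hu', m, hm, hm'⟩ | ⟨s', hs', hu', m, hm, hm'⟩
      · have e1 : s' = M := by omega
        have e2 : s = M := by omega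
        subst e1
        rw [e2] at hst
        exact ⟨u.1 + u.2, hm.trans _ _ _ (Relation.EqvGen.rel _ _ (hA _ _ hm')), hst⟩
      · have : s' = s := by omega
        subst this
        exact ⟨m, hm, hm'.trans _ _ _ hst⟩

end Pl2Aux

theorem f_zero_of_wnd {f : Word → Word → ℕ} (hf : FSpec f) {n M : ℕ} (hn : 1 ≤ n)
    {F : Finset Edg} (hF : F ⊆ SC n M) (σ τ : Wd (2 * n - 1 + 1)) (h : Wnd n F) :
    f (rows (2 * n - 1) (cup n M F) M τ).1 (rows (2 * n - 1) (clo n M F) M σ).1 = 0 := by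
  have hm : 1 ≤ 2 * n - 1 := by omega
  have hN : 2 * n - 1 + 1 = 2 * n := by omega
  set w' := (rows (2 * n - 1) (cup n M F) M τ) with hw'
  set w := (rows (2 * n - 1) (clo n M F) M σ) with hw
  rw [f_zero_iff hf (n := n) w'.2.2 w.2.2 (w'.2.1.trans hN) (w.2.1.trans hN)]
  have hA : ∀ a b, Relation.EqvGen (Lk (2 * n - 1) (clo n M F) M σ.1) (a, M) (b, M) →
      (Rw w'.1 a b ∨ Rw w.1 a b) := fun a b hab =>
    Or.inr ((Rw_rows (2 * n - 1) hm (clo n M F) M σ a b).2 hab)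
  have hB : ∀ a b, Relation.EqvGen (Lk (2 * n - 1) (cup n M F) M τ.1) (a, M) (b, M) →
      (Rw w'.1 a b ∨ Rw w.1 a b) := fun a b hab =>
    Or.inl ((Rw_rows (2 * n - 1) hm (cup n M F) M τ a b).2 hab)
  have hs : ∀ u v, Adj (Lft n (↑F : Set Edg)) u v →
      (∃ s t : ℕ, s ≤ M ∧ t ≤ M ∧ (M : ℤ) + u.1 - u.2 = s ∧ (M : ℤ) + v.1 - v.2 = t ∧
        Relation.EqvGen (Lk (2 * n - 1) (clo n M F) M σ.1) (u.1 + u.2, s) (v.1 + v.2, t)) ∨
      (∃ s t : ℕ, s ≤ M ∧ t ≤ M ∧ (M : ℤ) + u.1 - u.2 = 2 * M - s ∧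
        (M : ℤ) + v.1 - v.2 = 2 * M - t ∧
        Relation.EqvGen (Lk (2 * n - 1) (cup n M F) M τ.1) (u.1 + u.2, s) (v.1 + v.2, t)) := by
    rintro u v ⟨e, he, h1 | h1⟩
    · exact Pl2Aux.edge_link hn hF _ _ ⟨e, he, h1⟩
    · rcases Pl2Aux.edge_link hn hF σ.1 τ.1 ⟨e, he, h1⟩ with
        ⟨s, t, h2, h3, h4, h5, h6⟩ | ⟨s, t, h2, h3, h4, h5, h6⟩
      · exact Or.inl ⟨t, s, h3, h2, h5, h4, h6.symm⟩
      · exact Or.inr ⟨t, s, h3, h2, h5, h4, h6.symm⟩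
  rcases Pl2Aux.glue hA hB hs h with ⟨t, ht, h1, m, hm1, hm2⟩ | ⟨t, ht, h1, m, hm1, hm2⟩
  · simp only at h1 hm2
    have e1 : t = M := by omega
    have e2 : (n : ℤ) + n = 2 * n := by ring
    rw [e1, e2] at hm2
    exact hm1.trans _ _ _ (Relation.EqvGen.rel _ _ (hA _ _ hm2))
  · simp only at h1 hm2
    have e1 : t = M := by omega
    have e2 : (n : ℤ) + n = 2 * n := by ring
    rw [e1, e2] at hm2
    exact hm1.trans _ _ _ (Relation.EqvGen.rel _ _ (hB _ _ hm2))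

end Pool.Agent.H863R2.Cyl
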