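import Pool.Agent.H863R2.Cyl.PDefs

/-!
# Module PL5: the cluster of the origin winds around the cylinder (lower bound by RSW and FKG)
-/

set_option autoImplicit false

namespace Pool.Agent.H863R2.Cyl
open H974 (Vtx Edg Reach Adj Pr Arm arm boxE)

namespace Pl5Aux
open H974 Finset

/-! ### The fundamental domain -/

theorem mem_SC_true {n M : ℕ} {x y : ℤ} :
    ((x, y, true) : Edg) ∈ SC n M ↔
      (-(n : ℤ) ≤ x + y ∧ x + y < n) ∧ (-(M : ℤ) ≤ x - y ∧ x - y < M) := by
  unfold SC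
  simp only [Finset.mem_image, Finset.mem_product, Finset.mem_Ico, Finset.mem_range, Prod.exists]
  constructor
  · rintro ⟨j, r, ⟨⟨h1, h2⟩, h3⟩, h4⟩
    unfold ce at h4
    split_ifs at h4 with h5
    · simp only [Prod.mk.injEq, and_true] at h4
      omega
    · simp at h4
  · rintro ⟨⟨h1, h2⟩, h3, h4⟩
    refine ⟨x + y, (M + (x - y)).toNat, ⟨⟨h1, h2⟩, by omega⟩, ?_⟩
    have e : (((M + (x - y)).toNat : ℕ) : ℤ) = M + (x - y) := Int.toNat_of_nonneg (by omega)
    unfold ce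
    rw [e, if_pos (by omega)]
    simp only [Prod.mk.injEq, and_true]
    omega

theorem mem_SC_false {n M : ℕ} {x y : ℤ} :
    ((x, y, false) : Edg) ∈ SC n M ↔
      (-(n : ℤ) ≤ x + y ∧ x + y < n) ∧ (-(M : ℤ) ≤ x - y - 1 ∧ x - y - 1 < M) := by
  unfold SC
  simp only [Finset.mem_image, Finset.mem_product, Finset.mem_Ico, Finset.mem_range, Prod.exists]
  constructor
  · rintro ⟨j, r, ⟨⟨h1, h2⟩, h3⟩, h4⟩
    unfold ce at h4
    split_ifs at h4 with h5
    · simp at h4
    · simp only [Prod.mk.injEq, and_true] at h4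
      omega
  · rintro ⟨⟨h1, h2⟩, h3, h4⟩
    refine ⟨x + y, (M + (x - y - 1)).toNat, ⟨⟨h1, h2⟩, by omega⟩, ?_⟩
    have e : (((M + (x - y - 1)).toNat : ℕ) : ℤ) = M + (x - y - 1) :=
      Int.toNat_of_nonneg (by omega)
    unfold ce
    rw [e, if_neg (by omega)]
    simp only [Prod.mk.injEq, and_true]
    omega

/-- the representative of an edge modulo the period -/
def red (n : ℕ) (e : Edg) : Edg :=
  (e.1 - (e.1 + e.2.1 + n) / (2 * n) * n, e.2.1 - (e.1 + e.2.1 + n) / (2 * n) * n, e.2.2)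

theorem red_spec {n : ℕ} (hn : 0 < n) (e : Edg) :
    -(n : ℤ) ≤ (red n e).1 + (red n e).2.1 ∧ (red n e).1 + (red n e).2.1 < n := by
  unfold red
  simp only
  have h1 := Int.emod_add_mul_ediv (e.1 + e.2.1 + n) (2 * n)
  have h2 := Int.emod_nonneg (e.1 + e.2.1 + n) (b := 2 * (n : ℤ)) (by omega)
  have h3 := Int.emod_lt_of_pos (e.1 + e.2.1 + n) (b := 2 * (n : ℤ)) (by omega)
  constructor <;> nlinarith

theorem mem_Lft_iff {n M : ℕ} (hn : 0 < n) {F : Finset Edg} (hF : F ⊆ SC n M) (e : Edg) :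
    e ∈ Lft n (↑F : Set Edg) ↔ red n e ∈ F := by
  constructor
  · rintro ⟨m, hm⟩
    have hm' : (e.1 + m * n, e.2.1 + m * n, e.2.2) ∈ F := hm
    have h1 : -(n : ℤ) ≤ (e.1 + m * n) + (e.2.1 + m * n) ∧
        (e.1 + m * n) + (e.2.1 + m * n) < n := by
      have := hF hm'
      rcases hb : e.2.2 with _ | _
      · rw [hb, mem_SC_false] at this; exact this.1
      · rw [hb, mem_SC_true] at this; exact this.1
    have h2 := red_spec hn e
    unfold red at h2 ⊢
    simp only at h2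
    set w := (e.1 + e.2.1 + n) / (2 * n) with hw
    have hnZ : (0 : ℤ) < n := by exact_mod_cast hn
    have h3 : m = -w := by
      have h4 : (m + w) * (2 * n) < 2 * n := by nlinarith
      have h5 : -(2 * (n : ℤ)) < (m + w) * (2 * n) := by nlinarith
      have h6 : m + w < 1 := by
        by_contra hcon
        push Not at hcon
        nlinarith
      have h7 : -1 < m + w := by
        by_contra hcon
        push Not at hcon
        nlinarith
      omega
    rw [h3] at hm'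
    have e1 : e.1 - w * n = e.1 + -w * n := by ring
    have e2 : e.2.1 - w * n = e.2.1 + -w * n := by ring
    rw [e1, e2]
    exact hm'
  · intro h
    refine ⟨-((e.1 + e.2.1 + n) / (2 * n)), ?_⟩
    unfold red at h
    have e1 : e.1 + -((e.1 + e.2.1 + n) / (2 * n)) * n
        = e.1 - (e.1 + e.2.1 + n) / (2 * n) * n := by ring
    have e2 : e.2.1 + -((e.1 + e.2.1 + n) / (2 * n)) * n
        = e.2.1 - (e.1 + e.2.1 + n) / (2 * n) * n := by ring
    rw [e1, e2]
    exact h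

theorem red_eq_self {n : ℕ} (hn : 0 < n) {e : Edg} (h1 : -(n : ℤ) ≤ e.1 + e.2.1)
    (h2 : e.1 + e.2.1 < n) : red n e = e := by
  have h : (e.1 + e.2.1 + n) / (2 * n) = 0 :=
    Int.ediv_eq_zero_of_lt (by omega) (by omega)
  unfold red
  rw [h]
  simp

theorem subset_Lft (n : ℕ) (F : Set Edg) : F ⊆ Lft n F := by
  intro e he
  refine ⟨0, ?_⟩
  simpa using he

theorem Lft_shift (n : ℕ) (F : Set Edg) (m : ℤ) :
    (trl (m * n) (m * n)).φ '' (Lft n F) ⊆ Lft n F := by
  rintro e ⟨e', ⟨l, hl⟩, rfl⟩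
  refine ⟨l - m, ?_⟩
  change (e'.1 + m * n + (l - m) * n, e'.2.1 + m * n + (l - m) * n, e'.2.2) ∈ F
  have e1 : e'.1 + m * n + (l - m) * n = e'.1 + l * n := by ring
  have e2 : e'.2.1 + m * n + (l - m) * n = e'.2.1 + l * n := by ring
  rw [e1, e2]
  exact hl

/-! ### Probabilities -/

theorem Ex_image {E E' : Type*} [DecidableEq E] [DecidableEq E'] (q : ℝ) (T : Finset E)
    (r : E → E') (hr : Set.InjOn r T) (f : Finset E' → ℝ) :
    Ex (fun _ => q) (T.image r) f = Ex (fun _ => q) T (fun F => f (F.image r)) := by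
  induction T using Finset.induction_on generalizing f with
  | empty => simp [Ex_empty]
  | insert a T ha ih =>
    rw [Finset.coe_insert, Set.injOn_insert (by simpa using ha)] at hr
    have h1 : r a ∉ T.image r := by
      rw [← Finset.mem_coe, Finset.coe_image]; exact hr.2
    rw [Finset.image_insert, Ex_insert _ h1, Ex_insert _ ha, ih hr.1, ih hr.1]
    simp only [Finset.image_insert]

open Classical in
/-- the periodic configuration inside `T` -/
noncomputable def cut (n : ℕ) (T F : Finset Edg) : Finset Edg :=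
  T.filter (fun e => e ∈ Lft n (↑F : Set Edg))

theorem mem_cut {n : ℕ} {T F : Finset Edg} {e : Edg} :
    e ∈ cut n T F ↔ e ∈ T ∧ e ∈ Lft n (↑F : Set Edg) := by
  classical
  unfold cut
  rw [Finset.mem_filter]

theorem cut_mono {n : ℕ} {T F G : Finset Edg} (h : F ⊆ G) : cut n T F ⊆ cut n T G := by
  intro e he
  rw [mem_cut] at he ⊢
  obtain ⟨h1, l, hl⟩ := he
  exact ⟨h1, l, by exact_mod_cast h (by exact_mod_cast hl)⟩

theorem pr_cut {n M : ℕ} (hn : 0 < n) (q : ℝ) (T : Finset Edg)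
    (hT : ∀ e ∈ T, red n e ∈ SC n M) (hinj : Set.InjOn (red n) (T : Set Edg))
    (A : Finset Edg → Prop) :
    Pr (fun _ => q) (SC n M) (fun F => A (cut n T F)) = Pr (fun _ => q) T A := by
  have hS' : T.image (red n) ⊆ SC n M := by
    intro e he
    obtain ⟨e', he', rfl⟩ := Finset.mem_image.1 he
    exact hT e' he'
  have h1 : Pr (fun _ => q) (SC n M) (fun F => A (cut n T F))
      = Pr (fun _ => q) (T.image (red n)) (fun F => A (cut n T F)) := by
    apply Pr_local hS'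
    intro F hF
    have : cut n T F = cut n T (F ∩ T.image (red n)) := by
      ext e
      rw [mem_cut, mem_cut, mem_Lft_iff hn hF, mem_Lft_iff hn (Finset.inter_subset_left.trans hF),
        Finset.mem_inter]
      constructor
      · rintro ⟨h2, h3⟩; exact ⟨h2, h3, Finset.mem_image_of_mem _ h2⟩
      · rintro ⟨h2, h3, _⟩; exact ⟨h2, h3⟩
    rw [this]
  rw [h1]
  unfold Pr
  rw [Ex_image q T (red n) hinj]
  apply Ex_congr
  intro F hF
  have : cut n T (F.image (red n)) = F := by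
    have hFS : F.image (red n) ⊆ SC n M := (Finset.image_subset_image hF).trans hS'
    ext e
    rw [mem_cut, mem_Lft_iff hn hFS, Finset.mem_image]
    constructor
    · rintro ⟨h2, e', he', h3⟩
      have := hinj (hF he') h2 h3
      rw [← this]; exact he'
    · intro h2
      exact ⟨hF h2, e, h2, rfl⟩
  change ind (A (cut n T (F.image (red n)))) = ind (A F)
  rw [this]

theorem red_injOn {n : ℕ} (hn : 0 < n) (T : Finset Edg) (c : ℤ)
    (h : ∀ e ∈ T, c ≤ e.1 + e.2.1 ∧ e.1 + e.2.1 < c + 2 * n) : Set.InjOn (red n) (T : Set Edg) := by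
  rintro ⟨x, y, b⟩ he ⟨x', y', b'⟩ he' heq
  have h1 := h _ he
  have h2 := h _ he'
  unfold red at heq
  simp only [Prod.mk.injEq] at heq h1 h2
  set w := (x + y + n) / (2 * n)
  set w' := (x' + y' + n) / (2 * n)
  have hnZ : (0 : ℤ) < n := by exact_mod_cast hn
  have h4 : (w - w') * (2 * n) < 2 * n := by nlinarith
  have h5 : -(2 * (n : ℤ)) < (w - w') * (2 * n) := by nlinarith
  have h6 : w - w' < 1 := by
    by_contra hcon
    push Not at hcon
    nlinarith
  have h7 : -1 < w - w' := by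
    by_contra hcon
    push Not at hcon
    nlinarith
  have h8 : w = w' := by omega
  rw [h8] at heq
  simp only [Prod.mk.injEq]
  refine ⟨by linarith [heq.1], by linarith [heq.2.1], heq.2.2⟩

theorem red_mem_SC {n M : ℕ} (hn : 0 < n) (T : Finset Edg)
    (h1 : ∀ x y : ℤ, ((x, y, true) : Edg) ∈ T → -(M : ℤ) ≤ x - y ∧ x - y < M)
    (h2 : ∀ x y : ℤ, ((x, y, false) : Edg) ∈ T → -(M : ℤ) ≤ x - y - 1 ∧ x - y - 1 < M) :
    ∀ e ∈ T, red n e ∈ SC n M := by
  rintro ⟨x, y, _ | _⟩ he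
  · have h3 := red_spec hn (x, y, false)
    have h4 := h2 x y he
    unfold red at h3 ⊢
    simp only at h3 ⊢
    rw [mem_SC_false]
    exact ⟨h3, by constructor <;> linarith [h4.1, h4.2]⟩
  · have h3 := red_spec hn (x, y, true)
    have h4 := h1 x y he
    unfold red at h3 ⊢
    simp only at h3 ⊢
    rw [mem_SC_true]
    exact ⟨h3, by constructor <;> linarith [h4.1, h4.2]⟩

/-- Harris' inequality for several events -/
theorem harris_range {S : Finset Edg} {q c : ℝ} (h0 : 0 ≤ q) (h1 : q ≤ 1) (hc : 0 ≤ c)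
    (A : ℕ → Finset Edg → Prop) (hA : ∀ i, IncrE S (A i)) (m : ℕ)
    (hP : ∀ i < m, c ≤ Pr (fun _ => q) S (A i)) :
    c ^ m ≤ Pr (fun _ => q) S (fun F => ∀ i < m, A i F) := by
  induction m with
  | zero =>
    rw [pow_zero, Pr_true]
    intro F _ i hi
    omega
  | succ m ih =>
    have h2 := ih (fun i hi => hP i (by omega))
    have h3 := hP m (by omega)
    have h4 := Pr_harris (okq h0 h1) (S := S) (A := fun F => ∀ i < m, A i F) (B := A m)
      (fun F G h5 h6 h7 i hi => hA i F G h5 h6 (h7 i hi)) (hA m)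
    have h5 : Pr (fun _ => q) S (fun F => (∀ i < m, A i F) ∧ A m F)
        = Pr (fun _ => q) S (fun F => ∀ i < m + 1, A i F) := by
      apply Pr_congr
      intro F _
      constructor
      · rintro ⟨h6, h7⟩ i hi
        rcases Nat.lt_or_ge i m with h8 | h8
        · exact h6 i h8
        · have : i = m := by omega
          rw [this]; exact h7
      · intro h6
        exact ⟨fun i hi => h6 i (by omega), h6 m (by omega)⟩
    rw [h5] at h4
    calc c ^ (m + 1) = c ^ m * c := pow_succ c m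
      _ ≤ _ := mul_le_mul h2 h3 hc ((pow_nonneg hc m).trans h2)
      _ ≤ _ := h4

/-! ### The events -/

/-- horizontal crossing number `i` -/
def HR (n k i : ℕ) (F : Finset Edg) : Prop :=
  LRc (2 * k * i - 2 * k) (2 * k * i + 4 * k) (2 * k * i) (2 * k * i + 2 * k)
    (cut n (LRE (2 * k * i - 2 * k) (2 * k * i + 4 * k) (2 * k * i) (2 * k * i + 2 * k)) F)

/-- vertical crossing number `i` -/
def VR (n k i : ℕ) (F : Finset Edg) : Prop :=
  TBc (2 * k * i) (2 * k * i + 2 * k) (2 * k * i - 2 * k) (2 * k * i + 4 * k)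
    (cut n (TBE (2 * k * i) (2 * k * i + 2 * k) (2 * k * i - 2 * k) (2 * k * i + 4 * k)) F)

theorem HR_incr (S : Finset Edg) (n k i : ℕ) : IncrE S (HR n k i) :=
  fun _ _ h _ hF => LRc.mono (cut_mono h) hF

theorem VR_incr (S : Finset Edg) (n k i : ℕ) : IncrE S (VR n k i) :=
  fun _ _ h _ hF => TBc.mono (cut_mono h) hF

theorem pr_HR {k M : ℕ} (hk : 0 < k) (hM : 8 * k ≤ M) (i : ℕ) :
    (1 / 2 : ℝ) ^ 47 ≤ Pr (fun _ => (1 / 2 : ℝ)) (SC (16 * k) M) (HR (16 * k) k i) := by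
  have hn : 0 < 16 * k := by omega
  unfold HR
  set t : ℤ := 2 * k * i with ht
  clear_value t
  rw [pr_cut hn (1 / 2) (LRE (t - 2 * k) (t + 4 * k) t (t + 2 * k)) ?_ ?_
    (LRc (t - 2 * k) (t + 4 * k) t (t + 2 * k)), pr_LRc (1 / 2) (Finset.Subset.refl _)]
  · have hk' : (0 : ℤ) < k := by exact_mod_cast hk
    exact rsw (n := k) hk' (by omega) (by omega) (by omega)
  · apply red_mem_SC hn
    · intro x y h
      rw [mem_LRE_true] at h
      omega
    · intro x y h
      rw [mem_LRE_false] at h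
      omega
  · apply red_injOn hn _ (2 * t - 2 * k)
    rintro ⟨x, y, _ | _⟩ h
    · rw [mem_LRE_false] at h
      push_cast
      omega
    · rw [mem_LRE_true] at h
      push_cast
      omega

theorem pr_VR {k M : ℕ} (hk : 0 < k) (hM : 8 * k ≤ M) (i : ℕ) :
    (1 / 2 : ℝ) ^ 47 ≤ Pr (fun _ => (1 / 2 : ℝ)) (SC (16 * k) M) (VR (16 * k) k i) := by
  have hn : 0 < 16 * k := by omega
  unfold VR
  set t : ℤ := 2 * k * i with ht
  clear_value t
  rw [pr_cut hn (1 / 2) (TBE t (t + 2 * k) (t - 2 * k) (t + 4 * k)) ?_ ?_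
    (TBc t (t + 2 * k) (t - 2 * k) (t + 4 * k)), pr_TBc (1 / 2) (Finset.Subset.refl _)]
  · have hk' : (0 : ℤ) < k := by exact_mod_cast hk
    exact rsw (n := k) hk' (by omega) (by omega) (by omega)
  · apply red_mem_SC hn
    · intro x y h
      rw [mem_TBE_true] at h
      omega
    · intro x y h
      rw [mem_TBE_false] at h
      omega
  · apply red_injOn hn _ (2 * t - 2 * k)
    rintro ⟨x, y, _ | _⟩ h
    · rw [mem_TBE_false] at h
      push_cast
      omega
    · rw [mem_TBE_true] at h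
      push_cast
      omega

theorem box_subset {k M : ℕ} (hk : 0 < k) (hM : 8 * k ≤ M) : boxE (4 * k) ⊆ SC (16 * k) M := by
  unfold boxE
  rintro ⟨x, y, _ | _⟩ h
  · rw [mem_RE_false] at h
    rw [mem_SC_false]
    push_cast at *
    omega
  · rw [mem_RE_true] at h
    rw [mem_SC_true]
    push_cast at *
    omega

/-! ### The deterministic part -/

theorem wnd_of {k M : ℕ} (hk : 0 < k) {F : Finset Edg} (hF : F ⊆ SC (16 * k) M)
    (hA : Arm (4 * k) F) (hC : Circ (2 * k) (4 * k) F)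
    (hH : ∀ i < 8, HR (16 * k) k i F) (hV : ∀ i < 8, VR (16 * k) k i F) : Wnd (16 * k) F := by
  have hn : 0 < 16 * k := by omega
  have hk' : (0 : ℤ) < k := by exact_mod_cast hk
  unfold Wnd
  set L : Set Edg := Lft (16 * k) (↑F : Set Edg) with hL
  -- the horizontal crossings
  have h1 : ∀ i : ℕ, ∃ y y' : ℤ, i < 8 → (2 * k * i ≤ y ∧ y ≤ 2 * k * i + 2 * k) ∧
      Reach (L ∩ ↑(RE (2 * k * i - 2 * k) (2 * k * i + 4 * k) (2 * k * i) (2 * k * i + 2 * k)))
        (2 * k * i - 2 * k, y) (2 * k * i + 4 * k, y') := by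
    intro i
    by_cases hi : i < 8
    · obtain ⟨y, y', hy, _, h⟩ := hH i hi
      refine ⟨y, y', fun _ => ⟨hy, h.mono ?_⟩⟩
      rintro e ⟨h2, h3⟩
      have h2' := (mem_cut.1 (Finset.mem_coe.1 h2)).2
      exact ⟨h2', by exact_mod_cast LRE_subset_RE (Finset.mem_coe.1 h3)⟩
    · exact ⟨0, 0, fun h => absurd h hi⟩
  have h2 : ∀ i : ℕ, ∃ x x' : ℤ, i < 8 →
      Reach (L ∩ ↑(RE (2 * k * i) (2 * k * i + 2 * k) (2 * k * i - 2 * k) (2 * k * i + 4 * k)))
        (x, 2 * k * i - 2 * k) (x', 2 * k * i + 4 * k) := by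
    intro i
    by_cases hi : i < 8
    · obtain ⟨y, y', _, _, h⟩ := hV i hi
      refine ⟨y, y', fun _ => h.mono ?_⟩
      rintro e ⟨h2, h3⟩
      have h2' := (mem_cut.1 (Finset.mem_coe.1 h2)).2
      exact ⟨h2', by exact_mod_cast TBE_subset_RE (Finset.mem_coe.1 h3)⟩
    · exact ⟨0, 0, fun h => absurd h hi⟩
  choose y y' hy using h1
  choose x x' hx using h2
  -- crossing number `i` horizontally meets crossing number `i` vertically
  have m1 : ∀ i : ℕ, i < 8 → Reach L (2 * k * i - 2 * k, y i) (x i, 2 * k * i - 2 * k) := by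
    intro i hi
    have a := (hy i hi).2
    have b := hx i hi
    set t : ℤ := 2 * k * i with ht
    clear_value t
    exact (cross_meet (A := t - 2 * k) (B := t + 4 * k) (C := t - 2 * k) (D := t + 4 * k)
      (a := t) (b := t + 2 * k) (c := t) (d := t + 2 * k) (by omega) (by omega) (by omega)
      (by omega) (by omega) (by omega) a (by simp only; omega) (by simp only; omega) b
      (by simp only; omega) (by simp only; omega)).mono Set.inter_subset_left
  -- a vertical crossing meets the next horizontal one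
  have m2 : ∀ (i : ℕ) (z z' : ℤ), i < 8 →
      Reach (L ∩ ↑(RE (2 * k * i) (2 * k * i + 6 * k) (2 * k * i + 2 * k) (2 * k * i + 4 * k)))
        (2 * k * i, z) (2 * k * i + 6 * k, z') →
      Reach L (x i, 2 * k * i - 2 * k) (2 * k * i, z) := by
    intro i z z' hi a
    have b := hx i hi
    set t : ℤ := 2 * k * i with ht
    clear_value t
    exact ((cross_meet (A := t) (B := t + 6 * k) (C := t - 2 * k) (D := t + 4 * k)
      (a := t) (b := t + 2 * k) (c := t + 2 * k) (d := t + 4 * k) (by omega) (by omega) (by omega)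
      (by omega) (by omega) (by omega) a (by simp only; omega) (by simp only; omega) b
      (by simp only; omega) (by simp only; omega)).mono Set.inter_subset_left).symm
  -- the chain
  have m3 : ∀ i : ℕ, i < 8 → Reach L (2 * k * (0 : ℕ) - 2 * k, y 0) (x i, 2 * k * i - 2 * k) := by
    intro i
    induction i with
    | zero => intro h; exact m1 0 h
    | succ i ih =>
      intro h
      have a1 := ih (by omega)
      have a2 := (hy (i + 1) h).2
      have e1 : (2 * k * ((i + 1 : ℕ) : ℤ) - 2 * k : ℤ) = 2 * k * i := by push_cast; ring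
      have e2 : (2 * k * ((i + 1 : ℕ) : ℤ) + 4 * k : ℤ) = 2 * k * i + 6 * k := by push_cast; ring
      have e3 : (2 * k * ((i + 1 : ℕ) : ℤ) : ℤ) = 2 * k * i + 2 * k := by push_cast; ring
      have e4 : (2 * k * ((i + 1 : ℕ) : ℤ) + 2 * k : ℤ) = 2 * k * i + 4 * k := by push_cast; ring
      have a3 := m1 (i + 1) h
      rw [e1, e2, e4, e3] at a2
      have a4 := m2 i _ _ (by omega) a2
      rw [e1] at a3
      rw [e1]
      exact a1.trans (a4.trans a3)
  -- the arm and the circuit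
  obtain ⟨z, hz⟩ := circ_meet (R1 := 2 * k) (R2 := 4 * k) (by omega) (by omega) hC
  obtain ⟨v, hv, hr⟩ := hA
  have hbox : (↑(boxE (4 * k)) : Set Edg) = ↑(RE (-(4 * k : ℤ)) (4 * k) (-(4 * k)) (4 * k)) := by
    unfold boxE
    push_cast
    rfl
  have g1 : Reach L (0, 0) z := by
    rw [hbox] at hr
    have hv' : v.1 = -(4 * k : ℤ) ∨ v.1 = 4 * k ∨ v.2 = -(4 * k : ℤ) ∨ v.2 = 4 * k := by
      have := hv.2
      push_cast at this
      exact this
    exact (hz (0, 0) v (by unfold inR; simp only; omega) hv' hr).mono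
      (Set.inter_subset_left.trans (subset_Lft _ _))
  have a0 := (hy 0 (by omega)).2
  have b0 := (hy 0 (by omega)).1
  have g2 : Reach L (2 * k * ((0 : ℕ) : ℤ) - 2 * k, y 0) z := by
    have hsub : L ∩ ↑(RE (2 * k * ((0 : ℕ) : ℤ) - 2 * k) (2 * k * ((0 : ℕ) : ℤ) + 4 * k)
        (2 * k * ((0 : ℕ) : ℤ)) (2 * k * ((0 : ℕ) : ℤ) + 2 * k)) ⊆
        (↑F : Set Edg) ∩ ↑(RE (-(4 * k : ℤ)) (4 * k) (-(4 * k)) (4 * k)) := by
      rintro e ⟨h3, h4⟩
      have h5 : e ∈ RE (-(4 * k : ℤ)) (4 * k) (-(4 * k)) (4 * k) :=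
        RE_subset (by push_cast; omega) (by push_cast; omega) (by push_cast; omega)
          (by push_cast; omega) (Finset.mem_coe.1 h4)
      refine ⟨?_, Finset.mem_coe.2 h5⟩
      rw [hL, mem_Lft_iff hn hF] at h3
      rw [red_eq_self hn] at h3
      · exact Finset.mem_coe.2 h3
      · obtain ⟨x, y, _ | _⟩ := e
        · rw [mem_RE_false] at h5; push_cast; omega
        · rw [mem_RE_true] at h5; push_cast; omega
      · obtain ⟨x, y, _ | _⟩ := e
        · rw [mem_RE_false] at h5; push_cast; omega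
        · rw [mem_RE_true] at h5; push_cast; omega
    have a5 := hz _ _ (by
      unfold inR
      push_cast at b0 ⊢
      omega) (by
      right; left
      push_cast
      simp) (a0.mono hsub)
    exact a5.mono (Set.inter_subset_left.trans (subset_Lft _ _))
  have g3 : Reach L (2 * k * ((0 : ℕ) : ℤ) - 2 * k, y 0) (0, 0) := g2.trans g1.symm
  -- translation by the period
  have hsh : (trl ((16 * k : ℕ) : ℤ) ((16 * k : ℕ) : ℤ)).φ '' L ⊆ L := by
    have := Lft_shift (16 * k) (↑F : Set Edg) 1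
    rw [one_mul] at this
    exact this
  have g4 := ((trl ((16 * k : ℕ) : ℤ) ((16 * k : ℕ) : ℤ)).reach g3).mono hsh
  have a6 := (trl ((16 * k : ℕ) : ℤ) ((16 * k : ℕ) : ℤ)).reach a0
  rw [Set.image_inter (trl ((16 * k : ℕ) : ℤ) ((16 * k : ℕ) : ℤ)).φ.injective, ← LSym.coe_mp,
    trl_RE] at a6
  have a7 := a6.mono (Set.inter_subset_inter_left _ hsh)
  rw [trl_ψ] at a7 g4
  rw [trl_ψ] at a7 g4
  have e1 : (2 * k * ((0 : ℕ) : ℤ) - 2 * k + ((16 * k : ℕ) : ℤ) : ℤ) = 2 * k * ((7 : ℕ) : ℤ) := by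
    push_cast; ring
  have e2 : (2 * k * ((0 : ℕ) : ℤ) + 4 * k + ((16 * k : ℕ) : ℤ) : ℤ)
      = 2 * k * ((7 : ℕ) : ℤ) + 6 * k := by
    push_cast; ring
  have e3 : (2 * k * ((0 : ℕ) : ℤ) + ((16 * k : ℕ) : ℤ) : ℤ)
      = 2 * k * ((7 : ℕ) : ℤ) + 2 * k := by
    push_cast; ring
  have e4 : (2 * k * ((0 : ℕ) : ℤ) + 2 * k + ((16 * k : ℕ) : ℤ) : ℤ)
      = 2 * k * ((7 : ℕ) : ℤ) + 4 * k := by
    push_cast; ring
  simp only [e1, e2, e3, e4] at a7 g4
  have g5 := m2 7 _ _ (by omega) a7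
  have g6 := m3 7 (by omega)
  have g7 := (g3.symm.trans g6).trans (g5.trans g4)
  simpa using g7

end Pl5Aux

open H974 Pl5Aux in
theorem wnd_lower {k M : ℕ} (hk : 0 < k) (hM : 8 * k ≤ M) :
    (1 / 2 : ℝ) ^ 940 * arm (1 / 2) (4 * k) ≤
      Pr (fun _ => (1 / 2 : ℝ)) (SC (16 * k) M) (Wnd (16 * k)) := by
  have h0 : (0 : ℝ) ≤ 1 / 2 := by norm_num
  have h1 : (1 / 2 : ℝ) ≤ 1 := by norm_num
  set S := SC (16 * k) M with hS
  have hbox : boxE (4 * k) ⊆ S := box_subset hk hM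
  have e1 : Pr (fun _ => (1 / 2 : ℝ)) S (Arm (4 * k)) = arm (1 / 2) (4 * k) := pr_Arm _ hbox
  have e2 : (1 / 2 : ℝ) ^ 188 ≤ Pr (fun _ => (1 / 2 : ℝ)) S (Circ (2 * k) (4 * k)) := by
    have hbox' : RE (-(4 * k : ℤ)) (4 * k) (-(4 * k)) (4 * k) ⊆ S := by
      have : boxE (4 * k) = RE (-(4 * k : ℤ)) (4 * k) (-(4 * k)) (4 * k) := by
        unfold boxE; push_cast; rfl
      rw [← this]; exact hbox
    have hk' : (0 : ℤ) < k := by exact_mod_cast hk
    refine le_trans ?_ (pr_Circ h0 h1 (R1 := 2 * k) (R2 := 4 * k) (by omega) (by omega) hbox')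
    have a := rsw (n := k) (w := 2 * (4 * k)) (h := 4 * k - 2 * k) hk' (by omega) (by omega)
      (by omega)
    calc (1 / 2 : ℝ) ^ 188 = ((1 / 2 : ℝ) ^ 47) ^ 4 := by norm_num
      _ ≤ _ := pow_le_pow_left₀ (by positivity) a 4
  have e3 := harris_range (S := S) h0 h1 (c := (1 / 2 : ℝ) ^ 47) (by positivity)
    (HR (16 * k) k) (HR_incr S (16 * k) k) 8 (fun i _ => pr_HR hk hM i)
  have e4 := harris_range (S := S) h0 h1 (c := (1 / 2 : ℝ) ^ 47) (by positivity)
    (VR (16 * k) k) (VR_incr S (16 * k) k) 8 (fun i _ => pr_VR hk hM i)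
  have c2 : IncrE S (Circ (2 * k) (4 * k)) := fun F G h _ hF => hF.mono h
  have c3 : IncrE S (fun F => ∀ i < 8, HR (16 * k) k i F) :=
    fun F G h5 h6 h7 i hi => HR_incr S _ _ i F G h5 h6 (h7 i hi)
  have c4 : IncrE S (fun F => ∀ i < 8, VR (16 * k) k i F) :=
    fun F G h5 h6 h7 i hi => VR_incr S _ _ i F G h5 h6 (h7 i hi)
  have c12 : IncrE S (fun F => Arm (4 * k) F ∧ Circ (2 * k) (4 * k) F) :=
    fun F G h5 h6 h7 => ⟨Arm_incr S _ F G h5 h6 h7.1, c2 F G h5 h6 h7.2⟩
  have c34 : IncrE S (fun F => (∀ i < 8, HR (16 * k) k i F) ∧ ∀ i < 8, VR (16 * k) k i F) :=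
    fun F G h5 h6 h7 => ⟨c3 F G h5 h6 h7.1, c4 F G h5 h6 h7.2⟩
  have i1 := Pr_harris (okq h0 h1) (Arm_incr S (4 * k)) c2
  have i2 := Pr_harris (okq h0 h1) c3 c4
  have i3 := Pr_harris (okq h0 h1) c12 c34
  have i4 : Pr (fun _ => (1 / 2 : ℝ)) S (fun F => (Arm (4 * k) F ∧ Circ (2 * k) (4 * k) F) ∧
      ((∀ i < 8, HR (16 * k) k i F) ∧ ∀ i < 8, VR (16 * k) k i F)) ≤
      Pr (fun _ => (1 / 2 : ℝ)) S (Wnd (16 * k)) := by
    apply Pr_mono (okq h0 h1)
    rintro F hF ⟨⟨a1, a2⟩, a3, a4⟩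
    exact wnd_of hk hF a1 a2 a3 a4
  have ha : 0 ≤ arm (1 / 2) (4 * k) := arm_nonneg h0 h1 _
  rw [e1] at i1
  have j1 : (1 / 2 : ℝ) ^ 188 * arm (1 / 2) (4 * k) ≤
      Pr (fun _ => (1 / 2 : ℝ)) S (fun F => Arm (4 * k) F ∧ Circ (2 * k) (4 * k) F) := by
    refine le_trans ?_ i1
    rw [mul_comm]
    exact mul_le_mul_of_nonneg_left e2 ha
  have j2 : ((1 / 2 : ℝ) ^ 47) ^ 8 * ((1 / 2 : ℝ) ^ 47) ^ 8 ≤
      Pr (fun _ => (1 / 2 : ℝ)) S
        (fun F => (∀ i < 8, HR (16 * k) k i F) ∧ ∀ i < 8, VR (16 * k) k i F) := by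
    refine le_trans ?_ i2
    exact mul_le_mul e3 e4 (by positivity) ((by positivity : (0:ℝ) ≤ ((1 / 2 : ℝ) ^ 47) ^ 8).trans e3)
  calc (1 / 2 : ℝ) ^ 940 * arm (1 / 2) (4 * k)
      = ((1 / 2 : ℝ) ^ 188 * arm (1 / 2) (4 * k)) *
        (((1 / 2 : ℝ) ^ 47) ^ 8 * ((1 / 2 : ℝ) ^ 47) ^ 8) := by
        rw [← pow_mul, ← pow_add, mul_right_comm, ← pow_add]
    _ ≤ _ := mul_le_mul j1 j2 (by positivity)
        ((mul_nonneg (by positivity) ha).trans j1)
    _ ≤ _ := i3
    _ ≤ _ := i4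

end Pool.Agent.H863R2.Cyl
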