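import Pool.Agent.H863R2.Cyl.Defs
import Pool.Agent.H863R2.Cyl.Lst
import Pool.Agent.H863R2.Cyl.Rel
import Pool.Agent.H863R2.Cyl.Sem1

/-!
# Module S2: one row of plaquettes (connections of the faces)
-/

namespace Pool.Agent.H863R2.Cyl
open Pool.Agent.H988R2.Perc (Word flipR flipL rem firstArc PD)

/-- the state of the lifted plaquette `j` -/
def cl {m : ℕ} (c : Fin (m + 1) → Bool) (j : ℤ) : Bool := c (ix m (j % (m + 1 : ℤ)).toNat)

/-- the connections of a row: lower faces `(a, false)`, upper faces `(a, true)` -/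
inductive Row (m : ℕ) (c : Fin (m + 1) → Bool) (w : Word) : ℤ × Bool → ℤ × Bool → Prop
  | low (a b : ℤ) : Rw w a b → Row m c w (a, false) (b, false)
  | link0 (j : ℤ) : cl c j = false → Row m c w (j, false) (j + 1, true)
  | link1 (j : ℤ) : cl c j = true → Row m c w (j + 1, false) (j, true)

namespace Sem2Aux

/-- the connections of a part of the row -/
inductive RowP (m : ℕ) (c : Fin (m + 1) → Bool) (w : Word) (P : ℤ → Prop) :
    ℤ × Bool → ℤ × Bool → Prop
  | low (a b : ℤ) : Rw w a b → RowP m c w P (a, false) (b, false)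
  | link0 (j : ℤ) : P j → cl c j = false → RowP m c w P (j, false) (j + 1, true)
  | link1 (j : ℤ) : P j → cl c j = true → RowP m c w P (j + 1, false) (j, true)

open Relation

/-- an isolated vertex is only equivalent to itself -/
theorem eqv_isolated {α : Type*} {G : α → α → Prop} {x : α} (h1 : ∀ y, G x y → y = x)
    (h2 : ∀ y, G y x → y = x) {y : α} (h : EqvGen G x y) : y = x := by
  have key : ∀ a b, EqvGen G a b → (a = x ↔ b = x) := by
    intro a b hab
    induction hab with
    | rel a b hab =>
      constructor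
      · rintro rfl; exact h1 _ hab
      · rintro rfl; exact h2 _ hab
    | refl a => rfl
    | symm a b _ ih => exact ih.symm
    | trans a b c _ _ ih1 ih2 => exact ih1.trans ih2
  exact (key x y h).1 rfl

theorem eqv_mono {α : Type*} {G G' : α → α → Prop} (h : ∀ a b, G a b → G' a b) {a b : α}
    (hab : EqvGen G a b) : EqvGen G' a b := by
  induction hab with
  | rel a b hab => exact EqvGen.rel _ _ (h _ _ hab)
  | refl a => exact EqvGen.refl _
  | symm a b _ ih => exact ih.symm
  | trans a b c _ _ ih1 ih2 => exact ih1.trans _ _ _ ih2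

/-- transport along a map -/
theorem eqv_map {α β : Type*} {G : α → α → Prop} {G' : β → β → Prop} (r : α → β)
    (h : ∀ a b, G a b → EqvGen G' (r a) (r b)) {a b : α}
    (hab : EqvGen G a b) : EqvGen G' (r a) (r b) := by
  induction hab with
  | rel a b hab => exact h _ _ hab
  | refl a => exact EqvGen.refl _
  | symm a b _ ih => exact ih.symm
  | trans a b c _ _ ih1 ih2 => exact ih1.trans _ _ _ ih2

/-- adding pendant vertices: `r` is the retraction -/
theorem eqv_pendant {α : Type*} {G G' : α → α → Prop} (r : α → α)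
    (h1 : ∀ a b, G a b → G' a b) (h2 : ∀ a, EqvGen G' a (r a))
    (h3 : ∀ a b, G' a b → EqvGen G (r a) (r b)) (a b : α) :
    EqvGen G' a b ↔ EqvGen G (r a) (r b) := by
  constructor
  · exact eqv_map r h3
  · intro h
    exact ((h2 a).trans _ _ _ (eqv_mono h1 h)).trans _ _ _ (h2 b).symm

/-- adding connecting edges between named vertices -/
theorem eqv_join {α ι : Type*} {G G' : α → α → Prop} {H J : ι → ι → Prop} (ni : ι → Prop)
    (nm : ι → α)
    (h1 : ∀ a b, G a b → G' a b)
    (hH : ∀ a b, H a b ↔ (ni a ∧ ni b ∧ EqvGen G (nm a) (nm b)) ∨ J a b)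
    (hJ : ∀ a b, J a b → ni a ∧ ni b ∧ EqvGen G' (nm a) (nm b))
    (h3 : ∀ x y, G' x y → G x y ∨ ∃ a b, J a b ∧ EqvGen G x (nm a) ∧ EqvGen G y (nm b) ∨
      J a b ∧ EqvGen G y (nm a) ∧ EqvGen G x (nm b))
    (a b : ι) (ha : ni a) (hb : ni b) :
    EqvGen G' (nm a) (nm b) ↔ EqvGen H a b := by
  constructor
  · intro h
    have key : ∀ x y, EqvGen G' x y → EqvGen G x y ∨
        ∃ a b, ni a ∧ ni b ∧ EqvGen G x (nm a) ∧ EqvGen H a b ∧ EqvGen G (nm b) y := by
      intro x y hxy
      induction hxy with
      | rel x y hxy =>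
        rcases h3 x y hxy with h | ⟨a, b, ⟨hj, hx, hy⟩ | ⟨hj, hy, hx⟩⟩
        · exact Or.inl (EqvGen.rel _ _ h)
        · obtain ⟨na, nb, -⟩ := hJ a b hj
          exact Or.inr ⟨a, b, na, nb, hx, EqvGen.rel _ _ ((hH a b).2 (Or.inr hj)), hy.symm⟩
        · obtain ⟨na, nb, -⟩ := hJ a b hj
          exact Or.inr ⟨b, a, nb, na, hx, (EqvGen.rel _ _ ((hH a b).2 (Or.inr hj))).symm, hy.symm⟩
      | refl x => exact Or.inl (EqvGen.refl _)
      | symm x y _ ih =>
        rcases ih with h | ⟨a, b, na, nb, h4, h5, h6⟩
        · exact Or.inl h.symm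
        · exact Or.inr ⟨b, a, nb, na, h6.symm, h5.symm, h4.symm⟩
      | trans x y z _ _ ih1 ih2 =>
        rcases ih1 with h | ⟨a, b, na, nb, h4, h5, h6⟩
        · rcases ih2 with h' | ⟨a', b', na', nb', h4', h5', h6'⟩
          · exact Or.inl (h.trans _ _ _ h')
          · exact Or.inr ⟨a', b', na', nb', h.trans _ _ _ h4', h5', h6'⟩
        · rcases ih2 with h' | ⟨a', b', na', nb', h4', h5', h6'⟩
          · exact Or.inr ⟨a, b, na, nb, h4, h5, h6.trans _ _ _ h'⟩
          · refine Or.inr ⟨a, b', na, nb', h4, ?_, h6'⟩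
            refine (h5.trans _ _ _ ?_).trans _ _ _ h5'
            exact EqvGen.rel _ _ ((hH b a').2 (Or.inl ⟨nb, na', h6.trans _ _ _ h4'⟩))
    rcases key _ _ h with h | ⟨a', b', na', nb', h4, h5, h6⟩
    · exact EqvGen.rel _ _ ((hH a b).2 (Or.inl ⟨ha, hb, h⟩))
    · refine (EqvGen.trans _ _ _ ?_ h5).trans _ _ _ ?_
      · exact EqvGen.rel _ _ ((hH _ _).2 (Or.inl ⟨ha, na', h4⟩))
      · exact EqvGen.rel _ _ ((hH _ _).2 (Or.inl ⟨nb', hb, h6⟩))
  · intro h
    refine eqv_map nm ?_ h
    intro a b hab
    rcases (hH a b).1 hab with ⟨-, -, h⟩ | h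
    · exact eqv_mono h1 h
    · exact (hJ a b h).2.2

/-- position of the lifted plaquette `a` relative to `k` -/
def dd (m k : ℕ) (a : ℤ) : ℤ := (a - k) % (m + 1 : ℤ)

theorem dd_nonneg (m k : ℕ) (a : ℤ) : 0 ≤ dd m k a := Int.emod_nonneg _ (by omega)
theorem dd_le (m k : ℕ) (a : ℤ) : dd m k a ≤ m := by
  have := Int.emod_lt_of_pos (a - k) (show (0 : ℤ) < m + 1 by omega)
  unfold dd; omega

theorem dd_spec (m k : ℕ) (a : ℤ) : ∃ l : ℤ, a = k + dd m k a + l * (m + 1) := by
  refine ⟨(a - k) / (m + 1), ?_⟩
  have h := Int.emod_add_mul_ediv (a - k) (m + 1)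
  unfold dd
  linarith

theorem dd_unique {m k : ℕ} {a r l : ℤ} (h0 : 0 ≤ r) (h1 : r ≤ m) (h : a = k + r + l * (m + 1)) :
    dd m k a = r := by
  unfold dd
  have : a - k = r + l * (m + 1) := by rw [h]; ring
  rw [this, Int.add_mul_emod_self_right]
  exact Int.emod_eq_of_lt h0 (by omega)

theorem dd_succ_of_lt {m k : ℕ} {a : ℤ} (h : dd m k a < m) : dd m k (a + 1) = dd m k a + 1 := by
  obtain ⟨l, hl⟩ := dd_spec m k a
  refine dd_unique (l := l) ?_ (by omega) ?_
  · have := dd_nonneg m k a; omega
  · conv_lhs => rw [hl]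
    ring

theorem dd_succ_of_eq {m k : ℕ} {a : ℤ} (h : dd m k a = m) : dd m k (a + 1) = 0 := by
  obtain ⟨l, hl⟩ := dd_spec m k a
  refine dd_unique (l := l + 1) le_rfl (by omega) ?_
  conv_lhs => rw [hl, h]
  ring

theorem ix_congr {m a b : ℕ} (h : a % (m + 1) = b % (m + 1)) : ix m a = ix m b := by
  unfold ix; simp [h]

theorem cl_eq {m : ℕ} (c : Fin (m + 1) → Bool) (k : ℕ) (a : ℤ) :
    cl c a = c (ix m (k + (dd m k a).toNat)) := by
  unfold cl
  congr 1
  apply ix_congr
  obtain ⟨l, hl⟩ := dd_spec m k a
  have h0 := dd_nonneg m k a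
  have h1 : a % (m + 1 : ℤ) = ((k + (dd m k a).toNat : ℕ) : ℤ) % (m + 1 : ℤ) := by
    conv_lhs => rw [hl]
    rw [Int.add_mul_emod_self_right]
    congr 1
    push_cast
    rw [Int.toNat_of_nonneg h0]
  rw [h1]
  have h2 : ((k + (dd m k a).toNat : ℕ) : ℤ) % (m + 1 : ℤ)
      = (((k + (dd m k a).toNat) % (m + 1) : ℕ) : ℤ) := by push_cast; rfl
  rw [h2, Int.toNat_natCast, Nat.mod_mod]

theorem cl_of_dd {m : ℕ} {c : Fin (m + 1) → Bool} {k : ℕ} {a : ℤ} {j : ℕ} (h : dd m k a = j) :
    cl c a = c (ix m (k + j)) := by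
  rw [cl_eq c k a, h, Int.toNat_natCast]

/-- the name of the face with index `a` -/
def nm (m k j : ℕ) (a : ℤ) : ℤ × Bool := if dd m k a ≤ j then (a + 1, true) else (a, false)

/-- the graph after `j` steps -/
abbrev Gj (m : ℕ) (c : Fin (m + 1) → Bool) (w : Word) (k j : ℕ) : ℤ × Bool → ℤ × Bool → Prop :=
  RowP m c w (fun a => dd m k a ≤ j)

theorem Gj_mono {m : ℕ} {c : Fin (m + 1) → Bool} {w : Word} {k j : ℕ} (x y : ℤ × Bool)
    (h : Gj m c w k j x y) : Gj m c w k (j + 1) x y := by
  cases h with
  | low a b h => exact RowP.low a b h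
  | link0 a h1 h2 => exact RowP.link0 a (by push_cast; omega) h2
  | link1 a h1 h2 => exact RowP.link1 a (by push_cast; omega) h2

theorem step_false {m : ℕ} {c : Fin (m + 1) → Bool} {w : Word} {k j : ℕ} (hj : j + 1 ≤ m)
    (hk : c (ix m k) = false) (hp : c (ix m (k + j + 1)) = false) (a b : ℤ) :
    EqvGen (Gj m c w k (j + 1)) (nm m k (j + 1) a) (nm m k (j + 1) b) ↔
      EqvGen (Gj m c w k j) (nm m k j a) (nm m k j b) := by
  classical
  set r : ℤ × Bool → ℤ × Bool := fun x =>
    if x.2 = true ∧ dd m k (x.1 - 1) = j + 1 then (x.1 - 1, false) else x with hr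
  have hcl : ∀ a : ℤ, dd m k a = j + 1 → cl c a = false := by
    intro a ha
    rw [cl_of_dd (j := j + 1) (by push_cast; exact ha), ← add_assoc, hp]
  have hcl0 : ∀ a : ℤ, dd m k a = 0 → cl c a = false := by
    intro a ha
    rw [cl_of_dd (j := 0) (by push_cast; exact ha), add_zero, hk]
  have hrn : ∀ a, r (nm m k (j + 1) a) = nm m k j a := by
    intro a
    simp only [hr, nm]
    by_cases h1 : dd m k a ≤ j
    · rw [if_pos (show dd m k a ≤ ((j + 1 : ℕ) : ℤ) by push_cast; omega), if_pos h1]
      rw [if_neg]
      simp only [add_sub_cancel_right, true_and]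
      omega
    · by_cases h2 : dd m k a = j + 1
      · rw [if_pos (show dd m k a ≤ ((j + 1 : ℕ) : ℤ) by push_cast; omega), if_neg h1]
        rw [if_pos]
        · simp
        · simp [h2]
      · rw [if_neg (show ¬ dd m k a ≤ ((j + 1 : ℕ) : ℤ) by push_cast; omega), if_neg h1]
        simp
  rw [eqv_pendant (G := Gj m c w k j) (G' := Gj m c w k (j + 1)) r Gj_mono ?_ ?_, hrn, hrn]
  · rintro ⟨x, t⟩
    simp only [hr]
    split_ifs with h
    · obtain ⟨rfl, h⟩ := h
      have := RowP.link0 (m := m) (c := c) (w := w) (P := fun a => dd m k a ≤ ((j + 1 : ℕ) : ℤ))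
        (x - 1) (by push_cast; omega) (hcl _ h)
      rw [sub_add_cancel] at this
      exact (EqvGen.rel _ _ this).symm
    · exact EqvGen.refl _
  · intro x y hxy
    cases hxy with
    | low a b h =>
      simp only [hr]
      simpa using EqvGen.rel _ _ (RowP.low a b h)
    | link0 a h1 h2 =>
      simp only [hr]
      rw [if_neg (by simp)]
      simp only [add_sub_cancel_right, true_and]
      split_ifs with h3
      · exact EqvGen.refl _
      · exact EqvGen.rel _ _ (RowP.link0 a (by push_cast at h1; omega) h2)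
    | link1 a h1 h2 =>
      simp only [hr]
      rw [if_neg (by simp)]
      have h4 : dd m k a ≠ j + 1 := fun h => by rw [hcl a h] at h2; exact absurd h2 (by simp)
      have h5 : dd m k a ≠ 0 := fun h => by rw [hcl0 a h] at h2; exact absurd h2 (by simp)
      have h6 : ¬ (dd m k (a - 1) = j + 1) := by
        intro h
        by_cases h7 : dd m k (a - 1) < m
        · have := dd_succ_of_lt h7
          rw [sub_add_cancel] at this
          push_cast at h1
          omega
        · have h8 := dd_le m k (a - 1)
          have := dd_succ_of_eq (m := m) (k := k) (a := a - 1) (by omega)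
          rw [sub_add_cancel] at this
          exact h5 this
      rw [if_neg (by simp [h6])]
      exact EqvGen.rel _ _ (RowP.link1 a (by push_cast at h1; omega) h2)

theorem isol_iff {m k j : ℕ} (hj : j + 1 ≤ m) {w : Word} (hw : w.length = m + 1) (a : ℤ) :
    isol w (k + j) a ↔ dd m k a = j + 1 := by
  unfold isol
  rw [hw]
  constructor
  · rintro ⟨l, hl⟩
    refine dd_unique (l := l) (by omega) (by omega) ?_
    rw [hl]; push_cast; ring
  · intro h
    obtain ⟨l, hl⟩ := dd_spec m k a
    refine ⟨l, ?_⟩
    rw [h] at hl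
    conv_lhs => rw [hl]
    push_cast; ring

theorem step_true {m : ℕ} {c : Fin (m + 1) → Bool} {w : Word} {k j : ℕ} (hm : 1 ≤ m)
    (hj : j + 1 ≤ m)
    (hk : c (ix m k) = false) (hp : c (ix m (k + j + 1)) = true) {v : Word} (hv : Ok v)
    (hlen : v.length = m + 1)
    (ih : ∀ a b, Rw v a b ↔ EqvGen (Gj m c w k j) (nm m k j a) (nm m k j b)) (a b : ℤ) :
    Rw (act (k + j) v) a b ↔
      EqvGen (Gj m c w k (j + 1)) (nm m k (j + 1) a) (nm m k (j + 1) b) := by
  classical
  have hcl : ∀ a : ℤ, dd m k a = j + 1 → cl c a = true := by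
    intro a ha
    rw [cl_of_dd (j := j + 1) (by push_cast; exact ha), ← add_assoc, hp]
  have hcl0 : ∀ a : ℤ, dd m k a = 0 → cl c a = false := by
    intro a ha
    rw [cl_of_dd (j := 0) (by push_cast; exact ha), add_zero, hk]
  -- lower face `a` is connected to the name of the index `a`, if `a` is a right neighbour of `p`
  have hlow : ∀ a : ℤ, dd m k (a - 1) = j + 1 → EqvGen (Gj m c w k j) (a, false) (nm m k j a) := by
    intro a ha
    unfold nm
    split_ifs with h
    · by_cases h7 : dd m k (a - 1) < m
      · have := dd_succ_of_lt h7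
        rw [sub_add_cancel] at this
        omega
      · have h8 := dd_le m k (a - 1)
        have h9 := dd_succ_of_eq (m := m) (k := k) (a := a - 1) (by omega)
        rw [sub_add_cancel] at h9
        exact EqvGen.rel _ _ (RowP.link0 a h (hcl0 a h9))
    · exact EqvGen.refl _
  have hnj : ∀ a : ℤ, dd m k a = j → nm m k j a = (a + 1, true) := by
    intro a ha
    unfold nm
    rw [if_pos ha.le]
  set J : ℤ → ℤ → Prop := fun x y =>
    ∃ l : ℤ, x = ((k + j : ℕ) : ℤ) + l * v.length ∧ y = ((k + j : ℕ) : ℤ) + 2 + l * v.length with hJdef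
  set H : ℤ → ℤ → Prop := fun x y =>
    (¬ isol v (k + j) x ∧ ¬ isol v (k + j) y ∧ Rw v x y) ∨
      ∃ l : ℤ, x = ((k + j : ℕ) : ℤ) + l * v.length ∧ y = ((k + j : ℕ) : ℤ) + 2 + l * v.length with hHdef
  have hJ1 : ∀ x y, J x y → dd m k x = j ∧ dd m k (x + 1) = j + 1 ∧ y = x + 2 := by
    rintro x y ⟨l, hx, hy⟩
    rw [hlen] at hx hy
    refine ⟨dd_unique (l := l) (by omega) (by omega) ?_, dd_unique (l := l) (by omega) (by omega) ?_, ?_⟩
    · rw [hx]; push_cast; ring
    · rw [hx]; push_cast; ring
    · rw [hx, hy]; ring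
  have hJ2 : ∀ x, dd m k (x + 1) = j + 1 → J x (x + 2) := by
    intro x hx
    obtain ⟨l, hl⟩ := dd_spec m k (x + 1)
    rw [hx] at hl
    refine ⟨l, ?_, ?_⟩
    · rw [hlen]; push_cast; linarith
    · rw [hlen]; push_cast; linarith
  have hni : ∀ y, dd m k (y - 1) = j + 1 → dd m k y ≠ j + 1 := by
    intro y hy h
    by_cases h7 : dd m k (y - 1) < m
    · have := dd_succ_of_lt h7
      rw [sub_add_cancel] at this
      omega
    · have h8 := dd_le m k (y - 1)
      have := dd_succ_of_eq (m := m) (k := k) (a := y - 1) (by omega)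
      rw [sub_add_cancel] at this
      omega
  have hjoin := eqv_join (G := Gj m c w k j) (G' := Gj m c w k (j + 1)) (H := H) (J := J)
    (fun x => ¬ isol v (k + j) x) (nm m k j) Gj_mono ?_ ?_ ?_
  · rw [Rw_act hv (by omega)]
    have hH : (fun x y => (¬ isol v (k + j) x ∧ ¬ isol v (k + j) y ∧ Rw v x y) ∨
      ∃ l : ℤ, x = ((k + j : ℕ) : ℤ) + l * v.length ∧
        y = ((k + j : ℕ) : ℤ) + 2 + l * v.length) = H := rfl
    rw [hH]
    have hiso : ∀ a y, dd m k a = j + 1 →
        EqvGen (Gj m c w k (j + 1)) (nm m k (j + 1) a) y → y = (a + 1, true) := by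
      intro a y ha hy
      have : nm m k (j + 1) a = (a + 1, true) := by
        unfold nm; rw [if_pos]; push_cast; exact ha.le
      rw [this] at hy
      refine eqv_isolated ?_ ?_ hy
      · intro z hz
        exfalso
        generalize hu : ((a + 1, true) : ℤ × Bool) = u at hz
        cases hz <;> simp at hu
      · intro z hz
        generalize hu : ((a + 1, true) : ℤ × Bool) = u at hz
        cases hz with
        | low a b h => simp at hu
        | link0 a' h1 h2 =>
          simp only [Prod.mk.injEq, add_left_inj, and_true] at hu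
          subst hu
          rw [hcl a ha] at h2
          exact absurd h2 (by simp)
        | link1 a' h1 h2 =>
          exfalso
          simp only [Prod.mk.injEq, and_true] at hu
          subst hu
          by_cases h7 : dd m k a < m
          · have := dd_succ_of_lt h7
            push_cast at h1
            omega
          · have h8 := dd_le m k a
            have h9 := dd_succ_of_eq (m := m) (k := k) (a := a) (by omega)
            rw [hcl0 _ h9] at h2
            exact absurd h2 (by simp)
    have hinj : ∀ a b, dd m k a = j + 1 → nm m k (j + 1) b = (a + 1, true) → a = b := by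
      intro a b ha hb
      unfold nm at hb
      split_ifs at hb with h
      · simp only [Prod.mk.injEq, add_left_inj, and_true] at hb
        exact hb.symm
      · simp at hb
    have hsame : ∀ a, dd m k a ≠ j + 1 → nm m k (j + 1) a = nm m k j a := by
      intro a ha
      unfold nm
      by_cases h : dd m k a ≤ j
      · rw [if_pos h, if_pos]; push_cast; omega
      · rw [if_neg h, if_neg]; push_cast; omega
    simp only [isol_iff hj hlen]
    by_cases ha : dd m k a = j + 1
    · constructor
      · rintro (rfl | ⟨h, -⟩)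
        · exact EqvGen.refl _
        · exact absurd ha h
      · intro h
        exact Or.inl (hinj a b ha (hiso a _ ha h))
    · by_cases hb : dd m k b = j + 1
      · constructor
        · rintro (rfl | ⟨-, h, -⟩)
          · exact EqvGen.refl _
          · exact absurd hb h
        · intro h
          exact Or.inl (hinj b a hb (hiso b _ hb h.symm)).symm
      · rw [hsame a ha, hsame b hb]
        have := hjoin a b (by rw [isol_iff hj hlen]; exact ha) (by rw [isol_iff hj hlen]; exact hb)
        rw [this]
        constructor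
        · rintro (rfl | ⟨-, -, h⟩)
          · exact EqvGen.refl _
          · exact h
        · intro h
          exact Or.inr ⟨ha, hb, h⟩
  · intro x y
    simp only [hHdef, hJdef, ih]
  · intro x y hxy
    obtain ⟨h1, h2, rfl⟩ := hJ1 x y hxy
    have h3 : dd m k (x + 2 - 1) = j + 1 := by
      rw [show x + 2 - 1 = x + 1 by ring]; exact h2
    refine ⟨?_, ?_, ?_⟩
    · rw [isol_iff hj hlen]; omega
    · rw [isol_iff hj hlen]
      exact hni _ h3
    · rw [hnj x h1]
      have e1 : Gj m c w k (j + 1) (x + 1 + 1, false) (x + 1, true) :=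
        RowP.link1 (x + 1) (by push_cast; omega) (hcl _ h2)
      have e2 := eqv_mono Gj_mono (hlow (x + 2) h3)
      rw [show x + 2 = x + 1 + 1 by ring] at e2 ⊢
      exact (EqvGen.rel _ _ e1).symm.trans _ _ _ e2
  · intro x y hxy
    cases hxy with
    | low a b h => exact Or.inl (RowP.low a b h)
    | link0 a h1 h2 =>
      left
      refine RowP.link0 a ?_ h2
      have h4 : dd m k a ≠ j + 1 := fun h => by rw [hcl a h] at h2; exact absurd h2 (by simp)
      push_cast at h1; omega
    | link1 a h1 h2 =>
      by_cases h4 : dd m k a = j + 1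
      · right
        refine ⟨a - 1, a - 1 + 2, Or.inr ⟨hJ2 (a - 1) (by rw [sub_add_cancel]; exact h4), ?_, ?_⟩⟩
        · rw [hnj]
          · rw [sub_add_cancel]; exact EqvGen.refl _
          · obtain ⟨h5, -, -⟩ := hJ1 _ _ (hJ2 (a - 1) (by rw [sub_add_cancel]; exact h4))
            exact h5
        · rw [show a - 1 + 2 = a + 1 by ring]
          exact hlow (a + 1) (by rw [add_sub_cancel_right]; exact h4)
      · left
        exact RowP.link1 a (by push_cast at h1; omega) h2

theorem main_ind {m : ℕ} (hm : 1 ≤ m) (c : Fin (m + 1) → Bool) (σ : Wd (m + 1)) (k : ℕ)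
    (hk : c (ix m k) = false) (j : ℕ) (hj : j ≤ m) :
    ∀ a b, Rw (word m c k j σ).1 a b ↔
      EqvGen (Gj m c σ.1 k j) (nm m k j a) (nm m k j b) := by
  induction j with
  | zero =>
    intro a b
    have hcl0 : ∀ a : ℤ, dd m k a = 0 → cl c a = false := by
      intro a ha
      rw [cl_of_dd (j := 0) (by push_cast; exact ha), add_zero, hk]
    show Rw σ.1 a b ↔ _
    constructor
    · intro h
      have hn : ∀ a, EqvGen (Gj m c σ.1 k 0) (a, false) (nm m k 0 a) := by
        intro a
        unfold nm
        split_ifs with h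
        · have h0 := dd_nonneg m k a
          push_cast at h
          exact EqvGen.rel _ _ (RowP.link0 a (by push_cast; exact h) (hcl0 a (by omega)))
        · exact EqvGen.refl _
      exact ((hn a).symm.trans _ _ _ (EqvGen.rel _ _ (RowP.low a b h))).trans _ _ _ (hn b)
    · intro h
      -- the retraction onto the lower faces
      set r : ℤ × Bool → ℤ := fun x => if x.2 = true then x.1 - 1 else x.1 with hr
      have hrn : ∀ a, r (nm m k 0 a) = a := by
        intro a
        simp only [hr, nm]
        split_ifs <;> simp_all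
      have key : ∀ x y, EqvGen (Gj m c σ.1 k 0) x y → Rw σ.1 (r x) (r y) := by
        intro x y hxy
        have hE := Rw_equiv σ.1
        induction hxy with
        | rel x y hxy =>
          cases hxy with
          | low a b h => simpa [hr] using h
          | link0 a h1 h2 => simpa [hr] using hE.refl a
          | link1 a h1 h2 =>
            have h0 := dd_nonneg m k a
            push_cast at h1
            rw [hcl0 a (by omega)] at h2
            exact absurd h2 (by simp)
        | refl x => exact hE.refl _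
        | symm x y _ ih => exact hE.symm ih
        | trans x y z _ _ ih1 ih2 => exact hE.trans ih1 ih2
      have := key _ _ h
      rwa [hrn, hrn] at this
  | succ j ih =>
    intro a b
    have ih := ih (by omega)
    rw [word]
    split_ifs with hp
    · rw [E_val]
      exact step_true hm hj hk hp (word m c k j σ).2.2 (word m c k j σ).2.1 ih a b
    · rw [step_false hj hk (by simpa using hp)]
      exact ih a b

end Sem2Aux

open Sem2Aux Relation in
theorem Rw_Tc (m : ℕ) (hm : 1 ≤ m) (c : Fin (m + 1) → Bool) (σ : Wd (m + 1)) (a b : ℤ) :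
    Rw (Tc m c σ).1 a b ↔ Relation.EqvGen (Row m c σ.1) (a, true) (b, true) := by
  classical
  unfold Tc
  split_ifs with h
  · set k := Nat.find h with hkdef
    have hk : c (ix m k) = false := (Nat.find_spec h).2
    rw [rot_val]
    have hne : (word m c k m σ).1 ≠ [] := by
      have := (word m c k m σ).2.1
      intro h0
      rw [h0] at this
      simp at this
    have h1 := Rw_rotr (word m c k m σ).1 hne (a - 1) (b - 1)
    rw [sub_add_cancel, sub_add_cancel] at h1
    rw [h1, main_ind hm c σ k hk m le_rfl]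
    have hn : ∀ a, nm m k m (a - 1) = (a, true) := by
      intro a
      unfold nm
      rw [if_pos (dd_le m k _), sub_add_cancel]
    rw [hn, hn]
    constructor
    · refine eqv_mono ?_
      intro x y hxy
      cases hxy with
      | low a b h => exact Row.low a b h
      | link0 a h1 h2 => exact Row.link0 a h2
      | link1 a h1 h2 => exact Row.link1 a h2
    · refine eqv_mono ?_
      intro x y hxy
      cases hxy with
      | low a b h => exact RowP.low a b h
      | link0 a h2 => exact RowP.link0 a (dd_le m k _) h2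
      | link1 a h2 => exact RowP.link1 a (dd_le m k _) h2
  · have hall : ∀ a : ℤ, cl c a = true := by
      intro a
      by_contra hc
      refine h ⟨(dd m 0 a).toNat, ?_, ?_⟩
      · have := dd_nonneg m 0 a
        have := dd_le m 0 a
        omega
      · have h2 := cl_eq c 0 a
        rw [Nat.zero_add] at h2
        rw [← h2]
        simpa using hc
    rw [rotInv_val]
    have hne : rotl σ.1 ≠ [] := by
      intro h0
      have h1 := length_rotl σ.1
      rw [h0, σ.2.1] at h1
      simp at h1
    have h1 := Rw_rotr (rotl σ.1) hne a b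
    rw [rotr_rotl] at h1
    rw [← h1]
    constructor
    · intro h2
      have e : ∀ a : ℤ, EqvGen (Row m c σ.1) (a + 1, false) (a, true) := fun a =>
        EqvGen.rel _ _ (Row.link1 a (hall a))
      exact ((e a).symm.trans _ _ _ (EqvGen.rel _ _ (Row.low _ _ h2))).trans _ _ _ (e b)
    · intro h2
      set r : ℤ × Bool → ℤ := fun x => if x.2 = true then x.1 + 1 else x.1 with hr
      have key : ∀ x y, EqvGen (Row m c σ.1) x y → Rw σ.1 (r x) (r y) := by
        intro x y hxy
        have hE := Rw_equiv σ.1
        induction hxy with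
        | rel x y hxy =>
          cases hxy with
          | low a b h => simpa [hr] using h
          | link0 a h2 =>
            rw [hall a] at h2
            exact absurd h2 (by simp)
          | link1 a h2 => simpa [hr] using hE.refl (a + 1)
        | refl x => exact hE.refl _
        | symm x y _ ih => exact hE.symm ih
        | trans x y z _ _ ih1 ih2 => exact hE.trans ih1 ih2
      simpa [hr] using key _ _ h2

end Pool.Agent.H863R2.Cyl
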