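import Pool.Agent.H863R2.Cyl.Defs

/-!
# Blueprint: all module statements (with `sorry`).  DO NOT import this file in final proofs.
Each module proves its statements under the same names in its own file
`Pool/Agent/H863R2/Cyl/<Module>.lean`, namespace `Pool.Agent.H863R2.Cyl`, importing `Defs` and (if
needed) the modules it depends on.
-/

namespace Pool.Agent.H863R2.Cyl
open Pool.Agent.H988R2.Perc (Word flipR flipL rem firstArc PD)
open MvPolynomial

/-! ## Module L1 (file Lst.lean): lengths, counts, rotation -/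

theorem length_cap {i : ℕ} {w : Word} (h : i + 2 ≤ w.length) : (cap i w).length + 2 = w.length := sorry
theorem length_act (i : ℕ) (w : Word) : (act i w).length = w.length := sorry
theorem length_rotr (w : Word) : (rotr w).length = w.length := sorry
theorem length_rotl (w : Word) : (rotl w).length = w.length := sorry
theorem ok_rotate {w : Word} (k : ℕ) : Ok (w.rotate k) ↔ Ok w := sorry
theorem ok_rotr {w : Word} : Ok (rotr w) ↔ Ok w := sorry
theorem ok_rotl {w : Word} : Ok (rotl w) ↔ Ok w := sorry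
theorem ok_lins {i : ℕ} {w : Word} : Ok (lins i w) ↔ Ok w := sorry
theorem ok_seam {w : Word} : Ok (seam w) ↔ Ok w := sorry
theorem ok_act {w : Word} (i : ℕ) (h : Ok w) : Ok (act i w) := sorry
theorem ok_cap {i : ℕ} {w : Word} (h : Ok w) (hi : i + 2 ≤ w.length) : Ok (cap i w) := sorry
theorem rotl_rotr (w : Word) : rotl (rotr w) = w := sorry
theorem rotr_rotl (w : Word) : rotr (rotl w) = w := sorry
theorem rotr_concat (w : Word) (x : Bool) : rotr (w ++ [x]) = x :: w := sorry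
theorem rotl_cons (w : Word) (x : Bool) : rotl (x :: w) = w ++ [x] := sorry
theorem rotr_act (i : ℕ) (w : Word) : rotr (act i w) = act (i + 1) (rotr w) := sorry
theorem act_per (i : ℕ) (w : Word) : act (i + w.length) w = act i w := sorry
theorem act_eq {i : ℕ} {w : Word} (h : i + 2 ≤ w.length) : act i w = lins i (cap i w) := sorry
theorem rotl_cap {i : ℕ} {w : Word} (h : i + 3 ≤ w.length) : rotl (cap (i + 1) w) = cap i (rotl w) := sorry
theorem arcAt_lins {i : ℕ} {w : Word} (h : i ≤ w.length) : arcAt i (lins i w) := sorry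
theorem arcAt_act {w : Word} (i : ℕ) (h : 2 ≤ w.length) : arcAt i (act i w) := sorry
theorem act_of_arcAt {i : ℕ} {w : Word} (h : arcAt i w) : act i w = w := sorry

/-! ## Module L2 (file Lst2.lean, imports Lst): relations between `cap`, `lins`, `seam` -/

theorem cap_lins_self {i : ℕ} {w : Word} (h : i ≤ w.length) : cap i (lins i w) = w := sorry
theorem cap_lins_succ {i : ℕ} {w : Word} (h : i + 1 ≤ w.length) : cap i (lins (i + 1) w) = w := sorry
theorem cap_succ_lins {i : ℕ} {w : Word} (h : i + 1 ≤ w.length) : cap (i + 1) (lins i w) = w := sorry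
theorem cap_lins_right {i j : ℕ} {w : Word} (h : i + 2 ≤ j) (hj : j ≤ w.length) :
    cap i (lins j w) = lins (j - 2) (cap i w) := sorry
theorem cap_lins_left {i j : ℕ} {w : Word} (h : j + 2 ≤ i) (hi : i ≤ w.length) :
    cap i (lins j w) = lins j (cap (i - 2) w) := sorry
theorem cap_seam {i : ℕ} {w : Word} (h : i + 2 ≤ w.length) :
    cap (i + 1) (seam w) = seam (cap i w) := sorry
theorem cap_zero_seam {w : Word} (h : 1 ≤ w.length) : cap 0 (seam w) = rotl w := sorry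
theorem cap_last_seam {w : Word} (h : 1 ≤ w.length) : cap w.length (seam w) = rotr w := sorry
theorem cap_cap {i j : ℕ} {w : Word} (h : i ≤ j) (hj : j + 4 ≤ w.length) :
    cap i (cap (j + 2) w) = cap j (cap i w) := sorry
theorem lins_seam {i : ℕ} {w : Word} (h : i ≤ w.length) :
    lins (i + 1) (seam w) = seam (lins i w) := sorry
theorem rotr_lins {i : ℕ} {w : Word} (h : i + 1 ≤ w.length) :
    rotr (lins i w) = lins (i + 1) (rotr w) := sorry
theorem rotr_lins_last (w : Word) : rotr (lins w.length w) = seam w := sorry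
theorem rotr_seam (w : Word) : rotr (seam w) = lins 0 w := sorry
theorem exists_arc {w : Word} (hw : Ok w) (h : 2 ≤ w.length) :
    (∃ (i : ℕ) (u : Word), i ≤ u.length ∧ Ok u ∧ w = lins i u ∧ i = firstArc w ∧ u = rem i w) ∨
    (∃ u : Word, Ok u ∧ w = seam u ∧ w.length ≤ firstArc w) := sorry

/-! ## Module A (file Rel.lean, imports Lst, Lst2): relations for typed words -/

theorem E_val (m i : ℕ) (σ : Wd (m + 1)) : (E m i σ).1 = act i σ.1 := sorry
theorem rot_val (m : ℕ) (σ : Wd (m + 1)) : (rot m σ).1 = rotr σ.1 := sorry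
theorem rotInv_val (m : ℕ) (σ : Wd (m + 1)) : (rotInv m σ).1 = rotl σ.1 := sorry
theorem rot_rotInv (m : ℕ) (σ : Wd (m + 1)) : rot m (rotInv m σ) = σ := sorry
theorem rotInv_rot (m : ℕ) (σ : Wd (m + 1)) : rotInv m (rot m σ) = σ := sorry
theorem ix_add (m i : ℕ) : ix m (i + (m + 1)) = ix m i := sorry
theorem E_per (m i : ℕ) (σ : Wd (m + 1)) : E m (i + (m + 1)) σ = E m i σ := sorry
theorem E_arc {m : ℕ} (hm : 1 ≤ m) (i : ℕ) (σ : Wd (m + 1)) : arcAt i (E m i σ).1 := sorry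
theorem E_fix {m : ℕ} (i : ℕ) (σ : Wd (m + 1)) (h : arcAt i σ.1) : E m i σ = σ := sorry
theorem E_idem (m i : ℕ) (σ : Wd (m + 1)) : E m i (E m i σ) = E m i σ := sorry
theorem E_braid {m : ℕ} (hm : 2 ≤ m) (i : ℕ) (σ : Wd (m + 1)) :
    E m i (E m (i + 1) (E m i σ)) = E m i σ := sorry
theorem E_braid' {m : ℕ} (hm : 2 ≤ m) (i : ℕ) (σ : Wd (m + 1)) :
    E m (i + 1) (E m i (E m (i + 1) σ)) = E m (i + 1) σ := sorry
theorem E_comm {m i j : ℕ} (h1 : i + 2 ≤ j) (h2 : j + 2 ≤ i + (m + 1)) (σ : Wd (m + 1)) :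
    E m i (E m j σ) = E m j (E m i σ) := sorry
theorem rot_E (m i : ℕ) (σ : Wd (m + 1)) : rot m (E m i σ) = E m (i + 1) (rot m σ) := sorry
theorem rot_long (m : ℕ) (σ : Wd (m + 1)) :
    rot m (rot m (word m (fun _ => true) 0 m σ)) = E m 0 σ := sorry

/-! ## Module A2 (file Ins.lean, imports Rel): insertion relations -/

theorem ins_inj {L : ℕ} {σ τ : Wd L} (h : ins σ = ins τ) : σ = τ := sorry
theorem ins_range {L : ℕ} (τ : Wd (L + 2)) : (∃ σ, ins σ = τ) ↔ arcAt 0 τ.1 := sorry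
theorem ins_E {m i : ℕ} (hi : i < m) (σ : Wd (m + 1)) :
    E (m + 2) (i + 2) (ins σ) = ins (E m i σ) := sorry
theorem ins_E0 {m : ℕ} (σ : Wd (m + 1)) : E (m + 2) 0 (ins σ) = ins σ := sorry
theorem ins_Elast {m : ℕ} (σ : Wd (m + 1)) :
    E (m + 2) 0 (E (m + 2) (m + 2) (E (m + 2) 1 (ins σ))) = ins (E m m σ) := sorry
theorem ins_rot {m : ℕ} (σ : Wd (m + 1)) :
    E (m + 2) 0 (rot (m + 2) (ins σ)) = ins (rot m σ) := sorry
theorem ins_rotInv {m : ℕ} (σ : Wd (m + 1)) :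
    E (m + 2) 0 (rotInv (m + 2) (ins σ)) = ins (rotInv m σ) := sorry

/-! ## Module B (file Trans.lean, imports Rel): the transfer maps (port of H974R3.Trans) -/

/-- the state with the entries at `i`, `i+1` replaced by `a`, `b` -/
def upd2 {m : ℕ} (c : Fin (m + 1) → Bool) (i : ℕ) (a b : Bool) : Fin (m + 1) → Bool :=
  Function.update (Function.update c (ix m i) a) (ix m (i + 1)) b

theorem Tc_rot (m : ℕ) (c : Fin (m + 1) → Bool) (σ : Wd (m + 1)) :
    Tc m (fun j => c ((finRotate (m + 1)).symm j)) (rot m σ) = rot m (Tc m c σ) := sorry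
theorem E_Tc00 {m : ℕ} (hm : 2 ≤ m) (i : ℕ) (c : Fin (m + 1) → Bool) (σ : Wd (m + 1)) :
    E m i (Tc m (upd2 c i false false) σ) = Tc m (upd2 c i true false) σ := sorry
theorem E_Tc10 {m : ℕ} (hm : 2 ≤ m) (i : ℕ) (c : Fin (m + 1) → Bool) (σ : Wd (m + 1)) :
    E m i (Tc m (upd2 c i true false) σ) = Tc m (upd2 c i true false) σ := sorry
theorem E_Tc11 {m : ℕ} (hm : 2 ≤ m) (i : ℕ) (c : Fin (m + 1) → Bool) (σ : Wd (m + 1)) :
    E m i (Tc m (upd2 c i true true) σ) = Tc m (upd2 c i true false) σ := sorry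
theorem E_Tc01 {m : ℕ} (hm : 2 ≤ m) (i : ℕ) (c : Fin (m + 1) → Bool) (σ : Wd (m + 1)) :
    E m i (Tc m (upd2 c i false true) σ) = Tc m (upd2 c i true false) (E m i σ) := sorry
theorem Tc_E00 {m : ℕ} (hm : 2 ≤ m) (i : ℕ) (c : Fin (m + 1) → Bool) (σ : Wd (m + 1)) :
    Tc m (upd2 c i false false) (E m i σ) = Tc m (upd2 c i false true) σ := sorry
theorem Tc_E01 {m : ℕ} (hm : 2 ≤ m) (i : ℕ) (c : Fin (m + 1) → Bool) (σ : Wd (m + 1)) :
    Tc m (upd2 c i false true) (E m i σ) = Tc m (upd2 c i false true) σ := sorry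
theorem Tc_E11 {m : ℕ} (hm : 2 ≤ m) (i : ℕ) (c : Fin (m + 1) → Bool) (σ : Wd (m + 1)) :
    Tc m (upd2 c i true true) (E m i σ) = Tc m (upd2 c i false true) σ := sorry

/-! ## Module B2 (file TransZ.lean, imports Trans; port of H974R3.TransZ) -/

theorem Rh_Tz {R : Type*} [CommRing R] [NoZeroDivisors R] [CharZero R] {m : ℕ} (hm : 2 ≤ m)
    (q : R) (hq : q ^ 2 + q + 1 = 0) (i : ℕ) (z : Fin (m + 1) → R) (v : Wd (m + 1) → R) :
    Rh q (z (ix m i)) (z (ix m (i + 1))) i (Tz q z v)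
      = Tz q (fun j => z (Equiv.swap (ix m i) (ix m (i + 1)) j))
          (Rh q (z (ix m i)) (z (ix m (i + 1))) i v) := sorry
theorem push_rot_Tz {R : Type*} [CommRing R] {m : ℕ} (q : R) (z : Fin (m + 1) → R)
    (v : Wd (m + 1) → R) :
    push (rot m) (Tz q z v) = Tz q (fun j => z ((finRotate (m + 1)).symm j)) (push (rot m) v) :=
  sorry
theorem sum_Tz {R : Type*} [CommRing R] {m : ℕ} (q : R) (hq : q ^ 2 + q + 1 = 0)
    (z : Fin (m + 1) → R) (v : Wd (m + 1) → R) :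
    ∑ σ, Tz q z v σ = (∏ j, (1 + z j)) * ∑ σ, v σ := sorry
theorem sum_push {X Y : Type*} [Fintype X] [Fintype Y] [DecidableEq Y] {R : Type*}
    [AddCommMonoid R] (f : X → Y) (v : X → R) : ∑ y, push f v y = ∑ x, v x := sorry

/-! ## Module B3 (file TransIns.lean, imports Trans, Ins; port of H974R3.TransIns) -/

theorem Tc_ins {m : ℕ} (c : Fin (m + 3) → Bool) (h0 : c 0 = true) (h1 : c 1 = false)
    (σ : Wd (m + 1)) :
    Tc (m + 2) c (ins σ) = ins (Tc m (fun j => c j.succ.succ) σ) := sorry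
theorem Tz_ins {R : Type*} [CommRing R] {m : ℕ} (q : R) (hq : q ^ 2 + q + 1 = 0) (x : R)
    (z : Fin (m + 1) → R) (v : Wd (m + 1) → R) :
    Tz (m := m + 2) q (Fin.cons x (Fin.cons (q * x) z)) (push ins v)
      = fun τ => ((1 + x) * (1 + q * x)) * push ins (Tz q z v) τ := sorry

/-! ## Module E (file Tri.lean, imports Rel): triangular structure -/

/-- height after a word -/
def hgt (w : Word) : ℤ := (w.map (fun b => if b then (1 : ℤ) else -1)).sum

/-- Dyck words (non-negative prefixes, total height zero) -/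
def DyckW (w : Word) : Prop := hgt w = 0 ∧ ∀ k, 0 ≤ hgt (w.take k)

/-- good words: a Dyck word, followed by the defect if the length is odd -/
def Good (w : Word) : Prop := DyckW (w.take (2 * (w.length / 2)))

/-- the area under the path, as a natural number -/
def area (w : Word) : ℕ := (∑ k ∈ Finset.range (w.length + 1), (hgt (w.take k) + w.length)).toNat

theorem good_base (m : ℕ) : Good (base m).1 := sorry
theorem tri_step (m : ℕ) (σ : Wd (m + 1)) (hd : Good σ.1) (hσ : σ ≠ base m) :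
    ∃ i, i + 1 < m + 1 ∧ E m i σ ≠ σ ∧ Good (E m i σ).1 ∧ area σ.1 < area (E m i σ).1 ∧
      ∀ τ, E m i τ = E m i σ → τ ≠ σ → τ ≠ E m i σ → (Good τ.1 ∧ area σ.1 < area τ.1) := sorry
theorem area_le {m : ℕ} (σ : Wd (m + 1)) : area σ.1 ≤ 2 * (m + 2) * (m + 2) := sorry
theorem base_no_arc {m i : ℕ} (hm : 1 ≤ m) (hi : i < m + 1) (hn : i + 1 ≠ (m + 1) / 2)
    (τ : Wd (m + 1)) : E m i τ ≠ base m := sorry
theorem rot_to_good (m : ℕ) (σ : Wd (m + 1)) : ∃ k : ℕ, Good ((rot m)^[k] σ).1 := sorry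

/-! ## Module C (file Markov.lean, imports Rel, Trans, Tri; port of H974R3.Markov) -/

/-- compositions of `K` transfer maps -/
inductive IsWord (m : ℕ) : ℕ → (Wd (m + 1) → Wd (m + 1)) → Prop
  | id : IsWord m 0 id
  | step (c : Fin (m + 1) → Bool) (w : Wd (m + 1) → Wd (m + 1)) (K : ℕ) :
      IsWord m K w → IsWord m (K + 1) (Tc m c ∘ w)

theorem exists_word (m : ℕ) : ∃ K w, IsWord m K w ∧ ∀ σ, w σ = base m := sorry
theorem markov_unique (m : ℕ) (v : Wd (m + 1) → ℂ)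
    (h : ∀ σ, ∑ c : Fin (m + 1) → Bool, push (Tc m c) v σ = 2 ^ (m + 1) * v σ)
    (hs : ∑ σ, v σ = 0) : v = 0 := sorry
theorem markov_exists (m : ℕ) : ∃ μ : Wd (m + 1) → ℝ, (∀ σ, 0 ≤ μ σ) ∧ ∑ σ, μ σ = 1 ∧
    (∀ σ, ∑ c : Fin (m + 1) → Bool, push (Tc m c) μ σ = 2 ^ (m + 1) * μ σ) ∧
    0 < μ (base m) ∧ ∀ σ, μ (rot m σ) = μ σ := sorry

/-! ## Module D0 (file Gen.lean, imports Markov, TransZ; port of H974R3.Gen) -/

theorem generic_unique (q : ℂ) (hq : q ^ 2 + q + 1 = 0) (m : ℕ) :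
    ∃ Z0 : MvPolynomial (Fin (m + 1)) ℂ, Z0 ≠ 0 ∧ ∀ z, eval z Z0 ≠ 0 →
      ∀ v : Wd (m + 1) → ℂ, (Tz q z v = fun σ => (∏ j, (1 + z j)) * v σ) →
        ∑ σ, v σ = 0 → v = 0 := sorry
theorem dense_agree {N : ℕ} (D : MvPolynomial (Fin N) ℂ) (hD : D ≠ 0)
    (f g : (Fin N → ℂ) → ℂ) (hf : Continuous f) (hg : Continuous g)
    (h : ∀ z, eval z D ≠ 0 → f z = g z) : f = g := sorry

/-! ## Module D1 (file Phi.lean, imports Markov, TransZ; port of H974R3.Phi) -/

theorem exists_Phi (q : ℂ) (hq : q ^ 2 + q + 1 = 0) (m : ℕ) :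
    ∃ Φ : Wd (m + 1) → FractionRing (MvPolynomial (Fin (m + 1)) ℂ),
      (∑ σ, Φ σ = 1) ∧
      (Tz (algebraMap (MvPolynomial (Fin (m + 1)) ℂ) _ (C q))
        (fun j => algebraMap (MvPolynomial (Fin (m + 1)) ℂ) _ (X j)) Φ
          = fun σ => (∏ j, (1 + algebraMap (MvPolynomial (Fin (m + 1)) ℂ) _ (X j))) * Φ σ) ∧
      Φ (base m) ≠ 0 ∧
      ∀ v : Wd (m + 1) → FractionRing (MvPolynomial (Fin (m + 1)) ℂ),
        (Tz (algebraMap (MvPolynomial (Fin (m + 1)) ℂ) _ (C q))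
          (fun j => algebraMap (MvPolynomial (Fin (m + 1)) ℂ) _ (X j)) v
            = fun σ => (∏ j, (1 + algebraMap (MvPolynomial (Fin (m + 1)) ℂ) _ (X j))) * v σ) →
        ∑ σ, v σ = 0 → v = 0 := sorry

/-! ## Module D2 (file Psi.lean, imports Phi, Tri, TransZ; port of H974R3.Psi) -/

theorem exists_psi (q : ℂ) (hq : q ^ 2 + q + 1 = 0) (m : ℕ) :
    ∃ Ψ : Wd (m + 1) → MvPolynomial (Fin (m + 1)) ℂ, PsiSpec q m Ψ := sorry

/-! ## Module F (file Rec.lean, imports Gen, TransZ, TransIns, Ins; port of H974R3.Rec) -/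

/-- recursion factor -/
noncomputable def Fac {N : ℕ} (q x : ℂ) (z : Fin N → ℂ) : ℂ :=
  (-1) ^ N * (q - 1) * x * ∏ j, (z j - q ^ 2 * x) ^ 2

theorem psi_rec (q : ℂ) (hq : q ^ 2 + q + 1 = 0) (m : ℕ)
    (Ψ : Wd (m + 1) → MvPolynomial (Fin (m + 1)) ℂ) (h : PsiSpec q m Ψ)
    (Ψ' : Wd (m + 3) → MvPolynomial (Fin (m + 3)) ℂ) (h' : PsiSpec q (m + 2) Ψ')
    (x : ℂ) (z : Fin (m + 1) → ℂ) :
    (∀ σ : Wd (m + 1), eval (Fin.cons x (Fin.cons (q * x) z)) (Ψ' (ins σ))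
      = Fac q x z * eval z (Ψ σ)) ∧
    ∀ τ : Wd (m + 3), (∀ σ : Wd (m + 1), ins σ ≠ τ) →
      eval (Fin.cons x (Fin.cons (q * x) z)) (Ψ' τ) = 0 := sorry

/-! ## Module FA (file FamEx.lean, imports Psi, Rec, Markov, Rel, Lst, Lst2) -/

theorem exists_Fam (q : ℂ) (hq : q ^ 2 + q + 1 = 0) : ∃ Ψ : List ℂ → VW, Fam q Ψ := sorry

/-! ## Module K1 (file KEx.lean, imports Lst, Lst2) -/

theorem exists_K (q : ℂ) : ∃ K : VW →ₗ[ℂ] VW, KSpec q K := sorry

/-! ## Module K2 (file KRel.lean, imports Lst, Lst2) -/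

theorem K_mem {q : ℂ} {K : VW →ₗ[ℂ] VW} (hK : KSpec q K) {N : ℕ} {v : VW} (hv : v ∈ VN N) :
    K v ∈ VN (N + 1) := sorry
theorem K_cap {q : ℂ} (hq : q ^ 2 + q + 1 = 0) {K : VW →ₗ[ℂ] VW} (hK : KSpec q K) {N i : ℕ}
    (hi : i + 2 ≤ N) {v : VW} (hv : v ∈ VN N) : lin (cap (i + 1)) (K v) = K (lin (cap i) v) := sorry
theorem K_lins {q : ℂ} {K : VW →ₗ[ℂ] VW} (hK : KSpec q K) {N i : ℕ}
    (hi : i ≤ N) {v : VW} (hv : v ∈ VN N) : K (lin (lins i) v) = lin (lins (i + 1)) (K v) := sorry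
theorem K_act {q : ℂ} (hq : q ^ 2 + q + 1 = 0) {K : VW →ₗ[ℂ] VW} (hK : KSpec q K) {N i : ℕ}
    (hi : i + 2 ≤ N) {v : VW} (hv : v ∈ VN N) : lin (act (i + 1)) (K v) = K (lin (act i) v) := sorry
theorem K_seam {q : ℂ} {K : VW →ₗ[ℂ] VW} (hK : KSpec q K) {N : ℕ} {v : VW} (hv : v ∈ VN N) :
    K (lin seam v) = -(q ^ 2 • lin seam (K v) + q • lin (act 0) (lin seam (K v))) := sorry

/-! ## Module F1 (file FEx.lean, imports Lst, Lst2) -/

theorem exists_F : ∃ f : Word → Word → ℕ, FSpec f := sorry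
/-! ## Module P (file Pair.lean, imports Lst, Lst2) -/

theorem pr_bs (f : Word → Word → ℕ) (t : ℂ) (w' w : Word) : pr f t (bs w') (bs w) = t ^ f w' w := sorry
theorem pr_lins_right {f : Word → Word → ℕ} (hf : FSpec f) (t : ℂ) {N i : ℕ} (hi : i ≤ N)
    {v' v : VW} (hv' : v' ∈ VN (N + 2)) (hv : v ∈ VN N) :
    pr f t v' (lin (lins i) v) = pr f t (lin (cap i) v') v := sorry
theorem pr_lins_left {f : Word → Word → ℕ} (hf : FSpec f) (t : ℂ) {N i : ℕ} (hi : i ≤ N)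
    {v' v : VW} (hv' : v' ∈ VN N) (hv : v ∈ VN (N + 2)) :
    pr f t (lin (lins i) v') v = pr f t v' (lin (cap i) v) := sorry
theorem pr_act {f : Word → Word → ℕ} (hf : FSpec f) (t : ℂ) {N i : ℕ} (hi : i + 2 ≤ N)
    {v' v : VW} (hv' : v' ∈ VN N) (hv : v ∈ VN N) :
    pr f t (lin (act i) v') v = pr f t v' (lin (act i) v) := sorry
theorem pr_seam {f : Word → Word → ℕ} (hf : FSpec f) (t : ℂ) {N : ℕ}
    {v' v : VW} (hv' : v' ∈ VN N) (hv : v ∈ VN N) :
    pr f t (lin seam v') (lin seam v) = t * pr f t v' v := sorry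
theorem lin_act {N i : ℕ} (hi : i + 2 ≤ N) {v : VW} (hv : v ∈ VN N) :
    lin (act i) v = lin (lins i) (lin (cap i) v) := sorry

/-! ## Module PK (file PairK.lean, imports Pair, KRel): the braid constant -/

theorem pr_K {q : ℂ} (hq : q ^ 2 + q + 1 = 0) {K K' : VW →ₗ[ℂ] VW} (hK : KSpec q K)
    (hK' : KSpec (q ^ 2) K') {f : Word → Word → ℕ} (hf : FSpec f) (t : ℂ) {N : ℕ}
    {v' v : VW} (hv' : v' ∈ VN N) (hv : v ∈ VN N) :
    pr f t (K' v') (K v) = cst N t * pr f t v' v := sorry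

/-! ## Module BL (file Braid.lean, imports KRel): the braid limit of the ground state -/

theorem braid_limit {q : ℂ} (hq : q ^ 2 + q + 1 = 0) {Ψ : List ℂ → VW} (hΨ : Fam q Ψ)
    {K : VW →ₗ[ℂ] VW} (hK : KSpec q K) (m : List ℂ) : Ψ (0 :: m) = m.prod • K (Ψ m) := sorry

/-! ## Module G (file GProp.lean, imports Pair, PairK, Braid) -/

/-- characterisation of the function `G_N(z)` for all `N` -/
structure GSpec (q t : ℂ) (G : List ℂ → ℂ) : Prop where
  perm : ∀ l l' : List ℂ, l.Perm l' → G l = G l'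
  nil : G [] = 1
  deg : ∀ N, PD N (2 * (N - 1)) G
  recu : ∀ (x : ℂ) (m : List ℂ), G (x :: (q * x) :: m)
    = q * x ^ 2 * (m.map (fun y => (y - q ^ 2 * x) ^ 4)).prod * G m
  zero : ∀ m : List ℂ, G (0 :: m) = cst m.length t * m.prod ^ 2 * G m

theorem pr_GSpec {q : ℂ} (hq : q ^ 2 + q + 1 = 0) {Ψ Ψ' : List ℂ → VW} (hΨ : Fam q Ψ)
    (hΨ' : Fam (q ^ 2) Ψ') {K K' : VW →ₗ[ℂ] VW} (hK : KSpec q K) (hK' : KSpec (q ^ 2) K')
    {f : Word → Word → ℕ} (hf : FSpec f) (t : ℂ) :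
    GSpec q t (fun z => pr f t (Ψ' z) (Ψ z)) := sorry

/-! ## Module R1 (file DetP.lean): the determinant as a polynomial in the first variable -/

theorem det_poly {q w : ℂ} (hq : q ^ 2 + q + 1 = 0) {N : ℕ} (z : Fin N → ℂ) (hz : Gen q z) :
    ∃ P : Polynomial ℂ, P.natDegree ≤ 4 * N ∧
      (∀ x, Gen q (Fin.cons x z : Fin (N + 1) → ℂ) →
        P.eval x = wd q (Fin.cons x z : Fin (N + 1) → ℂ) * (∏ i, (Fin.cons x z : Fin (N + 1) → ℂ) i)
          * (kern q w (Fin.cons x z : Fin (N + 1) → ℂ)).det) ∧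
      P.eval 0 = (1 + w) / (q ^ 2 - q) * (∏ i, z i) ^ 4 * (wd q z * (∏ i, z i) * (kern q w z).det) ∧
      ∀ i, P.eval (z i) = 0 ∧ P.derivative.eval (z i) = 0 := sorry

theorem det_rec {q w : ℂ} (hq : q ^ 2 + q + 1 = 0) {N : ℕ} (y : ℂ) (z : Fin N → ℂ)
    (hz : Gen q (Fin.cons y z : Fin (N + 1) → ℂ)) (P : Polynomial ℂ)
    (hP : ∀ x, Gen q (Fin.cons x (Fin.cons y z) : Fin (N + 2) → ℂ) →
        P.eval x = wd q (Fin.cons x (Fin.cons y z) : Fin (N + 2) → ℂ)
          * (∏ i, (Fin.cons x (Fin.cons y z) : Fin (N + 2) → ℂ) i)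
          * (kern q w (Fin.cons x (Fin.cons y z) : Fin (N + 2) → ℂ)).det) :
    -- `x = q² y`, i.e. `(x, y) = (x, q x)`
    P.eval (q ^ 2 * y) = -w * (q * (q ^ 2 * y) ^ 2) * (-3 * q * (q ^ 2 * y) ^ 2)
        * (∏ j, ((z j - y) ^ 2 * (z j - q * y) ^ 4 * (z j - q ^ 2 * y) ^ 2))
        * (wd q z * (∏ i, z i) * (kern q w z).det) ∧
    -- `x = q y`, i.e. `(y, x) = (y, q y)`
    P.eval (q * y) = -w * (q * y ^ 2) * (-3 * q * y ^ 2)
        * (∏ j, ((z j - q * y) ^ 2 * (z j - q ^ 2 * y) ^ 4 * (z j - y) ^ 2))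
        * (wd q z * (∏ i, z i) * (kern q w z).det) := sorry

/-! ## Module R2 (file DetG.lean, imports DetP): the determinant formula -/

theorem G_formula {q w : ℂ} (hq : q ^ 2 + q + 1 = 0) (hw : w ≠ 0) (hw1 : w ≠ -1)
    {G : List ℂ → ℂ} (hG : GSpec q (w + w⁻¹) G) (N : ℕ) (z : Fin N → ℂ) (hz : Gen q z) :
    G (List.ofFn z) * vd z = cN q w N * (wd q z * (∏ i, z i) * (kern q w z).det) := sorry

/-! ## Module R3 (file Hom.lean): the homogeneous limit (helper160) -/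

theorem hom_limit {q w : ℂ} (hq : q ^ 2 + q + 1 = 0) {N : ℕ} (G : (Fin N → ℂ) → ℂ)
    (hG : Continuous G)
    (h : ∀ z, Gen q z → G z * vd z = wd q z * (∏ i, z i) * (kern q w z).det) :
    G (fun _ => 1) = 3 ^ (N * (N - 1) / 2) * (q / (1 - q ^ 2)) ^ N *
      (Matrix.of fun i j : Fin N => (if i = j then 1 else 0)
        + w * ((i.val + j.val).choose i.val : ℂ)).det := sorry

/-! ## Module R4 (file GOnes.lean, imports DetG, Hom) -/

theorem G_ones {q w : ℂ} (hq : q ^ 2 + q + 1 = 0) (hw : w ≠ 0) (hw1 : w ≠ -1)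
    {G : List ℂ → ℂ} (hG : GSpec q (w + w⁻¹) G) (n : ℕ) :
    G (List.replicate (2 * n) 1) = 3 ^ (2 * n * (n - 1)) * (w⁻¹) ^ n * (pas w (2 * n)).det := sorry

/-! ## Module Z (file Value.lean, imports everything above): the exact one-arm formula -/

/-- the ratio of Pascal determinants -/
noncomputable def oneArm (n : ℕ) : ℝ :=
  ‖(pas Complex.I (2 * n)).det‖ / ‖(pas (Complex.exp (Real.pi / 3 * Complex.I)) (2 * n)).det‖

open Classical in
/-- the exact formula for a stationary measure on the words of length `2n` -/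
theorem onearm_value {n : ℕ} (hn : 1 ≤ n) {f : Word → Word → ℕ} (hf : FSpec f)
    (μ : Wd (2 * n - 1 + 1) → ℝ) (hμ0 : ∀ σ, 0 ≤ μ σ) (hμ : ∑ σ, μ σ = 1)
    (hst : ∀ σ, ∑ c : Fin (2 * n - 1 + 1) → Bool, push (Tc (2 * n - 1) c) μ σ
      = 2 ^ (2 * n - 1 + 1) * μ σ) :
    ∑ σ, ∑ τ, (if f σ.1 τ.1 = 0 then 1 else 0) * μ σ * μ τ = oneArm n := sorry

/-! ## Semantics: faces of the universal cover -/

/-- the sign of the (lifted) strand `j` -/
def sg (w : Word) (j : ℤ) : ℤ := if w.getD (j % (w.length : ℤ)).toNat true then 1 else -1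

/-- height difference of the faces `j ≤ k` (face `j` is between the strands `j-1` and `j`) -/
noncomputable def Sh (w : Word) (j k : ℤ) : ℤ := ∑ i ∈ Finset.Ico j k, sg w i

/-- the (lifted) faces `j ≤ k` are connected by the word -/
def Rle (w : Word) (j k : ℤ) : Prop := j ≤ k ∧ (∀ l, j ≤ l → l ≤ k → 0 ≤ Sh w j l) ∧ Sh w j k = 0

/-- the (lifted) faces `j`, `k` are connected by the word -/
def Rw (w : Word) (j k : ℤ) : Prop := Rle w j k ∨ Rle w k j

/-! ### Module S1 (file Sem1.lean, imports Lst) -/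

theorem Rw_equiv (w : Word) : Equivalence (Rw w) := sorry
theorem Rw_shift (w : Word) (j k : ℤ) : Rw w (j + w.length) (k + w.length) ↔ Rw w j k := sorry
theorem Rw_rotr (w : Word) (hw : w ≠ []) (j k : ℤ) : Rw (rotr w) (j + 1) (k + 1) ↔ Rw w j k := sorry
/-- faces isolated by `act i` -/
def isol (w : Word) (i : ℕ) (a : ℤ) : Prop := ∃ k : ℤ, a = i + 1 + k * w.length

theorem Rw_act {i : ℕ} {w : Word} (hw : Ok w) (h2 : 2 ≤ w.length) (a b : ℤ) :
    Rw (act i w) a b ↔ (a = b ∨ (¬ isol w i a ∧ ¬ isol w i b ∧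
      Relation.EqvGen (fun x y => (¬ isol w i x ∧ ¬ isol w i y ∧ Rw w x y) ∨
        ∃ k : ℤ, x = i + k * w.length ∧ y = i + 2 + k * w.length) a b)) := sorry

/-! ### Module S2 (file Sem2.lean, imports Sem1, Rel, Trans): one row of plaquettes -/

/-- the state of the lifted plaquette `j` -/
def cl {m : ℕ} (c : Fin (m + 1) → Bool) (j : ℤ) : Bool := c (ix m (j % (m + 1 : ℤ)).toNat)

/-- the connections of a row: lower faces `(a, false)`, upper faces `(a, true)` -/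
inductive Row (m : ℕ) (c : Fin (m + 1) → Bool) (w : Word) : ℤ × Bool → ℤ × Bool → Prop
  | low (a b : ℤ) : Rw w a b → Row m c w (a, false) (b, false)
  | link0 (j : ℤ) : cl c j = false → Row m c w (j, false) (j + 1, true)
  | link1 (j : ℤ) : cl c j = true → Row m c w (j + 1, false) (j, true)

theorem Rw_Tc (m : ℕ) (hm : 1 ≤ m) (c : Fin (m + 1) → Bool) (σ : Wd (m + 1)) (a b : ℤ) :
    Rw (Tc m c σ).1 a b ↔ Relation.EqvGen (Row m c σ.1) (a, true) (b, true) := sorry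

/-! ### Module S3 (file Sem3.lean, imports Sem2): several rows -/

/-- iterate rows: `rows m c M σ0` is the pattern after the rows `c 0, …, c (M-1)` -/
noncomputable def rows (m : ℕ) (c : ℕ → Fin (m + 1) → Bool) : ℕ → Wd (m + 1) → Wd (m + 1)
  | 0, σ => σ
  | (t + 1), σ => Tc m (c t) (rows m c t σ)

/-- the connections in `M` rows: faces `(a, t)`, `0 ≤ t ≤ M` -/
inductive Lk (m : ℕ) (c : ℕ → Fin (m + 1) → Bool) (M : ℕ) (w : Word) : ℤ × ℕ → ℤ × ℕ → Prop
  | bot (a b : ℤ) : Rw w a b → Lk m c M w (a, 0) (b, 0)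
  | link0 (j : ℤ) (t : ℕ) : t < M → cl (c t) j = false → Lk m c M w (j, t) (j + 1, t + 1)
  | link1 (j : ℤ) (t : ℕ) : t < M → cl (c t) j = true → Lk m c M w (j + 1, t) (j, t + 1)

theorem Rw_rows (m : ℕ) (hm : 1 ≤ m) (c : ℕ → Fin (m + 1) → Bool) (M : ℕ) (σ : Wd (m + 1))
    (a b : ℤ) :
    Rw (rows m c M σ).1 a b ↔ Relation.EqvGen (Lk m c M σ.1) (a, M) (b, M) := sorry

/-! ### Module S4 (file Sem4.lean, imports Sem1, Lst2): no loop around the face -/

theorem f_zero_iff {f : Word → Word → ℕ} (hf : FSpec f) {n : ℕ} {w' w : Word} (h' : Ok w')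
    (h : Ok w) (hl' : w'.length = 2 * n) (hl : w.length = 2 * n) :
    f w' w = 0 ↔ Relation.EqvGen (fun j k => Rw w' j k ∨ Rw w j k) 0 (2 * n) := sorry

end Pool.Agent.H863R2.Cyl
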